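import Mathlib

/-!
Definitions for the partial regularity theorem of stationary Lipschitz maps of the plane.
-/

namespace Pool.Agent.SLG

open MeasureTheory

/-- The Euclidean plane. -/
abbrev E2 := EuclideanSpace ℝ (Fin 2)

/-- The coordinate vectors of the plane. -/
noncomputable def ee (j : Fin 2) : E2 := EuclideanSpace.single j 1

/-- Real `n × 2` matrices. -/
abbrev Mat (n : ℕ) := Fin n → Fin 2 → ℝ

/-- Jacobian matrix of `u` at `x`. -/
noncomputable def Jac {n : ℕ} (u : E2 → Fin n → ℝ) (x : E2) : Mat n :=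
  fun i j => fderiv ℝ u x (ee j) i

/-- The matrix `Df(X)` of partial derivatives of `f` at `X`. -/
noncomputable def Grd {n : ℕ} (f : Mat n → ℝ) (X : Mat n) : Mat n :=
  fun i j => fderiv ℝ f X (Pi.single i (Pi.single j 1))

/-- The entries of the matrix `X^T Df(X) - f(X) I`. -/
noncomputable def Zf {n : ℕ} (f : Mat n → ℝ) (X : Mat n) (k j : Fin 2) : ℝ :=
  (∑ i, X i k * Grd f X i j) - (if k = j then f X else 0)

/-- Index set of the rows of the lifted matrix. -/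
abbrev Idx (n : ℕ) := Fin n ⊕ (Fin n ⊕ Fin 2)

/-- The lifted matrix `(X; Df(X) J; (X^T Df(X) - f(X) I) J)`, `J = (0 1; -1 0)`. -/
noncomputable def Wf {n : ℕ} (f : Mat n → ℝ) (X : Mat n) : Idx n → Fin 2 → ℝ
  | .inl i => X i
  | .inr (.inl i) => fun j => if j = 0 then -Grd f X i 1 else Grd f X i 0
  | .inr (.inr k) => fun j => if j = 0 then -Zf f X k 1 else Zf f X k 0

/-- The `2 × 2` minor of the rows `p`, `q`. -/
def minor {I : Type} (M : I → Fin 2 → ℝ) (p q : I) : ℝ := M p 0 * M q 1 - M p 1 * M q 0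

/-- Squared Euclidean norm of a matrix with two columns. -/
def sq {I : Type} [Fintype I] (M : I → Fin 2 → ℝ) : ℝ := ∑ i, ∑ j, (M i j) ^ 2

/-- The two-point condition for `f` on `K`: for every `A ∈ K` some linear combination of the
`2 × 2` minors of `Wf f X - Wf f A` is at least `c |X - A|^2` for `X ∈ K` and for `X` near `A`. -/
def TwoPoint {n : ℕ} (f : Mat n → ℝ) (K : Set (Mat n)) : Prop :=
  ∀ A ∈ K, ∃ C : Idx n → Idx n → ℝ, ∃ c : ℝ, 0 < c ∧ ∃ r : ℝ, 0 < r ∧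
    ∀ X : Mat n, (X ∈ K ∨ ‖X - A‖ < r) →
      c * sq (X - A) ≤ ∑ p, ∑ q, C p q * minor (Wf f X - Wf f A) p q

/-- `u` is critical for outer and inner variations of `∫_Ω f(Du)`. -/
def Stationary {n : ℕ} (f : Mat n → ℝ) (Ω : Set E2) (u : E2 → Fin n → ℝ) : Prop :=
  (∀ φ : E2 → Fin n → ℝ, ContDiff ℝ ((⊤ : ℕ∞) : WithTop ℕ∞) φ → HasCompactSupport φ →
    tsupport φ ⊆ Ω → ∫ x in Ω, ∑ i, ∑ j, Grd f (Jac u x) i j * Jac φ x i j = 0) ∧
  (∀ Φ : E2 → Fin 2 → ℝ, ContDiff ℝ ((⊤ : ℕ∞) : WithTop ℕ∞) Φ → HasCompactSupport Φ →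
    tsupport Φ ⊆ Ω →
    ∫ x in Ω, (f (Jac u x) * (∑ k, Jac Φ x k k)
      - ∑ i, ∑ j, Grd f (Jac u x) i j * ∑ k, Jac u x i k * Jac Φ x k j) = 0)

/-- `u` is `C^1` on an open subset of `Ω` of full measure. -/
def PartiallyRegular {n : ℕ} (Ω : Set E2) (u : E2 → Fin n → ℝ) : Prop :=
  ∃ Ω₀ : Set E2, IsOpen Ω₀ ∧ Ω₀ ⊆ Ω ∧ volume (Ω \ Ω₀) = 0 ∧ ContDiffOn ℝ 1 u Ω₀

/-! ### Working notions (not used in the final statements) -/

/-- Partial derivative of a scalar function. -/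
noncomputable def pd (j : Fin 2) (g : E2 → ℝ) (x : E2) : ℝ := fderiv ℝ g x (ee j)

/-- Iterated partial derivatives. -/
noncomputable def pds : List (Fin 2) → (E2 → ℝ) → (E2 → ℝ)
  | [], g => g
  | j :: l, g => pd j (pds l g)

/-- Gradient matrix of a family of scalar functions. -/
noncomputable def grad {I : Type} (w : I → E2 → ℝ) (x : E2) : I → Fin 2 → ℝ :=
  fun i j => pd j (w i) x

/-- The `X`-part of the gradient matrix of a family `w`, along an embedding `e`. -/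
noncomputable def uJac {n : ℕ} {I : Type} (e : Fin n → I) (w : I → E2 → ℝ) (x : E2) : Mat n :=
  fun k m => pd m (w (e k)) x

/-- Measurable and bounded on bounded sets. -/
def LB (g : E2 → ℝ) : Prop := Measurable g ∧ ∀ R : ℝ, ∃ B : ℝ, ∀ x : E2, ‖x‖ ≤ R → |g x| ≤ B

/-- The smooth mollifier of radius `ε` (zero if `ε ≤ 0`). -/
noncomputable def ker (ε : ℝ) : E2 → ℝ :=
  if h : 0 < ε then
    (ContDiffBump.mk (c := (0 : E2)) (ε / 2) ε (by positivity) (by linarith)).normed volume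
  else 0

/-- Mollification. -/
noncomputable def mol (ε : ℝ) (g : E2 → ℝ) (x : E2) : ℝ := ∫ y, ker ε (x - y) * g y

/-- Linear maps from matrices to lifted matrices, by coefficients. -/
abbrev Lin (n : ℕ) (I : Type) := I → Fin 2 → Fin n → Fin 2 → ℝ

/-- Application of a coefficient array. -/
def app {n : ℕ} {I : Type} (T : Lin n I) (D : Mat n) : I → Fin 2 → ℝ :=
  fun i j => ∑ k, ∑ m, T i j k m * D k m

/-- Coefficients of the derivative of `W` at `A`. -/
noncomputable def DW {n : ℕ} {I : Type} [Fintype I] (W : Mat n → I → Fin 2 → ℝ) (A : Mat n) :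
    Lin n I := fun i j k m => fderiv ℝ W A (Pi.single k (Pi.single m 1)) i j

/-- Local uniform data near the matrix `A0`. -/
structure UData {n : ℕ} {I : Type} [Fintype I] (e : Fin n → I) (W : Mat n → I → Fin 2 → ℝ)
    (K : Set (Mat n)) (A0 : Mat n) (C : I → I → ℝ) (c ρ : ℝ) : Prop where
  smooth : ContDiff ℝ 1 W
  emb : ∀ X i j, W X (e i) j = X i j
  cpos : 0 < c
  rpos : 0 < ρ
  bdd : ∃ R : ℝ, ∀ X ∈ K, ‖X‖ ≤ R
  two : ∀ A, ‖A - A0‖ ≤ ρ → ∀ X ∈ K,
    c * sq (X - A) ≤ ∑ p, ∑ q, C p q * minor (W X - W A) p q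
  lin : ∀ A, ‖A - A0‖ ≤ ρ → ∀ D : Mat n,
    c * sq D ≤ ∑ p, ∑ q, C p q * minor (fderiv ℝ W A D) p q

/-- The quadratic excess. -/
noncomputable def Exc {n : ℕ} {I : Type} [Fintype I] (W : Mat n → I → Fin 2 → ℝ)
    (w : I → E2 → ℝ) (x : E2) (r : ℝ) (A : Mat n) (b : I → ℝ) : ℝ :=
  ∫ z in Metric.ball x r, ∑ i, (w i z - (∑ j, W A i j * (z j - x j)) - b i) ^ 2

/-- The differential inclusion on a set, almost everywhere. -/
def Incl {n : ℕ} {I : Type} [Fintype I] (e : Fin n → I) (W : Mat n → I → Fin 2 → ℝ)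
    (K : Set (Mat n)) (w : I → E2 → ℝ) (S : Set E2) : Prop :=
  ∀ᵐ y ∂(volume.restrict S), uJac e w y ∈ K ∧ grad w y = W (uJac e w y)

end Pool.Agent.SLG
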