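import Pool.Agent.SLG.Defs

/-!
ROW A1 (integration by parts for Lipschitz functions).
Proof: Mathlib has `LipschitzWith.integral_lineDeriv_mul_eq`
(Mathlib.Analysis.Calculus.Rademacher): for `g`, `φ` Lipschitz and `φ` compactly supported,
`∫ lineDeriv ℝ g x v * φ x = ∫ lineDeriv ℝ φ x (-v) * g x`.  Lipschitz functions are
differentiable a.e. (`LipschitzWith.ae_differentiableAt`), and at such points
`lineDeriv ℝ g x v = fderiv ℝ g x v` (`DifferentiableAt.lineDeriv_eq_fderiv`), so replace
`lineDeriv` by `fderiv` inside both integrals (`integral_congr_ae`); the sign comes from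
`map_neg`.  `E2` has the measure `volume`, an additive Haar measure.
-/

namespace Pool.Agent.SLG

open MeasureTheory

theorem ibp {g φ : E2 → ℝ} {L M : NNReal} (hg : LipschitzWith L g) (hφ : LipschitzWith M φ)
    (hc : HasCompactSupport φ) (j : Fin 2) :
    ∫ x, pd j g x * φ x = -∫ x, g x * pd j φ x := by
  have h := hg.integral_lineDeriv_mul_eq (μ := volume) hφ hc (ee j)
  have h1 : ∫ x, pd j g x * φ x = ∫ x, lineDeriv ℝ g x (ee j) * φ x := by
    refine integral_congr_ae ?_
    filter_upwards [hg.ae_differentiableAt (μ := volume)] with x hx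
    simp only [pd]
    rw [hx.lineDeriv_eq_fderiv]
  have h2 : ∫ x, lineDeriv ℝ φ x (-ee j) * g x = -∫ x, g x * pd j φ x := by
    rw [← integral_neg]
    refine integral_congr_ae ?_
    filter_upwards [hφ.ae_differentiableAt (μ := volume)] with x hx
    simp only [pd]
    rw [hx.lineDeriv_eq_fderiv, map_neg]
    ring
  rw [h1, h, h2]

end Pool.Agent.SLG
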