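import Pool.Agent.SLG.A1

/-!
ROW A2 (symmetry of weak second derivatives).
For `φ` Lipschitz with compact support and `q` Lipschitz:
`∫ ∂₀φ ∂₁q = ∫ ∂₁φ ∂₀q`.
Proof: choose a smooth compactly supported mollification of `φ`. Let `ρ_k` be a
`ContDiffBump (0 : E2)` with `rOut = 1/(k+1)` and `φ_k := (ρ_k.normed volume) ⋆[lsmul ℝ ℝ] φ`
(`MeasureTheory.convolution`).  `φ_k` is smooth (`HasCompactSupport.contDiff_convolution_left`),
compactly supported, and Lipschitz with the same constant as `φ` (the kernel is nonnegative with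
integral one), and `∂_j φ_k = ρ_k ⋆ ∂_j φ` (or: use difference quotients / Rademacher).
For smooth `φ_k`: by `ibp` applied to `q` and `∂_i φ_k` (smooth compactly supported, hence
Lipschitz), `∫ ∂₁q ∂₀φ_k = -∫ q ∂₁∂₀φ_k = -∫ q ∂₀∂₁φ_k = ∫ ∂₀q ∂₁φ_k`
(symmetry of the second derivative, e.g. `second_derivative_symmetric` /
`ContDiffAt.isSymmSndFDerivAt`).
Limit `k → ∞`: ALTERNATIVE WITHOUT MOLLIFYING `φ`'s derivative in L¹: the integral
`∫ ∂₀φ_k ∂₁q` equals `-∫ φ_k d(∂₁ q)`, which is not available, so use: `∂_jφ_k = ρ_k ⋆ ∂_jφ`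
converges to `∂_jφ` at every Lebesgue point, i.e. a.e.
(`ContDiffBump.ae_convolution_tendsto_right_of_locallyIntegrable`), all functions are bounded by
the Lipschitz constant and supported in a fixed ball, and `∂₁q` is bounded: dominated convergence
(`tendsto_integral_of_dominated_convergence`).
(If you prefer: it is enough to prove the statement for the bilinear form with difference
quotients: `∫ (φ(x+s e₀)-φ(x))/s · (q(x+t e₁)-q(x))/t dx` can be rewritten by translation
invariance of the integral into the same expression with the roles exchanged and a sign, then let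
first `t → 0` and then `s → 0` by dominated convergence.)
Measurability: `measurable_fderiv_apply_const`. Bound: `|pd j q x| ≤ L` from
`norm_fderiv_le_of_lipschitz`, `‖ee j‖ = 1`.
-/

namespace Pool.Agent.SLG

open MeasureTheory

theorem a2_norm_ee (j : Fin 2) : ‖ee j‖ = 1 := by
  unfold ee
  rw [PiLp.norm_single, norm_one]

theorem a2_pd_le {g : E2 → ℝ} {L : NNReal} (hg : LipschitzWith L g) (j : Fin 2) (x : E2) : |pd j g x| ≤ L := by
  have h1 : ‖fderiv ℝ g x (ee j)‖ ≤ ‖fderiv ℝ g x‖ * ‖ee j‖ := ContinuousLinearMap.le_opNorm _ _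
  rw [a2_norm_ee, mul_one] at h1
  exact h1.trans (norm_fderiv_le_of_lipschitz ℝ hg)

theorem a2_pd_meas (g : E2 → ℝ) (j : Fin 2) : Measurable (pd j g) :=
  measurable_fderiv_apply_const ℝ g (ee j)

theorem a2_integrable {h : E2 → ℝ} (hm : Measurable h) {B : ℝ} (hB : ∀ x, |h x| ≤ B) {K : Set E2} (hK : IsCompact K)
    (h0 : ∀ x, x ∉ K → h x = 0) : Integrable h volume := by
  have h1 : IntegrableOn h K volume :=
    Measure.integrableOn_of_bounded hK.measure_lt_top.ne hm.aestronglyMeasurable (ae_of_all _ hB)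
  exact (integrableOn_iff_integrable_of_support_subset (fun x hx => by_contra fun hn => hx (h0 x hn))).1 h1

theorem a2_pd_zero {g : E2 → ℝ} (j : Fin 2) {x : E2} (hx : x ∉ tsupport g) : pd j g x = 0 := by
  have h1 : fderiv ℝ g x = 0 := by
    by_contra hne
    exact hx (support_fderiv_subset ℝ (Function.mem_support.2 hne))
  unfold pd
  rw [h1]
  rfl

theorem a2_pd_shift (g : E2 → ℝ) (j : Fin 2) (a x : E2) : pd j (fun y => g (y + a)) x = pd j g (x + a) := by
  unfold pd
  rw [fderiv_comp_add_right]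

theorem a2_lip_shift {g : E2 → ℝ} {L : NNReal} (hg : LipschitzWith L g) (a : E2) :
    LipschitzWith L fun y => g (y + a) := by
  refine LipschitzWith.of_dist_le_mul fun x y => ?_
  have h1 := hg.dist_le_mul (x + a) (y + a)
  rwa [dist_add_right] at h1

theorem a2_int_mul {φ h : E2 → ℝ} {L : NNReal} (hφ : LipschitzWith L φ) (hc : HasCompactSupport φ) (hm : Measurable h)
    {B : ℝ} (hB : ∀ x, |h x| ≤ B) : Integrable (fun x => φ x * h x) volume := by
  obtain ⟨C, hC⟩ := hc.exists_bound_of_continuous hφ.continuous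
  refine a2_integrable (hφ.continuous.measurable.mul hm) (B := C * B) (fun x => ?_) (K := tsupport φ) hc fun x hx => ?_
  · rw [abs_mul]
    exact mul_le_mul (hC x) (hB x) (abs_nonneg _) ((norm_nonneg _).trans (hC x))
  · rw [image_eq_zero_of_notMem_tsupport hx, zero_mul]

/-- the identity for difference quotients -/
theorem a2_quot {φ q : E2 → ℝ} {L M : NNReal} (hφ : LipschitzWith L φ)
    (hc : HasCompactSupport φ) (hq : LipschitzWith M q) (s : ℝ) :
    ∫ x, (s⁻¹ • (q (x + s • ee 1) - q x)) * pd 0 φ x = -∫ x, (s⁻¹ • (φ (x + s • (-ee 1)) - φ x)) * pd 0 q x := by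
  have hpm := a2_pd_meas φ 0
  have hi1 := ibp (a2_lip_shift hq (s • ee 1)) hφ hc 0
  have hi2 := ibp hq hφ hc 0
  have e1 : ∫ x, pd 0 (fun y => q (y + s • ee 1)) x * φ x = ∫ x, φ (x + s • (-ee 1)) * pd 0 q x := by
    have h1 := integral_add_right_eq_self (μ := (volume : Measure E2)) (fun x => φ (x + s • (-ee 1)) * pd 0 q x) (s • ee 1)
    rw [← h1]
    refine integral_congr_ae (ae_of_all _ fun x => ?_)
    show pd 0 (fun y => q (y + s • ee 1)) x * φ x = φ (x + s • ee 1 + s • (-ee 1)) * pd 0 q (x + s • ee 1)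
    rw [a2_pd_shift, smul_neg, add_neg_cancel_right, mul_comm]
  have hcs : HasCompactSupport fun x => φ (x + s • (-ee 1)) := by
    exact hc.comp_homeomorph (Homeomorph.addRight (s • (-ee 1)))
  have j1 : Integrable (fun x => φ (x + s • (-ee 1)) * pd 0 q x) volume :=
    a2_int_mul (a2_lip_shift hφ _) hcs (a2_pd_meas q 0) (a2_pd_le hq 0)
  have j2 : Integrable (fun x => φ x * pd 0 q x) volume := a2_int_mul hφ hc (a2_pd_meas q 0) (a2_pd_le hq 0)
  have j3 : ∀ (r : E2 → ℝ), Continuous r → Integrable (fun x => r x * pd 0 φ x) volume := by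
    intro r hr
    obtain ⟨C, hC⟩ := hc.isCompact.exists_bound_of_continuousOn hr.continuousOn
    refine a2_integrable (hr.measurable.mul hpm) (B := |C| * L) (fun x => ?_) (K := tsupport φ) hc fun x hx => ?_
    · by_cases hx : x ∈ tsupport φ
      · rw [abs_mul]
        exact mul_le_mul ((hC x hx).trans (le_abs_self C)) (a2_pd_le hφ 0 x) (abs_nonneg _) (abs_nonneg _)
      · rw [a2_pd_zero 0 hx, mul_zero, abs_zero]
        positivity
    · rw [a2_pd_zero 0 hx, mul_zero]
  have k1 := j3 (fun x => q (x + s • ee 1)) (by have := hq.continuous; fun_prop)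
  have k2 := j3 q hq.continuous
  have l1 : ∫ x, (s⁻¹ • (q (x + s • ee 1) - q x)) * pd 0 φ x =
      s⁻¹ * ((∫ x, q (x + s • ee 1) * pd 0 φ x) - ∫ x, q x * pd 0 φ x) := by
    rw [← integral_sub k1 k2, ← integral_const_mul]
    refine integral_congr_ae (ae_of_all _ fun x => ?_)
    simp only [smul_eq_mul]
    ring
  have l2 : ∫ x, (s⁻¹ • (φ (x + s • (-ee 1)) - φ x)) * pd 0 q x =
      s⁻¹ * ((∫ x, φ (x + s • (-ee 1)) * pd 0 q x) - ∫ x, φ x * pd 0 q x) := by
    rw [← integral_sub j1 j2, ← integral_const_mul]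
    refine integral_congr_ae (ae_of_all _ fun x => ?_)
    simp only [smul_eq_mul]
    ring
  have l3 : ∫ x, pd 0 q x * φ x = ∫ x, φ x * pd 0 q x :=
    integral_congr_ae (ae_of_all _ fun x => mul_comm _ _)
  rw [l1, l2, ← e1, ← l3, hi1, hi2]
  ring

theorem symm_weak {φ q : E2 → ℝ} {L M : NNReal} (hφ : LipschitzWith L φ)
    (hc : HasCompactSupport φ) (hq : LipschitzWith M q) :
    ∫ x, pd 0 φ x * pd 1 q x = ∫ x, pd 1 φ x * pd 0 q x := by
  have hp0 : Integrable (pd 0 φ) volume :=
    a2_integrable (a2_pd_meas φ 0) (a2_pd_le hφ 0) (K := tsupport φ) hc fun x hx => a2_pd_zero 0 hx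
  have t1 := hq.integral_inv_smul_sub_mul_tendsto_integral_lineDeriv_mul (μ := volume) hp0 (ee 1)
  set K : Set E2 := Metric.cthickening 1 (tsupport φ) with hK
  have hKc : IsCompact K := IsCompact.cthickening hc
  have hsub : tsupport φ ⊆ K := Metric.self_subset_cthickening _
  have hg : Integrable (K.indicator (pd 0 q)) volume := by
    refine a2_integrable ((a2_pd_meas q 0).indicator hKc.measurableSet) (B := M) (fun x => ?_) hKc fun x hx =>
      Set.indicator_of_notMem hx _
    by_cases hx : x ∈ K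
    · rw [Set.indicator_of_mem hx]
      exact a2_pd_le hq 0 x
    · rw [Set.indicator_of_notMem hx, abs_zero]
      exact M.coe_nonneg
  have t2 := hφ.integral_inv_smul_sub_mul_tendsto_integral_lineDeriv_mul (μ := volume) hg (-ee 1)
  have t3 : Filter.Tendsto (fun s : ℝ => -∫ x, (s⁻¹ • (φ (x + s • (-ee 1)) - φ x)) * K.indicator (pd 0 q) x)
      (nhdsWithin 0 (Set.Ioi 0)) (nhds (∫ x, lineDeriv ℝ q x (ee 1) * pd 0 φ x)) := by
    refine t1.congr' ?_
    have hev : ∀ᶠ s : ℝ in nhdsWithin 0 (Set.Ioi 0), s ∈ Set.Ioo (0 : ℝ) 1 := Ioo_mem_nhdsGT one_pos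
    filter_upwards [hev] with s hs
    rw [a2_quot hφ hc hq s]
    congr 1
    refine integral_congr_ae (ae_of_all _ fun x => ?_)
    by_cases hx : x ∈ K
    · simp only [Set.indicator_of_mem hx]
    · simp only [Set.indicator_of_notMem hx, mul_zero]
      have h1 : φ x = 0 := image_eq_zero_of_notMem_tsupport fun h => hx (hsub h)
      have h2 : φ (x + s • (-ee 1)) = 0 := by
        refine image_eq_zero_of_notMem_tsupport fun h => hx ?_
        refine Metric.mem_cthickening_of_dist_le x _ 1 _ h ?_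
        rw [dist_self_add_right, norm_smul, norm_neg, a2_norm_ee, mul_one, Real.norm_eq_abs, abs_of_pos hs.1]
        exact hs.2.le
      rw [h1, h2, sub_zero, smul_zero, zero_mul]
  have t4 := tendsto_nhds_unique t3 t2.neg
  have e1 : ∫ x, lineDeriv ℝ q x (ee 1) * pd 0 φ x = ∫ x, pd 0 φ x * pd 1 q x := by
    refine integral_congr_ae ?_
    filter_upwards [hq.ae_differentiableAt (μ := volume)] with x hx
    rw [hx.lineDeriv_eq_fderiv, mul_comm]
    rfl
  have e2 : ∫ x, lineDeriv ℝ φ x (-ee 1) * K.indicator (pd 0 q) x = -∫ x, pd 1 φ x * pd 0 q x := by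
    rw [← integral_neg]
    refine integral_congr_ae ?_
    filter_upwards [hφ.ae_differentiableAt (μ := volume)] with x hx
    rw [hx.lineDeriv_eq_fderiv, map_neg]
    change -(pd 1 φ x) * _ = _
    by_cases hxK : x ∈ K
    · rw [Set.indicator_of_mem hxK]
      ring
    · rw [Set.indicator_of_notMem hxK, a2_pd_zero 1 fun h => hxK (hsub h)]
      ring
  rw [← e1, t4, e2, neg_neg]

end Pool.Agent.SLG
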