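import Pool.Agent.SLG.A2

/-!
ROW A3 (the determinant is a null Lagrangian, with cutoff).
For `p`, `q` Lipschitz and `η` Lipschitz with compact support:
`∫ η² (∂₀p ∂₁q - ∂₁p ∂₀q) = -∫ 2 η p (∂₀η ∂₁q - ∂₁η ∂₀q)`.
Proof: `φ := η² p` is Lipschitz with compact support (`p` is bounded on the support of `η`:
a product of locally bounded Lipschitz functions; to get a global Lipschitz constant for the
product note that it vanishes outside a closed ball `B`, and on all of `E2`,
`|φ(x)-φ(y)| ≤ ...`; simplest: if both points are outside `B` nothing to prove, if one, say `x`,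
lies in `B`, write `φ(x)-φ(y) = (η(x)-η(y)) η(x) p(x) + η(y) (η(x) - η(y)) p(x)
+ η(y)² (p(x)-p(y))` and use bounds for `η` everywhere and `p` on `B`).
`symm_weak` for `φ` and `q` gives `∫ ∂₀φ ∂₁q = ∫ ∂₁φ ∂₀q`.  At every point where `η`, `p` are
differentiable (almost everywhere, `LipschitzWith.ae_differentiableAt`)
`∂_jφ = η² ∂_jp + 2 η p ∂_jη`.  Substitute and rearrange; every term is integrable (bounded,
measurable, supported in a ball).
-/

namespace Pool.Agent.SLG

open MeasureTheory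

/-- measurable and bounded -/
def a3_BM (h : E2 → ℝ) : Prop := Measurable h ∧ ∃ B, ∀ x, |h x| ≤ B

theorem a3_BM_mul {f g : E2 → ℝ} (hf : a3_BM f) (hg : a3_BM g) : a3_BM fun x => f x * g x := by
  obtain ⟨h1, A, hA⟩ := hf
  obtain ⟨h2, B, hB⟩ := hg
  refine ⟨h1.mul h2, A * B, fun x => ?_⟩
  rw [abs_mul]
  exact mul_le_mul (hA x) (hB x) (abs_nonneg _) ((abs_nonneg _).trans (hA x))

theorem a3_BM_sub {f g : E2 → ℝ} (hf : a3_BM f) (hg : a3_BM g) : a3_BM fun x => f x - g x := by
  obtain ⟨h1, A, hA⟩ := hf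
  obtain ⟨h2, B, hB⟩ := hg
  exact ⟨h1.sub h2, A + B, fun x => (abs_sub _ _).trans (add_le_add (hA x) (hB x))⟩

theorem a3_BM_add {f g : E2 → ℝ} (hf : a3_BM f) (hg : a3_BM g) : a3_BM fun x => f x + g x := by
  obtain ⟨h1, A, hA⟩ := hf
  obtain ⟨h2, B, hB⟩ := hg
  exact ⟨h1.add h2, A + B, fun x => (abs_add_le _ _).trans (add_le_add (hA x) (hB x))⟩

theorem a3_BM_const (c : ℝ) : a3_BM fun _ => c := ⟨measurable_const, |c|, fun _ => le_rfl⟩

theorem a3_BM_pd {g : E2 → ℝ} {L : NNReal} (hg : LipschitzWith L g) (j : Fin 2) : a3_BM (pd j g) :=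
  ⟨a2_pd_meas g j, L, a2_pd_le hg j⟩

theorem a3_BM_int {f : E2 → ℝ} (hf : a3_BM f) {K : Set E2} (hK : IsCompact K) (h0 : ∀ x, x ∉ K → f x = 0) :
    Integrable f volume := by
  obtain ⟨h1, A, hA⟩ := hf
  exact a2_integrable h1 hA hK h0

/-- product of bounded Lipschitz functions -/
theorem a3_mul {f g : E2 → ℝ} {L M : NNReal} (hf : LipschitzWith L f) (hg : LipschitzWith M g) {A B : ℝ}
    (hA : ∀ x, |f x| ≤ A) (hB : ∀ x, |g x| ≤ B) : ∃ N : NNReal, LipschitzWith N fun x => f x * g x := by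
  have hA0 : 0 ≤ A := (abs_nonneg _).trans (hA 0)
  have hB0 : 0 ≤ B := (abs_nonneg _).trans (hB 0)
  refine ⟨Real.toNNReal (A * M + B * L), LipschitzWith.of_dist_le_mul fun x y => ?_⟩
  rw [Real.coe_toNNReal _ (by positivity), Real.dist_eq]
  have h1 := hf.dist_le_mul x y
  have h2 := hg.dist_le_mul x y
  rw [Real.dist_eq] at h1 h2
  calc |f x * g x - f y * g y| = |f x * (g x - g y) + g y * (f x - f y)| := by
        congr 1
        ring
    _ ≤ |f x| * |g x - g y| + |g y| * |f x - f y| := by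
        rw [← abs_mul, ← abs_mul]
        exact abs_add_le _ _
    _ ≤ A * (M * dist x y) + B * (L * dist x y) :=
        add_le_add (mul_le_mul (hA x) h2 (abs_nonneg _) hA0) (mul_le_mul (hB y) h1 (abs_nonneg _) hB0)
    _ = _ := by ring

theorem a3_pd_prod {η p : E2 → ℝ} {x : E2} (h1 : DifferentiableAt ℝ η x) (h2 : DifferentiableAt ℝ p x) (j : Fin 2) :
    pd j (fun y => η y * η y * p y) x = η x ^ 2 * pd j p x + 2 * η x * p x * pd j η x := by
  have h3 : HasFDerivAt (fun y => η y * η y * p y) _ x := (h1.hasFDerivAt.mul h1.hasFDerivAt).mul h2.hasFDerivAt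
  unfold pd
  rw [h3.fderiv]
  simp only [add_apply, smul_apply, smul_eq_mul, Pi.mul_apply]
  ring

theorem null_lag {η p q : E2 → ℝ} {L M N : NNReal} (hη : LipschitzWith L η)
    (hc : HasCompactSupport η) (hp : LipschitzWith M p) (hq : LipschitzWith N q) :
    ∫ x, η x ^ 2 * (pd 0 p x * pd 1 q x - pd 1 p x * pd 0 q x) =
      -∫ x, 2 * η x * p x * (pd 0 η x * pd 1 q x - pd 1 η x * pd 0 q x) := by
  obtain ⟨Bη, hBη⟩ := hc.exists_bound_of_continuous hη.continuous
  obtain ⟨B0, hB0⟩ := hc.isCompact.exists_bound_of_continuousOn hp.continuous.continuousOn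
  set B := |B0| with hBdef
  have hBnn : 0 ≤ B := abs_nonneg _
  set pt : E2 → ℝ := fun x => max (-B) (min B (p x)) with hptdef
  have hpt : LipschitzWith M pt := (hp.const_min B).const_max (-B)
  have hptB : ∀ x, |pt x| ≤ B := by
    intro x
    rw [abs_le]
    refine ⟨le_max_left _ _, max_le (by linarith) (min_le_left _ _)⟩
  have hpte : ∀ x, x ∈ tsupport η → pt x = p x := by
    intro x hx
    have h1 : |p x| ≤ B := (hB0 x hx).trans (le_abs_self B0)
    rw [abs_le] at h1
    show max (-B) (min B (p x)) = p x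
    rw [min_eq_right h1.2, max_eq_right h1.1]
  have hη0 : ∀ x, x ∉ tsupport η → η x = 0 := fun x hx => image_eq_zero_of_notMem_tsupport hx
  have hηp : ∀ x, η x * pt x = η x * p x := by
    intro x
    by_cases hx : x ∈ tsupport η
    · rw [hpte x hx]
    · rw [hη0 x hx, zero_mul, zero_mul]
  obtain ⟨N1, h1⟩ := a3_mul hη hη hBη hBη
  have hb1 : ∀ x, |η x * η x| ≤ Bη * Bη := by
    intro x
    rw [abs_mul]
    exact mul_le_mul (hBη x) (hBη x) (abs_nonneg _) ((abs_nonneg _).trans (hBη x))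
  obtain ⟨N2, h2⟩ := a3_mul h1 hpt hb1 hptB
  have hφe : (fun x => η x * η x * pt x) = fun x => η x * η x * p x := by
    funext x
    rw [mul_assoc, hηp, mul_assoc]
  rw [hφe] at h2
  have hφc : HasCompactSupport (fun x => η x * η x * p x) := by
    refine hc.mono ?_
    intro x hx
    rw [Function.mem_support] at hx ⊢
    intro h0
    apply hx
    rw [h0, zero_mul, zero_mul]
  have key := symm_weak h2 hφc hq
  have hts : ∀ x, x ∉ tsupport η → x ∉ tsupport (fun x => η x * η x * p x) := by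
    intro x hx h3
    refine hx (closure_mono ?_ h3)
    intro y hy
    rw [Function.mem_support] at hy ⊢
    intro h0
    apply hy
    rw [h0, zero_mul, zero_mul]
  have i0 : Integrable (fun x => pd 0 (fun x => η x * η x * p x) x * pd 1 q x) volume :=
    a3_BM_int (a3_BM_mul (a3_BM_pd h2 0) (a3_BM_pd hq 1)) hc.isCompact fun x hx => by
      rw [a2_pd_zero 0 (hts x hx), zero_mul]
  have i1 : Integrable (fun x => pd 1 (fun x => η x * η x * p x) x * pd 0 q x) volume :=
    a3_BM_int (a3_BM_mul (a3_BM_pd h2 1) (a3_BM_pd hq 0)) hc.isCompact fun x hx => by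
      rw [a2_pd_zero 1 (hts x hx), zero_mul]
  have hηBM : a3_BM η := ⟨hη.continuous.measurable, Bη, hBη⟩
  have hptBM : a3_BM pt := ⟨hpt.continuous.measurable, B, hptB⟩
  have j0 : Integrable (fun x => η x ^ 2 * (pd 0 p x * pd 1 q x - pd 1 p x * pd 0 q x)) volume := by
    have h3 : (fun x => η x ^ 2 * (pd 0 p x * pd 1 q x - pd 1 p x * pd 0 q x)) =
        fun x => η x * η x * (pd 0 p x * pd 1 q x - pd 1 p x * pd 0 q x) := by
      funext x
      ring
    rw [h3]
    refine a3_BM_int (a3_BM_mul (a3_BM_mul hηBM hηBM) (a3_BM_sub (a3_BM_mul (a3_BM_pd hp 0) (a3_BM_pd hq 1))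
      (a3_BM_mul (a3_BM_pd hp 1) (a3_BM_pd hq 0)))) hc.isCompact fun x hx => ?_
    rw [hη0 x hx, zero_mul, zero_mul]
  have j1 : Integrable (fun x => 2 * η x * p x * (pd 0 η x * pd 1 q x - pd 1 η x * pd 0 q x)) volume := by
    have h3 : (fun x => 2 * η x * p x * (pd 0 η x * pd 1 q x - pd 1 η x * pd 0 q x)) =
        fun x => 2 * (η x * pt x) * (pd 0 η x * pd 1 q x - pd 1 η x * pd 0 q x) := by
      funext x
      rw [hηp]
      ring
    rw [h3]
    refine a3_BM_int (a3_BM_mul (a3_BM_mul (a3_BM_const 2) (a3_BM_mul hηBM hptBM)) (a3_BM_sub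
      (a3_BM_mul (a3_BM_pd hη 0) (a3_BM_pd hq 1)) (a3_BM_mul (a3_BM_pd hη 1) (a3_BM_pd hq 0)))) hc.isCompact
      fun x hx => ?_
    rw [hη0 x hx, zero_mul, mul_zero, zero_mul]
  have h5 : ∫ x, (pd 0 (fun x => η x * η x * p x) x * pd 1 q x - pd 1 (fun x => η x * η x * p x) x * pd 0 q x) =
      ∫ x, (η x ^ 2 * (pd 0 p x * pd 1 q x - pd 1 p x * pd 0 q x) +
        2 * η x * p x * (pd 0 η x * pd 1 q x - pd 1 η x * pd 0 q x)) := by
    refine integral_congr_ae ?_
    filter_upwards [hη.ae_differentiableAt (μ := volume), hp.ae_differentiableAt (μ := volume)] with x hx1 hx2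
    rw [a3_pd_prod hx1 hx2, a3_pd_prod hx1 hx2]
    ring
  rw [integral_sub i0 i1, key, sub_self, integral_add j0 j1] at h5
  linarith

end Pool.Agent.SLG
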