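import Pool.Agent.SLG.A3

/-!
ROW A4 (Caccioppoli inequality).
Proof.  Let `η : E2 → ℝ` be the cutoff `η(x) = max 0 (min 1 ((R' - ‖x‖)/(R' - r)))` with
`R' = (r+R)/2`, or a `ContDiffBump`: Lipschitz, `0 ≤ η ≤ 1`, `η = 1` on `ball 0 r`, support in
`closedBall 0 R'` (inside `ball 0 R`), Lipschitz constant `Lη = 1/(R'-r)`, so
`|pd j η| ≤ Lη` everywhere.
Multiply the hypothesis (valid a.e. on `ball 0 R`) by `η²` and integrate over `E2`
(`η = 0` outside `ball 0 R`):
`c ∫ η² sq(grad w) ≤ ∑ C p q ∫ η² minor + g ∫ η²`.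
By `null_lag`, `|∫ η² minor p q| = |∫ 2 η w_p (∂₀η ∂₁w_q - ∂₁η ∂₀w_q)|
 ≤ ∫ 2 Lη η |w_p| (|∂₀w_q| + |∂₁w_q|) ≤ ∫ (t η² ((∂₀w_q)² + (∂₁w_q)²)
 + (2 Lη²/t) 1_{ball 0 R} w_p²)` for every `t > 0`.  Summing over `p q` with `|C p q| ≤ M`, and
`N = card I`: the right side is at most `M N t ∫ η² sq + M N (2 Lη²/t) ∫_{ball 0 R} ∑ w²`.
Choose `t` with `M N t ≤ c/2` (e.g. `t = c / (2 (M N + 1))`) and absorb (the integral
`∫ η² sq(grad w)` is finite because `grad w` is bounded):
`(c/2) ∫ η² sq ≤ K' ∫_{ball 0 R} ∑ w² + g volume(ball 0 R)`, and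
`∫_{ball 0 r} sq ≤ ∫ η² sq`.  `Kc` depends only on `c, M, card I, r, R`.
-/

namespace Pool.Agent.SLG

open MeasureTheory

/-- the cutoff function -/
theorem a4_cut {r R : ℝ} (hr : 0 < r) (hR : r < R) : ∃ η : E2 → ℝ, ∃ L : NNReal, (L : ℝ) = 2 / (R - r) ∧
    LipschitzWith L η ∧ (∀ x, 0 ≤ η x) ∧ (∀ x, η x ≤ 1) ∧ (∀ x, x ∈ Metric.ball (0 : E2) r → η x = 1) ∧
    (∀ x, x ∉ Metric.ball (0 : E2) R → η x = 0) ∧ HasCompactSupport η ∧
    ∀ x, x ∉ Metric.ball (0 : E2) R → x ∉ tsupport η := by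
  have hd : 0 < R - r := by linarith
  set η : E2 → ℝ := fun x => max 0 (min 1 (((r + R) / 2 - ‖x‖) * (2 / (R - r)))) with hη
  have h0 : ∀ x, (r + R) / 2 ≤ ‖x‖ → η x = 0 := by
    intro x hx
    show max 0 (min 1 (((r + R) / 2 - ‖x‖) * (2 / (R - r)))) = 0
    refine max_eq_left ((min_le_right _ _).trans ?_)
    exact mul_nonpos_of_nonpos_of_nonneg (by linarith) (by positivity)
  have hts : ∀ x, (r + R) / 2 < ‖x‖ → x ∉ tsupport η := by
    intro x hx hmem
    have h1 : tsupport η ⊆ Metric.closedBall 0 ((r + R) / 2) := by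
      refine closure_minimal (fun y hy => ?_) Metric.isClosed_closedBall
      rw [Metric.mem_closedBall, dist_zero_right]
      by_contra hcon
      exact hy (h0 y (not_le.1 hcon).le)
    have h2 := h1 hmem
    rw [Metric.mem_closedBall, dist_zero_right] at h2
    linarith
  refine ⟨η, Real.toNNReal (2 / (R - r)), Real.coe_toNNReal _ (by positivity), ?_, fun x => le_max_left _ _,
    fun x => max_le zero_le_one (min_le_left _ _), ?_, ?_, ?_, ?_⟩
  · have h1 : LipschitzWith (Real.toNNReal (2 / (R - r))) fun x : E2 => ((r + R) / 2 - ‖x‖) * (2 / (R - r)) := by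
      refine LipschitzWith.of_dist_le_mul fun x y => ?_
      rw [Real.coe_toNNReal _ (by positivity), Real.dist_eq]
      have h2 : ((r + R) / 2 - ‖x‖) * (2 / (R - r)) - ((r + R) / 2 - ‖y‖) * (2 / (R - r)) =
          -(‖x‖ - ‖y‖) * (2 / (R - r)) := by ring
      rw [h2, abs_mul, abs_neg, abs_of_nonneg (show 0 ≤ 2 / (R - r) by positivity), mul_comm, dist_eq_norm]
      exact mul_le_mul_of_nonneg_left (abs_norm_sub_norm_le x y) (by positivity)
    exact (h1.const_min 1).const_max 0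
  · intro x hx
    rw [Metric.mem_ball, dist_zero_right] at hx
    show max 0 (min 1 (((r + R) / 2 - ‖x‖) * (2 / (R - r)))) = 1
    have h1 : 1 ≤ ((r + R) / 2 - ‖x‖) * (2 / (R - r)) := by
      rw [← mul_div_assoc, le_div_iff₀ hd]
      linarith
    rw [min_eq_left h1, max_eq_right zero_le_one]
  · intro x hx
    rw [Metric.mem_ball, dist_zero_right, not_lt] at hx
    exact h0 x (by linarith)
  · exact HasCompactSupport.intro (isCompact_closedBall (0 : E2) ((r + R) / 2)) fun x hx => by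
      rw [Metric.mem_closedBall, dist_zero_right, not_le] at hx
      exact h0 x hx.le
  · intro x hx
    rw [Metric.mem_ball, dist_zero_right, not_lt] at hx
    exact hts x (by linarith)

/-- the bound for one term -/
theorem a4_term {η p q : E2 → ℝ} {L M N : NNReal} {R t : ℝ} (ht : 0 < t) (hη : LipschitzWith L η)
    (hη0 : ∀ x, 0 ≤ η x) (hc : HasCompactSupport η) (hB : ∀ x, x ∉ Metric.ball (0 : E2) R → η x = 0)
    (hp : LipschitzWith M p) (hq : LipschitzWith N q) :
    |∫ x, η x ^ 2 * (pd 0 p x * pd 1 q x - pd 1 p x * pd 0 q x)| ≤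
      t * (∫ x, η x ^ 2 * (pd 0 q x ^ 2 + pd 1 q x ^ 2)) +
        2 * (L : ℝ) ^ 2 / t * ∫ x in Metric.ball (0 : E2) R, p x ^ 2 := by
  have i1 : Integrable (fun x => η x ^ 2 * (pd 0 q x ^ 2 + pd 1 q x ^ 2)) volume := by
    obtain ⟨Bη, hBη⟩ := hc.exists_bound_of_continuous hη.continuous
    have hηBM : a3_BM η := ⟨hη.continuous.measurable, Bη, hBη⟩
    have h3 : (fun x => η x ^ 2 * (pd 0 q x ^ 2 + pd 1 q x ^ 2)) =
        fun x => η x * η x * (pd 0 q x * pd 0 q x + pd 1 q x * pd 1 q x) := by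
      funext x
      ring
    rw [h3]
    refine a3_BM_int (a3_BM_mul (a3_BM_mul hηBM hηBM) (a3_BM_add (a3_BM_mul (a3_BM_pd hq 0) (a3_BM_pd hq 0))
      (a3_BM_mul (a3_BM_pd hq 1) (a3_BM_pd hq 1)))) hc.isCompact fun x hx => ?_
    rw [image_eq_zero_of_notMem_tsupport hx, zero_mul, zero_mul]
  have i2 : Integrable ((Metric.ball (0 : E2) R).indicator fun x => p x ^ 2) volume := by
    rw [integrable_indicator_iff measurableSet_ball]
    have h1 : Continuous fun x => p x ^ 2 := hp.continuous.pow 2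
    exact (h1.continuousOn.integrableOn_compact (isCompact_closedBall (0 : E2) R)).mono_set Metric.ball_subset_closedBall
  rw [null_lag hη hc hp hq, abs_neg]
  refine abs_integral_le_integral_abs.trans ?_
  rw [← integral_indicator measurableSet_ball, ← integral_const_mul, ← integral_const_mul,
    ← integral_add (i1.const_mul t) (i2.const_mul _)]
  refine integral_mono_of_nonneg (ae_of_all _ fun x => abs_nonneg _) ((i1.const_mul t).add (i2.const_mul _))
    (ae_of_all _ fun x => ?_)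
  show |2 * η x * p x * (pd 0 η x * pd 1 q x - pd 1 η x * pd 0 q x)| ≤
    t * (η x ^ 2 * (pd 0 q x ^ 2 + pd 1 q x ^ 2)) +
      2 * (L : ℝ) ^ 2 / t * (Metric.ball (0 : E2) R).indicator (fun x => p x ^ 2) x
  by_cases hx : x ∈ Metric.ball (0 : E2) R
  · rw [Set.indicator_of_mem hx]
    have e0 := a2_pd_le hη 0 x
    have e1 := a2_pd_le hη 1 x
    have hL : (0 : ℝ) ≤ L := L.coe_nonneg
    have k : ∀ d y : ℝ, |d| ≤ L → |2 * η x * p x * (d * y)| ≤ t * (η x ^ 2 * y ^ 2) + (L : ℝ) ^ 2 / t * p x ^ 2 := by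
      intro d y hd
      have h1 : |2 * η x * p x * (d * y)| = 2 * (η x * |y|) * (|d| * |p x|) := by
        rw [abs_mul, abs_mul, abs_mul, abs_mul, abs_two, abs_of_nonneg (hη0 x)]
        ring
      have h2 : 2 * (η x * |y|) * (|d| * |p x|) ≤ 2 * (η x * |y|) * (L * |p x|) := by
        have := hη0 x
        gcongr
      have h3 : 2 * (η x * |y|) * (L * |p x|) ≤ t * (η x * |y|) ^ 2 + (L * |p x|) ^ 2 / t := by
        have h4 : 0 ≤ (t * (η x * |y|) - L * |p x|) ^ 2 / t := by positivity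
        have h5 : (t * (η x * |y|) - L * |p x|) ^ 2 / t =
            t * (η x * |y|) ^ 2 + (L * |p x|) ^ 2 / t - 2 * (η x * |y|) * (L * |p x|) := by
          field_simp
          ring
        rw [h5] at h4
        linarith
      rw [h1]
      refine h2.trans (h3.trans (le_of_eq ?_))
      rw [mul_pow, mul_pow, sq_abs, sq_abs]
      ring
    have k0 := k (pd 0 η x) (pd 1 q x) e0
    have k1 := k (pd 1 η x) (pd 0 q x) e1
    have e3 : 2 * η x * p x * (pd 0 η x * pd 1 q x - pd 1 η x * pd 0 q x) =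
        2 * η x * p x * (pd 0 η x * pd 1 q x) - 2 * η x * p x * (pd 1 η x * pd 0 q x) := by ring
    rw [e3]
    refine (abs_sub _ _).trans ((add_le_add k0 k1).trans (le_of_eq ?_))
    ring
  · rw [Set.indicator_of_notMem hx, hB x hx]
    simp

theorem cacc (I : Type) [Fintype I] (r R c M : ℝ) (hr : 0 < r) (hR : r < R) (hc : 0 < c)
    (hM : 0 ≤ M) :
    ∃ Kc : ℝ, 0 < Kc ∧ ∀ C : I → I → ℝ, (∀ p q, |C p q| ≤ M) →
      ∀ w : I → E2 → ℝ, (∀ i, ∃ L : NNReal, LipschitzWith L (w i)) → ∀ g : ℝ, 0 ≤ g →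
      (∀ᵐ y ∂(volume.restrict (Metric.ball (0 : E2) R)),
        c * sq (grad w y) ≤ (∑ p, ∑ q, C p q * minor (grad w y) p q) + g) →
      ∫ y in Metric.ball (0 : E2) r, sq (grad w y) ≤
        Kc * ((∫ y in Metric.ball (0 : E2) R, ∑ i, (w i y) ^ 2) + g) := by
  classical
  obtain ⟨η, L, hLv, hη, hη0, hη1, hηr, hηR, hcs, hts⟩ := a4_cut hr hR
  set v : ℝ := (volume (Metric.ball (0 : E2) R)).toReal with hv
  have hv0 : 0 ≤ v := ENNReal.toReal_nonneg
  set N : ℝ := (Fintype.card I : ℝ) with hN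
  have hN0 : 0 ≤ N := Nat.cast_nonneg _
  set t : ℝ := c / (2 * (M * N + 1)) with ht
  have hMN : 0 ≤ M * N := mul_nonneg hM hN0
  have htpos : 0 < t := by positivity
  have htle : M * N * t ≤ c / 2 := by
    rw [ht, mul_div_assoc', div_le_div_iff₀ (by positivity) (by positivity)]
    nlinarith
  set k1 : ℝ := M * N * (2 * (L : ℝ) ^ 2 / t) with hk1
  have hk10 : 0 ≤ k1 := by positivity
  refine ⟨2 / c * (k1 + v) + 1, by positivity, ?_⟩
  intro C hC w hw g hg hineq
  choose Lw hLw using hw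
  obtain ⟨Bη, hBη⟩ := hcs.exists_bound_of_continuous hη.continuous
  have hηBM : a3_BM η := ⟨hη.continuous.measurable, Bη, hBη⟩
  have hz : ∀ x, x ∉ tsupport η → η x = 0 := fun x hx => image_eq_zero_of_notMem_tsupport hx
  -- integrability
  have iq : ∀ q : I, Integrable (fun x => η x ^ 2 * (pd 0 (w q) x ^ 2 + pd 1 (w q) x ^ 2)) volume := by
    intro q
    have h3 : (fun x => η x ^ 2 * (pd 0 (w q) x ^ 2 + pd 1 (w q) x ^ 2)) =
        fun x => η x * η x * (pd 0 (w q) x * pd 0 (w q) x + pd 1 (w q) x * pd 1 (w q) x) := by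
      funext x
      ring
    rw [h3]
    refine a3_BM_int (a3_BM_mul (a3_BM_mul hηBM hηBM) (a3_BM_add (a3_BM_mul (a3_BM_pd (hLw q) 0) (a3_BM_pd (hLw q) 0))
      (a3_BM_mul (a3_BM_pd (hLw q) 1) (a3_BM_pd (hLw q) 1)))) hcs.isCompact fun x hx => ?_
    rw [hz x hx, zero_mul, zero_mul]
  have im : ∀ p q : I, Integrable (fun x => η x ^ 2 * (pd 0 (w p) x * pd 1 (w q) x - pd 1 (w p) x * pd 0 (w q) x)) volume := by
    intro p q
    have h3 : (fun x => η x ^ 2 * (pd 0 (w p) x * pd 1 (w q) x - pd 1 (w p) x * pd 0 (w q) x)) =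
        fun x => η x * η x * (pd 0 (w p) x * pd 1 (w q) x - pd 1 (w p) x * pd 0 (w q) x) := by
      funext x
      ring
    rw [h3]
    refine a3_BM_int (a3_BM_mul (a3_BM_mul hηBM hηBM) (a3_BM_sub (a3_BM_mul (a3_BM_pd (hLw p) 0) (a3_BM_pd (hLw q) 1))
      (a3_BM_mul (a3_BM_pd (hLw p) 1) (a3_BM_pd (hLw q) 0)))) hcs.isCompact fun x hx => ?_
    rw [hz x hx, zero_mul, zero_mul]
  have i2 : Integrable (fun x => η x ^ 2) volume := by
    have h3 : (fun x => η x ^ 2) = fun x => η x * η x := by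
      funext x
      ring
    rw [h3]
    exact a3_BM_int (a3_BM_mul hηBM hηBM) hcs.isCompact fun x hx => by rw [hz x hx, zero_mul]
  have hsq : ∀ x, sq (grad w x) = ∑ q, (pd 0 (w q) x ^ 2 + pd 1 (w q) x ^ 2) := by
    intro x
    unfold sq grad
    exact Finset.sum_congr rfl fun q _ => Fin.sum_univ_two _
  have hG : ∀ x, η x ^ 2 * sq (grad w x) = ∑ q, η x ^ 2 * (pd 0 (w q) x ^ 2 + pd 1 (w q) x ^ 2) := by
    intro x
    rw [hsq, Finset.mul_sum]
  have iG : Integrable (fun x => η x ^ 2 * sq (grad w x)) volume := by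
    simp_rw [hG]
    exact integrable_finsetSum _ fun q _ => iq q
  have eG : ∫ x, η x ^ 2 * sq (grad w x) = ∑ q, ∫ x, η x ^ 2 * (pd 0 (w q) x ^ 2 + pd 1 (w q) x ^ 2) := by
    simp_rw [hG]
    exact integral_finsetSum _ fun q _ => iq q
  -- the integrated inequality
  have iR : Integrable (fun x => (∑ p, ∑ q, C p q * (η x ^ 2 * (pd 0 (w p) x * pd 1 (w q) x - pd 1 (w p) x * pd 0 (w q) x))) +
      g * η x ^ 2) volume :=
    (integrable_finsetSum _ fun p _ => integrable_finsetSum _ fun q _ => (im p q).const_mul _).add (i2.const_mul g)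
  have h1 : ∫ x, c * (η x ^ 2 * sq (grad w x)) ≤
      ∫ x, ((∑ p, ∑ q, C p q * (η x ^ 2 * (pd 0 (w p) x * pd 1 (w q) x - pd 1 (w p) x * pd 0 (w q) x))) +
      g * η x ^ 2) := by
    refine integral_mono_ae (iG.const_mul c) iR ?_
    rw [ae_restrict_iff' measurableSet_ball] at hineq
    filter_upwards [hineq] with x hx
    by_cases hxB : x ∈ Metric.ball (0 : E2) R
    · have h2 := mul_le_mul_of_nonneg_left (hx hxB) (sq_nonneg (η x))
      have e1 : η x ^ 2 * ((∑ p, ∑ q, C p q * minor (grad w x) p q) + g) =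
          (∑ p, ∑ q, C p q * (η x ^ 2 * (pd 0 (w p) x * pd 1 (w q) x - pd 1 (w p) x * pd 0 (w q) x))) + g * η x ^ 2 := by
        rw [mul_add, Finset.mul_sum]
        congr 1
        · refine Finset.sum_congr rfl fun p _ => ?_
          rw [Finset.mul_sum]
          refine Finset.sum_congr rfl fun q _ => ?_
          unfold minor grad
          ring
        · ring
      rw [e1] at h2
      refine le_trans (le_of_eq ?_) h2
      ring
    · have e1 : η x = 0 := hηR x hxB
      simp only [e1]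
      simp
  rw [integral_const_mul, integral_add (integrable_finsetSum _ fun p _ => integrable_finsetSum _ fun q _ => (im p q).const_mul _)
    (i2.const_mul g), integral_const_mul, integral_finsetSum _ fun p _ => integrable_finsetSum _ fun q _ => (im p q).const_mul _] at h1
  have e2 : ∀ p : I, ∫ x, ∑ q, C p q * (η x ^ 2 * (pd 0 (w p) x * pd 1 (w q) x - pd 1 (w p) x * pd 0 (w q) x)) =
      ∑ q, C p q * ∫ x, η x ^ 2 * (pd 0 (w p) x * pd 1 (w q) x - pd 1 (w p) x * pd 0 (w q) x) := by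
    intro p
    rw [integral_finsetSum _ fun q _ => (im p q).const_mul _]
    exact Finset.sum_congr rfl fun q _ => integral_const_mul _ _
  rw [Finset.sum_congr rfl fun p _ => e2 p] at h1
  have iw : ∀ p : I, IntegrableOn (fun x => w p x ^ 2) (Metric.ball (0 : E2) R) volume := by
    intro p
    have h1 : Continuous fun x => w p x ^ 2 := (hLw p).continuous.pow 2
    exact (h1.continuousOn.integrableOn_compact (isCompact_closedBall (0 : E2) R)).mono_set Metric.ball_subset_closedBall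
  have e3 : ∑ p, ∑ q, C p q * ∫ x, η x ^ 2 * (pd 0 (w p) x * pd 1 (w q) x - pd 1 (w p) x * pd 0 (w q) x) ≤
      M * N * t * (∫ x, η x ^ 2 * sq (grad w x)) + k1 * ∫ y in Metric.ball (0 : E2) R, ∑ i, (w i y) ^ 2 := by
    have h2 : ∀ p q : I, C p q * ∫ x, η x ^ 2 * (pd 0 (w p) x * pd 1 (w q) x - pd 1 (w p) x * pd 0 (w q) x) ≤
        M * (t * (∫ x, η x ^ 2 * (pd 0 (w q) x ^ 2 + pd 1 (w q) x ^ 2)) +
        2 * (L : ℝ) ^ 2 / t * ∫ x in Metric.ball (0 : E2) R, w p x ^ 2) := by
      intro p q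
      have h3 := a4_term htpos hη hη0 hcs hηR (hLw p) (hLw q)
      refine (le_abs_self _).trans ?_
      rw [abs_mul]
      exact mul_le_mul (hC p q) h3 (abs_nonneg _) hM
    refine (Finset.sum_le_sum fun p _ => Finset.sum_le_sum fun q _ => h2 p q).trans (le_of_eq ?_)
    have e4 : ∫ y in Metric.ball (0 : E2) R, ∑ i, (w i y) ^ 2 = ∑ i, ∫ y in Metric.ball (0 : E2) R, (w i y) ^ 2 :=
      integral_finsetSum _ fun i _ => iw i
    rw [e4, eG]
    simp_rw [mul_add, Finset.sum_add_distrib]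
    congr 1
    · rw [Finset.sum_const, Finset.card_univ, nsmul_eq_mul, ← hN, Finset.mul_sum, Finset.mul_sum]
      exact Finset.sum_congr rfl fun q _ => by ring
    · have h5 : ∀ p : I, ∑ _q : I, M * (2 * (L : ℝ) ^ 2 / t * ∫ x in Metric.ball (0 : E2) R, w p x ^ 2) =
          k1 * ∫ x in Metric.ball (0 : E2) R, w p x ^ 2 := by
        intro p
        rw [Finset.sum_const, Finset.card_univ, nsmul_eq_mul, ← hN]
        ring
      rw [Finset.sum_congr rfl fun p _ => h5 p, Finset.mul_sum]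
  have hvol : ∫ x, η x ^ 2 ≤ v := by
    have h2 : ∫ x, (Metric.ball (0 : E2) R).indicator (fun _ => (1 : ℝ)) x = v := by
      rw [integral_indicator measurableSet_ball, setIntegral_const, smul_eq_mul, mul_one]
      rfl
    rw [← h2]
    refine integral_mono_of_nonneg (ae_of_all _ fun x => sq_nonneg _) ?_ (ae_of_all _ fun x => ?_)
    · rw [integrable_indicator_iff measurableSet_ball]
      exact integrableOn_const measure_ball_lt_top.ne
    · by_cases hx : x ∈ Metric.ball (0 : E2) R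
      · show η x ^ 2 ≤ (Metric.ball (0 : E2) R).indicator (fun _ => (1 : ℝ)) x
        rw [Set.indicator_of_mem hx]
        exact pow_le_one₀ (hη0 x) (hη1 x)
      · show η x ^ 2 ≤ (Metric.ball (0 : E2) R).indicator (fun _ => (1 : ℝ)) x
        rw [Set.indicator_of_notMem hx, hηR x hx]
        norm_num
  have hX0 : 0 ≤ ∫ x, η x ^ 2 * sq (grad w x) := integral_nonneg fun x => by
    rw [hG]
    exact Finset.sum_nonneg fun q _ => by positivity
  have hV0 : 0 ≤ ∫ y in Metric.ball (0 : E2) R, ∑ i, (w i y) ^ 2 := integral_nonneg fun y =>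
    Finset.sum_nonneg fun i _ => sq_nonneg _
  have hfin : ∫ y in Metric.ball (0 : E2) r, sq (grad w y) ≤ ∫ x, η x ^ 2 * sq (grad w x) := by
    rw [← integral_indicator measurableSet_ball]
    refine integral_mono_of_nonneg (ae_of_all _ fun x => ?_) iG (ae_of_all _ fun x => ?_)
    · refine Set.indicator_nonneg (fun x _ => ?_) x
      rw [hsq]
      exact Finset.sum_nonneg fun q _ => by positivity
    · show (Metric.ball (0 : E2) r).indicator (fun y => sq (grad w y)) x ≤ η x ^ 2 * sq (grad w x)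
      by_cases hx : x ∈ Metric.ball (0 : E2) r
      · rw [Set.indicator_of_mem hx, hηr x hx, one_pow, one_mul]
      · rw [Set.indicator_of_notMem hx, hG]
        exact Finset.sum_nonneg fun q _ => by positivity
  set X := ∫ x, η x ^ 2 * sq (grad w x) with hX
  set V := ∫ y in Metric.ball (0 : E2) R, ∑ i, (w i y) ^ 2 with hV
  have hgv : g * ∫ x, η x ^ 2 ≤ g * v := mul_le_mul_of_nonneg_left hvol hg
  have h6 : c * X ≤ c / 2 * X + k1 * V + g * v := by
    have h7 : M * N * t * X ≤ c / 2 * X := mul_le_mul_of_nonneg_right htle hX0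
    linarith
  have h8 : X ≤ 2 / c * (k1 * V + g * v) := by
    rw [div_mul_eq_mul_div, le_div_iff₀ hc]
    linarith
  refine hfin.trans (h8.trans ?_)
  have h9 : 0 ≤ 2 / c := by positivity
  have h10 : 2 / c * (k1 * V + g * v) ≤ 2 / c * ((k1 + v) * (V + g)) := by
    refine mul_le_mul_of_nonneg_left ?_ h9
    nlinarith [mul_nonneg hk10 hg, mul_nonneg hv0 hV0]
  refine h10.trans ?_
  have h11 : 0 ≤ V + g := add_nonneg hV0 hg
  nlinarith

end Pool.Agent.SLG
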