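import Pool.Agent.SLG.Defs2
namespace Pool.Agent.SLG

theorem b1_core (d0 dx α ξ m n S t E1 E2 w : ℝ) (hd0 : 0 < d0) (hdx : 0 < dx)
    (hα1 : 2 * d0 ≤ α) (hα2 : α ≤ 5 / 2 * d0) (hξ1 : 2 * dx ≤ ξ) (hξ2 : ξ ≤ 13 / 5 * dx)
    (h1 : d0 ≤ 5 * dx) (h2 : dx ≤ 5 * d0) (hw1 : 2 * w ≤ n) (hw2 : -n ≤ 2 * w) (hn : 0 ≤ n)
    (hS : S ^ 2 ≤ n * ξ) (hm : 0 ≤ m) (hE1 : 0 ≤ E1) (hE2 : 0 ≤ E2) :
    2 / 5 * d0 * n ≤ n * (3 * d0 + dx) + w * (α - ξ + 8 / 5 * d0) + 4 * d0 * E1 + 2 * m * E2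
      + 6 / 5 * d0 * (t * S + t ^ 2 * dx) := by
  have k1 : -(13 / 20 * n) ≤ t * S + t ^ 2 * dx := by
    have a1 : 0 ≤ (2 * dx * t + S) ^ 2 := sq_nonneg _
    have a2 : n * ξ ≤ n * (13 / 5 * dx) := mul_le_mul_of_nonneg_left hξ2 hn
    have a3 : -(13 / 20 * n) * (4 * dx) ≤ (t * S + t ^ 2 * dx) * (4 * dx) := by nlinarith
    exact le_of_mul_le_mul_right a3 (by linarith)
  have k2 : -(39 / 50 * d0 * n) ≤ 6 / 5 * d0 * (t * S + t ^ 2 * dx) := by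
    have := mul_le_mul_of_nonneg_left k1 (show (0:ℝ) ≤ 6 / 5 * d0 by linarith)
    nlinarith
  have k3 : 0 ≤ 4 * d0 * E1 + 2 * m * E2 := by positivity
  have k4 : (59 / 50 * d0) * n ≤ n * (3 * d0 + dx) + w * (α - ξ + 8 / 5 * d0) := by
    rcases le_total 0 (α - ξ + 8 / 5 * d0) with hb | hb
    · have b1 : -(n / 2) * (α - ξ + 8 / 5 * d0) ≤ w * (α - ξ + 8 / 5 * d0) :=
        mul_le_mul_of_nonneg_right (by linarith) hb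
      have b2 : 0 ≤ n * (3 * d0 + dx - (α - ξ + 8 / 5 * d0) / 2 - 59 / 50 * d0) :=
        mul_nonneg hn (by linarith)
      nlinarith
    · have b1 : (n / 2) * (α - ξ + 8 / 5 * d0) ≤ w * (α - ξ + 8 / 5 * d0) :=
        mul_le_mul_of_nonpos_right (by linarith) hb
      have b2 : 0 ≤ n * (3 * d0 + dx + (α - ξ + 8 / 5 * d0) / 2 - 59 / 50 * d0) :=
        mul_nonneg hn (by linarith)
      nlinarith
  linarith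

theorem neo_pos (a1 a2 a3 a4 x1 x2 x3 x4 t E1 E2 : ℝ)
    (hd0 : 0 < a1 * a4 - a2 * a3)
    (hα : a1 ^ 2 + a2 ^ 2 + a3 ^ 2 + a4 ^ 2 ≤ 5 / 2 * (a1 * a4 - a2 * a3))
    (hξ : x1 ^ 2 + x2 ^ 2 + x3 ^ 2 + x4 ^ 2 ≤ 13 / 5 * (x1 * x4 - x2 * x3))
    (h1 : a1 * a4 - a2 * a3 ≤ 5 * (x1 * x4 - x2 * x3))
    (h2 : x1 * x4 - x2 * x3 ≤ 5 * (a1 * a4 - a2 * a3))
    (hm : 0 ≤ a4 * x1 - a3 * x2 - a2 * x3 + a1 * x4)
    (hE1 : 0 ≤ E1) (hE2 : 0 ≤ E2) :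
    2 / 5 * (a1 * a4 - a2 * a3) *
        ((x1 - a1) ^ 2 + (x2 - a2) ^ 2 + (x3 - a3) ^ 2 + (x4 - a4) ^ 2) ≤
      ((x1 - a1) ^ 2 + (x2 - a2) ^ 2 + (x3 - a3) ^ 2 + (x4 - a4) ^ 2) *
          (3 * (a1 * a4 - a2 * a3) + (x1 * x4 - x2 * x3))
        + ((x1 - a1) * (x4 - a4) - (x2 - a2) * (x3 - a3)) *
          ((a1 ^ 2 + a2 ^ 2 + a3 ^ 2 + a4 ^ 2) - (x1 ^ 2 + x2 ^ 2 + x3 ^ 2 + x4 ^ 2)
            + 8 / 5 * (a1 * a4 - a2 * a3))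
        + 4 * (a1 * a4 - a2 * a3) * E1
        + 2 * (a4 * x1 - a3 * x2 - a2 * x3 + a1 * x4) * E2
        + 6 / 5 * (a1 * a4 - a2 * a3) *
          (t * ((x1 - a1) * x1 + (x2 - a2) * x2 + (x3 - a3) * x3 + (x4 - a4) * x4)
            + t ^ 2 * (x1 * x4 - x2 * x3)) := by
  apply b1_core (a1 * a4 - a2 * a3) (x1 * x4 - x2 * x3)
  · exact hd0
  · linarith
  · nlinarith [sq_nonneg (a1 - a4), sq_nonneg (a2 + a3)]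
  · exact hα
  · nlinarith [sq_nonneg (x1 - x4), sq_nonneg (x2 + x3)]
  · exact hξ
  · exact h1
  · exact h2
  · nlinarith [sq_nonneg (x1 - a1 - (x4 - a4)), sq_nonneg (x2 - a2 + (x3 - a3))]
  · nlinarith [sq_nonneg (x1 - a1 + (x4 - a4)), sq_nonneg (x2 - a2 - (x3 - a3))]
  · positivity
  · -- Cauchy-Schwarz
    nlinarith [sq_nonneg ((x1 - a1) * x2 - (x2 - a2) * x1), sq_nonneg ((x1 - a1) * x3 - (x3 - a3) * x1),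
      sq_nonneg ((x1 - a1) * x4 - (x4 - a4) * x1), sq_nonneg ((x2 - a2) * x3 - (x3 - a3) * x2),
      sq_nonneg ((x2 - a2) * x4 - (x4 - a4) * x2), sq_nonneg ((x3 - a3) * x4 - (x4 - a4) * x3)]
  · exact hm
  · exact hE1
  · exact hE2

end Pool.Agent.SLG
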