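import Pool.Agent.SLG.Defs2
namespace Pool.Agent.SLG

theorem b2_k4 (d0 dx μ : ℝ) (hd0 : 0 < d0) (h1 : d0 ≤ 4 * dx) (h2 : dx ≤ d0) (hμ : 0 ≤ μ)
    (hμ2 : μ ^ 2 ≤ 25 / 4 * (d0 * dx)) :
    μ ^ 2 * (d0 - dx) ^ 2 ≤ 36 / 25 * d0 ^ 2 * dx * (d0 + dx + μ) := by
  have hdx : 0 < dx := by linarith
  have e1 : (d0 - dx) ^ 2 ≤ 9 / 16 * d0 ^ 2 := by
    have : 0 ≤ (3 / 4 * d0 - (d0 - dx)) * (3 / 4 * d0 + (d0 - dx)) :=
      mul_nonneg (by linarith) (by linarith)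
    nlinarith
  have e2 : μ ^ 2 * (d0 - dx) ^ 2 ≤ μ ^ 2 * (9 / 16 * d0 ^ 2) :=
    mul_le_mul_of_nonneg_left e1 (sq_nonneg _)
  have e3 : 9 / 16 * μ ^ 2 ≤ 36 / 25 * dx * (d0 + dx + μ) := by
    rcases le_total μ (5 / 4 * d0) with hc | hc
    · have f1 : 1 / 4 * d0 * (5 / 4 * d0 + μ) ≤ dx * (d0 + dx + μ) := by
        have g1 : 1 / 4 * d0 * (5 / 4 * d0 + μ) ≤ dx * (5 / 4 * d0 + μ) :=
          mul_le_mul_of_nonneg_right (by linarith) (by linarith)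
        have g2 : dx * (5 / 4 * d0 + μ) ≤ dx * (d0 + dx + μ) :=
          mul_le_mul_of_nonneg_left (by linarith) hdx.le
        linarith
      have f2 : μ ^ 2 ≤ 5 / 4 * d0 * μ := by nlinarith
      have f3 : d0 * μ ≤ 5 / 4 * d0 ^ 2 := by nlinarith
      nlinarith
    · have f1 : 5 / 2 * d0 * dx ≤ dx * (d0 + dx + μ) := by
        have : dx * (5 / 2 * d0) ≤ dx * (d0 + dx + μ) :=
          mul_le_mul_of_nonneg_left (by linarith) hdx.le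
        linarith
      nlinarith
  calc μ ^ 2 * (d0 - dx) ^ 2 ≤ μ ^ 2 * (9 / 16 * d0 ^ 2) := e2
    _ = (9 / 16 * μ ^ 2) * d0 ^ 2 := by ring
    _ ≤ (36 / 25 * dx * (d0 + dx + μ)) * d0 ^ 2 := mul_le_mul_of_nonneg_right e3 (sq_nonneg _)
    _ = 36 / 25 * d0 ^ 2 * dx * (d0 + dx + μ) := by ring

theorem b2_quad (a b c t : ℝ) (ha : 0 < a) (h : b ^ 2 ≤ 4 * a * c) : 0 ≤ a * t ^ 2 + b * t + c := by
  have h1 : 0 ≤ (a * t ^ 2 + b * t + c) * (4 * a) := by nlinarith [sq_nonneg (2 * a * t + b)]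
  exact nonneg_of_mul_nonneg_left h1 (by linarith)

theorem b2_core (d0 dx α ξ μ n S t E1 E2 w : ℝ) (hd0 : 0 < d0) (hdx : 0 < dx)
    (hα1 : 2 * d0 ≤ α) (hα2 : α ≤ 5 / 2 * d0) (hξ1 : 2 * dx ≤ ξ) (hξ2 : ξ ≤ 5 / 2 * dx)
    (h1 : d0 ≤ 4 * dx) (h2 : dx ≤ 4 * d0) (hw : w = dx + d0 + μ) (hw1 : 2 * w ≤ n)
    (hS : S ^ 2 ≤ n * ξ) (hμ : 0 < μ) (hμ2 : μ ^ 2 ≤ α * ξ) (hSp : d0 ≤ dx → 0 ≤ S)
    (hE1 : 0 ≤ E1) (hE2 : 0 ≤ E2) (hE : E1 + E2 = t * (dx - d0)) :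
    2 / 5 * d0 * n ≤ n * (3 * d0 + dx) + w * (α - ξ + 8 / 5 * d0) + 4 * d0 * E1
      + 2 * (-μ) * E2 + 6 / 5 * d0 * (t * S + t ^ 2 * dx) := by
  have hwp : 0 < w := by rw [hw]; linarith
  have hn : 0 ≤ n := by linarith
  have hμ3 : μ ^ 2 ≤ 25 / 4 * (d0 * dx) := by
    have a1 : α * ξ ≤ (5 / 2 * d0) * (5 / 2 * dx) :=
      mul_le_mul hα2 hξ2 (by linarith) (by linarith)
    nlinarith
  have hEE : -(2 * μ * t * (dx - d0)) ≤ 4 * d0 * E1 + 2 * (-μ) * E2 := by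
    have : 0 ≤ 4 * d0 * E1 + 2 * μ * E1 := by positivity
    have h3 : 2 * μ * (t * (dx - d0)) = 2 * μ * (E1 + E2) := by rw [hE]
    nlinarith
  rcases lt_or_ge d0 dx with hD | hD
  · -- `D > 0`
    have ht : 0 ≤ t := by
      have h3 : 0 ≤ t * (dx - d0) := by rw [← hE]; linarith
      exact nonneg_of_mul_nonneg_left h3 (by linarith)
    have hS0 := hSp hD.le
    have k1 : 17 / 5 * d0 * n ≤ n * (13 / 5 * d0 + dx) + w * (α - ξ + 8 / 5 * d0) := by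
      rcases le_total 0 (α - ξ + 8 / 5 * d0) with hb | hb
      · have b1 : 0 ≤ w * (α - ξ + 8 / 5 * d0) := mul_nonneg hwp.le hb
        have b2 : 0 ≤ n * (13 / 5 * d0 + dx - 17 / 5 * d0) := mul_nonneg hn (by linarith)
        nlinarith
      · have b1 : (n / 2) * (α - ξ + 8 / 5 * d0) ≤ w * (α - ξ + 8 / 5 * d0) :=
          mul_le_mul_of_nonpos_right (by linarith) hb
        have b2 : 0 ≤ n * (13 / 5 * d0 + dx + (α - ξ + 8 / 5 * d0) / 2 - 17 / 5 * d0) :=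
          mul_nonneg hn (by linarith)
        nlinarith
    have k3 : (2 * μ * (dx - d0)) ^ 2 ≤ 4 * (6 / 5 * d0 * dx) * (34 / 5 * d0 * w) := by
      have c1 : (dx - d0) ^ 2 ≤ 9 / 4 * (d0 * dx) := by
        have : 0 ≤ (4 * d0 - dx) * (4 * dx - d0) := mul_nonneg (by linarith) (by linarith)
        nlinarith
      have c2 : μ ^ 2 * (dx - d0) ^ 2 ≤ μ ^ 2 * (9 / 4 * (d0 * dx)) :=
        mul_le_mul_of_nonneg_left c1 (sq_nonneg _)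
      have c3 : μ ≤ 5 * d0 := by
        have : μ ^ 2 ≤ (5 * d0) ^ 2 := by nlinarith
        exact (abs_le_of_sq_le_sq' this (by linarith)).2
      have c4 : 9 / 4 * μ ^ 2 ≤ 204 / 25 * d0 * w := by
        rw [hw]
        have : 0 ≤ μ * (5 * d0 - μ) := mul_nonneg hμ.le (by linarith)
        nlinarith [mul_pos hd0 hdx, mul_pos hd0 hd0]
      have c5 : 9 / 4 * μ ^ 2 * (d0 * dx) ≤ 204 / 25 * d0 * w * (d0 * dx) :=
        mul_le_mul_of_nonneg_right c4 (by positivity)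
      nlinarith
    have k4 := b2_quad (6 / 5 * d0 * dx) (-(2 * μ * (dx - d0))) (34 / 5 * d0 * w) t
      (by positivity) (by rw [neg_sq]; exact k3)
    have k5 : 0 ≤ 6 / 5 * d0 * (t * S) := by positivity
    have k6 : 34 / 5 * d0 * w ≤ 17 / 5 * d0 * n := by nlinarith
    nlinarith
  · -- `D ≤ 0`
    have c0 : 0 ≤ w * (α - ξ + 8 / 5 * d0) := mul_nonneg hwp.le (by linarith)
    have c1 := b2_k4 d0 dx μ hd0 h1 hD hμ.le hμ3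
    have c2 : μ ^ 2 * (d0 - dx) ^ 2 ≤ 18 / 25 * d0 ^ 2 * dx * n := by
      have : 36 / 25 * d0 ^ 2 * dx * (d0 + dx + μ) ≤ 18 / 25 * d0 ^ 2 * dx * n := by
        have e : (0:ℝ) ≤ 18 / 25 * d0 ^ 2 * dx := by positivity
        have := mul_le_mul_of_nonneg_left hw1 e
        rw [hw] at this
        nlinarith
      linarith
    have c3 : S ^ 2 ≤ 5 / 2 * dx * n := by nlinarith
    have c4 : (2 * μ * (d0 - dx) + 6 / 5 * d0 * S) ^ 2 ≤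
        4 * (6 / 5 * d0 * dx) * (n * (13 / 5 * d0 + dx)) := by
      have e1 : (2 * μ * (d0 - dx) + 6 / 5 * d0 * S) ^ 2 ≤
          8 * (μ ^ 2 * (d0 - dx) ^ 2) + 72 / 25 * d0 ^ 2 * S ^ 2 := by
        nlinarith [sq_nonneg (2 * μ * (d0 - dx) - 6 / 5 * d0 * S)]
      have e2 : 72 / 25 * d0 ^ 2 * S ^ 2 ≤ 72 / 25 * d0 ^ 2 * (5 / 2 * dx * n) :=
        mul_le_mul_of_nonneg_left c3 (by positivity)
      have e3 : 0 ≤ (d0 * dx * n) * (4 * dx - d0) := mul_nonneg (by positivity) (by linarith)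
      nlinarith
    have k4 := b2_quad (6 / 5 * d0 * dx) (2 * μ * (d0 - dx) + 6 / 5 * d0 * S)
      (n * (13 / 5 * d0 + dx)) t (by positivity) c4
    nlinarith

theorem neo_neg (a1 a2 a3 a4 x1 x2 x3 x4 t E1 E2 : ℝ)
    (hd0 : 0 < a1 * a4 - a2 * a3)
    (hα : a1 ^ 2 + a2 ^ 2 + a3 ^ 2 + a4 ^ 2 ≤ 5 / 2 * (a1 * a4 - a2 * a3))
    (hξ : x1 ^ 2 + x2 ^ 2 + x3 ^ 2 + x4 ^ 2 ≤ 5 / 2 * (x1 * x4 - x2 * x3))
    (h1 : a1 * a4 - a2 * a3 ≤ 4 * (x1 * x4 - x2 * x3))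
    (h2 : x1 * x4 - x2 * x3 ≤ 4 * (a1 * a4 - a2 * a3))
    (hm : a4 * x1 - a3 * x2 - a2 * x3 + a1 * x4 < 0)
    (hE1 : 0 ≤ E1) (hE2 : 0 ≤ E2)
    (hE : E1 + E2 = t * ((x1 * x4 - x2 * x3) - (a1 * a4 - a2 * a3))) :
    2 / 5 * (a1 * a4 - a2 * a3) *
        ((x1 - a1) ^ 2 + (x2 - a2) ^ 2 + (x3 - a3) ^ 2 + (x4 - a4) ^ 2) ≤
      ((x1 - a1) ^ 2 + (x2 - a2) ^ 2 + (x3 - a3) ^ 2 + (x4 - a4) ^ 2) *
          (3 * (a1 * a4 - a2 * a3) + (x1 * x4 - x2 * x3))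
        + ((x1 - a1) * (x4 - a4) - (x2 - a2) * (x3 - a3)) *
          ((a1 ^ 2 + a2 ^ 2 + a3 ^ 2 + a4 ^ 2) - (x1 ^ 2 + x2 ^ 2 + x3 ^ 2 + x4 ^ 2)
            + 8 / 5 * (a1 * a4 - a2 * a3))
        + 4 * (a1 * a4 - a2 * a3) * E1
        + 2 * (a4 * x1 - a3 * x2 - a2 * x3 + a1 * x4) * E2
        + 6 / 5 * (a1 * a4 - a2 * a3) *
          (t * ((x1 - a1) * x1 + (x2 - a2) * x2 + (x3 - a3) * x3 + (x4 - a4) * x4)
            + t ^ 2 * (x1 * x4 - x2 * x3)) := by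
  have hdx : 0 < x1 * x4 - x2 * x3 := by linarith
  have key := b2_core (a1 * a4 - a2 * a3) (x1 * x4 - x2 * x3)
    (a1 ^ 2 + a2 ^ 2 + a3 ^ 2 + a4 ^ 2) (x1 ^ 2 + x2 ^ 2 + x3 ^ 2 + x4 ^ 2)
    (-(a4 * x1 - a3 * x2 - a2 * x3 + a1 * x4))
    ((x1 - a1) ^ 2 + (x2 - a2) ^ 2 + (x3 - a3) ^ 2 + (x4 - a4) ^ 2)
    ((x1 - a1) * x1 + (x2 - a2) * x2 + (x3 - a3) * x3 + (x4 - a4) * x4) t E1 E2
    ((x1 - a1) * (x4 - a4) - (x2 - a2) * (x3 - a3)) hd0 hdx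
    (by nlinarith [sq_nonneg (a1 - a4), sq_nonneg (a2 + a3)]) hα
    (by nlinarith [sq_nonneg (x1 - x4), sq_nonneg (x2 + x3)]) hξ h1 h2 (by ring)
    (by nlinarith [sq_nonneg (x1 - a1 - (x4 - a4)), sq_nonneg (x2 - a2 + (x3 - a3))])
    (by
      nlinarith [sq_nonneg ((x1 - a1) * x2 - (x2 - a2) * x1),
        sq_nonneg ((x1 - a1) * x3 - (x3 - a3) * x1),
        sq_nonneg ((x1 - a1) * x4 - (x4 - a4) * x1), sq_nonneg ((x2 - a2) * x3 - (x3 - a3) * x2),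
        sq_nonneg ((x2 - a2) * x4 - (x4 - a4) * x2), sq_nonneg ((x3 - a3) * x4 - (x4 - a4) * x3)])
    (by linarith)
    (by
      nlinarith [sq_nonneg (a4 * x2 + a3 * x1), sq_nonneg (a4 * x3 + a2 * x1),
        sq_nonneg (a4 * x4 - a1 * x1), sq_nonneg (a3 * x3 - a2 * x2),
        sq_nonneg (a3 * x4 + a1 * x2), sq_nonneg (a2 * x4 + a1 * x3)])
    (by
      intro hdd
      have s1 : ((a1 - a4) * (x1 - x4) + (a2 + a3) * (x2 + x3)) ^ 2 ≤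
          ((a1 - a4) ^ 2 + (a2 + a3) ^ 2) * ((x1 - x4) ^ 2 + (x2 + x3) ^ 2) := by
        nlinarith [sq_nonneg ((a1 - a4) * (x2 + x3) - (a2 + a3) * (x1 - x4))]
      have s2 : (a1 - a4) ^ 2 + (a2 + a3) ^ 2 ≤ 1 / 2 * (x1 * x4 - x2 * x3) := by nlinarith
      have s3 : (x1 - x4) ^ 2 + (x2 + x3) ^ 2 ≤ 1 / 2 * (x1 * x4 - x2 * x3) := by nlinarith
      have s4 : ((a1 - a4) ^ 2 + (a2 + a3) ^ 2) * ((x1 - x4) ^ 2 + (x2 + x3) ^ 2) ≤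
          (1 / 2 * (x1 * x4 - x2 * x3)) * (1 / 2 * (x1 * x4 - x2 * x3)) :=
        mul_le_mul s2 s3 (by positivity) (by linarith)
      have s5 : (a1 - a4) * (x1 - x4) + (a2 + a3) * (x2 + x3) ≤
          1 / 2 * (x1 * x4 - x2 * x3) := by
        refine (abs_le_of_sq_le_sq' ?_ (by linarith)).2
        nlinarith
      nlinarith [sq_nonneg (x1 - x4), sq_nonneg (x2 + x3)])
    hE1 hE2 hE
  rw [neg_neg] at key
  exact key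

end Pool.Agent.SLG
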