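import Pool.Agent.SLG.Defs2

/-!
B3: the algebraic identity behind the neo-Hookean class.
-/

namespace Pool.Agent.SLG

theorem neo_id (a1 a2 a3 a4 x1 x2 x3 x4 γ θ t g0 E1 : ℝ) (hγ : γ ≠ 0)
    (hd : a1 * a4 - a2 * a3 ≠ 0)
    (d0 dx y1 y2 y3 y4 b1 b2 b3 b4 fa fx z11 z12 z21 z22 c11 c12 c21 c22 : ℝ)
    (hd0 : d0 = a1 * a4 - a2 * a3) (hdx : dx = x1 * x4 - x2 * x3)
    (hb1 : b1 = γ * a1 + θ * a4) (hb2 : b2 = γ * a2 - θ * a3)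
    (hb3 : b3 = γ * a3 - θ * a2) (hb4 : b4 = γ * a4 + θ * a1)
    (hy1 : y1 = γ * x1 + (θ + γ * t) * x4) (hy2 : y2 = γ * x2 - (θ + γ * t) * x3)
    (hy3 : y3 = γ * x3 - (θ + γ * t) * x2) (hy4 : y4 = γ * x4 + (θ + γ * t) * x1)
    (hfa : fa = γ / 2 * (a1 ^ 2 + a2 ^ 2 + a3 ^ 2 + a4 ^ 2) + g0)
    (hfx : fx = γ / 2 * (x1 ^ 2 + x2 ^ 2 + x3 ^ 2 + x4 ^ 2) + (g0 + θ * (dx - d0) + γ * E1))
    (hz11 : z11 = x1 * y1 + x3 * y3 - fx) (hz12 : z12 = x1 * y2 + x3 * y4)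
    (hz21 : z21 = x2 * y1 + x4 * y3) (hz22 : z22 = x2 * y2 + x4 * y4 - fx)
    (hc11 : c11 = a1 * b1 + a3 * b3 - fa) (hc12 : c12 = a1 * b2 + a3 * b4)
    (hc21 : c21 = a2 * b1 + a4 * b3) (hc22 : c22 = a2 * b2 + a4 * b4 - fa) :
    (1 / 2 - 3 / 10 * θ / γ) * ((x1 - a1) * (y1 - b1) + (x2 - a2) * (y2 - b2)
        + (x3 - a3) * (y3 - b3) + (x4 - a4) * (y4 - b4))
      + 1 / 2 * ((x1 - a1) * (a4 / d0 * (z11 - c11) + (-a3) / d0 * (z21 - c21))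
        + (x2 - a2) * (a4 / d0 * (z12 - c12) + (-a3) / d0 * (z22 - c22))
        + (x3 - a3) * ((-a2) / d0 * (z11 - c11) + a1 / d0 * (z21 - c21))
        + (x4 - a4) * ((-a2) / d0 * (z12 - c12) + a1 / d0 * (z22 - c22)))
      + (γ * (1 / 10 + (a1 ^ 2 + a2 ^ 2 + a3 ^ 2 + a4 ^ 2) / (2 * d0)) + 3 / 10 * θ ^ 2 / γ - θ)
        * ((x1 - a1) * (x4 - a4) - (x2 - a2) * (x3 - a3))
      + 3 / 10 / γ * ((y1 - b1) * (y4 - b4) - (y2 - b2) * (y3 - b3))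
    = γ / (4 * d0) * (((x1 - a1) ^ 2 + (x2 - a2) ^ 2 + (x3 - a3) ^ 2 + (x4 - a4) ^ 2) *
          (3 * (a1 * a4 - a2 * a3) + (x1 * x4 - x2 * x3))
        + ((x1 - a1) * (x4 - a4) - (x2 - a2) * (x3 - a3)) *
          ((a1 ^ 2 + a2 ^ 2 + a3 ^ 2 + a4 ^ 2) - (x1 ^ 2 + x2 ^ 2 + x3 ^ 2 + x4 ^ 2)
            + 8 / 5 * (a1 * a4 - a2 * a3))
        + 4 * (a1 * a4 - a2 * a3) * E1
        + 2 * (a4 * x1 - a3 * x2 - a2 * x3 + a1 * x4) * (t * (dx - d0) - E1)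
        + 6 / 5 * (a1 * a4 - a2 * a3) *
          (t * ((x1 - a1) * x1 + (x2 - a2) * x2 + (x3 - a3) * x3 + (x4 - a4) * x4)
            + t ^ 2 * (x1 * x4 - x2 * x3))) := by
  subst hz11 hz12 hz21 hz22 hc11 hc12 hc21 hc22 hfa hfx hy1 hy2 hy3 hy4 hb1 hb2 hb3 hb4
  rw [← hd0] at hd
  have key : ∀ u v : ℝ, 4 * d0 * γ * u = 4 * d0 * γ * v → u = v := by
    intro u v h
    have : 4 * d0 * γ ≠ 0 := by positivity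
    exact mul_left_cancel₀ this h
  apply key
  field_simp
  subst hd0 hdx
  ring

end Pool.Agent.SLG
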