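import Pool.Agent.SLG.B1
import Pool.Agent.SLG.B2
import Pool.Agent.SLG.B3
namespace Pool.Agent.SLG

theorem b4_sq_cd : ContDiff ℝ 2 (fun X : Mat 2 => sq X) := by
  unfold sq
  exact ContDiff.sum fun i _ => ContDiff.sum fun j _ => (contDiff_apply_apply ℝ ℝ i j).pow 2

theorem b4_det_cd : ContDiff ℝ 2 (fun X : Mat 2 => det2 X) := by
  unfold det2
  exact ((contDiff_apply_apply ℝ ℝ 0 0).mul (contDiff_apply_apply ℝ ℝ 1 1)).sub
    ((contDiff_apply_apply ℝ ℝ 0 1).mul (contDiff_apply_apply ℝ ℝ 1 0))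

theorem fNeo_contDiff (γ : ℝ) (g : ℝ → ℝ) (hg2 : ContDiff ℝ 2 g) :
    ContDiff ℝ 2 (fNeo γ g) := by
  unfold fNeo
  exact (contDiff_const.mul b4_sq_cd).add (hg2.comp b4_det_cd)

theorem b4_sq_line (X : Mat 2) (i j : Fin 2) (s : ℝ) :
    sq (X + s • (Pi.single i (Pi.single j (1:ℝ)) : Mat 2)) = sq X + 2 * s * X i j + s ^ 2 := by
  fin_cases i <;> fin_cases j <;> simp [sq, Fin.sum_univ_two, Pi.single_apply] <;> ring

theorem b4_det_line (X : Mat 2) (i j : Fin 2) (s : ℝ) :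
    det2 (X + s • (Pi.single i (Pi.single j (1:ℝ)) : Mat 2)) = det2 X + s * cof2 X i j := by
  fin_cases i <;> fin_cases j <;> simp [det2, cof2, Pi.single_apply] <;> ring

theorem b4_grd (γ : ℝ) (g : ℝ → ℝ) (hg2 : ContDiff ℝ 2 g) (X : Mat 2) (i j : Fin 2) :
    Grd (fNeo γ g) X i j = γ * X i j + deriv g (det2 X) * cof2 X i j := by
  have hd : DifferentiableAt ℝ (fNeo γ g) X :=
    (fNeo_contDiff γ g hg2).differentiable (by norm_num) X
  unfold Grd
  rw [← hd.lineDeriv_eq_fderiv]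
  unfold lineDeriv
  have h1 : (fun t : ℝ => fNeo γ g (X + t • (Pi.single i (Pi.single j (1:ℝ)) : Mat 2))) =
      fun t => γ / 2 * (sq X + 2 * t * X i j + t ^ 2) + g (det2 X + t * cof2 X i j) := by
    funext t
    unfold fNeo
    rw [b4_sq_line, b4_det_line]
  rw [h1]
  have hg : HasDerivAt g (deriv g (det2 X)) (det2 X + 0 * cof2 X i j) := by
    rw [zero_mul, add_zero]
    exact (hg2.differentiable (by norm_num) _).hasDerivAt
  have hl : HasDerivAt (fun t : ℝ => det2 X + t * cof2 X i j) (cof2 X i j) 0 := by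
    simpa using ((hasDerivAt_id (0:ℝ)).mul_const (cof2 X i j)).const_add (det2 X)
  have h2 := hg.comp (0:ℝ) hl
  have h3 : HasDerivAt (fun t : ℝ => γ / 2 * (sq X + 2 * t * X i j + t ^ 2)) (γ * X i j) 0 := by
    have e1 : HasDerivAt (fun t : ℝ => 2 * t * X i j) (2 * X i j) 0 := by
      simpa using ((hasDerivAt_id (0:ℝ)).const_mul 2).mul_const (X i j)
    have e2 : HasDerivAt (fun t : ℝ => t ^ 2) 0 0 := by
      simpa using hasDerivAt_pow 2 (0:ℝ)
    have e3 := ((e1.const_add (sq X)).add e2).const_mul (γ / 2)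
    exact e3.congr_deriv (by ring)
  exact (h3.add h2).deriv

theorem KNeo_compact (κ : ℝ) : IsCompact (KNeo κ) := by
  have hc1 : Continuous (fun X : Mat 2 => sq X) := b4_sq_cd.continuous
  have hc2 : Continuous (fun X : Mat 2 => det2 X) := b4_det_cd.continuous
  have hcl : IsClosed (KNeo κ) := by
    have h1 : IsClosed {X : Mat 2 | sq X ≤ 5 / 2 * det2 X} :=
      isClosed_le hc1 (continuous_const.mul hc2)
    have h2 : IsClosed {X : Mat 2 | κ ≤ det2 X} := isClosed_le continuous_const hc2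
    have h3 : IsClosed {X : Mat 2 | det2 X ≤ 4 * κ} := isClosed_le hc2 continuous_const
    exact h1.inter (h2.inter h3)
  refine Metric.isCompact_of_isClosed_isBounded hcl ?_
  rw [isBounded_iff_forall_norm_le]
  refine ⟨Real.sqrt (10 * |κ|) , fun X hX => ?_⟩
  obtain ⟨h1, h2, h3⟩ := hX
  have h4 : sq X ≤ 10 * |κ| := by
    have := le_abs_self κ
    linarith
  rw [pi_norm_le_iff_of_nonneg (Real.sqrt_nonneg _)]
  intro i
  rw [pi_norm_le_iff_of_nonneg (Real.sqrt_nonneg _)]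
  intro j
  rw [Real.norm_eq_abs]
  apply Real.abs_le_sqrt
  refine le_trans ?_ h4
  unfold sq
  have h5 : (X i j) ^ 2 ≤ ∑ j, (X i j) ^ 2 :=
    Finset.single_le_sum (f := fun j => (X i j) ^ 2) (fun _ _ => sq_nonneg _) (Finset.mem_univ j)
  have h6 : ∑ j, (X i j) ^ 2 ≤ ∑ i, ∑ j, (X i j) ^ 2 :=
    Finset.single_le_sum (f := fun i => ∑ j, (X i j) ^ 2)
      (fun _ _ => Finset.sum_nonneg fun _ _ => sq_nonneg _) (Finset.mem_univ i)
  exact h5.trans h6

/-- Coefficients of the certificate. -/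
noncomputable def b4_C (γ θ : ℝ) (A : Mat 2) : Idx 2 → Idx 2 → ℝ
  | .inl l, .inr (.inl i) => if l = i then 1 / 2 - 3 / 10 * θ / γ else 0
  | .inl l, .inr (.inr k) => 1 / 2 * (cof2 A l k / det2 A)
  | .inl l, .inl i => if l = 0 ∧ i = 1 then
      γ * (1 / 10 + sq A / (2 * det2 A)) + 3 / 10 * θ ^ 2 / γ - θ else 0
  | .inr (.inl l), .inr (.inl i) => if l = 0 ∧ i = 1 then 3 / 10 / γ else 0
  | .inr (.inl _), .inl _ => 0
  | .inr (.inl _), .inr (.inr _) => 0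
  | .inr (.inr _), _ => 0

theorem b4_sum (γ θ : ℝ) (A X : Mat 2) (f : Mat 2 → ℝ) :
    ∑ p, ∑ q, b4_C γ θ A p q * minor (Wf f X - Wf f A) p q =
    (1 / 2 - 3 / 10 * θ / γ) * ((X 0 0 - A 0 0) * (Grd f X 0 0 - Grd f A 0 0)
        + (X 0 1 - A 0 1) * (Grd f X 0 1 - Grd f A 0 1)
        + (X 1 0 - A 1 0) * (Grd f X 1 0 - Grd f A 1 0)
        + (X 1 1 - A 1 1) * (Grd f X 1 1 - Grd f A 1 1))
      + 1 / 2 * ((X 0 0 - A 0 0) * (A 1 1 / det2 A * (Zf f X 0 0 - Zf f A 0 0)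
            + (-A 1 0) / det2 A * (Zf f X 1 0 - Zf f A 1 0))
        + (X 0 1 - A 0 1) * (A 1 1 / det2 A * (Zf f X 0 1 - Zf f A 0 1)
            + (-A 1 0) / det2 A * (Zf f X 1 1 - Zf f A 1 1))
        + (X 1 0 - A 1 0) * ((-A 0 1) / det2 A * (Zf f X 0 0 - Zf f A 0 0)
            + A 0 0 / det2 A * (Zf f X 1 0 - Zf f A 1 0))
        + (X 1 1 - A 1 1) * ((-A 0 1) / det2 A * (Zf f X 0 1 - Zf f A 0 1)
            + A 0 0 / det2 A * (Zf f X 1 1 - Zf f A 1 1)))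
      + (γ * (1 / 10 + sq A / (2 * det2 A)) + 3 / 10 * θ ^ 2 / γ - θ)
        * ((X 0 0 - A 0 0) * (X 1 1 - A 1 1) - (X 0 1 - A 0 1) * (X 1 0 - A 1 0))
      + 3 / 10 / γ * ((Grd f X 0 0 - Grd f A 0 0) * (Grd f X 1 1 - Grd f A 1 1)
        - (Grd f X 0 1 - Grd f A 0 1) * (Grd f X 1 0 - Grd f A 1 0)) := by
  simp only [Fintype.sum_sum_type, Fin.sum_univ_two, b4_C, minor, Wf, cof2, Pi.sub_apply]
  norm_num
  ring

theorem b4_tangent {g : ℝ → ℝ} (hg : ConvexOn ℝ Set.univ g) (x y : ℝ)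
    (hd : DifferentiableAt ℝ g x) : g x + deriv g x * (y - x) ≤ g y := by
  rcases lt_trichotomy x y with h | h | h
  · have h1 := hg.deriv_le_slope (Set.mem_univ x) (Set.mem_univ y) h hd
    rw [slope_def_field, le_div_iff₀ (by linarith)] at h1
    linarith
  · rw [h]; simp
  · have h1 := hg.slope_le_deriv (Set.mem_univ y) (Set.mem_univ x) h hd
    rw [slope_def_field, div_le_iff₀ (by linarith)] at h1
    linarith

theorem neo_two (γ κ : ℝ) (hγ : 0 < γ) (hκ : 0 < κ) (g : ℝ → ℝ)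
    (hg : ConvexOn ℝ Set.univ g) (hg2 : ContDiff ℝ 2 g) : TwoPoint (fNeo γ g) (KNeo κ) := by
  intro A hA
  obtain ⟨hA1, hA2, hA3⟩ := hA
  have hd0 : 0 < det2 A := by linarith
  have hdiff : ∀ z, DifferentiableAt ℝ g z := fun z => hg2.differentiable (by norm_num) z
  refine ⟨b4_C γ (deriv g (det2 A)) A, γ / 10, by linarith, ?_⟩
  -- the main estimate
  have main : ∀ X : Mat 2, 0 < det2 X →
      ((0 ≤ A 1 1 * X 0 0 - A 1 0 * X 0 1 - A 0 1 * X 1 0 + A 0 0 * X 1 1 ∧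
        sq X ≤ 13 / 5 * det2 X ∧ det2 A ≤ 5 * det2 X ∧ det2 X ≤ 5 * det2 A) ∨
       (A 1 1 * X 0 0 - A 1 0 * X 0 1 - A 0 1 * X 1 0 + A 0 0 * X 1 1 < 0 ∧
        sq X ≤ 5 / 2 * det2 X ∧ det2 A ≤ 4 * det2 X ∧ det2 X ≤ 4 * det2 A)) →
      γ / 10 * sq (X - A) ≤ ∑ p, ∑ q, b4_C γ (deriv g (det2 A)) A p q *
        minor (Wf (fNeo γ g) X - Wf (fNeo γ g) A) p q := by
    intro X hdX hX
    set θ := deriv g (det2 A) with hθ
    set t := (deriv g (det2 X) - θ) / γ with ht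
    set E1 := (g (det2 X) - g (det2 A) - θ * (det2 X - det2 A)) / γ with hE1
    set E2 := t * (det2 X - det2 A) - E1 with hE2
    have htg : deriv g (det2 X) = θ + γ * t := by rw [ht]; field_simp; ring
    have hgX : g (det2 X) = g (det2 A) + θ * (det2 X - det2 A) + γ * E1 := by
      rw [hE1]; field_simp; ring
    have p1 : 0 ≤ E1 := by
      rw [hE1]
      apply div_nonneg _ hγ.le
      have := b4_tangent hg (det2 A) (det2 X) (hdiff _)
      rw [← hθ] at this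
      linarith
    have p2 : 0 ≤ E2 := by
      have := b4_tangent hg (det2 X) (det2 A) (hdiff _)
      rw [htg, hgX] at this
      have h2 : 0 ≤ γ * E2 := by rw [hE2]; nlinarith
      exact nonneg_of_mul_nonneg_right (by linarith) hγ |> fun h => h
    have e0 : sq X = X 0 0 ^ 2 + X 0 1 ^ 2 + X 1 0 ^ 2 + X 1 1 ^ 2 := by
      simp only [sq, Fin.sum_univ_two]; ring
    have e1 : sq A = A 0 0 ^ 2 + A 0 1 ^ 2 + A 1 0 ^ 2 + A 1 1 ^ 2 := by
      simp only [sq, Fin.sum_univ_two]; ring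
    have e2 : sq (X - A) = (X 0 0 - A 0 0) ^ 2 + (X 0 1 - A 0 1) ^ 2 + (X 1 0 - A 1 0) ^ 2
        + (X 1 1 - A 1 1) ^ 2 := by
      simp only [sq, Fin.sum_univ_two, Pi.sub_apply]; ring
    have hid := neo_id (A 0 0) (A 0 1) (A 1 0) (A 1 1) (X 0 0) (X 0 1) (X 1 0) (X 1 1) γ θ t
      (g (det2 A)) E1 hγ.ne' (by unfold det2 at hd0; exact hd0.ne') (det2 A) (det2 X)
      (Grd (fNeo γ g) X 0 0) (Grd (fNeo γ g) X 0 1) (Grd (fNeo γ g) X 1 0)
      (Grd (fNeo γ g) X 1 1) (Grd (fNeo γ g) A 0 0) (Grd (fNeo γ g) A 0 1)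
      (Grd (fNeo γ g) A 1 0) (Grd (fNeo γ g) A 1 1) (fNeo γ g A) (fNeo γ g X)
      (Zf (fNeo γ g) X 0 0) (Zf (fNeo γ g) X 0 1) (Zf (fNeo γ g) X 1 0) (Zf (fNeo γ g) X 1 1)
      (Zf (fNeo γ g) A 0 0) (Zf (fNeo γ g) A 0 1) (Zf (fNeo γ g) A 1 0) (Zf (fNeo γ g) A 1 1)
      (by rfl) (by rfl)
      (by rw [b4_grd γ g hg2, ← hθ]; simp [cof2])
      (by rw [b4_grd γ g hg2, ← hθ]; simp [cof2]; ring)
      (by rw [b4_grd γ g hg2, ← hθ]; simp [cof2]; ring)
      (by rw [b4_grd γ g hg2, ← hθ]; simp [cof2])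
      (by rw [b4_grd γ g hg2, htg]; simp [cof2])
      (by rw [b4_grd γ g hg2, htg]; simp [cof2]; ring)
      (by rw [b4_grd γ g hg2, htg]; simp [cof2]; ring)
      (by rw [b4_grd γ g hg2, htg]; simp [cof2])
      (by rw [← e1]; rfl) (by rw [← e0, ← hgX]; rfl)
      (by simp [Zf, Fin.sum_univ_two]) (by simp [Zf, Fin.sum_univ_two])
      (by simp [Zf, Fin.sum_univ_two]) (by simp [Zf, Fin.sum_univ_two])
      (by simp [Zf, Fin.sum_univ_two]) (by simp [Zf, Fin.sum_univ_two])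
      (by simp [Zf, Fin.sum_univ_two]) (by simp [Zf, Fin.sum_univ_two])
    rw [b4_sum, e1, hid, e2]
    have hm : γ / 10 * ((X 0 0 - A 0 0) ^ 2 + (X 0 1 - A 0 1) ^ 2 + (X 1 0 - A 1 0) ^ 2
        + (X 1 1 - A 1 1) ^ 2) = γ / (4 * det2 A) * (2 / 5 * (A 0 0 * A 1 1 - A 0 1 * A 1 0) *
        ((X 0 0 - A 0 0) ^ 2 + (X 0 1 - A 0 1) ^ 2 + (X 1 0 - A 1 0) ^ 2
        + (X 1 1 - A 1 1) ^ 2)) := by
      have : A 0 0 * A 1 1 - A 0 1 * A 1 0 = det2 A := rfl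
      rw [this]
      field_simp
      ring
    rw [hm]
    apply mul_le_mul_of_nonneg_left _ (by positivity)
    rw [← hE2]
    rcases hX with ⟨h1, h2, h3, h4⟩ | ⟨h1, h2, h3, h4⟩
    · exact neo_pos _ _ _ _ _ _ _ _ t E1 E2 hd0 (by rw [← e1]; exact hA1)
        (by rw [← e0]; exact h2) h3 h4 h1 p1 p2
    · exact neo_neg _ _ _ _ _ _ _ _ t E1 E2 hd0 (by rw [← e1]; exact hA1)
        (by rw [← e0]; exact h2) h3 h4 h1 p1 p2 (by rw [hE2]; unfold det2; ring)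
  -- near `A`
  have hc1 : Continuous (fun X : Mat 2 => sq X) := b4_sq_cd.continuous
  have hc2 : Continuous (fun X : Mat 2 => det2 X) := b4_det_cd.continuous
  have hc3 : Continuous (fun X : Mat 2 =>
      A 1 1 * X 0 0 - A 1 0 * X 0 1 - A 0 1 * X 1 0 + A 0 0 * X 1 1) := by fun_prop
  have hev : ∀ᶠ X in nhds A, 0 < det2 X ∧
      0 ≤ A 1 1 * X 0 0 - A 1 0 * X 0 1 - A 0 1 * X 1 0 + A 0 0 * X 1 1 ∧
        sq X ≤ 13 / 5 * det2 X ∧ det2 A ≤ 5 * det2 X ∧ det2 X ≤ 5 * det2 A := by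
    have a1 : ∀ᶠ X in nhds A, 0 < det2 X := hc2.continuousAt.eventually_const_lt hd0
    have a2 : ∀ᶠ X in nhds A,
        0 < A 1 1 * X 0 0 - A 1 0 * X 0 1 - A 0 1 * X 1 0 + A 0 0 * X 1 1 := by
      apply hc3.continuousAt.eventually_const_lt
      have : det2 A = A 0 0 * A 1 1 - A 0 1 * A 1 0 := rfl
      linarith
    have a3 : ∀ᶠ X in nhds A, 0 < 13 / 5 * det2 X - sq X :=
      ((continuous_const.mul hc2).sub hc1).continuousAt.eventually_const_lt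
        (by show (0:ℝ) < 13 / 5 * det2 A - sq A; linarith)
    have a4 : ∀ᶠ X in nhds A, 0 < 5 * det2 X - det2 A :=
      ((continuous_const.mul hc2).sub continuous_const).continuousAt.eventually_const_lt
        (by show (0:ℝ) < 5 * det2 A - det2 A; linarith)
    have a5 : ∀ᶠ X in nhds A, 0 < 5 * det2 A - det2 X :=
      (continuous_const.sub hc2).continuousAt.eventually_const_lt
        (by show (0:ℝ) < 5 * det2 A - det2 A; linarith)
    filter_upwards [a1, a2, a3, a4, a5] with X b1 b2 b3 b4 b5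
    exact ⟨b1, b2.le, by linarith, by linarith, by linarith⟩
  obtain ⟨r, hr, hball⟩ := Metric.eventually_nhds_iff.mp hev
  refine ⟨r, hr, fun X hX => ?_⟩
  rcases hX with ⟨h1, h2, h3⟩ | hX
  · have hdX : 0 < det2 X := by linarith
    apply main X hdX
    rcases lt_or_ge (A 1 1 * X 0 0 - A 1 0 * X 0 1 - A 0 1 * X 1 0 + A 0 0 * X 1 1) 0 with h | h
    · exact Or.inr ⟨h, h1, by linarith, by linarith⟩
    · exact Or.inl ⟨h, by linarith, by linarith, by linarith⟩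
  · obtain ⟨b1, b2, b3, b4, b5⟩ := hball (by rw [dist_eq_norm]; exact hX)
    exact main X b1 (Or.inl ⟨b2, b3, b4, b5⟩)

end Pool.Agent.SLG
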