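import Pool.Agent.SLG.Defs2

/-!
C1: the algebraic identity behind the class of invariant integrands.
-/

namespace Pool.Agent.SLG

theorem inv_id (a1 a2 a3 a4 x1 x2 x3 x4 γ al m1 m2 m3 m4 : ℝ)
    (p1 p2 p3 p4 pd q1 q2 q3 q4 qd ga gx : ℝ)
    (d0 dx y1 y2 y3 y4 b1 b2 b3 b4 fa fx z11 z12 z21 z22 c11 c12 c21 c22 sa sx : ℝ)
    (hq : q1 * m4 - q2 * m3 - q3 * m2 + q4 * m1 = al * qd)
    (hd0 : d0 = a1 * a4 - a2 * a3) (hdx : dx = x1 * x4 - x2 * x3)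
    (hb1 : b1 = γ * a1 + p1 + pd * a4) (hb2 : b2 = γ * a2 + p2 - pd * a3)
    (hb3 : b3 = γ * a3 + p3 - pd * a2) (hb4 : b4 = γ * a4 + p4 + pd * a1)
    (hy1 : y1 = γ * x1 + q1 + qd * x4) (hy2 : y2 = γ * x2 + q2 - qd * x3)
    (hy3 : y3 = γ * x3 + q3 - qd * x2) (hy4 : y4 = γ * x4 + q4 + qd * x1)
    (hfa : fa = γ / 2 * (a1 ^ 2 + a2 ^ 2 + a3 ^ 2 + a4 ^ 2) + ga)
    (hfx : fx = γ / 2 * (x1 ^ 2 + x2 ^ 2 + x3 ^ 2 + x4 ^ 2) + gx)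
    (hz11 : z11 = x1 * y1 + x3 * y3 - fx) (hz12 : z12 = x1 * y2 + x3 * y4)
    (hz21 : z21 = x2 * y1 + x4 * y3) (hz22 : z22 = x2 * y2 + x4 * y4 - fx)
    (hc11 : c11 = a1 * b1 + a3 * b3 - fa) (hc12 : c12 = a1 * b2 + a3 * b4)
    (hc21 : c21 = a2 * b1 + a4 * b3) (hc22 : c22 = a2 * b2 + a4 * b4 - fa)
    (hsa : sa = al + m1 * a1 + m2 * a2 + m3 * a3 + m4 * a4)
    (hsx : sx = al + m1 * x1 + m2 * x2 + m3 * x3 + m4 * x4) :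
    -- G = sa I - A M^T ; R = - M^T
    ((sa - (a1 * m1 + a2 * m2)) * ((x1 - a1) * (y1 - b1) + (x2 - a2) * (y2 - b2))
      + (-(a1 * m3 + a2 * m4)) * ((x3 - a3) * (y1 - b1) + (x4 - a4) * (y2 - b2))
      + (-(a3 * m1 + a4 * m2)) * ((x1 - a1) * (y3 - b3) + (x2 - a2) * (y4 - b4))
      + (sa - (a3 * m3 + a4 * m4)) * ((x3 - a3) * (y3 - b3) + (x4 - a4) * (y4 - b4)))
    + (m1 * ((x1 - a1) * (z11 - c11) + (x2 - a2) * (z12 - c12))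
      + m3 * ((x3 - a3) * (z11 - c11) + (x4 - a4) * (z12 - c12))
      + m2 * ((x1 - a1) * (z21 - c21) + (x2 - a2) * (z22 - c22))
      + m4 * ((x3 - a3) * (z21 - c21) + (x4 - a4) * (z22 - c22)))
    + (-sa * pd + γ * (a1 * m4 - a2 * m3 - a3 * m2 + a4 * m1))
        * ((x1 - a1) * (x4 - a4) - (x2 - a2) * (x3 - a3))
    = sa * (gx - ga - (p1 * (x1 - a1) + p2 * (x2 - a2) + p3 * (x3 - a3) + p4 * (x4 - a4))
          - pd * (dx - d0))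
      + sx * (ga - gx + (q1 * (x1 - a1) + q2 * (x2 - a2) + q3 * (x3 - a3) + q4 * (x4 - a4))
          + qd * (dx - d0))
      + γ * ((((x1 - a1) ^ 2 + (x2 - a2) ^ 2 + (x3 - a3) ^ 2 + (x4 - a4) ^ 2) / 2
              + ((x1 - a1) * (x4 - a4) - (x2 - a2) * (x3 - a3)))
            * (al + ((m1 + m4) * a1 + (m2 - m3) * a2 + (m3 - m2) * a3 + (m4 + m1) * a4) / 2
              + ((m1 - m4) * x1 + (m2 + m3) * x2 + (m3 + m2) * x3 + (m4 - m1) * x4) / 2)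
          + (((x1 - a1) ^ 2 + (x2 - a2) ^ 2 + (x3 - a3) ^ 2 + (x4 - a4) ^ 2) / 2
              - ((x1 - a1) * (x4 - a4) - (x2 - a2) * (x3 - a3)))
            * (al + ((m1 + m4) * x1 + (m2 - m3) * x2 + (m3 - m2) * x3 + (m4 + m1) * x4) / 2
              + ((m1 - m4) * a1 + (m2 + m3) * a2 + (m3 + m2) * a3 + (m4 - m1) * a4) / 2)) := by
  subst hz11 hz12 hz21 hz22 hc11 hc12 hc21 hc22 hfa hfx hy1 hy2 hy3 hy4 hb1 hb2 hb3 hb4 hsa hsx hd0 hdx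
  linear_combination (-((x1 - a1) * (x4 - a4) - (x2 - a2) * (x3 - a3))) * hq

end Pool.Agent.SLG
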