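import Pool.Agent.SLG.C1
import Pool.Agent.SLG.B4

/-!
ROW C2 (the two-point condition for `γ/2 |X|² + G (X, det X)` with `G` convex and invariant).
Step 1: derivatives.  With `DG = fderiv ℝ G (X, det2 X)`, `q i j := DG (Pi.single i (Pi.single j 1), 0)`
and `qd := DG (0, 1)`: `Grd (fInv γ G) X i j = γ * X i j + q i j + qd * cof2 X i j`.
Invariance, differentiated in `s` at `s = 0`: `∑ i, ∑ j, q i j * cof2 M i j = α * qd` at every
point.  Convexity: `G (Y) ≥ G (X) + DG_X (Y - X)` (tangent inequality for a differentiable convex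
function, reduce to one variable along the segment).
Step 2: for `A ∈ K` take, with `σ = α + ip M A`, `pd = DG_A (0, 1)`, the coefficients
 * `C (inl l) (inr (inl i)) = (if l = i then σ else 0) - ∑ k, A i k * M l k`,
 * `C (inl l) (inr (inr k)) = M l k`,
 * `C (inl 0) (inl 1) = -σ * pd + γ * ip A (cof2 M)`, all others `0`.
Expanding the double sum (see row B4, Step 2, for the minors) gives the left side of `inv_id`
with `m1 = M 0 0, m2 = M 0 1, m3 = M 1 0, m4 = M 1 1`, `p` the entries of `DG_A`, `q` those of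
`DG_X`.  Its right side is `σ(A) E1 + σ(X) E2 + γ (|Δ⁺|² k1 + |Δ⁻|² k2)`, where
`E1 = G_X - G_A - DG_A(X - A, dx - d0) ≥ 0`, `E2 = G_A - G_X + DG_X(...) ≥ 0`,
`|Δ⁺|² = (n + 2 det Δ)/2 ≥ 0`, `|Δ⁻|² = (n - 2 det Δ)/2 ≥ 0`, sum `n = sq (X - A)`,
`k1 = α + ip M⁺ A + ip M⁻ X`, `k2 = α + ip M⁺ X + ip M⁻ A`.
For `X ∈ K`: `k1, k2 ≥ ε`, `σ(A), σ(X) ≥ ε` (take `A = B` in the hypothesis).  For `X` near
`A ∈ K`: all four are at least `ε/2` (they are at least `ε` at `X = A` and affine in `X`).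
So `c = γ ε / 2` works.
-/

namespace Pool.Agent.SLG

/-- Conformal part. -/
noncomputable def mP (M : Mat 2) : Mat 2 := fun i j => (M i j + cof2 M i j) / 2

/-- Anticonformal part. -/
noncomputable def mM (M : Mat 2) : Mat 2 := fun i j => (M i j - cof2 M i j) / 2

theorem fInv_contDiff (γ : ℝ) (G : Mat 2 × ℝ → ℝ) (hG : ContDiff ℝ 2 G) :
    ContDiff ℝ 2 (fInv γ G) := by
  unfold fInv
  exact (contDiff_const.mul b4_sq_cd).add (hG.comp (contDiff_id.prodMk b4_det_cd))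

theorem c2_grd (γ : ℝ) (G : Mat 2 × ℝ → ℝ) (hG : ContDiff ℝ 2 G) (X : Mat 2) (i j : Fin 2) :
    Grd (fInv γ G) X i j = γ * X i j
      + fderiv ℝ G (X, det2 X) (Pi.single i (Pi.single j (1:ℝ)), 0)
      + fderiv ℝ G (X, det2 X) (0, 1) * cof2 X i j := by
  have hd : DifferentiableAt ℝ (fInv γ G) X :=
    (fInv_contDiff γ G hG).differentiable (by norm_num) X
  unfold Grd
  rw [← hd.lineDeriv_eq_fderiv]
  unfold lineDeriv
  have h1 : (fun t : ℝ => fInv γ G (X + t • (Pi.single i (Pi.single j (1:ℝ)) : Mat 2))) =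
      fun t => γ / 2 * (sq X + 2 * t * X i j + t ^ 2) +
        G (X + t • (Pi.single i (Pi.single j (1:ℝ)) : Mat 2), det2 X + t * cof2 X i j) := by
    funext t
    unfold fInv
    rw [b4_sq_line, b4_det_line]
  rw [h1]
  have hg : HasFDerivAt G (fderiv ℝ G (X, det2 X))
      (X + (0:ℝ) • (Pi.single i (Pi.single j (1:ℝ)) : Mat 2), det2 X + 0 * cof2 X i j) := by
    rw [zero_smul, add_zero, zero_mul, add_zero]
    exact (hG.differentiable (by norm_num) _).hasFDerivAt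
  have hl : HasDerivAt (fun t : ℝ =>
      (X + t • (Pi.single i (Pi.single j (1:ℝ)) : Mat 2), det2 X + t * cof2 X i j))
      ((Pi.single i (Pi.single j (1:ℝ)) : Mat 2), cof2 X i j) 0 := by
    apply HasDerivAt.prodMk
    · simpa using ((hasDerivAt_id (0:ℝ)).smul_const
        (Pi.single i (Pi.single j (1:ℝ)) : Mat 2)).const_add X
    · simpa using ((hasDerivAt_id (0:ℝ)).mul_const (cof2 X i j)).const_add (det2 X)
  have h2 := hg.comp_hasDerivAt (0:ℝ) hl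
  have h3 : HasDerivAt (fun t : ℝ => γ / 2 * (sq X + 2 * t * X i j + t ^ 2)) (γ * X i j) 0 := by
    have e1 : HasDerivAt (fun t : ℝ => 2 * t * X i j) (2 * X i j) 0 := by
      simpa using ((hasDerivAt_id (0:ℝ)).const_mul 2).mul_const (X i j)
    have e2 : HasDerivAt (fun t : ℝ => t ^ 2) 0 0 := by
      simpa using hasDerivAt_pow 2 (0:ℝ)
    have e3 := ((e1.const_add (sq X)).add e2).const_mul (γ / 2)
    exact e3.congr_deriv (by ring)
  have h4 := (h3.add h2).deriv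
  have h5 : fderiv ℝ G (X, det2 X) ((Pi.single i (Pi.single j (1:ℝ)) : Mat 2), cof2 X i j) =
      fderiv ℝ G (X, det2 X) (Pi.single i (Pi.single j (1:ℝ)), 0)
      + fderiv ℝ G (X, det2 X) (0, 1) * cof2 X i j := by
    have : ((Pi.single i (Pi.single j (1:ℝ)) : Mat 2), cof2 X i j) =
        ((Pi.single i (Pi.single j (1:ℝ)) : Mat 2), (0:ℝ)) + cof2 X i j • ((0 : Mat 2), (1:ℝ)) := by
      simp
    rw [this, map_add, map_smul, smul_eq_mul]
    ring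
  rw [h5] at h4
  rw [add_assoc]
  exact h4

/-- Tangent inequality for a differentiable convex function. -/
theorem c2_tangent {E : Type*} [NormedAddCommGroup E] [NormedSpace ℝ E] {G : E → ℝ}
    (hc : ConvexOn ℝ Set.univ G) (x y : E) (hd : DifferentiableAt ℝ G x) :
    G x + fderiv ℝ G x (y - x) ≤ G y := by
  have h1 : ConvexOn ℝ Set.univ (fun t : ℝ => G (x + t • (y - x))) := by
    refine ⟨convex_univ, fun a _ b _ p q hp hq hpq => ?_⟩
    have := hc.2 (Set.mem_univ (x + a • (y - x))) (Set.mem_univ (x + b • (y - x))) hp hq hpq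
    have e : x + (p • a + q • b) • (y - x) =
        p • (x + a • (y - x)) + q • (x + b • (y - x)) := by
      obtain rfl : q = 1 - p := by linarith
      simp only [smul_eq_mul]
      module
    show G _ ≤ _
    rw [e]
    exact this
  have h2 : HasDerivAt (fun t : ℝ => G (x + t • (y - x))) (fderiv ℝ G x (y - x)) 0 := by
    have hg : HasFDerivAt G (fderiv ℝ G x) (x + (0:ℝ) • (y - x)) := by
      rw [zero_smul, add_zero]; exact hd.hasFDerivAt
    have hl : HasDerivAt (fun t : ℝ => x + t • (y - x)) (y - x) 0 := by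
      simpa using ((hasDerivAt_id (0:ℝ)).smul_const (y - x)).const_add x
    exact hg.comp_hasDerivAt (0:ℝ) hl
  have h3 := b4_tangent h1 0 1 h2.differentiableAt
  rw [h2.deriv] at h3
  simpa using h3

/-- Coefficients of the certificate. -/
noncomputable def c2_C (γ α pd : ℝ) (M A : Mat 2) : Idx 2 → Idx 2 → ℝ
  | .inl l, .inr (.inl i) => (if l = i then α + ip M A else 0) - ∑ k, A i k * M l k
  | .inl l, .inr (.inr k) => M l k
  | .inl l, .inl i => if l = 0 ∧ i = 1 then -(α + ip M A) * pd + γ * ip A (cof2 M) else 0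
  | .inr _, _ => 0

theorem c2_sum (γ α pd : ℝ) (M A X : Mat 2) (f : Mat 2 → ℝ) :
    ∑ p, ∑ q, c2_C γ α pd M A p q * minor (Wf f X - Wf f A) p q =
    ((((α + ip M A) - (A 0 0 * M 0 0 + A 0 1 * M 0 1)) *
          ((X 0 0 - A 0 0) * (Grd f X 0 0 - Grd f A 0 0)
            + (X 0 1 - A 0 1) * (Grd f X 0 1 - Grd f A 0 1))
      + (-(A 0 0 * M 1 0 + A 0 1 * M 1 1)) *
          ((X 1 0 - A 1 0) * (Grd f X 0 0 - Grd f A 0 0)
            + (X 1 1 - A 1 1) * (Grd f X 0 1 - Grd f A 0 1))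
      + (-(A 1 0 * M 0 0 + A 1 1 * M 0 1)) *
          ((X 0 0 - A 0 0) * (Grd f X 1 0 - Grd f A 1 0)
            + (X 0 1 - A 0 1) * (Grd f X 1 1 - Grd f A 1 1))
      + ((α + ip M A) - (A 1 0 * M 1 0 + A 1 1 * M 1 1)) *
          ((X 1 0 - A 1 0) * (Grd f X 1 0 - Grd f A 1 0)
            + (X 1 1 - A 1 1) * (Grd f X 1 1 - Grd f A 1 1)))
    + (M 0 0 * ((X 0 0 - A 0 0) * (Zf f X 0 0 - Zf f A 0 0)
            + (X 0 1 - A 0 1) * (Zf f X 0 1 - Zf f A 0 1))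
      + M 1 0 * ((X 1 0 - A 1 0) * (Zf f X 0 0 - Zf f A 0 0)
            + (X 1 1 - A 1 1) * (Zf f X 0 1 - Zf f A 0 1))
      + M 0 1 * ((X 0 0 - A 0 0) * (Zf f X 1 0 - Zf f A 1 0)
            + (X 0 1 - A 0 1) * (Zf f X 1 1 - Zf f A 1 1))
      + M 1 1 * ((X 1 0 - A 1 0) * (Zf f X 1 0 - Zf f A 1 0)
            + (X 1 1 - A 1 1) * (Zf f X 1 1 - Zf f A 1 1)))
    + (-(α + ip M A) * pd + γ * (A 0 0 * M 1 1 - A 0 1 * M 1 0 - A 1 0 * M 0 1 + A 1 1 * M 0 0))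
        * ((X 0 0 - A 0 0) * (X 1 1 - A 1 1) - (X 0 1 - A 0 1) * (X 1 0 - A 1 0))) := by
  simp only [Fintype.sum_sum_type, Fin.sum_univ_two, c2_C, minor, Wf, cof2, Pi.sub_apply, ip]
  norm_num
  ring

theorem c2_expand (L : Mat 2 × ℝ →L[ℝ] ℝ) (D : Mat 2) (s : ℝ) :
    L (D, s) = D 0 0 * L ((Pi.single 0 (Pi.single 0 (1:ℝ)) : Mat 2), 0)
      + D 0 1 * L ((Pi.single 0 (Pi.single 1 (1:ℝ)) : Mat 2), 0)
      + D 1 0 * L ((Pi.single 1 (Pi.single 0 (1:ℝ)) : Mat 2), 0)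
      + D 1 1 * L ((Pi.single 1 (Pi.single 1 (1:ℝ)) : Mat 2), 0) + s * L (0, 1) := by
  have h : (D, s) = D 0 0 • ((Pi.single 0 (Pi.single 0 (1:ℝ)) : Mat 2), (0:ℝ))
      + D 0 1 • ((Pi.single 0 (Pi.single 1 (1:ℝ)) : Mat 2), (0:ℝ))
      + D 1 0 • ((Pi.single 1 (Pi.single 0 (1:ℝ)) : Mat 2), (0:ℝ))
      + D 1 1 • ((Pi.single 1 (Pi.single 1 (1:ℝ)) : Mat 2), (0:ℝ))
      + s • ((0 : Mat 2), (1:ℝ)) := by
    ext i j
    · fin_cases i <;> fin_cases j <;> simp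
    · simp
  rw [h]
  simp only [map_add, map_smul, smul_eq_mul]

theorem c2_final (γ ε n w S1 S2 K1 K2 : ℝ) (hγ : 0 ≤ γ) (h1 : 0 ≤ n / 2 + w)
    (h2 : 0 ≤ n / 2 - w) (hS1 : 0 ≤ S1) (hS2 : 0 ≤ S2) (hK1 : ε / 2 ≤ K1) (hK2 : ε / 2 ≤ K2) :
    γ * ε / 2 * n ≤ S1 + S2 + γ * ((n / 2 + w) * K1 + (n / 2 - w) * K2) := by
  have r1 := mul_le_mul_of_nonneg_left hK1 h1
  have r2 := mul_le_mul_of_nonneg_left hK2 h2
  have r3 := mul_le_mul_of_nonneg_left (add_le_add r1 r2) hγ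
  have r4 : γ * ((n / 2 + w) * (ε / 2) + (n / 2 - w) * (ε / 2)) = γ * ε / 2 * n := by ring
  linarith

theorem c2_s1 (σ ε gA gX a b c d t p1 p2 p3 p4 pd : ℝ) (hε : 0 < ε) (hσ : ε ≤ σ)
    (h : gA + (a * p1 + b * p2 + c * p3 + d * p4 + t * pd) ≤ gX) :
    0 ≤ σ * (gX - gA - (p1 * a + p2 * b + p3 * c + p4 * d) - pd * t) :=
  mul_nonneg (by linarith) (by linarith)

theorem c2_s2 (σ ε gA gX xa xb xc xd xt aa ab ac ad at' p1 p2 p3 p4 pd : ℝ) (hε : 0 < ε)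
    (hσ : ε / 2 ≤ σ)
    (h : gX + ((aa - xa) * p1 + (ab - xb) * p2 + (ac - xc) * p3 + (ad - xd) * p4
      + (at' - xt) * pd) ≤ gA) :
    0 ≤ σ * (gA - gX + (p1 * (xa - aa) + p2 * (xb - ab) + p3 * (xc - ac) + p4 * (xd - ad))
      + pd * (xt - at')) :=
  mul_nonneg (by linarith) (by linarith)

theorem c2_q1 (a b c d : ℝ) : 0 ≤ (a ^ 2 + b ^ 2 + c ^ 2 + d ^ 2) / 2 + (a * d - b * c) := by
  nlinarith [sq_nonneg (a + d), sq_nonneg (b - c)]

theorem c2_q2 (a b c d : ℝ) : 0 ≤ (a ^ 2 + b ^ 2 + c ^ 2 + d ^ 2) / 2 - (a * d - b * c) := by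
  nlinarith [sq_nonneg (a - d), sq_nonneg (b + c)]

theorem inv_main (γ α ε : ℝ) (hγ : 0 < γ) (hε : 0 < ε) (M : Mat 2) (G : Mat 2 × ℝ → ℝ)
    (hG : ContDiff ℝ 2 G) (hc : ConvexOn ℝ Set.univ G)
    (hinv : ∀ (X : Mat 2) (δ s : ℝ), G (X + s • cof2 M, δ - s * α) = G (X, δ))
    (A X : Mat 2) (hA0 : ε ≤ α + ip M A)
    (h1 : ε / 2 ≤ α + ip (mP M) A + ip (mM M) X)
    (h2 : ε / 2 ≤ α + ip (mP M) X + ip (mM M) A) (h3 : ε / 2 ≤ α + ip M X) :
    γ * ε / 2 * sq (X - A) ≤ ∑ p, ∑ q, c2_C γ α (fderiv ℝ G (A, det2 A) (0, 1)) M A p q *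
        minor (Wf (fInv γ G) X - Wf (fInv γ G) A) p q := by
  have hdiff : ∀ z, DifferentiableAt ℝ G z := fun z => hG.differentiable (by norm_num) z
  -- affine functionals
  have hk : ∀ B D : Mat 2, α + ip (mP M) B + ip (mM M) D =
      α + ((M 0 0 + M 1 1) * B 0 0 + (M 0 1 - M 1 0) * B 0 1 + (M 1 0 - M 0 1) * B 1 0
          + (M 1 1 + M 0 0) * B 1 1) / 2
        + ((M 0 0 - M 1 1) * D 0 0 + (M 0 1 + M 1 0) * D 0 1 + (M 1 0 + M 0 1) * D 1 0
          + (M 1 1 - M 0 0) * D 1 1) / 2 := by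
    intro B D
    simp only [ip, mP, mM, cof2, Fin.sum_univ_two]
    norm_num
    ring
  -- invariance
  have hq : fderiv ℝ G (X, det2 X) (cof2 M, -α) = 0 := by
    have hl : HasDerivAt (fun s : ℝ => (X + s • cof2 M, det2 X - s * α)) (cof2 M, -α) 0 := by
      apply HasDerivAt.prodMk
      · simpa using ((hasDerivAt_id (0:ℝ)).smul_const (cof2 M)).const_add X
      · simpa using ((hasDerivAt_id (0:ℝ)).mul_const α).const_sub (det2 X)
    have hg : HasFDerivAt G (fderiv ℝ G (X, det2 X)) (X + (0:ℝ) • cof2 M, det2 X - 0 * α) := by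
      rw [zero_smul, add_zero, zero_mul, sub_zero]
      exact (hdiff _).hasFDerivAt
    have h4 := hg.comp_hasDerivAt (0:ℝ) hl
    have h5 : HasDerivAt (G ∘ fun s : ℝ => (X + s • cof2 M, det2 X - s * α)) 0 0 := by
      have : (G ∘ fun s : ℝ => (X + s • cof2 M, det2 X - s * α)) = fun _ => G (X, det2 X) := by
        funext s
        exact hinv X (det2 X) s
      rw [this]
      exact hasDerivAt_const _ _
    exact h4.unique h5
  rw [c2_expand] at hq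
  have e0 : sq X = X 0 0 ^ 2 + X 0 1 ^ 2 + X 1 0 ^ 2 + X 1 1 ^ 2 := by
    simp only [sq, Fin.sum_univ_two]; ring
  have e1 : sq A = A 0 0 ^ 2 + A 0 1 ^ 2 + A 1 0 ^ 2 + A 1 1 ^ 2 := by
    simp only [sq, Fin.sum_univ_two]; ring
  have e2 : sq (X - A) = (X 0 0 - A 0 0) ^ 2 + (X 0 1 - A 0 1) ^ 2 + (X 1 0 - A 1 0) ^ 2
      + (X 1 1 - A 1 1) ^ 2 := by
    simp only [sq, Fin.sum_univ_two, Pi.sub_apply]; ring
  have hid := inv_id (A 0 0) (A 0 1) (A 1 0) (A 1 1) (X 0 0) (X 0 1) (X 1 0) (X 1 1) γ α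
    (M 0 0) (M 0 1) (M 1 0) (M 1 1)
    (fderiv ℝ G (A, det2 A) ((Pi.single 0 (Pi.single 0 (1:ℝ)) : Mat 2), 0))
    (fderiv ℝ G (A, det2 A) ((Pi.single 0 (Pi.single 1 (1:ℝ)) : Mat 2), 0))
    (fderiv ℝ G (A, det2 A) ((Pi.single 1 (Pi.single 0 (1:ℝ)) : Mat 2), 0))
    (fderiv ℝ G (A, det2 A) ((Pi.single 1 (Pi.single 1 (1:ℝ)) : Mat 2), 0))
    (fderiv ℝ G (A, det2 A) (0, 1))
    (fderiv ℝ G (X, det2 X) ((Pi.single 0 (Pi.single 0 (1:ℝ)) : Mat 2), 0))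
    (fderiv ℝ G (X, det2 X) ((Pi.single 0 (Pi.single 1 (1:ℝ)) : Mat 2), 0))
    (fderiv ℝ G (X, det2 X) ((Pi.single 1 (Pi.single 0 (1:ℝ)) : Mat 2), 0))
    (fderiv ℝ G (X, det2 X) ((Pi.single 1 (Pi.single 1 (1:ℝ)) : Mat 2), 0))
    (fderiv ℝ G (X, det2 X) (0, 1)) (G (A, det2 A)) (G (X, det2 X)) (det2 A) (det2 X)
    (Grd (fInv γ G) X 0 0) (Grd (fInv γ G) X 0 1) (Grd (fInv γ G) X 1 0)
    (Grd (fInv γ G) X 1 1) (Grd (fInv γ G) A 0 0) (Grd (fInv γ G) A 0 1)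
    (Grd (fInv γ G) A 1 0) (Grd (fInv γ G) A 1 1) (fInv γ G A) (fInv γ G X)
    (Zf (fInv γ G) X 0 0) (Zf (fInv γ G) X 0 1) (Zf (fInv γ G) X 1 0) (Zf (fInv γ G) X 1 1)
    (Zf (fInv γ G) A 0 0) (Zf (fInv γ G) A 0 1) (Zf (fInv γ G) A 1 0) (Zf (fInv γ G) A 1 1)
    (α + ip M A) (α + ip M X)
    (by
      simp only [cof2] at hq
      norm_num at hq
      linarith)
    (by rfl) (by rfl)
    (by rw [c2_grd γ G hG]; simp [cof2])
    (by rw [c2_grd γ G hG]; simp [cof2]; ring)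
    (by rw [c2_grd γ G hG]; simp [cof2]; ring)
    (by rw [c2_grd γ G hG]; simp [cof2])
    (by rw [c2_grd γ G hG]; simp [cof2])
    (by rw [c2_grd γ G hG]; simp [cof2]; ring)
    (by rw [c2_grd γ G hG]; simp [cof2]; ring)
    (by rw [c2_grd γ G hG]; simp [cof2])
    (by rw [← e1]; rfl) (by rw [← e0]; rfl)
    (by simp [Zf, Fin.sum_univ_two]) (by simp [Zf, Fin.sum_univ_two])
    (by simp [Zf, Fin.sum_univ_two]) (by simp [Zf, Fin.sum_univ_two])
    (by simp [Zf, Fin.sum_univ_two]) (by simp [Zf, Fin.sum_univ_two])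
    (by simp [Zf, Fin.sum_univ_two]) (by simp [Zf, Fin.sum_univ_two])
    (by simp only [ip, Fin.sum_univ_two]; ring) (by simp only [ip, Fin.sum_univ_two]; ring)
  rw [c2_sum, hid, e2]
  have t1 := c2_tangent hc (A, det2 A) (X, det2 X) (hdiff _)
  have t2 := c2_tangent hc (X, det2 X) (A, det2 A) (hdiff _)
  rw [Prod.mk_sub_mk, c2_expand] at t1 t2
  simp only [Pi.sub_apply] at t1 t2
  rw [hk] at h1 h2
  have s1 := c2_s1 _ _ _ _ _ _ _ _ _ _ _ _ _ _ hε hA0 t1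
  have s2 := c2_s2 _ _ _ _ _ _ _ _ _ _ _ _ _ _ _ _ _ _ _ hε h3 t2
  have q1 := c2_q1 (X 0 0 - A 0 0) (X 0 1 - A 0 1) (X 1 0 - A 1 0) (X 1 1 - A 1 1)
  have q2 := c2_q2 (X 0 0 - A 0 0) (X 0 1 - A 0 1) (X 1 0 - A 1 0) (X 1 1 - A 1 1)
  exact c2_final γ ε _ _ _ _ _ _ hγ.le q1 q2 s1 s2 h1 h2

theorem c2_sig (α : ℝ) (M B : Mat 2) : α + ip M B = α + ip (mP M) B + ip (mM M) B := by
  simp only [ip, mP, mM, cof2, Fin.sum_univ_two]
  ring

theorem inv_two (γ α ε : ℝ) (hγ : 0 < γ) (hε : 0 < ε) (M : Mat 2) (G : Mat 2 × ℝ → ℝ)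
    (hG : ContDiff ℝ 2 G) (hc : ConvexOn ℝ Set.univ G)
    (hinv : ∀ (X : Mat 2) (δ s : ℝ), G (X + s • cof2 M, δ - s * α) = G (X, δ))
    (K : Set (Mat 2)) (hK : ∀ A ∈ K, ∀ B ∈ K, ε ≤ α + ip (mP M) A + ip (mM M) B) :
    TwoPoint (fInv γ G) K := by
  intro A hA
  have hsig := c2_sig α M
  refine ⟨c2_C γ α (fderiv ℝ G (A, det2 A) (0, 1)) M A, γ * ε / 2, by positivity, ?_⟩
  have main : ∀ X : Mat 2, ε / 2 ≤ α + ip (mP M) A + ip (mM M) X →
      ε / 2 ≤ α + ip (mP M) X + ip (mM M) A → ε / 2 ≤ α + ip M X →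
      γ * ε / 2 * sq (X - A) ≤ ∑ p, ∑ q, c2_C γ α (fderiv ℝ G (A, det2 A) (0, 1)) M A p q *
        minor (Wf (fInv γ G) X - Wf (fInv γ G) A) p q :=
    fun X h1 h2 h3 => inv_main γ α ε hγ hε M G hG hc hinv A X
      (by rw [hsig]; exact hK A hA A hA) h1 h2 h3
  -- near `A`
  have hcf : ∀ B : Mat 2, Continuous (fun X : Mat 2 => ip B X) := by
    intro B
    unfold ip
    fun_prop
  have hA1 := hK A hA A hA
  have hev : ∀ᶠ X in nhds A, ε / 2 ≤ α + ip (mP M) A + ip (mM M) X ∧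
      ε / 2 ≤ α + ip (mP M) X + ip (mM M) A ∧ ε / 2 ≤ α + ip M X := by
    have a1 : ∀ᶠ X in nhds A, ε / 2 < α + ip (mP M) A + ip (mM M) X :=
      (continuous_const.add (hcf _)).continuousAt.eventually_const_lt
        (by show ε / 2 < α + ip (mP M) A + ip (mM M) A; linarith)
    have a2 : ∀ᶠ X in nhds A, ε / 2 < α + ip (mP M) X + ip (mM M) A :=
      ((continuous_const.add (hcf _)).add continuous_const).continuousAt.eventually_const_lt
        (by show ε / 2 < α + ip (mP M) A + ip (mM M) A; linarith)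
    have a3 : ∀ᶠ X in nhds A, ε / 2 < α + ip M X :=
      (continuous_const.add (hcf _)).continuousAt.eventually_const_lt
        (by show ε / 2 < α + ip M A; rw [hsig]; linarith)
    filter_upwards [a1, a2, a3] with X b1 b2 b3
    exact ⟨b1.le, b2.le, b3.le⟩
  obtain ⟨r, hr, hball⟩ := Metric.eventually_nhds_iff.mp hev
  refine ⟨r, hr, fun X hX => ?_⟩
  rcases hX with hX | hX
  · apply main X
    · have := hK A hA X hX; linarith
    · have := hK X hX A hA; linarith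
    · have := hK X hX X hX; rw [hsig]; linarith
  · obtain ⟨b1, b2, b3⟩ := hball (by rw [dist_eq_norm]; exact hX)
    exact main X b1 b2 b3

end Pool.Agent.SLG
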