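import Pool.Agent.SLG.M1
import Pool.Agent.SLG.A1

/-!
ROW M2 (mollification of Lipschitz functions).
(a) `pd j (mol ε g) = mol ε (pd j g)` for `g` Lipschitz: by `mol_deriv` with `l = [j]`,
`pd j (mol ε g) x = ∫ y, pd j (ker ε) (x - y) * g y`, and
`pd j (ker ε) (x - y) = - pd j (fun y => ker ε (x - y)) y` (chain rule), so `ibp` (with the
Lipschitz compactly supported `φ y = ker ε (x - y)`; a smooth compactly supported function is
Lipschitz, `ContDiff.lipschitzWith_of_hasCompactSupport`) gives the claim.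
(b) all iterated derivatives of `mol ε g` are Lipschitz.  The function `F = pds l (mol ε g)` is
smooth and its `fderiv` is bounded since with `k = pds l (ker ε)` we have
`pd i F x = ∫ pd i k (x - y) * g y = ∫ k (x - y) * pd i g y`.
(c) `|g x - mol ε g x| ≤ L ε` for every `x`.
-/

namespace Pool.Agent.SLG

open MeasureTheory

theorem m2_pd_smooth {k : E2 → ℝ} (hk : ContDiff ℝ ((⊤ : ℕ∞) : WithTop ℕ∞) k) (j : Fin 2) :
    ContDiff ℝ ((⊤ : ℕ∞) : WithTop ℕ∞) (pd j k) := by
  have h1 : ContDiff ℝ ((⊤ : ℕ∞) : WithTop ℕ∞) (fderiv ℝ k) :=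
    hk.fderiv_right (by norm_cast)
  exact h1.clm_apply contDiff_const

theorem m2_pd_supp {k : E2 → ℝ} (hk : HasCompactSupport k) (j : Fin 2) :
    HasCompactSupport (pd j k) :=
  hk.fderiv_apply (𝕜 := ℝ) (ee j)

theorem m2_pds {k : E2 → ℝ} (hk : ContDiff ℝ ((⊤ : ℕ∞) : WithTop ℕ∞) k)
    (hc : HasCompactSupport k) (l : List (Fin 2)) :
    ContDiff ℝ ((⊤ : ℕ∞) : WithTop ℕ∞) (pds l k) ∧ HasCompactSupport (pds l k) := by
  induction l with
  | nil => exact ⟨hk, hc⟩
  | cons j l ih => exact ⟨m2_pd_smooth ih.1 j, m2_pd_supp ih.2 j⟩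

theorem m2_pds_smooth {k : E2 → ℝ} (hk : ContDiff ℝ ((⊤ : ℕ∞) : WithTop ℕ∞) k)
    (l : List (Fin 2)) : ContDiff ℝ ((⊤ : ℕ∞) : WithTop ℕ∞) (pds l k) := by
  induction l with
  | nil => exact hk
  | cons j l ih => exact m2_pd_smooth ih j

theorem m2_move {k g : E2 → ℝ} {L : NNReal} (hk : ContDiff ℝ ((⊤ : ℕ∞) : WithTop ℕ∞) k)
    (hc : HasCompactSupport k) (hg : LipschitzWith L g) (j : Fin 2) (x : E2) :
    ∫ y, pd j k (x - y) * g y = ∫ y, k (x - y) * pd j g y := by
  have hφ : ContDiff ℝ ((⊤ : ℕ∞) : WithTop ℕ∞) (fun y => k (x - y)) :=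
    hk.comp (contDiff_const.sub contDiff_id)
  have hφc : HasCompactSupport (fun y => k (x - y)) :=
    hc.comp_homeomorph (Homeomorph.subLeft x)
  obtain ⟨M, hM⟩ := ContDiff.lipschitzWith_of_hasCompactSupport hφc hφ (by simp)
  have h1 := ibp hg hM hφc j
  have h2 : ∀ y, pd j (fun y => k (x - y)) y = -pd j k (x - y) := by
    intro y
    have h3 : HasFDerivAt (fun y => k (x - y))
        ((fderiv ℝ k (x - y)).comp (0 - ContinuousLinearMap.id ℝ E2)) y := by
      have h4 : HasFDerivAt k (fderiv ℝ k (x - y)) (x - y) :=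
        ((hk.differentiable (by simp)) (x - y)).hasFDerivAt
      exact h4.comp y ((hasFDerivAt_const x y).sub (hasFDerivAt_id y))
    unfold pd
    rw [h3.fderiv]
    simp
  have h5 : ∫ y, k (x - y) * pd j g y = ∫ y, pd j g y * k (x - y) :=
    integral_congr_ae (Filter.Eventually.of_forall fun y => by simp only []; ring)
  rw [h5, h1, ← integral_neg]
  refine integral_congr_ae (Filter.Eventually.of_forall fun y => ?_)
  simp only []
  rw [h2 y]
  ring

theorem m2_clm (A : E2 →L[ℝ] ℝ) : ‖A‖ ≤ |A (ee 0)| + |A (ee 1)| := by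
  refine A.opNorm_le_bound (by positivity) fun v => ?_
  have h1 : v = v 0 • ee 0 + v 1 • ee 1 := by
    ext i
    fin_cases i <;> simp [ee]
  have h2 : A v = v 0 * A (ee 0) + v 1 * A (ee 1) := by
    conv_lhs => rw [h1]
    rw [map_add, map_smul, map_smul, smul_eq_mul, smul_eq_mul]
  have h3 : |v 0| ≤ ‖v‖ := by
    have := PiLp.norm_apply_le v 0
    rwa [Real.norm_eq_abs] at this
  have h4 : |v 1| ≤ ‖v‖ := by
    have := PiLp.norm_apply_le v 1
    rwa [Real.norm_eq_abs] at this
  rw [h2, Real.norm_eq_abs]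
  calc |v 0 * A (ee 0) + v 1 * A (ee 1)| ≤ |v 0 * A (ee 0)| + |v 1 * A (ee 1)| := abs_add_le _ _
    _ = |v 0| * |A (ee 0)| + |v 1| * |A (ee 1)| := by rw [abs_mul, abs_mul]
    _ ≤ ‖v‖ * |A (ee 0)| + ‖v‖ * |A (ee 1)| := by gcongr
    _ = (|A (ee 0)| + |A (ee 1)|) * ‖v‖ := by ring

theorem m2_int_sub (k : E2 → ℝ) (x : E2) : ∫ y, k (x - y) = ∫ y, k y :=
  integral_sub_left_eq_self k volume x

theorem mol_lip {ε : ℝ} (hε : 0 < ε) {g : E2 → ℝ} {L : NNReal} (hg : LipschitzWith L g) :
    (∀ j x, pd j (mol ε g) x = mol ε (pd j g) x) ∧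
    (∀ l : List (Fin 2), ∃ L' : NNReal, LipschitzWith L' (pds l (mol ε g))) ∧
    (∀ x, |g x - mol ε g x| ≤ L * ε) := by
  obtain ⟨ks, kc, k0, k1, ksym, kout, kint⟩ := ker_facts hε
  obtain ⟨hLB, hLB', hbd⟩ := lb_of_lipschitz hg
  obtain ⟨ms, md⟩ := mol_deriv hε hLB
  refine ⟨?_, ?_, ?_⟩
  · intro j x
    have h1 := md [j] x
    have h2 := m2_move ks kc hg j x
    exact h1.trans h2
  · intro l
    obtain ⟨hs, hc⟩ := m2_pds ks kc l
    have hF := m2_pds_smooth ms l
    have hkint : Integrable (fun y => |pds l (ker ε) y|) volume :=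
      (hs.continuous.integrable_of_hasCompactSupport hc).abs
    set C : ℝ := L * ∫ y, |pds l (ker ε) y| with hC
    have hC0 : 0 ≤ C := mul_nonneg L.2 (integral_nonneg fun y => abs_nonneg _)
    have hb : ∀ i x, |pd i (pds l (mol ε g)) x| ≤ C := by
      intro i x
      have h1 : pd i (pds l (mol ε g)) x = ∫ y, pds (i :: l) (ker ε) (x - y) * g y :=
        md (i :: l) x
      have h2 := m2_move hs hc hg i x
      have h3 : pd i (pds l (mol ε g)) x = ∫ y, pds l (ker ε) (x - y) * pd i g y := h1.trans h2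
      rw [h3, ← Real.norm_eq_abs]
      have hkint' : Integrable (fun y => |pds l (ker ε) (x - y)| * L) volume :=
        (hkint.comp_sub_left x).mul_const _
      refine (norm_integral_le_of_norm_le hkint' (Filter.Eventually.of_forall fun y => ?_)).trans ?_
      · rw [norm_mul, Real.norm_eq_abs, Real.norm_eq_abs]
        exact mul_le_mul_of_nonneg_left (hbd i y) (abs_nonneg _)
      · rw [integral_mul_const, m2_int_sub (fun y => |pds l (ker ε) y|) x, hC, mul_comm]
    refine ⟨(2 * C).toNNReal, ?_⟩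
    refine lipschitzWith_of_nnnorm_fderiv_le (hF.differentiable (by simp)) fun x => ?_
    have h4 : ‖fderiv ℝ (pds l (mol ε g)) x‖ ≤ 2 * C := by
      have h5 := m2_clm (fderiv ℝ (pds l (mol ε g)) x)
      have h6 := hb 0 x
      have h7 := hb 1 x
      unfold pd at h6 h7
      linarith
    rw [← NNReal.coe_le_coe, coe_nnnorm, Real.coe_toNNReal _ (by positivity)]
    exact h4
  · intro x
    have hcont : Continuous (fun y => ker ε (x - y)) :=
      ks.continuous.comp (continuous_const.sub continuous_id)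
    have hsupp : HasCompactSupport (fun y => ker ε (x - y)) :=
      kc.comp_homeomorph (Homeomorph.subLeft x)
    have hi1 : Integrable (fun y => ker ε (x - y) * g y) volume :=
      (hcont.mul hg.continuous).integrable_of_hasCompactSupport hsupp.mul_right
    have hi2 : Integrable (fun y => ker ε (x - y) * g x) volume :=
      (kint.comp_sub_left x).mul_const _
    have h1 : g x = ∫ y, ker ε (x - y) * g x := by
      rw [integral_mul_const, m2_int_sub (ker ε) x, k1, one_mul]
    have h2 : g x - mol ε g x = ∫ y, (ker ε (x - y) * g x - ker ε (x - y) * g y) := by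
      rw [integral_sub hi2 hi1, ← h1]
      rfl
    rw [h2, ← Real.norm_eq_abs]
    have hi3 : Integrable (fun y => ker ε (x - y) * (L * ε)) volume :=
      (kint.comp_sub_left x).mul_const _
    refine (norm_integral_le_of_norm_le hi3 (Filter.Eventually.of_forall fun y => ?_)).trans ?_
    · rw [← mul_sub, norm_mul, Real.norm_eq_abs, abs_of_nonneg (k0 _)]
      by_cases hxy : ε ≤ ‖x - y‖
      · rw [kout _ hxy, zero_mul, zero_mul]
      · push Not at hxy
        refine mul_le_mul_of_nonneg_left ?_ (k0 _)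
        have h3 := hg.dist_le_mul x y
        rw [Real.dist_eq, dist_eq_norm] at h3
        rw [Real.norm_eq_abs]
        refine h3.trans (mul_le_mul_of_nonneg_left hxy.le L.2)
    · rw [integral_mul_const, m2_int_sub (ker ε) x, k1, one_mul]

end Pool.Agent.SLG
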