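import Pool.Agent.SLG.P4
import Pool.Agent.SLG.A3
import Pool.Agent.SLG.M2

/-!
Lipschitz test functions in the weak formulation of a divergence free bounded field.
-/

namespace Pool.Agent.SLG

open MeasureTheory

/-- The mollification of a function vanishing outside `K` vanishes outside the `ε`-neighbourhood. -/
theorem d1_mol_zero {ε : ℝ} (hε : 0 < ε) {φ : E2 → ℝ} {x : E2}
    (hx : ∀ y, ‖x - y‖ < ε → φ y = 0) : mol ε φ x = 0 := by
  obtain ⟨-, -, -, -, -, kz, -⟩ := ker_facts hε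
  unfold mol
  have h : ∀ y, ker ε (x - y) * φ y = 0 := by
    intro y
    by_cases hy : ‖x - y‖ < ε
    · rw [hx y hy, mul_zero]
    · rw [kz (x - y) (not_lt.mp hy), zero_mul]
  simp [h]

theorem lip_test (g : Fin 2 → E2 → ℝ) (hm : ∀ j, Measurable (g j)) (B : ℝ)
    (hB : ∀ j x, |g j x| ≤ B) (O : Set E2) (hO : IsOpen O)
    (hdiv : ∀ ψ : E2 → ℝ, ContDiff ℝ ((⊤ : ℕ∞) : WithTop ℕ∞) ψ → HasCompactSupport ψ →
      tsupport ψ ⊆ O → ∫ x, (g 0 x * pd 0 ψ x + g 1 x * pd 1 ψ x) = 0)
    {φ : E2 → ℝ} {L : NNReal} (hφ : LipschitzWith L φ) (hc : HasCompactSupport φ)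
    (hs : tsupport φ ⊆ O) :
    ∫ x, (g 0 x * pd 0 φ x + g 1 x * pd 1 φ x) = 0 := by
  have hB0 : 0 ≤ B := (abs_nonneg _).trans (hB 0 0)
  obtain ⟨δ, hδ, hδs⟩ := hc.isCompact.exists_cthickening_subset_open hO hs
  set K : Set E2 := Metric.cthickening δ (tsupport φ) with hK
  have hKc : IsCompact K := IsCompact.cthickening hc
  set εk : ℕ → ℝ := fun k => δ / ((k : ℝ) + 1) with hεk
  have h0 : ∀ k, 0 < εk k := fun k => by
    show 0 < δ / ((k : ℝ) + 1)
    positivity
  have hle : ∀ k, εk k ≤ δ := fun k => by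
    show δ / ((k : ℝ) + 1) ≤ δ
    apply div_le_self hδ.le
    have : (0 : ℝ) ≤ k := Nat.cast_nonneg k
    linarith
  have ht : Filter.Tendsto εk Filter.atTop (nhds 0) := by
    have h1 := (tendsto_one_div_add_atTop_nhds_zero_nat (𝕜 := ℝ)).const_mul δ
    rw [mul_zero] at h1
    refine h1.congr fun k => ?_
    show δ * (1 / ((k : ℝ) + 1)) = δ / ((k : ℝ) + 1)
    ring
  obtain ⟨hφLB, hpdLB, hpdb⟩ := lb_of_lipschitz hφ
  -- zero outside `K`
  have hz : ∀ k x, x ∉ K → mol (εk k) φ x = 0 := by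
    intro k x hx
    apply d1_mol_zero (h0 k)
    intro y hy
    by_contra hne
    apply hx
    have hy' : y ∈ tsupport φ := subset_tsupport φ hne
    apply Metric.mem_cthickening_of_dist_le x y δ (tsupport φ) hy'
    rw [dist_eq_norm]
    exact hy.le.trans (hle k)
  have hKcl : IsClosed K := hKc.isClosed
  have hsupp : ∀ k, tsupport (mol (εk k) φ) ⊆ K := by
    intro k
    apply closure_minimal _ hKcl
    intro x hx
    by_contra hxK
    exact hx (hz k x hxK)
  have hcs : ∀ k, HasCompactSupport (mol (εk k) φ) := fun k =>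
    HasCompactSupport.intro hKc (hz k)
  have hzero : ∀ k, ∫ x, (g 0 x * pd 0 (mol (εk k) φ) x + g 1 x * pd 1 (mol (εk k) φ) x) = 0 :=
    fun k => hdiv _ (mol_deriv (h0 k) hφLB).1 (hcs k) ((hsupp k).trans hδs)
  have hpdm : ∀ k j x, pd j (mol (εk k) φ) x = mol (εk k) (pd j φ) x := fun k j x =>
    (mol_lip (h0 k) hφ).1 j x
  have htend : ∀ᵐ x, ∀ j, Filter.Tendsto (fun k => pd j (mol (εk k) φ) x) Filter.atTop
      (nhds (pd j φ x)) := by
    rw [ae_all_iff]
    intro j
    filter_upwards [p4_mol_tendsto (lb_facts.2.1 _ (hpdLB j)) h0 ht] with x hx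
    refine hx.congr fun k => ?_
    rw [hpdm]
  have hlim : Filter.Tendsto (fun k => ∫ x, (g 0 x * pd 0 (mol (εk k) φ) x
      + g 1 x * pd 1 (mol (εk k) φ) x)) Filter.atTop
      (nhds (∫ x, (g 0 x * pd 0 φ x + g 1 x * pd 1 φ x))) := by
    apply tendsto_integral_of_dominated_convergence (K.indicator fun _ => 2 * (B * L))
    · intro k
      apply Measurable.aestronglyMeasurable
      exact ((hm 0).mul (a2_pd_meas _ 0)).add ((hm 1).mul (a2_pd_meas _ 1))
    · rw [integrable_indicator_iff hKcl.measurableSet]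
      exact integrableOn_const hKc.measure_lt_top.ne
    · intro k
      filter_upwards with x
      by_cases hx : x ∈ K
      · rw [Set.indicator_of_mem hx, Real.norm_eq_abs]
        have hb : ∀ j, |g j x * pd j (mol (εk k) φ) x| ≤ B * L := by
          intro j
          rw [abs_mul, hpdm]
          exact mul_le_mul (hB j x) (p3_mol (h0 k) (hpdb j) x) (abs_nonneg _) hB0
        calc _ ≤ |g 0 x * pd 0 (mol (εk k) φ) x| + |g 1 x * pd 1 (mol (εk k) φ) x| :=
              abs_add_le _ _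
          _ ≤ B * L + B * L := add_le_add (hb 0) (hb 1)
          _ = 2 * (B * L) := by ring
      · rw [Set.indicator_of_notMem hx]
        have hx' : x ∉ tsupport (mol (εk k) φ) := fun h => hx (hsupp k h)
        rw [a2_pd_zero 0 hx', a2_pd_zero 1 hx']
        simp
    · filter_upwards [htend] with x hx
      exact ((hx 0).const_mul _).add ((hx 1).const_mul _)
  have h1 := tendsto_nhds_unique hlim (by simp only [hzero]; exact tendsto_const_nhds)
  exact h1

/-- Integration by parts against a curl free / divergence free pair with a squared cutoff. -/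
theorem field_ibp (F : Fin 2 → E2 → ℝ) (hm : ∀ j, Measurable (F j)) (B : ℝ)
    (hB : ∀ j x, |F j x| ≤ B) (O : Set E2)
    (hF : ∀ (φ : E2 → ℝ) (L : NNReal), LipschitzWith L φ → HasCompactSupport φ →
      tsupport φ ⊆ O → ∫ x, (pd 0 φ x * F 1 x - pd 1 φ x * F 0 x) = 0)
    {η p : E2 → ℝ} {L M : NNReal} (hη : LipschitzWith L η) (hc : HasCompactSupport η)
    (hs : tsupport η ⊆ O) (hp : LipschitzWith M p) :
    Integrable (fun x => η x ^ 2 * (pd 0 p x * F 1 x - pd 1 p x * F 0 x)) volume ∧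
    Integrable (fun x => 2 * η x * p x * (pd 0 η x * F 1 x - pd 1 η x * F 0 x)) volume ∧
    ∫ x, η x ^ 2 * (pd 0 p x * F 1 x - pd 1 p x * F 0 x) =
      -∫ x, 2 * η x * p x * (pd 0 η x * F 1 x - pd 1 η x * F 0 x) := by
  obtain ⟨Bη, hBη⟩ := hc.exists_bound_of_continuous hη.continuous
  obtain ⟨B0, hB0⟩ := hc.isCompact.exists_bound_of_continuousOn hp.continuous.continuousOn
  set B' := |B0| with hBdef
  have hBnn : 0 ≤ B' := abs_nonneg _
  set pt : E2 → ℝ := fun x => max (-B') (min B' (p x)) with hptdef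
  have hpt : LipschitzWith M pt := (hp.const_min B').const_max (-B')
  have hptB : ∀ x, |pt x| ≤ B' := by
    intro x
    rw [abs_le]
    refine ⟨le_max_left _ _, max_le (by linarith) (min_le_left _ _)⟩
  have hpte : ∀ x, x ∈ tsupport η → pt x = p x := by
    intro x hx
    have h1 : |p x| ≤ B' := (hB0 x hx).trans (le_abs_self B0)
    rw [abs_le] at h1
    show max (-B') (min B' (p x)) = p x
    rw [min_eq_right h1.2, max_eq_right h1.1]
  have hη0 : ∀ x, x ∉ tsupport η → η x = 0 := fun x hx => image_eq_zero_of_notMem_tsupport hx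
  have hηp : ∀ x, η x * pt x = η x * p x := by
    intro x
    by_cases hx : x ∈ tsupport η
    · rw [hpte x hx]
    · rw [hη0 x hx, zero_mul, zero_mul]
  obtain ⟨N1, h1⟩ := a3_mul hη hη hBη hBη
  have hb1 : ∀ x, |η x * η x| ≤ Bη * Bη := by
    intro x
    rw [abs_mul]
    exact mul_le_mul (hBη x) (hBη x) (abs_nonneg _) ((abs_nonneg _).trans (hBη x))
  obtain ⟨N2, h2⟩ := a3_mul h1 hpt hb1 hptB
  have hφe : (fun x => η x * η x * pt x) = fun x => η x * η x * p x := by
    funext x
    rw [mul_assoc, hηp, mul_assoc]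
  rw [hφe] at h2
  have hφc : HasCompactSupport (fun x => η x * η x * p x) := by
    refine hc.mono ?_
    intro x hx
    rw [Function.mem_support] at hx ⊢
    intro h0
    apply hx
    rw [h0, zero_mul, zero_mul]
  have hts : tsupport (fun x => η x * η x * p x) ⊆ tsupport η := by
    refine closure_mono ?_
    intro y hy
    rw [Function.mem_support] at hy ⊢
    intro h0
    apply hy
    rw [h0, zero_mul, zero_mul]
  have key := hF _ N2 h2 hφc (hts.trans hs)
  have hFBM : ∀ j, a3_BM (F j) := fun j => ⟨hm j, B, hB j⟩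
  have hηBM : a3_BM η := ⟨hη.continuous.measurable, Bη, hBη⟩
  have hptBM : a3_BM pt := ⟨hpt.continuous.measurable, B', hptB⟩
  have j0 : Integrable (fun x => η x ^ 2 * (pd 0 p x * F 1 x - pd 1 p x * F 0 x)) volume := by
    have h3 : (fun x => η x ^ 2 * (pd 0 p x * F 1 x - pd 1 p x * F 0 x)) =
        fun x => η x * η x * (pd 0 p x * F 1 x - pd 1 p x * F 0 x) := by
      funext x
      ring
    rw [h3]
    refine a3_BM_int (a3_BM_mul (a3_BM_mul hηBM hηBM) (a3_BM_sub (a3_BM_mul (a3_BM_pd hp 0) (hFBM 1))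
      (a3_BM_mul (a3_BM_pd hp 1) (hFBM 0)))) hc.isCompact fun x hx => ?_
    rw [hη0 x hx, zero_mul, zero_mul]
  have j1 : Integrable (fun x => 2 * η x * p x * (pd 0 η x * F 1 x - pd 1 η x * F 0 x)) volume := by
    have h3 : (fun x => 2 * η x * p x * (pd 0 η x * F 1 x - pd 1 η x * F 0 x)) =
        fun x => 2 * (η x * pt x) * (pd 0 η x * F 1 x - pd 1 η x * F 0 x) := by
      funext x
      rw [hηp]
      ring
    rw [h3]
    refine a3_BM_int (a3_BM_mul (a3_BM_mul (a3_BM_const 2) (a3_BM_mul hηBM hptBM)) (a3_BM_sub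
      (a3_BM_mul (a3_BM_pd hη 0) (hFBM 1)) (a3_BM_mul (a3_BM_pd hη 1) (hFBM 0)))) hc.isCompact
      fun x hx => ?_
    rw [hη0 x hx, zero_mul, mul_zero, zero_mul]
  refine ⟨j0, j1, ?_⟩
  have h5 : ∫ x, (pd 0 (fun x => η x * η x * p x) x * F 1 x
      - pd 1 (fun x => η x * η x * p x) x * F 0 x) =
      ∫ x, (η x ^ 2 * (pd 0 p x * F 1 x - pd 1 p x * F 0 x) +
        2 * η x * p x * (pd 0 η x * F 1 x - pd 1 η x * F 0 x)) := by
    refine integral_congr_ae ?_
    filter_upwards [hη.ae_differentiableAt (μ := volume),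
      hp.ae_differentiableAt (μ := volume)] with x hx1 hx2
    rw [a3_pd_prod hx1 hx2, a3_pd_prod hx1 hx2]
    ring
  rw [key, integral_add j0 j1] at h5
  linarith

end Pool.Agent.SLG
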