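import Pool.Agent.SLG.P3
import Pool.Agent.SLG.A1

/-!
ROW P4 (Lipschitz potential of a bounded weakly divergence free field on a disc).
Take `V, Vk, εk` from `pot_limit`.  Let `ψ` be smooth with compact support in `ball x0 (R/2)`.
`∫ pd 0 V ψ = -∫ V pd 0 ψ` (`ibp`, `V` Lipschitz, `ψ` Lipschitz with compact support)
`= -lim ∫ Vk pd 0 ψ` (uniform convergence on the ball, `pd 0 ψ` continuous with compact support
in it) `= lim ∫ pd 0 (Vk) ψ` (for each `k`, `Vk ψ` is differentiable with compact support and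
continuous derivative: `integral_mul_fderiv_eq_neg_fderiv_mul_of_integrable`, or apply `ibp` to a
Lipschitz extension of `Vk` from a smaller ball containing the support of `ψ`)
`= -lim ∫ (mol εk (g 1)) ψ = -∫ g 1 ψ`.  The last step: either
`∫ (mol ε g) ψ = ∫ g (mol ε ψ)` (Fubini and symmetry of `ker ε`) and `mol ε ψ → ψ` uniformly with
supports in a fixed compact set (`mol_lip` (c)), or a.e. convergence of mollifications of locally
integrable functions (`ContDiffBump.ae_convolution_tendsto_right_of_locallyIntegrable`).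
Then `IsOpen.ae_eq_zero_of_integral_contDiff_smul_eq_zero` (Mathlib,
Analysis/Distribution/AEEqOfIntegralContDiff) on the open ball, applied to the locally integrable
`pd 0 V + g 1`, gives `pd 0 V = -g 1` a.e. on the ball; similarly `pd 1 V = g 0` a.e.
-/

namespace Pool.Agent.SLG

open MeasureTheory

theorem p4_lb {g : E2 → ℝ} (hm : Measurable g) {B : ℝ} (hB : ∀ x, |g x| ≤ B) : LB g :=
  ⟨hm, fun _ => ⟨B, fun x _ => hB x⟩⟩

theorem p4_mol_bound {g : E2 → ℝ} {B : ℝ} (hB : ∀ x, |g x| ≤ B) {ε : ℝ}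
    (hε : 0 < ε) (x : E2) : |mol ε g x| ≤ B := by
  obtain ⟨hk1, hk2, hk3, hk4, hk5, hk6, hk7⟩ := ker_facts hε
  have hi : Integrable (fun y => ker ε (x - y)) volume := hk7.comp_sub_left x
  have hi1 : ∫ y, ker ε (x - y) = 1 := by
    rw [integral_sub_left_eq_self (fun y => ker ε y) volume x, hk4]
  have h1 : ‖∫ y, ker ε (x - y) * g y‖ ≤ ∫ y, ker ε (x - y) * B := by
    apply norm_integral_le_of_norm_le (hi.mul_const B)
    filter_upwards with y
    rw [norm_mul, Real.norm_of_nonneg (hk3 _), Real.norm_eq_abs]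
    exact mul_le_mul_of_nonneg_left (hB y) (hk3 _)
  rw [integral_mul_const, hi1, one_mul] at h1
  exact h1

theorem p4_mol_tendsto {g : E2 → ℝ} (hg : LocallyIntegrable g volume) {εk : ℕ → ℝ}
    (h0 : ∀ k, 0 < εk k) (ht : Filter.Tendsto εk Filter.atTop (nhds 0)) :
    ∀ᵐ x, Filter.Tendsto (fun k => mol (εk k) g x) Filter.atTop (nhds (g x)) := by
  let φ : ℕ → ContDiffBump (0 : E2) := fun k =>
    ContDiffBump.mk (c := (0 : E2)) (εk k / 2) (εk k) (half_pos (h0 k)) (half_lt_self (h0 k))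
  have h := ContDiffBump.ae_convolution_tendsto_right_of_locallyIntegrable (φ := φ)
    (l := Filter.atTop) (K := 2) (μ := volume) (g := g) ht
    (Filter.Eventually.of_forall fun k => by
      show εk k ≤ 2 * (εk k / 2)
      linarith) hg
  filter_upwards [h] with x hx
  refine hx.congr fun k => ?_
  rw [convolution_eq_swap]
  unfold mol ker
  rw [dif_pos (h0 k)]
  rfl

theorem p4_zero {ψ : E2 → ℝ} {x : E2} (hx : x ∉ tsupport ψ) (j : Fin 2) :
    (ψ =ᶠ[nhds x] fun _ => 0) ∧ (pd j ψ =ᶠ[nhds x] fun _ => 0) := by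
  have h1 : ψ =ᶠ[nhds x] fun _ => 0 := notMem_tsupport_iff_eventuallyEq.1 hx
  refine ⟨h1, ?_⟩
  have h2 := h1.fderiv (𝕜 := ℝ)
  filter_upwards [h2] with y hy
  unfold pd
  rw [hy]
  simp

theorem p4_cont {U : Set E2} (hU : IsOpen U) {v η : E2 → ℝ} {ψ : E2 → ℝ}
    (hv : ∀ x ∈ U, ContinuousAt v x) (hη : Continuous η) (hs : tsupport ψ ⊆ U)
    (h0 : ∀ x, x ∉ tsupport ψ → η =ᶠ[nhds x] fun _ => 0) : Continuous fun x => v x * η x := by
  rw [continuous_iff_continuousAt]
  intro x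
  by_cases hx : x ∈ tsupport ψ
  · exact (hv x (hs hx)).mul hη.continuousAt
  · have h1 : (fun x => v x * η x) =ᶠ[nhds x] fun _ => 0 := by
      filter_upwards [h0 x hx] with y hy
      rw [hy, mul_zero]
    exact (continuousAt_const (y := (0 : ℝ))).congr h1.symm

theorem p4_ibp {U : Set E2} (hU : IsOpen U) {v D : E2 → ℝ} (j : Fin 2)
    (hv : ∀ x ∈ U, DifferentiableAt ℝ v x ∧ pd j v x = D x) (hD : Continuous D) {ψ : E2 → ℝ}
    (hψ : ContDiff ℝ ((⊤ : ℕ∞) : WithTop ℕ∞) ψ) (hc : HasCompactSupport ψ)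
    (hs : tsupport ψ ⊆ U) :
    Integrable (fun x => v x * pd j ψ x) volume ∧
    ∫ x, v x * pd j ψ x = -∫ x, D x * ψ x := by
  have hψc : Continuous ψ := hψ.continuous
  have hdc : Continuous (pd j ψ) := by
    unfold pd
    exact (hψ.continuous_fderiv (by simp)).clm_apply continuous_const
  have hcd : HasCompactSupport (pd j ψ) := hc.fderiv_apply ℝ (ee j)
  have hvc : ∀ x ∈ U, ContinuousAt v x := fun x hx => (hv x hx).1.continuousAt
  have i1 : Integrable (fun x => v x * pd j ψ x) volume :=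
    (p4_cont hU hvc hdc hs fun x hx => (p4_zero hx j).2).integrable_of_hasCompactSupport
      (hcd.mul_left)
  have i2 : Integrable (fun x => v x * ψ x) volume :=
    (p4_cont hU hvc hψc hs fun x hx => (p4_zero hx j).1).integrable_of_hasCompactSupport
      (hc.mul_left)
  have i3 : Integrable (fun x => D x * ψ x) volume :=
    (hD.mul hψc).integrable_of_hasCompactSupport (hc.mul_left)
  have e : (fun x => fderiv ℝ v x (ee j) * ψ x) = fun x => D x * ψ x := by
    funext x
    by_cases hx : x ∈ tsupport ψ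
    · have := (hv x (hs hx)).2
      unfold pd at this
      rw [this]
    · rw [image_eq_zero_of_notMem_tsupport hx, mul_zero, mul_zero]
  refine ⟨i1, ?_⟩
  have h := integral_mul_fderiv_eq_neg_fderiv_mul_of_integrable (μ := (volume : Measure E2))
    (f := v) (g := ψ) (v := ee j) (by rw [e]; exact i3) i1 i2
    (fun x hx => (hv x (hs hx)).1) (fun x _ => (hψ.differentiable (by simp)) x)
  rw [e] at h
  exact h

/-- passage to the limit -/
theorem p4_lim {V : E2 → ℝ} {Vk : ℕ → E2 → ℝ} {εk : ℕ → ℝ} {L : NNReal} (hV : LipschitzWith L V)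
    (h0 : ∀ k, 0 < εk k) (ht : Filter.Tendsto εk Filter.atTop (nhds 0)) {x0 : E2} {R : ℝ}
    {g : E2 → ℝ} (hm : Measurable g) {B : ℝ} (hB : ∀ x, |g x| ≤ B) (σ : ℝ) (j : Fin 2)
    (hk : ∀ k, ∀ x ∈ Metric.ball x0 R, DifferentiableAt ℝ (Vk k) x ∧
      pd j (Vk k) x = σ * mol (εk k) g x)
    (hu : ∀ η : ℝ, 0 < η → ∃ k0, ∀ k ≥ k0, ∀ x ∈ Metric.ball x0 R, |Vk k x - V x| ≤ η)
    {ψ : E2 → ℝ} (hψ : ContDiff ℝ ((⊤ : ℕ∞) : WithTop ℕ∞) ψ) (hc : HasCompactSupport ψ)
    (hs : tsupport ψ ⊆ Metric.ball x0 R) :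
    ∫ x, pd j V x * ψ x = ∫ x, (σ * g x) * ψ x := by
  have hg : LB g := p4_lb hm hB
  obtain ⟨M, hM⟩ := ContDiff.lipschitzWith_of_hasCompactSupport (𝕂 := ℝ) hc hψ (by simp)
  have e1 := ibp hV hM hc j
  have hψc : Continuous ψ := hψ.continuous
  have hdc : Continuous (pd j ψ) := by
    unfold pd
    exact (hψ.continuous_fderiv (by simp)).clm_apply continuous_const
  have hcd : HasCompactSupport (pd j ψ) := hc.fderiv_apply ℝ (ee j)
  have iV : Integrable (fun x => V x * pd j ψ x) volume :=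
    (hV.continuous.mul hdc).integrable_of_hasCompactSupport (hcd.mul_left)
  have ipd : Integrable (fun x => pd j ψ x) volume := hdc.integrable_of_hasCompactSupport hcd
  have hmolc : ∀ k, Continuous (mol (εk k) g) := fun k => (mol_deriv (h0 k) hg).1.continuous
  have hib : ∀ k, Integrable (fun x => Vk k x * pd j ψ x) volume ∧
      ∫ x, Vk k x * pd j ψ x = -∫ x, (σ * mol (εk k) g x) * ψ x := fun k =>
    p4_ibp Metric.isOpen_ball j (hk k) (continuous_const.mul (hmolc k)) hψ hc hs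
  -- first limit
  have l1 : Filter.Tendsto (fun k => ∫ x, Vk k x * pd j ψ x) Filter.atTop
      (nhds (∫ x, V x * pd j ψ x)) := by
    rw [Metric.tendsto_atTop]
    intro η hη
    obtain ⟨P, hP⟩ : ∃ P, P = ∫ x, |pd j ψ x| := ⟨_, rfl⟩
    have hP0 : 0 ≤ P := by
      rw [hP]
      exact integral_nonneg fun x => abs_nonneg _
    obtain ⟨k0, hk0⟩ := hu (η / (P + 1)) (by positivity)
    refine ⟨k0, fun k hkk => ?_⟩
    rw [Real.dist_eq, ← integral_sub (hib k).1 iV]
    have h1 : ‖∫ x, (Vk k x * pd j ψ x - V x * pd j ψ x)‖ ≤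
        ∫ x, (η / (P + 1)) * |pd j ψ x| := by
      apply norm_integral_le_of_norm_le (ipd.abs.const_mul _)
      filter_upwards with x
      rw [← sub_mul, norm_mul, Real.norm_eq_abs, Real.norm_eq_abs]
      by_cases hx : x ∈ tsupport ψ
      · exact mul_le_mul_of_nonneg_right (hk0 k hkk x (hs hx)) (abs_nonneg _)
      · have : pd j ψ x = 0 := (p4_zero hx j).2.self_of_nhds
        rw [this, abs_zero, mul_zero, mul_zero]
    rw [integral_const_mul, ← hP] at h1
    calc |∫ x, (Vk k x * pd j ψ x - V x * pd j ψ x)| ≤ η / (P + 1) * P := h1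
      _ < η := by
        rw [div_mul_eq_mul_div, div_lt_iff₀ (by positivity)]
        nlinarith
  -- second limit
  have l2 : Filter.Tendsto (fun k => ∫ x, (σ * mol (εk k) g x) * ψ x) Filter.atTop
      (nhds (∫ x, (σ * g x) * ψ x)) := by
    have iψ : Integrable (fun x => (|σ| * B) * |ψ x|) volume :=
      ((hψc.integrable_of_hasCompactSupport hc).abs).const_mul _
    refine tendsto_integral_of_dominated_convergence (fun x => (|σ| * B) * |ψ x|) ?_ iψ ?_ ?_
    · intro k
      exact ((continuous_const.mul (hmolc k)).mul hψc).aestronglyMeasurable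
    · intro k
      filter_upwards with x
      rw [norm_mul, norm_mul, Real.norm_eq_abs, Real.norm_eq_abs, Real.norm_eq_abs]
      exact mul_le_mul_of_nonneg_right
        (mul_le_mul_of_nonneg_left (p4_mol_bound hB (h0 k) x) (abs_nonneg _)) (abs_nonneg _)
    · filter_upwards [p4_mol_tendsto (lb_facts.2.1 g hg) h0 ht] with x hx
      exact (hx.const_mul σ).mul_const _
  have l3 := l2.neg
  have e2 : (fun k => -∫ x, (σ * mol (εk k) g x) * ψ x) = fun k => ∫ x, Vk k x * pd j ψ x := by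
    funext k
    rw [(hib k).2]
  rw [e2] at l3
  have e3 := tendsto_nhds_unique l1 l3
  rw [e1, e3, neg_neg]

theorem p4_ae {V : E2 → ℝ} {L : NNReal} (hV : LipschitzWith L V) {x0 : E2} {R : ℝ}
    {g : E2 → ℝ} (hm : Measurable g) {B : ℝ} (hB : ∀ x, |g x| ≤ B) (σ : ℝ) (j : Fin 2)
    (h : ∀ ψ : E2 → ℝ, ContDiff ℝ ((⊤ : ℕ∞) : WithTop ℕ∞) ψ → HasCompactSupport ψ →
      tsupport ψ ⊆ Metric.ball x0 R → ∫ x, pd j V x * ψ x = ∫ x, (σ * g x) * ψ x) :
    ∀ᵐ x ∂(volume.restrict (Metric.ball x0 R)), pd j V x = σ * g x := by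
  have hg : LB g := p4_lb hm hB
  have hpd : LB (pd j V) := (lb_of_lipschitz hV).2.1 j
  have hσ : LB (fun x => σ * g x) := (lb_facts.2.2.1 (fun _ => σ) g (lb_facts.2.2.2 σ) hg).2.2
  have hf : LB (fun x => pd j V x - σ * g x) := (lb_facts.2.2.1 _ _ hpd hσ).2.1
  have hloc := lb_facts.2.1 _ hf
  rw [ae_restrict_iff' measurableSet_ball]
  have h1 := Metric.isOpen_ball.ae_eq_zero_of_integral_contDiff_smul_eq_zero
    (U := Metric.ball x0 R) (μ := (volume : Measure E2)) (f := fun x => pd j V x - σ * g x)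
    (hloc.locallyIntegrableOn _) (by
      intro ψ hψ hc hs
      have hψc : Continuous ψ := hψ.continuous
      have e := h ψ hψ hc hs
      have i1 : Integrable (fun x => pd j V x * ψ x) volume := by
        have := (lb_facts.2.1 _ hpd).integrable_smul_left_of_hasCompactSupport hψc hc
        refine this.congr (Filter.Eventually.of_forall fun x => ?_)
        show ψ x • pd j V x = _
        rw [smul_eq_mul, mul_comm]
      have i2 : Integrable (fun x => (σ * g x) * ψ x) volume := by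
        have := (lb_facts.2.1 _ hσ).integrable_smul_left_of_hasCompactSupport hψc hc
        refine this.congr (Filter.Eventually.of_forall fun x => ?_)
        show ψ x • (σ * g x) = _
        rw [smul_eq_mul, mul_comm]
      have e2 : ∫ x, ψ x • (pd j V x - σ * g x) = ∫ x, (pd j V x * ψ x - (σ * g x) * ψ x) := by
        refine integral_congr_ae (Filter.Eventually.of_forall fun x => ?_)
        show ψ x • (pd j V x - σ * g x) = pd j V x * ψ x - (σ * g x) * ψ x
        rw [smul_eq_mul]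
        ring
      rw [e2, integral_sub i1 i2, e, sub_self])
  filter_upwards [h1] with x hx hxb
  have := hx hxb
  linarith

theorem potential (g : Fin 2 → E2 → ℝ) (hm : ∀ j, Measurable (g j)) (B : ℝ)
    (hB : ∀ j x, |g j x| ≤ B) (x0 : E2) (R : ℝ) (hR : 0 < R)
    (hdiv : ∀ ψ : E2 → ℝ, ContDiff ℝ ((⊤ : ℕ∞) : WithTop ℕ∞) ψ → HasCompactSupport ψ →
      tsupport ψ ⊆ Metric.ball x0 R → ∫ x, (g 0 x * pd 0 ψ x + g 1 x * pd 1 ψ x) = 0) :
    ∃ V : E2 → ℝ, (∃ L : NNReal, LipschitzWith L V) ∧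
      ∀ᵐ x ∂(volume.restrict (Metric.ball x0 (R / 2))), pd 0 V x = -(g 1 x) ∧ pd 1 V x = g 0 x := by
  obtain ⟨V, Vk, εk, ⟨L, hL⟩, h0, ht, hk, hu⟩ := pot_limit g hm B hB x0 R hR hdiv
  refine ⟨V, ⟨L, hL⟩, ?_⟩
  have a0 := p4_ae hL (x0 := x0) (R := R / 2) (hm 1) (hB 1) (-1) 0 (by
    intro ψ hψ hc hs
    exact p4_lim hL h0 ht (hm 1) (hB 1) (-1) 0 (fun k x hx => ⟨(hk k x hx).1, by
      rw [(hk k x hx).2.1]; ring⟩) hu hψ hc hs)
  have a1 := p4_ae hL (x0 := x0) (R := R / 2) (hm 0) (hB 0) 1 1 (by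
    intro ψ hψ hc hs
    exact p4_lim hL h0 ht (hm 0) (hB 0) 1 1 (fun k x hx => ⟨(hk k x hx).1, by
      rw [(hk k x hx).2.2]; ring⟩) hu hψ hc hs)
  filter_upwards [a0, a1] with x h1 h2
  exact ⟨by rw [h1]; ring, by rw [h2]; ring⟩

end Pool.Agent.SLG
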