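import Pool.Agent.SLG.Defs

/-!
ROW U2 (the lifted map is `C¹`).
`f ∈ C²`, so `X ↦ Grd f X i j = fderiv ℝ f X (Pi.single i (Pi.single j 1))` is `C¹`
(`ContDiff.fderiv_right`, evaluation is continuous linear), `Zf f` is a polynomial expression in
the entries of `X`, of `Grd f X` and `f X`, hence `C¹`; use `contDiff_pi` twice and cases on the
index.
-/

namespace Pool.Agent.SLG

open MeasureTheory

theorem Wf_contDiff {n : ℕ} {f : Mat n → ℝ} (hf : ContDiff ℝ 2 f) : ContDiff ℝ 1 (Wf f) := by
  have hG : ∀ i j, ContDiff ℝ 1 (fun X => Grd f X i j) := by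
    intro i j
    have h1 : ContDiff ℝ 1 (fderiv ℝ f) := hf.fderiv_right (by norm_num)
    exact h1.clm_apply contDiff_const
  have hX : ∀ i j, ContDiff ℝ 1 (fun X : Mat n => X i j) := by
    intro i j
    exact contDiff_apply_apply ℝ ℝ i j
  have hZ : ∀ k j, ContDiff ℝ 1 (fun X => Zf f X k j) := by
    intro k j
    unfold Zf
    refine ContDiff.sub ?_ ?_
    · exact ContDiff.sum fun i _ => (hX i k).mul (hG i j)
    · split_ifs
      · exact hf.of_le (by norm_num)
      · exact contDiff_const
  rw [contDiff_pi]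
  rintro (i | i | k)
  · rw [contDiff_pi]
    intro j
    exact hX i j
  · rw [contDiff_pi]
    intro j
    fin_cases j
    · exact (hG i 1).neg
    · exact hG i 0
  · rw [contDiff_pi]
    intro j
    fin_cases j
    · exact (hZ k 1).neg
    · exact hZ k 0

end Pool.Agent.SLG
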