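import Pool.Agent.SLG.R1
import Pool.Agent.SLG.P4
import Pool.Agent.SLG.U2

/-!
ROW R2 (the lift `w` of a stationary map on a disc).
`u` is (globally) Lipschitz here.  `Jac u x i j = pd j (fun y => u y i) x` wherever `u` is
differentiable (a.e., `LipschitzWith.ae_differentiableAt`); measurability and boundedness of
`x ↦ Jac u x i j` (`measurable_fderiv_apply_const`, `norm_fderiv_le_of_lipschitz`).
`Grd f` and `Zf f` are continuous (`f ∈ C²`), so `x ↦ Grd f (Jac u x) i j` and
`x ↦ Zf f (Jac u x) k j` are measurable, and bounded because `Jac u x` stays in a compact set.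
`stat_rows` (tests supported in `ball x0 R ⊆ Ω`) gives the hypothesis of `potential` for
`g j = Grd f (Jac u ·) i j` and for `g j = Zf f (Jac u ·) k j`.  Put
`w (inl i) = fun x => u x i`, `w (inr (inl i)) =` potential of the `i`-th row of `Grd`,
`w (inr (inr k)) =` potential of the `k`-th row of `Zf`.  Then a.e. on `ball x0 (R/2)`:
`grad w x = Wf f (Jac u x)` (definition of `Wf`: first entry `-Grd f X i 1`, second `Grd f X i 0`)
and `uJac Sum.inl w x = Jac u x` a.e.
-/

namespace Pool.Agent.SLG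

open MeasureTheory

theorem r2_jac {n : ℕ} {u : E2 → Fin n → ℝ} {x : E2} (h : DifferentiableAt ℝ u x) (i : Fin n) (j : Fin 2) :
    pd j (fun y => u y i) x = Jac u x i j := by
  unfold pd Jac
  have h1 := (hasFDerivAt_pi'.1 h.hasFDerivAt) i
  rw [h1.fderiv]
  rfl

theorem r2_bound {n : ℕ} {u : E2 → Fin n → ℝ} {L : NNReal} (hu : LipschitzWith L u) (x : E2) :
    Jac u x ∈ Metric.closedBall (0 : Mat n) L := by
  rw [mem_closedBall_zero_iff, pi_norm_le_iff_of_nonneg L.coe_nonneg]
  intro i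
  rw [pi_norm_le_iff_of_nonneg L.coe_nonneg]
  intro j
  have h1 : ‖fderiv ℝ u x‖ ≤ L := norm_fderiv_le_of_lipschitz ℝ hu
  have h2 : ‖ee j‖ = 1 := by
    unfold ee
    rw [EuclideanSpace.norm_single, norm_one]
  calc ‖Jac u x i j‖ ≤ ‖fderiv ℝ u x (ee j)‖ := norm_le_pi_norm (fderiv ℝ u x (ee j)) i
    _ ≤ ‖fderiv ℝ u x‖ * ‖ee j‖ := ContinuousLinearMap.le_opNorm _ _
    _ ≤ L := by rw [h2, mul_one]; exact h1

theorem r2_meas {n : ℕ} (u : E2 → Fin n → ℝ) : Measurable (Jac u) := by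
  refine measurable_pi_lambda _ fun i => measurable_pi_lambda _ fun j => ?_
  have h1 : Measurable fun x => fderiv ℝ u x (ee j) := measurable_fderiv_apply_const ℝ u (ee j)
  exact (measurable_pi_apply i).comp h1

theorem r2_grd {n : ℕ} {f : Mat n → ℝ} (hf : ContDiff ℝ 2 f) (i : Fin n) (j : Fin 2) :
    Continuous fun X => Grd f X i j := by
  have h1 : Continuous (fderiv ℝ f) := hf.continuous_fderiv (by norm_num)
  exact h1.clm_apply continuous_const

theorem r2_zf {n : ℕ} {f : Mat n → ℝ} (hf : ContDiff ℝ 2 f) (k j : Fin 2) :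
    Continuous fun X => Zf f X k j := by
  unfold Zf
  refine Continuous.sub ?_ ?_
  · refine continuous_finsetSum _ fun i _ => ?_
    have h1 : Continuous fun X : Mat n => X i k := (continuous_apply k).comp (continuous_apply i)
    have h2 : Continuous fun X : Mat n => Grd f X i j := r2_grd hf i j
    exact h1.mul h2
  · by_cases h : k = j
    · simp only [h, if_true]
      exact hf.continuous
    · simp only [h, if_false]
      exact continuous_const

/-- the potential of a divergence free row -/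
theorem r2_pot {n : ℕ} {u : E2 → Fin n → ℝ} {L : NNReal} (hu : LipschitzWith L u) (x0 : E2) (R : ℝ) (hR : 0 < R)
    (G : Fin 2 → Mat n → ℝ) (hG : ∀ j, Continuous (G j))
    (hdiv : ∀ ψ : E2 → ℝ, ContDiff ℝ ((⊤ : ℕ∞) : WithTop ℕ∞) ψ → HasCompactSupport ψ →
      tsupport ψ ⊆ Metric.ball x0 R → ∫ x, (G 0 (Jac u x) * pd 0 ψ x + G 1 (Jac u x) * pd 1 ψ x) = 0) :
    ∃ V : E2 → ℝ, (∃ L : NNReal, LipschitzWith L V) ∧
      ∀ᵐ x ∂(volume.restrict (Metric.ball x0 (R / 2))), pd 0 V x = -(G 1 (Jac u x)) ∧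
        pd 1 V x = G 0 (Jac u x) := by
  have hK : IsCompact (Metric.closedBall (0 : Mat n) L) := isCompact_closedBall _ _
  have hb : ∀ j, ∃ B : ℝ, ∀ X ∈ Metric.closedBall (0 : Mat n) L, ‖G j X‖ ≤ B := fun j =>
    hK.exists_bound_of_continuousOn (hG j).continuousOn
  choose B hB using hb
  refine potential (fun j x => G j (Jac u x)) (fun j => (hG j).measurable.comp (r2_meas u)) (max (B 0) (B 1))
    ?_ x0 R hR hdiv
  intro j x
  have h1 := hB j _ (r2_bound hu x)
  rw [Real.norm_eq_abs] at h1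
  refine h1.trans ?_
  fin_cases j
  · exact le_max_left _ _
  · exact le_max_right _ _

theorem lift_exists {n : ℕ} {f : Mat n → ℝ} (hf : ContDiff ℝ 2 f) {Ω : Set E2}
    {u : E2 → Fin n → ℝ} {L : NNReal} (hu : LipschitzWith L u) (hΩ : IsOpen Ω)
    (hs : Stationary f Ω u) (x0 : E2) (R : ℝ) (hR : 0 < R) (hb : Metric.ball x0 R ⊆ Ω) :
    ∃ w : Idx n → E2 → ℝ, (∀ i, ∃ L' : NNReal, LipschitzWith L' (w i)) ∧
      (∀ i x, w (Sum.inl i) x = u x i) ∧
      ∀ᵐ x ∂(volume.restrict (Metric.ball x0 (R / 2))),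
        uJac Sum.inl w x = Jac u x ∧ grad w x = Wf f (Jac u x) := by
  have h1 : ∀ i : Fin n, ∃ V : E2 → ℝ, (∃ L : NNReal, LipschitzWith L V) ∧
      ∀ᵐ x ∂(volume.restrict (Metric.ball x0 (R / 2))), pd 0 V x = -(Grd f (Jac u x) i 1) ∧
        pd 1 V x = Grd f (Jac u x) i 0 := fun i =>
    r2_pot hu x0 R hR (fun j X => Grd f X i j) (fun j => r2_grd hf i j)
      fun ψ h1 h2 h3 => (stat_rows hΩ hs ψ h1 h2 (h3.trans hb)).1 i
  have h2 : ∀ k : Fin 2, ∃ V : E2 → ℝ, (∃ L : NNReal, LipschitzWith L V) ∧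
      ∀ᵐ x ∂(volume.restrict (Metric.ball x0 (R / 2))), pd 0 V x = -(Zf f (Jac u x) k 1) ∧
        pd 1 V x = Zf f (Jac u x) k 0 := fun k =>
    r2_pot hu x0 R hR (fun j X => Zf f X k j) (fun j => r2_zf hf k j)
      fun ψ h1 h2 h3 => (stat_rows hΩ hs ψ h1 h2 (h3.trans hb)).2 k
  choose V hV hV' using h1
  choose U hU hU' using h2
  refine ⟨Sum.elim (fun i x => u x i) (Sum.elim V U), ?_, fun i x => rfl, ?_⟩
  · rintro (i | i | k)
    · exact ⟨1 * L, (LipschitzWith.eval i).comp hu⟩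
    · exact hV i
    · exact hU k
  · have h3 : ∀ᵐ x ∂(volume.restrict (Metric.ball x0 (R / 2))), DifferentiableAt ℝ u x :=
      ae_restrict_of_ae hu.ae_differentiableAt
    filter_upwards [h3, ae_all_iff.2 hV', ae_all_iff.2 hU'] with x hx hVx hUx
    refine ⟨?_, ?_⟩
    · funext k m
      exact r2_jac hx k m
    · funext i j
      rcases i with i | i | k
      · exact r2_jac hx i j
      · fin_cases j
        · exact (hVx i).1
        · exact (hVx i).2
      · fin_cases j
        · exact (hUx k).1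
        · exact (hUx k).2

end Pool.Agent.SLG
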