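import Pool.Agent.SLG.D1
import Pool.Agent.SLG.R2

/-!
The rows of the lifted matrix of a stationary map are weakly curl free, also when tested with
Lipschitz functions.
-/

namespace Pool.Agent.SLG

open MeasureTheory

theorem d2_const {φ : E2 → ℝ} {L : NNReal} (hφ : LipschitzWith L φ) (hc : HasCompactSupport φ)
    (j : Fin 2) : ∫ x, pd j φ x = 0 := by
  have h1 := ibp (g := fun _ => (1 : ℝ)) (L := 0) (LipschitzWith.const 1) hφ hc j
  have h2 : ∀ x, pd j (fun _ : E2 => (1 : ℝ)) x = 0 := by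
    intro x
    unfold pd
    simp
  simp only [h2, zero_mul, integral_zero, one_mul] at h1
  linarith

theorem d2_int {φ h : E2 → ℝ} {L : NNReal} (hφ : LipschitzWith L φ) (hc : HasCompactSupport φ)
    (j : Fin 2) (hm : Measurable h) {B : ℝ} (hB : ∀ x, |h x| ≤ B) :
    Integrable (fun x => pd j φ x * h x) volume :=
  a3_BM_int (a3_BM_mul (a3_BM_pd hφ j) ⟨hm, B, hB⟩) hc.isCompact fun x hx => by
    rw [a2_pd_zero j hx, zero_mul]

/-- Subtracting constants from a weakly curl free field. -/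
theorem d2_sub (F : Fin 2 → E2 → ℝ) (hm : ∀ j, Measurable (F j)) (B : ℝ)
    (hB : ∀ j x, |F j x| ≤ B) {φ : E2 → ℝ} {L : NNReal} (hφ : LipschitzWith L φ)
    (hc : HasCompactSupport φ) (h : ∫ x, (pd 0 φ x * F 1 x - pd 1 φ x * F 0 x) = 0)
    (a : Fin 2 → ℝ) : ∫ x, (pd 0 φ x * (F 1 x - a 1) - pd 1 φ x * (F 0 x - a 0)) = 0 := by
  have i1 : Integrable (fun x => pd 0 φ x * F 1 x) volume := d2_int hφ hc 0 (hm 1) (hB 1)
  have i0 : Integrable (fun x => pd 1 φ x * F 0 x) volume := d2_int hφ hc 1 (hm 0) (hB 0)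
  have c1 : Integrable (fun x => a 1 * pd 0 φ x) volume := by
    have := d2_int hφ hc 0 (h := fun _ => a 1) measurable_const (B := |a 1|) (fun _ => le_rfl)
    simpa [mul_comm] using this
  have c0 : Integrable (fun x => a 0 * pd 1 φ x) volume := by
    have := d2_int hφ hc 1 (h := fun _ => a 0) measurable_const (B := |a 0|) (fun _ => le_rfl)
    simpa [mul_comm] using this
  have e : (fun x => pd 0 φ x * (F 1 x - a 1) - pd 1 φ x * (F 0 x - a 0)) =
      fun x => (pd 0 φ x * F 1 x - pd 1 φ x * F 0 x) - (a 1 * pd 0 φ x - a 0 * pd 1 φ x) := by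
    funext x
    ring
  have k1 : Integrable (fun x => pd 0 φ x * F 1 x - pd 1 φ x * F 0 x) volume := i1.sub i0
  have k0 : Integrable (fun x => a 1 * pd 0 φ x - a 0 * pd 1 φ x) volume := c1.sub c0
  rw [e, integral_sub k1 k0, h, integral_sub c1 c0, integral_const_mul,
    integral_const_mul, d2_const hφ hc, d2_const hφ hc]
  ring

theorem field_stat {n : ℕ} {f : Mat n → ℝ} (hf : ContDiff ℝ 2 f) {u : E2 → Fin n → ℝ}
    {L : NNReal} (hu : LipschitzWith L u) {Ω : Set E2} (hΩ : IsOpen Ω)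
    (hs : Stationary f Ω u) (A : Mat n) (q : Idx n) :
    (∀ j, Measurable (fun x => Wf f (Jac u x) q j - Wf f A q j)) ∧
    (∃ B : ℝ, ∀ j x, |Wf f (Jac u x) q j - Wf f A q j| ≤ B) ∧
    ∀ (φ : E2 → ℝ) (L' : NNReal), LipschitzWith L' φ → HasCompactSupport φ →
      tsupport φ ⊆ Ω → ∫ x, (pd 0 φ x * (Wf f (Jac u x) q 1 - Wf f A q 1)
        - pd 1 φ x * (Wf f (Jac u x) q 0 - Wf f A q 0)) = 0 := by
  have hWc : Continuous (Wf f) := (Wf_contDiff hf).continuous
  have hWcq : ∀ j, Continuous (fun X => Wf f X q j) := fun j =>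
    (continuous_apply j).comp ((continuous_apply q).comp hWc)
  have hK : IsCompact (Metric.closedBall (0 : Mat n) L) := isCompact_closedBall _ _
  have hb : ∀ (G : Mat n → ℝ), Continuous G → ∃ B : ℝ, ∀ x, |G (Jac u x)| ≤ B := by
    intro G hG
    obtain ⟨B, hB⟩ := hK.exists_bound_of_continuousOn hG.continuousOn
    exact ⟨B, fun x => hB _ (r2_bound hu x)⟩
  have hb2 : ∀ (G : Fin 2 → Mat n → ℝ), (∀ j, Continuous (G j)) →
      ∃ B : ℝ, ∀ j x, |G j (Jac u x)| ≤ B := by
    intro G hG
    choose B hB using fun j => hb (G j) (hG j)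
    refine ⟨max (B 0) (B 1), fun j x => (hB j x).trans ?_⟩
    fin_cases j
    · exact le_max_left _ _
    · exact le_max_right _ _
  obtain ⟨BW, hBW⟩ := hb2 (fun j X => Wf f X q j) hWcq
  have hmW : ∀ j, Measurable (fun x => Wf f (Jac u x) q j) := fun j =>
    (hWcq j).measurable.comp (r2_meas u)
  refine ⟨fun j => (hmW j).sub measurable_const,
    ?_, fun φ L' hφ hc hsub => ?_⟩
  · refine ⟨BW + max |Wf f A q 0| |Wf f A q 1|, fun j x => (abs_sub _ _).trans
      (add_le_add (hBW j x) ?_)⟩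
    fin_cases j
    · exact le_max_left _ _
    · exact le_max_right _ _
  · apply d2_sub (fun j x => Wf f (Jac u x) q j) hmW BW hBW hφ hc _ (fun j => Wf f A q j)
    rcases q with i | i | k
    · -- gradient row
      have hui : LipschitzWith (1 * L) (fun y => u y i) := (LipschitzWith.eval i).comp hu
      have h1 := symm_weak hφ hc hui
      have i1 : Integrable (fun x => pd 0 φ x * pd 1 (fun y => u y i) x) volume :=
        d2_int hφ hc 0 (a2_pd_meas _ 1) (a2_pd_le hui 1)
      have i0 : Integrable (fun x => pd 1 φ x * pd 0 (fun y => u y i) x) volume :=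
        d2_int hφ hc 1 (a2_pd_meas _ 0) (a2_pd_le hui 0)
      have h2 : ∫ x, (pd 0 φ x * pd 1 (fun y => u y i) x - pd 1 φ x * pd 0 (fun y => u y i) x)
          = 0 := by
        rw [integral_sub i1 i0, h1, sub_self]
      rw [← h2]
      apply integral_congr_ae
      filter_upwards [hu.ae_differentiableAt (μ := volume)] with x hx
      rw [r2_jac hx i 1, r2_jac hx i 0]
      rfl
    · obtain ⟨B, hB⟩ := hb2 (fun j X => Grd f X i j) (fun j => r2_grd hf i j)
      have h1 := lip_test (fun j x => Grd f (Jac u x) i j)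
        (fun j => (r2_grd hf i j).measurable.comp (r2_meas u)) B hB Ω hΩ
        (fun ψ h1 h2 h3 => (stat_rows hΩ hs ψ h1 h2 h3).1 i) hφ hc hsub
      rw [← h1]
      congr 1
      funext x
      simp only [Wf]
      norm_num
      ring
    · obtain ⟨B, hB⟩ := hb2 (fun j X => Zf f X k j) (fun j => r2_zf hf k j)
      have h1 := lip_test (fun j x => Zf f (Jac u x) k j)
        (fun j => (r2_zf hf k j).measurable.comp (r2_meas u)) B hB Ω hΩ
        (fun ψ h1 h2 h3 => (stat_rows hΩ hs ψ h1 h2 h3).2 k) hφ hc hsub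
      rw [← h1]
      congr 1
      funext x
      simp only [Wf]
      norm_num
      ring

end Pool.Agent.SLG
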