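import Pool.Agent.SLG.Defs

/-!
Definitions for the stability statement and the explicit classes of integrands.
-/

namespace Pool.Agent.SLG

open MeasureTheory

/-- `h` and its first two derivatives are at most `δ` on the ball of radius `R`. -/
def SmallC2 {n : ℕ} (R δ : ℝ) (h : Mat n → ℝ) : Prop :=
  ∀ X : Mat n, ‖X‖ ≤ R →
    |h X| ≤ δ ∧ ‖fderiv ℝ h X‖ ≤ δ ∧ ‖fderiv ℝ (fderiv ℝ h) X‖ ≤ δ

/-- Determinant of a `2 × 2` matrix. -/
def det2 (X : Mat 2) : ℝ := X 0 0 * X 1 1 - X 0 1 * X 1 0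

/-- Cofactor matrix. -/
def cof2 (X : Mat 2) : Mat 2 := fun i j =>
  if i = 0 then (if j = 0 then X 1 1 else -X 1 0) else (if j = 0 then -X 0 1 else X 0 0)

/-- Frobenius inner product. -/
def ip {n : ℕ} (X Y : Mat n) : ℝ := ∑ i, ∑ j, X i j * Y i j

/-- The integrand `γ/2 |X|² + g (det X)`. -/
noncomputable def fNeo (γ : ℝ) (g : ℝ → ℝ) (X : Mat 2) : ℝ := γ / 2 * sq X + g (det2 X)

/-- Matrices of distortion at most two and determinant between `κ` and `4 κ`. -/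
def KNeo (κ : ℝ) : Set (Mat 2) := {X | sq X ≤ 5 / 2 * det2 X ∧ κ ≤ det2 X ∧ det2 X ≤ 4 * κ}

/-- The integrand `γ/2 |X|² + G (X, det X)`. -/
noncomputable def fInv (γ : ℝ) (G : Mat 2 × ℝ → ℝ) (X : Mat 2) : ℝ :=
  γ / 2 * sq X + G (X, det2 X)

end Pool.Agent.SLG
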