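import Pool.Agent.SLG.D2
import Pool.Agent.SLG.Defs2

/-!
The Caccioppoli inequality from a pointwise inequality.
-/

namespace Pool.Agent.SLG

open MeasureTheory

/-- the cutoff function -/
theorem d3_cut (x0 : E2) {r R : ℝ} (hR : r < R) : ∃ η : E2 → ℝ, ∃ L : NNReal,
    (L : ℝ) = 2 / (R - r) ∧
    LipschitzWith L η ∧ (∀ x, 0 ≤ η x) ∧ (∀ x, η x ≤ 1) ∧ (∀ x, x ∈ Metric.ball x0 r → η x = 1) ∧
    (∀ x, x ∉ Metric.ball x0 R → η x = 0) ∧ HasCompactSupport η ∧
    tsupport η ⊆ Metric.ball x0 R := by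
  have hd : 0 < R - r := by linarith
  set η : E2 → ℝ := fun x => max 0 (min 1 (((r + R) / 2 - dist x x0) * (2 / (R - r)))) with hη
  have h0 : ∀ x, (r + R) / 2 ≤ dist x x0 → η x = 0 := by
    intro x hx
    show max 0 (min 1 (((r + R) / 2 - dist x x0) * (2 / (R - r)))) = 0
    refine max_eq_left ((min_le_right _ _).trans ?_)
    exact mul_nonpos_of_nonpos_of_nonneg (by linarith) (by positivity)
  have hts : tsupport η ⊆ Metric.closedBall x0 ((r + R) / 2) := by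
    refine closure_minimal (fun y hy => ?_) Metric.isClosed_closedBall
    rw [Metric.mem_closedBall]
    by_contra hcon
    exact hy (h0 y (not_le.1 hcon).le)
  refine ⟨η, Real.toNNReal (2 / (R - r)), Real.coe_toNNReal _ (by positivity), ?_,
    fun x => le_max_left _ _, fun x => max_le zero_le_one (min_le_left _ _), ?_, ?_, ?_, ?_⟩
  · have h1 : LipschitzWith (Real.toNNReal (2 / (R - r)))
        fun x : E2 => ((r + R) / 2 - dist x x0) * (2 / (R - r)) := by
      refine LipschitzWith.of_dist_le_mul fun x y => ?_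
      rw [Real.coe_toNNReal _ (by positivity), Real.dist_eq]
      have h2 : ((r + R) / 2 - dist x x0) * (2 / (R - r))
          - ((r + R) / 2 - dist y x0) * (2 / (R - r)) =
          -(dist x x0 - dist y x0) * (2 / (R - r)) := by ring
      rw [h2, abs_mul, abs_neg, abs_of_nonneg (show 0 ≤ 2 / (R - r) by positivity), mul_comm]
      exact mul_le_mul_of_nonneg_left (abs_dist_sub_le x y x0) (by positivity)
    exact (h1.const_min 1).const_max 0
  · intro x hx
    rw [Metric.mem_ball] at hx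
    show max 0 (min 1 (((r + R) / 2 - dist x x0) * (2 / (R - r)))) = 1
    have h1 : 1 ≤ ((r + R) / 2 - dist x x0) * (2 / (R - r)) := by
      rw [← mul_div_assoc, le_div_iff₀ hd]
      linarith
    rw [min_eq_left h1, max_eq_right zero_le_one]
  · intro x hx
    rw [Metric.mem_ball, not_lt] at hx
    exact h0 x (by linarith)
  · exact HasCompactSupport.intro (isCompact_closedBall x0 ((r + R) / 2)) fun x hx => by
      rw [Metric.mem_closedBall, not_le] at hx
      exact h0 x hx.le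
  · exact hts.trans (Metric.closedBall_subset_ball (by linarith))

theorem d3_sq_nonneg {I : Type} [Fintype I] (M : I → Fin 2 → ℝ) : 0 ≤ sq M :=
  Finset.sum_nonneg fun _ _ => Finset.sum_nonneg fun _ _ => sq_nonneg _

/-- elementary bound for the first error term -/
theorem d3_alg1 (s η p a0 a1 F0 F1 Lη Lf d : ℝ) (hs : 0 < s) (hη : 0 ≤ η)
    (ha0 : |a0| ≤ Lη) (ha1 : |a1| ≤ Lη) (h0 : |F0| ≤ Lf * d) (h1 : |F1| ≤ Lf * d) :
    |2 * η * p * (a0 * F1 - a1 * F0)| ≤ s * (η ^ 2 * d ^ 2) + 4 * Lη ^ 2 * Lf ^ 2 / s * p ^ 2 := by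
  have hLη : 0 ≤ Lη := (abs_nonneg _).trans ha0
  have h2 : |a0 * F1 - a1 * F0| ≤ 2 * (Lη * (Lf * d)) := by
    calc |a0 * F1 - a1 * F0| ≤ |a0 * F1| + |a1 * F0| := abs_sub _ _
      _ = |a0| * |F1| + |a1| * |F0| := by rw [abs_mul, abs_mul]
      _ ≤ Lη * (Lf * d) + Lη * (Lf * d) := by gcongr
      _ = _ := by ring
  have h3 : |2 * η * p * (a0 * F1 - a1 * F0)| = 2 * η * |p| * |a0 * F1 - a1 * F0| := by
    rw [abs_mul, abs_mul, abs_mul, abs_two, abs_of_nonneg hη]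
  have h4 : 2 * η * |p| * |a0 * F1 - a1 * F0| ≤ 2 * (η * d) * (2 * Lη * Lf * |p|) := by
    calc 2 * η * |p| * |a0 * F1 - a1 * F0| ≤ 2 * η * |p| * (2 * (Lη * (Lf * d))) := by gcongr
      _ = _ := by ring
  have h5 : 2 * (η * d) * (2 * Lη * Lf * |p|) ≤
      s * (η * d) ^ 2 + (2 * Lη * Lf * |p|) ^ 2 / s := by
    have h6 : 0 ≤ (s * (η * d) - 2 * Lη * Lf * |p|) ^ 2 / s := by positivity
    have h7 : (s * (η * d) - 2 * Lη * Lf * |p|) ^ 2 / s =
        s * (η * d) ^ 2 + (2 * Lη * Lf * |p|) ^ 2 / s - 2 * (η * d) * (2 * Lη * Lf * |p|) := by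
      field_simp
      ring
    linarith
  have h8 : s * (η * d) ^ 2 + (2 * Lη * Lf * |p|) ^ 2 / s =
      s * (η ^ 2 * d ^ 2) + 4 * Lη ^ 2 * Lf ^ 2 / s * p ^ 2 := by
    have h9 : |p| ^ 2 = p ^ 2 := sq_abs p
    rw [← h9]
    ring
  linarith

/-- elementary bound for the second error term -/
theorem d3_alg2 (s η E0 E1 F0 F1 Lf d e : ℝ) (hs : 0 < s)
    (hE0 : |E0| ≤ e) (hE1 : |E1| ≤ e) (h0 : |F0| ≤ Lf * d) (h1 : |F1| ≤ Lf * d) :
    |η ^ 2 * (E0 * F1 - E1 * F0)| ≤ s * (η ^ 2 * d ^ 2) + Lf ^ 2 / s * (e ^ 2 * η ^ 2) := by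
  have he : 0 ≤ e := (abs_nonneg _).trans hE0
  have h2 : |E0 * F1 - E1 * F0| ≤ 2 * (e * (Lf * d)) := by
    calc |E0 * F1 - E1 * F0| ≤ |E0 * F1| + |E1 * F0| := abs_sub _ _
      _ = |E0| * |F1| + |E1| * |F0| := by rw [abs_mul, abs_mul]
      _ ≤ e * (Lf * d) + e * (Lf * d) := by gcongr
      _ = _ := by ring
  rw [abs_mul, abs_of_nonneg (sq_nonneg η)]
  have h5 : 2 * (e * (Lf * d)) ≤ s * d ^ 2 + Lf ^ 2 / s * e ^ 2 := by
    have h6 : 0 ≤ (s * d - Lf * e) ^ 2 / s := by positivity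
    have h7 : (s * d - Lf * e) ^ 2 / s = s * d ^ 2 + Lf ^ 2 / s * e ^ 2 - 2 * (e * (Lf * d)) := by
      field_simp
      ring
    linarith
  calc η ^ 2 * |E0 * F1 - E1 * F0| ≤ η ^ 2 * (s * d ^ 2 + Lf ^ 2 / s * e ^ 2) := by
        gcongr
        exact h2.trans h5
    _ = _ := by ring

theorem d3_entry {n : ℕ} (D : Mat n) (i : Fin n) (j : Fin 2) : |D i j| ≤ ‖D‖ := by
  have h1 : ‖D i j‖ ≤ ‖D i‖ := norm_le_pi_norm (D i) j
  have h2 : ‖D i‖ ≤ ‖D‖ := norm_le_pi_norm D i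
  rw [← Real.norm_eq_abs]
  exact h1.trans h2

theorem d3_norm_le {n : ℕ} (D : Mat n) : ‖D‖ ^ 2 ≤ sq D := by
  have hnn : ∀ i, 0 ≤ ∑ j, (D i j) ^ 2 := fun i => Finset.sum_nonneg fun j _ => sq_nonneg _
  have hsq : 0 ≤ sq D := d3_sq_nonneg D
  have h1 : ‖D‖ ≤ Real.sqrt (sq D) := by
    rw [pi_norm_le_iff_of_nonneg (Real.sqrt_nonneg _)]
    intro i
    rw [pi_norm_le_iff_of_nonneg (Real.sqrt_nonneg _)]
    intro j
    rw [Real.norm_eq_abs]
    apply Real.abs_le_sqrt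
    calc (D i j) ^ 2 ≤ ∑ j, (D i j) ^ 2 :=
          Finset.single_le_sum (f := fun j => (D i j) ^ 2) (fun j _ => sq_nonneg _)
            (Finset.mem_univ j)
      _ ≤ ∑ i, ∑ j, (D i j) ^ 2 :=
          Finset.single_le_sum (f := fun i => ∑ j, (D i j) ^ 2) (fun i _ => hnn i)
            (Finset.mem_univ i)
  calc ‖D‖ ^ 2 ≤ (Real.sqrt (sq D)) ^ 2 := by gcongr
    _ = sq D := Real.sq_sqrt hsq

/-- The pair terms with a cutoff. -/
theorem d3_pair {n : ℕ} (Lf s : ℝ) (hs : 0 < s) (x0 : E2) (R : ℝ) (D : E2 → Mat n)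
    (hDm : ∀ l j, a3_BM (fun x => D x l j)) (E : Mat n) (l : Fin n) {p η : E2 → ℝ} {Lη Lp : NNReal}
    (hη : LipschitzWith Lη η) (hη0 : ∀ x, 0 ≤ η x) (hc : HasCompactSupport η)
    (hts : tsupport η ⊆ Metric.ball x0 R) (hp : LipschitzWith Lp p)
    (hpd : ∀ᵐ x, ∀ j, pd j p x = D x l j - E l j)
    (F : Fin 2 → E2 → ℝ) (hF : ∀ j, a3_BM (F j))
    (hcurl : ∀ (φ : E2 → ℝ) (L : NNReal), LipschitzWith L φ → HasCompactSupport φ →
      tsupport φ ⊆ Metric.ball x0 R → ∫ x, (pd 0 φ x * F 1 x - pd 1 φ x * F 0 x) = 0)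
    (hFb : ∀ᵐ x ∂(volume.restrict (Metric.ball x0 R)), ∀ j, |F j x| ≤ Lf * ‖D x‖) :
    |∫ x, η x ^ 2 * (D x l 0 * F 1 x - D x l 1 * F 0 x)| ≤
      2 * s * (∫ x, η x ^ 2 * sq (D x)) + 4 * Lη ^ 2 * Lf ^ 2 / s *
        (∫ x in Metric.ball x0 R, p x ^ 2) + Lf ^ 2 / s * (sq E * ∫ x, η x ^ 2) := by
  obtain ⟨hF0, B0, hB0⟩ := hF 0
  obtain ⟨hF1, B1, hB1⟩ := hF 1
  have hFB : ∀ j x, |F j x| ≤ max B0 B1 := by
    intro j x
    fin_cases j
    · exact (hB0 x).trans (le_max_left _ _)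
    · exact (hB1 x).trans (le_max_right _ _)
  obtain ⟨k0, k1, k2⟩ := field_ibp F (fun j => (hF j).1) (max B0 B1) hFB (Metric.ball x0 R) hcurl
    hη hc hts hp
  obtain ⟨Bη, hBη⟩ := hc.exists_bound_of_continuous hη.continuous
  have hηBM : a3_BM η := ⟨hη.continuous.measurable, Bη, hBη⟩
  have hz : ∀ x, x ∉ tsupport η → η x = 0 := fun x hx => image_eq_zero_of_notMem_tsupport hx
  have hzb : ∀ x, x ∉ Metric.ball x0 R → η x = 0 := fun x hx => hz x fun h => hx (hts h)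
  have m0 : Integrable (fun x => η x ^ 2 * (E l 0 * F 1 x - E l 1 * F 0 x)) volume := by
    have h3 : (fun x => η x ^ 2 * (E l 0 * F 1 x - E l 1 * F 0 x)) =
        fun x => η x * η x * (E l 0 * F 1 x - E l 1 * F 0 x) := by
      funext x
      ring
    rw [h3]
    refine a3_BM_int (a3_BM_mul (a3_BM_mul hηBM hηBM) (a3_BM_sub (a3_BM_mul (a3_BM_const _) (hF 1))
      (a3_BM_mul (a3_BM_const _) (hF 0)))) hc.isCompact fun x hx => ?_
    rw [hz x hx, zero_mul, zero_mul]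
  have i2 : Integrable (fun x => η x ^ 2) volume := by
    have h3 : (fun x => η x ^ 2) = fun x => η x * η x := by
      funext x
      ring
    rw [h3]
    exact a3_BM_int (a3_BM_mul hηBM hηBM) hc.isCompact fun x hx => by rw [hz x hx, zero_mul]
  have iD : Integrable (fun x => η x ^ 2 * sq (D x)) volume := by
    have h3 : (fun x => η x ^ 2 * sq (D x)) =
        fun x => ∑ i, ∑ j, η x * η x * (D x i j * D x i j) := by
      funext x
      unfold sq
      rw [Finset.mul_sum]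
      refine Finset.sum_congr rfl fun i _ => ?_
      rw [Finset.mul_sum]
      exact Finset.sum_congr rfl fun j _ => by ring
    rw [h3]
    refine integrable_finsetSum _ fun i _ => integrable_finsetSum _ fun j _ => ?_
    refine a3_BM_int (a3_BM_mul (a3_BM_mul hηBM hηBM) (a3_BM_mul (hDm i j) (hDm i j)))
      hc.isCompact fun x hx => ?_
    rw [hz x hx, zero_mul, zero_mul]
  have ip2 : Integrable ((Metric.ball x0 R).indicator fun x => p x ^ 2) volume := by
    rw [integrable_indicator_iff measurableSet_ball]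
    have h1 : Continuous fun x => p x ^ 2 := hp.continuous.pow 2
    exact (h1.continuousOn.integrableOn_compact (isCompact_closedBall x0 R)).mono_set
      Metric.ball_subset_closedBall
  -- split
  have hsplit : ∫ x, η x ^ 2 * (D x l 0 * F 1 x - D x l 1 * F 0 x) =
      (-∫ x, 2 * η x * p x * (pd 0 η x * F 1 x - pd 1 η x * F 0 x)) +
        ∫ x, η x ^ 2 * (E l 0 * F 1 x - E l 1 * F 0 x) := by
    rw [← k2, ← integral_add k0 m0]
    apply integral_congr_ae
    filter_upwards [hpd] with x hx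
    rw [hx 0, hx 1]
    ring
  rw [ae_restrict_iff' measurableSet_ball] at hFb
  have b1 : |∫ x, 2 * η x * p x * (pd 0 η x * F 1 x - pd 1 η x * F 0 x)| ≤
      s * (∫ x, η x ^ 2 * sq (D x)) +
        4 * Lη ^ 2 * Lf ^ 2 / s * (∫ x in Metric.ball x0 R, p x ^ 2) := by
    refine abs_integral_le_integral_abs.trans ?_
    rw [← integral_indicator measurableSet_ball, ← integral_const_mul, ← integral_const_mul,
      ← integral_add (iD.const_mul s) (ip2.const_mul _)]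
    refine integral_mono_ae k1.abs ((iD.const_mul s).add (ip2.const_mul _)) ?_
    filter_upwards [hFb] with x hx
    show |2 * η x * p x * (pd 0 η x * F 1 x - pd 1 η x * F 0 x)| ≤
      s * (η x ^ 2 * sq (D x)) +
        4 * Lη ^ 2 * Lf ^ 2 / s * (Metric.ball x0 R).indicator (fun x => p x ^ 2) x
    by_cases hxB : x ∈ Metric.ball x0 R
    · rw [Set.indicator_of_mem hxB]
      have h := d3_alg1 s (η x) (p x) (pd 0 η x) (pd 1 η x) (F 0 x) (F 1 x) Lη Lf ‖D x‖ hs
        (hη0 x) (a2_pd_le hη 0 x) (a2_pd_le hη 1 x) (hx hxB 0) (hx hxB 1)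
      refine h.trans ?_
      have := d3_norm_le (D x)
      gcongr
    · rw [Set.indicator_of_notMem hxB, hzb x hxB]
      simp
  have b2 : |∫ x, η x ^ 2 * (E l 0 * F 1 x - E l 1 * F 0 x)| ≤
      s * (∫ x, η x ^ 2 * sq (D x)) + Lf ^ 2 / s * (sq E * ∫ x, η x ^ 2) := by
    refine abs_integral_le_integral_abs.trans ?_
    have e3 : Lf ^ 2 / s * (sq E * ∫ x, η x ^ 2) = ∫ x, Lf ^ 2 / s * (sq E * η x ^ 2) := by
      rw [integral_const_mul, integral_const_mul]
    rw [e3, ← integral_const_mul,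
      ← integral_add (iD.const_mul s) ((i2.const_mul (sq E)).const_mul _)]
    refine integral_mono_ae m0.abs
      ((iD.const_mul s).add ((i2.const_mul (sq E)).const_mul _)) ?_
    filter_upwards [hFb] with x hx
    show |η x ^ 2 * (E l 0 * F 1 x - E l 1 * F 0 x)| ≤
      s * (η x ^ 2 * sq (D x)) + Lf ^ 2 / s * (sq E * η x ^ 2)
    by_cases hxB : x ∈ Metric.ball x0 R
    · have h := d3_alg2 s (η x) (E l 0) (E l 1) (F 0 x) (F 1 x) Lf ‖D x‖ ‖E‖ hs
        (d3_entry E l 0) (d3_entry E l 1) (hx hxB 0) (hx hxB 1)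
      refine h.trans ?_
      have h1 := d3_norm_le (D x)
      have h2 := d3_norm_le E
      gcongr
    · rw [hzb x hxB]
      simp
  rw [hsplit]
  refine (abs_add_le _ _).trans ?_
  rw [abs_neg]
  linarith

end Pool.Agent.SLG
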