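import Pool.Agent.SLG.D3

/-!
The Caccioppoli inequality from a pointwise inequality: assembly.
-/

namespace Pool.Agent.SLG

open MeasureTheory

theorem d4_alg (η p a0 a1 E0 E1 Lη : ℝ) (ha0 : |a0| ≤ Lη) (ha1 : |a1| ≤ Lη) :
    2 * η * p * (a0 * E0 + a1 * E1) ≤ (1 / 2) * ((E0 ^ 2 + E1 ^ 2) * η ^ 2)
      + 4 * Lη ^ 2 * p ^ 2 := by
  have h0 : a0 ^ 2 ≤ Lη ^ 2 := by rw [← sq_abs]; gcongr
  have h1 : a1 ^ 2 ≤ Lη ^ 2 := by rw [← sq_abs]; gcongr
  have h2 : a0 ^ 2 * p ^ 2 ≤ Lη ^ 2 * p ^ 2 := by gcongr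
  have h3 : a1 ^ 2 * p ^ 2 ≤ Lη ^ 2 * p ^ 2 := by gcongr
  nlinarith [sq_nonneg (η * E0 - 2 * (a0 * p)), sq_nonneg (η * E1 - 2 * (a1 * p))]

theorem d4_E {n : ℕ} (x0 : E2) (R : ℝ) (D : E2 → Mat n)
    (E : Mat n) (p : Fin n → E2 → ℝ)
    (hp : ∀ l, ∃ L : NNReal, LipschitzWith L (p l)) {η : E2 → ℝ} {Lη : NNReal}
    (hη : LipschitzWith Lη η) (hc : HasCompactSupport η)
    (hts : tsupport η ⊆ Metric.ball x0 R)
    (hpd : ∀ᵐ x, ∀ l j, pd j (p l) x = D x l j - E l j)
    (hE : ∀ᵐ x ∂(volume.restrict (Metric.ball x0 R)), ip E (D x) ≤ 0) :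
    sq E * ∫ x, η x ^ 2 ≤ 8 * Lη ^ 2 * ∫ x in Metric.ball x0 R, ∑ l, p l x ^ 2 := by
  choose Lp hLp using hp
  obtain ⟨Bη, hBη⟩ := hc.exists_bound_of_continuous hη.continuous
  have hηBM : a3_BM η := ⟨hη.continuous.measurable, Bη, hBη⟩
  have hz : ∀ x, x ∉ tsupport η → η x = 0 := fun x hx => image_eq_zero_of_notMem_tsupport hx
  have hzb : ∀ x, x ∉ Metric.ball x0 R → η x = 0 := fun x hx => hz x fun h => hx (hts h)
  have i2 : Integrable (fun x => η x ^ 2) volume := by
    have h3 : (fun x => η x ^ 2) = fun x => η x * η x := by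
      funext x
      ring
    rw [h3]
    exact a3_BM_int (a3_BM_mul hηBM hηBM) hc.isCompact fun x hx => by rw [hz x hx, zero_mul]
  have ip2 : ∀ l, Integrable ((Metric.ball x0 R).indicator fun x => p l x ^ 2) volume := by
    intro l
    rw [integrable_indicator_iff measurableSet_ball]
    have h1 : Continuous fun x => p l x ^ 2 := (hLp l).continuous.pow 2
    exact (h1.continuousOn.integrableOn_compact (isCompact_closedBall x0 R)).mono_set
      Metric.ball_subset_closedBall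
  have key : ∀ l, Integrable (fun x => η x ^ 2 * (pd 0 (p l) x * E l 0 - pd 1 (p l) x *
        (-E l 1))) volume ∧
      Integrable (fun x => 2 * η x * p l x * (pd 0 η x * E l 0 - pd 1 η x * (-E l 1))) volume ∧
      ∫ x, η x ^ 2 * (pd 0 (p l) x * E l 0 - pd 1 (p l) x * (-E l 1)) =
      -∫ x, 2 * η x * p l x * (pd 0 η x * E l 0 - pd 1 η x * (-E l 1)) := by
    intro l
    have hb : ∀ (j : Fin 2) (x : E2),
        |(fun (j : Fin 2) (_ : E2) => if j = 0 then -E l 1 else E l 0) j x| ≤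
          max |E l 0| |E l 1| := by
      intro j x
      show |if j = 0 then -E l 1 else E l 0| ≤ _
      split_ifs
      · rw [abs_neg]; exact le_max_right _ _
      · exact le_max_left _ _
    have h := field_ibp (fun (j : Fin 2) (_ : E2) => if j = 0 then -E l 1 else E l 0)
      (fun j => measurable_const) _ hb (Metric.ball x0 R) (by
        intro φ L hφ hcφ _
        simp only [if_true, show ((1 : Fin 2) = 0) = False by simp, if_false]
        have hj : ∀ j, Integrable (pd j φ) volume := fun j =>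
          a2_integrable (a2_pd_meas φ j) (a2_pd_le hφ j) (K := tsupport φ) hcφ
            fun x hx => a2_pd_zero j hx
        rw [integral_sub ((hj 0).mul_const _) ((hj 1).mul_const _), integral_mul_const,
          integral_mul_const, d2_const hφ hcφ, d2_const hφ hcφ]
        ring) hη hc hts (hLp l)
    simpa using h
  have k0 := fun l => (key l).1
  have k1 := fun l => (key l).2.1
  have k2 := fun l => (key l).2.2
  rw [ae_restrict_iff' measurableSet_ball] at hE
  -- lower bound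
  have lower : sq E * ∫ x, η x ^ 2 ≤
      -∑ l, ∫ x, η x ^ 2 * (pd 0 (p l) x * E l 0 - pd 1 (p l) x * (-E l 1)) := by
    rw [← integral_finsetSum _ fun l _ => k0 l, ← integral_neg, ← integral_const_mul]
    refine integral_mono_ae (i2.const_mul _) (integrable_finsetSum _ fun l _ => k0 l).neg ?_
    filter_upwards [hE, hpd] with x hx1 hx2
    show sq E * η x ^ 2 ≤
      -∑ l, η x ^ 2 * (pd 0 (p l) x * E l 0 - pd 1 (p l) x * (-E l 1))
    by_cases hxB : x ∈ Metric.ball x0 R
    · have h1 := hx1 hxB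
      have h2 : ∑ l, η x ^ 2 * (pd 0 (p l) x * E l 0 - pd 1 (p l) x * (-E l 1)) =
          η x ^ 2 * (ip E (D x) - sq E) := by
        rw [← Finset.mul_sum]
        congr 1
        unfold ip sq
        rw [← Finset.sum_sub_distrib]
        refine Finset.sum_congr rfl fun l _ => ?_
        rw [hx2 l 0, hx2 l 1, Fin.sum_univ_two, Fin.sum_univ_two]
        ring
      rw [h2]
      nlinarith [sq_nonneg (η x)]
    · rw [hzb x hxB]
      simp
  have upper : ∀ l, (∫ x, 2 * η x * p l x * (pd 0 η x * E l 0 - pd 1 η x * (-E l 1))) ≤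
      (1 / 2) * ((E l 0 ^ 2 + E l 1 ^ 2) * ∫ x, η x ^ 2)
        + 4 * Lη ^ 2 * ∫ x in Metric.ball x0 R, p l x ^ 2 := by
    intro l
    have e3 : (1 / 2) * ((E l 0 ^ 2 + E l 1 ^ 2) * ∫ x, η x ^ 2) =
        ∫ x, (1 / 2) * ((E l 0 ^ 2 + E l 1 ^ 2) * η x ^ 2) := by
      rw [integral_const_mul, integral_const_mul]
    rw [e3, ← integral_indicator measurableSet_ball, ← integral_const_mul (4 * (Lη : ℝ) ^ 2),
      ← integral_add ((i2.const_mul _).const_mul _) ((ip2 l).const_mul _)]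
    refine integral_mono_ae (k1 l) (((i2.const_mul _).const_mul _).add ((ip2 l).const_mul _)) ?_
    filter_upwards with x
    show 2 * η x * p l x * (pd 0 η x * E l 0 - pd 1 η x * (-E l 1)) ≤
      (1 / 2) * ((E l 0 ^ 2 + E l 1 ^ 2) * η x ^ 2) +
        4 * (Lη : ℝ) ^ 2 * (Metric.ball x0 R).indicator (fun x => p l x ^ 2) x
    by_cases hxB : x ∈ Metric.ball x0 R
    · rw [Set.indicator_of_mem hxB]
      have h := d4_alg (η x) (p l x) (pd 0 η x) (pd 1 η x) (E l 0) (E l 1) Lη
        (a2_pd_le hη 0 x) (a2_pd_le hη 1 x)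
      linarith
    · rw [Set.indicator_of_notMem hxB, hzb x hxB]
      simp
  have hV : ∫ x in Metric.ball x0 R, ∑ l, p l x ^ 2 =
      ∑ l, ∫ x in Metric.ball x0 R, p l x ^ 2 :=
    integral_finsetSum _ fun l _ => (integrable_indicator_iff measurableSet_ball).mp (ip2 l)
  have hsqE : sq E = ∑ l, (E l 0 ^ 2 + E l 1 ^ 2) := by
    unfold sq
    exact Finset.sum_congr rfl fun l _ => Fin.sum_univ_two _
  have h1 : -∑ l, ∫ x, η x ^ 2 * (pd 0 (p l) x * E l 0 - pd 1 (p l) x * (-E l 1)) ≤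
      ∑ l, ((1 / 2) * ((E l 0 ^ 2 + E l 1 ^ 2) * ∫ x, η x ^ 2)
        + 4 * Lη ^ 2 * ∫ x in Metric.ball x0 R, p l x ^ 2) := by
    rw [← Finset.sum_neg_distrib]
    refine Finset.sum_le_sum fun l _ => ?_
    rw [k2 l, neg_neg]
    exact upper l
  have h2 : ∑ l, ((1 / 2) * ((E l 0 ^ 2 + E l 1 ^ 2) * ∫ x, η x ^ 2)
        + 4 * Lη ^ 2 * ∫ x in Metric.ball x0 R, p l x ^ 2) =
      (1 / 2) * (sq E * ∫ x, η x ^ 2)
        + 4 * Lη ^ 2 * ∫ x in Metric.ball x0 R, ∑ l, p l x ^ 2 := by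
    rw [hV, hsqE, Finset.sum_add_distrib, ← Finset.mul_sum, ← Finset.mul_sum, Finset.sum_mul]
  rw [h2] at h1
  linarith

theorem d4_core {n : ℕ} (c M Lf : ℝ) (hc : 0 < c) (hM : 0 ≤ M) :
    ∃ C0 : ℝ, 0 < C0 ∧ ∀ (D : E2 → Mat n) (p : Fin n → E2 → ℝ) (F : Idx n → Fin 2 → E2 → ℝ)
      (E : Mat n) (x0 : E2) (r R : ℝ) (C : Fin n → Idx n → ℝ), r < R →
      (∀ l, ∃ L : NNReal, LipschitzWith L (p l)) →
      (∀ l j, a3_BM (fun x => D x l j)) → (∀ q j, a3_BM (F q j)) →
      (∀ᵐ x, ∀ l j, pd j (p l) x = D x l j - E l j) →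
      (∀ q (φ : E2 → ℝ) (L : NNReal), LipschitzWith L φ → HasCompactSupport φ →
        tsupport φ ⊆ Metric.ball x0 R → ∫ x, (pd 0 φ x * F q 1 x - pd 1 φ x * F q 0 x) = 0) →
      (∀ l q, |C l q| ≤ M) →
      (∀ᵐ x ∂(volume.restrict (Metric.ball x0 R)), c * sq (D x) ≤
        ∑ l, ∑ q, C l q * (D x l 0 * F q 1 x - D x l 1 * F q 0 x)) →
      (∀ᵐ x ∂(volume.restrict (Metric.ball x0 R)), ∀ q j, |F q j x| ≤ Lf * ‖D x‖) →
      (∀ᵐ x ∂(volume.restrict (Metric.ball x0 R)), ip E (D x) ≤ 0) →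
      ∫ x in Metric.ball x0 r, sq (D x - E) ≤
        C0 / (R - r) ^ 2 * ∫ x in Metric.ball x0 R, ∑ l, p l x ^ 2 := by
  set N : ℝ := (Fintype.card (Fin n) : ℝ) * (Fintype.card (Idx n) : ℝ) with hN
  have hN0 : 0 ≤ N := by positivity
  have hMN : 0 ≤ M * N := mul_nonneg hM hN0
  set s : ℝ := c / (4 * (M * N + 1)) with hs
  have hs0 : 0 < s := by positivity
  have hsle : M * N * (2 * s) ≤ c / 2 := by
    rw [hs]
    have h1 : 0 < 4 * (M * N + 1) := by positivity
    rw [show M * N * (2 * (c / (4 * (M * N + 1)))) = (2 * (M * N) * c) / (4 * (M * N + 1)) by ring,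
      div_le_div_iff₀ h1 (by norm_num)]
    nlinarith
  set T : ℝ := 2 / c * (M * N * (12 * Lf ^ 2 / s)) with hT
  have hT0 : 0 ≤ T := by positivity
  refine ⟨4 * (2 * T + 16) , by positivity, ?_⟩
  intro D p F E x0 r R C hrR hp hDm hFm hpd hcurl hC hineq hFb hE
  have hd : 0 < R - r := by linarith
  obtain ⟨η, Lη, hLη, hη, hη0, hη1, hηr, hηR, hcs, hts⟩ := d3_cut x0 hrR
  have hEE := d4_E x0 R D E p hp hη hcs hts hpd hE
  choose Lp hLp using hp
  obtain ⟨Bη, hBη⟩ := hcs.exists_bound_of_continuous hη.continuous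
  have hηBM : a3_BM η := ⟨hη.continuous.measurable, Bη, hBη⟩
  have hz : ∀ x, x ∉ tsupport η → η x = 0 := fun x hx => image_eq_zero_of_notMem_tsupport hx
  have i2 : Integrable (fun x => η x ^ 2) volume := by
    have h3 : (fun x => η x ^ 2) = fun x => η x * η x := by
      funext x
      ring
    rw [h3]
    exact a3_BM_int (a3_BM_mul hηBM hηBM) hcs.isCompact fun x hx => by rw [hz x hx, zero_mul]
  have iD : Integrable (fun x => η x ^ 2 * sq (D x)) volume := by
    have h3 : (fun x => η x ^ 2 * sq (D x)) =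
        fun x => ∑ i, ∑ j, η x * η x * (D x i j * D x i j) := by
      funext x
      unfold sq
      rw [Finset.mul_sum]
      refine Finset.sum_congr rfl fun i _ => ?_
      rw [Finset.mul_sum]
      exact Finset.sum_congr rfl fun j _ => by ring
    rw [h3]
    refine integrable_finsetSum _ fun i _ => integrable_finsetSum _ fun j _ => ?_
    refine a3_BM_int (a3_BM_mul (a3_BM_mul hηBM hηBM) (a3_BM_mul (hDm i j) (hDm i j)))
      hcs.isCompact fun x hx => ?_
    rw [hz x hx, zero_mul, zero_mul]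
  have im : ∀ l q, Integrable (fun x => η x ^ 2 * (D x l 0 * F q 1 x - D x l 1 * F q 0 x))
      volume := by
    intro l q
    have h3 : (fun x => η x ^ 2 * (D x l 0 * F q 1 x - D x l 1 * F q 0 x)) =
        fun x => η x * η x * (D x l 0 * F q 1 x - D x l 1 * F q 0 x) := by
      funext x
      ring
    rw [h3]
    refine a3_BM_int (a3_BM_mul (a3_BM_mul hηBM hηBM) (a3_BM_sub (a3_BM_mul (hDm l 0) (hFm q 1))
      (a3_BM_mul (hDm l 1) (hFm q 0)))) hcs.isCompact fun x hx => ?_
    rw [hz x hx, zero_mul, zero_mul]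
  set X : ℝ := ∫ x, η x ^ 2 * sq (D x) with hX
  set Y : ℝ := ∫ x, η x ^ 2 with hY
  set V : ℝ := ∫ x in Metric.ball x0 R, ∑ l, p l x ^ 2 with hV
  have hX0 : 0 ≤ X := integral_nonneg fun x => mul_nonneg (sq_nonneg _) (d3_sq_nonneg _)
  have hY0 : 0 ≤ Y := integral_nonneg fun x => sq_nonneg _
  have hV0 : 0 ≤ V := integral_nonneg fun x => Finset.sum_nonneg fun l _ => sq_nonneg _
  have hiV : ∀ l, IntegrableOn (fun x => p l x ^ 2) (Metric.ball x0 R) volume := by
    intro l
    have h1 : Continuous fun x => p l x ^ 2 := (hLp l).continuous.pow 2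
    exact (h1.continuousOn.integrableOn_compact (isCompact_closedBall x0 R)).mono_set
      Metric.ball_subset_closedBall
  have hVl : ∀ l, (∫ x in Metric.ball x0 R, p l x ^ 2) ≤ V := by
    intro l
    rw [hV, integral_finsetSum _ fun l _ => hiV l]
    exact Finset.single_le_sum (f := fun l => ∫ x in Metric.ball x0 R, p l x ^ 2)
      (fun l _ => integral_nonneg fun x => sq_nonneg _) (Finset.mem_univ l)
  -- the integrated inequality
  have h1 : c * X ≤ ∑ l, ∑ q, C l q *
      ∫ x, η x ^ 2 * (D x l 0 * F q 1 x - D x l 1 * F q 0 x) := by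
    have e1 : ∑ l, ∑ q, C l q * ∫ x, η x ^ 2 * (D x l 0 * F q 1 x - D x l 1 * F q 0 x) =
        ∫ x, ∑ l, ∑ q, C l q * (η x ^ 2 * (D x l 0 * F q 1 x - D x l 1 * F q 0 x)) := by
      rw [integral_finsetSum _ fun l _ => integrable_finsetSum _ fun q _ => (im l q).const_mul _]
      refine Finset.sum_congr rfl fun l _ => ?_
      rw [integral_finsetSum _ fun q _ => (im l q).const_mul _]
      exact Finset.sum_congr rfl fun q _ => (integral_const_mul _ _).symm
    rw [e1, hX, ← integral_const_mul]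
    refine integral_mono_ae (iD.const_mul c) (integrable_finsetSum _ fun l _ =>
      integrable_finsetSum _ fun q _ => (im l q).const_mul _) ?_
    rw [ae_restrict_iff' measurableSet_ball] at hineq
    filter_upwards [hineq] with x hx
    by_cases hxB : x ∈ Metric.ball x0 R
    · have h2 := mul_le_mul_of_nonneg_left (hx hxB) (sq_nonneg (η x))
      have e2 : η x ^ 2 * (∑ l, ∑ q, C l q * (D x l 0 * F q 1 x - D x l 1 * F q 0 x)) =
          ∑ l, ∑ q, C l q * (η x ^ 2 * (D x l 0 * F q 1 x - D x l 1 * F q 0 x)) := by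
        rw [Finset.mul_sum]
        refine Finset.sum_congr rfl fun l _ => ?_
        rw [Finset.mul_sum]
        exact Finset.sum_congr rfl fun q _ => by ring
      rw [e2] at h2
      refine le_trans (le_of_eq ?_) h2
      ring
    · have e2 : η x = 0 := hηR x hxB
      simp only [e2]
      simp
  have hpair : ∀ l q, |∫ x, η x ^ 2 * (D x l 0 * F q 1 x - D x l 1 * F q 0 x)| ≤
      2 * s * X + 4 * Lη ^ 2 * Lf ^ 2 / s * V + Lf ^ 2 / s * (sq E * Y) := by
    intro l q
    have h2 := d3_pair Lf s hs0 x0 R D hDm E l hη hη0 hcs hts (hLp l)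
      (by filter_upwards [hpd] with x hx; exact hx l) (F q) (hFm q) (hcurl q)
      (by filter_upwards [hFb] with x hx; exact hx q)
    refine h2.trans ?_
    have := hVl l
    gcongr
  have h3 : ∑ l, ∑ q, C l q * (∫ x, η x ^ 2 * (D x l 0 * F q 1 x - D x l 1 * F q 0 x)) ≤
      M * N * (2 * s * X + 4 * Lη ^ 2 * Lf ^ 2 / s * V + Lf ^ 2 / s * (sq E * Y)) := by
    calc ∑ l, ∑ q, C l q * (∫ x, η x ^ 2 * (D x l 0 * F q 1 x - D x l 1 * F q 0 x))
        ≤ ∑ _l : Fin n, ∑ _q : Idx n,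
          M * (2 * s * X + 4 * Lη ^ 2 * Lf ^ 2 / s * V + Lf ^ 2 / s * (sq E * Y)) := by
          refine Finset.sum_le_sum fun l _ => Finset.sum_le_sum fun q _ => ?_
          refine (le_abs_self _).trans ?_
          rw [abs_mul]
          exact mul_le_mul (hC l q) (hpair l q) (abs_nonneg _) hM
      _ = _ := by
          rw [Finset.sum_const, Finset.sum_const, Finset.card_univ, Finset.card_univ,
            nsmul_eq_mul, nsmul_eq_mul, hN]
          ring
  have hsY : sq E * Y ≤ 8 * Lη ^ 2 * V := hEE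
  have hX1 : X ≤ T * (Lη ^ 2 * V) := by
    have h4 : c * X ≤ c / 2 * X + M * N * (12 * Lf ^ 2 / s) * (Lη ^ 2 * V) := by
      have h5 : M * N * (2 * s * X) ≤ c / 2 * X := by
        calc M * N * (2 * s * X) = M * N * (2 * s) * X := by ring
          _ ≤ c / 2 * X := by gcongr
      have h6 : M * N * (Lf ^ 2 / s * (sq E * Y)) ≤ M * N * (Lf ^ 2 / s * (8 * Lη ^ 2 * V)) := by
        gcongr
      have h7 : M * N * (2 * s * X + 4 * Lη ^ 2 * Lf ^ 2 / s * V + Lf ^ 2 / s * (sq E * Y)) =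
          M * N * (2 * s * X) + M * N * (4 * Lη ^ 2 * Lf ^ 2 / s * V)
            + M * N * (Lf ^ 2 / s * (sq E * Y)) := by ring
      have h8 : M * N * (12 * Lf ^ 2 / s) * (Lη ^ 2 * V) =
          M * N * (4 * Lη ^ 2 * Lf ^ 2 / s * V) + M * N * (Lf ^ 2 / s * (8 * Lη ^ 2 * V)) := by
        ring
      rw [h8]
      linarith
    have h9 : X ≤ 2 / c * (M * N * (12 * Lf ^ 2 / s) * (Lη ^ 2 * V)) := by
      rw [div_mul_eq_mul_div, le_div_iff₀ hc]
      linarith
    calc X ≤ 2 / c * (M * N * (12 * Lf ^ 2 / s) * (Lη ^ 2 * V)) := h9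
      _ = T * (Lη ^ 2 * V) := by
          rw [hT]
          generalize (12 * Lf ^ 2 / s) = z
          ring
  -- conclusion
  have hfin : ∫ x in Metric.ball x0 r, sq (D x - E) ≤ 2 * X + 2 * (sq E * Y) := by
    have e1 : 2 * X + 2 * (sq E * Y) = ∫ x, (2 * (η x ^ 2 * sq (D x)) + 2 * (sq E * η x ^ 2)) := by
      rw [integral_add (iD.const_mul 2) ((i2.const_mul _).const_mul 2), integral_const_mul,
        integral_const_mul, integral_const_mul]
    rw [e1, ← integral_indicator measurableSet_ball]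
    refine integral_mono_of_nonneg (ae_of_all _ fun x => ?_)
      ((iD.const_mul 2).add ((i2.const_mul _).const_mul 2)) (ae_of_all _ fun x => ?_)
    · exact Set.indicator_nonneg (fun x _ => d3_sq_nonneg _) x
    · show (Metric.ball x0 r).indicator (fun y => sq (D y - E)) x ≤
        2 * (η x ^ 2 * sq (D x)) + 2 * (sq E * η x ^ 2)
      by_cases hx : x ∈ Metric.ball x0 r
      · rw [Set.indicator_of_mem hx, hηr x hx]
        have h5 : sq (D x - E) ≤ 2 * sq (D x) + 2 * sq E := by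
          unfold sq
          rw [Finset.mul_sum, Finset.mul_sum, ← Finset.sum_add_distrib]
          refine Finset.sum_le_sum fun i _ => ?_
          rw [Finset.mul_sum, Finset.mul_sum, ← Finset.sum_add_distrib]
          refine Finset.sum_le_sum fun j _ => ?_
          have : (D x - E) i j = D x i j - E i j := rfl
          rw [this]
          nlinarith [sq_nonneg (D x i j + E i j)]
        linarith
      · rw [Set.indicator_of_notMem hx]
        have := d3_sq_nonneg (D x)
        have := d3_sq_nonneg E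
        positivity
  have hLη2 : (Lη : ℝ) ^ 2 = 4 / (R - r) ^ 2 := by
    rw [hLη, div_pow]
    norm_num
  calc ∫ x in Metric.ball x0 r, sq (D x - E) ≤ 2 * X + 2 * (sq E * Y) := hfin
    _ ≤ 2 * (T * (Lη ^ 2 * V)) + 2 * (8 * Lη ^ 2 * V) := by gcongr
    _ = (2 * T + 16) * ((Lη : ℝ) ^ 2) * V := by ring
    _ = 4 * (2 * T + 16) / (R - r) ^ 2 * V := by
        rw [hLη2]
        generalize (R - r) ^ 2 = z
        ring

end Pool.Agent.SLG
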