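import Pool.Agent.SLG.D4

/-!
The Caccioppoli inequality for stationary maps, all affine competitors.
-/

namespace Pool.Agent.SLG

open MeasureTheory

/-- The two-point condition using only pairs of rows one of which is a row of `X`, with uniform
constants. -/
def TwoU {n : ℕ} (f : Mat n → ℝ) (K : Set (Mat n)) (c M : ℝ) : Prop :=
  ∀ A ∈ K, ∃ C : Idx n → Idx n → ℝ, (∀ p q, |C p q| ≤ M) ∧ (∀ r q, C (Sum.inr r) q = 0) ∧
    ∀ X ∈ K, c * sq (X - A) ≤ ∑ p, ∑ q, C p q * minor (Wf f X - Wf f A) p q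

theorem d5_sq_cont {n : ℕ} (A : Mat n) : Continuous (fun X : Mat n => sq (A - X)) := by
  unfold sq
  refine continuous_finsetSum _ fun i _ => continuous_finsetSum _ fun j _ => ?_
  have : Continuous fun X : Mat n => X i j := (continuous_apply j).comp (continuous_apply i)
  show Continuous fun X : Mat n => (A i j - X i j) ^ 2
  exact (continuous_const.sub this).pow 2

/-- Nearest point projection for the Euclidean inner product. -/
theorem d5_proj {n : ℕ} {K : Set (Mat n)} (hK : IsCompact K) (hc : Convex ℝ K)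
    (hne : K.Nonempty) (A : Mat n) :
    ∃ A' ∈ K, ∀ X ∈ K, ip (A - A') (X - A') ≤ 0 := by
  obtain ⟨A', hA', hmin⟩ := hK.exists_isMinOn hne (d5_sq_cont A).continuousOn
  refine ⟨A', hA', fun X hX => ?_⟩
  have key : ∀ t : ℝ, 0 < t → t ≤ 1 → 2 * ip (A - A') (X - A') ≤ t * sq (X - A') := by
    intro t ht ht1
    have hmem : (1 - t) • A' + t • X ∈ K := hc hA' hX (by linarith) ht.le (by ring)
    have h1 : sq (A - A') ≤ sq (A - ((1 - t) • A' + t • X)) := hmin hmem
    have h2 : sq (A - ((1 - t) • A' + t • X)) =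
        sq (A - A') - 2 * t * ip (A - A') (X - A') + t ^ 2 * sq (X - A') := by
      unfold sq ip
      rw [Finset.mul_sum, Finset.mul_sum, ← Finset.sum_sub_distrib, ← Finset.sum_add_distrib]
      refine Finset.sum_congr rfl fun i _ => ?_
      rw [Finset.mul_sum, Finset.mul_sum, ← Finset.sum_sub_distrib, ← Finset.sum_add_distrib]
      refine Finset.sum_congr rfl fun j _ => ?_
      simp only [Pi.sub_apply, Pi.add_apply, Pi.smul_apply, smul_eq_mul]
      ring
    rw [h2] at h1
    have h3 : t * (2 * ip (A - A') (X - A')) ≤ t * (t * sq (X - A')) := by nlinarith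
    exact le_of_mul_le_mul_left h3 ht
  by_contra hcon
  rw [not_le] at hcon
  have hS : 0 ≤ sq (X - A') := d3_sq_nonneg _
  set i := ip (A - A') (X - A') with hi
  have h1 := key (min 1 (i / (sq (X - A') + 1))) (lt_min one_pos (by positivity)) (min_le_left _ _)
  have h2 : min 1 (i / (sq (X - A') + 1)) * sq (X - A') ≤ i := by
    calc min 1 (i / (sq (X - A') + 1)) * sq (X - A') ≤ i / (sq (X - A') + 1) * sq (X - A') := by
          gcongr
          exact min_le_right _ _
      _ = i * (sq (X - A') / (sq (X - A') + 1)) := by ring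
      _ ≤ i * 1 := by
          gcongr
          rw [div_le_one (by positivity)]
          linarith
      _ = i := mul_one i
  linarith

theorem d5_lin (a : Fin 2 → ℝ) (b : ℝ) :
    (∃ L : NNReal, LipschitzWith L (fun x : E2 => b + ∑ j, a j * x j)) ∧
    ∀ x, HasFDerivAt (fun x : E2 => b + ∑ j, a j * x j)
      (∑ j, a j • (EuclideanSpace.proj j : E2 →L[ℝ] ℝ)) x := by
  have h : (fun x : E2 => b + ∑ j, a j * x j) =
      fun x => b + (∑ j, a j • (EuclideanSpace.proj j : E2 →L[ℝ] ℝ)) x := by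
    funext x
    simp
  constructor
  · rw [h]
    refine ⟨‖∑ j, a j • (EuclideanSpace.proj j : E2 →L[ℝ] ℝ)‖₊, ?_⟩
    refine LipschitzWith.of_dist_le_mul fun x y => ?_
    rw [dist_add_left]
    exact (ContinuousLinearMap.lipschitz _).dist_le_mul x y
  · intro x
    rw [h]
    exact (ContinuousLinearMap.hasFDerivAt _).const_add b

theorem d5_global {n : ℕ} (c M Lf : ℝ) (hc : 0 < c) (hM : 0 ≤ M) :
    ∃ C0 : ℝ, 0 < C0 ∧ ∀ (K : Set (Mat n)), IsCompact K → Convex ℝ K →
      ∀ f : Mat n → ℝ, ContDiff ℝ 2 f → TwoU f K c M →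
      (∀ A ∈ K, ∀ X ∈ K, ‖Wf f X - Wf f A‖ ≤ Lf * ‖X - A‖) →
      ∀ (Ω : Set E2) (u : E2 → Fin n → ℝ) (L : NNReal), IsOpen Ω → LipschitzWith L u →
      Stationary f Ω u → (∀ᵐ x ∂(volume.restrict Ω), Jac u x ∈ K) →
      ∀ (x0 : E2) (r R : ℝ), 0 < r → r < R → Metric.ball x0 R ⊆ Ω →
      ∀ (A : Mat n) (b : Fin n → ℝ),
      ∫ x in Metric.ball x0 r, sq (Jac u x - A) ≤
        C0 / (R - r) ^ 2 * ∫ x in Metric.ball x0 R,
          ∑ l, (u x l - b l - ∑ j, A l j * x j) ^ 2 := by
  obtain ⟨C0, hC0, hcore⟩ := d4_core (n := n) c M Lf hc hM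
  refine ⟨C0, hC0, ?_⟩
  intro K hK hcv f hf hT hL Ω u L hΩ hu hs hJ x0 r R hr hrR hsub A b
  have hJ2 : ∀ᵐ x ∂(volume.restrict (Metric.ball x0 R)), Jac u x ∈ K :=
    ae_restrict_of_ae_restrict_of_subset hsub hJ
  have hne : K.Nonempty := by
    by_contra hne
    rw [Set.not_nonempty_iff_eq_empty] at hne
    rw [hne] at hJ2
    have h0 : volume (Metric.ball x0 R) = 0 := by
      have h1 : ∀ᵐ x ∂(volume.restrict (Metric.ball x0 R)), False := by
        filter_upwards [hJ2] with x hx
        exact hx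
      rw [ae_iff] at h1
      simp only [not_false_eq_true, Set.ofPred_true, Measure.restrict_apply_univ] at h1
      exact h1
    have h2 : 0 < volume (Metric.ball x0 R) := Metric.measure_ball_pos _ _ (by linarith)
    exact h2.ne' h0
  obtain ⟨A', hA', hproj⟩ := d5_proj hK hcv hne A
  obtain ⟨C, hCM, hC0', hCX⟩ := hT A' hA'
  have hfs := fun q => field_stat hf hu hΩ hs A' q
  have hui : ∀ l, LipschitzWith (1 * L) (fun y => u y l) := fun l => (LipschitzWith.eval l).comp hu
  have h := hcore (fun x => Jac u x - A') (fun l x => u x l - (b l + ∑ j, A l j * x j))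
    (fun q j x => Wf f (Jac u x) q j - Wf f A' q j) (A - A') x0 r R
    (fun l q => C (Sum.inl l) q) hrR ?_ ?_ ?_ ?_ ?_ ?_ ?_ ?_ ?_
  · have e1 : ∀ x, Jac u x - A' - (A - A') = Jac u x - A := fun x => by abel
    simp only [e1] at h
    refine h.trans (le_of_eq ?_)
    congr 1
    refine integral_congr_ae (ae_of_all _ fun x => ?_)
    refine Finset.sum_congr rfl fun l _ => ?_
    ring
  · intro l
    obtain ⟨L2, hL2⟩ := (d5_lin (A l) (b l)).1
    exact ⟨1 * L + L2, (hui l).sub hL2⟩
  · intro l j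
    refine ⟨?_, L + |A' l j|, fun x => ?_⟩
    · have h1 : Measurable (fun x => Jac u x l j) :=
        (measurable_pi_apply j).comp ((measurable_pi_apply l).comp (r2_meas u))
      exact h1.sub measurable_const
    · show |Jac u x l j - A' l j| ≤ _
      refine (abs_sub _ _).trans (add_le_add ?_ le_rfl)
      have h1 := r2_bound hu x
      rw [mem_closedBall_zero_iff] at h1
      exact (d3_entry _ l j).trans h1
  · intro q j
    obtain ⟨h1, ⟨B, hB⟩, _⟩ := hfs q
    exact ⟨h1 j, B, hB j⟩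
  · filter_upwards [hu.ae_differentiableAt (μ := volume)] with x hx l j
    have h1 : HasFDerivAt (fun y => u y l) (fderiv ℝ (fun y => u y l) x) x := by
      have h2 := hasFDerivAt_pi'.1 hx.hasFDerivAt l
      exact h2.differentiableAt.hasFDerivAt
    have h2 := (d5_lin (A l) (b l)).2 x
    have h3 := (h1.sub h2).fderiv
    have h4 : pd j (fun x => u x l - (b l + ∑ j, A l j * x j)) x =
        (fderiv ℝ (fun y => u y l) x - ∑ j, A l j • (EuclideanSpace.proj j : E2 →L[ℝ] ℝ))
          (ee j) := by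
      unfold pd
      rw [← h3]
      rfl
    rw [h4]
    have h5 : fderiv ℝ (fun y => u y l) x (ee j) = Jac u x l j := r2_jac hx l j
    have h6 : (∑ j, A l j • (EuclideanSpace.proj j : E2 →L[ℝ] ℝ)) (ee j) = A l j := by
      fin_cases j <;> simp [ee]
    show fderiv ℝ (fun y => u y l) x (ee j)
      - (∑ j, A l j • (EuclideanSpace.proj j : E2 →L[ℝ] ℝ)) (ee j) = _
    rw [h5, h6]
    simp only [Pi.sub_apply]
    ring
  · intro q φ L' h1 h2 h3
    exact (hfs q).2.2 φ L' h1 h2 (h3.trans hsub)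
  · intro l q
    exact hCM _ _
  · filter_upwards [hJ2] with x hx
    refine (hCX _ hx).trans (le_of_eq ?_)
    rw [Fintype.sum_sum_type]
    have e1 : ∑ r, ∑ q, C (Sum.inr r) q * minor (Wf f (Jac u x) - Wf f A') (Sum.inr r) q = 0 :=
      Finset.sum_eq_zero fun r _ => Finset.sum_eq_zero fun q _ => by rw [hC0', zero_mul]
    rw [e1, add_zero]
    rfl
  · filter_upwards [hJ2] with x hx q j
    have h1 := hL A' hA' _ hx
    have h2 : |(Wf f (Jac u x) - Wf f A') q j| ≤ ‖Wf f (Jac u x) - Wf f A'‖ := by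
      rw [← Real.norm_eq_abs]
      exact (norm_le_pi_norm _ j).trans (norm_le_pi_norm (Wf f (Jac u x) - Wf f A') q)
    exact h2.trans h1
  · filter_upwards [hJ2] with x hx
    exact hproj _ hx

end Pool.Agent.SLG
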