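import Pool.Agent.SLG.Defs2
import Pool.Agent.SLG.U2

/-!
ROW G2 (the lifted map depends linearly on the integrand, and is small for small integrands).
`Wf_add`: `fderiv` is additive on `C¹` functions, so `Grd`, `Zf` and `Wf` are additive.
`Wf_small`: on the convex ball `closedBall 0 R` the entries of `Wf h` are, up to sign: `X i j`
(!! the first block of `Wf h X` is `X` itself, not small; this is why `Wf_add` has the correction
below), `Grd h X i j` and `Zf h X k j = ∑ i, X i k * Grd h X i j - [k = j] h X`.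
With `SmallC2 R δ h`: `|Grd h X i j| ≤ δ` and `X ↦ Grd h X i j` is `δ`-Lipschitz on the ball
(mean value inequality, derivative bounded by `‖fderiv (fderiv h)‖ * 1`); `h` is `δ`-Lipschitz
there (sup norm on matrices); so `Zf h` is Lipschitz with constant
`n (R δ + δ) + δ ≤ C' δ`, `C' := n (R + 1) + 1`.
Here the perturbation is `Wd h X := Wf h X` with the first block removed.
-/

namespace Pool.Agent.SLG

open MeasureTheory

/-- `Wf` without its first block. -/
noncomputable def Wd {n : ℕ} (h : Mat n → ℝ) (X : Mat n) : Idx n → Fin 2 → ℝ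
  | .inl _ => 0
  | .inr q => Wf h X (.inr q)

theorem g2_grd {n : ℕ} {f h : Mat n → ℝ} (hf : ContDiff ℝ 2 f) (hh : ContDiff ℝ 2 h)
    (X : Mat n) (i : Fin n) (j : Fin 2) :
    Grd (fun Y => f Y + h Y) X i j = Grd f X i j + Grd h X i j := by
  unfold Grd
  have h1 : fderiv ℝ (fun Y => f Y + h Y) X = fderiv ℝ f X + fderiv ℝ h X :=
    fderiv_fun_add (hf.differentiable (by norm_num) X) (hh.differentiable (by norm_num) X)
  rw [h1]
  rfl

theorem g2_zf {n : ℕ} {f h : Mat n → ℝ} (hf : ContDiff ℝ 2 f) (hh : ContDiff ℝ 2 h)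
    (X : Mat n) (k j : Fin 2) :
    Zf (fun Y => f Y + h Y) X k j = Zf f X k j + Zf h X k j := by
  unfold Zf
  simp only [g2_grd hf hh, mul_add, Finset.sum_add_distrib]
  split_ifs <;> ring

theorem Wf_add {n : ℕ} {f h : Mat n → ℝ} (hf : ContDiff ℝ 2 f) (hh : ContDiff ℝ 2 h)
    (X : Mat n) : Wf (fun Y => f Y + h Y) X = Wf f X + Wd h X := by
  funext p j
  rcases p with i | i | k
  · simp [Wf, Wd]
  · simp only [Wf, Wd, Pi.add_apply, g2_grd hf hh]
    split_ifs <;> ring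
  · simp only [Wf, Wd, Pi.add_apply, g2_zf hf hh]
    split_ifs <;> ring

theorem g2_single {n : ℕ} (k : Fin n) (m : Fin 2) :
    ‖(Pi.single k (Pi.single m (1:ℝ)) : Mat n)‖ ≤ 1 := by
  classical
  rw [pi_norm_le_iff_of_nonneg (by norm_num)]
  intro i
  rw [pi_norm_le_iff_of_nonneg (by norm_num)]
  intro j
  by_cases h : i = k
  · subst h
    by_cases h2 : j = m
    · subst h2; simp
    · simp [h2]
  · simp [h]

theorem g2_grd_bound {n : ℕ} {R δ : ℝ} {h : Mat n → ℝ} (hs : SmallC2 R δ h)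
    (X : Mat n) (hX : ‖X‖ ≤ R) (hδ : 0 ≤ δ) (i : Fin n) (j : Fin 2) : |Grd h X i j| ≤ δ := by
  unfold Grd
  rw [← Real.norm_eq_abs]
  calc ‖fderiv ℝ h X (Pi.single i (Pi.single j 1))‖
      ≤ ‖fderiv ℝ h X‖ * ‖(Pi.single i (Pi.single j (1:ℝ)) : Mat n)‖ :=
        ContinuousLinearMap.le_opNorm _ _
    _ ≤ δ * 1 := by
        gcongr
        · exact (hs X hX).2.1
        · exact g2_single i j
    _ = δ := mul_one δ

theorem g2_grd_lip {n : ℕ} {R δ : ℝ} {h : Mat n → ℝ} (hh : ContDiff ℝ 2 h) (hs : SmallC2 R δ h)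
    (hδ : 0 ≤ δ) (A X : Mat n) (hA : ‖A‖ ≤ R) (hX : ‖X‖ ≤ R) (i : Fin n) (j : Fin 2) :
    |Grd h X i j - Grd h A i j| ≤ δ * ‖X - A‖ := by
  have h1 : ContDiff ℝ 1 (fderiv ℝ h) := hh.fderiv_right (by norm_num)
  have h2 : ‖fderiv ℝ h X - fderiv ℝ h A‖ ≤ δ * ‖X - A‖ := by
    apply (convex_closedBall (0 : Mat n) R).norm_image_sub_le_of_norm_fderiv_le (𝕜 := ℝ)
    · intro x _
      exact h1.differentiable (by norm_num) x
    · intro x hx
      exact (hs x (by simpa using hx)).2.2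
    · simpa using hA
    · simpa using hX
  unfold Grd
  rw [← Real.norm_eq_abs]
  calc ‖fderiv ℝ h X (Pi.single i (Pi.single j 1)) - fderiv ℝ h A (Pi.single i (Pi.single j 1))‖
      = ‖(fderiv ℝ h X - fderiv ℝ h A) (Pi.single i (Pi.single j 1))‖ := rfl
    _ ≤ ‖fderiv ℝ h X - fderiv ℝ h A‖ * ‖(Pi.single i (Pi.single j (1:ℝ)) : Mat n)‖ :=
        ContinuousLinearMap.le_opNorm _ _
    _ ≤ (δ * ‖X - A‖) * 1 := by
        gcongr
        exact g2_single i j
    _ = δ * ‖X - A‖ := mul_one _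

theorem g2_lip {n : ℕ} {R δ : ℝ} {h : Mat n → ℝ} (hh : ContDiff ℝ 2 h) (hs : SmallC2 R δ h)
    (A X : Mat n) (hA : ‖A‖ ≤ R) (hX : ‖X‖ ≤ R) : |h X - h A| ≤ δ * ‖X - A‖ := by
  rw [← Real.norm_eq_abs]
  apply (convex_closedBall (0 : Mat n) R).norm_image_sub_le_of_norm_fderiv_le (𝕜 := ℝ)
  · intro x _
    exact hh.differentiable (by norm_num) x
  · intro x hx
    exact (hs x (by simpa using hx)).2.1
  · simpa using hA
  · simpa using hX

theorem g2_entry {I : Type} [Fintype I] (D : I → Fin 2 → ℝ) (i : I) (j : Fin 2) :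
    |D i j| ≤ ‖D‖ := by
  have h1 : ‖D i j‖ ≤ ‖D i‖ := norm_le_pi_norm (D i) j
  have h2 : ‖D i‖ ≤ ‖D‖ := norm_le_pi_norm D i
  rw [← Real.norm_eq_abs]
  exact h1.trans h2

theorem g2_zf_lip {n : ℕ} {R δ : ℝ} {h : Mat n → ℝ} (hh : ContDiff ℝ 2 h) (hs : SmallC2 R δ h)
    (hR : 0 < R) (hδ : 0 ≤ δ) (A X : Mat n) (hA : ‖A‖ ≤ R) (hX : ‖X‖ ≤ R) (k j : Fin 2) :
    |Zf h X k j - Zf h A k j| ≤ (n * (R + 1) + 1) * δ * ‖X - A‖ := by
  have e1 : Zf h X k j - Zf h A k j =
      (∑ i, (X i k * (Grd h X i j - Grd h A i j) + (X i k - A i k) * Grd h A i j))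
        - (if k = j then h X - h A else 0) := by
    have e2 : ∀ i, X i k * (Grd h X i j - Grd h A i j) + (X i k - A i k) * Grd h A i j =
        X i k * Grd h X i j - A i k * Grd h A i j := fun i => by ring
    simp only [e2, Finset.sum_sub_distrib]
    unfold Zf
    split_ifs <;> ring
  rw [e1]
  have b1 : |∑ i, (X i k * (Grd h X i j - Grd h A i j) + (X i k - A i k) * Grd h A i j)| ≤
      n * ((R + 1) * δ * ‖X - A‖) := by
    calc |∑ i, (X i k * (Grd h X i j - Grd h A i j) + (X i k - A i k) * Grd h A i j)|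
        ≤ ∑ i, |X i k * (Grd h X i j - Grd h A i j) + (X i k - A i k) * Grd h A i j| :=
          Finset.abs_sum_le_sum_abs _ _
      _ ≤ ∑ _i : Fin n, (R + 1) * δ * ‖X - A‖ := by
          apply Finset.sum_le_sum
          intro i _
          have a1 : |X i k| ≤ R := (g2_entry X i k).trans hX
          have a2 : |X i k - A i k| ≤ ‖X - A‖ := g2_entry (X - A) i k
          have a3 := g2_grd_lip hh hs hδ A X hA hX i j
          have a4 := g2_grd_bound hs A hA hδ i j
          calc |X i k * (Grd h X i j - Grd h A i j) + (X i k - A i k) * Grd h A i j|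
              ≤ |X i k * (Grd h X i j - Grd h A i j)| + |(X i k - A i k) * Grd h A i j| :=
                abs_add_le _ _
            _ = |X i k| * |Grd h X i j - Grd h A i j| + |X i k - A i k| * |Grd h A i j| := by
                rw [abs_mul, abs_mul]
            _ ≤ R * (δ * ‖X - A‖) + ‖X - A‖ * δ := by gcongr
            _ = (R + 1) * δ * ‖X - A‖ := by ring
      _ = n * ((R + 1) * δ * ‖X - A‖) := by simp
  have b2 : |(if k = j then h X - h A else 0)| ≤ δ * ‖X - A‖ := by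
    split_ifs
    · exact g2_lip hh hs A X hA hX
    · rw [abs_zero]; positivity
  calc |(∑ i, (X i k * (Grd h X i j - Grd h A i j) + (X i k - A i k) * Grd h A i j))
        - (if k = j then h X - h A else 0)|
      ≤ |∑ i, (X i k * (Grd h X i j - Grd h A i j) + (X i k - A i k) * Grd h A i j)|
        + |(if k = j then h X - h A else 0)| := abs_sub _ _
    _ ≤ n * ((R + 1) * δ * ‖X - A‖) + δ * ‖X - A‖ := add_le_add b1 b2
    _ = (n * (R + 1) + 1) * δ * ‖X - A‖ := by ring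

theorem Wd_small {n : ℕ} (R : ℝ) (hR : 0 < R) :
    ∃ C' : ℝ, 0 < C' ∧ ∀ (δ : ℝ) (h : Mat n → ℝ), 0 ≤ δ → ContDiff ℝ 2 h → SmallC2 R δ h →
      ∀ A X : Mat n, ‖A‖ ≤ R → ‖X‖ ≤ R → ‖Wd h X - Wd h A‖ ≤ C' * δ * ‖X - A‖ := by
  refine ⟨n * (R + 1) + 1, by positivity, fun δ h hδ hh hs A X hA hX => ?_⟩
  have h0 : 0 ≤ (n * (R + 1) + 1) * δ * ‖X - A‖ := by positivity
  have hle : δ * ‖X - A‖ ≤ (n * (R + 1) + 1) * δ * ‖X - A‖ := by
    have : 0 ≤ n * (R + 1) * (δ * ‖X - A‖) := by positivity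
    linarith
  rw [pi_norm_le_iff_of_nonneg h0]
  intro p
  rw [pi_norm_le_iff_of_nonneg h0]
  intro j
  rw [Real.norm_eq_abs]
  rcases p with i | i | k
  · simpa [Wd] using h0
  · simp only [Wd, Wf, Pi.sub_apply]
    split_ifs
    · rw [show -Grd h X i 1 - -Grd h A i 1 = -(Grd h X i 1 - Grd h A i 1) by ring, abs_neg]
      exact (g2_grd_lip hh hs hδ A X hA hX i 1).trans hle
    · exact (g2_grd_lip hh hs hδ A X hA hX i 0).trans hle
  · simp only [Wd, Wf, Pi.sub_apply]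
    split_ifs
    · rw [show -Zf h X k 1 - -Zf h A k 1 = -(Zf h X k 1 - Zf h A k 1) by ring, abs_neg]
      exact g2_zf_lip hh hs hR hδ A X hA hX k 1
    · exact g2_zf_lip hh hs hR hδ A X hA hX k 0

end Pool.Agent.SLG
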