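import Pool.Agent.SLG.G1
import Pool.Agent.SLG.G2

/-!
ROW G3 (the two-point condition is stable under `C²` perturbations).
`c, r, M` from `two_uniform`; let `R` bound `K` and `r`-neighbourhoods: `‖X‖ ≤ R` whenever
`X ∈ K` or `‖X - A‖ < r`, `A ∈ K` (decrease `r` to at most one first; `R > 0`).
For `A ∈ K` and such `X`, put `P := Wf f X - Wf f A`, `Q := Wd h X - Wd h A`.  By `Wf_add`,
`Wf (f+h) X - Wf (f+h) A = P + Q`.  `‖P‖ ≤ L ‖X - A‖` (`W_lip` for `Wf f`, sup norm versus `sq`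
by `norm_sq_le`), `‖Q‖ ≤ C' δ ‖X - A‖`.  Elementary:
`|minor (P + Q) p q - minor P p q| ≤ 4 ‖P‖ ‖Q‖ + 2 ‖Q‖²`.  Summing over `p, q` (`N = 2n+2`
indices), `|C p q| ≤ M`:
`∑ C minor (P + Q) ≥ c sq (X - A) - N² M (4 L C' δ + 2 C'² δ²) ‖X - A‖² ≥ (c/2) sq (X - A)`
for `δ` small (`‖X - A‖² ≤ sq (X - A)`).
-/

namespace Pool.Agent.SLG

open MeasureTheory

theorem g3_minor {I : Type} [Fintype I] (P Q : I → Fin 2 → ℝ) (p q : I) :
    |minor (P + Q) p q - minor P p q| ≤ 4 * ‖P‖ * ‖Q‖ + 2 * ‖Q‖ ^ 2 := by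
  have e : minor (P + Q) p q - minor P p q =
      P p 0 * Q q 1 + Q p 0 * P q 1 - P p 1 * Q q 0 - Q p 1 * P q 0
        + Q p 0 * Q q 1 - Q p 1 * Q q 0 := by
    simp only [minor, Pi.add_apply]; ring
  rw [e]
  have hP := fun i j => o1_entry P i j
  have hQ := fun i j => o1_entry Q i j
  have m : ∀ a b A B : ℝ, |a| ≤ A → |b| ≤ B → |a * b| ≤ A * B := by
    intro a b A B h1 h2
    rw [abs_mul]
    exact mul_le_mul h1 h2 (abs_nonneg _) ((abs_nonneg _).trans h1)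
  have m1 := abs_le.mp (m _ _ _ _ (hP p 0) (hQ q 1))
  have m2 := abs_le.mp (m _ _ _ _ (hQ p 0) (hP q 1))
  have m3 := abs_le.mp (m _ _ _ _ (hP p 1) (hQ q 0))
  have m4 := abs_le.mp (m _ _ _ _ (hQ p 1) (hP q 0))
  have m5 := abs_le.mp (m _ _ _ _ (hQ p 0) (hQ q 1))
  have m6 := abs_le.mp (m _ _ _ _ (hQ p 1) (hQ q 0))
  rw [abs_le]
  constructor <;> nlinarith

theorem g3_sum {I : Type} [Fintype I] (C : I → I → ℝ) (M : ℝ) (hM : ∀ p q, |C p q| ≤ M)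
    (P Q : I → Fin 2 → ℝ) :
    |(∑ p, ∑ q, C p q * minor (P + Q) p q) - ∑ p, ∑ q, C p q * minor P p q| ≤
      (Fintype.card I) ^ 2 * M * (4 * ‖P‖ * ‖Q‖ + 2 * ‖Q‖ ^ 2) := by
  rw [← Finset.sum_sub_distrib]
  simp_rw [← Finset.sum_sub_distrib, ← mul_sub]
  have hE : 0 ≤ 4 * ‖P‖ * ‖Q‖ + 2 * ‖Q‖ ^ 2 := by positivity
  calc |∑ p, ∑ q, C p q * (minor (P + Q) p q - minor P p q)|
      ≤ ∑ p, |∑ q, C p q * (minor (P + Q) p q - minor P p q)| := Finset.abs_sum_le_sum_abs _ _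
    _ ≤ ∑ p, ∑ q, |C p q * (minor (P + Q) p q - minor P p q)| :=
        Finset.sum_le_sum fun p _ => Finset.abs_sum_le_sum_abs _ _
    _ ≤ ∑ _p : I, ∑ _q : I, M * (4 * ‖P‖ * ‖Q‖ + 2 * ‖Q‖ ^ 2) := by
        apply Finset.sum_le_sum; intro p _
        apply Finset.sum_le_sum; intro q _
        rw [abs_mul]
        exact mul_le_mul (hM p q) (g3_minor P Q p q) (abs_nonneg _)
          ((abs_nonneg _).trans (hM p q))
    _ = (Fintype.card I) ^ 2 * M * (4 * ‖P‖ * ‖Q‖ + 2 * ‖Q‖ ^ 2) := by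
        simp only [Finset.sum_const, Finset.card_univ, nsmul_eq_mul]
        ring

theorem two_stable {n : ℕ} {f : Mat n → ℝ} (hf : ContDiff ℝ 2 f) {K : Set (Mat n)}
    (hK : IsCompact K) (hT : TwoPoint f K) :
    ∃ R δ : ℝ, 0 < R ∧ 0 < δ ∧ ∀ h : Mat n → ℝ, ContDiff ℝ 2 h → SmallC2 R δ h →
      TwoPoint (fun X => f X + h X) K := by
  obtain ⟨c, r, M, hc, hr, hM, hu⟩ := two_uniform hf hK hT
  obtain ⟨R0, hR0⟩ := hK.isBounded.exists_norm_le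
  set R : ℝ := |R0| + r + 1 with hRdef
  have hRpos : 0 < R := by positivity
  obtain ⟨L, hL0, _, hL⟩ := o1_lipn (Wf_contDiff hf) R
  obtain ⟨C', hC', hsm⟩ := Wd_small (n := n) R hRpos
  set N : ℝ := (Fintype.card (Idx n) : ℝ) with hN
  have hN0 : 0 ≤ N := by positivity
  set κ : ℝ := N ^ 2 * M * (4 * L * C' + 2 * C' ^ 2) with hκ
  have hκ0 : 0 ≤ κ := by positivity
  set δ : ℝ := min 1 (c / (2 * (κ + 1))) with hδdef
  have hδ0 : 0 < δ := lt_min one_pos (by positivity)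
  have hδ1 : δ ≤ 1 := min_le_left _ _
  have hδκ : κ * δ ≤ c / 2 := by
    calc κ * δ ≤ κ * (c / (2 * (κ + 1))) := by gcongr; exact min_le_right _ _
      _ = (c / 2) * (κ / (κ + 1)) := by field_simp
      _ ≤ (c / 2) * 1 := by
          gcongr
          rw [div_le_one (by positivity)]
          linarith
      _ = c / 2 := mul_one _
  refine ⟨R, δ, hRpos, hδ0, fun h hh hs A hA => ?_⟩
  obtain ⟨C, hC, hX⟩ := hu A hA
  refine ⟨C, c / 2, by linarith, r, hr, fun X hXX => ?_⟩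
  have h1 := hX X hXX
  have hAR : ‖A‖ ≤ R := by
    have := hR0 A hA
    have := le_abs_self R0
    linarith
  have hXR : ‖X‖ ≤ R := by
    have ha := le_abs_self R0
    rcases hXX with hXX | hXX
    · have := hR0 X hXX
      linarith
    · have h2 : ‖X‖ ≤ ‖A‖ + ‖X - A‖ := by
        calc ‖X‖ = ‖A + (X - A)‖ := by congr 1; abel
          _ ≤ _ := norm_add_le _ _
      have := hR0 A hA
      linarith
  have e1 : Wf (fun X => f X + h X) X - Wf (fun X => f X + h X) A =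
      (Wf f X - Wf f A) + (Wd h X - Wd h A) := by
    rw [Wf_add hf hh, Wf_add hf hh]; abel
  rw [e1]
  have h2 := (abs_le.mp (g3_sum C M hC (Wf f X - Wf f A) (Wd h X - Wd h A))).1
  have h3 : 4 * ‖Wf f X - Wf f A‖ * ‖Wd h X - Wd h A‖ + 2 * ‖Wd h X - Wd h A‖ ^ 2 ≤
      (4 * L * C' + 2 * C' ^ 2) * δ * ‖X - A‖ ^ 2 := by
    have a1 := hL A X hAR hXR
    have a2 := hsm δ h hδ0.le hh hs A X hAR hXR
    calc 4 * ‖Wf f X - Wf f A‖ * ‖Wd h X - Wd h A‖ + 2 * ‖Wd h X - Wd h A‖ ^ 2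
        ≤ 4 * (L * ‖X - A‖) * (C' * δ * ‖X - A‖) + 2 * (C' * δ * ‖X - A‖) ^ 2 := by gcongr
      _ = (4 * L * C' + 2 * C' ^ 2 * δ) * δ * ‖X - A‖ ^ 2 := by ring
      _ ≤ (4 * L * C' + 2 * C' ^ 2 * 1) * δ * ‖X - A‖ ^ 2 := by gcongr
      _ = _ := by ring
  have h4 : N ^ 2 * M * (4 * ‖Wf f X - Wf f A‖ * ‖Wd h X - Wd h A‖
      + 2 * ‖Wd h X - Wd h A‖ ^ 2) ≤ (c / 2) * ‖X - A‖ ^ 2 := by
    calc N ^ 2 * M * (4 * ‖Wf f X - Wf f A‖ * ‖Wd h X - Wd h A‖ + 2 * ‖Wd h X - Wd h A‖ ^ 2)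
        ≤ N ^ 2 * M * ((4 * L * C' + 2 * C' ^ 2) * δ * ‖X - A‖ ^ 2) := by gcongr
      _ = κ * δ * ‖X - A‖ ^ 2 := by rw [hκ]; ring
      _ ≤ (c / 2) * ‖X - A‖ ^ 2 := by gcongr
  have h5 := (norm_sq_le (X - A)).1
  have h6 : (c / 2) * ‖X - A‖ ^ 2 ≤ (c / 2) * sq (X - A) := by gcongr
  linarith

end Pool.Agent.SLG
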