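import Pool.Agent.SLG.D5
import Pool.Agent.SLG.G3

/-!
The Caccioppoli inequality: maps Lipschitz on `Ω`, stability under small `C²` perturbations.
-/

namespace Pool.Agent.SLG

open MeasureTheory

theorem d6_jac_eq {n : ℕ} {Ω : Set E2} (hΩ : IsOpen Ω) {u v : E2 → Fin n → ℝ}
    (h : Set.EqOn u v Ω) {x : E2} (hx : x ∈ Ω) : Jac v x = Jac u x := by
  have h1 : u =ᶠ[nhds x] v := by
    filter_upwards [hΩ.mem_nhds hx] with y hy
    exact h hy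
  unfold Jac
  rw [h1.fderiv_eq]

theorem d6_stat {n : ℕ} {f : Mat n → ℝ} {Ω : Set E2} (hΩ : IsOpen Ω) {u v : E2 → Fin n → ℝ}
    (huv : Set.EqOn u v Ω) (hs : Stationary f Ω u) : Stationary f Ω v := by
  refine ⟨fun φ h1 h2 h3 => ?_, fun Φ h1 h2 h3 => ?_⟩
  · rw [← hs.1 φ h1 h2 h3]
    apply setIntegral_congr_fun hΩ.measurableSet
    intro x hx
    show (∑ i, ∑ j, Grd f (Jac v x) i j * Jac φ x i j) =
      ∑ i, ∑ j, Grd f (Jac u x) i j * Jac φ x i j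
    rw [d6_jac_eq hΩ huv hx]
  · rw [← hs.2 Φ h1 h2 h3]
    apply setIntegral_congr_fun hΩ.measurableSet
    intro x hx
    show (f (Jac v x) * (∑ k, Jac Φ x k k)
      - ∑ i, ∑ j, Grd f (Jac v x) i j * ∑ k, Jac v x i k * Jac Φ x k j) =
      (f (Jac u x) * (∑ k, Jac Φ x k k)
      - ∑ i, ∑ j, Grd f (Jac u x) i j * ∑ k, Jac u x i k * Jac Φ x k j)
    rw [d6_jac_eq hΩ huv hx]

theorem d6_local {n : ℕ} (c M Lf : ℝ) (hc : 0 < c) (hM : 0 ≤ M) :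
    ∃ C0 : ℝ, 0 < C0 ∧ ∀ (K : Set (Mat n)), IsCompact K → Convex ℝ K →
      ∀ f : Mat n → ℝ, ContDiff ℝ 2 f → TwoU f K c M →
      (∀ A ∈ K, ∀ X ∈ K, ‖Wf f X - Wf f A‖ ≤ Lf * ‖X - A‖) →
      ∀ (Ω : Set E2) (u : E2 → Fin n → ℝ) (L : NNReal), IsOpen Ω → LipschitzOnWith L u Ω →
      Stationary f Ω u → (∀ᵐ x ∂(volume.restrict Ω), Jac u x ∈ K) →
      ∀ (x0 : E2) (r R : ℝ), 0 < r → r < R → Metric.ball x0 R ⊆ Ω →
      ∀ (A : Mat n) (b : Fin n → ℝ),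
      ∫ x in Metric.ball x0 r, sq (Jac u x - A) ≤
        C0 / (R - r) ^ 2 * ∫ x in Metric.ball x0 R,
          ∑ l, (u x l - b l - ∑ j, A l j * x j) ^ 2 := by
  obtain ⟨C0, hC0, hg⟩ := d5_global (n := n) c M Lf hc hM
  refine ⟨C0, hC0, ?_⟩
  intro K hK hcv f hf hT hL Ω u L hΩ hu hs hJ x0 r R hr hrR hsub A b
  obtain ⟨v, hv, huv⟩ := hu.extend_pi
  have hJv : ∀ᵐ x ∂(volume.restrict Ω), Jac v x ∈ K := by
    filter_upwards [hJ, ae_restrict_mem hΩ.measurableSet] with x hx hxΩ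
    rwa [d6_jac_eq hΩ huv hxΩ]
  have h := hg K hK hcv f hf hT hL Ω v L hΩ hv (d6_stat hΩ huv hs) hJv x0 r R hr hrR hsub A b
  have e1 : ∫ x in Metric.ball x0 r, sq (Jac v x - A) =
      ∫ x in Metric.ball x0 r, sq (Jac u x - A) := by
    apply setIntegral_congr_fun measurableSet_ball
    intro x hx
    show sq (Jac v x - A) = sq (Jac u x - A)
    rw [d6_jac_eq hΩ huv (hsub (Metric.ball_subset_ball hrR.le hx))]
  have e2 : ∫ x in Metric.ball x0 R, ∑ l, (v x l - b l - ∑ j, A l j * x j) ^ 2 =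
      ∫ x in Metric.ball x0 R, ∑ l, (u x l - b l - ∑ j, A l j * x j) ^ 2 := by
    apply setIntegral_congr_fun measurableSet_ball
    intro x hx
    show ∑ l, (v x l - b l - ∑ j, A l j * x j) ^ 2 = ∑ l, (u x l - b l - ∑ j, A l j * x j) ^ 2
    rw [huv (hsub hx)]
  rw [e1, e2] at h
  exact h

theorem d6_stable {n : ℕ} {f : Mat n → ℝ} (hf : ContDiff ℝ 2 f) {K : Set (Mat n)}
    (hK : IsCompact K) (c M : ℝ) (hc : 0 < c) (hM : 0 ≤ M) (hT : TwoU f K c M) :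
    ∃ R δ Lf : ℝ, 0 < R ∧ 0 < δ ∧ 0 < Lf ∧ ∀ h : Mat n → ℝ, ContDiff ℝ 2 h → SmallC2 R δ h →
      TwoU (fun X => f X + h X) K (c / 2) M ∧
      ∀ A ∈ K, ∀ X ∈ K, ‖Wf (fun X => f X + h X) X - Wf (fun X => f X + h X) A‖ ≤
        Lf * ‖X - A‖ := by
  obtain ⟨R0, hR0⟩ := hK.isBounded.exists_norm_le
  set R : ℝ := |R0| + 1 with hRdef
  have hRpos : 0 < R := by positivity
  obtain ⟨L, hL0, _, hL⟩ := o1_lipn (Wf_contDiff hf) R
  obtain ⟨C', hC', hsm⟩ := Wd_small (n := n) R hRpos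
  set N : ℝ := (Fintype.card (Idx n) : ℝ) with hN
  have hN0 : 0 ≤ N := by positivity
  set κ : ℝ := N ^ 2 * M * (4 * L * C' + 2 * C' ^ 2) with hκ
  have hκ0 : 0 ≤ κ := by positivity
  set δ : ℝ := min 1 (c / (2 * (κ + 1))) with hδdef
  have hδ0 : 0 < δ := lt_min one_pos (by positivity)
  have hδ1 : δ ≤ 1 := min_le_left _ _
  have hδκ : κ * δ ≤ c / 2 := by
    calc κ * δ ≤ κ * (c / (2 * (κ + 1))) := by gcongr; exact min_le_right _ _
      _ = (c / 2) * (κ / (κ + 1)) := by field_simp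
      _ ≤ (c / 2) * 1 := by
          gcongr
          rw [div_le_one (by positivity)]
          linarith
      _ = c / 2 := mul_one _
  have hKR : ∀ A ∈ K, ‖A‖ ≤ R := by
    intro A hA
    have := hR0 A hA
    have := le_abs_self R0
    linarith
  refine ⟨R, δ, L + C', hRpos, hδ0, by positivity, fun h hh hs => ⟨fun A hA => ?_, ?_⟩⟩
  · obtain ⟨C, hC, hCr, hX⟩ := hT A hA
    refine ⟨C, hC, hCr, fun X hXX => ?_⟩
    have h1 := hX X hXX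
    have hAR := hKR A hA
    have hXR := hKR X hXX
    have e1 : Wf (fun X => f X + h X) X - Wf (fun X => f X + h X) A =
        (Wf f X - Wf f A) + (Wd h X - Wd h A) := by
      rw [Wf_add hf hh, Wf_add hf hh]; abel
    rw [e1]
    have h2 := (abs_le.mp (g3_sum C M hC (Wf f X - Wf f A) (Wd h X - Wd h A))).1
    have h3 : 4 * ‖Wf f X - Wf f A‖ * ‖Wd h X - Wd h A‖ + 2 * ‖Wd h X - Wd h A‖ ^ 2 ≤
        (4 * L * C' + 2 * C' ^ 2) * δ * ‖X - A‖ ^ 2 := by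
      have a1 := hL A X hAR hXR
      have a2 := hsm δ h hδ0.le hh hs A X hAR hXR
      calc 4 * ‖Wf f X - Wf f A‖ * ‖Wd h X - Wd h A‖ + 2 * ‖Wd h X - Wd h A‖ ^ 2
          ≤ 4 * (L * ‖X - A‖) * (C' * δ * ‖X - A‖) + 2 * (C' * δ * ‖X - A‖) ^ 2 := by gcongr
        _ = (4 * L * C' + 2 * C' ^ 2 * δ) * δ * ‖X - A‖ ^ 2 := by ring
        _ ≤ (4 * L * C' + 2 * C' ^ 2 * 1) * δ * ‖X - A‖ ^ 2 := by gcongr
        _ = _ := by ring
    have h4 : N ^ 2 * M * (4 * ‖Wf f X - Wf f A‖ * ‖Wd h X - Wd h A‖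
        + 2 * ‖Wd h X - Wd h A‖ ^ 2) ≤ (c / 2) * ‖X - A‖ ^ 2 := by
      calc N ^ 2 * M * (4 * ‖Wf f X - Wf f A‖ * ‖Wd h X - Wd h A‖ + 2 * ‖Wd h X - Wd h A‖ ^ 2)
          ≤ N ^ 2 * M * ((4 * L * C' + 2 * C' ^ 2) * δ * ‖X - A‖ ^ 2) := by gcongr
        _ = κ * δ * ‖X - A‖ ^ 2 := by rw [hκ]; ring
        _ ≤ (c / 2) * ‖X - A‖ ^ 2 := by gcongr
    have h5 := (norm_sq_le (X - A)).1
    have h6 : (c / 2) * ‖X - A‖ ^ 2 ≤ (c / 2) * sq (X - A) := by gcongr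
    linarith
  · intro A hA X hX
    have hAR := hKR A hA
    have hXR := hKR X hX
    have e1 : Wf (fun X => f X + h X) X - Wf (fun X => f X + h X) A =
        (Wf f X - Wf f A) + (Wd h X - Wd h A) := by
      rw [Wf_add hf hh, Wf_add hf hh]; abel
    rw [e1]
    have a1 := hL A X hAR hXR
    have a2 := hsm δ h hδ0.le hh hs A X hAR hXR
    calc ‖(Wf f X - Wf f A) + (Wd h X - Wd h A)‖ ≤ ‖Wf f X - Wf f A‖ + ‖Wd h X - Wd h A‖ :=
          norm_add_le _ _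
      _ ≤ L * ‖X - A‖ + C' * δ * ‖X - A‖ := add_le_add a1 a2
      _ ≤ L * ‖X - A‖ + C' * 1 * ‖X - A‖ := by gcongr
      _ = (L + C') * ‖X - A‖ := by ring

/-- Caccioppoli inequality for all stationary Lipschitz maps with gradient in a compact convex
set, for an integrand with the restricted two-point condition and all its small perturbations. -/
theorem cacc_stable {n : ℕ} {f : Mat n → ℝ} (hf : ContDiff ℝ 2 f) {K : Set (Mat n)}
    (hK : IsCompact K) (hcv : Convex ℝ K) (c M : ℝ) (hc : 0 < c) (hM : 0 ≤ M)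
    (hT : TwoU f K c M) :
    ∃ R δ C0 : ℝ, 0 < R ∧ 0 < δ ∧ 0 < C0 ∧ ∀ h : Mat n → ℝ, ContDiff ℝ 2 h → SmallC2 R δ h →
      ∀ (Ω : Set E2) (u : E2 → Fin n → ℝ) (L : NNReal), IsOpen Ω → LipschitzOnWith L u Ω →
      Stationary (fun X => f X + h X) Ω u → (∀ᵐ x ∂(volume.restrict Ω), Jac u x ∈ K) →
      ∀ (x0 : E2) (r R : ℝ), 0 < r → r < R → Metric.ball x0 R ⊆ Ω →
      ∀ (A : Mat n) (b : Fin n → ℝ),
      ∫ x in Metric.ball x0 r, sq (Jac u x - A) ≤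
        C0 / (R - r) ^ 2 * ∫ x in Metric.ball x0 R,
          ∑ l, (u x l - b l - ∑ j, A l j * x j) ^ 2 := by
  obtain ⟨R, δ, Lf, hR, hδ, hLf, hst⟩ := d6_stable hf hK c M hc hM hT
  obtain ⟨C0, hC0, hloc⟩ := d6_local (n := n) (c / 2) M Lf (by linarith) hM
  refine ⟨R, δ, C0, hR, hδ, hC0, fun h hh hs Ω u L hΩ hu hst' hJ => ?_⟩
  obtain ⟨h1, h2⟩ := hst h hh hs
  exact hloc K hK hcv _ (hf.add hh) h1 h2 Ω u L hΩ hu hst' hJ

end Pool.Agent.SLG
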