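import Pool.Agent.SLG.D6
import Pool.Agent.SLG.C2

/-!
The Caccioppoli inequality for the explicit class `γ/2 |X|² + G (X, det X)`.
-/

namespace Pool.Agent.SLG

open MeasureTheory

theorem d7_ip_lin {n : ℕ} (P : Mat n) : IsLinearMap ℝ (fun X : Mat n => ip P X) := by
  constructor
  · intro X Y
    unfold ip
    rw [← Finset.sum_add_distrib]
    refine Finset.sum_congr rfl fun i _ => ?_
    rw [← Finset.sum_add_distrib]
    refine Finset.sum_congr rfl fun j _ => ?_
    simp only [Pi.add_apply]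
    ring
  · intro a X
    unfold ip
    rw [smul_eq_mul, Finset.mul_sum]
    refine Finset.sum_congr rfl fun i _ => ?_
    rw [Finset.mul_sum]
    refine Finset.sum_congr rfl fun j _ => ?_
    simp only [Pi.smul_apply, smul_eq_mul]
    ring

theorem d7_ip_cont {n : ℕ} (P : Mat n) : Continuous (fun X : Mat n => ip P X) := by
  unfold ip
  exact continuous_finsetSum _ fun i _ => continuous_finsetSum _ fun j _ =>
    continuous_const.mul ((continuous_apply j).comp (continuous_apply i))

theorem d7_half {n : ℕ} (P : Mat n) (a : ℝ) (K : Set (Mat n)) (h : ∀ X ∈ K, a ≤ ip P X) :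
    ∀ X ∈ closure (convexHull ℝ K), a ≤ ip P X := by
  intro X hX
  have hcl : IsClosed {X : Mat n | a ≤ ip P X} := isClosed_le continuous_const (d7_ip_cont P)
  have hsub : closure (convexHull ℝ K) ⊆ {X : Mat n | a ≤ ip P X} :=
    closure_minimal (convexHull_min (fun X hX => h X hX)
      (convex_halfSpace_ge (d7_ip_lin P) a)) hcl
  exact hsub hX

theorem d7_hull {n : ℕ} (α ε : ℝ) (P N : Mat n) (K : Set (Mat n))
    (hK : ∀ A ∈ K, ∀ B ∈ K, ε ≤ α + ip P A + ip N B) :
    ∀ A ∈ closure (convexHull ℝ K), ∀ B ∈ closure (convexHull ℝ K),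
      ε ≤ α + ip P A + ip N B := by
  have h1 : ∀ A ∈ closure (convexHull ℝ K), ∀ B ∈ K, ε ≤ α + ip P A + ip N B := by
    intro A hA B hB
    have := d7_half P (ε - α - ip N B) K (fun X hX => by have := hK X hX B hB; linarith) A hA
    linarith
  intro A hA B hB
  have := d7_half N (ε - α - ip P A) K (fun X hX => by have := h1 A hA X hX; linarith) B hB
  linarith

theorem d7_compact {n : ℕ} {K : Set (Mat n)} (hK : IsCompact K) :
    IsCompact (closure (convexHull ℝ K)) := by
  have hb : Bornology.IsBounded (convexHull ℝ K) := isBounded_convexHull.mpr hK.isBounded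
  exact Metric.isCompact_of_isClosed_isBounded isClosed_closure hb.closure

theorem d7_bound (γ α : ℝ) (M : Mat 2) (G : Mat 2 × ℝ → ℝ) (hG : ContDiff ℝ 2 G)
    (K : Set (Mat 2)) (hK : IsCompact K) :
    ∃ M0 : ℝ, 0 ≤ M0 ∧ ∀ A ∈ K, ∀ p q,
      |c2_C γ α (fderiv ℝ G (A, det2 A) (0, 1)) M A p q| ≤ M0 := by
  have hent : ∀ i j, Continuous (fun A : Mat 2 => A i j) := fun i j =>
    (continuous_apply j).comp (continuous_apply i)
  have hdet : Continuous (fun A : Mat 2 => det2 A) := by
    unfold det2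
    exact ((hent 0 0).mul (hent 1 1)).sub ((hent 0 1).mul (hent 1 0))
  have hip : ∀ P : Mat 2, Continuous (fun A : Mat 2 => ip P A) := by
    intro P
    unfold ip
    exact continuous_finsetSum _ fun i _ => continuous_finsetSum _ fun j _ =>
      continuous_const.mul (hent i j)
  have hip' : ∀ P : Mat 2, Continuous (fun A : Mat 2 => ip A P) := by
    intro P
    unfold ip
    exact continuous_finsetSum _ fun i _ => continuous_finsetSum _ fun j _ =>
      (hent i j).mul continuous_const
  have hfd : Continuous (fun A : Mat 2 => fderiv ℝ G (A, det2 A) (0, 1)) :=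
    ((hG.continuous_fderiv (by norm_num)).comp (continuous_id.prodMk hdet)).clm_apply
      continuous_const
  have hcont : ∀ p q, Continuous (fun A : Mat 2 =>
      c2_C γ α (fderiv ℝ G (A, det2 A) (0, 1)) M A p q) := by
    intro p q
    rcases p with l | r
    · rcases q with i | i | k
      · unfold c2_C
        by_cases h : l = 0 ∧ i = 1
        · simp only [if_pos h]
          exact (((continuous_const.add (hip M)).neg).mul hfd).add
            (continuous_const.mul (hip' _))
        · simp only [if_neg h]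
          exact continuous_const
      · unfold c2_C
        refine Continuous.sub ?_ (continuous_finsetSum _ fun k _ =>
          (hent i k).mul continuous_const)
        by_cases h : l = i
        · simp only [if_pos h]
          exact continuous_const.add (hip M)
        · simp only [if_neg h]
          exact continuous_const
      · unfold c2_C
        exact continuous_const
    · have : (fun A : Mat 2 => c2_C γ α (fderiv ℝ G (A, det2 A) (0, 1)) M A (Sum.inr r) q) =
          fun _ => 0 := by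
        funext A
        rcases q with i | i | k <;> simp [c2_C]
      rw [this]
      exact continuous_const
  choose B hB using fun p q => hK.exists_bound_of_continuousOn (hcont p q).continuousOn
  refine ⟨∑ p, ∑ q, |B p q|,
    Finset.sum_nonneg fun _ _ => Finset.sum_nonneg fun _ _ => abs_nonneg _,
    fun A hA p q => ?_⟩
  have h1 : |B p q| ≤ ∑ q, |B p q| :=
    Finset.single_le_sum (f := fun q => |B p q|) (fun _ _ => abs_nonneg _) (Finset.mem_univ q)
  have h2 : (∑ q, |B p q|) ≤ ∑ p, ∑ q, |B p q| :=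
    Finset.single_le_sum (f := fun p => ∑ q, |B p q|)
      (fun _ _ => Finset.sum_nonneg fun _ _ => abs_nonneg _) (Finset.mem_univ p)
  have h3 := hB p q A hA
  rw [Real.norm_eq_abs] at h3
  have := le_abs_self (B p q)
  linarith

theorem inv_twoU (γ α ε : ℝ) (hγ : 0 < γ) (hε : 0 < ε) (M : Mat 2) (G : Mat 2 × ℝ → ℝ)
    (hG : ContDiff ℝ 2 G) (hc : ConvexOn ℝ Set.univ G)
    (hinv : ∀ (X : Mat 2) (δ s : ℝ), G (X + s • cof2 M, δ - s * α) = G (X, δ))
    (K : Set (Mat 2)) (hKc : IsCompact K)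
    (hK : ∀ A ∈ K, ∀ B ∈ K, ε ≤ α + ip (mP M) A + ip (mM M) B) :
    ∃ M0 : ℝ, 0 ≤ M0 ∧ TwoU (fInv γ G) K (γ * ε / 2) M0 := by
  obtain ⟨M0, hM0, hb⟩ := d7_bound γ α M G hG K hKc
  refine ⟨M0, hM0, fun A hA => ⟨c2_C γ α (fderiv ℝ G (A, det2 A) (0, 1)) M A, hb A hA,
    fun r q => ?_, fun X hX => ?_⟩⟩
  · rcases q with i | i | k <;> simp [c2_C]
  · apply inv_main γ α ε hγ hε M G hG hc hinv A X
    · rw [c2_sig]; exact hK A hA A hA
    · have := hK A hA X hX; linarith
    · have := hK X hX A hA; linarith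
    · rw [c2_sig]
      have := hK X hX X hX; linarith

theorem inv_cacc (γ α ε : ℝ) (hγ : 0 < γ) (hε : 0 < ε) (M : Mat 2) (G : Mat 2 × ℝ → ℝ)
    (hG : ContDiff ℝ 2 G) (hc : ConvexOn ℝ Set.univ G)
    (hinv : ∀ (X : Mat 2) (δ s : ℝ), G (X + s • cof2 M, δ - s * α) = G (X, δ))
    (K : Set (Mat 2)) (hKc : IsCompact K)
    (hK : ∀ A ∈ K, ∀ B ∈ K, ε ≤ α + ip (mP M) A + ip (mM M) B) :
    ∃ R δ C0 : ℝ, 0 < R ∧ 0 < δ ∧ 0 < C0 ∧ ∀ h : Mat 2 → ℝ, ContDiff ℝ 2 h → SmallC2 R δ h →
      ∀ (Ω : Set E2) (u : E2 → Fin 2 → ℝ) (L : NNReal), IsOpen Ω → LipschitzOnWith L u Ω →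
      Stationary (fun X => fInv γ G X + h X) Ω u → (∀ᵐ x ∂(volume.restrict Ω), Jac u x ∈ K) →
      ∀ (x0 : E2) (r R : ℝ), 0 < r → r < R → Metric.ball x0 R ⊆ Ω →
      ∀ (A : Mat 2) (b : Fin 2 → ℝ),
      ∫ x in Metric.ball x0 r, sq (Jac u x - A) ≤
        C0 / (R - r) ^ 2 * ∫ x in Metric.ball x0 R,
          ∑ l, (u x l - b l - ∑ j, A l j * x j) ^ 2 := by
  have hKh := d7_hull α ε (mP M) (mM M) K hK
  have hcomp : IsCompact (closure (convexHull ℝ K)) := d7_compact hKc
  obtain ⟨M0, hM0, hT⟩ := inv_twoU γ α ε hγ hε M G hG hc hinv _ hcomp hKh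
  obtain ⟨R, δ, C0, hR, hδ, hC0, h⟩ := cacc_stable (fInv_contDiff γ G hG) hcomp
    (convex_convexHull ℝ K).closure (γ * ε / 2) M0 (by positivity) hM0 hT
  refine ⟨R, δ, C0, hR, hδ, hC0, fun g hg hs Ω u L hΩ hu hst hJ => ?_⟩
  exact h g hg hs Ω u L hΩ hu hst (by
    filter_upwards [hJ] with x hx
    exact subset_closure (subset_convexHull ℝ K hx))

end Pool.Agent.SLG
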