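import Pool.Agent.SLG.Defs

/-!
ROW T4 (small excess near a point of differentiability).
Let `N = card I` and `η > 0` with `64 N η² ≤ s1²` (`volume (ball x r) = π r² ≤ 4 r²`).
Differentiability of each `w i` at `x0` with `fderiv` given by the row `W A0 i`
(`fderiv ℝ (w i) x0 v = ∑ j, v j * pd j (w i) x0`) yields `r > 0`, `r ≤ R0`, such that for
`‖z - x0‖ < 2 r`: `|w i z - w i x0 - ∑ j, W A0 i j (z_j - x0_j)| ≤ η ‖z - x0‖ ≤ 2 η r`.  For
`x ∈ ball x0 r`, `z ∈ ball x r` subtract this for `z` and for `x`: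
`|w i z - w i x - ∑ j, W A0 i j (z_j - x_j)| ≤ 4 η r`; so
`Exc W w x r A0 (w · x) ≤ N (4 η r)² * 4 r² = 64 N η² r⁴ ≤ s1² r⁴`.
-/

namespace Pool.Agent.SLG

open MeasureTheory

theorem t4_vol (z : E2) (r : ℝ) (hr : 0 ≤ r) :
    (volume (Metric.ball z r)).toReal = Real.pi * r ^ 2 := by
  rw [EuclideanSpace.volume_ball_fin_two, ENNReal.toReal_mul, ENNReal.toReal_pow,
    ENNReal.toReal_ofReal hr, ENNReal.toReal_ofReal Real.pi_pos.le, mul_comm]

theorem t4_decomp (v : E2) : v = ∑ j, v j • ee j := by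
  ext k
  rw [Fin.sum_univ_two]
  fin_cases k <;> simp [ee]

theorem t4_fderiv (g : E2 → ℝ) (x v : E2) :
    fderiv ℝ g x v = ∑ j, pd j g x * v j := by
  conv_lhs => rw [t4_decomp v]
  rw [map_sum]
  refine Finset.sum_congr rfl fun j _ => ?_
  rw [map_smul, smul_eq_mul, mul_comm]
  rfl

theorem start {n : ℕ} {I : Type} [Fintype I] (W : Mat n → I → Fin 2 → ℝ) (A0 : Mat n)
    (w : I → E2 → ℝ) (hw : ∀ i, ∃ L : NNReal, LipschitzWith L (w i)) (x0 : E2)
    (hd : ∀ i, DifferentiableAt ℝ (w i) x0) (hg : grad w x0 = W A0) (s1 R0 : ℝ) (hs : 0 < s1)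
    (hR : 0 < R0) :
    ∃ r : ℝ, 0 < r ∧ r ≤ R0 ∧ ∀ x ∈ Metric.ball x0 r,
      Exc W w x r A0 (fun i => w i x) ≤ s1 ^ 2 * r ^ 4 := by
  classical
  set N : ℝ := ((Fintype.card I : ℕ) : ℝ) with hN
  have hN0 : 0 ≤ N := Nat.cast_nonneg _
  set η : ℝ := s1 / (8 * (N + 1)) with hη
  have hη0 : 0 < η := by positivity
  have hηN : 64 * N * η ^ 2 ≤ s1 ^ 2 := by
    rw [hη, div_pow, ← mul_div_assoc, div_le_iff₀ (by positivity)]
    have h1 : 0 < s1 ^ 2 := by positivity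
    have h2 : N ≤ (N + 1) ^ 2 := by nlinarith
    have h3 := mul_le_mul_of_nonneg_left h2 h1.le
    linarith [show s1 ^ 2 * (8 * (N + 1)) ^ 2 = 64 * (s1 ^ 2 * (N + 1) ^ 2) by ring,
      show 64 * N * s1 ^ 2 = 64 * (s1 ^ 2 * N) by ring]
  have h1 : ∀ i, ∀ᶠ z in nhds x0,
      ‖w i z - w i x0 - fderiv ℝ (w i) x0 (z - x0)‖ ≤ η * ‖z - x0‖ := fun i =>
    (hd i).hasFDerivAt.isLittleO.def hη0
  obtain ⟨r', hr', hball⟩ := Metric.eventually_nhds_iff_ball.1 (Filter.eventually_all.2 h1)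
  have hexp : ∀ i, ∀ z ∈ Metric.ball x0 r',
      |w i z - w i x0 - ∑ j, W A0 i j * (z j - x0 j)| ≤ η * ‖z - x0‖ := by
    intro i z hz
    have h2 := hball z hz i
    rw [t4_fderiv, Real.norm_eq_abs] at h2
    rw [← hg]
    exact h2
  refine ⟨min (r' / 2) R0, lt_min (by positivity) hR, min_le_right _ _, ?_⟩
  set r := min (r' / 2) R0 with hr
  have hr0 : 0 < r := lt_min (by positivity) hR
  have hr2 : 2 * r ≤ r' := by
    have := min_le_left (r' / 2) R0
    linarith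
  intro x hx
  rw [Metric.mem_ball, dist_eq_norm] at hx
  have hpt : ∀ z ∈ Metric.ball x r, ∀ i,
      (w i z - (∑ j, W A0 i j * (z j - x j)) - w i x) ^ 2 ≤ (4 * η * r) ^ 2 := by
    intro z hz i
    rw [Metric.mem_ball, dist_eq_norm] at hz
    have hzx0 : ‖z - x0‖ < 2 * r := by
      have h3 : z - x0 = (z - x) + (x - x0) := by abel
      rw [h3]
      have := norm_add_le (z - x) (x - x0)
      linarith
    have h3 := hexp i z (by rw [Metric.mem_ball, dist_eq_norm]; linarith)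
    have h4 := hexp i x (by rw [Metric.mem_ball, dist_eq_norm]; linarith)
    have h5 : η * ‖z - x0‖ ≤ η * (2 * r) := mul_le_mul_of_nonneg_left hzx0.le hη0.le
    have h6 : η * ‖x - x0‖ ≤ η * r := mul_le_mul_of_nonneg_left hx.le hη0.le
    rw [Fin.sum_univ_two] at h3 h4 ⊢
    rw [abs_le] at h3 h4
    have h7 : |w i z - (W A0 i 0 * (z 0 - x 0) + W A0 i 1 * (z 1 - x 1)) - w i x| ≤
        4 * η * r := by
      rw [abs_le]
      constructor <;> nlinarith [h3.1, h3.2, h4.1, h4.2, mul_pos hη0 hr0]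
    rw [← sq_abs]
    exact pow_le_pow_left₀ (abs_nonneg _) h7 2
  unfold Exc
  have hbd : ∀ z ∈ Metric.ball x r,
      ‖∑ i, (w i z - (∑ j, W A0 i j * (z j - x j)) - w i x) ^ 2‖ ≤ N * (4 * η * r) ^ 2 := by
    intro z hz
    rw [Real.norm_eq_abs, abs_of_nonneg (Finset.sum_nonneg fun i _ => sq_nonneg _)]
    have h3 := Finset.sum_le_card_nsmul Finset.univ
      (fun i => (w i z - (∑ j, W A0 i j * (z j - x j)) - w i x) ^ 2) ((4 * η * r) ^ 2)
      (fun i _ => hpt z hz i)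
    rw [Finset.card_univ, nsmul_eq_mul] at h3
    exact h3
  have h3 := norm_setIntegral_le_of_norm_le_const (μ := volume) measure_ball_lt_top hbd
  have h4 := (le_abs_self _).trans h3
  refine h4.trans ?_
  rw [measureReal_def, t4_vol x r hr0.le]
  have hpi : Real.pi ≤ 4 := by
    have := Real.pi_le_four
    linarith
  have h5 : N * (4 * η * r) ^ 2 * (Real.pi * r ^ 2) ≤ N * (4 * η * r) ^ 2 * (4 * r ^ 2) :=
    mul_le_mul_of_nonneg_left (mul_le_mul_of_nonneg_right hpi (by positivity)) (by positivity)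
  have h6 : N * (4 * η * r) ^ 2 * (4 * r ^ 2) = (64 * N * η ^ 2) * r ^ 4 := by ring
  have h7 : (64 * N * η ^ 2) * r ^ 4 ≤ s1 ^ 2 * r ^ 4 :=
    mul_le_mul_of_nonneg_right hηN (by positivity)
  linarith

end Pool.Agent.SLG
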