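import Pool.Agent.SLG.Defs

/-!
ROW T5 (uniform first order expansions imply `C¹`).
At each `x ∈ ball x0 r` the expansion says that `u` has derivative `v ↦ ∑ j, A x j * v j` at `x`
(`hasFDerivAt_iff_isLittleO` / `HasFDerivAt` from the `η`-`δ` form).  Continuity of `A` on the
ball: let `x, x' ∈ ball x0 r`, `h := ‖x - x'‖ > 0` with `2 h < δ η`.  For a unit vector `v` put
`z = x + h v`; then `‖z - x‖ = h`, `‖z - x'‖ ≤ 2 h`, and adding the three expansions
(`z` at `x`, `z` at `x'`, `x` at `x'`):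
`|∑ j (A x j - A x' j) (h v_j)| ≤ η h + 2 η h + η h = 4 η h`, so `|A x j - A x' j| ≤ 4 η`.
Hence `x ↦ A x` is continuous on the ball and `u` is `C¹` there
(`contDiffOn_one_iff_fderiv_of_isOpen` or
`contDiffOn_succ_iff_fderiv_of_isOpen`, `Metric.isOpen_ball`).
-/

namespace Pool.Agent.SLG

open MeasureTheory

theorem t5_ee (j k : Fin 2) : (ee j : E2) k = if k = j then 1 else 0 := by
  simp [ee]

theorem t5_norm_ee (j : Fin 2) : ‖(ee j : E2)‖ = 1 := by
  simp [ee]

/-- the linear form with coefficients `a` -/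
noncomputable def t5L (a : Fin 2 → ℝ) : E2 →L[ℝ] ℝ :=
  ∑ j, a j • (EuclideanSpace.proj j : E2 →L[ℝ] ℝ)

theorem t5L_apply (a : Fin 2 → ℝ) (v : E2) : t5L a v = ∑ j, a j * v j := by
  simp [t5L]

theorem t5_cont (u : E2 → ℝ) (x x' : E2) (A : E2 → Fin 2 → ℝ) (η d : ℝ) (j : Fin 2)
    (hη : 0 < η) (h1 : ∀ z : E2, ‖z - x‖ < d → |u z - u x - ∑ j, A x j * (z j - x j)| ≤ η * ‖z - x‖)
    (h2 : ∀ z : E2, ‖z - x'‖ < d → |u z - u x' - ∑ j, A x' j * (z j - x' j)| ≤ η * ‖z - x'‖)
    (hne : x ≠ x') (hd : 2 * ‖x - x'‖ < d) : |A x j - A x' j| ≤ 4 * η := by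
  set h := ‖x - x'‖ with hh
  have hpos : 0 < h := norm_pos_iff.2 (sub_ne_zero.2 hne)
  have e1 : ‖(x + h • ee j) - x‖ = h := by
    rw [add_sub_cancel_left, norm_smul, t5_norm_ee, mul_one, Real.norm_eq_abs,
      abs_of_pos hpos]
  have e2 : ‖(x + h • ee j) - x'‖ ≤ 2 * h := by
    have e3 : (x + h • ee j) - x' = (x - x') + h • ee j := by abel
    rw [e3]
    have e4 := norm_add_le (x - x') (h • (ee j : E2))
    rw [norm_smul, t5_norm_ee, mul_one, Real.norm_eq_abs, abs_of_pos hpos] at e4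
    linarith
  have a1 := h1 (x + h • ee j) (by rw [e1]; linarith)
  have a2 := h2 (x + h • ee j) (by linarith)
  have a3 := h2 x (by linarith)
  rw [e1] at a1
  have a2' : η * ‖(x + h • ee j) - x'‖ ≤ η * (2 * h) := mul_le_mul_of_nonneg_left e2 hη.le
  have b1 : ∑ k, A x k * ((x + h • (ee j : E2)) k - x k) = A x j * h := by
    rw [Finset.sum_eq_single j]
    · rw [PiLp.add_apply, PiLp.smul_apply, t5_ee, if_pos rfl]
      simp
    · intro k _ hk
      rw [PiLp.add_apply, PiLp.smul_apply, t5_ee, if_neg hk]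
      simp
    · intro hk
      exact absurd (Finset.mem_univ _) hk
  have b2 : ∑ k, A x' k * ((x + h • (ee j : E2)) k - x' k) =
      ∑ k, A x' k * (x k - x' k) + A x' j * h := by
    have b3 : ∑ k, A x' k * ((x + h • (ee j : E2)) k - x k) = A x' j * h := by
      rw [Finset.sum_eq_single j]
      · rw [PiLp.add_apply, PiLp.smul_apply, t5_ee, if_pos rfl]
        simp
      · intro k _ hk
        rw [PiLp.add_apply, PiLp.smul_apply, t5_ee, if_neg hk]
        simp
      · intro hk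
        exact absurd (Finset.mem_univ _) hk
    rw [← b3, ← Finset.sum_add_distrib]
    refine Finset.sum_congr rfl fun k _ => ?_
    ring
  rw [b1] at a1
  rw [b2] at a2
  rw [abs_le] at a1 a2 a3
  have key : |(A x j - A x' j) * h| ≤ 4 * η * h := by
    rw [abs_le]
    constructor <;> nlinarith [a1.1, a1.2, a2.1, a2.2, a3.1, a3.2]
  rw [abs_mul, abs_of_pos hpos] at key
  exact le_of_mul_le_mul_right key hpos

theorem c1_of_uniform (u : E2 → ℝ) (x0 : E2) (r : ℝ) (A : E2 → Fin 2 → ℝ) (δ : ℝ → ℝ)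
    (hδ : ∀ η, 0 < η → 0 < δ η)
    (h : ∀ x ∈ Metric.ball x0 r, ∀ η, 0 < η → ∀ z : E2, ‖z - x‖ < δ η →
      |u z - u x - ∑ j, A x j * (z j - x j)| ≤ η * ‖z - x‖) :
    ContDiffOn ℝ 1 u (Metric.ball x0 r) := by
  have hder : ∀ x ∈ Metric.ball x0 r, HasFDerivAt u (t5L (A x)) x := by
    intro x hx
    rw [hasFDerivAt_iff_isLittleO, Asymptotics.isLittleO_iff]
    intro c hc
    rw [Metric.eventually_nhds_iff]
    refine ⟨δ c, hδ c hc, fun z hz => ?_⟩
    rw [dist_eq_norm] at hz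
    have h1 := h x hx c hc z hz
    rw [t5L_apply, Real.norm_eq_abs]
    exact h1
  have h01 : (1 : WithTop ℕ∞) = 0 + 1 := by simp
  rw [h01, contDiffOn_succ_iff_fderiv_of_isOpen Metric.isOpen_ball]
  refine ⟨fun x hx => (hder x hx).differentiableAt.differentiableWithinAt, by simp, ?_⟩
  rw [contDiffOn_zero]
  have hA : ∀ j, ContinuousOn (fun x => A x j) (Metric.ball x0 r) := by
    intro j x hx
    rw [ContinuousWithinAt, Metric.tendsto_nhdsWithin_nhds]
    intro ε hε
    have hη : 0 < ε / 8 := by positivity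
    refine ⟨δ (ε / 8) / 2, by have := hδ _ hη; positivity, fun x' hx' hd => ?_⟩
    rw [Real.dist_eq]
    by_cases hne : x' = x
    · rw [hne, sub_self, abs_zero]
      exact hε
    · rw [dist_eq_norm] at hd
      have h1 := t5_cont u x' x A (ε / 8) (δ (ε / 8)) j hη (h x' hx' _ hη) (h x hx _ hη) hne
        (by linarith)
      linarith
  have hL : ContinuousOn (fun x => t5L (A x)) (Metric.ball x0 r) := by
    unfold t5L
    exact continuousOn_finset_sum _ fun j _ => (hA j).smul continuousOn_const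
  exact hL.congr fun x hx => (hder x hx).fderiv

end Pool.Agent.SLG
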