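import Pool.Agent.SLG.T3
import Pool.Agent.SLG.T4
import Pool.Agent.SLG.T5

/-!
ROW T6 (local regularity near a good point).
Let `L` be a common Lipschitz constant of the `w i` (finite maximum).  `s1` from `expansion`.
Choose `R0` with `ball x0 (2 R0) ⊆ O`; `start` gives `r ≤ R0`.  For `x ∈ ball x0 r`,
`ball x r ⊆ ball x0 (2 r) ⊆ O`, so `Incl` holds on `ball x r`
(`ae_restrict_of_ae_restrict_of_subset`) and `expansion` (with this `r`) gives `Ax` with the
uniform modulus `δ`.  Choose `Ax` for each `x` (classical choice) and apply `c1_of_uniform` to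
`u = w (e i)` and `A x := Ax i`.
-/

namespace Pool.Agent.SLG

open MeasureTheory

theorem local_reg {n : ℕ} {I : Type} [Fintype I] {e : Fin n → I} {W : Mat n → I → Fin 2 → ℝ}
    {K : Set (Mat n)} {A0 : Mat n} {C : I → I → ℝ} {c ρ : ℝ} (D : UData e W K A0 C c ρ)
    (w : I → E2 → ℝ) (hw : ∀ i, ∃ L : NNReal, LipschitzWith L (w i)) (O : Set E2)
    (hO : IsOpen O) (hI : Incl e W K w O) (x0 : E2) (hx0 : x0 ∈ O)
    (hd : ∀ i, DifferentiableAt ℝ (w i) x0) (hg : grad w x0 = W A0) :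
    ∃ r : ℝ, 0 < r ∧ Metric.ball x0 r ⊆ O ∧
      ∀ i, ContDiffOn ℝ 1 (w (e i)) (Metric.ball x0 r) := by
  classical
  choose Li hLi using hw
  set L : NNReal := Finset.univ.sup Li with hL
  have hLip : ∀ i, LipschitzWith L (w i) := fun i =>
    (hLi i).weaken (Finset.le_sup (Finset.mem_univ i))
  obtain ⟨s1, hs1, hexp⟩ := expansion D L
  obtain ⟨R1, hR1, hball⟩ := Metric.isOpen_iff.1 hO x0 hx0
  obtain ⟨r, hr, hrR, hstart⟩ := start W A0 w (fun i => ⟨L, hLip i⟩) x0 hd hg s1 (R1 / 2) hs1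
    (by positivity)
  obtain ⟨δ, hδ, hδ2⟩ := hexp r hr
  refine ⟨r, hr, (Metric.ball_subset_ball (by linarith)).trans hball, ?_⟩
  have hex : ∀ x ∈ Metric.ball x0 r, ∃ Ax : Mat n, ∀ η, 0 < η → ∀ z : E2, ‖z - x‖ < δ η → ∀ i,
      |w (e i) z - w (e i) x - ∑ j, Ax i j * (z j - x j)| ≤ η * ‖z - x‖ := by
    intro x hx
    refine hδ2 w hLip x ?_ ⟨fun i => w i x, hstart x hx⟩
    refine ae_restrict_of_ae_restrict_of_subset ?_ hI
    intro y hy
    apply hball
    rw [Metric.mem_ball] at hx hy ⊢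
    have := dist_triangle y x x0
    linarith
  choose! Ax hAx using hex
  intro i
  exact c1_of_uniform (w (e i)) x0 r (fun x => Ax x i) δ hδ
    fun x hx η hη z hz => hAx x hx η hη z hz i

end Pool.Agent.SLG
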