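import Pool.Agent.SLG.O1

/-!
ROW U1 (the two-point condition at `A0` holds uniformly near `A0`).
Hypotheses at `A0`: `c sq (X - A0) ≤ ∑ C minor (W X - W A0)` for `X ∈ K` and for `‖X - A0‖ < r`.
Let `N(A, X) := ∑ C p q minor (W X - W A) p q`.
Step 1 (linear coercivity at `A0`).  For a matrix `D` and small `t > 0`, `X = A0 + t D` gives
`c t² sq D ≤ N(A0, A0 + t D)`; divide by `t²` and let `t → 0`:
`(W (A0 + t D) - W A0)/t → fderiv W A0 D`, so `c sq D ≤ ∑ C minor (fderiv W A0 D)`.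
Step 2 (near `A0`).  Elementary: `|∑ C minor (P + Q) - ∑ C minor P| ≤ M' (‖P‖ ‖Q‖ + ‖Q‖²)` with
`M' = 4 N² max|C|`.  Let `η > 0` (small, chosen below) and `t > 0` with
`‖fderiv W B - fderiv W A0‖ ≤ η` for `‖B - A0‖ ≤ t`.  For `‖A - A0‖ ≤ t`, `‖X - A0‖ ≤ t`:
`‖W X - W A - fderiv W A0 (X - A)‖ ≤ η ‖X - A‖` (mean value inequality on the convex ball), hence
`N(A, X) ≥ c sq (X - A) - M' (m η + η²) ‖X - A‖² ≥ (c/2) sq (X - A)`, where
`m = ‖fderiv W A0‖`.  The same computation with `fderiv W A D` instead of `W X - W A` gives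
`lin` with `c/2` for `‖A - A0‖ ≤ t`.
Step 3 (far from `A0`).  `K` is bounded by `R`.  For `X ∈ K` with `‖X - A0‖ ≥ t`:
`W X - W A = (W X - W A0) - (W A - W A0)`, `‖W X - W A0‖ ≤ L (R + ‖A0‖)` and
`‖W A - W A0‖ ≤ L ‖A - A0‖` (`W_lip`-type bounds), so by the elementary estimate
`N(A, X) ≥ c sq (X - A0) - K' ‖A - A0‖ ≥ (c/2) sq(X - A0) + (c/2) t² - K' ‖A - A0‖`
(`sq (X - A0) ≥ ‖X - A0‖² ≥ t²`), and `sq (X - A) ≤ sq (X - A0) + K'' ‖A - A0‖`; for
`‖A - A0‖ ≤ ρ` with `ρ ≤ t` small (`K' ρ + c K'' ρ ≤ (c/2) t²`) this yields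
`N(A, X) ≥ (c/2) sq (X - A)`.
So `c' := c/2` works.  Assemble `UData`.
-/

namespace Pool.Agent.SLG

open MeasureTheory

/-- the quadratic form with coefficients `C` in the minors -/
noncomputable def u1B {I : Type} [Fintype I] (C : I → I → ℝ) (P : I → Fin 2 → ℝ) : ℝ :=
  ∑ p, ∑ q, C p q * minor P p q

theorem u1_entry {I : Type} [Fintype I] (P : I → Fin 2 → ℝ) (p : I) (j : Fin 2) :
    |P p j| ≤ ‖P‖ :=
  (norm_le_pi_norm (P p) j).trans (norm_le_pi_norm P p)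

theorem u1_mul_le {a b A B : ℝ} (ha : |a| ≤ A) (hb : |b| ≤ B) : |a * b| ≤ A * B := by
  rw [abs_mul]
  exact mul_le_mul ha hb (abs_nonneg _) ((abs_nonneg _).trans ha)

theorem u1_minor {I : Type} [Fintype I] (P Q : I → Fin 2 → ℝ) (p q : I) :
    |minor (P + Q) p q - minor P p q| ≤ 4 * (‖P‖ * ‖Q‖ + ‖Q‖ ^ 2) := by
  have e1 : minor (P + Q) p q - minor P p q =
      P p 0 * Q q 1 + P q 1 * Q p 0 + Q p 0 * Q q 1 -
        (P p 1 * Q q 0 + P q 0 * Q p 1 + Q p 1 * Q q 0) := by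
    simp only [minor, Pi.add_apply]
    ring
  have a1 := u1_mul_le (u1_entry P p 0) (u1_entry Q q 1)
  have a2 := u1_mul_le (u1_entry P q 1) (u1_entry Q p 0)
  have a3 := u1_mul_le (u1_entry Q p 0) (u1_entry Q q 1)
  have a4 := u1_mul_le (u1_entry P p 1) (u1_entry Q q 0)
  have a5 := u1_mul_le (u1_entry P q 0) (u1_entry Q p 1)
  have a6 := u1_mul_le (u1_entry Q p 1) (u1_entry Q q 0)
  rw [e1]
  have hQ : 0 ≤ ‖Q‖ ^ 2 := sq_nonneg _
  rw [abs_le] at *
  constructor <;> nlinarith [a1.1, a1.2, a2.1, a2.2, a3.1, a3.2, a4.1, a4.2, a5.1, a5.2, a6.1,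
    a6.2]

theorem u1_add {I : Type} [Fintype I] (C : I → I → ℝ) (P Q : I → Fin 2 → ℝ) :
    |u1B C (P + Q) - u1B C P| ≤
      (4 * ∑ p, ∑ q, |C p q|) * (‖P‖ * ‖Q‖ + ‖Q‖ ^ 2) := by
  unfold u1B
  rw [← Finset.sum_sub_distrib]
  refine (Finset.abs_sum_le_sum_abs _ _).trans ?_
  rw [mul_comm (4 : ℝ), mul_assoc, Finset.sum_mul]
  refine Finset.sum_le_sum fun p _ => ?_
  rw [← Finset.sum_sub_distrib]
  refine (Finset.abs_sum_le_sum_abs _ _).trans ?_
  rw [Finset.sum_mul]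
  refine Finset.sum_le_sum fun q _ => ?_
  rw [← mul_sub, abs_mul]
  exact mul_le_mul_of_nonneg_left (u1_minor P Q p q) (abs_nonneg _)

theorem u1_smul {I : Type} [Fintype I] (C : I → I → ℝ) (t : ℝ) (P : I → Fin 2 → ℝ) :
    u1B C (t • P) = t ^ 2 * u1B C P := by
  unfold u1B
  rw [Finset.mul_sum]
  refine Finset.sum_congr rfl fun p _ => ?_
  rw [Finset.mul_sum]
  refine Finset.sum_congr rfl fun q _ => ?_
  simp only [minor, Pi.smul_apply, smul_eq_mul]
  ring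

theorem u1_cont {I : Type} [Fintype I] (C : I → I → ℝ) :
    Continuous (u1B C : (I → Fin 2 → ℝ) → ℝ) := by
  unfold u1B minor
  fun_prop

theorem u1_sq_cont {n : ℕ} : Continuous (sq : Mat n → ℝ) := by
  unfold sq
  fun_prop

theorem u1_sq_smul {n : ℕ} (t : ℝ) (D : Mat n) : sq (t • D) = t ^ 2 * sq D := by
  unfold sq
  rw [Finset.mul_sum]
  refine Finset.sum_congr rfl fun p _ => ?_
  rw [Finset.mul_sum]
  refine Finset.sum_congr rfl fun q _ => ?_
  simp only [Pi.smul_apply, smul_eq_mul]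
  ring

/-- linear coercivity at the base point -/
theorem u1_lin {n : ℕ} {I : Type} [Fintype I] {W : Mat n → I → Fin 2 → ℝ}
    (hW : ContDiff ℝ 1 W) (A0 : Mat n) (C : I → I → ℝ) (c r : ℝ) (hr : 0 < r)
    (h : ∀ X : Mat n, ‖X - A0‖ < r → c * sq (X - A0) ≤ u1B C (W X - W A0)) (D : Mat n) :
    c * sq D ≤ u1B C (fderiv ℝ W A0 D) := by
  have hd : HasDerivAt (fun t : ℝ => W (A0 + t • D)) (fderiv ℝ W A0 D) 0 := by
    have h1 : HasFDerivAt W (fderiv ℝ W A0) (A0 + (0 : ℝ) • D) := by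
      rw [zero_smul, add_zero]
      exact (hW.differentiable one_ne_zero A0).hasFDerivAt
    have h2 : HasDerivAt (fun t : ℝ => A0 + t • D) D 0 := by
      have h3 := ((hasDerivAt_id (0 : ℝ)).smul_const D).const_add A0
      simpa using h3
    exact h1.comp_hasDerivAt 0 h2
  have ht := hd.tendsto_slope_zero_right
  simp only [zero_add, zero_smul, add_zero] at ht
  have ht2 := ((u1_cont C).tendsto _).comp ht
  refine ge_of_tendsto ht2 ?_
  have hD : 0 < ‖D‖ + 1 := by positivity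
  have hlt : 0 < r / (‖D‖ + 1) := by positivity
  filter_upwards [self_mem_nhdsWithin, mem_nhdsWithin_of_mem_nhds (gt_mem_nhds hlt)] with t ht0 ht1
  have ht0' : (0 : ℝ) < t := ht0
  have h3 : ‖(A0 + t • D) - A0‖ < r := by
    rw [add_sub_cancel_left, norm_smul, Real.norm_eq_abs, abs_of_pos ht0']
    rw [lt_div_iff₀ hD] at ht1
    have := norm_nonneg D
    nlinarith
  have h4 := h _ h3
  rw [add_sub_cancel_left, u1_sq_smul] at h4
  change c * sq D ≤ u1B C (t⁻¹ • (W (A0 + t • D) - W A0))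
  rw [u1_smul, inv_pow, ← div_eq_inv_mul, le_div_iff₀ (by positivity)]
  linarith

theorem udata_of_point {n : ℕ} {I : Type} [Fintype I] {e : Fin n → I}
    {W : Mat n → I → Fin 2 → ℝ} (hW : ContDiff ℝ 1 W) (he : ∀ X i j, W X (e i) j = X i j)
    {K : Set (Mat n)} (hK : ∃ R : ℝ, ∀ X ∈ K, ‖X‖ ≤ R) (A0 : Mat n) (C : I → I → ℝ)
    (c r : ℝ) (hc : 0 < c) (hr : 0 < r)
    (h : ∀ X : Mat n, (X ∈ K ∨ ‖X - A0‖ < r) →
      c * sq (X - A0) ≤ ∑ p, ∑ q, C p q * minor (W X - W A0) p q) :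
    ∃ c' ρ : ℝ, UData e W K A0 C c' ρ := by
  have hN := u1_lin hW A0 C c r hr fun X hX => h X (Or.inr hX)
  set φ : Mat n →L[ℝ] (I → Fin 2 → ℝ) := fderiv ℝ W A0 with hφ
  set M' : ℝ := 4 * ∑ p, ∑ q, |C p q| with hM'
  have hM'0 : 0 ≤ M' := by
    have : 0 ≤ ∑ p, ∑ q, |C p q| :=
      Finset.sum_nonneg fun p _ => Finset.sum_nonneg fun q _ => abs_nonneg _
    linarith
  set m : ℝ := ‖φ‖ with hm
  have hm0 : 0 ≤ m := norm_nonneg _
  set η : ℝ := min 1 (c / (2 * (M' * (m + 1) + 1))) with hη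
  have hη0 : 0 < η := lt_min one_pos (by positivity)
  have hη1 : η ≤ 1 := min_le_left _ _
  have hη2 : M' * (m * η + η ^ 2) ≤ c / 2 := by
    have h1 : η ≤ c / (2 * (M' * (m + 1) + 1)) := min_le_right _ _
    rw [le_div_iff₀ (by positivity)] at h1
    have h2 : m * η + η ^ 2 ≤ (m + 1) * η := by nlinarith
    have h3 : M' * (m * η + η ^ 2) ≤ M' * ((m + 1) * η) := mul_le_mul_of_nonneg_left h2 hM'0
    nlinarith
  -- a perturbation of the linear estimate
  have hnear : ∀ (D : Mat n) (P : I → Fin 2 → ℝ), ‖P - φ D‖ ≤ η * ‖D‖ →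
      c / 2 * sq D ≤ u1B C P := by
    intro D P hP
    have h1 := u1_add C (φ D) (P - φ D)
    rw [add_sub_cancel] at h1
    have h2 : ‖φ D‖ ≤ m * ‖D‖ := φ.le_opNorm D
    have h3 := hN D
    have h4 := (norm_sq_le D).1
    have hD := norm_nonneg D
    have h5 : ‖φ D‖ * ‖P - φ D‖ ≤ (m * ‖D‖) * (η * ‖D‖) :=
      mul_le_mul h2 hP (norm_nonneg _) (by positivity)
    have h6 : ‖P - φ D‖ ^ 2 ≤ (η * ‖D‖) ^ 2 := pow_le_pow_left₀ (norm_nonneg _) hP 2
    have h7 : M' * (‖φ D‖ * ‖P - φ D‖ + ‖P - φ D‖ ^ 2) ≤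
        M' * (m * η + η ^ 2) * ‖D‖ ^ 2 := by
      have h8 : M' * (‖φ D‖ * ‖P - φ D‖ + ‖P - φ D‖ ^ 2) ≤
          M' * ((m * ‖D‖) * (η * ‖D‖) + (η * ‖D‖) ^ 2) :=
        mul_le_mul_of_nonneg_left (add_le_add h5 h6) hM'0
      have h9 : M' * ((m * ‖D‖) * (η * ‖D‖) + (η * ‖D‖) ^ 2) =
          M' * (m * η + η ^ 2) * ‖D‖ ^ 2 := by ring
      linarith
    have h8 : M' * (m * η + η ^ 2) * ‖D‖ ^ 2 ≤ c / 2 * sq D := by
      have h9 : M' * (m * η + η ^ 2) * ‖D‖ ^ 2 ≤ c / 2 * ‖D‖ ^ 2 :=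
        mul_le_mul_of_nonneg_right hη2 (sq_nonneg _)
      have h10 : c / 2 * ‖D‖ ^ 2 ≤ c / 2 * sq D := mul_le_mul_of_nonneg_left h4 (by positivity)
      linarith
    have h9 := (abs_le.1 h1).1
    linarith
  -- the radius
  have hdc : Continuous (fderiv ℝ W) := hW.continuous_fderiv one_ne_zero
  obtain ⟨t0, ht0, ht0'⟩ := Metric.continuousAt_iff.1 (hdc.continuousAt (x := A0)) η hη0
  set t : ℝ := t0 / 2 with ht
  have htpos : 0 < t := by positivity
  have htd : ∀ B, ‖B - A0‖ ≤ t → ‖fderiv ℝ W B - φ‖ ≤ η := by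
    intro B hB
    have h1 := ht0' (x := B) (by rw [dist_eq_norm]; linarith)
    rw [dist_eq_norm] at h1
    exact h1.le
  have hlip : ∀ A X : Mat n, ‖A - A0‖ ≤ t → ‖X - A0‖ ≤ t →
      ‖W X - W A - φ (X - A)‖ ≤ η * ‖X - A‖ := by
    intro A X hA hX
    refine (convex_closedBall A0 t).norm_image_sub_le_of_norm_fderiv_le' (𝕜 := ℝ)
      (fun B _ => hW.differentiable one_ne_zero B) (fun B hB => htd B ?_) ?_ ?_
    · rw [← dist_eq_norm]
      exact hB
    · rw [Metric.mem_closedBall, dist_eq_norm]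
      exact hA
    · rw [Metric.mem_closedBall, dist_eq_norm]
      exact hX
  obtain ⟨R, hR⟩ := hK
  -- uniform continuity for the far points
  have hFc : Continuous (fun p : Mat n × Mat n =>
      u1B C (W p.2 - W p.1) - c / 2 * sq (p.2 - p.1)) := by
    have h1 : Continuous (fun p : Mat n × Mat n => W p.2 - W p.1) :=
      (hW.continuous.comp continuous_snd).sub (hW.continuous.comp continuous_fst)
    have h2 : Continuous (fun p : Mat n × Mat n => p.2 - p.1) :=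
      continuous_snd.sub continuous_fst
    exact ((u1_cont C).comp h1).sub (continuous_const.mul (u1_sq_cont.comp h2))
  have hcomp : IsCompact (Metric.closedBall A0 1 ×ˢ Metric.closedBall (0 : Mat n) R) :=
    (isCompact_closedBall _ _).prod (isCompact_closedBall _ _)
  have huc := hcomp.uniformContinuousOn_of_continuous hFc.continuousOn
  rw [Metric.uniformContinuousOn_iff] at huc
  obtain ⟨ρ1, hρ1, huc⟩ := huc (c / 2 * t ^ 2) (by positivity)
  set ρ : ℝ := min (min t 1) (ρ1 / 2) with hρ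
  have hρ0 : 0 < ρ := lt_min (lt_min htpos one_pos) (by positivity)
  have hρt : ρ ≤ t := (min_le_left _ _).trans (min_le_left _ _)
  have hρ1' : ρ ≤ 1 := (min_le_left _ _).trans (min_le_right _ _)
  have hρ2 : ρ < ρ1 := by
    have : ρ ≤ ρ1 / 2 := min_le_right _ _
    linarith
  refine ⟨c / 2, ρ, ⟨hW, he, by positivity, hρ0, ⟨R, hR⟩, ?_, ?_⟩⟩
  · intro A hA X hX
    by_cases hXt : ‖X - A0‖ ≤ t
    · exact hnear (X - A) (W X - W A) (hlip A X (hA.trans hρt) hXt)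
    · rw [not_le] at hXt
      have hXR : X ∈ Metric.closedBall (0 : Mat n) R := by
        rw [Metric.mem_closedBall, dist_zero_right]
        exact hR X hX
      have h1 := huc (A, X) ⟨by
          rw [Metric.mem_closedBall, dist_eq_norm]
          exact hA.trans hρ1', hXR⟩ (A0, X) ⟨Metric.mem_closedBall_self zero_le_one, hXR⟩ (by
          rw [Prod.dist_eq, dist_self, max_eq_left dist_nonneg, dist_eq_norm]
          exact lt_of_le_of_lt hA hρ2)
      rw [Real.dist_eq, abs_lt] at h1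
      have h2 := h X (Or.inl hX)
      have h3 : t ^ 2 ≤ sq (X - A0) :=
        (pow_le_pow_left₀ htpos.le hXt.le 2).trans (norm_sq_le (X - A0)).1
      have h4 : c / 2 * t ^ 2 ≤ c / 2 * sq (X - A0) := mul_le_mul_of_nonneg_left h3 (by positivity)
      have h5 : c * sq (X - A0) ≤ u1B C (W X - W A0) := h2
      have h6 := h1.1
      simp only at h6
      change c / 2 * sq (X - A) ≤ u1B C (W X - W A)
      linarith
  · intro A hA D
    refine hnear D (fderiv ℝ W A D) ?_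
    have h1 := (fderiv ℝ W A - φ).le_opNorm D
    have h2 := mul_le_mul_of_nonneg_right (htd A (hA.trans hρt)) (norm_nonneg D)
    exact h1.trans h2

end Pool.Agent.SLG
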