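import Pool.Agent.SLG.R2
import Pool.Agent.SLG.T6
import Pool.Agent.SLG.U1
import Pool.Agent.SLG.U2

/-!
ROW F1 (the criterion: two-point condition implies partial regularity).
(1) Extend `u` to a Lipschitz map `ū : E2 → Fin n → ℝ` with `ū = u` on `Ω`
(`LipschitzOnWith.extend_pi`).  On the open set `Ω` the two maps have the same Fréchet derivative,
so `Stationary f Ω ū`, `Jac ū x ∈ K` a.e. on `Ω`, and it is enough to prove
`PartiallyRegular Ω ū` (`ContDiffOn.congr` on a subset of `Ω`).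
(2) `‖Jac ū x‖ ≤ L` for all `x` (`norm_fderiv_le_of_lipschitz`, `‖ee j‖ = 1`), so with
`K' := K ∩ closedBall 0 L` we have `Jac ū x ∈ K'` a.e., `K'` is bounded, and `TwoPoint f K'`
(restrict the condition).
(3) `Ω₀ := {x ∈ Ω | ∃ r > 0, ball x r ⊆ Ω ∧ ContDiffOn ℝ 1 ū (ball x r)}` is open, contained in
`Ω`, and `ContDiffOn ℝ 1 ū Ω₀` (local property: `ContDiffOn` on open sets is
`ContDiffAt` at each point).
(4) `volume (Ω \ Ω₀) = 0`: by `measure_null_of_locally_null` (or a countable cover) it suffices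
that each `x0 ∈ Ω` has a ball `ball x0 (R/2)` with `volume (ball x0 (R/2) \ Ω₀) = 0`, where
`ball x0 R ⊆ Ω`.  `lift_exists` gives `w`.  For a.e. `x ∈ ball x0 (R/2)`: `uJac inl w x = Jac ū x
∈ K'`, `grad w x = Wf f (Jac ū x)`, and all `w i` are differentiable at `x` (Rademacher).  At such
an `x` put `A0 := Jac ū x ∈ K'`; `TwoPoint f K'` and `udata_of_point` (with `W = Wf f`,
`e = Sum.inl`, `Wf_contDiff`) give `UData`; `local_reg` with `O = ball x0 (R/2)` and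
`Incl Sum.inl (Wf f) K' w O` gives a ball around `x` on which all `u_i` are `C¹`
(`contDiffOn_pi`), so `x ∈ Ω₀`.
-/

namespace Pool.Agent.SLG

open MeasureTheory

theorem f1_ee (j : Fin 2) : ‖ee j‖ = 1 := by
  simp [ee]

theorem f1_jac_bound {n : ℕ} {u : E2 → Fin n → ℝ} {L : NNReal} (hu : LipschitzWith L u)
    (x : E2) : ‖Jac u x‖ ≤ L := by
  have h1 : ‖fderiv ℝ u x‖ ≤ L := norm_fderiv_le_of_lipschitz ℝ hu
  rw [pi_norm_le_iff_of_nonneg L.coe_nonneg]
  intro i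
  rw [pi_norm_le_iff_of_nonneg L.coe_nonneg]
  intro j
  calc ‖Jac u x i j‖ ≤ ‖fderiv ℝ u x (ee j)‖ := norm_le_pi_norm (fderiv ℝ u x (ee j)) i
    _ ≤ ‖fderiv ℝ u x‖ * ‖ee j‖ := ContinuousLinearMap.le_opNorm _ _
    _ = ‖fderiv ℝ u x‖ := by rw [f1_ee, mul_one]
    _ ≤ L := h1

theorem f1_global {n : ℕ} (f : Mat n → ℝ) (hf : ContDiff ℝ 2 f) (K : Set (Mat n))
    (hK : TwoPoint f K) (Ω : Set E2) (hΩ : IsOpen Ω) (u : E2 → Fin n → ℝ) (L : NNReal)
    (hu : LipschitzWith L u) (hs : Stationary f Ω u)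
    (hJ : ∀ᵐ x ∂(volume.restrict Ω), Jac u x ∈ K) : PartiallyRegular Ω u := by
  set K' : Set (Mat n) := K ∩ {X | ‖X‖ ≤ L} with hK'
  refine ⟨{x | x ∈ Ω ∧ ∃ r : ℝ, 0 < r ∧ Metric.ball x r ⊆ Ω ∧
    ContDiffOn ℝ 1 u (Metric.ball x r)}, ?_, fun x hx => hx.1, ?_, ?_⟩
  · rw [Metric.isOpen_iff]
    rintro x ⟨_, r, hr, hb, hc⟩
    refine ⟨r, hr, fun y hy => ?_⟩
    have hsub : Metric.ball y (r - dist y x) ⊆ Metric.ball x r :=
      Metric.ball_subset_ball' (by linarith)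
    rw [Metric.mem_ball] at hy
    exact ⟨hb hy, r - dist y x, by linarith, hsub.trans hb, hc.mono hsub⟩
  · apply measure_null_of_locally_null
    rintro x0 ⟨hx0, -⟩
    obtain ⟨R, hR, hb⟩ := Metric.isOpen_iff.mp hΩ x0 hx0
    obtain ⟨w, hw, hwu, hae⟩ := lift_exists hf hu hΩ hs x0 R hR hb
    have hR2 : 0 < R / 2 := by linarith
    have hb2 : Metric.ball x0 (R / 2) ⊆ Ω :=
      (Metric.ball_subset_ball (by linarith)).trans hb
    have hJ2 : ∀ᵐ x ∂(volume.restrict (Metric.ball x0 (R / 2))), Jac u x ∈ K' := by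
      filter_upwards [ae_restrict_of_ae_restrict_of_subset hb2 hJ] with x hx
      exact ⟨hx, f1_jac_bound hu x⟩
    have hdiff : ∀ᵐ x ∂(volume : Measure E2), ∀ i, DifferentiableAt ℝ (w i) x := by
      rw [ae_all_iff]
      intro i
      obtain ⟨L', hL'⟩ := hw i
      exact hL'.ae_differentiableAt
    have hI : Incl Sum.inl (Wf f) K' w (Metric.ball x0 (R / 2)) := by
      unfold Incl
      filter_upwards [hae, hJ2] with x h1 h2
      rw [h1.1]
      exact ⟨h2, h1.2⟩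
    have hall : ∀ᵐ x ∂(volume.restrict (Metric.ball x0 (R / 2))),
        x ∈ Metric.ball x0 (R / 2) → ∃ r : ℝ, 0 < r ∧ Metric.ball x r ⊆ Ω ∧
          ContDiffOn ℝ 1 u (Metric.ball x r) := by
      filter_upwards [hae, hJ2, ae_restrict_of_ae hdiff] with x h1 h2 h3 hx
      obtain ⟨C, c, hc, r, hr, h⟩ := hK (Jac u x) h2.1
      obtain ⟨c', ρ, D⟩ := udata_of_point (e := Sum.inl) (K := K') (Wf_contDiff hf)
        (fun X i j => rfl) ⟨L, fun X hX => hX.2⟩ (Jac u x) C c r hc hr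
        (fun X hX => h X (hX.imp (fun hX => hX.1) id))
      obtain ⟨r', hr', hsub, hcd⟩ := local_reg D w hw (Metric.ball x0 (R / 2))
        Metric.isOpen_ball hI x hx h3 h1.2
      refine ⟨r', hr', hsub.trans hb2, ?_⟩
      rw [contDiffOn_pi]
      intro i
      have := hcd i
      have e : w (Sum.inl i) = fun x => u x i := funext fun x => hwu i x
      rwa [e] at this
    rw [ae_restrict_iff' measurableSet_ball, ae_iff] at hall
    refine ⟨{a | ¬(a ∈ Metric.ball x0 (R / 2) → a ∈ Metric.ball x0 (R / 2) →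
      ∃ r : ℝ, 0 < r ∧ Metric.ball a r ⊆ Ω ∧ ContDiffOn ℝ 1 u (Metric.ball a r))}, ?_, hall⟩
    have hball : Metric.ball x0 (R / 2) ∈ nhds x0 := Metric.ball_mem_nhds x0 hR2
    filter_upwards [mem_nhdsWithin_of_mem_nhds hball, self_mem_nhdsWithin] with y hy1 hy2
    intro hcon
    exact hy2.2 ⟨hy2.1, hcon hy1 hy1⟩
  · intro x hx
    obtain ⟨_, r, hr, _, hc⟩ := hx
    exact (hc.contDiffAt (Metric.ball_mem_nhds x hr)).contDiffWithinAt

theorem f1_jac_eq {n : ℕ} {Ω : Set E2} (hΩ : IsOpen Ω) {u v : E2 → Fin n → ℝ}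
    (h : Set.EqOn u v Ω) {x : E2} (hx : x ∈ Ω) : Jac v x = Jac u x := by
  have h1 : u =ᶠ[nhds x] v := by
    filter_upwards [hΩ.mem_nhds hx] with y hy
    exact h hy
  unfold Jac
  rw [h1.fderiv_eq]

theorem criterion {n : ℕ} (f : Mat n → ℝ) (hf : ContDiff ℝ 2 f) (K : Set (Mat n))
    (hK : TwoPoint f K) (Ω : Set E2) (hΩ : IsOpen Ω) (u : E2 → Fin n → ℝ) (L : NNReal)
    (hu : LipschitzOnWith L u Ω) (hs : Stationary f Ω u)
    (hJ : ∀ᵐ x ∂(volume.restrict Ω), Jac u x ∈ K) : PartiallyRegular Ω u := by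
  obtain ⟨v, hv, huv⟩ := hu.extend_pi
  have hst : Stationary f Ω v := by
    refine ⟨fun φ h1 h2 h3 => ?_, fun Φ h1 h2 h3 => ?_⟩
    · rw [← hs.1 φ h1 h2 h3]
      apply setIntegral_congr_fun hΩ.measurableSet
      intro x hx
      show (∑ i, ∑ j, Grd f (Jac v x) i j * Jac φ x i j) =
        ∑ i, ∑ j, Grd f (Jac u x) i j * Jac φ x i j
      rw [f1_jac_eq hΩ huv hx]
    · rw [← hs.2 Φ h1 h2 h3]
      apply setIntegral_congr_fun hΩ.measurableSet
      intro x hx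
      show (f (Jac v x) * (∑ k, Jac Φ x k k)
        - ∑ i, ∑ j, Grd f (Jac v x) i j * ∑ k, Jac v x i k * Jac Φ x k j) =
        (f (Jac u x) * (∑ k, Jac Φ x k k)
        - ∑ i, ∑ j, Grd f (Jac u x) i j * ∑ k, Jac u x i k * Jac Φ x k j)
      rw [f1_jac_eq hΩ huv hx]
  have hJv : ∀ᵐ x ∂(volume.restrict Ω), Jac v x ∈ K := by
    filter_upwards [hJ, ae_restrict_mem hΩ.measurableSet] with x hx hxΩ
    rwa [f1_jac_eq hΩ huv hxΩ]
  obtain ⟨Ω₀, ho, hsub, hnull, hc⟩ := f1_global f hf K hK Ω hΩ v L hv hst hJv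
  exact ⟨Ω₀, ho, hsub, hnull, hc.congr fun x hx => huv (hsub hx)⟩

end Pool.Agent.SLG
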