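import Pool.Agent.SLG.Defs2
import Pool.Agent.SLG.U1
import Pool.Agent.SLG.U2

/-!
ROW G1 (the two-point condition holds uniformly on compact sets).
For `A0 ∈ K` take `C, c, r` from `TwoPoint` and put `K̃ := K ∪ ball A0 r` (bounded).
`udata_of_point` with `W = Wf f`, `e = Sum.inl`, `K̃`, gives `c', ρ` with `UData ... K̃ A0 C c' ρ`;
its field `two` says `c' sq (X - A) ≤ ∑ C minor (Wf f X - Wf f A)` for `‖A - A0‖ ≤ ρ` and
`X ∈ K ∪ ball A0 r`.  Put `ρ' := min ρ (r/2)`: for `‖A - A0‖ ≤ ρ'` and `‖X - A‖ < r/2` we have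
`X ∈ ball A0 r`.  So on `closedBall A0 ρ'` the condition holds with the constants `c'`, `r/2`,
`C`.  Cover the compact `K` by finitely many balls `ball A0 ρ'` (`IsCompact.elim_nhds_subcover` or
`elim_finite_subcover`) and take the minimum of the `c'` and of the `r/2` and the maximum of
`max |C p q|` (use `sq ≥ 0` when decreasing `c'`).  If `K` is empty everything is trivial.
-/

namespace Pool.Agent.SLG

open MeasureTheory

theorem g1_sq_nonneg {I : Type} [Fintype I] (M : I → Fin 2 → ℝ) : 0 ≤ sq M :=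
  Finset.sum_nonneg fun _ _ => Finset.sum_nonneg fun _ _ => sq_nonneg _

/-- The uniform condition for base points in `s`. -/
def g1_P {n : ℕ} (f : Mat n → ℝ) (K s : Set (Mat n)) : Prop :=
  ∃ c r M : ℝ, 0 < c ∧ 0 < r ∧ 0 < M ∧ ∀ A ∈ s, ∃ C : Idx n → Idx n → ℝ,
    (∀ p q, |C p q| ≤ M) ∧ ∀ X : Mat n, (X ∈ K ∨ ‖X - A‖ < r) →
      c * sq (X - A) ≤ ∑ p, ∑ q, C p q * minor (Wf f X - Wf f A) p q

theorem g1_bound {I J : Type} [Fintype I] [Fintype J] (C : I → J → ℝ) :
    ∃ M : ℝ, 0 < M ∧ ∀ p q, |C p q| ≤ M := by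
  refine ⟨(∑ p, ∑ q, |C p q|) + 1, ?_, fun p q => ?_⟩
  · have : 0 ≤ ∑ p, ∑ q, |C p q| :=
      Finset.sum_nonneg fun _ _ => Finset.sum_nonneg fun _ _ => abs_nonneg _
    linarith
  · have h1 : |C p q| ≤ ∑ q, |C p q| :=
      Finset.single_le_sum (f := fun q => |C p q|) (fun _ _ => abs_nonneg _) (Finset.mem_univ q)
    have h2 : (∑ q, |C p q|) ≤ ∑ p, ∑ q, |C p q| :=
      Finset.single_le_sum (f := fun p => ∑ q, |C p q|)
        (fun _ _ => Finset.sum_nonneg fun _ _ => abs_nonneg _) (Finset.mem_univ p)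
    linarith

theorem two_uniform {n : ℕ} {f : Mat n → ℝ} (hf : ContDiff ℝ 2 f) {K : Set (Mat n)}
    (hK : IsCompact K) (hT : TwoPoint f K) :
    ∃ c r M : ℝ, 0 < c ∧ 0 < r ∧ 0 < M ∧ ∀ A ∈ K, ∃ C : Idx n → Idx n → ℝ,
      (∀ p q, |C p q| ≤ M) ∧ ∀ X : Mat n, (X ∈ K ∨ ‖X - A‖ < r) →
        c * sq (X - A) ≤ ∑ p, ∑ q, C p q * minor (Wf f X - Wf f A) p q := by
  obtain ⟨R, hR⟩ := hK.isBounded.exists_norm_le
  suffices h : g1_P f K K from h
  apply hK.induction_on (p := g1_P f K)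
  · exact ⟨1, 1, 1, one_pos, one_pos, one_pos, fun A hA => absurd hA (Set.notMem_empty A)⟩
  · intro s t hst h
    obtain ⟨c, r, M, hc, hr, hM, h⟩ := h
    exact ⟨c, r, M, hc, hr, hM, fun A hA => h A (hst hA)⟩
  · intro s t hs ht
    obtain ⟨c1, r1, M1, hc1, hr1, hM1, h1⟩ := hs
    obtain ⟨c2, r2, M2, hc2, hr2, hM2, h2⟩ := ht
    refine ⟨min c1 c2, min r1 r2, max M1 M2, lt_min hc1 hc2, lt_min hr1 hr2,
      lt_max_of_lt_left hM1, fun A hA => ?_⟩
    rcases hA with hA | hA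
    · obtain ⟨C, hC, h⟩ := h1 A hA
      refine ⟨C, fun p q => (hC p q).trans (le_max_left _ _), fun X hX => ?_⟩
      have := h X (hX.imp id fun hX => hX.trans_le (min_le_left _ _))
      have h3 : min c1 c2 * sq (X - A) ≤ c1 * sq (X - A) :=
        mul_le_mul_of_nonneg_right (min_le_left _ _) (g1_sq_nonneg _)
      linarith
    · obtain ⟨C, hC, h⟩ := h2 A hA
      refine ⟨C, fun p q => (hC p q).trans (le_max_right _ _), fun X hX => ?_⟩
      have := h X (hX.imp id fun hX => hX.trans_le (min_le_right _ _))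
      have h3 : min c1 c2 * sq (X - A) ≤ c2 * sq (X - A) :=
        mul_le_mul_of_nonneg_right (min_le_right _ _) (g1_sq_nonneg _)
      linarith
  · intro A0 hA0
    obtain ⟨C, c, hc, r, hr, h⟩ := hT A0 hA0
    have hb : ∃ R' : ℝ, ∀ X ∈ K ∪ Metric.ball A0 r, ‖X‖ ≤ R' := by
      refine ⟨max R (‖A0‖ + r), fun X hX => ?_⟩
      rcases hX with hX | hX
      · exact (hR X hX).trans (le_max_left _ _)
      · have h1 : ‖X‖ ≤ ‖A0‖ + ‖X - A0‖ := by
          calc ‖X‖ = ‖A0 + (X - A0)‖ := by congr 1; abel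
            _ ≤ ‖A0‖ + ‖X - A0‖ := norm_add_le _ _
        have h2 : ‖X - A0‖ < r := by rwa [← dist_eq_norm]
        exact le_trans (by linarith) (le_max_right _ _)
    obtain ⟨c', ρ, hU⟩ := udata_of_point (e := Sum.inl) (Wf_contDiff hf)
      (fun X i j => rfl) hb A0 C c r hc hr (by
        intro X hX
        apply h X
        rcases hX with (hX | hX) | hX
        · exact Or.inl hX
        · right; rwa [← dist_eq_norm]
        · exact Or.inr hX)
    obtain ⟨M, hM, hCM⟩ := g1_bound C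
    have hρ := hU.rpos
    refine ⟨Metric.ball A0 (min ρ (r / 2)) , mem_nhdsWithin_of_mem_nhds
      (Metric.ball_mem_nhds A0 (lt_min hρ (by linarith))), ?_⟩
    refine ⟨c', r / 2, M, hU.cpos, by linarith, hM, fun A hA => ⟨C, hCM, fun X hX => ?_⟩⟩
    rw [Metric.mem_ball, dist_eq_norm] at hA
    apply hU.two A (hA.le.trans (min_le_left _ _)) X
    rcases hX with hX | hX
    · exact Or.inl hX
    · right
      rw [Metric.mem_ball, dist_eq_norm]
      have h1 : ‖X - A0‖ ≤ ‖X - A‖ + ‖A - A0‖ := by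
        calc ‖X - A0‖ = ‖(X - A) + (A - A0)‖ := by congr 1; abel
          _ ≤ _ := norm_add_le _ _
      have h2 := hA.le.trans (min_le_right ρ (r / 2))
      linarith

end Pool.Agent.SLG
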