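import Pool.Agent.SLG.V8

set_option autoImplicit false

namespace Pool.Agent.Results.MP_73203d_an.GeneralCodimension

open MeasureTheory Pool.Agent.SLG

/-- Partial regularity, in every codimension, of all stationary Lipschitz maps `u` of the plane with
`κ |v|² ≤ |Du v|² ≤ m κ |v|²`, `m < 2`, for the integrands `γ/2 |X|² + g (√det (Xᵀ X)) + h`, where
`g` is an arbitrary convex `C²` function which is constant near `0` and `h` is small in `C²`. -/
theorem result {n : ℕ} (γ κ m : ℝ) (hγ : 0 < γ) (hκ : 0 < κ) (hm : m < 2) (g : ℝ → ℝ)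
    (hg : ConvexOn ℝ Set.univ g) (hg2 : ContDiff ℝ 2 g) (a : ℝ) (ha : 0 < a)
    (hc : ∀ s, s ≤ a → g s = g a) :
    ∃ ρ δ : ℝ, 0 < ρ ∧ 0 < δ ∧ ∀ h : Mat n → ℝ, ContDiff ℝ 2 h → SmallC2 ρ δ h →
      ∀ (Ω : Set E2) (u : E2 → Fin n → ℝ) (L : NNReal), IsOpen Ω → LipschitzOnWith L u Ω →
      Stationary (fun X => fCod γ g X + h X) Ω u →
      (∀ᵐ x ∂(volume.restrict Ω), Jac u x ∈ KCod κ m) → PartiallyRegular Ω u :=
  cod_regular γ κ m hγ hκ hm g hg hg2 a ha hc

end Pool.Agent.Results.MP_73203d_an.GeneralCodimension
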