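import Pool.Agent.SLG.F1
import Pool.Agent.SLG.G3
import Pool.Agent.SLG.B4
import Pool.Agent.SLG.C2

/-!
Assembly of the three results.
-/

namespace Pool.Agent.SLG

open MeasureTheory

/-- A two-point elliptic integrand on a compact set, with all small `C²` perturbations. -/
theorem stable_regular {n : ℕ} (f : Mat n → ℝ) (hf : ContDiff ℝ 2 f) (K : Set (Mat n))
    (hK : IsCompact K) (hT : TwoPoint f K) :
    ∃ R δ : ℝ, 0 < R ∧ 0 < δ ∧ ∀ h : Mat n → ℝ, ContDiff ℝ 2 h → SmallC2 R δ h →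
      ∀ (Ω : Set E2) (u : E2 → Fin n → ℝ) (L : NNReal), IsOpen Ω → LipschitzOnWith L u Ω →
      Stationary (fun X => f X + h X) Ω u →
      (∀ᵐ x ∂(volume.restrict Ω), Jac u x ∈ K) → PartiallyRegular Ω u := by
  obtain ⟨R, δ, hR, hδ, hst⟩ := two_stable hf hK hT
  refine ⟨R, δ, hR, hδ, fun h hh hs Ω u L hΩ hu hst' hJ => ?_⟩
  exact criterion _ (hf.add hh) K (hst h hh hs) Ω hΩ u L hu hst' hJ

theorem neo_regular (γ κ : ℝ) (hγ : 0 < γ) (hκ : 0 < κ) (g : ℝ → ℝ)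
    (hg : ConvexOn ℝ Set.univ g) (hg2 : ContDiff ℝ 2 g) :
    ∃ R δ : ℝ, 0 < R ∧ 0 < δ ∧ ∀ h : Mat 2 → ℝ, ContDiff ℝ 2 h → SmallC2 R δ h →
      ∀ (Ω : Set E2) (u : E2 → Fin 2 → ℝ) (L : NNReal), IsOpen Ω → LipschitzOnWith L u Ω →
      Stationary (fun X => fNeo γ g X + h X) Ω u →
      (∀ᵐ x ∂(volume.restrict Ω), Jac u x ∈ KNeo κ) → PartiallyRegular Ω u :=
  stable_regular (fNeo γ g) (fNeo_contDiff γ g hg2) (KNeo κ) (KNeo_compact κ)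
    (neo_two γ κ hγ hκ g hg hg2)

theorem inv_regular (γ α ε : ℝ) (hγ : 0 < γ) (hε : 0 < ε) (M : Mat 2) (G : Mat 2 × ℝ → ℝ)
    (hG : ContDiff ℝ 2 G) (hc : ConvexOn ℝ Set.univ G)
    (hinv : ∀ (X : Mat 2) (δ s : ℝ), G (X + s • cof2 M, δ - s * α) = G (X, δ))
    (K : Set (Mat 2)) (hKc : IsCompact K)
    (hK : ∀ A ∈ K, ∀ B ∈ K, ε ≤ α + ip (mP M) A + ip (mM M) B) :
    ∃ R δ : ℝ, 0 < R ∧ 0 < δ ∧ ∀ h : Mat 2 → ℝ, ContDiff ℝ 2 h → SmallC2 R δ h →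
      ∀ (Ω : Set E2) (u : E2 → Fin 2 → ℝ) (L : NNReal), IsOpen Ω → LipschitzOnWith L u Ω →
      Stationary (fun X => fInv γ G X + h X) Ω u →
      (∀ᵐ x ∂(volume.restrict Ω), Jac u x ∈ K) → PartiallyRegular Ω u :=
  stable_regular (fInv γ G) (fInv_contDiff γ G hG) K hKc
    (inv_two γ α ε hγ hε M G hG hc hinv K hK)

end Pool.Agent.SLG
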