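import Pool.Agent.SLG.S2

/-!
ROW L1 (differentiating the linear system; pointwise coercivity).

`lin_deriv`: `pd j (pds l (w i)) = pds l (pd j (w i))` (`pds_comm`), and
`pd j (w i) = fun x => app T (uJac e w x) i j + F i j x` by hypothesis; apply `pds_lin`
(to the finite sum over `k`, `m` and `F`; a sum over `Option (Fin n × Fin 2)` or two applications)
and `pds_comm` again for `pds l (pd m (w (e k))) = pd m (pds l (w (e k)))`.

`coer_pert`: pure algebra.  Put `D' = app T D`, `G` the perturbation, `|G i j| ≤ φ`.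
`minor (D' + G) p q = minor D' p q + (D' p 0 * G q 1 + G p 0 * D' q 1 - D' p 1 * G q 0
- G p 1 * D' q 0) + minor G p q`.  With `a = sqrt (sq D)`: `|D' i j| ≤ 2 n M a` (each of the
`2 n` terms is at most `M a`), so the perturbation of `∑ C minor` is at most
`N² M (8 n M a φ + 2 φ²)` with `N = card I`, and by AM-GM at most `(c/2) a² + K φ²`.  Hence
`(c/2) sq D ≤ ∑ C minor (D' + G) + K φ²`.  Finally `sq (D' + G) ≤ 2 sq D' + 2 sq G ≤
K'' (sq D + φ²)`, so `c' sq (D' + G) ≤ (c/2) sq D + (c/2) φ²` for `c' = c / (2 K'')`.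
(Use squares instead of square roots where convenient: `(D' i j)² ≤ 2 n M² sq D` by
Cauchy-Schwarz, `Finset.sum_mul_sq_le_sq_mul_sq`.)
-/

namespace Pool.Agent.SLG

open MeasureTheory

theorem lin_deriv {n : ℕ} {I : Type} [Fintype I] (e : Fin n → I) (T : Lin n I)
    (w : I → E2 → ℝ) (F : I → Fin 2 → E2 → ℝ)
    (hw : ∀ i, ContDiff ℝ ((⊤ : ℕ∞) : WithTop ℕ∞) (w i))
    (hF : ∀ i j, ContDiff ℝ ((⊤ : ℕ∞) : WithTop ℕ∞) (F i j))
    (heq : ∀ x i j, pd j (w i) x = app T (uJac e w x) i j + F i j x) (l : List (Fin 2)) :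
    ∀ x i j, pd j (pds l (w i)) x =
      app T (uJac e (fun i => pds l (w i)) x) i j + pds l (F i j) x := by
  intro x i j
  have hu : ∀ x k m, uJac e w x k m = pd m (w (e k)) x := fun _ _ _ => rfl
  set a : Option (Fin n × Fin 2) → ℝ := fun o => o.elim 1 (fun p => T i j p.1 p.2) with ha
  set g : Option (Fin n × Fin 2) → E2 → ℝ := fun o => o.elim (F i j) (fun p => pd p.2 (w (e p.1))) with hg
  have hg1 : ∀ o ∈ (Finset.univ : Finset (Option (Fin n × Fin 2))),
      ContDiff ℝ ((⊤ : ℕ∞) : WithTop ℕ∞) (g o) := by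
    intro o _
    cases o with
    | none => exact hF i j
    | some p => exact s2_pd (hw _) _
  have e1 : pd j (w i) = fun x => ∑ o : Option (Fin n × Fin 2), a o * g o x := by
    funext y
    rw [heq y i j, Fintype.sum_option, Fintype.sum_prod_type]
    simp only [ha, hg, Option.elim_none, Option.elim_some, one_mul]
    unfold app
    simp only [hu]
    ring
  rw [pds_comm (hw i) l j, e1, pds_lin Finset.univ a g hg1 l]
  show ∑ o : Option (Fin n × Fin 2), a o * pds l (g o) x = _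
  rw [Fintype.sum_option, Fintype.sum_prod_type]
  simp only [ha, hg, Option.elim_none, Option.elim_some, one_mul]
  unfold app uJac
  have e2 : ∀ k m, pds l (pd m (w (e k))) x = pd m (pds l (w (e k))) x := by
    intro k m
    rw [pds_comm (hw _) l m]
  simp only [e2]
  ring

theorem l1_sq {I : Type} [Fintype I] (D : I → Fin 2 → ℝ) : 0 ≤ sq D :=
  Finset.sum_nonneg fun i _ => Finset.sum_nonneg fun j _ => sq_nonneg _

theorem l1_app {n : ℕ} {I : Type} {M : ℝ} (hM : 0 ≤ M) (T : Lin n I)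
    (hT : ∀ i j k m, |T i j k m| ≤ M) (D : Mat n) (i : I) (j : Fin 2) :
    (app T D i j) ^ 2 ≤ 2 * n * M ^ 2 * sq D := by
  have e1 : app T D i j = ∑ p : Fin n × Fin 2, T i j p.1 p.2 * D p.1 p.2 := by
    rw [Fintype.sum_prod_type]
    rfl
  have e2 : sq D = ∑ p : Fin n × Fin 2, (D p.1 p.2) ^ 2 := by
    rw [Fintype.sum_prod_type]
    rfl
  have h1 := Finset.sum_mul_sq_le_sq_mul_sq (Finset.univ : Finset (Fin n × Fin 2))
    (fun p => T i j p.1 p.2) (fun p => D p.1 p.2)
  have h2 : ∑ p : Fin n × Fin 2, (T i j p.1 p.2) ^ 2 ≤ 2 * n * M ^ 2 := by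
    calc ∑ p : Fin n × Fin 2, (T i j p.1 p.2) ^ 2 ≤ ∑ p : Fin n × Fin 2, M ^ 2 := by
          refine Finset.sum_le_sum fun p _ => ?_
          rw [← sq_abs]
          exact pow_le_pow_left₀ (abs_nonneg _) (hT i j p.1 p.2) 2
      _ = 2 * n * M ^ 2 := by
          simp only [Finset.sum_const, Finset.card_univ, Fintype.card_prod, Fintype.card_fin, nsmul_eq_mul]
          push_cast
          ring
  rw [e1]
  refine h1.trans ?_
  rw [← e2]
  exact mul_le_mul_of_nonneg_right h2 (l1_sq D)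

theorem coer_pert (n : ℕ) (I : Type) [Fintype I] (c M : ℝ) (hc : 0 < c) (hM : 0 ≤ M) :
    ∃ c' K : ℝ, 0 < c' ∧ 0 < K ∧ ∀ C : I → I → ℝ, (∀ p q, |C p q| ≤ M) →
      ∀ T : Lin n I, (∀ i j k m, |T i j k m| ≤ M) →
      (∀ D : Mat n, c * sq D ≤ ∑ p, ∑ q, C p q * minor (app T D) p q) →
      ∀ (D : Mat n) (G : I → Fin 2 → ℝ) (φ : ℝ), 0 ≤ φ → (∀ i j, |G i j| ≤ φ) →
        c' * sq (app T D + G) ≤ (∑ p, ∑ q, C p q * minor (app T D + G) p q) + K * φ ^ 2 := by
  set N : ℝ := (Fintype.card I : ℝ) with hN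
  have hN0 : 0 ≤ N := by positivity
  set B : ℝ := 2 * n * M ^ 2 with hB
  have hB0 : 0 ≤ B := by positivity
  set t : ℝ := c / (8 * (N ^ 2 * M * B) + 8) with ht
  have ht0 : 0 < t := by positivity
  refine ⟨(c / 2) / (4 * N * (B + 1) + 1), N ^ 2 * M * (1 / t + 2) + c / 2, by positivity, by positivity, ?_⟩
  intro C hC T hT hco D G φ hφ hG
  have hS := l1_sq D
  set D' := app T D with hD'
  have hDb : ∀ i j, (D' i j) ^ 2 ≤ B * sq D := fun i j => l1_app hM T hT D i j
  have hmix : ∀ i j, |D' i j| * φ ≤ t * (B * sq D) + φ ^ 2 / (4 * t) := by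
    intro i j
    have h1 : |D' i j| * φ ≤ t * |D' i j| ^ 2 + φ ^ 2 / (4 * t) := by
      have h2 : 0 ≤ (2 * t * |D' i j| - φ) ^ 2 / (4 * t) := by positivity
      have h3 : (2 * t * |D' i j| - φ) ^ 2 / (4 * t) = t * |D' i j| ^ 2 - |D' i j| * φ + φ ^ 2 / (4 * t) := by
        field_simp
        ring
      linarith
    rw [sq_abs] at h1
    have h4 : t * (D' i j) ^ 2 ≤ t * (B * sq D) := mul_le_mul_of_nonneg_left (hDb i j) ht0.le
    linarith
  have hpq : ∀ p q, C p q * minor D' p q - C p q * minor (D' + G) p q ≤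
      M * (4 * t * (B * sq D) + φ ^ 2 / t + 2 * φ ^ 2) := by
    intro p q
    have e1 : C p q * minor D' p q - C p q * minor (D' + G) p q =
        -(C p q * (D' p 0 * G q 1 + G p 0 * D' q 1 - D' p 1 * G q 0 - G p 1 * D' q 0
          + G p 0 * G q 1 - G p 1 * G q 0)) := by
      unfold minor
      simp only [Pi.add_apply]
      ring
    rw [e1]
    refine (neg_le_abs _).trans ?_
    rw [abs_mul]
    have hGi : ∀ a b i j, |D' a b * G i j| ≤ |D' a b| * φ := by
      intro a b i j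
      rw [abs_mul]
      exact mul_le_mul_of_nonneg_left (hG i j) (abs_nonneg _)
    have hGG : ∀ a b i j, |G a b * G i j| ≤ φ ^ 2 := by
      intro a b i j
      rw [abs_mul, pow_two]
      exact mul_le_mul (hG a b) (hG i j) (abs_nonneg _) hφ
    have h1 := (hGi p 0 q 1).trans (hmix p 0)
    have h2 := (hGi q 1 p 0).trans (hmix q 1)
    have h3 := (hGi p 1 q 0).trans (hmix p 1)
    have h4 := (hGi q 0 p 1).trans (hmix q 0)
    have h5 := hGG p 0 q 1
    have h6 := hGG p 1 q 0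
    rw [abs_le] at h1 h2 h3 h4 h5 h6
    have h7 : φ ^ 2 / t = 4 * (φ ^ 2 / (4 * t)) := by field_simp
    have h8 : |D' p 0 * G q 1 + G p 0 * D' q 1 - D' p 1 * G q 0 - G p 1 * D' q 0
          + G p 0 * G q 1 - G p 1 * G q 0| ≤ 4 * t * (B * sq D) + φ ^ 2 / t + 2 * φ ^ 2 := by
      rw [h7, abs_le]
      constructor
      · linarith [h1.1, h2.1, h3.2, h4.2, h5.1, h6.2, mul_comm (G p 0) (D' q 1), mul_comm (G p 1) (D' q 0)]
      · linarith [h1.2, h2.2, h3.1, h4.1, h5.2, h6.1, mul_comm (G p 0) (D' q 1), mul_comm (G p 1) (D' q 0)]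
    exact mul_le_mul (hC p q) h8 (abs_nonneg _) hM
  have hsum : (∑ p, ∑ q, C p q * minor D' p q) - (∑ p, ∑ q, C p q * minor (D' + G) p q) ≤
      N ^ 2 * (M * (4 * t * (B * sq D) + φ ^ 2 / t + 2 * φ ^ 2)) := by
    rw [← Finset.sum_sub_distrib]
    simp only [← Finset.sum_sub_distrib]
    calc _ ≤ ∑ p : I, ∑ q : I, M * (4 * t * (B * sq D) + φ ^ 2 / t + 2 * φ ^ 2) :=
          Finset.sum_le_sum fun p _ => Finset.sum_le_sum fun q _ => hpq p q
      _ = _ := by
          simp only [Finset.sum_const, Finset.card_univ, nsmul_eq_mul]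
          rw [hN]
          ring
  have hco' := hco D
  have ht4 : N ^ 2 * M * B * (4 * t) ≤ c / 2 := by
    have h1 : N ^ 2 * M * B * (4 * t) = c / 2 * ((8 * (N ^ 2 * M * B)) / (8 * (N ^ 2 * M * B) + 8)) := by
      rw [ht]
      field_simp
      ring
    rw [h1]
    have h2 : (8 * (N ^ 2 * M * B)) / (8 * (N ^ 2 * M * B) + 8) ≤ 1 := by
      rw [div_le_one (by positivity)]
      linarith
    calc c / 2 * ((8 * (N ^ 2 * M * B)) / (8 * (N ^ 2 * M * B) + 8)) ≤ c / 2 * 1 :=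
          mul_le_mul_of_nonneg_left h2 (by positivity)
      _ = c / 2 := mul_one _
  have ht5 : N ^ 2 * M * B * (4 * t) * sq D ≤ c / 2 * sq D := mul_le_mul_of_nonneg_right ht4 hS
  have hsq : sq (D' + G) ≤ 4 * N * (B + 1) * (sq D + φ ^ 2) := by
    have h1 : ∀ i j, ((D' + G) i j) ^ 2 ≤ 2 * (B * sq D) + 2 * φ ^ 2 := by
      intro i j
      have h2 := hDb i j
      have h3 : (G i j) ^ 2 ≤ φ ^ 2 := by
        rw [← sq_abs]
        exact pow_le_pow_left₀ (abs_nonneg _) (hG i j) 2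
      simp only [Pi.add_apply]
      nlinarith [sq_nonneg (D' i j - G i j)]
    calc sq (D' + G) ≤ ∑ i : I, ∑ j : Fin 2, (2 * (B * sq D) + 2 * φ ^ 2) :=
          Finset.sum_le_sum fun i _ => Finset.sum_le_sum fun j _ => h1 i j
      _ = 4 * N * (B * sq D + φ ^ 2) := by
          simp only [Finset.sum_const, Finset.card_univ, Fintype.card_fin, nsmul_eq_mul]
          rw [hN]
          push_cast
          ring
      _ ≤ 4 * N * ((B + 1) * (sq D + φ ^ 2)) := by
          refine mul_le_mul_of_nonneg_left ?_ (by positivity)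
          nlinarith [mul_nonneg hB0 (sq_nonneg φ)]
      _ = _ := by ring
  have hc' : (c / 2) / (4 * N * (B + 1) + 1) * sq (D' + G) ≤ c / 2 * (sq D + φ ^ 2) := by
    have h0 : 0 ≤ sq D + φ ^ 2 := by positivity
    calc (c / 2) / (4 * N * (B + 1) + 1) * sq (D' + G)
        ≤ (c / 2) / (4 * N * (B + 1) + 1) * (4 * N * (B + 1) * (sq D + φ ^ 2)) :=
          mul_le_mul_of_nonneg_left hsq (by positivity)
      _ ≤ (c / 2) / (4 * N * (B + 1) + 1) * ((4 * N * (B + 1) + 1) * (sq D + φ ^ 2)) := by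
          refine mul_le_mul_of_nonneg_left (mul_le_mul_of_nonneg_right (by linarith) h0) (by positivity)
      _ = c / 2 * (sq D + φ ^ 2) := by
          field_simp
  have e9 : N ^ 2 * (M * (4 * t * (B * sq D) + φ ^ 2 / t + 2 * φ ^ 2)) =
      N ^ 2 * M * B * (4 * t) * sq D + N ^ 2 * M * (1 / t + 2) * φ ^ 2 := by
    field_simp
    ring
  rw [e9] at hsum
  have e10 : (N ^ 2 * M * (1 / t + 2) + c / 2) * φ ^ 2 = N ^ 2 * M * (1 / t + 2) * φ ^ 2 + c / 2 * φ ^ 2 := by ring
  rw [e10]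
  nlinarith

end Pool.Agent.SLG
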