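import Pool.Agent.SLG.Defs

/-!
ROW S1 (pointwise bound by derivatives in `L²`, in the plane).
Proof.  Let `η` be a smooth cutoff: `η = 1` on `ball 0 r`, support in `closedBall 0 R'`,
`r < R' < R` (a `ContDiffBump`).  `G := η g` is `C²` with compact support.  For every `x`,
`G x = ∫_{s ≤ x 0} ∫_{t ≤ x 1} ∂₀∂₁G (s,t) dt ds` by the fundamental theorem of calculus in each
variable, hence `|G x| ≤ ∫_{E2} |∂₀∂₁ G|` (identify `E2` with `ℝ × ℝ` by the measure preserving
equivalences `EuclideanSpace.volume_preserving_...` and `MeasurableEquiv.finTwoArrow`; or use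
`integral_fderiv`-type lemmas; `fun t => G (s, t)` has compact support).
`∂₀∂₁G = η ∂₀∂₁g + ∂₀η ∂₁g + ∂₁η ∂₀g + ∂₀∂₁η g`, with coefficients bounded by a constant that
depends on `η` only and vanishing outside `ball 0 R`; by Cauchy-Schwarz
`|g x| = |G x| ≤ Cη ∫_{ball 0 R} (|g| + |∂₀g| + |∂₁g| + |∂₀∂₁g|)
 ≤ Cη' (∫_{ball 0 R} (g² + (∂₀g)² + (∂₁g)² + (∂₀∂₁g)²))^{1/2}`.
-/

namespace Pool.Agent.SLG

open MeasureTheory

/-- one variable -/
theorem s1_one (f f' : ℝ → ℝ) (hf : ∀ t, HasDerivAt f (f' t) t) (hc : Continuous f') (R : ℝ)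
    (h0 : ∀ t, R ≤ |t| → f t = 0 ∧ f' t = 0) (t : ℝ) : |f t| ≤ ∫ s, |f' s| := by
  set M : ℝ := |R| + |t| + 1 with hM
  have hMR : R ≤ |(-M)| := by
    rw [abs_neg, abs_of_pos (by positivity)]
    have := le_abs_self R
    have := abs_nonneg t
    linarith
  have hMt : -M ≤ t := by
    have := neg_abs_le t
    have := abs_nonneg R
    linarith
  have hint : Integrable (fun s => |f' s|) volume := by
    apply Continuous.integrable_of_hasCompactSupport hc.abs
    refine HasCompactSupport.intro (isCompact_Icc (a := -R) (b := R)) ?_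
    intro x hx
    have h1 : R ≤ |x| := by
      by_contra h2
      push Not at h2
      rw [abs_lt] at h2
      exact hx ⟨h2.1.le, h2.2.le⟩
    rw [(h0 x h1).2, abs_zero]
  have h1 : ∫ s in (-M)..t, f' s = f t - f (-M) :=
    intervalIntegral.integral_eq_sub_of_hasDerivAt (fun x _ => hf x) (hc.intervalIntegrable _ _)
  rw [(h0 (-M) hMR).1, sub_zero] at h1
  rw [← h1, intervalIntegral.integral_of_le hMt]
  calc |∫ s in Set.Ioc (-M) t, f' s| ≤ ∫ s in Set.Ioc (-M) t, |f' s| := abs_integral_le_integral_abs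
    _ ≤ ∫ s, |f' s| := setIntegral_le_integral hint (Filter.Eventually.of_forall fun s => abs_nonneg _)

/-- the point with coordinates `s`, `t` -/
noncomputable def s1_P (s t : ℝ) : E2 := WithLp.toLp 2 ![s, t]

theorem s1_P_eq (s t : ℝ) : s1_P s t = s • ee 0 + t • ee 1 := by
  ext i
  fin_cases i <;> simp [s1_P, ee]

theorem s1_P_fst (s t : ℝ) : |s| ≤ ‖s1_P s t‖ := by
  have h := EuclideanSpace.norm_eq (s1_P s t)
  rw [h]
  apply Real.abs_le_sqrt
  rw [Fin.sum_univ_two]
  simp [s1_P]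
  positivity

theorem s1_P_snd (s t : ℝ) : |t| ≤ ‖s1_P s t‖ := by
  have h := EuclideanSpace.norm_eq (s1_P s t)
  rw [h]
  apply Real.abs_le_sqrt
  rw [Fin.sum_univ_two]
  simp [s1_P]
  positivity

theorem s1_P_self (x : E2) : s1_P (x 0) (x 1) = x := by
  ext i
  fin_cases i <;> simp [s1_P]

/-- the measurable equivalence -/
noncomputable def s1_e : ℝ × ℝ ≃ᵐ E2 :=
  (MeasurableEquiv.finTwoArrow (α := ℝ)).symm.trans (MeasurableEquiv.toLp 2 (Fin 2 → ℝ))

theorem s1_e_apply (p : ℝ × ℝ) : s1_e p = s1_P p.1 p.2 := rfl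

theorem s1_e_mp : MeasurePreserving s1_e (volume : Measure (ℝ × ℝ)) (volume : Measure E2) := by
  have h1 := (volume_preserving_finTwoArrow ℝ).symm
  have h2 := (EuclideanSpace.volume_preserving_symm_measurableEquiv_toLp (Fin 2)).symm
  exact h1.trans h2

theorem s1_hasDeriv (G : E2 → ℝ) (hG : Differentiable ℝ G) (s t : ℝ) :
    HasDerivAt (fun s => G (s1_P s t)) (pd 0 G (s1_P s t)) s ∧
    HasDerivAt (fun t => G (s1_P s t)) (pd 1 G (s1_P s t)) t := by
  constructor
  · have h1 : HasDerivAt (fun s => s1_P s t) (ee 0) s := by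
      have h2 : (fun s => s1_P s t) = fun s => s • ee 0 + t • ee 1 := by
        ext1 s
        exact s1_P_eq s t
      rw [h2]
      have h3 := ((hasDerivAt_id s).smul_const (ee 0)).add_const (t • ee 1)
      simpa using h3
    exact (hG (s1_P s t)).hasFDerivAt.comp_hasDerivAt s h1
  · have h1 : HasDerivAt (fun t => s1_P s t) (ee 1) t := by
      have h2 : (fun t => s1_P s t) = fun t => s • ee 0 + t • ee 1 := by
        ext1 t
        exact s1_P_eq s t
      rw [h2]
      have h3 := ((hasDerivAt_id t).smul_const (ee 1)).const_add (s • ee 0)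
      simpa using h3
    exact (hG (s1_P s t)).hasFDerivAt.comp_hasDerivAt t h1

theorem s1_pd_smooth {g : E2 → ℝ} (hg : ContDiff ℝ ((⊤ : ℕ∞) : WithTop ℕ∞) g) (j : Fin 2) :
    ContDiff ℝ ((⊤ : ℕ∞) : WithTop ℕ∞) (pd j g) := by
  have h1 : ContDiff ℝ ((⊤ : ℕ∞) : WithTop ℕ∞) (fderiv ℝ g) :=
    hg.fderiv_right (by norm_cast)
  exact h1.clm_apply contDiff_const

theorem s1_P_cont : Continuous (fun p : ℝ × ℝ => s1_P p.1 p.2) := by
  have h2 : (fun p : ℝ × ℝ => s1_P p.1 p.2) = fun p => p.1 • ee 0 + p.2 • ee 1 := by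
    ext1 p
    exact s1_P_eq p.1 p.2
  rw [h2]
  fun_prop

/-- two variables -/
theorem s1_two (G : E2 → ℝ) (hG : ContDiff ℝ ((⊤ : ℕ∞) : WithTop ℕ∞) G) (R : ℝ)
    (h0 : ∀ x, R ≤ ‖x‖ → G x = 0 ∧ pd 1 G x = 0 ∧ pd 0 (pd 1 G) x = 0) (x : E2) :
    |G x| ≤ ∫ y, |pd 0 (pd 1 G) y| := by
  have hG1 := s1_pd_smooth hG 1
  have hG2 := s1_pd_smooth hG1 0
  have hH : Integrable (fun y => |pd 0 (pd 1 G) y|) volume := by
    apply Continuous.integrable_of_hasCompactSupport hG2.continuous.abs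
    refine HasCompactSupport.intro (isCompact_closedBall (0 : E2) R) ?_
    intro y hy
    rw [mem_closedBall_zero_iff, not_le] at hy
    rw [(h0 y hy.le).2.2, abs_zero]
  have hHe : Integrable (fun p : ℝ × ℝ => |pd 0 (pd 1 G) (s1_P p.1 p.2)|)
      ((volume : Measure ℝ).prod (volume : Measure ℝ)) :=
    (s1_e_mp.integrable_comp_emb s1_e.measurableEmbedding
      (g := fun y => |pd 0 (pd 1 G) y|)).2 hH
  have key : ∫ y, |pd 0 (pd 1 G) y| = ∫ t : ℝ, ∫ s : ℝ, |pd 0 (pd 1 G) (s1_P s t)| := by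
    rw [← s1_e_mp.integral_comp' (fun y => |pd 0 (pd 1 G) y|)]
    exact integral_prod_symm _ hHe
  rw [key]
  have h1 : |G x| ≤ ∫ t, |pd 1 G (s1_P (x 0) t)| := by
    have h2 := s1_one (fun t => G (s1_P (x 0) t)) (fun t => pd 1 G (s1_P (x 0) t))
      (fun t => (s1_hasDeriv G (hG.differentiable (by simp)) (x 0) t).2)
      (hG1.continuous.comp (s1_P_cont.comp (by fun_prop : Continuous fun t : ℝ => (x 0, t)))) R
      (fun t ht => by
        have := h0 (s1_P (x 0) t) (ht.trans (s1_P_snd _ _))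
        exact ⟨this.1, this.2.1⟩) (x 1)
    rwa [s1_P_self] at h2
  refine h1.trans ?_
  apply integral_mono
  · apply Continuous.integrable_of_hasCompactSupport
    · exact (hG1.continuous.comp
        (s1_P_cont.comp (by fun_prop : Continuous fun t : ℝ => (x 0, t)))).abs
    · refine HasCompactSupport.intro (isCompact_Icc (a := -R) (b := R)) ?_
      intro t ht
      have h2 : R ≤ |t| := by
        by_contra h2
        push Not at h2
        rw [abs_lt] at h2
        exact ht ⟨h2.1.le, h2.2.le⟩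
      rw [(h0 (s1_P (x 0) t) (h2.trans (s1_P_snd _ _))).2.1, abs_zero]
  · exact hHe.integral_prod_right
  · intro t
    exact s1_one (fun s => pd 1 G (s1_P s t)) (fun s => pd 0 (pd 1 G) (s1_P s t))
      (fun s => (s1_hasDeriv (pd 1 G) (hG1.differentiable (by simp)) s t).1)
      (hG2.continuous.comp (s1_P_cont.comp (by fun_prop : Continuous fun s : ℝ => (s, t)))) R
      (fun s hs => by
        have := h0 (s1_P s t) (hs.trans (s1_P_fst _ _))
        exact this.2) (x 0)

theorem s1_pd_mul {a b : E2 → ℝ} (ha : Differentiable ℝ a) (hb : Differentiable ℝ b) (j : Fin 2)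
    (x : E2) : pd j (fun y => a y * b y) x = a x * pd j b x + b x * pd j a x := by
  unfold pd
  rw [fderiv_fun_mul (ha x) (hb x)]
  simp

theorem s1_pd_add {a b : E2 → ℝ} (ha : Differentiable ℝ a) (hb : Differentiable ℝ b) (j : Fin 2)
    (x : E2) : pd j (fun y => a y + b y) x = pd j a x + pd j b x := by
  unfold pd
  rw [fderiv_fun_add (ha x) (hb x)]
  simp

/-- Cauchy-Schwarz on a ball -/
theorem s1_cs (R : ℝ) (hR : 0 < R) (f : E2 → ℝ) (hf : Continuous f) :
    (∫ y in Metric.ball (0 : E2) R, f y) ^ 2 ≤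
      (volume (Metric.ball (0 : E2) R)).toReal * ∫ y in Metric.ball (0 : E2) R, (f y) ^ 2 := by
  set S := Metric.ball (0 : E2) R with hS
  set m := (volume S).toReal with hm
  have hm0 : 0 < m := by
    rw [hm]
    apply ENNReal.toReal_pos
    · exact (Metric.measure_ball_pos volume 0 hR).ne'
    · exact measure_ball_lt_top.ne
  have hi : ∀ g : E2 → ℝ, Continuous g → IntegrableOn g S volume := fun g hg =>
    (hg.continuousOn.integrableOn_compact (isCompact_closedBall 0 R)).mono_set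
      Metric.ball_subset_closedBall
  set I := ∫ y in S, f y with hI
  have h1 : 0 ≤ ∫ y in S, (f y - I / m) ^ 2 := integral_nonneg fun y => sq_nonneg _
  have h2 : ∫ y in S, (f y - I / m) ^ 2 =
      (∫ y in S, (f y) ^ 2) - 2 * (I / m) * I + (I / m) ^ 2 * m := by
    have h3 : ∀ y, (f y - I / m) ^ 2 = (f y) ^ 2 - 2 * (I / m) * f y + (I / m) ^ 2 := fun y => by
      ring
    simp_rw [h3]
    rw [integral_add, integral_sub, integral_const_mul, setIntegral_const, smul_eq_mul]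
    · rw [mul_comm (volume.real S)]
      rfl
    · exact hi _ (hf.pow 2)
    · exact hi _ (hf.const_mul _)
    · exact (hi _ (hf.pow 2)).sub (hi _ (hf.const_mul _))
    · exact hi _ continuous_const
  rw [h2] at h1
  have h4 : (∫ y in S, (f y) ^ 2) - 2 * (I / m) * I + (I / m) ^ 2 * m =
      (∫ y in S, (f y) ^ 2) - I ^ 2 / m := by
    field_simp
    ring
  rw [h4] at h1
  have h5 : I ^ 2 / m ≤ ∫ y in S, (f y) ^ 2 := by linarith
  rw [div_le_iff₀ hm0] at h5
  linarith

theorem sobolev_sup (r R : ℝ) (hr : 0 < r) (hR : r < R) :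
    ∃ K : ℝ, 0 < K ∧ ∀ g : E2 → ℝ, ContDiff ℝ ((⊤ : ℕ∞) : WithTop ℕ∞) g →
      ∀ x ∈ Metric.ball (0 : E2) r, (g x) ^ 2 ≤
        K * ∫ y in Metric.ball (0 : E2) R,
          ((g y) ^ 2 + (pd 0 g y) ^ 2 + (pd 1 g y) ^ 2 + (pd 0 (pd 1 g) y) ^ 2) := by
  have hR0 : 0 < R := hr.trans hR
  -- the cutoff
  let b : ContDiffBump (0 : E2) := ⟨r, (r + R) / 2, hr, by linarith⟩
  set η : E2 → ℝ := fun y => b y with hη
  have hηs : ContDiff ℝ ((⊤ : ℕ∞) : WithTop ℕ∞) η := b.contDiff
  have hη1 := s1_pd_smooth hηs 1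
  have hη0 := s1_pd_smooth hηs 0
  have hη01 := s1_pd_smooth hη1 0
  have hts : tsupport η = Metric.closedBall (0 : E2) ((r + R) / 2) := b.tsupport_eq
  have hout : ∀ y : E2, R ≤ ‖y‖ → y ∉ tsupport η := by
    intro y hy hy2
    rw [hts, mem_closedBall_zero_iff] at hy2
    linarith
  have ts1 : tsupport (pd 1 η) ⊆ tsupport η := tsupport_fderiv_apply_subset ℝ (ee 1)
  have ts0 : tsupport (pd 0 η) ⊆ tsupport η := tsupport_fderiv_apply_subset ℝ (ee 0)
  have ts01 : tsupport (pd 0 (pd 1 η)) ⊆ tsupport η :=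
    (tsupport_fderiv_apply_subset ℝ (ee 0)).trans ts1
  have z0 : ∀ y : E2, R ≤ ‖y‖ → η y = 0 := fun y hy => image_eq_zero_of_notMem_tsupport (hout y hy)
  have z1 : ∀ y : E2, R ≤ ‖y‖ → pd 1 η y = 0 := fun y hy =>
    image_eq_zero_of_notMem_tsupport fun h => hout y hy (ts1 h)
  have z2 : ∀ y : E2, R ≤ ‖y‖ → pd 0 η y = 0 := fun y hy =>
    image_eq_zero_of_notMem_tsupport fun h => hout y hy (ts0 h)
  have z3 : ∀ y : E2, R ≤ ‖y‖ → pd 0 (pd 1 η) y = 0 := fun y hy =>
    image_eq_zero_of_notMem_tsupport fun h => hout y hy (ts01 h)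
  -- bounds
  have hbd : ∀ h : E2 → ℝ, Continuous h → ∃ B : ℝ, 0 ≤ B ∧ ∀ y ∈ Metric.closedBall (0 : E2) R,
      |h y| ≤ B := by
    intro h hh
    obtain ⟨B, hB⟩ := (isCompact_closedBall (0 : E2) R).exists_bound_of_continuousOn hh.continuousOn
    refine ⟨max B 0, le_max_right _ _, fun y hy => (hB y hy).trans (le_max_left _ _)⟩
  obtain ⟨B0, hB0, hB0'⟩ := hbd η hηs.continuous
  obtain ⟨B1, hB1, hB1'⟩ := hbd (pd 1 η) hη1.continuous
  obtain ⟨B2, hB2, hB2'⟩ := hbd (pd 0 η) hη0.continuous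
  obtain ⟨B3, hB3, hB3'⟩ := hbd (pd 0 (pd 1 η)) hη01.continuous
  set B : ℝ := B0 + B1 + B2 + B3 with hB
  have hBnn : 0 ≤ B := by positivity
  set m := (volume (Metric.ball (0 : E2) R)).toReal with hm
  have hm0 : 0 ≤ m := ENNReal.toReal_nonneg
  refine ⟨m * (4 * B ^ 2) + 1, by positivity, ?_⟩
  intro g hg x hx
  have hg1 := s1_pd_smooth hg 1
  have hg0 := s1_pd_smooth hg 0
  have hg01 := s1_pd_smooth hg1 0
  have dg := hg.differentiable (by simp)
  have dg1 := hg1.differentiable (by simp)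
  have dη := hηs.differentiable (by simp)
  have dη1 := hη1.differentiable (by simp)
  set G : E2 → ℝ := fun y => η y * g y with hGdef
  have hGs : ContDiff ℝ ((⊤ : ℕ∞) : WithTop ℕ∞) G := hηs.mul hg
  have e1 : pd 1 G = fun y => η y * pd 1 g y + g y * pd 1 η y := by
    ext1 y
    exact s1_pd_mul dη dg 1 y
  have e2 : ∀ y, pd 0 (pd 1 G) y = (η y * pd 0 (pd 1 g) y + pd 1 g y * pd 0 η y) +
      (g y * pd 0 (pd 1 η) y + pd 1 η y * pd 0 g y) := by
    intro y
    rw [e1, s1_pd_add (a := fun y => η y * pd 1 g y) (b := fun y => g y * pd 1 η y)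
      (dη.mul dg1) (dg.mul dη1), s1_pd_mul dη dg1, s1_pd_mul dg dη1]
  have hz : ∀ y, R ≤ ‖y‖ → G y = 0 ∧ pd 1 G y = 0 ∧ pd 0 (pd 1 G) y = 0 := by
    intro y hy
    refine ⟨?_, ?_, ?_⟩
    · rw [hGdef]
      simp only
      rw [z0 y hy, zero_mul]
    · rw [e1]
      simp only
      rw [z0 y hy, z1 y hy, zero_mul, mul_zero, add_zero]
    · rw [e2, z0 y hy, z1 y hy, z2 y hy, z3 y hy]
      ring
  have h1 := s1_two G hGs R hz x
  have hGx : G x = g x := by
    have h2 : η x = 1 := by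
      apply b.one_of_mem_closedBall
      exact Metric.ball_subset_closedBall hx
    rw [hGdef]
    simp only
    rw [h2, one_mul]
  rw [hGx] at h1
  -- the dominating function
  set F : E2 → ℝ := fun y => |g y| + |pd 0 g y| + |pd 1 g y| + |pd 0 (pd 1 g) y| with hF
  have hFc : Continuous F := by
    rw [hF]
    exact ((hg.continuous.abs.add hg0.continuous.abs).add hg1.continuous.abs).add
      hg01.continuous.abs
  have hi : ∀ h : E2 → ℝ, Continuous h → IntegrableOn h (Metric.ball (0 : E2) R) volume :=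
    fun h hh => (hh.continuousOn.integrableOn_compact (isCompact_closedBall 0 R)).mono_set
      Metric.ball_subset_closedBall
  have h2 : ∫ y, |pd 0 (pd 1 G) y| = ∫ y in Metric.ball (0 : E2) R, |pd 0 (pd 1 G) y| := by
    rw [setIntegral_eq_integral_of_forall_compl_eq_zero]
    intro y hy
    rw [mem_ball_zero_iff, not_lt] at hy
    rw [(hz y hy).2.2, abs_zero]
  have h3 : ∫ y in Metric.ball (0 : E2) R, |pd 0 (pd 1 G) y| ≤
      ∫ y in Metric.ball (0 : E2) R, B * F y := by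
    apply setIntegral_mono_on (hi _ (s1_pd_smooth (s1_pd_smooth hGs 1) 0).continuous.abs)
      (hi _ (hFc.const_mul _)) measurableSet_ball
    intro y hy
    have hy' := Metric.ball_subset_closedBall hy
    have b0 := hB0' y hy'
    have b1 := hB1' y hy'
    have b2 := hB2' y hy'
    have b3 := hB3' y hy'
    have hterm : ∀ (p q P : ℝ), |p| ≤ P → P ≤ B → |p * q| ≤ B * |q| := by
      intro p q P hp hP
      rw [abs_mul]
      exact mul_le_mul_of_nonneg_right (hp.trans hP) (abs_nonneg _)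
    have t1 := hterm (η y) (pd 0 (pd 1 g) y) B0 b0 (by linarith)
    have t2 := hterm (pd 0 η y) (pd 1 g y) B2 b2 (by linarith)
    have t3 := hterm (pd 0 (pd 1 η) y) (g y) B3 b3 (by linarith)
    have t4 := hterm (pd 1 η y) (pd 0 g y) B1 b1 (by linarith)
    rw [e2, mul_comm (pd 1 g y), mul_comm (g y)]
    have s1 := abs_add_le (η y * pd 0 (pd 1 g) y + pd 0 η y * pd 1 g y)
      (pd 0 (pd 1 η) y * g y + pd 1 η y * pd 0 g y)
    have s2 := abs_add_le (η y * pd 0 (pd 1 g) y) (pd 0 η y * pd 1 g y)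
    have s3 := abs_add_le (pd 0 (pd 1 η) y * g y) (pd 1 η y * pd 0 g y)
    have s4 : B * F y = B * |g y| + B * |pd 0 g y| + B * |pd 1 g y| + B * |pd 0 (pd 1 g) y| := by
      rw [hF]
      ring
    rw [s4]
    linarith
  have h4 : |g x| ≤ ∫ y in Metric.ball (0 : E2) R, B * F y := by
    rw [h2] at h1
    exact h1.trans h3
  have h5 := s1_cs R hR0 (fun y => B * F y) (hFc.const_mul _)
  have h6 : (g x) ^ 2 ≤ (∫ y in Metric.ball (0 : E2) R, B * F y) ^ 2 := by
    rw [← sq_abs]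
    exact pow_le_pow_left₀ (abs_nonneg _) h4 2
  set Q : E2 → ℝ := fun y =>
    (g y) ^ 2 + (pd 0 g y) ^ 2 + (pd 1 g y) ^ 2 + (pd 0 (pd 1 g) y) ^ 2 with hQ
  have hQc : Continuous Q := by
    rw [hQ]
    exact (((hg.continuous.pow 2).add (hg0.continuous.pow 2)).add (hg1.continuous.pow 2)).add
      (hg01.continuous.pow 2)
  have h7 : ∫ y in Metric.ball (0 : E2) R, (B * F y) ^ 2 ≤
      ∫ y in Metric.ball (0 : E2) R, (4 * B ^ 2) * Q y := by
    apply setIntegral_mono_on (hi _ ((hFc.const_mul _).pow 2)) (hi _ (hQc.const_mul _))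
      measurableSet_ball
    intro y _
    change (B * F y) ^ 2 ≤ 4 * B ^ 2 * Q y
    have s1 : (F y) ^ 2 ≤ 4 * Q y := by
      rw [hF, hQ]
      simp only
      have q1 := sq_abs (g y)
      have q2 := sq_abs (pd 0 g y)
      have q3 := sq_abs (pd 1 g y)
      have q4 := sq_abs (pd 0 (pd 1 g) y)
      rw [← q1, ← q2, ← q3, ← q4]
      generalize |g y| = a
      generalize |pd 0 g y| = b
      generalize |pd 1 g y| = c
      generalize |pd 0 (pd 1 g) y| = d
      nlinarith [sq_nonneg (a - b), sq_nonneg (a - c), sq_nonneg (a - d), sq_nonneg (b - c),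
        sq_nonneg (b - d), sq_nonneg (c - d)]
    rw [mul_pow]
    have s2 := mul_le_mul_of_nonneg_left s1 (sq_nonneg B)
    linarith
  rw [integral_const_mul] at h7
  have hQ0 : 0 ≤ ∫ y in Metric.ball (0 : E2) R, Q y := by
    apply integral_nonneg
    intro y
    rw [hQ]
    positivity
  calc (g x) ^ 2 ≤ m * ∫ y in Metric.ball (0 : E2) R, (B * F y) ^ 2 := h6.trans h5
    _ ≤ m * (4 * B ^ 2 * ∫ y in Metric.ball (0 : E2) R, Q y) := mul_le_mul_of_nonneg_left h7 hm0
    _ ≤ (m * (4 * B ^ 2) + 1) * ∫ y in Metric.ball (0 : E2) R, Q y := by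
        rw [add_mul, one_mul, mul_assoc]
        linarith

end Pool.Agent.SLG
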