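import Pool.Agent.SLG.L1
import Pool.Agent.SLG.A4
import Pool.Agent.SLG.S1

/-!
ROW L2 (interior estimates for the linear system).
Proof.  Fix `c', K'` from `coer_pert`.  For a list `l` with `l.length ≤ 4` the family
`w_l i := pds l (w i)` satisfies (by `lin_deriv`) `grad w_l x = app T (uJac e w_l x) + G`,
`G i j = pds l (F i j) x`, `|G i j| ≤ φ` on `ball 0 (7/16)`, so
`c' sq (grad w_l x) ≤ ∑ C minor (grad w_l x) + K' φ²` there, and `cacc` (radii `r < R ≤ 7/16`,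
`g = K' φ²`, Lipschitz hypothesis `hlip`) gives
`∫_{ball 0 r} sq (grad w_l) ≤ Kc (∫_{ball 0 R} ∑ (w_l i)² + K' φ²)`.
Induction on `k = 0, …, 4`: there is `K_k` with, for all lists `l` of length `k`,
`∫_{ball 0 (7/16 - k/16)} ∑_i (pds l (w i))² ≤ K_k (∫_{ball 0 (7/16)} ∑ (w i)² + φ²)`
(`k = 0` trivial; step: `pds (j :: l) (w i) = pd j (pds l (w i))` and
`(pd j (pds l (w i)))² ≤ sq (grad w_l)`; use `cacc` with `R = 7/16 - k/16`, `r = R - 1/16`).
Note `7/16 - 4/16 = 3/16`.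
Finally for `x ∈ ball 0 (1/8)`, `l.length ≤ 2`, `sobolev_sup (1/8) (3/16)` applied to
`g = pds l (w i)` bounds `(pds l (w i) x)²` by the integrals over `ball 0 (3/16)` of the squares of
`pds l' (w i)` with `l' = l, 0 :: l, 1 :: l, 0 :: 1 :: l`, each of length at most `4`; enlarge the
ball to `7/16 - k/16` (the integrands are nonnegative and continuous, hence integrable on balls)
and use the induction.
The constant depends only on `n, I, c, M`.
-/

namespace Pool.Agent.SLG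

open MeasureTheory

/-- The hypotheses of `lin_est`. -/
structure l2_Hyp {n : ℕ} {I : Type} [Fintype I] (c M : ℝ) (e : Fin n → I) (C : I → I → ℝ)
    (T : Lin n I) (w : I → E2 → ℝ) (F : I → Fin 2 → E2 → ℝ) (φ : ℝ) : Prop where
  hC : ∀ p q, |C p q| ≤ M
  hT : ∀ i j k m, |T i j k m| ≤ M
  hco : ∀ D : Mat n, c * sq D ≤ ∑ p, ∑ q, C p q * minor (app T D) p q
  hw : ∀ i, ContDiff ℝ ((⊤ : ℕ∞) : WithTop ℕ∞) (w i)
  hl : ∀ i (l : List (Fin 2)), ∃ L : NNReal, LipschitzWith L (pds l (w i))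
  hF : ∀ i j, ContDiff ℝ ((⊤ : ℕ∞) : WithTop ℕ∞) (F i j)
  heq : ∀ x i j, pd j (w i) x = app T (uJac e w x) i j + F i j x
  hφ : 0 ≤ φ
  hb : ∀ x ∈ Metric.ball (0 : E2) (7 / 16), ∀ i j, ∀ l : List (Fin 2), l.length ≤ 4 →
        |pds l (F i j) x| ≤ φ

theorem l2_int {f : E2 → ℝ} (hf : Continuous f) (r : ℝ) : IntegrableOn f (Metric.ball (0 : E2) r) volume :=
  (hf.continuousOn.integrableOn_compact (isCompact_closedBall (0 : E2) r)).mono_set
    Metric.ball_subset_closedBall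

theorem l2_ind (n : ℕ) (I : Type) [Fintype I] (c M : ℝ) (hc : 0 < c) (hM : 0 ≤ M) (k : ℕ) (hk : k ≤ 4) :
    ∃ K : ℝ, 0 < K ∧ ∀ (e : Fin n → I) (C : I → I → ℝ) (T : Lin n I) (w : I → E2 → ℝ)
      (F : I → Fin 2 → E2 → ℝ) (φ : ℝ), l2_Hyp c M e C T w F φ → ∀ l : List (Fin 2), l.length = k →
      (∫ y in Metric.ball (0 : E2) (7 / 16 - k / 16), ∑ i, (pds l (w i) y) ^ 2) ≤
        K * ((∫ y in Metric.ball (0 : E2) (7 / 16), ∑ i, (w i y) ^ 2) + φ ^ 2) := by
  induction k with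
  | zero =>
    refine ⟨1, one_pos, ?_⟩
    intro e C T w F φ h l hl
    have hl' : l = [] := List.length_eq_zero_iff.1 hl
    subst hl'
    have h1 : (7 / 16 - ((0 : ℕ) : ℝ) / 16) = 7 / 16 := by norm_num
    rw [h1, one_mul]
    have h2 : 0 ≤ φ ^ 2 := sq_nonneg _
    show (∫ y in Metric.ball (0 : E2) (7 / 16), ∑ i, (w i y) ^ 2) ≤ _
    linarith
  | succ k ih =>
    obtain ⟨Kk, hKk, ih⟩ := ih (by omega)
    obtain ⟨c', K', hc', hK', hpert⟩ := coer_pert n I c M hc hM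
    have hk3 : (k : ℝ) ≤ 3 := by exact_mod_cast (show k ≤ 3 by omega)
    obtain ⟨Kc, hKc, hcacc⟩ := cacc I (7 / 16 - ((k + 1 : ℕ) : ℝ) / 16) (7 / 16 - (k : ℝ) / 16) c' M
      (by push_cast; linarith) (by push_cast; linarith) hc' hM
    refine ⟨Kc * (Kk + K'), by positivity, ?_⟩
    intro e C T w F φ h l hl
    cases l with
    | nil => simp at hl
    | cons j l =>
      have hl' : l.length = k := by simpa using hl
      have hlin := lin_deriv e T w F h.hw h.hF h.heq l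
      set wl : I → E2 → ℝ := fun i => pds l (w i) with hwl
      have hgr : ∀ y, grad wl y = app T (uJac e wl y) + (fun i j => pds l (F i j) y) := by
        intro y
        funext i m
        exact hlin y i m
      have hk0 : (0 : ℝ) ≤ k := Nat.cast_nonneg k
      have hsub : Metric.ball (0 : E2) (7 / 16 - (k : ℝ) / 16) ⊆ Metric.ball (0 : E2) (7 / 16) :=
        Metric.ball_subset_ball (by linarith)
      have h1 := hcacc C h.hC wl (fun i => h.hl i l) (K' * φ ^ 2) (by have := h.hφ; positivity) (by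
        rw [ae_restrict_iff' measurableSet_ball]
        refine ae_of_all _ fun y hy => ?_
        have h2 := hpert C h.hC T h.hT h.hco (uJac e wl y) (fun i j => pds l (F i j) y) φ h.hφ
          (fun i j => h.hb y (hsub hy) i j l (by omega))
        rw [← hgr] at h2
        exact h2)
      have h2 := ih e C T w F φ h l hl'
      have hcont : ∀ i (l : List (Fin 2)), Continuous (pds l (w i)) := fun i l =>
        (pds_smooth (h.hw i) l).continuous
      have h3 : (∫ y in Metric.ball (0 : E2) (7 / 16 - ((k + 1 : ℕ) : ℝ) / 16),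
          ∑ i, (pds (j :: l) (w i) y) ^ 2) ≤
          ∫ y in Metric.ball (0 : E2) (7 / 16 - ((k + 1 : ℕ) : ℝ) / 16), sq (grad wl y) := by
        refine setIntegral_mono_on ?_ ?_ measurableSet_ball fun y _ => ?_
        · refine l2_int ?_ _
          exact continuous_finsetSum _ fun i _ => (hcont i (j :: l)).pow 2
        · refine l2_int ?_ _
          unfold sq
          exact continuous_finsetSum _ fun i _ => continuous_finsetSum _ fun m _ => (hcont i (m :: l)).pow 2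
        · unfold sq
          refine Finset.sum_le_sum fun i _ => ?_
          exact Finset.single_le_sum (f := fun m => (grad wl y i m) ^ 2) (fun m _ => sq_nonneg _)
            (Finset.mem_univ j)
      have hA : 0 ≤ ∫ y in Metric.ball (0 : E2) (7 / 16), ∑ i, (w i y) ^ 2 :=
        setIntegral_nonneg measurableSet_ball fun y _ => Finset.sum_nonneg fun i _ => sq_nonneg _
      refine h3.trans (h1.trans ?_)
      rw [mul_assoc]
      refine mul_le_mul_of_nonneg_left ?_ hKc.le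
      have h5 : K' * φ ^ 2 ≤ K' * ((∫ y in Metric.ball (0 : E2) (7 / 16), ∑ i, (w i y) ^ 2) + φ ^ 2) :=
        mul_le_mul_of_nonneg_left (by linarith) hK'.le
      have h6 : (∫ y in Metric.ball (0 : E2) (7 / 16 - (k : ℝ) / 16), ∑ i, (wl i y) ^ 2) ≤
        Kk * ((∫ y in Metric.ball (0 : E2) (7 / 16), ∑ i, (w i y) ^ 2) + φ ^ 2) := h2
      linarith

theorem l2_all (n : ℕ) (I : Type) [Fintype I] (c M : ℝ) (hc : 0 < c) (hM : 0 ≤ M) :
    ∃ K : ℝ, 0 < K ∧ ∀ (e : Fin n → I) (C : I → I → ℝ) (T : Lin n I) (w : I → E2 → ℝ)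
      (F : I → Fin 2 → E2 → ℝ) (φ : ℝ), l2_Hyp c M e C T w F φ → ∀ l : List (Fin 2), l.length ≤ 4 → ∀ i,
      (∫ y in Metric.ball (0 : E2) (3 / 16), (pds l (w i) y) ^ 2) ≤
        K * ((∫ y in Metric.ball (0 : E2) (7 / 16), ∑ i, (w i y) ^ 2) + φ ^ 2) := by
  have hex : ∀ k : ℕ, ∃ K : ℝ, 0 < K ∧ (k ≤ 4 → ∀ (e : Fin n → I) (C : I → I → ℝ) (T : Lin n I)
      (w : I → E2 → ℝ)
      (F : I → Fin 2 → E2 → ℝ) (φ : ℝ), l2_Hyp c M e C T w F φ → ∀ l : List (Fin 2), l.length = k →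
      (∫ y in Metric.ball (0 : E2) (7 / 16 - k / 16), ∑ i, (pds l (w i) y) ^ 2) ≤
        K * ((∫ y in Metric.ball (0 : E2) (7 / 16), ∑ i, (w i y) ^ 2) + φ ^ 2)) := by
    intro k
    by_cases hk : k ≤ 4
    · obtain ⟨K, hK, h⟩ := l2_ind n I c M hc hM k hk
      exact ⟨K, hK, fun _ => h⟩
    · exact ⟨1, one_pos, fun h => absurd h hk⟩
  choose Kf hKf hKf' using hex
  have hpos : 0 < ∑ k ∈ Finset.range 5, Kf k :=
    Finset.sum_pos (fun k _ => hKf k) ⟨0, by simp⟩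
  refine ⟨∑ k ∈ Finset.range 5, Kf k, hpos, ?_⟩
  intro e C T w F φ h l hl i
  have hcont : ∀ i (l : List (Fin 2)), Continuous (pds l (w i)) := fun i l =>
    (pds_smooth (h.hw i) l).continuous
  have h1 := hKf' l.length hl e C T w F φ h l rfl
  have hA : 0 ≤ (∫ y in Metric.ball (0 : E2) (7 / 16), ∑ i, (w i y) ^ 2) + φ ^ 2 :=
    add_nonneg (setIntegral_nonneg measurableSet_ball fun y _ => Finset.sum_nonneg fun i _ => sq_nonneg _)
      (sq_nonneg _)
  have hle : Kf l.length ≤ ∑ k ∈ Finset.range 5, Kf k :=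
    Finset.single_le_sum (f := Kf) (fun k _ => (hKf k).le) (by rw [Finset.mem_range]; omega)
  have hl4 : (l.length : ℝ) ≤ 4 := by exact_mod_cast hl
  have hi1 : IntegrableOn (fun y => ∑ i, (pds l (w i) y) ^ 2)
      (Metric.ball (0 : E2) (7 / 16 - (l.length : ℝ) / 16)) volume :=
    l2_int (continuous_finsetSum _ fun i _ => (hcont i l).pow 2) _
  have hsub : Metric.ball (0 : E2) (3 / 16) ⊆ Metric.ball (0 : E2) (7 / 16 - (l.length : ℝ) / 16) :=
    Metric.ball_subset_ball (by linarith)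
  calc (∫ y in Metric.ball (0 : E2) (3 / 16), (pds l (w i) y) ^ 2)
      ≤ ∫ y in Metric.ball (0 : E2) (3 / 16), ∑ i, (pds l (w i) y) ^ 2 := by
        refine setIntegral_mono_on (l2_int ((hcont i l).pow 2) _) (hi1.mono_set hsub) measurableSet_ball
          fun y _ => ?_
        exact Finset.single_le_sum (f := fun i => (pds l (w i) y) ^ 2) (fun m _ => sq_nonneg _)
            (Finset.mem_univ i)
    _ ≤ ∫ y in Metric.ball (0 : E2) (7 / 16 - (l.length : ℝ) / 16), ∑ i, (pds l (w i) y) ^ 2 :=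
        setIntegral_mono_set hi1 (ae_of_all _ fun y => Finset.sum_nonneg fun i _ => sq_nonneg _)
          (LE.le.eventuallyLE hsub)
    _ ≤ _ := h1
    _ ≤ _ := mul_le_mul_of_nonneg_right hle hA

theorem lin_est (n : ℕ) (I : Type) [Fintype I] (c M : ℝ) (hc : 0 < c) (hM : 0 ≤ M) :
    ∃ Kl : ℝ, 0 < Kl ∧ ∀ (e : Fin n → I) (C : I → I → ℝ), (∀ p q, |C p q| ≤ M) →
      ∀ T : Lin n I, (∀ i j k m, |T i j k m| ≤ M) →
      (∀ D : Mat n, c * sq D ≤ ∑ p, ∑ q, C p q * minor (app T D) p q) →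
      ∀ (w : I → E2 → ℝ) (F : I → Fin 2 → E2 → ℝ),
      (∀ i, ContDiff ℝ ((⊤ : ℕ∞) : WithTop ℕ∞) (w i)) →
      (∀ i (l : List (Fin 2)), ∃ L : NNReal, LipschitzWith L (pds l (w i))) →
      (∀ i j, ContDiff ℝ ((⊤ : ℕ∞) : WithTop ℕ∞) (F i j)) →
      (∀ x i j, pd j (w i) x = app T (uJac e w x) i j + F i j x) →
      ∀ φ : ℝ, 0 ≤ φ →
      (∀ x ∈ Metric.ball (0 : E2) (7 / 16), ∀ i j, ∀ l : List (Fin 2), l.length ≤ 4 →
        |pds l (F i j) x| ≤ φ) →
      ∀ x ∈ Metric.ball (0 : E2) (1 / 8), ∀ i, ∀ l : List (Fin 2), l.length ≤ 2 →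
        (pds l (w i) x) ^ 2 ≤
          Kl * ((∫ y in Metric.ball (0 : E2) (7 / 16), ∑ i, (w i y) ^ 2) + φ ^ 2) := by
  obtain ⟨Ka, hKa, hall⟩ := l2_all n I c M hc hM
  obtain ⟨Ks, hKs, hsob⟩ := sobolev_sup (1 / 8) (3 / 16) (by norm_num) (by norm_num)
  refine ⟨Ks * (4 * Ka), by positivity, ?_⟩
  intro e C hC T hT hco w F hw hl hF heq φ hφ hb x hx i l hl2
  have h : l2_Hyp c M e C T w F φ := ⟨hC, hT, hco, hw, hl, hF, heq, hφ, hb⟩
  have hcont : ∀ (l : List (Fin 2)), Continuous (pds l (w i)) := fun l => (pds_smooth (hw i) l).continuous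
  have h0 := hall e C T w F φ h l (by omega) i
  have h1 := hall e C T w F φ h (0 :: l) (by simp; omega) i
  have h2 := hall e C T w F φ h (1 :: l) (by simp; omega) i
  have h3 := hall e C T w F φ h (0 :: 1 :: l) (by simp; omega) i
  have hs := hsob (pds l (w i)) (pds_smooth (hw i) l) x hx
  have hi : ∀ l, Integrable (fun y => (pds l (w i) y) ^ 2) (volume.restrict (Metric.ball (0 : E2) (3 / 16))) :=
    fun l => l2_int ((hcont l).pow 2) _
  have e1 : ∫ y in Metric.ball (0 : E2) (3 / 16),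
          ((pds l (w i) y) ^ 2 + (pd 0 (pds l (w i)) y) ^ 2 + (pd 1 (pds l (w i)) y) ^ 2
            + (pd 0 (pd 1 (pds l (w i))) y) ^ 2) =
      (∫ y in Metric.ball (0 : E2) (3 / 16), (pds l (w i) y) ^ 2)
      + (∫ y in Metric.ball (0 : E2) (3 / 16), (pds (0 :: l) (w i) y) ^ 2)
      + (∫ y in Metric.ball (0 : E2) (3 / 16), (pds (1 :: l) (w i) y) ^ 2)
      + (∫ y in Metric.ball (0 : E2) (3 / 16), (pds (0 :: 1 :: l) (w i) y) ^ 2) := by
    have a1 : ∫ y in Metric.ball (0 : E2) (3 / 16), ((pds l (w i) y) ^ 2 + (pds (0 :: l) (w i) y) ^ 2) =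
        (∫ y in Metric.ball (0 : E2) (3 / 16), (pds l (w i) y) ^ 2)
        + (∫ y in Metric.ball (0 : E2) (3 / 16), (pds (0 :: l) (w i) y) ^ 2) :=
      integral_add (hi l) (hi (0 :: l))
    have a2 : ∫ y in Metric.ball (0 : E2) (3 / 16), ((pds l (w i) y) ^ 2 + (pds (0 :: l) (w i) y) ^ 2
        + (pds (1 :: l) (w i) y) ^ 2) =
        (∫ y in Metric.ball (0 : E2) (3 / 16), ((pds l (w i) y) ^ 2 + (pds (0 :: l) (w i) y) ^ 2))
        + (∫ y in Metric.ball (0 : E2) (3 / 16), (pds (1 :: l) (w i) y) ^ 2) :=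
      integral_add ((hi l).add (hi (0 :: l))) (hi (1 :: l))
    have a3 : ∫ y in Metric.ball (0 : E2) (3 / 16), ((pds l (w i) y) ^ 2 + (pds (0 :: l) (w i) y) ^ 2
        + (pds (1 :: l) (w i) y) ^ 2 + (pds (0 :: 1 :: l) (w i) y) ^ 2) =
        (∫ y in Metric.ball (0 : E2) (3 / 16), ((pds l (w i) y) ^ 2 + (pds (0 :: l) (w i) y) ^ 2
          + (pds (1 :: l) (w i) y) ^ 2))
        + (∫ y in Metric.ball (0 : E2) (3 / 16), (pds (0 :: 1 :: l) (w i) y) ^ 2) :=
      integral_add (((hi l).add (hi (0 :: l))).add (hi (1 :: l))) (hi (0 :: 1 :: l))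
    rw [← a1, ← a2, ← a3]
    rfl
  rw [e1] at hs
  refine hs.trans ?_
  rw [mul_assoc]
  refine mul_le_mul_of_nonneg_left ?_ hKs.le
  linarith

end Pool.Agent.SLG
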