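import Pool.Agent.SLG.Defs

/-!
ROW M0 (basic facts on the mollifier kernel `ker ε`).
`ker ε` for `0 < ε` is `(b).normed volume` with `b : ContDiffBump (0 : E2)`, `rIn = ε/2`,
`rOut = ε` (`dif_pos`).  Use `ContDiffBump.contDiff_normed`, `ContDiffBump.nonneg_normed`,
`ContDiffBump.integral_normed`, `ContDiffBump.support_normed_eq`,
`ContDiffBump.normed_neg` (symmetry), `ContDiffBump.hasCompactSupport_normed`.
-/

namespace Pool.Agent.SLG

open MeasureTheory

theorem m0_ker {ε : ℝ} (hε : 0 < ε) : ∃ b : ContDiffBump (0 : E2), b.rOut = ε ∧ ker ε = b.normed volume := by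
  refine ⟨ContDiffBump.mk (c := (0 : E2)) (ε / 2) ε (by positivity) (by linarith), rfl, ?_⟩
  unfold ker
  rw [dif_pos hε]

theorem ker_facts {ε : ℝ} (hε : 0 < ε) :
    ContDiff ℝ ((⊤ : ℕ∞) : WithTop ℕ∞) (ker ε) ∧ HasCompactSupport (ker ε) ∧
    (∀ x, 0 ≤ ker ε x) ∧ (∫ x, ker ε x) = 1 ∧ (∀ x, ker ε (-x) = ker ε x) ∧
    (∀ x, ε ≤ ‖x‖ → ker ε x = 0) ∧ Integrable (ker ε) volume := by
  obtain ⟨b, hb, hk⟩ := m0_ker hε
  rw [hk]
  refine ⟨b.contDiff_normed, b.hasCompactSupport_normed, b.nonneg_normed, b.integral_normed, b.normed_neg, ?_,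
    b.integrable_normed⟩
  intro x hx
  by_contra hcon
  have h1 : x ∈ Function.support (b.normed volume) := hcon
  rw [b.support_normed_eq, hb, Metric.mem_ball, dist_zero_right] at h1
  linarith

/-- Lipschitz functions are measurable and locally bounded, and so are their partial
derivatives (`measurable_fderiv_apply_const`, `norm_fderiv_le_of_lipschitz`, `‖ee j‖ = 1`). -/
theorem lb_of_lipschitz {g : E2 → ℝ} {L : NNReal} (hg : LipschitzWith L g) :
    LB g ∧ (∀ j, LB (pd j g)) ∧ (∀ j x, |pd j g x| ≤ L) := by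
  have hpd : ∀ j x, |pd j g x| ≤ L := by
    intro j x
    have h1 : ‖fderiv ℝ g x (ee j)‖ ≤ ‖fderiv ℝ g x‖ * ‖ee j‖ := ContinuousLinearMap.le_opNorm _ _
    have h2 : ‖ee j‖ = 1 := by
      unfold ee
      rw [PiLp.norm_single, norm_one]
    rw [h2, mul_one] at h1
    exact h1.trans (norm_fderiv_le_of_lipschitz ℝ hg)
  refine ⟨⟨hg.continuous.measurable, fun R => ⟨|g 0| + L * R, fun x hx => ?_⟩⟩,
    fun j => ⟨measurable_fderiv_apply_const ℝ g (ee j), fun R => ⟨L, fun x _ => hpd j x⟩⟩, hpd⟩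
  have h1 := hg.dist_le_mul x 0
  rw [Real.dist_eq, dist_zero_right] at h1
  have h2 : |g x| ≤ |g 0| + |g x - g 0| := by
    have := abs_add_le (g 0) (g x - g 0)
    rwa [add_sub_cancel] at this
  have h3 : (L : ℝ) * ‖x‖ ≤ L * R := mul_le_mul_of_nonneg_left hx L.coe_nonneg
  linarith

theorem m0_int {g : E2 → ℝ} (hg : LB g) (x : E2) (r : ℝ) : IntegrableOn g (Metric.ball x r) volume := by
  obtain ⟨B, hB⟩ := hg.2 (‖x‖ + r)
  refine Measure.integrableOn_of_bounded measure_ball_lt_top.ne hg.1.aestronglyMeasurable (M := B) ?_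
  rw [ae_restrict_iff' measurableSet_ball]
  refine ae_of_all _ fun y hy => hB y ?_
  rw [Metric.mem_ball, dist_eq_norm] at hy
  have h1 : ‖y‖ ≤ ‖x‖ + ‖y - x‖ := by
    have := norm_add_le x (y - x)
    rwa [add_sub_cancel] at this
  linarith

theorem m0_mul {g h : E2 → ℝ} (hg : LB g) (hh : LB h) : LB fun x => g x * h x := by
  refine ⟨hg.1.mul hh.1, fun R => ?_⟩
  obtain ⟨B, hB⟩ := hg.2 R
  obtain ⟨B', hB'⟩ := hh.2 R
  refine ⟨B * B', fun x hx => ?_⟩
  rw [abs_mul]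
  exact mul_le_mul (hB x hx) (hB' x hx) (abs_nonneg _) ((abs_nonneg _).trans (hB x hx))

/-- `LB` functions are integrable on balls, with their squares; sums, products and constant
multiples of `LB` functions are `LB`. -/
theorem lb_facts : (∀ g : E2 → ℝ, LB g → ∀ x r, IntegrableOn g (Metric.ball x r) volume ∧
      IntegrableOn (fun y => g y ^ 2) (Metric.ball x r) volume) ∧
    (∀ g : E2 → ℝ, LB g → LocallyIntegrable g volume) ∧
    (∀ g h : E2 → ℝ, LB g → LB h → LB (fun x => g x + h x) ∧ LB (fun x => g x - h x) ∧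
      LB (fun x => g x * h x)) ∧
    (∀ a : ℝ, LB (fun _ => a)) := by
  refine ⟨fun g hg x r => ⟨m0_int hg x r, ?_⟩, fun g hg x => ⟨Metric.ball x 1, Metric.ball_mem_nhds x one_pos, m0_int hg x 1⟩,
    fun g h hg hh => ⟨?_, ?_, m0_mul hg hh⟩, fun a => ⟨measurable_const, fun R => ⟨|a|, fun x _ => le_rfl⟩⟩⟩
  · have h1 := m0_int (m0_mul hg hg) x r
    have h2 : (fun y => g y ^ 2) = fun y => g y * g y := by
      funext y
      ring
    rw [h2]
    exact h1
  · refine ⟨hg.1.add hh.1, fun R => ?_⟩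
    obtain ⟨B, hB⟩ := hg.2 R
    obtain ⟨B', hB'⟩ := hh.2 R
    exact ⟨B + B', fun x hx => (abs_add_le _ _).trans (add_le_add (hB x hx) (hB' x hx))⟩
  · refine ⟨hg.1.sub hh.1, fun R => ?_⟩
    obtain ⟨B, hB⟩ := hg.2 R
    obtain ⟨B', hB'⟩ := hh.2 R
    exact ⟨B + B', fun x hx => (abs_sub _ _).trans (add_le_add (hB x hx) (hB' x hx))⟩

end Pool.Agent.SLG
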