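import Pool.Agent.SLG.M0

/-!
ROW M1 (derivatives of mollifications).
`mol ε g x = ∫ y, ker ε (x - y) * g y` is the convolution of the smooth compactly supported
`ker ε` with the locally integrable `g` (change variables / `convolution_eq_swap`), so it is
`C^∞` (`HasCompactSupport.contDiff_convolution_left` or `..._right`) and derivatives fall on the
kernel (`HasCompactSupport.hasFDerivAt_convolution_left/right`).  Second claim: induction on `l`,
with `pds l (ker ε)` smooth and compactly supported in place of `ker ε`; it is convenient to prove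
the one-step statement for an arbitrary smooth compactly supported kernel `k`:
`pd j (fun x => ∫ y, k (x - y) * g y) = fun x => ∫ y, pd j k (x - y) * g y`.
-/

namespace Pool.Agent.SLG

open MeasureTheory

theorem m1_conv (k g : E2 → ℝ) : (fun x => ∫ y, k (x - y) * g y) =
    convolution g k (ContinuousLinearMap.mul ℝ ℝ) volume := by
  funext x
  unfold convolution
  refine integral_congr_ae (ae_of_all _ fun y => ?_)
  show k (x - y) * g y = g y * k (x - y)
  exact mul_comm _ _

theorem m1_smooth {k g : E2 → ℝ} (hk : ContDiff ℝ ((⊤ : ℕ∞) : WithTop ℕ∞) k) (hc : HasCompactSupport k)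
    (hg : LocallyIntegrable g volume) :
    ContDiff ℝ ((⊤ : ℕ∞) : WithTop ℕ∞) (fun x => ∫ y, k (x - y) * g y) := by
  rw [m1_conv]
  exact hc.contDiff_convolution_right _ hg hk

theorem m1_one {k g : E2 → ℝ} (hk : ContDiff ℝ ((⊤ : ℕ∞) : WithTop ℕ∞) k) (hc : HasCompactSupport k)
    (hg : LocallyIntegrable g volume) (j : Fin 2) :
    pd j (fun x => ∫ y, k (x - y) * g y) = fun x => ∫ y, pd j k (x - y) * g y := by
  funext x
  have hk1 : ContDiff ℝ 1 k := hk.of_le (by exact_mod_cast le_top)
  have h1 := hc.hasFDerivAt_convolution_right (ContinuousLinearMap.mul ℝ ℝ) hg hk1 x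
  unfold pd
  rw [m1_conv, h1.fderiv]
  have h2 : ConvolutionExistsAt g (fderiv ℝ k) x ((ContinuousLinearMap.mul ℝ ℝ).precompR E2) volume :=
    (hc.fderiv ℝ).convolutionExists_right _ hg (hk1.continuous_fderiv one_ne_zero) x
  unfold convolution
  rw [ContinuousLinearMap.integral_apply h2]
  refine integral_congr_ae (ae_of_all _ fun y => ?_)
  show g y * (fderiv ℝ k (x - y)) (ee j) = (fderiv ℝ k (x - y)) (ee j) * g y
  exact mul_comm _ _

theorem m1_pds {k : E2 → ℝ} (hk : ContDiff ℝ ((⊤ : ℕ∞) : WithTop ℕ∞) k) (hc : HasCompactSupport k) (l : List (Fin 2)) :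
    ContDiff ℝ ((⊤ : ℕ∞) : WithTop ℕ∞) (pds l k) ∧ HasCompactSupport (pds l k) ∧ tsupport (pds l k) ⊆ tsupport k := by
  induction l with
  | nil => exact ⟨hk, hc, subset_rfl⟩
  | cons j l ih =>
    obtain ⟨h1, h2, h3⟩ := ih
    refine ⟨?_, h2.fderiv_apply ℝ (ee j), (tsupport_fderiv_apply_subset ℝ (ee j)).trans h3⟩
    exact (h1.fderiv_right (by exact_mod_cast le_top)).clm_apply contDiff_const

theorem mol_deriv {ε : ℝ} (hε : 0 < ε) {g : E2 → ℝ} (hg : LB g) :
    ContDiff ℝ ((⊤ : ℕ∞) : WithTop ℕ∞) (mol ε g) ∧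
    ∀ (l : List (Fin 2)) (x : E2), pds l (mol ε g) x = ∫ y, pds l (ker ε) (x - y) * g y := by
  obtain ⟨k1, k2, -⟩ := ker_facts hε
  have hgl := lb_facts.2.1 g hg
  refine ⟨m1_smooth k1 k2 hgl, fun l => ?_⟩
  have h1 : pds l (mol ε g) = fun x => ∫ y, pds l (ker ε) (x - y) * g y := by
    induction l with
    | nil => rfl
    | cons j l ih =>
      obtain ⟨h2, h3, -⟩ := m1_pds k1 k2 l
      show pd j (pds l (mol ε g)) = _
      rw [ih, m1_one h2 h3 hgl j]
      rfl
  exact fun x => congrFun h1 x

/-- Consequence: pointwise bounds.  `pds l (ker ε)` is continuous with compact support in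
`closedBall 0 ε`, hence bounded by some `Kε`, and vanishes at `x - y` unless
`‖x - y‖ ≤ ε < 2 ε`. -/
theorem mol_bound {ε : ℝ} (hε : 0 < ε) (l : List (Fin 2)) :
    ∃ K : ℝ, 0 < K ∧ ∀ g : E2 → ℝ, LB g → ∀ x : E2,
      |pds l (mol ε g) x| ≤ K * ∫ y in Metric.ball x (2 * ε), |g y| := by
  obtain ⟨k1, k2, k3, k4, k5, k6, -⟩ := ker_facts hε
  obtain ⟨h1, h2, h3⟩ := m1_pds k1 k2 l
  obtain ⟨C, hC⟩ := h2.exists_bound_of_continuous h1.continuous
  have hsub : tsupport (ker ε) ⊆ Metric.closedBall (0 : E2) ε := by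
    refine closure_minimal (fun y hy => ?_) Metric.isClosed_closedBall
    rw [Metric.mem_closedBall, dist_zero_right]
    by_contra hcon
    exact hy (k6 y (not_le.1 hcon).le)
  refine ⟨|C| + 1, by positivity, fun g hg x => ?_⟩
  rw [(mol_deriv hε hg).2 l x, ← integral_indicator measurableSet_ball, ← integral_const_mul]
  refine abs_integral_le_integral_abs.trans ?_
  have hi : Integrable ((Metric.ball x (2 * ε)).indicator fun y => |g y|) volume := by
    rw [integrable_indicator_iff measurableSet_ball]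
    exact (lb_facts.1 g hg x (2 * ε)).1.abs
  refine integral_mono_of_nonneg (ae_of_all _ fun y => abs_nonneg _) (hi.const_mul _) (ae_of_all _ fun y => ?_)
  show |pds l (ker ε) (x - y) * g y| ≤ (|C| + 1) * (Metric.ball x (2 * ε)).indicator (fun y => |g y|) y
  by_cases hy : y ∈ Metric.ball x (2 * ε)
  · rw [Set.indicator_of_mem hy, abs_mul]
    refine mul_le_mul_of_nonneg_right ?_ (abs_nonneg _)
    have h4 : |pds l (ker ε) (x - y)| ≤ C := hC (x - y)
    linarith [le_abs_self C]
  · rw [Set.indicator_of_notMem hy]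
    have h4 : x - y ∉ tsupport (pds l (ker ε)) := by
      intro hmem
      have h5 := hsub (h3 hmem)
      rw [Metric.mem_closedBall, dist_zero_right] at h5
      apply hy
      rw [Metric.mem_ball, dist_comm, dist_eq_norm]
      linarith
    rw [image_eq_zero_of_notMem_tsupport h4, zero_mul, abs_zero, mul_zero]

end Pool.Agent.SLG
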