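import Pool.Agent.SLG.M1

/-!
ROW M3 (mollification does not increase the `L²` norm).
Cauchy-Schwarz for the probability density `y ↦ ker ε (x - y)`:
`(mol ε g x)² ≤ ∫ y, ker ε (x - y) * (g y)²` (e.g. from
`0 ≤ ∫ ker ε (x - y) (g y - mol ε g x)²`).  Integrate over `x ∈ ball a r` and exchange
(Tonelli / `integral_integral_swap`): since `ker ε (x - y) = 0` unless `‖x - y‖ < ε`, only
`y ∈ ball a (r + ε)` matter, and `∫ x in ball a r, ker ε (x - y) ≤ 1`.
`g` is only `LB`; replace it by `g` times the indicator of `ball a (r + ε)` before using Fubini.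
-/

namespace Pool.Agent.SLG

open MeasureTheory

theorem m3_int {ε : ℝ} (hε : 0 < ε) {g : E2 → ℝ} (hg : LB g) (x : E2) :
    Integrable (fun y => ker ε (x - y) * g y) volume := by
  obtain ⟨ks, kc, -, -, -, kz, -⟩ := ker_facts hε
  have hl : LocallyIntegrable g volume := lb_facts.2.1 g hg
  have hcont : Continuous (fun y => ker ε (x - y)) :=
    ks.continuous.comp (continuous_const.sub continuous_id)
  have hcs : HasCompactSupport (fun y => ker ε (x - y)) := by
    refine HasCompactSupport.intro (isCompact_closedBall x ε) ?_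
    intro y hy
    rw [mem_closedBall_iff_norm, not_le] at hy
    apply kz
    rw [norm_sub_rev]
    exact hy.le
  exact hl.integrable_smul_left_of_hasCompactSupport hcont hcs

theorem m3_pt {ε : ℝ} (hε : 0 < ε) {g : E2 → ℝ} (hg : LB g) (x : E2) :
    (mol ε g x) ^ 2 ≤ ∫ y, ker ε (x - y) * (g y) ^ 2 := by
  obtain ⟨ks, kc, kn, k1, -, kz, ki⟩ := ker_facts hε
  set c := mol ε g x with hc
  have hg2 : LB (fun y => g y ^ 2) := by
    have := (lb_facts.2.2.1 g g hg hg).2.2
    have h2 : (fun y => g y ^ 2) = fun x => g x * g x := by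
      ext1 y
      ring
    rw [h2]
    exact this
  have i2 := m3_int hε hg2 x
  have i1 := m3_int hε hg x
  have i0 : Integrable (fun y => ker ε (x - y)) volume := by
    have := m3_int hε (lb_facts.2.2.2 1) x
    simpa using this
  have e0 : ∫ y, ker ε (x - y) = 1 := by
    rw [integral_sub_left_eq_self (ker ε) volume x, k1]
  have e1 : ∫ y, ker ε (x - y) * g y = c := rfl
  have h0 : 0 ≤ ∫ y, ker ε (x - y) * (g y - c) ^ 2 :=
    integral_nonneg fun y => mul_nonneg (kn _) (sq_nonneg _)
  have h1 : ∀ y, ker ε (x - y) * (g y - c) ^ 2 =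
      ker ε (x - y) * (g y) ^ 2 - 2 * c * (ker ε (x - y) * g y) + c ^ 2 * ker ε (x - y) := by
    intro y
    ring
  simp_rw [h1] at h0
  rw [integral_add, integral_sub i2 (i1.const_mul _), integral_const_mul, integral_const_mul, e0,
    e1] at h0
  · nlinarith
  · exact i2.sub (i1.const_mul _)
  · exact i0.const_mul _

theorem mol_sq {ε : ℝ} (hε : 0 < ε) {g : E2 → ℝ} (hg : LB g) (a : E2) (r : ℝ) :
    ∫ x in Metric.ball a r, (mol ε g x) ^ 2 ≤ ∫ x in Metric.ball a (r + ε), (g x) ^ 2 := by
  obtain ⟨ks, kc, kn, k1, -, kz, ki⟩ := ker_facts hε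
  set h : E2 → ℝ := (Metric.ball a (r + ε)).indicator (fun y => (g y) ^ 2) with hh
  have hint : Integrable h volume := by
    rw [hh, integrable_indicator_iff measurableSet_ball]
    exact (lb_facts.1 g hg a (r + ε)).2
  have hh0 : ∀ y, 0 ≤ h y := fun y => Set.indicator_nonneg (fun y _ => sq_nonneg _) y
  set Φ : E2 → ℝ := fun x => ∫ y, h y * ker ε (x - y) with hΦ
  have hconv : Φ = convolution h (ker ε) (ContinuousLinearMap.mul ℝ ℝ) volume := rfl
  have hΦi : Integrable Φ volume := by
    rw [hconv]
    exact hint.integrable_convolution _ ki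
  have hΦ0 : ∀ x, 0 ≤ Φ x := fun x => integral_nonneg fun y => mul_nonneg (hh0 y) (kn _)
  have hΦe : ∫ x, Φ x = ∫ y, h y := by
    rw [hconv, integral_convolution _ hint ki, k1]
    simp
  have hpt : ∀ x ∈ Metric.ball a r, (mol ε g x) ^ 2 ≤ Φ x := by
    intro x hx
    refine (m3_pt hε hg x).trans (le_of_eq ?_)
    rw [hΦ]
    apply integral_congr_ae
    refine Filter.Eventually.of_forall fun y => ?_
    change ker ε (x - y) * (g y) ^ 2 = h y * ker ε (x - y)
    by_cases hy : y ∈ Metric.ball a (r + ε)
    · rw [hh, Set.indicator_of_mem hy]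
      ring
    · have hk : ker ε (x - y) = 0 := by
        apply kz
        by_contra hlt
        push Not at hlt
        apply hy
        rw [Metric.mem_ball] at hx ⊢
        have h2 : dist y a ≤ dist y x + dist x a := dist_triangle _ _ _
        have h3 : dist y x = ‖x - y‖ := by rw [dist_comm, dist_eq_norm]
        linarith
      rw [hk]
      ring
  have hms : ContDiff ℝ ((⊤ : ℕ∞) : WithTop ℕ∞) (mol ε g) := (mol_deriv hε hg).1
  have hmi : IntegrableOn (fun x => (mol ε g x) ^ 2) (Metric.ball a r) volume :=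
    ((hms.continuous.pow 2).continuousOn.integrableOn_compact (isCompact_closedBall a r)).mono_set
      Metric.ball_subset_closedBall
  calc ∫ x in Metric.ball a r, (mol ε g x) ^ 2 ≤ ∫ x in Metric.ball a r, Φ x :=
        setIntegral_mono_on hmi hΦi.integrableOn measurableSet_ball hpt
    _ ≤ ∫ x, Φ x := setIntegral_le_integral hΦi (Filter.Eventually.of_forall hΦ0)
    _ = ∫ y, h y := hΦe
    _ = ∫ x in Metric.ball a (r + ε), (g x) ^ 2 := by
        rw [hh, integral_indicator measurableSet_ball]

end Pool.Agent.SLG
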