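import Pool.Agent.SLG.M2
import Pool.Agent.SLG.M3

/-!
ROW M4 (approximation in `L²`).
For `g` Lipschitz, `∫_{ball 0 r} (g - mol ε g)² ≤ ε² ∫_{ball 0 (r+2ε)} |∇g|²`.
Proof.  First let `h` be smooth (`C^1` is enough).  For `x` and `‖z‖ ≤ ε`,
`h x - h (x - z) = ∫_0^1 ∑_j pd j h (x - t z) z_j dt`, so
`(h x - h (x-z))² ≤ ‖z‖² ∫_0^1 ∑_j (pd j h (x - t z))² dt`.  As in row M3 (Cauchy-Schwarz with the
probability density `ker ε`), `(h x - mol ε h x)² = (∫ ker ε z (h x - h (x-z)) dz)²
 ≤ ∫ ker ε z (h x - h (x - z))² dz`.  Integrate over `x ∈ ball 0 r`, exchange the integrals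
(all functions continuous, domains bounded), and use translation invariance:
`∫_{x ∈ ball 0 r} (pd j h (x - t z))² ≤ ∫_{ball 0 (r+ε)} (pd j h)²` for `‖t z‖ ≤ ε`.  Result:
`∫_{ball 0 r} (h - mol ε h)² ≤ ε² ∫_{ball 0 (r+ε)} ∑_j (pd j h)²`.
Now for Lipschitz `g` apply this to `h = mol κ g`, `0 < κ ≤ ε`, with `pd j (mol κ g) =
mol κ (pd j g)` (`mol_lip`) and `mol_sq`: the right side is at most
`ε² ∫_{ball 0 (r+ε+κ)} ∑_j (pd j g)² ≤ ε² ∫_{ball 0 (r+2ε)} ∑_j (pd j g)²`.  Left side: as
`κ → 0`, `|mol κ g - g| ≤ L κ` and `|mol ε (mol κ g) - mol ε g| ≤ L κ` uniformly, so the left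
side converges to `∫_{ball 0 r} (g - mol ε g)²` (the integrands are uniformly bounded on the
ball and converge uniformly).
-/

namespace Pool.Agent.SLG

open MeasureTheory

/-- Cauchy-Schwarz on the unit interval. -/
theorem m4_sq_int {φ : ℝ → ℝ} (hφ : Continuous φ) :
    (∫ t in (0 : ℝ)..1, φ t) ^ 2 ≤ ∫ t in (0 : ℝ)..1, φ t ^ 2 := by
  set m := ∫ t in (0 : ℝ)..1, φ t with hm
  have h1 : 0 ≤ ∫ t in (0 : ℝ)..1, (φ t - m) ^ 2 :=
    intervalIntegral.integral_nonneg (by norm_num) fun t _ => sq_nonneg _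
  have h2 : ∫ t in (0 : ℝ)..1, (φ t - m) ^ 2 =
      (∫ t in (0 : ℝ)..1, φ t ^ 2) - 2 * m * (∫ t in (0 : ℝ)..1, φ t) + m ^ 2 := by
    have e1 : ∀ t, (φ t - m) ^ 2 = φ t ^ 2 - 2 * m * φ t + m ^ 2 := fun t => by ring
    simp_rw [e1]
    rw [intervalIntegral.integral_add, intervalIntegral.integral_sub,
      intervalIntegral.integral_const_mul, intervalIntegral.integral_const]
    · simp
    · exact (hφ.pow 2).intervalIntegrable _ _
    · exact (continuous_const.mul hφ).intervalIntegrable _ _
    · exact ((hφ.pow 2).sub (continuous_const.mul hφ)).intervalIntegrable _ _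
    · exact continuous_const.intervalIntegrable _ _
  rw [h2, ← hm] at h1
  nlinarith

theorem m4_clm (A : E2 →L[ℝ] ℝ) (v : E2) :
    (A v) ^ 2 ≤ ‖v‖ ^ 2 * (A (ee 0) ^ 2 + A (ee 1) ^ 2) := by
  have h1 : v = v 0 • ee 0 + v 1 • ee 1 := by
    ext i
    fin_cases i <;> simp [ee]
  have h2 : A v = v 0 * A (ee 0) + v 1 * A (ee 1) := by
    conv_lhs => rw [h1]
    rw [map_add, map_smul, map_smul, smul_eq_mul, smul_eq_mul]
  have h3 : ‖v‖ ^ 2 = v 0 ^ 2 + v 1 ^ 2 := by
    rw [EuclideanSpace.norm_sq_eq]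
    simp [Fin.sum_univ_two]
  rw [h2, h3]
  nlinarith [sq_nonneg (v 0 * A (ee 1) - v 1 * A (ee 0))]

/-- The square of a difference through the gradient. -/
theorem m4_diff {h : E2 → ℝ} (hh : ContDiff ℝ ((⊤ : ℕ∞) : WithTop ℕ∞) h) (x z : E2) :
    (h x - h (x - z)) ^ 2 ≤ ‖z‖ ^ 2 *
      ∫ t in (0 : ℝ)..1, ((pd 0 h (x - t • z)) ^ 2 + (pd 1 h (x - t • z)) ^ 2) := by
  have hd : ∀ y, HasFDerivAt h (fderiv ℝ h y) y := fun y =>
    ((hh.differentiable (by simp)) y).hasFDerivAt
  have hfc : Continuous (fderiv ℝ h) := hh.continuous_fderiv (by simp)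
  have hlin : Continuous (fun t : ℝ => x - t • z) :=
    continuous_const.sub (continuous_id.smul continuous_const)
  have hφ : Continuous (fun t : ℝ => fderiv ℝ h (x - t • z) (-z)) :=
    (hfc.comp hlin).clm_apply continuous_const
  have h1 : ∫ t in (0 : ℝ)..1, fderiv ℝ h (x - t • z) (-z) = h (x - z) - h x := by
    have h2 : ∀ t ∈ Set.uIcc (0 : ℝ) 1, HasDerivAt (fun t : ℝ => h (x - t • z))
        (fderiv ℝ h (x - t • z) (-z)) t := by
      intro t _
      have h3 : HasDerivAt (fun t : ℝ => x - t • z) (-z) t := by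
        have h4 : HasDerivAt (fun t : ℝ => t • z) ((1 : ℝ) • z) t :=
          (hasDerivAt_id t).smul_const z
        have h5 : HasDerivAt (fun t : ℝ => x - t • z) (0 - (1 : ℝ) • z) t :=
          (hasDerivAt_const t x).sub h4
        rwa [one_smul, zero_sub] at h5
      exact (hd (x - t • z)).comp_hasDerivAt t h3
    rw [intervalIntegral.integral_eq_sub_of_hasDerivAt h2 (hφ.intervalIntegrable _ _)]
    simp
  have h6 : (h x - h (x - z)) ^ 2 = (∫ t in (0 : ℝ)..1, fderiv ℝ h (x - t • z) (-z)) ^ 2 := by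
    rw [h1]
    ring
  rw [h6]
  refine (m4_sq_int hφ).trans ?_
  rw [← intervalIntegral.integral_const_mul]
  have hp : ∀ j, Continuous (fun t : ℝ => pd j h (x - t • z)) := fun j =>
    (m2_pd_smooth hh j).continuous.comp hlin
  refine intervalIntegral.integral_mono_on (by norm_num) ((hφ.pow 2).intervalIntegrable _ _)
    ((continuous_const.mul (((hp 0).pow 2).add ((hp 1).pow 2))).intervalIntegrable _ _) ?_
  intro t _
  have h7 := m4_clm (fderiv ℝ h (x - t • z)) (-z)
  rw [norm_neg] at h7
  exact h7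

/-- Claim for fixed `z`: integrate over the ball and exchange. -/
theorem m4_fixed {h : E2 → ℝ} (hh : ContDiff ℝ ((⊤ : ℕ∞) : WithTop ℕ∞) h) {ε r : ℝ}
    {z : E2} (hz : ‖z‖ < ε) :
    ∫ x in Metric.ball (0 : E2) r, (h x - h (x - z)) ^ 2 ≤
      ε ^ 2 * ∫ x in Metric.ball (0 : E2) (r + ε), ((pd 0 h x) ^ 2 + (pd 1 h x) ^ 2) := by
  set G : E2 → ℝ := fun x => (pd 0 h x) ^ 2 + (pd 1 h x) ^ 2 with hG
  have hGc : Continuous G :=
    ((m2_pd_smooth hh 0).continuous.pow 2).add ((m2_pd_smooth hh 1).continuous.pow 2)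
  have hG0 : ∀ x, 0 ≤ G x := fun x => by positivity
  have hε : 0 < ε := lt_of_le_of_lt (norm_nonneg z) hz
  have hhc : Continuous h := hh.continuous
  have hint : ∀ {f : E2 → ℝ}, Continuous f → ∀ s, IntegrableOn f (Metric.ball (0 : E2) s) volume :=
    fun hf s => (hf.continuousOn.integrableOn_compact
      (isCompact_closedBall (0 : E2) s)).mono_set Metric.ball_subset_closedBall
  have hF : Continuous (fun p : E2 × ℝ => G (p.1 - p.2 • z)) :=
    hGc.comp (continuous_fst.sub (continuous_snd.smul continuous_const))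
  -- integrability on the product
  have hprod : Integrable (Function.uncurry fun (x : E2) (t : ℝ) => G (x - t • z))
      ((volume.restrict (Metric.ball (0 : E2) r)).prod (volume.restrict (Set.Ioc (0 : ℝ) 1))) := by
    rw [Measure.prod_restrict]
    have h1 : IntegrableOn (fun p : E2 × ℝ => G (p.1 - p.2 • z))
        (Metric.closedBall (0 : E2) r ×ˢ Set.Icc (0 : ℝ) 1) (volume.prod volume) :=
      hF.continuousOn.integrableOn_compact ((isCompact_closedBall (0 : E2) r).prod isCompact_Icc)
    exact h1.mono_set (Set.prod_mono Metric.ball_subset_closedBall Set.Ioc_subset_Icc_self)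
  have hcontI : Continuous (fun x : E2 => ∫ t in (0 : ℝ)..1, G (x - t • z)) := by
    refine intervalIntegral.continuous_parametric_intervalIntegral_of_continuous' ?_ 0 1
    exact hF
  have step1 : ∫ x in Metric.ball (0 : E2) r, (h x - h (x - z)) ^ 2 ≤
      ∫ x in Metric.ball (0 : E2) r, ε ^ 2 * ∫ t in (0 : ℝ)..1, G (x - t • z) := by
    refine setIntegral_mono (hint ((hhc.sub (hhc.comp (continuous_id.sub continuous_const))).pow 2) r)
      (hint (continuous_const.mul hcontI) r) fun x => ?_
    refine (m4_diff hh x z).trans ?_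
    refine mul_le_mul_of_nonneg_right ?_ ?_
    · exact pow_le_pow_left₀ (norm_nonneg z) hz.le 2
    · exact intervalIntegral.integral_nonneg (by norm_num) fun t _ => hG0 _
  refine step1.trans ?_
  rw [integral_const_mul]
  refine mul_le_mul_of_nonneg_left ?_ (by positivity)
  have e1 : ∫ x in Metric.ball (0 : E2) r, ∫ t in (0 : ℝ)..1, G (x - t • z) =
      ∫ t in Set.Ioc (0 : ℝ) 1, ∫ x in Metric.ball (0 : E2) r, G (x - t • z) := by
    simp_rw [intervalIntegral.integral_of_le (zero_le_one (α := ℝ))]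
    exact integral_integral_swap hprod
  rw [e1]
  have step2 : ∀ t ∈ Set.Ioc (0 : ℝ) 1, ∫ x in Metric.ball (0 : E2) r, G (x - t • z) ≤
      ∫ x in Metric.ball (0 : E2) (r + ε), G x := by
    intro t ht
    have h2 : ∫ x in Metric.ball (0 : E2) r, G (x - t • z) =
        ∫ x in (fun y => y + t • z) ⁻¹' Metric.ball (0 : E2) r, G x := by
      have h3 : MeasurePreserving (fun y : E2 => y + t • z) volume volume :=
        measurePreserving_add_right volume (t • z)
      have h4 := h3.setIntegral_preimage_emb (MeasurableEquiv.addRight (t • z)).measurableEmbedding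
        (fun x => G (x - t • z)) (Metric.ball (0 : E2) r)
      rw [← h4]
      refine integral_congr_ae (Filter.Eventually.of_forall fun y => ?_)
      simp
    rw [h2]
    refine setIntegral_mono_set (hint hGc (r + ε)) (Filter.Eventually.of_forall fun x => hG0 x) ?_
    refine Filter.Eventually.of_forall fun y hy => ?_
    have hy' : ‖y + t • z‖ < r := by
      have := hy
      change y + t • z ∈ Metric.ball (0 : E2) r at this
      rwa [mem_ball_zero_iff] at this
    change y ∈ Metric.ball (0 : E2) (r + ε)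
    rw [mem_ball_zero_iff]
    have h5 : ‖y‖ ≤ ‖y + t • z‖ + ‖t • z‖ := by
      have := norm_sub_le (y + t • z) (t • z)
      rwa [add_sub_cancel_right] at this
    have h6 : ‖t • z‖ ≤ ‖z‖ := by
      rw [norm_smul, Real.norm_eq_abs, abs_of_pos ht.1]
      calc t * ‖z‖ ≤ 1 * ‖z‖ := mul_le_mul_of_nonneg_right ht.2 (norm_nonneg z)
        _ = ‖z‖ := one_mul _
    linarith
  have h7 : ∫ t in Set.Ioc (0 : ℝ) 1, ∫ x in Metric.ball (0 : E2) r, G (x - t • z) ≤
      ∫ t in Set.Ioc (0 : ℝ) 1, ∫ x in Metric.ball (0 : E2) (r + ε), G x := by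
    refine setIntegral_mono_on ?_ (by simp) measurableSet_Ioc step2
    exact hprod.integral_prod_right
  refine h7.trans ?_
  simp

/-- Jensen for the probability density `ker ε`. -/
theorem m4_jensen {h : E2 → ℝ} (hh : Continuous h) {ε : ℝ} (hε : 0 < ε) (x : E2) :
    (h x - mol ε h x) ^ 2 ≤ ∫ z, ker ε z * (h x - h (x - z)) ^ 2 := by
  obtain ⟨ks, kc, k0, k1, ksym, kout, kint⟩ := ker_facts hε
  have e1 : mol ε h x = ∫ z, ker ε z * h (x - z) := by
    unfold mol
    have h1 := integral_sub_left_eq_self (fun y => ker ε (x - y) * h y) volume x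
    rw [← h1]
    refine integral_congr_ae (Filter.Eventually.of_forall fun y => ?_)
    simp
  have hhz : Continuous (fun z => h (x - z)) := hh.comp (continuous_const.sub continuous_id)
  set m := h x - mol ε h x with hm
  have hi1 : Integrable (fun z => ker ε z * (h x - h (x - z))) volume :=
    (ks.continuous.mul (continuous_const.sub hhz)).integrable_of_hasCompactSupport kc.mul_right
  have hi2 : Integrable (fun z => ker ε z * (h x - h (x - z)) ^ 2) volume :=
    (ks.continuous.mul ((continuous_const.sub hhz).pow 2)).integrable_of_hasCompactSupport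
      kc.mul_right
  have hi3 : Integrable (fun z => ker ε z * h (x - z)) volume :=
    (ks.continuous.mul hhz).integrable_of_hasCompactSupport kc.mul_right
  have hi4 : Integrable (fun z => ker ε z * h x) volume := kint.mul_const _
  have e2 : ∫ z, ker ε z * (h x - h (x - z)) = m := by
    rw [hm, e1]
    have h1 : h x = ∫ z, ker ε z * h x := by
      rw [integral_mul_const, k1, one_mul]
    conv_rhs => rw [h1]
    rw [← integral_sub hi4 hi3]
    refine integral_congr_ae (Filter.Eventually.of_forall fun z => ?_)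
    simp only []
    ring
  have h2 : 0 ≤ ∫ z, ker ε z * ((h x - h (x - z)) - m) ^ 2 :=
    integral_nonneg fun z => mul_nonneg (k0 z) (sq_nonneg _)
  have h3 : ∫ z, ker ε z * ((h x - h (x - z)) - m) ^ 2 =
      (∫ z, ker ε z * (h x - h (x - z)) ^ 2) - 2 * m * m + m ^ 2 := by
    have e3 : ∀ z, ker ε z * ((h x - h (x - z)) - m) ^ 2 =
        (ker ε z * (h x - h (x - z)) ^ 2 - 2 * m * (ker ε z * (h x - h (x - z)))) +
          m ^ 2 * ker ε z := fun z => by ring
    simp_rw [e3]
    have j1 : Integrable (fun z => 2 * m * (ker ε z * (h x - h (x - z)))) volume :=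
      hi1.const_mul _
    have j2 : Integrable (fun z => ker ε z * (h x - h (x - z)) ^ 2 -
        2 * m * (ker ε z * (h x - h (x - z)))) volume := hi2.sub j1
    have j3 : Integrable (fun z => m ^ 2 * ker ε z) volume := kint.const_mul _
    rw [integral_add j2 j3, integral_sub hi2 j1, integral_const_mul, integral_const_mul, e2, k1]
    ring
  rw [h3] at h2
  nlinarith

theorem m4_mol_cont {h : E2 → ℝ} {ε : ℝ} (hε : 0 < ε) (hh : LB h) : Continuous (mol ε h) :=
  (mol_deriv hε hh).1.continuous

theorem m4_lb {h : E2 → ℝ} (hh : Continuous h) : LB h := by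
  refine ⟨hh.measurable, fun R => ?_⟩
  obtain ⟨B, hB⟩ := (isCompact_closedBall (0 : E2) R).exists_bound_of_continuousOn
    hh.continuousOn
  exact ⟨B, fun x hx => by
    have := hB x (by rw [mem_closedBall_zero_iff]; exact hx)
    rwa [Real.norm_eq_abs] at this⟩

/-- The smooth case. -/
theorem m4_smooth {h : E2 → ℝ} (hh : ContDiff ℝ ((⊤ : ℕ∞) : WithTop ℕ∞) h) {ε : ℝ}
    (hε : 0 < ε) (r : ℝ) :
    ∫ x in Metric.ball (0 : E2) r, (h x - mol ε h x) ^ 2 ≤
      ε ^ 2 * ∫ x in Metric.ball (0 : E2) (r + ε), ((pd 0 h x) ^ 2 + (pd 1 h x) ^ 2) := by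
  obtain ⟨ks, kc, k0, k1, ksym, kout, kint⟩ := ker_facts hε
  have hhc : Continuous h := hh.continuous
  have hmc : Continuous (mol ε h) := m4_mol_cont hε (m4_lb hhc)
  have hint : ∀ {f : E2 → ℝ}, Continuous f → ∀ s, IntegrableOn f (Metric.ball (0 : E2) s) volume :=
    fun hf s => (hf.continuousOn.integrableOn_compact
      (isCompact_closedBall (0 : E2) s)).mono_set Metric.ball_subset_closedBall
  have hF : Continuous (fun p : E2 × E2 => ker ε p.2 * (h p.1 - h (p.1 - p.2)) ^ 2) :=
    (ks.continuous.comp continuous_snd).mul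
      (((hhc.comp continuous_fst).sub (hhc.comp (continuous_fst.sub continuous_snd))).pow 2)
  have hprod : Integrable (Function.uncurry fun (x z : E2) => ker ε z * (h x - h (x - z)) ^ 2)
      ((volume.restrict (Metric.ball (0 : E2) r)).prod
        (volume.restrict (Metric.closedBall (0 : E2) ε))) := by
    rw [Measure.prod_restrict]
    have h1 : IntegrableOn (fun p : E2 × E2 => ker ε p.2 * (h p.1 - h (p.1 - p.2)) ^ 2)
        (Metric.closedBall (0 : E2) r ×ˢ Metric.closedBall (0 : E2) ε) (volume.prod volume) :=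
      hF.continuousOn.integrableOn_compact
        ((isCompact_closedBall (0 : E2) r).prod (isCompact_closedBall (0 : E2) ε))
    exact h1.mono_set (Set.prod_mono Metric.ball_subset_closedBall subset_rfl)
  -- the inner integral may be restricted
  have hres : ∀ x, ∫ z, ker ε z * (h x - h (x - z)) ^ 2 =
      ∫ z in Metric.closedBall (0 : E2) ε, ker ε z * (h x - h (x - z)) ^ 2 := by
    intro x
    symm
    refine setIntegral_eq_integral_of_forall_compl_eq_zero fun z hz => ?_
    rw [mem_closedBall_zero_iff, not_le] at hz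
    rw [kout z hz.le, zero_mul]
  have step1 : ∫ x in Metric.ball (0 : E2) r, (h x - mol ε h x) ^ 2 ≤
      ∫ x in Metric.ball (0 : E2) r, ∫ z in Metric.closedBall (0 : E2) ε,
        ker ε z * (h x - h (x - z)) ^ 2 := by
    refine setIntegral_mono (hint ((hhc.sub hmc).pow 2) r) hprod.integral_prod_left fun x => ?_
    rw [← hres x]
    exact m4_jensen hhc hε x
  refine step1.trans ?_
  rw [integral_integral_swap hprod]
  have step2 : ∀ z, ∫ x in Metric.ball (0 : E2) r, ker ε z * (h x - h (x - z)) ^ 2 ≤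
      ker ε z * (ε ^ 2 * ∫ x in Metric.ball (0 : E2) (r + ε), ((pd 0 h x) ^ 2 + (pd 1 h x) ^ 2)) := by
    intro z
    rw [integral_const_mul]
    by_cases hz : ε ≤ ‖z‖
    · rw [kout z hz, zero_mul, zero_mul]
    · push Not at hz
      exact mul_le_mul_of_nonneg_left (m4_fixed hh hz) (k0 z)
  have h3 : ∫ z in Metric.closedBall (0 : E2) ε, ∫ x in Metric.ball (0 : E2) r,
      ker ε z * (h x - h (x - z)) ^ 2 ≤ ∫ z in Metric.closedBall (0 : E2) ε,
      ker ε z * (ε ^ 2 * ∫ x in Metric.ball (0 : E2) (r + ε),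
        ((pd 0 h x) ^ 2 + (pd 1 h x) ^ 2)) :=
    setIntegral_mono hprod.integral_prod_right (kint.integrableOn.mul_const _) step2
  refine h3.trans (le_of_eq ?_)
  rw [integral_mul_const]
  have h4 : ∫ z in Metric.closedBall (0 : E2) ε, ker ε z = 1 := by
    rw [← k1]
    refine setIntegral_eq_integral_of_forall_compl_eq_zero fun z hz => ?_
    rw [mem_closedBall_zero_iff, not_le] at hz
    exact kout z hz.le
  rw [h4, one_mul]

theorem mol_approx {ε : ℝ} (hε : 0 < ε) {g : E2 → ℝ} {L : NNReal} (hg : LipschitzWith L g)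
    (r : ℝ) (hr : 0 < r) :
    ∫ x in Metric.ball (0 : E2) r, (g x - mol ε g x) ^ 2 ≤
      ε ^ 2 * ∫ x in Metric.ball (0 : E2) (r + 2 * ε), ((pd 0 g x) ^ 2 + (pd 1 g x) ^ 2) := by
  obtain ⟨ks, kc, k0, k1, ksym, kout, kint⟩ := ker_facts hε
  obtain ⟨hLB, hLB', hbd⟩ := lb_of_lipschitz hg
  obtain ⟨li, ll, lf, lc⟩ := lb_facts
  have hint : ∀ {f : E2 → ℝ}, Continuous f → ∀ s, IntegrableOn f (Metric.ball (0 : E2) s) volume :=
    fun hf s => (hf.continuousOn.integrableOn_compact
      (isCompact_closedBall (0 : E2) s)).mono_set Metric.ball_subset_closedBall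
  have hmg : Continuous (mol ε g) := m4_mol_cont hε hLB
  set R : ℝ := ∫ x in Metric.ball (0 : E2) (r + 2 * ε), ((pd 0 g x) ^ 2 + (pd 1 g x) ^ 2) with hR
  set V : ℝ := volume.real (Metric.ball (0 : E2) r) with hV
  have hV0 : 0 ≤ V := measureReal_nonneg
  -- for every small radius
  have key : ∀ κ : ℝ, 0 < κ → κ ≤ ε → ∫ x in Metric.ball (0 : E2) r, (g x - mol ε g x) ^ 2 ≤
      ε ^ 2 * R + (8 * L ^ 2 * ε * V) * κ := by
    intro κ hκ hκε
    obtain ⟨ms, md⟩ := mol_deriv hκ hLB
    obtain ⟨la, lb, lcc⟩ := mol_lip hκ hg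
    have hmc : Continuous (mol κ g) := ms.continuous
    have hmm : Continuous (mol ε (mol κ g)) := m4_mol_cont hε (m4_lb hmc)
    have h1 := m4_smooth ms hε r
    -- the right side
    have h2 : ∫ x in Metric.ball (0 : E2) (r + ε),
        ((pd 0 (mol κ g) x) ^ 2 + (pd 1 (mol κ g) x) ^ 2) ≤ R := by
      have hj : ∀ j, ∫ x in Metric.ball (0 : E2) (r + ε), (pd j (mol κ g) x) ^ 2 ≤
          ∫ x in Metric.ball (0 : E2) (r + 2 * ε), (pd j g x) ^ 2 := by
        intro j
        have e1 : ∫ x in Metric.ball (0 : E2) (r + ε), (pd j (mol κ g) x) ^ 2 =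
            ∫ x in Metric.ball (0 : E2) (r + ε), (mol κ (pd j g) x) ^ 2 := by
          refine integral_congr_ae (Filter.Eventually.of_forall fun x => ?_)
          simp only []
          rw [la j x]
        rw [e1]
        refine (mol_sq hκ (hLB' j) 0 (r + ε)).trans ?_
        refine setIntegral_mono_set (li _ (hLB' j) 0 (r + 2 * ε)).2
          (Filter.Eventually.of_forall fun x => sq_nonneg _) ?_
        exact (Metric.ball_subset_ball (by linarith)).eventuallyLE
      rw [integral_add, hR, integral_add]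
      · exact add_le_add (hj 0) (hj 1)
      · exact (li _ (hLB' 0) 0 (r + 2 * ε)).2
      · exact (li _ (hLB' 1) 0 (r + 2 * ε)).2
      · exact hint ((m2_pd_smooth ms 0).continuous.pow 2) _
      · exact hint ((m2_pd_smooth ms 1).continuous.pow 2) _
    -- the left side
    have h3 : ∀ x, |mol ε (mol κ g) x - mol ε g x| ≤ L * κ := by
      intro x
      have hcont : Continuous (fun y => ker ε (x - y)) :=
        ks.continuous.comp (continuous_const.sub continuous_id)
      have hsupp : HasCompactSupport (fun y => ker ε (x - y)) :=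
        kc.comp_homeomorph (Homeomorph.subLeft x)
      have hi1 : Integrable (fun y => ker ε (x - y) * g y) volume :=
        (hcont.mul hg.continuous).integrable_of_hasCompactSupport hsupp.mul_right
      have hi2 : Integrable (fun y => ker ε (x - y) * mol κ g y) volume :=
        (hcont.mul hmc).integrable_of_hasCompactSupport hsupp.mul_right
      have e1 : mol ε (mol κ g) x - mol ε g x =
          ∫ y, (ker ε (x - y) * mol κ g y - ker ε (x - y) * g y) := by
        rw [integral_sub hi2 hi1]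
        rfl
      rw [e1, ← Real.norm_eq_abs]
      have hi3 : Integrable (fun y => ker ε (x - y) * (L * κ)) volume :=
        (kint.comp_sub_left x).mul_const _
      refine (norm_integral_le_of_norm_le hi3 (Filter.Eventually.of_forall fun y => ?_)).trans ?_
      · rw [← mul_sub, norm_mul, Real.norm_eq_abs, abs_of_nonneg (k0 _)]
        refine mul_le_mul_of_nonneg_left ?_ (k0 _)
        rw [Real.norm_eq_abs, abs_sub_comm]
        exact lcc y
      · rw [integral_mul_const, m2_int_sub (ker ε) x, k1, one_mul]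
    have h4 : ∀ x, (g x - mol ε g x) ^ 2 ≤
        (mol κ g x - mol ε (mol κ g) x) ^ 2 + 8 * L ^ 2 * ε * κ := by
      intro x
      have a1 := (mol_lip hε hg).2.2 x
      have a2 := lcc x
      have a3 := h3 x
      have hL0 : (0 : ℝ) ≤ L := L.2
      set a := g x - mol ε g x with ha
      set b := mol κ g x - mol ε (mol κ g) x with hb
      have hab : |a - b| ≤ 2 * (L * κ) := by
        have : a - b = (g x - mol κ g x) + (mol ε (mol κ g) x - mol ε g x) := by
          rw [ha, hb]
          ring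
        rw [this]
        refine (abs_add_le _ _).trans ?_
        linarith
      have hLκ : 0 ≤ L * κ := mul_nonneg hL0 hκ.le
      have hLκε : (L : ℝ) * κ ≤ L * ε := mul_le_mul_of_nonneg_left hκε hL0
      have hsum : |a + b| ≤ 4 * (L * ε) := by
        have : a + b = 2 * a - (a - b) := by ring
        rw [this]
        refine (abs_sub _ _).trans ?_
        rw [abs_mul, abs_two]
        linarith
      have h5 : a ^ 2 - b ^ 2 = (a - b) * (a + b) := by ring
      have h6 : (a - b) * (a + b) ≤ |a - b| * |a + b| := by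
        rw [← abs_mul]
        exact le_abs_self _
      have h7 : |a - b| * |a + b| ≤ (2 * (L * κ)) * (4 * (L * ε)) :=
        mul_le_mul hab hsum (abs_nonneg _) (by positivity)
      nlinarith
    have h5 : ∫ x in Metric.ball (0 : E2) r, (g x - mol ε g x) ^ 2 ≤
        ∫ x in Metric.ball (0 : E2) r, ((mol κ g x - mol ε (mol κ g) x) ^ 2 + 8 * L ^ 2 * ε * κ) :=
      setIntegral_mono (hint ((hg.continuous.sub hmg).pow 2) r)
        (hint (((hmc.sub hmm).pow 2).add continuous_const) r) h4
    have j1 : IntegrableOn (fun x => (mol κ g x - mol ε (mol κ g) x) ^ 2)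
        (Metric.ball (0 : E2) r) volume := hint ((hmc.sub hmm).pow 2) r
    have j2 : IntegrableOn (fun _ : E2 => 8 * (L : ℝ) ^ 2 * ε * κ)
        (Metric.ball (0 : E2) r) volume := hint continuous_const r
    rw [integral_add j1 j2] at h5
    have h6 : ∫ x in Metric.ball (0 : E2) r, (8 * (L : ℝ) ^ 2 * ε * κ) =
        (8 * L ^ 2 * ε * V) * κ := by
      rw [setIntegral_const, smul_eq_mul, ← hV]
      ring
    rw [h6] at h5
    have h7 : ε ^ 2 * ∫ x in Metric.ball (0 : E2) (r + ε),
        ((pd 0 (mol κ g) x) ^ 2 + (pd 1 (mol κ g) x) ^ 2) ≤ ε ^ 2 * R :=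
      mul_le_mul_of_nonneg_left h2 (by positivity)
    linarith
  -- let the radius tend to zero
  refine le_of_forall_pos_le_add fun δ hδ => ?_
  set C : ℝ := 8 * L ^ 2 * ε * V with hC
  have hC0 : 0 ≤ C := by positivity
  have hκ : 0 < min ε (δ / (C + 1)) := lt_min hε (by positivity)
  refine (key _ hκ (min_le_left _ _)).trans ?_
  have h8 : C * min ε (δ / (C + 1)) ≤ C * (δ / (C + 1)) :=
    mul_le_mul_of_nonneg_left (min_le_right _ _) hC0
  have h9 : C * (δ / (C + 1)) ≤ δ := by
    rw [mul_div_assoc', div_le_iff₀ (by positivity)]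
    nlinarith
  linarith

end Pool.Agent.SLG
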