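import Pool.Agent.SLG.Defs

/-!
ROW O1 (uniform estimates for the `C¹` map `W` on bounded sets).
(a) `app_DW`: linearity of `fderiv ℝ W A` and `D = ∑_k ∑_m D k m • Pi.single k (Pi.single m 1)`.
(b) `DW_bound`: continuity of `A ↦ fderiv ℝ W A` on the compact ball `closedBall 0 R`.
(c) `W_lip`: mean value inequality on the convex set `closedBall 0 R`
(`Convex.norm_image_sub_le_of_norm_fderiv_le`), then pass between `‖·‖` (sup norm) and `sq`:
`‖M‖² ≤ sq M ≤ 2 card * ‖M‖²`.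
(d) `W_taylor`: `fderiv ℝ W` is uniformly continuous on `closedBall 0 R`: for `δ > 0` there is
`t > 0` such that `‖fderiv W B - fderiv W A‖ ≤ δ` for `A, B` in the ball with `‖B - A‖ ≤ t`.
If `‖X - A‖ ≤ t`, the mean value inequality for `B ↦ W B - fderiv W A B` on the segment gives
`‖W X - W A - fderiv W A (X - A)‖ ≤ δ ‖X - A‖`.  If `‖X - A‖ > t`, use the crude bound
`≤ 2 L ‖X - A‖ ≤ (2 L / t) ‖X - A‖²`.
-/

namespace Pool.Agent.SLG

open MeasureTheory

theorem o1_entry {I : Type} [Fintype I] (D : I → Fin 2 → ℝ) (i : I) (j : Fin 2) :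
    |D i j| ≤ ‖D‖ := by
  have h1 : ‖D i j‖ ≤ ‖D i‖ := norm_le_pi_norm (D i) j
  have h2 : ‖D i‖ ≤ ‖D‖ := norm_le_pi_norm D i
  rw [← Real.norm_eq_abs]
  exact h1.trans h2

theorem norm_sq_le {I : Type} [Fintype I] (D : I → Fin 2 → ℝ) :
    ‖D‖ ^ 2 ≤ sq D ∧ sq D ≤ 2 * (Fintype.card I) * ‖D‖ ^ 2 := by
  have hnn : ∀ i, 0 ≤ ∑ j, (D i j) ^ 2 := fun i => Finset.sum_nonneg fun j _ => sq_nonneg _
  have hsq : 0 ≤ sq D := Finset.sum_nonneg fun i _ => hnn i
  constructor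
  · have h1 : ‖D‖ ≤ Real.sqrt (sq D) := by
      rw [pi_norm_le_iff_of_nonneg (Real.sqrt_nonneg _)]
      intro i
      rw [pi_norm_le_iff_of_nonneg (Real.sqrt_nonneg _)]
      intro j
      rw [Real.norm_eq_abs]
      apply Real.abs_le_sqrt
      calc (D i j) ^ 2 ≤ ∑ j, (D i j) ^ 2 :=
            Finset.single_le_sum (f := fun j => (D i j) ^ 2) (fun j _ => sq_nonneg _)
              (Finset.mem_univ j)
        _ ≤ ∑ i, ∑ j, (D i j) ^ 2 :=
            Finset.single_le_sum (f := fun i => ∑ j, (D i j) ^ 2) (fun i _ => hnn i)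
              (Finset.mem_univ i)
    calc ‖D‖ ^ 2 ≤ (Real.sqrt (sq D)) ^ 2 := by gcongr
      _ = sq D := Real.sq_sqrt hsq
  · unfold sq
    calc ∑ i, ∑ j, (D i j) ^ 2 ≤ ∑ _i : I, ∑ _j : Fin 2, ‖D‖ ^ 2 := by
          apply Finset.sum_le_sum; intro i _
          apply Finset.sum_le_sum; intro j _
          rw [← sq_abs]
          have := o1_entry D i j
          gcongr
      _ = 2 * (Fintype.card I) * ‖D‖ ^ 2 := by
          simp only [Finset.sum_const, Finset.card_univ, Fintype.card_fin, nsmul_eq_mul]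
          push_cast
          ring

theorem o1_expand {n : ℕ} (D : Mat n) :
    D = ∑ k, ∑ m, D k m • (Pi.single k (Pi.single m (1:ℝ)) : Mat n) := by
  classical
  funext i j
  rw [Finset.sum_apply, Finset.sum_apply]
  rw [Finset.sum_eq_single i]
  · rw [Finset.sum_apply, Finset.sum_apply, Finset.sum_eq_single j]
    · simp
    · intro b _ hb
      simp [Ne.symm hb]
    · simp
  · intro b _ hb
    rw [Finset.sum_apply, Finset.sum_apply]
    apply Finset.sum_eq_zero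
    intro m _
    simp [Ne.symm hb]
  · simp

theorem app_DW {n : ℕ} {I : Type} [Fintype I] (W : Mat n → I → Fin 2 → ℝ) (A D : Mat n) :
    app (DW W A) D = fderiv ℝ W A D := by
  conv_rhs => rw [o1_expand D]
  rw [map_sum]
  funext i j
  simp only [map_sum, map_smul, Finset.sum_apply, Pi.smul_apply, smul_eq_mul, app, DW]
  apply Finset.sum_congr rfl; intro k _
  apply Finset.sum_congr rfl; intro m _
  ring

theorem o1_fd {n : ℕ} {I : Type} [Fintype I] {W : Mat n → I → Fin 2 → ℝ}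
    (hW : ContDiff ℝ 1 W) (R : ℝ) :
    ∃ M : ℝ, 0 < M ∧ ∀ A : Mat n, ‖A‖ ≤ R → ‖fderiv ℝ W A‖ ≤ M := by
  have hc : Continuous (fderiv ℝ W) := hW.continuous_fderiv (by norm_num)
  have hk : IsCompact (Metric.closedBall (0 : Mat n) R) := isCompact_closedBall 0 R
  obtain ⟨M, hM⟩ := hk.exists_bound_of_continuousOn hc.continuousOn
  refine ⟨|M| + 1, by positivity, fun A hA => ?_⟩
  have := hM A (by simpa using hA)
  have := le_abs_self M
  linarith

theorem o1_single {n : ℕ} (k : Fin n) (m : Fin 2) :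
    ‖(Pi.single k (Pi.single m (1:ℝ)) : Mat n)‖ ≤ 1 := by
  classical
  rw [pi_norm_le_iff_of_nonneg (by norm_num)]
  intro i
  rw [pi_norm_le_iff_of_nonneg (by norm_num)]
  intro j
  by_cases h : i = k
  · subst h
    by_cases h2 : j = m
    · subst h2; simp
    · simp [h2]
  · simp [h]

theorem DW_bound {n : ℕ} {I : Type} [Fintype I] {W : Mat n → I → Fin 2 → ℝ}
    (hW : ContDiff ℝ 1 W) (R : ℝ) :
    ∃ M : ℝ, 0 < M ∧ ∀ A : Mat n, ‖A‖ ≤ R → ∀ i j k m, |DW W A i j k m| ≤ M := by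
  obtain ⟨M, hM0, hM⟩ := o1_fd hW R
  refine ⟨M, hM0, fun A hA i j k m => ?_⟩
  unfold DW
  calc |fderiv ℝ W A (Pi.single k (Pi.single m 1)) i j|
      ≤ ‖fderiv ℝ W A (Pi.single k (Pi.single m 1))‖ := o1_entry _ i j
    _ ≤ ‖fderiv ℝ W A‖ * ‖(Pi.single k (Pi.single m (1:ℝ)) : Mat n)‖ :=
        ContinuousLinearMap.le_opNorm _ _
    _ ≤ M * 1 := by
        gcongr
        · exact hM A hA
        · exact o1_single k m
    _ = M := mul_one M

theorem o1_lipn {n : ℕ} {I : Type} [Fintype I] {W : Mat n → I → Fin 2 → ℝ}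
    (hW : ContDiff ℝ 1 W) (R : ℝ) :
    ∃ L : ℝ, 0 < L ∧ (∀ A : Mat n, ‖A‖ ≤ R → ‖fderiv ℝ W A‖ ≤ L) ∧
      ∀ A X : Mat n, ‖A‖ ≤ R → ‖X‖ ≤ R → ‖W X - W A‖ ≤ L * ‖X - A‖ := by
  obtain ⟨M, hM0, hM⟩ := o1_fd hW R
  refine ⟨M, hM0, hM, fun A X hA hX => ?_⟩
  apply (convex_closedBall (0 : Mat n) R).norm_image_sub_le_of_norm_fderiv_le (𝕜 := ℝ)
  · intro x _
    exact hW.differentiable (by norm_num) x
  · intro x hx
    exact hM x (by simpa using hx)
  · simpa using hA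
  · simpa using hX

theorem W_lip {n : ℕ} {I : Type} [Fintype I] {W : Mat n → I → Fin 2 → ℝ}
    (hW : ContDiff ℝ 1 W) (R : ℝ) :
    ∃ L : ℝ, 0 < L ∧ ∀ A X : Mat n, ‖A‖ ≤ R → ‖X‖ ≤ R → sq (W X - W A) ≤ L * sq (X - A) := by
  obtain ⟨L, hL0, _, hL⟩ := o1_lipn hW R
  refine ⟨(2 * (Fintype.card I) + 1) * L ^ 2, by positivity, fun A X hA hX => ?_⟩
  have h1 := (norm_sq_le (W X - W A)).2
  have h2 := (norm_sq_le (X - A)).1
  have h3 := hL A X hA hX
  have h4 : ‖W X - W A‖ ^ 2 ≤ L ^ 2 * sq (X - A) := by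
    calc ‖W X - W A‖ ^ 2 ≤ (L * ‖X - A‖) ^ 2 := by gcongr
      _ = L ^ 2 * ‖X - A‖ ^ 2 := by ring
      _ ≤ L ^ 2 * sq (X - A) := by gcongr
  calc sq (W X - W A) ≤ 2 * (Fintype.card I) * ‖W X - W A‖ ^ 2 := h1
    _ ≤ 2 * (Fintype.card I) * (L ^ 2 * sq (X - A)) := by gcongr
    _ ≤ (2 * (Fintype.card I) + 1) * L ^ 2 * sq (X - A) := by
        have : 0 ≤ L ^ 2 * sq (X - A) := le_trans (sq_nonneg _) h4
        nlinarith

theorem W_taylor {n : ℕ} {I : Type} [Fintype I] {W : Mat n → I → Fin 2 → ℝ}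
    (hW : ContDiff ℝ 1 W) (R δ : ℝ) (hδ : 0 < δ) :
    ∃ M : ℝ, 0 < M ∧ ∀ A X : Mat n, ‖A‖ ≤ R → ‖X‖ ≤ R →
      ‖W X - W A - fderiv ℝ W A (X - A)‖ ≤ δ * ‖X - A‖ + M * ‖X - A‖ ^ 2 := by
  obtain ⟨L, hL0, hfd, hL⟩ := o1_lipn hW R
  have hc : Continuous (fderiv ℝ W) := hW.continuous_fderiv (by norm_num)
  have hk : IsCompact (Metric.closedBall (0 : Mat n) R) := isCompact_closedBall 0 R
  have huc : UniformContinuousOn (fderiv ℝ W) (Metric.closedBall (0 : Mat n) R) :=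
    hk.uniformContinuousOn_of_continuous hc.continuousOn
  rw [Metric.uniformContinuousOn_iff] at huc
  obtain ⟨t, ht0, ht⟩ := huc δ hδ
  refine ⟨2 * L / t, by positivity, fun A X hA hX => ?_⟩
  have hA' : A ∈ Metric.closedBall (0 : Mat n) R := by simpa using hA
  have hX' : X ∈ Metric.closedBall (0 : Mat n) R := by simpa using hX
  rcases lt_or_ge ‖X - A‖ t with h | h
  · have h1 : ‖W X - W A - fderiv ℝ W A (X - A)‖ ≤ δ * ‖X - A‖ := by
      apply Convex.norm_image_sub_le_of_norm_fderiv_le' (𝕜 := ℝ)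
        (s := Metric.closedBall (0 : Mat n) R ∩ Metric.ball A t)
      · intro x _
        exact hW.differentiable (by norm_num) x
      · intro x hx
        rw [← dist_eq_norm]
        exact (ht x hx.1 A hA' hx.2).le
      · exact (convex_closedBall _ _).inter (convex_ball _ _)
      · exact ⟨hA', Metric.mem_ball_self ht0⟩
      · exact ⟨hX', by rw [Metric.mem_ball, dist_eq_norm]; exact h⟩
    have : 0 ≤ 2 * L / t * ‖X - A‖ ^ 2 := by positivity
    linarith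
  · have h1 : ‖W X - W A - fderiv ℝ W A (X - A)‖ ≤ 2 * L * ‖X - A‖ := by
      calc ‖W X - W A - fderiv ℝ W A (X - A)‖
          ≤ ‖W X - W A‖ + ‖fderiv ℝ W A (X - A)‖ := norm_sub_le _ _
        _ ≤ L * ‖X - A‖ + L * ‖X - A‖ := by
            apply add_le_add (hL A X hA hX)
            exact (ContinuousLinearMap.le_opNorm _ _).trans
              (mul_le_mul_of_nonneg_right (hfd A hA) (norm_nonneg _))
        _ = 2 * L * ‖X - A‖ := by ring
    have h2 : 2 * L * ‖X - A‖ ≤ 2 * L / t * ‖X - A‖ ^ 2 := by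
      have : 2 * L / t * ‖X - A‖ ^ 2 = 2 * L * ‖X - A‖ * (‖X - A‖ / t) := by ring
      rw [this]
      have h3 : 1 ≤ ‖X - A‖ / t := by rwa [le_div_iff₀ ht0, one_mul]
      have h4 : 0 ≤ 2 * L * ‖X - A‖ := by positivity
      nlinarith
    have : 0 ≤ δ * ‖X - A‖ := by positivity
    linarith

end Pool.Agent.SLG
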