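import Pool.Agent.SLG.O1
import Pool.Agent.SLG.A4
import Pool.Agent.SLG.M0

/-!
ROW O2 (first consequences at unit scale: Caccioppoli and smallness of the nonlinear error).
Setting: `A` near `A0`, `w` Lipschitz and a.e. on `ball 0 1`
`A + uJac e w y ∈ K` and `grad w y = W (A + uJac e w y) - W A`.
Let `R` bound `K` and `closedBall A0 ρ` (`‖X‖ ≤ R` for `X ∈ K`, and `‖A0‖ + ρ ≤ R`).
(1) `D.two` with `X = A + uJac e w y`: `c sq (uJac) ≤ ∑ C minor (grad w y)`; `W_lip` on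
`closedBall 0 R`: `sq (grad w y) ≤ L sq (uJac)`, so `(c/L) sq (grad w y) ≤ ∑ C minor` and `cacc`
with radii `1/2 < 1`, `g = 0`, `M = max |C p q|` gives `∫_{ball 0 (1/2)} sq (grad w) ≤ K1 s²`
(`K1` depends only on the data).
(2) With `δ' > 0` and `M'` from `W_taylor` (radius `R`): a.e. on `ball 0 1`, for all `i j`,
`|grad w y i j - app (DW W A) (uJac) i j| ≤ δ' ‖uJac‖ + M' ‖uJac‖²` and
`‖uJac‖² ≤ sq (uJac) ≤ sq (grad w)` (for the last: `D.emb` gives
`(grad w y) (e k) m = uJac e w y k m`; if `e` is not assumed injective, note that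
`sq (uJac) ≤ (c')⁻¹ ...`: simply use `sq (uJac) ≤ n * sq (grad w y)`, each of the `n` rows of
`uJac` is a row of `grad w y`).  Integrate over `ball 0 (1/2)` with Cauchy-Schwarz:
`∫ ‖uJac‖ ≤ (volume(ball 0 (1/2)))^{1/2} (n K1 s²)^{1/2}`.
Total `≤ δ' K2 s + M' n K1 s²`; choose `δ' = δ/(2 K2 + 1)`, then `s1 = δ/(2 M' n K1 + 1)`.
-/

namespace Pool.Agent.SLG

open MeasureTheory

theorem o2_sq {I : Type} [Fintype I] (D : I → Fin 2 → ℝ) : 0 ≤ sq D :=
  Finset.sum_nonneg fun i _ => Finset.sum_nonneg fun j _ => sq_nonneg _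

theorem o2_C {I : Type} [Fintype I] (C : I → I → ℝ) (p q : I) : |C p q| ≤ ∑ p, ∑ q, |C p q| := by
  have h1 : |C p q| ≤ ∑ q, |C p q| :=
    Finset.single_le_sum (f := fun q => |C p q|) (fun q _ => abs_nonneg _) (Finset.mem_univ q)
  have h2 : ∑ q, |C p q| ≤ ∑ p, ∑ q, |C p q| :=
    Finset.single_le_sum (f := fun p => ∑ q, |C p q|)
      (fun p _ => Finset.sum_nonneg fun q _ => abs_nonneg _) (Finset.mem_univ p)
  exact h1.trans h2

theorem o2_rad {n : ℕ} {I : Type} [Fintype I] {e : Fin n → I} {W : Mat n → I → Fin 2 → ℝ}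
    {K : Set (Mat n)} {A0 : Mat n} {C : I → I → ℝ} {c ρ : ℝ} (D : UData e W K A0 C c ρ) :
    ∃ R : ℝ, (∀ X ∈ K, ‖X‖ ≤ R) ∧ ∀ A, ‖A - A0‖ ≤ ρ → ‖A‖ ≤ R := by
  obtain ⟨R, hR⟩ := D.bdd
  refine ⟨max R (‖A0‖ + ρ), fun X hX => (hR X hX).trans (le_max_left _ _), fun A hA => ?_⟩
  have h1 : ‖A‖ ≤ ‖A0‖ + ‖A - A0‖ := by
    have := norm_add_le A0 (A - A0)
    rwa [add_sub_cancel] at this
  exact (h1.trans (by linarith)).trans (le_max_right _ _)

theorem unit_cacc {n : ℕ} {I : Type} [Fintype I] {e : Fin n → I} {W : Mat n → I → Fin 2 → ℝ}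
    {K : Set (Mat n)} {A0 : Mat n} {C : I → I → ℝ} {c ρ : ℝ} (D : UData e W K A0 C c ρ) :
    ∃ K1 : ℝ, 0 < K1 ∧ ∀ A, ‖A - A0‖ ≤ ρ → ∀ w : I → E2 → ℝ,
      (∀ i, ∃ L : NNReal, LipschitzWith L (w i)) →
      (∀ᵐ y ∂(volume.restrict (Metric.ball (0 : E2) 1)),
        A + uJac e w y ∈ K ∧ grad w y = W (A + uJac e w y) - W A) →
      ∀ s : ℝ, 0 < s → (∫ y in Metric.ball (0 : E2) 1, ∑ i, (w i y) ^ 2) ≤ s ^ 2 →
      (∫ y in Metric.ball (0 : E2) (1 / 2), sq (grad w y)) ≤ K1 * s ^ 2 := by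
  obtain ⟨R, hRK, hRA⟩ := o2_rad D
  obtain ⟨L, hL, hLip⟩ := W_lip D.smooth R
  set M : ℝ := ∑ p, ∑ q, |C p q| with hM
  have hM0 : 0 ≤ M := Finset.sum_nonneg fun p _ => Finset.sum_nonneg fun q _ => abs_nonneg _
  obtain ⟨Kc, hKc, hcacc⟩ := cacc I (1 / 2) 1 (c / L) M (by norm_num) (by norm_num)
    (div_pos D.cpos hL) hM0
  refine ⟨Kc, hKc, ?_⟩
  intro A hA w hw hincl s hs hs2
  have h1 := hcacc C (o2_C C) w hw 0 le_rfl (by
    filter_upwards [hincl] with y hy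
    have h2 := D.two A hA (A + uJac e w y) hy.1
    have h3 := hLip A (A + uJac e w y) (hRA A hA) (hRK _ hy.1)
    rw [← hy.2] at h2 h3
    rw [add_zero]
    refine le_trans ?_ h2
    rw [div_mul_eq_mul_div, div_le_iff₀ hL]
    calc c * sq (grad w y) ≤ c * (L * sq (A + uJac e w y - A)) := mul_le_mul_of_nonneg_left h3 D.cpos.le
      _ = _ := by ring)
  rw [add_zero] at h1
  exact h1.trans (mul_le_mul_of_nonneg_left hs2 hKc.le)

theorem unit_err {n : ℕ} {I : Type} [Fintype I] {e : Fin n → I} {W : Mat n → I → Fin 2 → ℝ}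
    {K : Set (Mat n)} {A0 : Mat n} {C : I → I → ℝ} {c ρ : ℝ} (D : UData e W K A0 C c ρ)
    (δ : ℝ) (hδ : 0 < δ) :
    ∃ s1 : ℝ, 0 < s1 ∧ ∀ A, ‖A - A0‖ ≤ ρ → ∀ w : I → E2 → ℝ,
      (∀ i, ∃ L : NNReal, LipschitzWith L (w i)) →
      (∀ᵐ y ∂(volume.restrict (Metric.ball (0 : E2) 1)),
        A + uJac e w y ∈ K ∧ grad w y = W (A + uJac e w y) - W A) →
      ∀ s : ℝ, 0 < s → s ≤ s1 → (∫ y in Metric.ball (0 : E2) 1, ∑ i, (w i y) ^ 2) ≤ s ^ 2 →
      ∀ i j, (∫ y in Metric.ball (0 : E2) (1 / 2),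
        |pd j (w i) y - app (DW W A) (uJac e w y) i j|) ≤ δ * s := by
  obtain ⟨R, hRK, hRA⟩ := o2_rad D
  obtain ⟨K1, hK1, hcacc⟩ := unit_cacc D
  set V : ℝ := (volume (Metric.ball (0 : E2) (1 / 2))).toReal with hV
  have hV0 : 0 ≤ V := ENNReal.toReal_nonneg
  set K2 : ℝ := (V + n * K1) / 2 with hK2
  have hK20 : 0 ≤ K2 := by positivity
  obtain ⟨M', hM', htay⟩ := W_taylor D.smooth R (δ / (2 * (K2 + 1))) (by positivity)
  set δ' : ℝ := δ / (2 * (K2 + 1)) with hδ'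
  have hδ'0 : 0 < δ' := by positivity
  refine ⟨δ / (2 * (M' * n * K1 + 1)), by positivity, ?_⟩
  intro A hA w hw hincl s hs hs1 hs2 i j
  have hc := hcacc A hA w hw hincl s hs hs2
  have hsub : Metric.ball (0 : E2) (1 / 2) ⊆ Metric.ball (0 : E2) 1 := Metric.ball_subset_ball (by norm_num)
  have hincl' := ae_restrict_of_ae_restrict_of_subset hsub hincl
  -- integrability of sq (grad w)
  have hLB : ∀ i j, LB (fun y => pd j (w i) y) := by
    intro i j
    obtain ⟨L, hL⟩ := hw i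
    exact (lb_of_lipschitz hL).2.1 j
  have hisq : Integrable (fun y => sq (grad w y)) (volume.restrict (Metric.ball (0 : E2) (1 / 2))) := by
    unfold sq
    refine integrable_finsetSum _ fun i _ => integrable_finsetSum _ fun j _ => ?_
    exact (lb_facts.1 _ (hLB i j) 0 (1 / 2)).2
  have hicst : ∀ a : ℝ, Integrable (fun _ : E2 => a) (volume.restrict (Metric.ball (0 : E2) (1 / 2))) :=
    fun a => integrableOn_const measure_ball_lt_top.ne
  -- pointwise bound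
  have hpt : ∀ᵐ y ∂(volume.restrict (Metric.ball (0 : E2) (1 / 2))),
      |pd j (w i) y - app (DW W A) (uJac e w y) i j| ≤
        δ' * (s / 2) + (δ' / (2 * s) + M') * n * sq (grad w y) := by
    filter_upwards [hincl'] with y hy
    have h1 := htay A (A + uJac e w y) (hRA A hA) (hRK _ hy.1)
    rw [← hy.2, add_sub_cancel_left, ← app_DW] at h1
    have h2 : |pd j (w i) y - app (DW W A) (uJac e w y) i j| ≤
        ‖grad w y - app (DW W A) (uJac e w y)‖ := by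
      have := (norm_le_pi_norm ((grad w y - app (DW W A) (uJac e w y)) i) j).trans
        (norm_le_pi_norm (grad w y - app (DW W A) (uJac e w y)) i)
      rwa [Real.norm_eq_abs] at this
    have h3 : ‖uJac e w y‖ ^ 2 ≤ n * sq (grad w y) := by
      refine (norm_sq_le _).1.trans ?_
      unfold sq
      calc ∑ k : Fin n, ∑ m, (uJac e w y k m) ^ 2 ≤ ∑ k : Fin n, ∑ i, ∑ j, (grad w y i j) ^ 2 := by
            refine Finset.sum_le_sum fun k _ => ?_
            exact Finset.single_le_sum (f := fun i => ∑ j, (grad w y i j) ^ 2)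
              (fun i _ => Finset.sum_nonneg fun j _ => sq_nonneg _) (Finset.mem_univ (e k))
        _ = _ := by
            simp only [Finset.sum_const, Finset.card_univ, Fintype.card_fin, nsmul_eq_mul]
    have h4 : ‖uJac e w y‖ ≤ s / 2 + ‖uJac e w y‖ ^ 2 / (2 * s) := by
      have h5 : 0 ≤ (‖uJac e w y‖ - s) ^ 2 / (2 * s) := by positivity
      have h6 : (‖uJac e w y‖ - s) ^ 2 / (2 * s) = ‖uJac e w y‖ ^ 2 / (2 * s) - ‖uJac e w y‖ + s / 2 := by
        field_simp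
        ring
      linarith
    have h7 : δ' * ‖uJac e w y‖ ≤ δ' * (s / 2 + ‖uJac e w y‖ ^ 2 / (2 * s)) :=
      mul_le_mul_of_nonneg_left h4 hδ'0.le
    have h8 : (δ' / (2 * s) + M') * ‖uJac e w y‖ ^ 2 ≤ (δ' / (2 * s) + M') * (n * sq (grad w y)) :=
      mul_le_mul_of_nonneg_left h3 (by positivity)
    calc _ ≤ δ' * ‖uJac e w y‖ + M' * ‖uJac e w y‖ ^ 2 := h2.trans h1
      _ ≤ δ' * (s / 2) + (δ' / (2 * s) + M') * ‖uJac e w y‖ ^ 2 := by
          have : δ' * (s / 2 + ‖uJac e w y‖ ^ 2 / (2 * s)) =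
            δ' * (s / 2) + δ' / (2 * s) * ‖uJac e w y‖ ^ 2 := by ring
          linarith
      _ ≤ _ := by linarith
  have hint : (∫ y in Metric.ball (0 : E2) (1 / 2), |pd j (w i) y - app (DW W A) (uJac e w y) i j|) ≤
      ∫ y in Metric.ball (0 : E2) (1 / 2), (δ' * (s / 2) + (δ' / (2 * s) + M') * n * sq (grad w y)) := by
    refine integral_mono_of_nonneg (ae_of_all _ fun y => abs_nonneg _) ?_ hpt
    exact (hicst _).add (hisq.const_mul _)
  have heq : ∫ y in Metric.ball (0 : E2) (1 / 2), (δ' * (s / 2) + (δ' / (2 * s) + M') * n * sq (grad w y))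
      = V * (δ' * (s / 2)) + (δ' / (2 * s) + M') * n *
        ∫ y in Metric.ball (0 : E2) (1 / 2), sq (grad w y) := by
    rw [integral_add (hicst _) (hisq.const_mul _), integral_const_mul ((δ' / (2 * s) + M') * n),
      setIntegral_const, smul_eq_mul]
    rfl
  rw [heq] at hint
  have h9 : (δ' / (2 * s) + M') * n * (∫ y in Metric.ball (0 : E2) (1 / 2), sq (grad w y)) ≤
      (δ' / (2 * s) + M') * n * (K1 * s ^ 2) := mul_le_mul_of_nonneg_left hc (by positivity)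
  have h10 : V * (δ' * (s / 2)) + (δ' / (2 * s) + M') * n * (K1 * s ^ 2) =
      δ' * K2 * s + M' * n * K1 * s * s := by
    rw [hK2]
    field_simp
    ring
  have h11 : δ' * K2 ≤ δ / 2 := by
    rw [hδ', div_mul_eq_mul_div, div_le_div_iff₀ (by positivity) (by norm_num)]
    nlinarith
  have h12 : M' * n * K1 * s ≤ δ / 2 := by
    have h13 : M' * n * K1 * s ≤ M' * n * K1 * (δ / (2 * (M' * n * K1 + 1))) :=
      mul_le_mul_of_nonneg_left hs1 (by positivity)
    refine h13.trans ?_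
    rw [mul_div_assoc', div_le_div_iff₀ (by positivity) (by norm_num)]
    have : 0 ≤ M' * n * K1 := by positivity
    nlinarith
  have h14 : δ' * K2 * s ≤ δ / 2 * s := mul_le_mul_of_nonneg_right h11 hs.le
  have h15 : M' * n * K1 * s * s ≤ δ / 2 * s := mul_le_mul_of_nonneg_right h12 hs.le
  linarith

end Pool.Agent.SLG
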