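import Pool.Agent.SLG.O2
import Pool.Agent.SLG.L2
import Pool.Agent.SLG.M4

/-!
ROW O3 (mollified system at unit scale).
Setting as in O2.  For `0 < ε ≤ 1/64` put `wt i := mol ε (w i)`,
`F i j := mol ε (fun y => pd j (w i) y - app (DW W A) (uJac e w y) i j)`.
Claims: there are `Q` (independent of `ε`), and for each `ε` and each `φ0 > 0` an `s2 > 0` such
that for `s ≤ s2` (and `A`, `w` as before with `∫_{ball 0 1} ∑ (w i)² ≤ s²`):
(1) `(pds l (wt i) x)² ≤ Q s²` for `x ∈ ball 0 (1/8)`, `l.length ≤ 2`;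
(2) `|pd j (wt i) 0 - app (DW W A) (uJac e wt 0) i j| ≤ φ0 s`;
(3) `∫_{ball 0 (1/4)} (w i - wt i)² ≤ ε² K1 s²`.
Proof.  By `mol_lip`, `pd j (wt i) = mol ε (pd j (w i))`; linearity of `mol` (finite sums of `LB`
functions) gives `pd j (wt i) x = app (DW W A) (uJac e wt x) i j + F i j x` for all `x`.
`F i j` is smooth (`mol_deriv`) and by `mol_bound` (2ε ≤ 1/32), for `x ∈ ball 0 (7/16)`,
`l.length ≤ 4` (finitely many lists: take the maximum `Kε` of the constants),
`|pds l (F i j) x| ≤ Kε ∫_{ball x (2ε)} |e_ij| ≤ Kε ∫_{ball 0 (1/2)} |e_ij| ≤ Kε δ s` by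
`unit_err` with `δ := min 1 φ0 / (Kε + 1)`, `s2 := s1(δ)`; so `φ := min 1 φ0 * s` is admissible in
`lin_est` (with `M` bounding `|C p q|` and the entries of `DW W A`, from `DW_bound` on the ball of
radius `‖A0‖ + ρ`, and coercivity from `D.lin` and `app_DW`).  `lin_est` gives
`(pds l (wt i) x)² ≤ Kl (∫_{ball 0 (7/16)} ∑ (wt i)² + φ²) ≤ Kl (s² + s²)`
since `∫_{ball 0 (7/16)} (wt i)² ≤ ∫_{ball 0 (1/2)} (w i)²` (`mol_sq`).  So `Q = 2 Kl`.
(2): value of `F i j` at `0` (list `[]`).  (3): `mol_approx` with `r = 1/4` (`1/4 + 2ε ≤ 1/2`) and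
`unit_cacc`.
-/

namespace Pool.Agent.SLG

open MeasureTheory

theorem o3_bound {I J : Type} [Fintype I] [Fintype J] (C : I → J → ℝ) :
    ∃ M : ℝ, 0 < M ∧ ∀ p q, |C p q| ≤ M := by
  refine ⟨(∑ p, ∑ q, |C p q|) + 1, ?_, fun p q => ?_⟩
  · have : 0 ≤ ∑ p, ∑ q, |C p q| :=
      Finset.sum_nonneg fun _ _ => Finset.sum_nonneg fun _ _ => abs_nonneg _
    linarith
  · have h1 : |C p q| ≤ ∑ q, |C p q| :=
      Finset.single_le_sum (f := fun q => |C p q|) (fun _ _ => abs_nonneg _) (Finset.mem_univ q)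
    have h2 : (∑ q, |C p q|) ≤ ∑ p, ∑ q, |C p q| :=
      Finset.single_le_sum (f := fun p => ∑ q, |C p q|)
        (fun _ _ => Finset.sum_nonneg fun _ _ => abs_nonneg _) (Finset.mem_univ p)
    linarith

theorem o3_lb_sum {ι : Type} (s : Finset ι) (g : ι → E2 → ℝ) (hg : ∀ i ∈ s, LB (g i)) :
    LB (fun x => ∑ i ∈ s, g i x) := by
  classical
  induction s using Finset.induction_on with
  | empty => simpa using lb_facts.2.2.2 0
  | insert a s ha ih =>
    have h1 : (fun x => ∑ i ∈ insert a s, g i x) = fun x => g a x + ∑ i ∈ s, g i x := by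
      funext x
      rw [Finset.sum_insert ha]
    rw [h1]
    exact (lb_facts.2.2.1 _ _ (hg a (Finset.mem_insert_self a s))
      (ih fun i hi => hg i (Finset.mem_insert_of_mem hi))).1

theorem o3_lb_const_mul {g : E2 → ℝ} (hg : LB g) (a : ℝ) : LB (fun x => a * g x) :=
  (lb_facts.2.2.1 _ _ (lb_facts.2.2.2 a) hg).2.2

theorem o3_int {ε : ℝ} (hε : 0 < ε) {g : E2 → ℝ} (hg : LB g) (x : E2) :
    Integrable (fun y => ker ε (x - y) * g y) volume := by
  obtain ⟨ks, kc, -, -, -, kz, -⟩ := ker_facts hε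
  have hl : LocallyIntegrable g volume := lb_facts.2.1 g hg
  have hcont : Continuous (fun y => ker ε (x - y)) :=
    ks.continuous.comp (continuous_const.sub continuous_id)
  have hcs : HasCompactSupport (fun y => ker ε (x - y)) := by
    refine HasCompactSupport.intro (isCompact_closedBall x ε) ?_
    intro y hy
    rw [mem_closedBall_iff_norm, not_le] at hy
    apply kz
    rw [norm_sub_rev]
    exact hy.le
  exact hl.integrable_smul_left_of_hasCompactSupport hcont hcs

theorem o3_mol_sub {ε : ℝ} (hε : 0 < ε) {f g : E2 → ℝ} (hf : LB f) (hg : LB g) (x : E2) :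
    mol ε (fun y => f y - g y) x = mol ε f x - mol ε g x := by
  unfold mol
  rw [← integral_sub (o3_int hε hf x) (o3_int hε hg x)]
  congr 1
  funext y
  ring

theorem o3_mol_const_mul {ε : ℝ} {g : E2 → ℝ} (a : ℝ) (x : E2) :
    mol ε (fun y => a * g y) x = a * mol ε g x := by
  unfold mol
  rw [← integral_const_mul]
  congr 1
  funext y
  ring

theorem o3_mol_sum {ε : ℝ} (hε : 0 < ε) {ι : Type} (s : Finset ι) (g : ι → E2 → ℝ)
    (hg : ∀ i ∈ s, LB (g i)) (x : E2) :
    mol ε (fun y => ∑ i ∈ s, g i y) x = ∑ i ∈ s, mol ε (g i) x := by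
  unfold mol
  rw [← integral_finsetSum s fun i hi => o3_int hε (hg i hi) x]
  congr 1
  funext y
  rw [Finset.mul_sum]

theorem o3_lists (k : ℕ) (B : List (Fin 2) → ℝ) :
    ∃ M : ℝ, 0 < M ∧ ∀ l : List (Fin 2), l.length ≤ k → B l ≤ M := by
  have hfin : {l : List (Fin 2) | l.length ≤ k}.Finite := List.finite_length_le (Fin 2) k
  refine ⟨(∑ l ∈ hfin.toFinset, |B l|) + 1, ?_, fun l hl => ?_⟩
  · have : 0 ≤ ∑ l ∈ hfin.toFinset, |B l| := Finset.sum_nonneg fun _ _ => abs_nonneg _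
    linarith
  · have h1 : |B l| ≤ ∑ l ∈ hfin.toFinset, |B l| :=
      Finset.single_le_sum (f := fun l => |B l|) (fun _ _ => abs_nonneg _)
        (hfin.mem_toFinset.mpr hl)
    have := le_abs_self (B l)
    linarith

theorem unit_moll {n : ℕ} {I : Type} [Fintype I] {e : Fin n → I} {W : Mat n → I → Fin 2 → ℝ}
    {K : Set (Mat n)} {A0 : Mat n} {C : I → I → ℝ} {c ρ : ℝ} (D : UData e W K A0 C c ρ) :
    ∃ Q K1 : ℝ, 0 < Q ∧ 0 < K1 ∧ ∀ ε : ℝ, 0 < ε → ε ≤ 1 / 64 → ∀ φ0 : ℝ, 0 < φ0 →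
      ∃ s2 : ℝ, 0 < s2 ∧ ∀ A, ‖A - A0‖ ≤ ρ → ∀ w : I → E2 → ℝ,
      (∀ i, ∃ L : NNReal, LipschitzWith L (w i)) →
      (∀ᵐ y ∂(volume.restrict (Metric.ball (0 : E2) 1)),
        A + uJac e w y ∈ K ∧ grad w y = W (A + uJac e w y) - W A) →
      ∀ s : ℝ, 0 < s → s ≤ s2 → (∫ y in Metric.ball (0 : E2) 1, ∑ i, (w i y) ^ 2) ≤ s ^ 2 →
      (∀ i, ContDiff ℝ ((⊤ : ℕ∞) : WithTop ℕ∞) (mol ε (w i))) ∧
      (∀ x ∈ Metric.ball (0 : E2) (1 / 8), ∀ i, ∀ l : List (Fin 2), l.length ≤ 2 →
        (pds l (mol ε (w i)) x) ^ 2 ≤ Q * s ^ 2) ∧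
      (∀ i j, |pd j (mol ε (w i)) 0 -
        app (DW W A) (uJac e (fun i => mol ε (w i)) 0) i j| ≤ φ0 * s) ∧
      (∀ i, (∫ x in Metric.ball (0 : E2) (1 / 4), (w i x - mol ε (w i) x) ^ 2) ≤
        ε ^ 2 * (K1 * s ^ 2)) := by
  obtain ⟨MC, hMC0, hMC⟩ := o3_bound C
  obtain ⟨MW, hMW0, hMW⟩ := DW_bound D.smooth (‖A0‖ + ρ)
  obtain ⟨Kl, hKl0, hlin⟩ := lin_est n I c (max MC MW) D.cpos (hMC0.le.trans (le_max_left _ _))
  obtain ⟨K1, hK10, hcacc⟩ := unit_cacc D
  refine ⟨2 * Kl, K1, by positivity, hK10, fun ε hε hε64 φ0 hφ0 => ?_⟩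
  choose Kf hKf0 hKf using fun l => mol_bound hε l
  obtain ⟨KE, hKE0, hKE⟩ := o3_lists 4 Kf
  set φ1 : ℝ := min 1 φ0 with hφ1
  have hφ10 : 0 < φ1 := lt_min one_pos hφ0
  obtain ⟨s2, hs20, herr⟩ := unit_err D (φ1 / KE) (by positivity)
  refine ⟨s2, hs20, fun A hA w hw hae s hs hss hint => ?_⟩
  have hAn : ‖A‖ ≤ ‖A0‖ + ρ := by
    calc ‖A‖ = ‖A0 + (A - A0)‖ := by congr 1; abel
      _ ≤ ‖A0‖ + ‖A - A0‖ := norm_add_le _ _
      _ ≤ _ := by linarith
  have hlb : ∀ i, LB (w i) ∧ ∀ j, LB (pd j (w i)) := by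
    intro i
    obtain ⟨L, hL⟩ := hw i
    exact ⟨(lb_of_lipschitz hL).1, (lb_of_lipschitz hL).2.1⟩
  have hlip1 : ∀ i j x, pd j (mol ε (w i)) x = mol ε (pd j (w i)) x := by
    intro i
    obtain ⟨L, hL⟩ := hw i
    exact (mol_lip hε hL).1
  have hlip2 : ∀ i (l : List (Fin 2)), ∃ L : NNReal, LipschitzWith L (pds l (mol ε (w i))) := by
    intro i
    obtain ⟨L, hL⟩ := hw i
    exact (mol_lip hε hL).2.1
  have hsm : ∀ i, ContDiff ℝ ((⊤ : ℕ∞) : WithTop ℕ∞) (mol ε (w i)) := fun i =>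
    (mol_deriv hε (hlb i).1).1
  -- the error
  set E : I → Fin 2 → E2 → ℝ := fun i j y => pd j (w i) y - app (DW W A) (uJac e w y) i j with hE
  have happLB : ∀ i j, LB (fun y => app (DW W A) (uJac e w y) i j) := by
    intro i j
    apply o3_lb_sum Finset.univ
    intro k _
    apply o3_lb_sum Finset.univ
    intro m _
    exact o3_lb_const_mul ((hlb (e k)).2 m) _
  have hELB : ∀ i j, LB (E i j) := fun i j =>
    (lb_facts.2.2.1 _ _ ((hlb i).2 j) (happLB i j)).2.1
  have hFsm : ∀ i j, ContDiff ℝ ((⊤ : ℕ∞) : WithTop ℕ∞) (mol ε (E i j)) := fun i j =>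
    (mol_deriv hε (hELB i j)).1
  have hmolapp : ∀ i j x, mol ε (fun y => app (DW W A) (uJac e w y) i j) x =
      app (DW W A) (uJac e (fun i => mol ε (w i)) x) i j := by
    intro i j x
    have e1 : mol ε (fun y => app (DW W A) (uJac e w y) i j) x =
        ∑ k, mol ε (fun y => ∑ m, DW W A i j k m * pd m (w (e k)) y) x :=
      o3_mol_sum hε Finset.univ (fun k y => ∑ m, DW W A i j k m * pd m (w (e k)) y)
        (fun k _ => o3_lb_sum Finset.univ _ fun m _ => o3_lb_const_mul ((hlb (e k)).2 m) _) x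
    have e2 : ∀ k, mol ε (fun y => ∑ m, DW W A i j k m * pd m (w (e k)) y) x =
        ∑ m, DW W A i j k m * mol ε (pd m (w (e k))) x := by
      intro k
      rw [o3_mol_sum hε Finset.univ (fun m y => DW W A i j k m * pd m (w (e k)) y)
        (fun m _ => o3_lb_const_mul ((hlb (e k)).2 m) _) x]
      apply Finset.sum_congr rfl
      intro m _
      exact o3_mol_const_mul _ _
    rw [e1]
    unfold app
    apply Finset.sum_congr rfl
    intro k _
    rw [e2]
    apply Finset.sum_congr rfl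
    intro m _
    rw [← hlip1 (e k) m x]
    rfl
  have heq : ∀ x i j, pd j (mol ε (w i)) x =
      app (DW W A) (uJac e (fun i => mol ε (w i)) x) i j + mol ε (E i j) x := by
    intro x i j
    have h1 : mol ε (E i j) x = mol ε (pd j (w i)) x
        - mol ε (fun y => app (DW W A) (uJac e w y) i j) x :=
      o3_mol_sub hε ((hlb i).2 j) (happLB i j) x
    rw [h1, hmolapp, hlip1]
    ring
  -- bound of the error
  have hEb : ∀ x ∈ Metric.ball (0 : E2) (7 / 16), ∀ i j, ∀ l : List (Fin 2), l.length ≤ 4 →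
      |pds l (mol ε (E i j)) x| ≤ φ1 * s := by
    intro x hx i j l hl
    have h1 := hKf l (E i j) (hELB i j) x
    have h2 : (∫ y in Metric.ball x (2 * ε), |E i j y|) ≤
        ∫ y in Metric.ball (0 : E2) (1 / 2), |E i j y| := by
      apply setIntegral_mono_set
      · exact ((lb_facts.1 _ (hELB i j) 0 (1 / 2)).1).abs
      · exact Filter.Eventually.of_forall fun z => abs_nonneg _
      · apply Filter.Eventually.of_forall
        intro z hz
        have hz' : dist z x < 2 * ε := hz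
        have hx' : dist x 0 < 7 / 16 := hx
        have := dist_triangle z x 0
        show dist z 0 < 1 / 2
        linarith
    have h3 := herr A hA w hw hae s hs hss hint i j
    have h4 : 0 ≤ ∫ y in Metric.ball x (2 * ε), |E i j y| :=
      integral_nonneg fun _ => abs_nonneg _
    calc |pds l (mol ε (E i j)) x| ≤ Kf l * ∫ y in Metric.ball x (2 * ε), |E i j y| := h1
      _ ≤ KE * ∫ y in Metric.ball x (2 * ε), |E i j y| := by
          gcongr
          exact hKE l hl
      _ ≤ KE * (φ1 / KE * s) := by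
          gcongr
          exact h2.trans h3
      _ = φ1 * s := by field_simp
  have hφs : 0 ≤ φ1 * s := by positivity
  have hsqle : (∫ y in Metric.ball (0 : E2) (7 / 16), ∑ i, (mol ε (w i) y) ^ 2) ≤ s ^ 2 := by
    have hI1 : ∀ i, IntegrableOn (fun y => (mol ε (w i) y) ^ 2) (Metric.ball (0 : E2) (7 / 16)) := by
      intro i
      exact (((hsm i).continuous.pow 2).continuousOn.integrableOn_compact
        (isCompact_closedBall (0 : E2) (7 / 16))).mono_set Metric.ball_subset_closedBall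
    have hI2 : ∀ i, IntegrableOn (fun y => (w i y) ^ 2) (Metric.ball (0 : E2) 1) := fun i =>
      (lb_facts.1 _ (hlb i).1 0 1).2
    rw [integral_finsetSum _ fun i _ => hI1 i]
    rw [integral_finsetSum _ fun i _ => hI2 i] at hint
    refine le_trans (Finset.sum_le_sum fun i _ => ?_) hint
    refine (mol_sq hε (hlb i).1 0 (7 / 16)).trans ?_
    apply setIntegral_mono_set (hI2 i)
    · exact Filter.Eventually.of_forall fun z => sq_nonneg _
    · exact (Metric.ball_subset_ball (by linarith)).eventuallyLE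
  refine ⟨hsm, ?_, ?_, ?_⟩
  · intro x hx i l hl
    have h1 := hlin e C (fun p q => (hMC p q).trans (le_max_left _ _)) (DW W A)
      (fun i j k m => (hMW A hAn i j k m).trans (le_max_right _ _))
      (fun Dm => by rw [app_DW]; exact D.lin A hA Dm)
      (fun i => mol ε (w i)) (fun i j => mol ε (E i j)) hsm hlip2 hFsm heq (φ1 * s) hφs hEb
      x hx i l hl
    have h2 : (φ1 * s) ^ 2 ≤ s ^ 2 := by
      have : φ1 * s ≤ 1 * s := by
        gcongr
        exact min_le_left _ _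
      rw [one_mul] at this
      gcongr
    calc (pds l (mol ε (w i)) x) ^ 2
        ≤ Kl * ((∫ y in Metric.ball (0 : E2) (7 / 16), ∑ i, (mol ε (w i) y) ^ 2)
          + (φ1 * s) ^ 2) := h1
      _ ≤ Kl * (s ^ 2 + s ^ 2) := by gcongr
      _ = 2 * Kl * s ^ 2 := by ring
  · intro i j
    have h0 : (0 : E2) ∈ Metric.ball (0 : E2) (7 / 16) := by
      rw [Metric.mem_ball, dist_self]; norm_num
    have h1 := hEb 0 h0 i j [] (by simp)
    have h2 : pd j (mol ε (w i)) 0 - app (DW W A) (uJac e (fun i => mol ε (w i)) 0) i j =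
        pds [] (mol ε (E i j)) 0 := by
      rw [heq 0 i j]
      show _ = mol ε (E i j) 0
      ring
    rw [h2]
    refine h1.trans ?_
    gcongr
    exact min_le_right _ _
  · intro i
    obtain ⟨L, hL⟩ := hw i
    refine (mol_approx hε hL (1 / 4) (by norm_num)).trans ?_
    have h1 := hcacc A hA w hw hae s hs hint
    have hI : ∀ j, IntegrableOn (fun y => (pd j (w i) y) ^ 2) (Metric.ball (0 : E2) (1 / 2)) :=
      fun j => (lb_facts.1 _ ((hlb i).2 j) 0 (1 / 2)).2
    have hIall : IntegrableOn (fun y => sq (grad w y)) (Metric.ball (0 : E2) (1 / 2)) := by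
      unfold sq grad
      apply integrable_finsetSum
      intro k _
      apply integrable_finsetSum
      intro j _
      exact (lb_facts.1 _ ((hlb k).2 j) 0 (1 / 2)).2
    have h2 : (∫ x in Metric.ball (0 : E2) (1 / 4 + 2 * ε),
        ((pd 0 (w i) x) ^ 2 + (pd 1 (w i) x) ^ 2)) ≤
        ∫ y in Metric.ball (0 : E2) (1 / 2), sq (grad w y) := by
      calc (∫ x in Metric.ball (0 : E2) (1 / 4 + 2 * ε),
            ((pd 0 (w i) x) ^ 2 + (pd 1 (w i) x) ^ 2))
          ≤ ∫ x in Metric.ball (0 : E2) (1 / 2), ((pd 0 (w i) x) ^ 2 + (pd 1 (w i) x) ^ 2) := by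
            apply setIntegral_mono_set ((hI 0).add (hI 1))
            · exact Filter.Eventually.of_forall fun z => by
                show (0:ℝ) ≤ (pd 0 (w i) z) ^ 2 + (pd 1 (w i) z) ^ 2
                positivity
            · exact (Metric.ball_subset_ball (by linarith)).eventuallyLE
        _ ≤ ∫ y in Metric.ball (0 : E2) (1 / 2), sq (grad w y) := by
            apply setIntegral_mono ((hI 0).add (hI 1)) hIall
            intro y
            show (pd 0 (w i) y) ^ 2 + (pd 1 (w i) y) ^ 2 ≤ sq (grad w y)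
            have h3 : (∑ j, (grad w y i j) ^ 2) ≤ sq (grad w y) :=
              Finset.single_le_sum (f := fun i => ∑ j, (grad w y i j) ^ 2)
                (fun _ _ => Finset.sum_nonneg fun _ _ => sq_nonneg _) (Finset.mem_univ i)
            rw [Fin.sum_univ_two] at h3
            exact h3
    gcongr
    exact h2.trans h1

end Pool.Agent.SLG
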