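import Pool.Agent.SLG.O3

/-!
ROW O4 (one step of the excess decay, unit scale).
Let `N = card I`, `Q, K1` from `unit_moll`.  Choose in this order:
`τ ∈ (0, 1/8)` with `3 * N * (4 * Q) * π * τ² ≤ 1/12` (second term below);
`ε ∈ (0, 1/64]` with `3 * N * ε² * K1 ≤ τ⁴/12`;
`M1 := sqrt Q + 1`, `R := ‖A0‖ + ρ + M1 + 1` and, for `δ' > 0` small, `M'` from `W_taylor`
(radius `R`);
`φ0 > 0`, `δ' > 0` with `3 * N * 2 * (2 (φ0 + δ' M1 + M' M1² s0))² * π ≤ 1/12` where `s0` is chosen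
last: `s0 ≤ 1`, `s0 ≤ s2(ε, φ0)`, `M' M1² s0 ≤ δ' M1`.
Given `A`, `w`, `s ≤ s0`: `wt i := mol ε (w i)`, `A' := A + uJac e wt 0`, `b i := wt i 0`,
`G i j := pd j (wt i) 0`.
`‖A' - A‖ ≤ sqrt Q s ≤ M1 s` (each entry is `pd m (wt (e k)) 0 = pds [m] ..`, square `≤ Q s²`).
`W_taylor` (both norms at most `R`): `|(W A' - W A) i j - app (DW W A) (A' - A) i j| ≤
δ' M1 s + M' M1² s²`, and with (2) of `unit_moll`:
`|G i j - (W A' - W A) i j| ≤ (φ0 + δ' M1 + M' M1² s) s =: κ s`.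
On `ball 0 τ` (`τ < 1/8`): `taylor2` with `Q' = sqrt Q s`:
`|wt i z - b i - ∑ G i j z_j| ≤ 2 sqrt Q s ‖z‖² ≤ 2 sqrt Q s τ²`.
`(w i z - ∑ (W A' - W A) i j z_j - b i)² ≤ 3 (w i z - wt i z)² + 3 (2 sqrt Q s τ²)²
+ 3 (2 κ s τ)²`.  Integrate over `ball 0 τ` (`volume (ball 0 τ) = π τ²` in the plane,
`EuclideanSpace.volume_ball_fin_two` or similar; an upper bound such as `4 τ²` would do as well)
and sum over `i`: at most `3 N ε² K1 s² + 3 N 4 Q s² τ⁴ π τ² + 3 N 4 κ² s² τ² π τ² ≤ (1/12 + 1/12 +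
1/12) s² τ⁴ = s² τ⁴ / 4`.
-/

namespace Pool.Agent.SLG

open MeasureTheory

theorem o4_vol (τ : ℝ) (hτ : 0 < τ) :
    (volume (Metric.ball (0 : E2) τ)).toReal ≤ 4 * τ ^ 2 := by
  rw [EuclideanSpace.volume_ball_fin_two]
  rw [ENNReal.toReal_mul, ENNReal.toReal_pow, ENNReal.toReal_ofReal hτ.le]
  rw [ENNReal.toReal_ofReal Real.pi_pos.le]
  have := Real.pi_lt_four
  nlinarith [sq_nonneg τ]

theorem o4_int {I : Type} [Fintype I] (w wt : I → E2 → ℝ) (B : I → Fin 2 → ℝ) (b : I → ℝ)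
    (τ a q : ℝ) (hτ0 : 0 < τ) (hτ : τ < 1 / 4) (hw : ∀ i, Continuous (w i))
    (hwt : ∀ i, Continuous (wt i))
    (h1 : ∀ i, (∫ x in Metric.ball (0 : E2) (1 / 4), (w i x - wt i x) ^ 2) ≤ a)
    (h2 : ∀ i, ∀ z ∈ Metric.ball (0 : E2) τ, |wt i z - (∑ j, B i j * z j) - b i| ≤ q) :
    (∫ z in Metric.ball (0 : E2) τ, ∑ i, (w i z - (∑ j, B i j * z j) - b i) ^ 2) ≤
      (Fintype.card I) * (2 * a + 2 * q ^ 2 * (4 * τ ^ 2)) := by
  have hfin : volume (Metric.ball (0 : E2) τ) ≠ ⊤ := measure_ball_lt_top.ne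
  have hint : ∀ (g : E2 → ℝ) (r : ℝ), Continuous g →
      IntegrableOn g (Metric.ball (0 : E2) r) := by
    intro g r hg
    exact (hg.continuousOn.integrableOn_compact (isCompact_closedBall (0 : E2) r)).mono_set
      Metric.ball_subset_closedBall
  have hcj : ∀ j : Fin 2, Continuous (fun z : E2 => z j) := fun j => by fun_prop
  have hcB : ∀ i, Continuous (fun z : E2 => ∑ j, B i j * z j) := fun i =>
    continuous_finsetSum _ fun j _ => continuous_const.mul (hcj j)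
  have hc1 : ∀ i, Continuous (fun z : E2 => (w i z - (∑ j, B i j * z j) - b i) ^ 2) := fun i =>
    (((hw i).sub (hcB i)).sub continuous_const).pow 2
  have hc2 : ∀ i, Continuous (fun z : E2 => (w i z - wt i z) ^ 2) := fun i =>
    ((hw i).sub (hwt i)).pow 2
  rw [integral_finsetSum _ fun i _ => hint _ τ (hc1 i)]
  have hi : ∀ i, (∫ z in Metric.ball (0 : E2) τ, (w i z - (∑ j, B i j * z j) - b i) ^ 2) ≤
      2 * a + 2 * q ^ 2 * (4 * τ ^ 2) := by
    intro i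
    calc (∫ z in Metric.ball (0 : E2) τ, (w i z - (∑ j, B i j * z j) - b i) ^ 2)
        ≤ ∫ z in Metric.ball (0 : E2) τ, (2 * (w i z - wt i z) ^ 2 + 2 * q ^ 2) := by
          apply setIntegral_mono_on (hint _ τ (hc1 i))
          · exact hint _ τ ((continuous_const.mul (hc2 i)).add continuous_const)
          · exact measurableSet_ball
          · intro z hz
            have h3 := abs_le.mp (h2 i z hz)
            have h4 : (wt i z - (∑ j, B i j * z j) - b i) ^ 2 ≤ q ^ 2 := by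
              rw [← sq_abs]
              have := h2 i z hz
              gcongr
            have h5 : w i z - (∑ j, B i j * z j) - b i =
              (w i z - wt i z) + (wt i z - (∑ j, B i j * z j) - b i) := by ring
            rw [h5]
            nlinarith [sq_nonneg ((w i z - wt i z) - (wt i z - (∑ j, B i j * z j) - b i))]
      _ = 2 * (∫ z in Metric.ball (0 : E2) τ, (w i z - wt i z) ^ 2)
          + 2 * q ^ 2 * (volume (Metric.ball (0 : E2) τ)).toReal := by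
          have j1 : IntegrableOn (fun z : E2 => 2 * (w i z - wt i z) ^ 2)
            (Metric.ball (0 : E2) τ) := hint _ τ (continuous_const.mul (hc2 i))
          have j2 : IntegrableOn (fun _ : E2 => 2 * q ^ 2) (Metric.ball (0 : E2) τ) :=
            hint _ τ continuous_const
          rw [integral_add j1 j2, integral_const_mul, setIntegral_const, smul_eq_mul,
            Measure.real]
          ring
      _ ≤ 2 * a + 2 * q ^ 2 * (4 * τ ^ 2) := by
          have h6 : (∫ z in Metric.ball (0 : E2) τ, (w i z - wt i z) ^ 2) ≤ a := by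
            refine le_trans ?_ (h1 i)
            apply setIntegral_mono_set (hint _ _ (hc2 i))
            · exact Filter.Eventually.of_forall fun z => sq_nonneg _
            · exact (Metric.ball_subset_ball (by linarith)).eventuallyLE
          have h7 := o4_vol τ hτ0
          gcongr
  calc ∑ i, (∫ z in Metric.ball (0 : E2) τ, (w i z - (∑ j, B i j * z j) - b i) ^ 2)
      ≤ ∑ _i : I, (2 * a + 2 * q ^ 2 * (4 * τ ^ 2)) := Finset.sum_le_sum fun i _ => hi i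
    _ = (Fintype.card I) * (2 * a + 2 * q ^ 2 * (4 * τ ^ 2)) := by
        rw [Finset.sum_const, Finset.card_univ, nsmul_eq_mul]

theorem o4_num (N Q K1 τ ε κ s q : ℝ) (hN : 0 ≤ N) (hQ : 0 ≤ Q)
    (hq0 : 0 ≤ q) (hq : q ≤ 2 * (Real.sqrt Q * s) * τ ^ 2 + 2 * (κ * s) * τ)
    (h1 : 24 * N * K1 * ε ^ 2 ≤ τ ^ 4) (h2 : 768 * N * Q * τ ^ 2 ≤ 1)
    (h3 : 768 * N * κ ^ 2 ≤ 1) :
    N * (2 * (ε ^ 2 * (K1 * s ^ 2)) + 2 * q ^ 2 * (4 * τ ^ 2)) ≤ s ^ 2 / 4 * τ ^ 4 := by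
  have e1 : q ^ 2 ≤ 8 * Q * s ^ 2 * τ ^ 4 + 8 * κ ^ 2 * s ^ 2 * τ ^ 2 := by
    have a1 : q ^ 2 ≤ (2 * (Real.sqrt Q * s) * τ ^ 2 + 2 * (κ * s) * τ) ^ 2 := by gcongr
    have a2 := sq_nonneg (2 * (Real.sqrt Q * s) * τ ^ 2 - 2 * (κ * s) * τ)
    have a3 : Real.sqrt Q ^ 2 = Q := Real.sq_sqrt hQ
    calc q ^ 2 ≤ (2 * (Real.sqrt Q * s) * τ ^ 2 + 2 * (κ * s) * τ) ^ 2 := a1
      _ ≤ 8 * (Real.sqrt Q ^ 2) * s ^ 2 * τ ^ 4 + 8 * κ ^ 2 * s ^ 2 * τ ^ 2 := by nlinarith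
      _ = _ := by rw [a3]
  have e2 : N * (2 * (ε ^ 2 * (K1 * s ^ 2)) + 2 * q ^ 2 * (4 * τ ^ 2)) ≤
      N * (2 * (ε ^ 2 * (K1 * s ^ 2))
        + 2 * (8 * Q * s ^ 2 * τ ^ 4 + 8 * κ ^ 2 * s ^ 2 * τ ^ 2) * (4 * τ ^ 2)) := by
    gcongr
  have e3 : N * (2 * (ε ^ 2 * (K1 * s ^ 2))
        + 2 * (8 * Q * s ^ 2 * τ ^ 4 + 8 * κ ^ 2 * s ^ 2 * τ ^ 2) * (4 * τ ^ 2)) =
      (24 * N * K1 * ε ^ 2) * (s ^ 2 / 12) + (768 * N * Q * τ ^ 2) * (s ^ 2 * τ ^ 4 / 12)
        + (768 * N * κ ^ 2) * (s ^ 2 * τ ^ 4 / 12) := by ring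
  have f1 : (24 * N * K1 * ε ^ 2) * (s ^ 2 / 12) ≤ τ ^ 4 * (s ^ 2 / 12) := by gcongr
  have f2 : (768 * N * Q * τ ^ 2) * (s ^ 2 * τ ^ 4 / 12) ≤ 1 * (s ^ 2 * τ ^ 4 / 12) := by gcongr
  have f3 : (768 * N * κ ^ 2) * (s ^ 2 * τ ^ 4 / 12) ≤ 1 * (s ^ 2 * τ ^ 4 / 12) := by gcongr
  linarith

theorem one_step {n : ℕ} {I : Type} [Fintype I] {e : Fin n → I} {W : Mat n → I → Fin 2 → ℝ}
    {K : Set (Mat n)} {A0 : Mat n} {C : I → I → ℝ} {c ρ : ℝ} (D : UData e W K A0 C c ρ) :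
    ∃ τ s0 M1 : ℝ, 0 < τ ∧ τ < 1 / 8 ∧ 0 < s0 ∧ 0 < M1 ∧ ∀ A, ‖A - A0‖ ≤ ρ →
      ∀ w : I → E2 → ℝ, (∀ i, ∃ L : NNReal, LipschitzWith L (w i)) →
      (∀ᵐ y ∂(volume.restrict (Metric.ball (0 : E2) 1)),
        A + uJac e w y ∈ K ∧ grad w y = W (A + uJac e w y) - W A) →
      ∀ s : ℝ, 0 < s → s ≤ s0 → (∫ y in Metric.ball (0 : E2) 1, ∑ i, (w i y) ^ 2) ≤ s ^ 2 →
      ∃ (A' : Mat n) (b : I → ℝ), ‖A' - A‖ ≤ M1 * s ∧
        (∫ z in Metric.ball (0 : E2) τ,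
          ∑ i, (w i z - (∑ j, (W A' i j - W A i j) * z j) - b i) ^ 2) ≤ s ^ 2 / 4 * τ ^ 4 := by
  obtain ⟨Q, K1, hQ, hK1, hmoll⟩ := unit_moll D
  set N : ℝ := (Fintype.card I : ℝ) with hN
  have hN0 : 0 ≤ N := by positivity
  set τ : ℝ := 1 / (16 + 768 * N * Q) with hτdef
  have hden : 0 < 16 + 768 * N * Q := by positivity
  have hτ0 : 0 < τ := by positivity
  have hτ16 : τ ≤ 1 / 16 := by
    rw [hτdef]
    apply one_div_le_one_div_of_le (by norm_num)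
    have : 0 ≤ 768 * N * Q := by positivity
    linarith
  have hτ1 : 768 * N * Q * τ ^ 2 ≤ 1 := by
    have h1 : τ ^ 2 ≤ τ := by nlinarith
    have h2 : 768 * N * Q * τ ≤ 1 := by
      rw [hτdef, mul_one_div, div_le_one hden]
      linarith
    calc 768 * N * Q * τ ^ 2 ≤ 768 * N * Q * τ := by gcongr
      _ ≤ 1 := h2
  set ε : ℝ := τ ^ 4 / (64 + 24 * N * K1) with hεdef
  have hden2 : 0 < 64 + 24 * N * K1 := by positivity
  have hε0 : 0 < ε := by positivity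
  have hτ4 : τ ^ 4 ≤ 1 := pow_le_one₀ hτ0.le (by linarith)
  have hε64 : ε ≤ 1 / 64 := by
    rw [hεdef]
    apply div_le_div₀ (by norm_num) hτ4 (by norm_num)
    have : 0 ≤ 24 * N * K1 := by positivity
    linarith
  have hε1 : 24 * N * K1 * ε ^ 2 ≤ τ ^ 4 := by
    have h1 : ε ^ 2 ≤ ε := by nlinarith
    have h2 : 24 * N * K1 * ε ≤ τ ^ 4 := by
      rw [hεdef, mul_div_assoc', div_le_iff₀ hden2]
      have : 0 ≤ τ ^ 4 * 64 := by positivity
      nlinarith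
    calc 24 * N * K1 * ε ^ 2 ≤ 24 * N * K1 * ε := by gcongr
      _ ≤ τ ^ 4 := h2
  set κ : ℝ := 1 / (1 + 768 * N) with hκdef
  have hden3 : 0 < 1 + 768 * N := by positivity
  have hκ0 : 0 < κ := by positivity
  have hκ1 : 768 * N * κ ^ 2 ≤ 1 := by
    have h0 : κ ≤ 1 := by
      rw [hκdef, div_le_one hden3]
      linarith
    have h1 : κ ^ 2 ≤ κ := by nlinarith
    have h2 : 768 * N * κ ≤ 1 := by
      rw [hκdef, mul_one_div, div_le_one hden3]
      linarith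
    calc 768 * N * κ ^ 2 ≤ 768 * N * κ := by gcongr
      _ ≤ 1 := h2
  set M1 : ℝ := Real.sqrt Q + 1 with hM1
  have hM10 : 0 < M1 := by positivity
  set R : ℝ := ‖A0‖ + ρ + M1 with hR
  obtain ⟨M', hM'0, hM'⟩ := W_taylor D.smooth R (κ / (3 * M1)) (by positivity)
  obtain ⟨s2, hs20, hs2⟩ := hmoll ε hε0 hε64 (κ / 3) (by positivity)
  set s0 : ℝ := min (min 1 s2) (κ / (3 * (M' * M1 ^ 2))) with hs0
  have hs00 : 0 < s0 := lt_min (lt_min one_pos hs20) (by positivity)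
  refine ⟨τ, s0, M1, hτ0, by linarith, hs00, hM10, fun A hA w hw hae s hs hss hint => ?_⟩
  have hsa : s ≤ 1 := hss.trans ((min_le_left _ _).trans (min_le_left _ _))
  have hsb : s ≤ s2 := hss.trans ((min_le_left _ _).trans (min_le_right _ _))
  have hsc : M' * M1 ^ 2 * s ≤ κ / 3 := by
    have h1 : s ≤ κ / (3 * (M' * M1 ^ 2)) := hss.trans (min_le_right _ _)
    calc M' * M1 ^ 2 * s ≤ M' * M1 ^ 2 * (κ / (3 * (M' * M1 ^ 2))) := by gcongr
      _ = κ / 3 := by field_simp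
  obtain ⟨hsm, hb, h0, happ⟩ := hs2 A hA w hw hae s hs hsb hint
  set wt : I → E2 → ℝ := fun i => mol ε (w i) with hwt
  set P : Mat n := uJac e wt 0 with hP
  have h0mem : (0 : E2) ∈ Metric.ball (0 : E2) (1 / 8) := by
    rw [Metric.mem_ball, dist_self]; norm_num
  have hsqrt : ∀ y : ℝ, y ^ 2 ≤ Q * s ^ 2 → |y| ≤ Real.sqrt Q * s := by
    intro y hy
    apply abs_le_of_sq_le_sq
    · rw [mul_pow, Real.sq_sqrt hQ.le]; exact hy
    · positivity
  have hPn : ‖P‖ ≤ M1 * s := by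
    have h1 : ‖P‖ ≤ Real.sqrt Q * s := by
      rw [pi_norm_le_iff_of_nonneg (by positivity)]
      intro k
      rw [pi_norm_le_iff_of_nonneg (by positivity)]
      intro m
      rw [Real.norm_eq_abs]
      exact hsqrt _ (hb 0 h0mem (e k) [m] (by simp))
    have : Real.sqrt Q * s ≤ M1 * s := by
      rw [hM1]; gcongr; linarith
    linarith
  refine ⟨A + P, fun i => wt i 0, by rw [add_sub_cancel_left]; exact hPn, ?_⟩
  have hAn : ‖A‖ ≤ ‖A0‖ + ρ := by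
    calc ‖A‖ = ‖A0 + (A - A0)‖ := by congr 1; abel
      _ ≤ ‖A0‖ + ‖A - A0‖ := norm_add_le _ _
      _ ≤ _ := by linarith
  have hM1s : M1 * s ≤ M1 := by nlinarith
  have hAR : ‖A‖ ≤ R := by rw [hR]; linarith
  have hAPR : ‖A + P‖ ≤ R := by
    have := norm_add_le A P
    rw [hR]; linarith
  have hT := hM' A (A + P) hAR hAPR
  rw [add_sub_cancel_left, ← app_DW] at hT
  have hG : ∀ i j, |pd j (wt i) 0 - (W (A + P) i j - W A i j)| ≤ κ * s := by
    intro i j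
    have h1 := h0 i j
    have h2 := o1_entry (W (A + P) - W A - app (DW W A) P) i j
    have h3 : |W (A + P) i j - W A i j - app (DW W A) P i j| ≤
        κ / (3 * M1) * ‖P‖ + M' * ‖P‖ ^ 2 := h2.trans hT
    have h4 : κ / (3 * M1) * ‖P‖ + M' * ‖P‖ ^ 2 ≤ κ / 3 * s + κ / 3 * s := by
      have a1 : κ / (3 * M1) * ‖P‖ ≤ κ / 3 * s := by
        calc κ / (3 * M1) * ‖P‖ ≤ κ / (3 * M1) * (M1 * s) := by gcongr
          _ = κ / 3 * s := by field_simp
      have a2 : M' * ‖P‖ ^ 2 ≤ κ / 3 * s := by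
        calc M' * ‖P‖ ^ 2 ≤ M' * (M1 * s) ^ 2 := by gcongr
          _ = (M' * M1 ^ 2 * s) * s := by ring
          _ ≤ κ / 3 * s := by gcongr
      linarith
    have h5 : pd j (wt i) 0 - (W (A + P) i j - W A i j) =
        (pd j (wt i) 0 - app (DW W A) P i j)
          - (W (A + P) i j - W A i j - app (DW W A) P i j) := by ring
    rw [h5]
    calc _ ≤ |pd j (wt i) 0 - app (DW W A) P i j|
          + |W (A + P) i j - W A i j - app (DW W A) P i j| := abs_sub _ _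
      _ ≤ κ / 3 * s + (κ / 3 * s + κ / 3 * s) := add_le_add h1 (h3.trans h4)
      _ = κ * s := by ring
  have hwc : ∀ i, Continuous (w i) := fun i => by
    obtain ⟨L, hL⟩ := hw i
    exact hL.continuous
  have key := o4_int w wt (fun i j => W (A + P) i j - W A i j) (fun i => wt i 0) τ
    (ε ^ 2 * (K1 * s ^ 2)) (2 * (Real.sqrt Q * s) * τ ^ 2 + 2 * (κ * s) * τ) hτ0 (by linarith)
    hwc (fun i => (hsm i).continuous) happ ?_
  · exact key.trans (o4_num N Q K1 τ ε κ s _ hN0 hQ.le (by positivity) le_rfl hε1 hτ1 hκ1)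
  · intro i z hz
    have hz8 : z ∈ Metric.ball (0 : E2) (1 / 8) := Metric.ball_subset_ball (by linarith) hz
    have hzn : ‖z‖ ≤ τ := by
      rw [Metric.mem_ball, dist_zero_right] at hz
      exact hz.le
    have h1 := taylor2 (hsm i) (1 / 8) (Real.sqrt Q * s) (by
      intro x hx l hl
      exact hsqrt _ (hb x hx i l hl.le)) z hz8
    have h2 : |∑ j, (pd j (wt i) 0 - (W (A + P) i j - W A i j)) * z j| ≤ 2 * (κ * s) * τ := by
      calc |∑ j, (pd j (wt i) 0 - (W (A + P) i j - W A i j)) * z j|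
          ≤ ∑ j, |(pd j (wt i) 0 - (W (A + P) i j - W A i j)) * z j| :=
            Finset.abs_sum_le_sum_abs _ _
        _ ≤ ∑ _j : Fin 2, κ * s * τ := by
            apply Finset.sum_le_sum
            intro j _
            rw [abs_mul]
            have hzj : |z j| ≤ τ := by
              have := EuclideanSpace.norm_eq z
              have h3 : ‖z j‖ ≤ ‖z‖ := PiLp.norm_apply_le z j
              rw [Real.norm_eq_abs] at h3
              linarith
            exact mul_le_mul (hG i j) hzj (abs_nonneg _) (by positivity)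
        _ = 2 * (κ * s) * τ := by simp; ring
    have h3 : wt i z - (∑ j, (W (A + P) i j - W A i j) * z j) - wt i 0 =
        (wt i z - wt i 0 - ∑ j, pd j (wt i) 0 * z j)
          + ∑ j, (pd j (wt i) 0 - (W (A + P) i j - W A i j)) * z j := by
      simp only [sub_mul, Finset.sum_sub_distrib]
      ring
    show |wt i z - (∑ j, (W (A + P) i j - W A i j) * z j) - wt i 0| ≤ _
    rw [h3]
    calc _ ≤ |wt i z - wt i 0 - ∑ j, pd j (wt i) 0 * z j|
          + |∑ j, (pd j (wt i) 0 - (W (A + P) i j - W A i j)) * z j| := abs_add_le _ _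
      _ ≤ 2 * (Real.sqrt Q * s) * ‖z‖ ^ 2 + 2 * (κ * s) * τ := add_le_add h1 h2
      _ ≤ 2 * (Real.sqrt Q * s) * τ ^ 2 + 2 * (κ * s) * τ := by gcongr

end Pool.Agent.SLG
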