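import Pool.Agent.SLG.O4

/-!
ROW O5 (rescaling: one step at every scale).
Same `τ, s0, M1` as in `one_step`.  Given `x, r, A, b, s`, put
`v i y := (w i (x + r • y) - (∑ j, W A i j * (r * y j)) - b i) / r`.
Then `v i` is Lipschitz; `pd j (v i) y = pd j (w i) (x + r • y) - W A i j` at every `y` (chain rule:
if `w i` is differentiable at `x + r • y`; if not, then it is still true for a.e. `y` by
Rademacher, `LipschitzWith.ae_differentiableAt`, and the map `y ↦ x + r • y` preserves null sets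
in both directions).  `uJac e v y = uJac e w (x + r • y) - A` (`D.emb`), so `Incl` on `ball x r`
transforms into the hypothesis of `one_step` for `v` on `ball 0 1`
(push forward of `volume.restrict (ball 0 1)` under `y ↦ x + r • y` is
`r⁻² • volume.restrict (ball x r)`; for the a.e. statement quasi measure preserving suffices).
Change of variables: `∫_{ball 0 1} ∑ (v i y)² dy = r⁻² r⁻² Exc W w x r A b ≤ s²`
(`Measure.addHaar_smul`-type formula `integral_comp_smul`/`setIntegral_comp_smul_of_pos`,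
`finrank ℝ E2 = 2`, and translation invariance).
`one_step` gives `A'`, `β` with `∫_{ball 0 τ} ∑ (v i z - ∑ (W A' - W A) i j z_j - β i)² ≤
s²/4 τ⁴`.  Since `v i z - ∑ (W A' i j - W A i j) z_j - β i =
(w i (x + r z) - ∑ W A' i j (r z_j) - b i - r β i)/r`, changing variables back gives
`Exc W w x (τ r) A' (b + r β) ≤ r² r² s²/4 τ⁴ = (s/2)² (τ r)⁴`.
-/

namespace Pool.Agent.SLG

open MeasureTheory

theorem o5_cov (x : E2) (r t : ℝ) (hr : 0 < r) (G : E2 → ℝ) :
    ∫ y in Metric.ball (0 : E2) t, G (x + r • y) = (r ^ 2)⁻¹ * ∫ z in Metric.ball x (t * r), G z := by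
  have hf : Module.finrank ℝ E2 = 2 := by
    rw [finrank_euclideanSpace, Fintype.card_fin]
  have e1 : ∫ y in Metric.ball (0 : E2) t, G (x + r • y) =
      ∫ y : E2, (fun z => (Metric.ball x (t * r)).indicator G (x + z)) (r • y) := by
    rw [← integral_indicator Metric.isOpen_ball.measurableSet]
    refine integral_congr_ae (Filter.Eventually.of_forall fun y => ?_)
    show (Metric.ball (0 : E2) t).indicator (fun y => G (x + r • y)) y = (Metric.ball x (t * r)).indicator G (x + r • y)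
    have h1 : y ∈ Metric.ball (0 : E2) t ↔ x + r • y ∈ Metric.ball x (t * r) := by
      rw [mem_ball_zero_iff, mem_ball_iff_norm, add_sub_cancel_left, norm_smul, Real.norm_eq_abs, abs_of_pos hr,
        mul_comm t r]
      exact (mul_lt_mul_iff_right₀ hr).symm
    by_cases h2 : y ∈ Metric.ball (0 : E2) t
    · rw [Set.indicator_of_mem h2, Set.indicator_of_mem (h1.1 h2)]
    · rw [Set.indicator_of_notMem h2, Set.indicator_of_notMem (fun h => h2 (h1.2 h))]
  have e2 := Measure.integral_comp_smul_of_nonneg (volume : Measure E2)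
    (fun z => (Metric.ball x (t * r)).indicator G (x + z)) r (hR := hr.le)
  rw [hf, smul_eq_mul] at e2
  rw [e1, e2]
  congr 1
  rw [integral_add_left_eq_self (fun z => (Metric.ball x (t * r)).indicator G z) x,
    integral_indicator Metric.isOpen_ball.measurableSet]

theorem o5_quasi (x : E2) (r : ℝ) (hr : 0 < r) :
    Measure.QuasiMeasurePreserving (fun y : E2 => x + r • y) volume volume :=
  (measurePreserving_add_left volume x).quasiMeasurePreserving.comp
    (Measure.quasiMeasurePreserving_smul volume hr.ne')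

/-- the rescaled function -/
noncomputable def o5_v {I : Type} (w : I → E2 → ℝ) (M : I → Fin 2 → ℝ) (b : I → ℝ) (x : E2) (r : ℝ) (i : I)
    (y : E2) : ℝ := r⁻¹ * (w i (x + r • y) - (∑ j, M i j * (r * y j)) - b i)

/-- the linear part -/
noncomputable def o5_l (a : Fin 2 → ℝ) (r : ℝ) : E2 →L[ℝ] ℝ :=
  (r * a 0) • (EuclideanSpace.proj 0 : E2 →L[ℝ] ℝ) + (r * a 1) • (EuclideanSpace.proj 1 : E2 →L[ℝ] ℝ)

theorem o5_l_app (a : Fin 2 → ℝ) (r : ℝ) (y : E2) : o5_l a r y = ∑ j, a j * (r * y j) := by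
  rw [Fin.sum_univ_two]
  show (r * a 0) * y 0 + (r * a 1) * y 1 = _
  ring

theorem o5_l_ee (a : Fin 2 → ℝ) (r : ℝ) (j : Fin 2) : o5_l a r (ee j) = r * a j := by
  rw [o5_l_app]
  unfold ee
  fin_cases j <;> simp <;> ring

theorem o5_v_eq {I : Type} (w : I → E2 → ℝ) (M : I → Fin 2 → ℝ) (b : I → ℝ) (x : E2) (r : ℝ) (i : I) (y : E2) :
    o5_v w M b x r i y = r⁻¹ * (w i (x + r • y) - o5_l (M i) r y - b i) := by
  unfold o5_v
  rw [o5_l_app]

theorem o5_lip {I : Type} (w : I → E2 → ℝ) (M : I → Fin 2 → ℝ) (b : I → ℝ) (x : E2) (r : ℝ) (hr : 0 < r) (i : I)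
    (L : NNReal) (hL : LipschitzWith L (w i)) : ∃ L' : NNReal, LipschitzWith L' (o5_v w M b x r i) := by
  refine ⟨Real.toNNReal (r⁻¹ * (L * r + ‖o5_l (M i) r‖)), LipschitzWith.of_dist_le_mul fun y z => ?_⟩
  rw [Real.coe_toNNReal _ (by positivity), o5_v_eq, o5_v_eq, Real.dist_eq, dist_eq_norm]
  have h1 : |w i (x + r • y) - w i (x + r • z)| ≤ L * (r * ‖y - z‖) := by
    have h2 := hL.dist_le_mul (x + r • y) (x + r • z)
    rw [Real.dist_eq, dist_eq_norm, add_sub_add_left_eq_sub, ← smul_sub, norm_smul, Real.norm_eq_abs,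
      abs_of_pos hr] at h2
    exact h2
  have h3 : |o5_l (M i) r y - o5_l (M i) r z| ≤ ‖o5_l (M i) r‖ * ‖y - z‖ := by
    rw [← map_sub, ← Real.norm_eq_abs]
    exact ContinuousLinearMap.le_opNorm _ _
  have h4 : r⁻¹ * (w i (x + r • y) - o5_l (M i) r y - b i) - r⁻¹ * (w i (x + r • z) - o5_l (M i) r z - b i) =
      r⁻¹ * ((w i (x + r • y) - w i (x + r • z)) - (o5_l (M i) r y - o5_l (M i) r z)) := by ring
  rw [h4, abs_mul, abs_of_pos (inv_pos.2 hr), mul_assoc]
  refine mul_le_mul_of_nonneg_left ?_ (inv_pos.2 hr).le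
  refine (abs_sub _ _).trans ?_
  nlinarith

theorem o5_pd {I : Type} (w : I → E2 → ℝ) (M : I → Fin 2 → ℝ) (b : I → ℝ) (x : E2) (r : ℝ) (hr : 0 < r) (i : I)
    (y : E2) (hd : DifferentiableAt ℝ (w i) (x + r • y)) (j : Fin 2) :
    pd j (o5_v w M b x r i) y = pd j (w i) (x + r • y) - M i j := by
  have h1 : HasFDerivAt (fun y : E2 => x + r • y) (r • (ContinuousLinearMap.id ℝ E2)) y :=
    ((hasFDerivAt_id y).const_smul r).const_add x
  have h2 := hd.hasFDerivAt.comp y h1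
  have h3 := ((h2.sub ((o5_l (M i) r).hasFDerivAt (x := y))).sub_const (b i)).const_mul r⁻¹
  have h4 : (fun y => r⁻¹ * ((w i ∘ fun y : E2 => x + r • y) y - o5_l (M i) r y - b i)) = o5_v w M b x r i := by
    funext z
    rw [o5_v_eq]
    rfl
  have h5 : HasFDerivAt (o5_v w M b x r i)
      (r⁻¹ • ((fderiv ℝ (w i) (x + r • y)).comp (r • (ContinuousLinearMap.id ℝ E2)) - o5_l (M i) r)) y := by
    rw [← h4]
    exact h3
  unfold pd
  rw [h5.fderiv]
  show r⁻¹ * (fderiv ℝ (w i) (x + r • y) (r • ee j) - o5_l (M i) r (ee j)) = _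
  rw [map_smul, o5_l_ee, smul_eq_mul]
  field_simp

theorem step {n : ℕ} {I : Type} [Fintype I] {e : Fin n → I} {W : Mat n → I → Fin 2 → ℝ}
    {K : Set (Mat n)} {A0 : Mat n} {C : I → I → ℝ} {c ρ : ℝ} (D : UData e W K A0 C c ρ) :
    ∃ τ s0 M1 : ℝ, 0 < τ ∧ τ < 1 / 8 ∧ 0 < s0 ∧ 0 < M1 ∧
      ∀ w : I → E2 → ℝ, (∀ i, ∃ L : NNReal, LipschitzWith L (w i)) →
      ∀ (x : E2) (r : ℝ), 0 < r → Incl e W K w (Metric.ball x r) →
      ∀ A, ‖A - A0‖ ≤ ρ → ∀ (b : I → ℝ) (s : ℝ), 0 < s → s ≤ s0 →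
      Exc W w x r A b ≤ s ^ 2 * r ^ 4 →
      ∃ (A' : Mat n) (b' : I → ℝ), ‖A' - A‖ ≤ M1 * s ∧
        Exc W w x (τ * r) A' b' ≤ (s / 2) ^ 2 * (τ * r) ^ 4 := by
  obtain ⟨τ, s0, M1, hτ, hτ8, hs0, hM1, H⟩ := one_step D
  refine ⟨τ, s0, M1, hτ, hτ8, hs0, hM1, fun w hw x r hr hI A hA b s hs hss hE => ?_⟩
  have hlip : ∀ i, ∃ L : NNReal, LipschitzWith L (o5_v w (W A) b x r i) := by
    intro i
    obtain ⟨L, hL⟩ := hw i
    exact o5_lip w (W A) b x r hr i L hL
  have hdiff : ∀ᵐ y : E2, ∀ i, DifferentiableAt ℝ (w i) (x + r • y) := by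
    rw [ae_all_iff]
    intro i
    obtain ⟨L, hL⟩ := hw i
    exact (o5_quasi x r hr).ae hL.ae_differentiableAt
  have hI' : ∀ᵐ y : E2, x + r • y ∈ Metric.ball x r →
      uJac e w (x + r • y) ∈ K ∧ grad w (x + r • y) = W (uJac e w (x + r • y)) := by
    have h1 := (ae_restrict_iff' Metric.isOpen_ball.measurableSet).1 hI
    exact (o5_quasi x r hr).ae h1
  have hincl : ∀ᵐ y ∂(volume.restrict (Metric.ball (0 : E2) 1)),
      A + uJac e (o5_v w (W A) b x r) y ∈ K ∧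
        grad (o5_v w (W A) b x r) y = W (A + uJac e (o5_v w (W A) b x r) y) - W A := by
    rw [ae_restrict_iff' Metric.isOpen_ball.measurableSet]
    filter_upwards [hdiff, hI'] with y h1 h2 hy
    have h3 : x + r • y ∈ Metric.ball x r := by
      rw [mem_ball_zero_iff] at hy
      rw [mem_ball_iff_norm, add_sub_cancel_left, norm_smul, Real.norm_eq_abs, abs_of_pos hr]
      nlinarith
    obtain ⟨h4, h5⟩ := h2 h3
    have h6 : A + uJac e (o5_v w (W A) b x r) y = uJac e w (x + r • y) := by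
      funext k m
      show A k m + pd m (o5_v w (W A) b x r (e k)) y = pd m (w (e k)) (x + r • y)
      rw [o5_pd w (W A) b x r hr (e k) y (h1 (e k)) m, D.emb]
      ring
    rw [h6]
    refine ⟨h4, ?_⟩
    rw [← h5]
    funext i j
    show pd j (o5_v w (W A) b x r i) y = pd j (w i) (x + r • y) - W A i j
    exact o5_pd w (W A) b x r hr i y (h1 i) j
  have hsq : (∫ y in Metric.ball (0 : E2) 1, ∑ i, (o5_v w (W A) b x r i y) ^ 2) ≤ s ^ 2 := by
    have e1 : (fun y : E2 => ∑ i, (o5_v w (W A) b x r i y) ^ 2) = fun y =>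
        (r⁻¹) ^ 2 * (fun z : E2 => ∑ i, (w i z - (∑ j, W A i j * (z j - x j)) - b i) ^ 2) (x + r • y) := by
      funext y
      show ∑ i, (r⁻¹ * (w i (x + r • y) - (∑ j, W A i j * (r * y j)) - b i)) ^ 2 =
        (r⁻¹) ^ 2 * ∑ i, (w i (x + r • y) - (∑ j, W A i j * ((x + r • y) j - x j)) - b i) ^ 2
      rw [Finset.mul_sum]
      refine Finset.sum_congr rfl fun i _ => ?_
      have h1 : ∀ j, (x + r • y) j - x j = r * y j := by
        intro j
        show x j + r * y j - x j = r * y j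
        ring
      have h2 : ∑ j, W A i j * ((x + r • y) j - x j) = ∑ j, W A i j * (r * y j) :=
        Finset.sum_congr rfl fun j _ => by rw [h1 j]
      rw [h2, mul_pow]
    have e2 := o5_cov x r 1 hr (fun z : E2 => ∑ i, (w i z - (∑ j, W A i j * (z j - x j)) - b i) ^ 2)
    rw [e1, integral_const_mul, e2, one_mul]
    have e3 : (∫ z in Metric.ball x r, ∑ i, (w i z - (∑ j, W A i j * (z j - x j)) - b i) ^ 2) ≤ s ^ 2 * r ^ 4 := hE
    calc (r⁻¹) ^ 2 * ((r ^ 2)⁻¹ * ∫ z in Metric.ball x r, ∑ i, (w i z - (∑ j, W A i j * (z j - x j)) - b i) ^ 2)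
        ≤ (r⁻¹) ^ 2 * ((r ^ 2)⁻¹ * (s ^ 2 * r ^ 4)) := by
          gcongr
      _ = s ^ 2 := by
          field_simp
  obtain ⟨A', β, hA', hβ⟩ := H A hA (o5_v w (W A) b x r) hlip hincl s hs hss hsq
  refine ⟨A', fun i => b i + r * β i, hA', ?_⟩
  have e4 : (fun z : E2 => ∑ i, (o5_v w (W A) b x r i z - (∑ j, (W A' i j - W A i j) * z j) - β i) ^ 2) = fun y =>
      (r⁻¹) ^ 2 * (fun z : E2 => ∑ i, (w i z - (∑ j, W A' i j * (z j - x j)) - (b i + r * β i)) ^ 2) (x + r • y) := by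
    funext y
    show ∑ i, (r⁻¹ * (w i (x + r • y) - (∑ j, W A i j * (r * y j)) - b i) -
        (∑ j, (W A' i j - W A i j) * y j) - β i) ^ 2 =
      (r⁻¹) ^ 2 * ∑ i, (w i (x + r • y) - (∑ j, W A' i j * ((x + r • y) j - x j)) - (b i + r * β i)) ^ 2
    rw [Finset.mul_sum]
    refine Finset.sum_congr rfl fun i _ => ?_
    have h1 : ∀ j, (x + r • y) j - x j = r * y j := by
      intro j
      show x j + r * y j - x j = r * y j
      ring
    have h2 : ∑ j, W A' i j * ((x + r • y) j - x j) = ∑ j, W A' i j * (r * y j) :=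
      Finset.sum_congr rfl fun j _ => by rw [h1 j]
    rw [h2, ← mul_pow]
    congr 1
    simp only [Fin.sum_univ_two]
    field_simp
    ring
  have e5 := o5_cov x r τ hr (fun z : E2 => ∑ i, (w i z - (∑ j, W A' i j * (z j - x j)) - (b i + r * β i)) ^ 2)
  rw [e4, integral_const_mul, e5] at hβ
  show (∫ z in Metric.ball x (τ * r), ∑ i, (w i z - (∑ j, W A' i j * (z j - x j)) - (b i + r * β i)) ^ 2) ≤
    (s / 2) ^ 2 * (τ * r) ^ 4
  obtain ⟨X, hX⟩ : ∃ X : ℝ, X = ∫ z in Metric.ball x (τ * r),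
    ∑ i, (w i z - (∑ j, W A' i j * (z j - x j)) - (b i + r * β i)) ^ 2 := ⟨_, rfl⟩
  rw [← hX] at hβ ⊢
  have e6 : X = r ^ 4 * ((r⁻¹) ^ 2 * ((r ^ 2)⁻¹ * X)) := by
    field_simp
  calc X = r ^ 4 * ((r⁻¹) ^ 2 * ((r ^ 2)⁻¹ * X)) := e6
    _ ≤ r ^ 4 * (s ^ 2 / 4 * τ ^ 4) := mul_le_mul_of_nonneg_left hβ (by positivity)
    _ = (s / 2) ^ 2 * (τ * r) ^ 4 := by ring

end Pool.Agent.SLG
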