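import Pool.Agent.SLG.Defs

/-!
ROW P1 (Poincaré lemma for smooth fields on a disc).
Define `V x := ∫ t in (0:ℝ)..1, (-(G 1 (x0 + t • (x - x0))) * (x - x0) 0
 + G 0 (x0 + t • (x - x0)) * (x - x0) 1)`.  Differentiate under the integral sign (everything is
smooth, `hasFDerivAt_integral_of_dominated_of_fderiv_le` or
`intervalIntegral` version; or `ContDiff` results for parametric interval integrals):
with `a = -G 1`, `b = G 0` the closedness `∂₁a = ∂₀b` on the ball is exactly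
`pd 0 (G 0) + pd 1 (G 1) = 0`, and
`∂₀V(x) = ∫_0^1 (a(γ) + t (∂₀a)(γ) (x-x0)_0 + t (∂₀b)(γ) (x-x0)_1) dt
= ∫_0^1 (a(γ) + t (∂₀a (x-x0)_0 + ∂₁a (x-x0)_1)(γ)) dt = ∫_0^1 d/dt (t a(γ(t))) dt = a(x)`,
`γ(t) = x0 + t (x - x0)`, similarly `∂₁V = b`.
(If Mathlib has a Poincaré lemma for closed 1-forms on convex or star-shaped open sets, use it.)
`V` need only be considered on the ball; the conclusion gives the Fréchet derivative there.
-/

namespace Pool.Agent.SLG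

open MeasureTheory

theorem p1_dec (x : E2) : x = x 0 • ee 0 + x 1 • ee 1 := by
  ext i
  fin_cases i <;> simp [ee]

theorem p1_fderiv (g : E2 → ℝ) (a x : E2) :
    fderiv ℝ g a x = x 0 * pd 0 g a + x 1 * pd 1 g a := by
  conv_lhs => rw [p1_dec x]
  rw [map_add, map_smul, map_smul]
  rfl

theorem poincare_smooth (G : Fin 2 → E2 → ℝ)
    (hG : ∀ j, ContDiff ℝ ((⊤ : ℕ∞) : WithTop ℕ∞) (G j)) (x0 : E2) (R : ℝ) (hR : 0 < R)
    (hdiv : ∀ x ∈ Metric.ball x0 R, pd 0 (G 0) x + pd 1 (G 1) x = 0) :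
    ∃ V : E2 → ℝ, V x0 = 0 ∧ ∀ x ∈ Metric.ball x0 R,
      DifferentiableAt ℝ V x ∧ pd 0 V x = -(G 1 x) ∧ pd 1 V x = G 0 x := by
  set ω : E2 → (E2 →L[ℝ] ℝ) := fun x =>
    -(G 1 x) • (EuclideanSpace.proj (0 : Fin 2) : E2 →L[ℝ] ℝ) +
      (G 0 x) • (EuclideanSpace.proj (1 : Fin 2) : E2 →L[ℝ] ℝ) with hω
  have hd : ∀ j, Differentiable ℝ (G j) := fun j => (hG j).differentiable (by simp)
  have hder : ∀ a, HasFDerivAt ω
      ((-(fderiv ℝ (G 1) a)).smulRight (EuclideanSpace.proj (0 : Fin 2) : E2 →L[ℝ] ℝ) +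
        (fderiv ℝ (G 0) a).smulRight (EuclideanSpace.proj (1 : Fin 2) : E2 →L[ℝ] ℝ)) a := by
    intro a
    exact (((hd 1 a).hasFDerivAt.neg).smul_const
      (EuclideanSpace.proj (0 : Fin 2) : E2 →L[ℝ] ℝ)).add (((hd 0 a).hasFDerivAt).smul_const
      (EuclideanSpace.proj (1 : Fin 2) : E2 →L[ℝ] ℝ))
  obtain ⟨f, hf⟩ := (convex_ball x0 R).exists_forall_hasFDerivAt_of_fderiv_symmetric
    Metric.isOpen_ball (ω := ω) (fun a _ => (hder a).differentiableAt.differentiableWithinAt)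
    (by
      intro a ha x y
      rw [(hder a).fderiv]
      have h1 := hdiv a ha
      change (-(fderiv ℝ (G 1) a x)) * y 0 + fderiv ℝ (G 0) a x * y 1 =
        (-(fderiv ℝ (G 1) a y)) * x 0 + fderiv ℝ (G 0) a y * x 1
      rw [p1_fderiv (G 1) a x, p1_fderiv (G 0) a x, p1_fderiv (G 1) a y, p1_fderiv (G 0) a y]
      have h2 : pd 1 (G 1) a = - pd 0 (G 0) a := by linarith
      rw [h2]
      ring)
  refine ⟨fun x => f x - f x0, sub_self _, ?_⟩
  intro x hx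
  have h1 : HasFDerivAt (fun x => f x - f x0) (ω x) x := (hf x hx).sub_const _
  refine ⟨h1.differentiableAt, ?_, ?_⟩
  · unfold pd
    rw [h1.fderiv]
    simp [hω, ee]
  · unfold pd
    rw [h1.fderiv]
    simp [hω, ee]

end Pool.Agent.SLG
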