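import Pool.Agent.SLG.M1

/-!
ROW P2 (mollification of a weakly divergence free field).
By `mol_deriv` (with `l = [j]`) `pd j (mol ε (g j)) x = ∫ y, pd j (ker ε) (x - y) * g j y`.  For
`x ∈ ball x0 (R - ε)` the function `ψ y := ker ε (x - y)` is smooth with compact support in
`closedBall x ε ⊆ ball x0 R` (strict inequality `‖x - x0‖ < R - ε`), and
`pd j ψ y = - pd j (ker ε) (x - y)`; so the sum of the two integrals is
`-∫ (g 0 * pd 0 ψ + g 1 * pd 1 ψ) = 0`.
-/

namespace Pool.Agent.SLG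

open MeasureTheory

theorem p2_pd (j : Fin 2) (k : E2 → ℝ) (hk : Differentiable ℝ k) (x y : E2) :
    pd j (fun y => k (x - y)) y = - pd j k (x - y) := by
  unfold pd
  have h1 : HasFDerivAt (fun y : E2 => x - y) (-(ContinuousLinearMap.id ℝ E2)) y := by
    have := (hasFDerivAt_id (𝕜 := ℝ) y).const_sub x
    simpa using this
  have h2 := (hk (x - y)).hasFDerivAt.comp y h1
  have h3 : (k ∘ fun y => x - y) = fun y => k (x - y) := rfl
  rw [h3] at h2
  rw [h2.fderiv]
  simp

theorem mol_div_free (g : Fin 2 → E2 → ℝ) (hg : ∀ j, LB (g j)) (x0 : E2) (R : ℝ)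
    (hdiv : ∀ ψ : E2 → ℝ, ContDiff ℝ ((⊤ : ℕ∞) : WithTop ℕ∞) ψ → HasCompactSupport ψ →
      tsupport ψ ⊆ Metric.ball x0 R → ∫ x, (g 0 x * pd 0 ψ x + g 1 x * pd 1 ψ x) = 0)
    (ε : ℝ) (hε : 0 < ε) :
    ∀ x ∈ Metric.ball x0 (R - ε), pd 0 (mol ε (g 0)) x + pd 1 (mol ε (g 1)) x = 0 := by
  intro x hx
  obtain ⟨ks, kc, -, -, -, kz, -⟩ := ker_facts hε
  have kd : Differentiable ℝ (ker ε) := ks.differentiable (by simp)
  have e0 : pd 0 (mol ε (g 0)) x = ∫ y, pd 0 (ker ε) (x - y) * g 0 y :=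
    (mol_deriv hε (hg 0)).2 [0] x
  have e1 : pd 1 (mol ε (g 1)) x = ∫ y, pd 1 (ker ε) (x - y) * g 1 y :=
    (mol_deriv hε (hg 1)).2 [1] x
  -- the test function
  set ψ : E2 → ℝ := fun y => ker ε (x - y) with hψ
  have hzero : ∀ y, y ∉ Metric.closedBall x ε → ψ y = 0 := by
    intro y hy
    rw [mem_closedBall_iff_norm, not_le] at hy
    apply kz
    rw [norm_sub_rev]
    exact hy.le
  have hcs : HasCompactSupport ψ := HasCompactSupport.intro (isCompact_closedBall x ε) hzero
  have hts : tsupport ψ ⊆ Metric.closedBall x ε := by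
    apply closure_minimal _ Metric.isClosed_closedBall
    intro y hy
    by_contra h
    exact hy (hzero y h)
  have hsub : tsupport ψ ⊆ Metric.ball x0 R := by
    refine hts.trans ?_
    apply Metric.closedBall_subset_ball'
    rw [Metric.mem_ball] at hx
    linarith
  have hsm : ContDiff ℝ ((⊤ : ℕ∞) : WithTop ℕ∞) ψ := ks.comp (contDiff_const.sub contDiff_id)
  have hpd : ∀ j y, pd j ψ y = - pd j (ker ε) (x - y) := fun j y => p2_pd j (ker ε) kd x y
  have h0 := hdiv ψ hsm hcs hsub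
  have hint : ∀ j, Integrable (fun y => pd j (ker ε) (x - y) * g j y) volume := by
    intro j
    have hl : LocallyIntegrable (g j) volume := lb_facts.2.1 (g j) (hg j)
    have hcpd : Continuous (pd j ψ) := by
      have h1 : ContDiff ℝ ((⊤ : ℕ∞) : WithTop ℕ∞) (fderiv ℝ ψ) :=
        hsm.fderiv_right (by norm_cast)
      exact (h1.clm_apply contDiff_const).continuous
    have hcc : HasCompactSupport (pd j ψ) := hcs.fderiv_apply ℝ (ee j)
    have h2 := hl.integrable_smul_left_of_hasCompactSupport hcpd hcc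
    have h3 : (fun y => pd j (ker ε) (x - y) * g j y) = fun y => -(pd j ψ y • g j y) := by
      ext1 y
      rw [hpd, smul_eq_mul]
      ring
    rw [h3]
    exact h2.neg
  rw [e0, e1, ← integral_add (hint 0) (hint 1)]
  have h4 : (fun y => pd 0 (ker ε) (x - y) * g 0 y + pd 1 (ker ε) (x - y) * g 1 y) =
      fun y => -(g 0 y * pd 0 ψ y + g 1 y * pd 1 ψ y) := by
    ext1 y
    rw [hpd, hpd]
    ring
  rw [h4, integral_neg, h0, neg_zero]

end Pool.Agent.SLG
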