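import Pool.Agent.SLG.P1
import Pool.Agent.SLG.P2
import Pool.Agent.SLG.M2
import Pool.Agent.SLG.M3

/-!
ROW P3 (uniform limit of the potentials of the mollified fields).
Let `B` bound `|g j|`.  For `0 < ε < R/8` let `g^ε j := mol ε (g j)` (smooth by `mol_deriv`,
`|g^ε j| ≤ B`, since `ker ε` is a probability density), divergence free on `ball x0 (R - ε)` by
`mol_div_free`; `poincare_smooth` gives `V^ε` on `ball x0 (R - ε)` with `V^ε x0 = 0`,
`pd 0 V^ε = -g^ε 1`, `pd 1 V^ε = g^ε 0`.  On this convex ball `V^ε` is `2B`-Lipschitz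
(`Convex.norm_image_sub_le_of_norm_fderiv_le`; `‖fderiv V‖ ≤ |pd 0 V| + |pd 1 V|`).
The `V^ε` are uniformly Lipschitz and bounded on `closedBall x0 (5R/8)`; by Arzela-Ascoli
(`BoundedContinuousFunction.arzela_ascoli`, or `ArzelaAscoli.isCompact_of_equicontinuous`, or by
hand with a countable dense set) a subsequence `ε_k → 0` converges uniformly on
`closedBall x0 (R/2)` to some `V`, which is `2B`-Lipschitz there; extend `V` to a Lipschitz
function on `E2` (`LipschitzOnWith.extend_real`).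
ALTERNATIVE without compactness (explicit Cauchy estimate `|V^ε - V^ε'| ≤ 8 B (ε + ε')` on
`ball x0 (5R/8)`): mollify `V^ε` (cut off outside `ball x0 (7R/8)`) with `ker ε'`, and `V^ε'` with
`ker ε`: both have on `ball x0 (6R/8)` the same gradient (mollifications commute by Fubini and the
substitution `y ↦ x + z - y`), hence differ by a constant, and mollifying a `2B`-Lipschitz
function at scale `ε` moves it by at most `2 B ε`.
-/

namespace Pool.Agent.SLG

open MeasureTheory Filter Topology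

theorem p3_fd {V : E2 → ℝ} {x : E2} {B : ℝ} (h0 : |pd 0 V x| ≤ B) (h1 : |pd 1 V x| ≤ B) :
    ‖fderiv ℝ V x‖ ≤ 2 * B := by
  have hB : 0 ≤ B := (abs_nonneg _).trans h0
  refine ContinuousLinearMap.opNorm_le_bound _ (by positivity) fun v => ?_
  have hv : v = v 0 • ee 0 + v 1 • ee 1 := by
    ext i
    unfold ee
    fin_cases i <;> simp
  have hn : ∀ j, |v j| ≤ ‖v‖ := fun j => by
    have := EuclideanSpace.norm_eq v
    rw [← Real.norm_eq_abs]
    exact PiLp.norm_apply_le v j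
  have h2 : fderiv ℝ V x v = v 0 * pd 0 V x + v 1 * pd 1 V x := by
    calc fderiv ℝ V x v = fderiv ℝ V x (v 0 • ee 0 + v 1 • ee 1) := by rw [← hv]
      _ = _ := by
        rw [map_add, map_smul, map_smul]
        rfl
  rw [h2, Real.norm_eq_abs]
  refine (abs_add_le _ _).trans ?_
  rw [abs_mul, abs_mul]
  have h3 : |v 0| * |pd 0 V x| ≤ ‖v‖ * B := mul_le_mul (hn 0) h0 (abs_nonneg _) (norm_nonneg _)
  have h4 : |v 1| * |pd 1 V x| ≤ ‖v‖ * B := mul_le_mul (hn 1) h1 (abs_nonneg _) (norm_nonneg _)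
  linarith

theorem p3_mol {ε : ℝ} (hε : 0 < ε) {g : E2 → ℝ} {B : ℝ} (hB : ∀ x, |g x| ≤ B) (x : E2) : |mol ε g x| ≤ B := by
  obtain ⟨-, -, hk0, hk1, -, -, hki⟩ := ker_facts hε
  have h1 : ∫ y, ker ε (x - y) = 1 := by
    rw [← hk1]
    exact integral_sub_left_eq_self (ker ε) volume x
  have h2 : Integrable (fun y => ker ε (x - y) * B) volume := (hki.comp_sub_left x).mul_const B
  have h3 : ∫ y, ker ε (x - y) * B = B := by
    rw [integral_mul_const, h1, one_mul]
  unfold mol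
  rw [← Real.norm_eq_abs]
  calc ‖∫ y, ker ε (x - y) * g y‖ ≤ ∫ y, ker ε (x - y) * B := by
        refine norm_integral_le_of_norm_le h2 (Filter.Eventually.of_forall fun y => ?_)
        rw [norm_mul, Real.norm_eq_abs, Real.norm_eq_abs, abs_of_nonneg (hk0 _)]
        exact mul_le_mul_of_nonneg_left (hB y) (hk0 _)
    _ = B := h3

theorem p3_lim (F : ℕ → E2 → ℝ) (L : NNReal) (hF : ∀ k, LipschitzWith L (F k)) (x0 : E2)
    (h0 : ∀ k, F k x0 = 0) (r : ℝ) :
    ∃ V : E2 → ℝ, LipschitzWith L V ∧ ∃ φ : ℕ → ℕ, (∀ j, j ≤ φ j) ∧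
      ∀ j, ∀ x ∈ Metric.closedBall x0 r, |F (φ j) x - V x| ≤ 1 / ((j : ℝ) + 1) := by
  obtain ⟨U, hU⟩ : ∃ U : Ultrafilter ℕ, (U : Filter ℕ) ≤ atTop := ⟨hyperfilter ℕ, Nat.hyperfilter_le_atTop⟩
  have hlim : ∀ x, ∃ v : ℝ, Tendsto (fun k => F k x) U (𝓝 v) := by
    intro x
    have hb : ∀ k, F k x ∈ Set.Icc (-(L * dist x x0)) (L * dist x x0) := by
      intro k
      have h1 := (hF k).dist_le_mul x x0
      rw [h0, Real.dist_eq, sub_zero] at h1
      exact abs_le.1 h1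
    obtain ⟨v, -, hv⟩ := isCompact_Icc.ultrafilter_le_nhds (U.map fun k => F k x)
      (le_principal_iff.2 (Filter.mem_map.2 (Filter.univ_mem' hb)))
    exact ⟨v, hv⟩
  choose V hV using hlim
  have hVL : LipschitzWith L V := by
    refine LipschitzWith.of_dist_le_mul fun y z => ?_
    exact le_of_tendsto ((hV y).dist (hV z)) (Filter.Eventually.of_forall fun k => (hF k).dist_le_mul y z)
  have hunif : ∀ η : ℝ, 0 < η → ∀ᶠ k in (U : Filter ℕ), ∀ x ∈ Metric.closedBall x0 r, |F k x - V x| ≤ η := by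
    intro η hη
    have hδ : 0 < η / (3 * (L + 1)) := by positivity
    obtain ⟨t, -, ht, hcov⟩ := (isCompact_closedBall x0 r).finite_cover_balls hδ
    have h1 : ∀ᶠ k in (U : Filter ℕ), ∀ x ∈ t, |F k x - V x| ≤ η / 3 := by
      rw [Filter.eventually_all_finite ht]
      intro x _
      have h2 := (hV x).eventually (Metric.ball_mem_nhds (V x) (by positivity : 0 < η / 3))
      refine h2.mono fun k hk => ?_
      rw [← Real.dist_eq]
      exact le_of_lt hk
    refine h1.mono fun k hk x hx => ?_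
    obtain ⟨y, hy, hxy⟩ := Set.mem_iUnion₂.1 (hcov hx)
    rw [Metric.mem_ball] at hxy
    have h3 := (hF k).dist_le_mul x y
    have h4 := hVL.dist_le_mul x y
    have h5 := hk y hy
    rw [Real.dist_eq] at h3 h4
    have h6 : (L : ℝ) * dist x y ≤ η / 3 := by
      have h7 : (L : ℝ) * dist x y ≤ (L + 1) * (η / (3 * (L + 1))) := by
        have := L.coe_nonneg
        exact mul_le_mul (by linarith) hxy.le dist_nonneg (by linarith)
      have h8 : ((L : ℝ) + 1) * (η / (3 * (L + 1))) = η / 3 := by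
        have := L.coe_nonneg
        field_simp
      linarith
    have h9 : F k x - V x = (F k x - F k y) + (F k y - V y) - (V x - V y) := by ring
    rw [h9]
    refine (abs_sub _ _).trans ?_
    have h10 := abs_add_le (F k x - F k y) (F k y - V y)
    linarith
  have hex : ∀ j : ℕ, ∃ k, j ≤ k ∧ ∀ x ∈ Metric.closedBall x0 r, |F k x - V x| ≤ 1 / ((j : ℝ) + 1) := by
    intro j
    have h1 : ∀ᶠ k in (U : Filter ℕ), j ≤ k := hU (Filter.eventually_ge_atTop j)
    exact (h1.and (hunif (1 / ((j : ℝ) + 1)) (by positivity))).exists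
  choose φ hφ hφ' using hex
  exact ⟨V, hVL, φ, hφ, hφ'⟩

theorem pot_limit (g : Fin 2 → E2 → ℝ) (hm : ∀ j, Measurable (g j)) (B : ℝ)
    (hB : ∀ j x, |g j x| ≤ B) (x0 : E2) (R : ℝ) (hR : 0 < R)
    (hdiv : ∀ ψ : E2 → ℝ, ContDiff ℝ ((⊤ : ℕ∞) : WithTop ℕ∞) ψ → HasCompactSupport ψ →
      tsupport ψ ⊆ Metric.ball x0 R → ∫ x, (g 0 x * pd 0 ψ x + g 1 x * pd 1 ψ x) = 0) :
    ∃ (V : E2 → ℝ) (Vk : ℕ → E2 → ℝ) (εk : ℕ → ℝ), (∃ L : NNReal, LipschitzWith L V) ∧
      (∀ k, 0 < εk k) ∧ Tendsto εk atTop (𝓝 0) ∧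
      (∀ k, ∀ x ∈ Metric.ball x0 (R / 2), DifferentiableAt ℝ (Vk k) x ∧
        pd 0 (Vk k) x = -(mol (εk k) (g 1) x) ∧ pd 1 (Vk k) x = mol (εk k) (g 0) x) ∧
      (∀ η : ℝ, 0 < η → ∃ k0, ∀ k ≥ k0, ∀ x ∈ Metric.ball x0 (R / 2),
        |Vk k x - V x| ≤ η) := by
  have hB0 : 0 ≤ B := (abs_nonneg _).trans (hB 0 x0)
  have hLB : ∀ j, LB (g j) := fun j => ⟨hm j, fun _ => ⟨B, fun x _ => hB j x⟩⟩
  obtain ⟨ep, hep⟩ : ∃ ep : ℕ → ℝ, ep = fun k : ℕ => R / (16 * ((k : ℝ) + 1)) := ⟨_, rfl⟩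
  have hep0 : ∀ k, 0 < ep k := fun k => by
    rw [hep]
    positivity
  have hep1 : ∀ k, ep k < R / 2 := fun k => by
    rw [hep]
    show R / (16 * ((k : ℝ) + 1)) < R / 2
    have hk : (0 : ℝ) ≤ k := Nat.cast_nonneg k
    exact div_lt_div_of_pos_left hR (by norm_num) (by linarith)
  have hV : ∀ k : ℕ, ∃ V : E2 → ℝ, V x0 = 0 ∧ ∀ x ∈ Metric.ball x0 (R - ep k),
      DifferentiableAt ℝ V x ∧ pd 0 V x = -(mol (ep k) (g 1) x) ∧ pd 1 V x = mol (ep k) (g 0) x := fun k =>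
    poincare_smooth (fun j => mol (ep k) (g j)) (fun j => (mol_deriv (hep0 k) (hLB j)).1) x0 (R - ep k)
      (by linarith [hep1 k]) (mol_div_free g hLB x0 R hdiv (ep k) (hep0 k))
  choose Vs hVs0 hVs using hV
  have hsub : ∀ k, Metric.ball x0 (R / 2) ⊆ Metric.ball x0 (R - ep k) := fun k =>
    Metric.ball_subset_ball (by linarith [hep1 k])
  have hlip : ∀ k, LipschitzOnWith (Real.toNNReal (2 * B)) (Vs k) (Metric.ball x0 (R / 2)) := by
    intro k
    refine LipschitzOnWith.of_dist_le_mul fun x hx y hy => ?_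
    rw [Real.coe_toNNReal _ (by positivity), dist_eq_norm, dist_eq_norm]
    refine Convex.norm_image_sub_le_of_norm_fderiv_le (𝕜 := ℝ) (s := Metric.ball x0 (R / 2)) (fun z hz => ?_)
      (fun z hz => ?_) (convex_ball x0 (R / 2)) hy hx
    · exact (hVs k z (hsub k hz)).1
    · obtain ⟨-, h1, h2⟩ := hVs k z (hsub k hz)
      refine p3_fd ?_ ?_
      · rw [h1, abs_neg]
        exact p3_mol (hep0 k) (hB 1) z
      · rw [h2]
        exact p3_mol (hep0 k) (hB 0) z
  have hext := fun k => (hlip k).extend_real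
  choose F hFL hFe using hext
  have hx0 : x0 ∈ Metric.ball x0 (R / 2) := Metric.mem_ball_self (by positivity)
  have hF0 : ∀ k, F k x0 = 0 := fun k => by
    rw [← hFe k hx0, hVs0]
  obtain ⟨V, hVL, φ, hφ, hφ'⟩ := p3_lim F _ hFL x0 hF0 (R / 2)
  refine ⟨V, fun k => Vs (φ k), fun k => ep (φ k), ⟨_, hVL⟩, fun k => hep0 _, ?_, fun k x hx => ?_, fun η hη => ?_⟩
  · have h1 : Tendsto (fun k : ℕ => R * (1 / ((k : ℝ) + 1))) atTop (𝓝 0) := by
      have := tendsto_one_div_add_atTop_nhds_zero_nat (𝕜 := ℝ)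
      simpa using this.const_mul R
    refine squeeze_zero (fun k => (hep0 _).le) (fun k => ?_) h1
    rw [hep]
    show R / (16 * ((φ k : ℝ) + 1)) ≤ R * (1 / ((k : ℝ) + 1))
    have h2 : (k : ℝ) ≤ φ k := by exact_mod_cast hφ k
    have h3 : (0 : ℝ) ≤ k := Nat.cast_nonneg k
    rw [mul_one_div]
    exact div_le_div_of_nonneg_left hR.le (by positivity) (by linarith)
  · exact hVs (φ k) x (hsub _ hx)
  · obtain ⟨k0, hk0⟩ := exists_nat_one_div_lt hη
    refine ⟨k0, fun k hk x hx => ?_⟩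
    have h1 := hφ' k x (Metric.ball_subset_closedBall hx)
    show |Vs (φ k) x - V x| ≤ η
    rw [hFe (φ k) hx]
    refine h1.trans (le_trans ?_ hk0.le)
    have h2 : (k0 : ℝ) ≤ k := by exact_mod_cast hk
    exact one_div_le_one_div_of_le (by positivity) (by linarith)

end Pool.Agent.SLG
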