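import Pool.Agent.SLG.Defs

/-!
ROW R1 (stationarity says that the rows of `Df(Du)` and of `Du^T Df(Du) - f(Du) I` are weakly
divergence free).
Outer: for `ψ` smooth with compact support in `Ω` take `φ x := fun i' => if i' = i then ψ x else 0`
(or `Pi.single i (ψ x)`): smooth, `tsupport φ ⊆ tsupport ψ`, and
`Jac φ x i' j = if i' = i then pd j ψ x else 0` (`fderiv_pi`, linearity), so the outer identity is
`∫_Ω ∑ j, Grd f (Jac u x) i j * pd j ψ x = 0`; the integral over `Ω` equals the integral over `E2`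
because `pd j ψ = 0` outside `tsupport ψ ⊆ Ω` (`setIntegral_eq_integral_of_forall_compl_eq_zero`).
Inner: take `Φ x := Pi.single k (ψ x)`; then `∑ k', Jac Φ x k' k' = pd k ψ x` and
`∑ k', Jac u x i k' * Jac Φ x k' j = Jac u x i k * pd j ψ x`, so the inner integrand is
`f * pd k ψ - ∑_i ∑_j Grd i j * Jac u i k * pd j ψ = -∑_j Zf f (Jac u x) k j * pd j ψ x`.
No integrability is needed: the integrands agree pointwise (`integral_neg` is unconditional).
-/

namespace Pool.Agent.SLG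

open MeasureTheory

theorem r1_jac {m : ℕ} (i : Fin m) {ψ : E2 → ℝ} (hψ : Differentiable ℝ ψ) (x : E2) (i' : Fin m)
    (j : Fin 2) :
    Jac (fun y => (Pi.single i (ψ y) : Fin m → ℝ)) x i' j = if i' = i then pd j ψ x else 0 := by
  have h1 : HasFDerivAt (fun y => (Pi.single i (ψ y) : Fin m → ℝ))
      ((ContinuousLinearMap.single ℝ (fun _ : Fin m => ℝ) i).comp (fderiv ℝ ψ x)) x :=
    (ContinuousLinearMap.single ℝ (fun _ : Fin m => ℝ) i).hasFDerivAt.comp x
      (hψ x).hasFDerivAt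
  unfold Jac
  rw [h1.fderiv]
  show (Pi.single i (fderiv ℝ ψ x (ee j)) : Fin m → ℝ) i' = _
  rw [Pi.single_apply]
  rfl

theorem r1_smooth {m : ℕ} (i : Fin m) {ψ : E2 → ℝ}
    (hψ : ContDiff ℝ ((⊤ : ℕ∞) : WithTop ℕ∞) ψ) (hc : HasCompactSupport ψ) {Ω : Set E2}
    (ht : tsupport ψ ⊆ Ω) :
    ContDiff ℝ ((⊤ : ℕ∞) : WithTop ℕ∞) (fun y => (Pi.single i (ψ y) : Fin m → ℝ)) ∧
    HasCompactSupport (fun y => (Pi.single i (ψ y) : Fin m → ℝ)) ∧
    tsupport (fun y => (Pi.single i (ψ y) : Fin m → ℝ)) ⊆ Ω := by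
  refine ⟨?_, ?_, ?_⟩
  · exact (ContinuousLinearMap.single ℝ (fun _ : Fin m => ℝ) i).contDiff.comp hψ
  · exact hc.comp_left (g := fun a : ℝ => (Pi.single i a : Fin m → ℝ)) (Pi.single_zero i)
  · refine subset_trans (closure_mono ?_) ht
    intro x hx
    rw [Function.mem_support] at hx ⊢
    intro h0
    apply hx
    show (Pi.single i (ψ x) : Fin m → ℝ) = 0
    rw [h0, Pi.single_zero]

theorem r1_out {ψ : E2 → ℝ} {Ω : Set E2} (ht : tsupport ψ ⊆ Ω) {x : E2} (hx : x ∉ Ω)
    (j : Fin 2) : pd j ψ x = 0 := by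
  have h0 : x ∉ tsupport ψ := fun h => hx (ht h)
  have h1 : ψ =ᶠ[nhds x] fun _ => 0 := notMem_tsupport_iff_eventuallyEq.1 h0
  unfold pd
  rw [h1.fderiv_eq]
  simp

theorem stat_rows {n : ℕ} {f : Mat n → ℝ} {Ω : Set E2} {u : E2 → Fin n → ℝ}
    (hΩ : IsOpen Ω) (hs : Stationary f Ω u) (ψ : E2 → ℝ)
    (hψ : ContDiff ℝ ((⊤ : ℕ∞) : WithTop ℕ∞) ψ) (hc : HasCompactSupport ψ)
    (ht : tsupport ψ ⊆ Ω) :
    (∀ i, ∫ x, (Grd f (Jac u x) i 0 * pd 0 ψ x + Grd f (Jac u x) i 1 * pd 1 ψ x) = 0) ∧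
    (∀ k, ∫ x, (Zf f (Jac u x) k 0 * pd 0 ψ x + Zf f (Jac u x) k 1 * pd 1 ψ x) = 0) := by
  have hd : Differentiable ℝ ψ := hψ.differentiable (by simp)
  constructor
  · intro i
    obtain ⟨h1, h2, h3⟩ := r1_smooth i hψ hc ht
    have h := hs.1 _ h1 h2 h3
    have e : (fun x => ∑ i', ∑ j, Grd f (Jac u x) i' j *
        Jac (fun y => (Pi.single i (ψ y) : Fin n → ℝ)) x i' j) =
        fun x => Grd f (Jac u x) i 0 * pd 0 ψ x + Grd f (Jac u x) i 1 * pd 1 ψ x := by
      funext x
      simp only [r1_jac i hd x]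
      rw [Finset.sum_eq_single i]
      · simp only [if_true, Fin.sum_univ_two]
      · intro i' _ hi'
        simp only [if_neg hi', mul_zero, Finset.sum_const_zero]
      · intro h
        exact absurd (Finset.mem_univ i) h
    rw [e] at h
    rw [← h]
    symm
    apply setIntegral_eq_integral_of_forall_compl_eq_zero
    intro x hx
    rw [r1_out ht hx, r1_out ht hx, mul_zero, mul_zero, add_zero]
  · intro k
    obtain ⟨h1, h2, h3⟩ := r1_smooth k hψ hc ht
    have h := hs.2 _ h1 h2 h3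
    have e : (fun x => f (Jac u x) * (∑ k', Jac (fun y => (Pi.single k (ψ y) : Fin 2 → ℝ)) x k' k')
        - ∑ i, ∑ j, Grd f (Jac u x) i j * ∑ k', Jac u x i k' *
          Jac (fun y => (Pi.single k (ψ y) : Fin 2 → ℝ)) x k' j) =
        fun x => -(Zf f (Jac u x) k 0 * pd 0 ψ x + Zf f (Jac u x) k 1 * pd 1 ψ x) := by
      funext x
      simp only [r1_jac k hd x]
      have e1 : ∑ k', (if k' = k then pd k' ψ x else 0) = pd k ψ x := by
        rw [Finset.sum_ite_eq' Finset.univ k (fun k' => pd k' ψ x), if_pos (Finset.mem_univ k)]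
      have e2 : ∀ (i : Fin n) (j : Fin 2), ∑ k', Jac u x i k' * (if k' = k then pd j ψ x else 0) =
          Jac u x i k * pd j ψ x := by
        intro i j
        rw [Finset.sum_eq_single k]
        · rw [if_pos rfl]
        · intro k' _ hk'
          rw [if_neg hk', mul_zero]
        · intro h
          exact absurd (Finset.mem_univ k) h
      rw [e1]
      simp only [e2]
      have e3 : ∑ i, ∑ j, Grd f (Jac u x) i j * (Jac u x i k * pd j ψ x) =
          (∑ i, Jac u x i k * Grd f (Jac u x) i 0) * pd 0 ψ x +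
          (∑ i, Jac u x i k * Grd f (Jac u x) i 1) * pd 1 ψ x := by
        rw [Finset.sum_mul, Finset.sum_mul, ← Finset.sum_add_distrib]
        refine Finset.sum_congr rfl fun i _ => ?_
        rw [Fin.sum_univ_two]
        ring
      rw [e3]
      unfold Zf
      have hk : k = 0 ∨ k = 1 := (by decide : ∀ k : Fin 2, k = 0 ∨ k = 1) k
      rcases hk with rfl | rfl
      · rw [if_pos rfl, if_neg (by decide)]
        ring
      · rw [if_neg (by decide), if_pos rfl]
        ring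
    rw [e, integral_neg, neg_eq_zero] at h
    rw [← h]
    symm
    apply setIntegral_eq_integral_of_forall_compl_eq_zero
    intro x hx
    rw [r1_out ht hx, r1_out ht hx, mul_zero, mul_zero, add_zero]

end Pool.Agent.SLG
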