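import Pool.Agent.SLG.Defs

/-!
ROW S2 (calculus of iterated partial derivatives).
(a) smoothness of `pds l g`; (b) the order of derivatives is irrelevant:
`pds (j :: l) g = pds l (pd j g)` for smooth `g` (symmetry of second derivatives,
`ContDiffAt.isSymmSndFDerivAt`, and induction on `l`);
(c) linearity; (d) Taylor: if all second partial derivatives of `g` are at most `Q` in absolute
value on `ball 0 r`, then `|g y - g 0 - ∑ pd j g 0 y_j| ≤ 2 Q ‖y‖²` on `ball 0 r`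
(apply the one-variable Taylor / mean value inequality to `t ↦ g (t y)`, with
`‖ sum‖ ≤ ∑_{ij} Q |y_i| |y_j| ≤ 2 Q ‖y‖²`; a bound `Q ‖y‖²` is what one gets, `2 Q` is room).
Note `fderiv ℝ g x y = ∑ j, y j * pd j g x`.
-/

namespace Pool.Agent.SLG

open MeasureTheory

theorem s2_pd {g : E2 → ℝ} (hg : ContDiff ℝ ((⊤ : ℕ∞) : WithTop ℕ∞) g) (j : Fin 2) :
    ContDiff ℝ ((⊤ : ℕ∞) : WithTop ℕ∞) (pd j g) := by
  have h1 : ContDiff ℝ ((⊤ : ℕ∞) : WithTop ℕ∞) (fderiv ℝ g) :=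
    hg.fderiv_right (m := ((⊤ : ℕ∞) : WithTop ℕ∞)) (by simp)
  exact h1.clm_apply contDiff_const

theorem s2_dec (u : E2) : u = u 0 • ee 0 + u 1 • ee 1 := by
  ext i
  fin_cases i <;> simp [ee]

theorem s2_two {g : E2 → ℝ} (hg : ContDiff ℝ ((⊤ : ℕ∞) : WithTop ℕ∞) g) (j : Fin 2) (x v : E2) :
    fderiv ℝ (pd j g) x v = fderiv ℝ (fderiv ℝ g) x v (ee j) := by
  have h1 : ContDiff ℝ ((⊤ : ℕ∞) : WithTop ℕ∞) (fderiv ℝ g) :=
    hg.fderiv_right (m := ((⊤ : ℕ∞) : WithTop ℕ∞)) (by simp)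
  have h2 : DifferentiableAt ℝ (fderiv ℝ g) x := (h1.differentiable (by simp)) x
  have h3 : HasFDerivAt (fun y => fderiv ℝ g y (ee j)) ((fderiv ℝ (fderiv ℝ g) x).flip (ee j)) x := by
    have := h2.hasFDerivAt.clm_apply (hasFDerivAt_const (ee j) x)
    simpa using this
  have h4 : fderiv ℝ (pd j g) x = (fderiv ℝ (fderiv ℝ g) x).flip (ee j) := h3.fderiv
  rw [h4]
  rfl

theorem s2_comm {g : E2 → ℝ} (hg : ContDiff ℝ ((⊤ : ℕ∞) : WithTop ℕ∞) g) (j k : Fin 2) :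
    pd j (pd k g) = pd k (pd j g) := by
  funext x
  show fderiv ℝ (pd k g) x (ee j) = fderiv ℝ (pd j g) x (ee k)
  rw [s2_two hg, s2_two hg]
  have h1 : ContDiffAt ℝ ((⊤ : ℕ∞) : WithTop ℕ∞) g x := hg.contDiffAt
  refine (h1.isSymmSndFDerivAt ?_).eq _ _
  rw [minSmoothness_of_isRCLikeNormedField]
  show ((2 : ℕ∞) : WithTop ℕ∞) ≤ ((⊤ : ℕ∞) : WithTop ℕ∞)
  exact WithTop.coe_le_coe.2 le_top

theorem s2_comp (u : E2) (i : Fin 2) : |u i| ≤ ‖u‖ := by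
  have := PiLp.norm_apply_le u i
  rwa [Real.norm_eq_abs] at this

theorem s2_sum (u : E2) : (|u 0| + |u 1|) ^ 2 ≤ 2 * ‖u‖ ^ 2 := by
  rw [EuclideanSpace.norm_sq_eq, Fin.sum_univ_two]
  simp only [Real.norm_eq_abs]
  nlinarith [sq_nonneg (|u 0| - |u 1|)]

theorem pds_smooth {g : E2 → ℝ} (hg : ContDiff ℝ ((⊤ : ℕ∞) : WithTop ℕ∞) g)
    (l : List (Fin 2)) : ContDiff ℝ ((⊤ : ℕ∞) : WithTop ℕ∞) (pds l g) := by
  induction l with
  | nil => exact hg
  | cons j l ih => exact s2_pd ih j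

theorem pds_comm {g : E2 → ℝ} (hg : ContDiff ℝ ((⊤ : ℕ∞) : WithTop ℕ∞) g)
    (l : List (Fin 2)) (j : Fin 2) : pd j (pds l g) = pds l (pd j g) := by
  induction l with
  | nil => rfl
  | cons k l ih =>
    show pd j (pd k (pds l g)) = pd k (pds l (pd j g))
    rw [s2_comm (pds_smooth hg l), ih]

theorem pds_lin {ι : Type} (s : Finset ι) (a : ι → ℝ) (g : ι → E2 → ℝ)
    (hg : ∀ i ∈ s, ContDiff ℝ ((⊤ : ℕ∞) : WithTop ℕ∞) (g i)) (l : List (Fin 2)) :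
    pds l (fun x => ∑ i ∈ s, a i * g i x) = fun x => ∑ i ∈ s, a i * pds l (g i) x := by
  induction l with
  | nil => rfl
  | cons j l ih =>
    show pd j (pds l (fun x => ∑ i ∈ s, a i * g i x)) = _
    rw [ih]
    funext x
    show fderiv ℝ (fun x => ∑ i ∈ s, a i * pds l (g i) x) x (ee j) = ∑ i ∈ s, a i * pds (j :: l) (g i) x
    have hd : ∀ i ∈ s, HasFDerivAt (fun x => a i * pds l (g i) x) (a i • fderiv ℝ (pds l (g i)) x) x := by
      intro i hi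
      have h1 : DifferentiableAt ℝ (pds l (g i)) x := ((pds_smooth (hg i hi) l).differentiable (by simp)) x
      exact h1.hasFDerivAt.const_mul (a i)
    have h2 := (HasFDerivAt.fun_sum hd).fderiv
    rw [h2]
    rw [sum_apply]
    refine Finset.sum_congr rfl fun i _ => ?_
    rfl

theorem taylor2 {g : E2 → ℝ} (hg : ContDiff ℝ ((⊤ : ℕ∞) : WithTop ℕ∞) g) (r Q : ℝ)
    (hQ : ∀ x ∈ Metric.ball (0 : E2) r, ∀ l : List (Fin 2), l.length = 2 → |pds l g x| ≤ Q)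
    (y : E2) (hy : y ∈ Metric.ball (0 : E2) r) :
    |g y - g 0 - ∑ j, pd j g 0 * y j| ≤ 2 * Q * ‖y‖ ^ 2 := by
  have hr : 0 < r := by
    rw [Metric.mem_ball, dist_zero_right] at hy
    exact (norm_nonneg y).trans_lt hy
  have hQ0 : 0 ≤ Q := (abs_nonneg _).trans (hQ 0 (Metric.mem_ball_self hr) [0, 0] rfl)
  have h1 : ContDiff ℝ ((⊤ : ℕ∞) : WithTop ℕ∞) (fderiv ℝ g) :=
    hg.fderiv_right (m := ((⊤ : ℕ∞) : WithTop ℕ∞)) (by simp)
  have hsec : ∀ x ∈ Metric.ball (0 : E2) r, ‖fderiv ℝ (fderiv ℝ g) x‖ ≤ 2 * Q := by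
    intro x hx
    refine ContinuousLinearMap.opNorm_le_bound _ (by positivity) fun u => ?_
    refine ContinuousLinearMap.opNorm_le_bound _ (by positivity) fun v => ?_
    have hij : ∀ i j : Fin 2, |fderiv ℝ (fderiv ℝ g) x (ee i) (ee j)| ≤ Q := by
      intro i j
      rw [← s2_two hg]
      exact hQ x hx [i, j] rfl
    have e1 : fderiv ℝ (fderiv ℝ g) x u v =
        u 0 * v 0 * fderiv ℝ (fderiv ℝ g) x (ee 0) (ee 0) + u 0 * v 1 * fderiv ℝ (fderiv ℝ g) x (ee 0) (ee 1)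
        + u 1 * v 0 * fderiv ℝ (fderiv ℝ g) x (ee 1) (ee 0)
        + u 1 * v 1 * fderiv ℝ (fderiv ℝ g) x (ee 1) (ee 1) := by
      conv_lhs => rw [s2_dec u, s2_dec v]
      simp only [map_add, map_smul, add_apply, smul_apply,
        smul_eq_mul]
      ring
    rw [Real.norm_eq_abs, e1]
    have hb : ∀ i j : Fin 2, |u i * v j * fderiv ℝ (fderiv ℝ g) x (ee i) (ee j)| ≤ Q * (|u i| * |v j|) := by
      intro i j
      rw [abs_mul, abs_mul]
      nlinarith [hij i j, mul_nonneg (abs_nonneg (u i)) (abs_nonneg (v j))]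
    have h3 : Q * ((|u 0| + |u 1|) * (|v 0| + |v 1|)) ≤ 2 * Q * ‖u‖ * ‖v‖ := by
      have h4 : (|u 0| + |u 1|) * (|v 0| + |v 1|) ≤ 2 * (‖u‖ * ‖v‖) := by
        have h5 := s2_sum u
        have h6 := s2_sum v
        refine abs_le_of_sq_le_sq' ?_ (by positivity) |>.2
        calc ((|u 0| + |u 1|) * (|v 0| + |v 1|)) ^ 2 = (|u 0| + |u 1|) ^ 2 * (|v 0| + |v 1|) ^ 2 := by ring
          _ ≤ (2 * ‖u‖ ^ 2) * (2 * ‖v‖ ^ 2) := mul_le_mul h5 h6 (by positivity) (by positivity)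
          _ = (2 * (‖u‖ * ‖v‖)) ^ 2 := by ring
      nlinarith
    have h7 := abs_add_le (u 0 * v 0 * fderiv ℝ (fderiv ℝ g) x (ee 0) (ee 0)
      + u 0 * v 1 * fderiv ℝ (fderiv ℝ g) x (ee 0) (ee 1)
      + u 1 * v 0 * fderiv ℝ (fderiv ℝ g) x (ee 1) (ee 0)) (u 1 * v 1 * fderiv ℝ (fderiv ℝ g) x (ee 1) (ee 1))
    have h8 := abs_add_le (u 0 * v 0 * fderiv ℝ (fderiv ℝ g) x (ee 0) (ee 0)
      + u 0 * v 1 * fderiv ℝ (fderiv ℝ g) x (ee 0) (ee 1))
      (u 1 * v 0 * fderiv ℝ (fderiv ℝ g) x (ee 1) (ee 0))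
    have h9 := abs_add_le (u 0 * v 0 * fderiv ℝ (fderiv ℝ g) x (ee 0) (ee 0))
      (u 0 * v 1 * fderiv ℝ (fderiv ℝ g) x (ee 0) (ee 1))
    have := hb 0 0
    have := hb 0 1
    have := hb 1 0
    have := hb 1 1
    nlinarith
  have hsub : Metric.closedBall (0 : E2) ‖y‖ ⊆ Metric.ball 0 r := by
    intro z hz
    rw [Metric.mem_closedBall, dist_zero_right] at hz
    rw [Metric.mem_ball, dist_zero_right] at hy ⊢
    exact hz.trans_lt hy
  have hfd : ∀ x ∈ Metric.closedBall (0 : E2) ‖y‖, ‖fderiv ℝ g x - fderiv ℝ g 0‖ ≤ 2 * Q * ‖y‖ := by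
    intro x hx
    have h2 := (convex_ball (0 : E2) r).norm_image_sub_le_of_norm_fderiv_le (𝕜 := ℝ) (f := fderiv ℝ g)
      (fun z _ => (h1.differentiable (by simp)) z) hsec (Metric.mem_ball_self hr) (hsub hx)
    rw [sub_zero] at h2
    rw [Metric.mem_closedBall, dist_zero_right] at hx
    exact h2.trans (mul_le_mul_of_nonneg_left hx (by positivity))
  have h3 := (convex_closedBall (0 : E2) ‖y‖).norm_image_sub_le_of_norm_fderiv_le' (𝕜 := ℝ) (f := g)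
    (φ := fderiv ℝ g 0) (fun z _ => (hg.differentiable (by simp)) z) hfd
    (Metric.mem_closedBall_self (norm_nonneg y)) (y := y) (by rw [Metric.mem_closedBall, dist_zero_right])
  rw [sub_zero, Real.norm_eq_abs] at h3
  have h4 : fderiv ℝ g 0 y = ∑ j, pd j g 0 * y j := by
    conv_lhs => rw [s2_dec y]
    rw [map_add, map_smul, map_smul, Fin.sum_univ_two]
    simp only [smul_eq_mul]
    unfold pd
    ring
  rw [← h4]
  calc _ ≤ 2 * Q * ‖y‖ * ‖y‖ := h3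
    _ = _ := by ring

end Pool.Agent.SLG
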