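import Pool.Agent.SLG.O5

/-!
ROW T1 (iteration).
Recursive construction with `step`: at stage `k` we have `A_k, b_k` with
`‖A_k - A0‖ ≤ ρ`, `Exc W w x (τ^k r) A_k b_k ≤ (s/2^k)² (τ^k r)⁴`.  `Incl` on `ball x (τ^k r)`
follows from `Incl` on `ball x r` (`ae_restrict_of_ae_restrict_of_subset`).  `step` with `s/2^k`
gives `A_{k+1}, b_{k+1}` with `‖A_{k+1} - A_k‖ ≤ M1 s / 2^k`.  To keep `‖A_k - A0‖ ≤ ρ` carry the
invariant `‖A_k - A‖ ≤ 2 M1 s (1 - 2^{-k})`.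
-/

namespace Pool.Agent.SLG

open MeasureTheory

theorem iterate {n : ℕ} {I : Type} [Fintype I] {e : Fin n → I} {W : Mat n → I → Fin 2 → ℝ}
    {K : Set (Mat n)} {A0 : Mat n} {C : I → I → ℝ} {c ρ : ℝ} (D : UData e W K A0 C c ρ) :
    ∃ τ s0 M1 : ℝ, 0 < τ ∧ τ < 1 / 8 ∧ 0 < s0 ∧ 0 < M1 ∧
      ∀ w : I → E2 → ℝ, (∀ i, ∃ L : NNReal, LipschitzWith L (w i)) →
      ∀ (x : E2) (r : ℝ), 0 < r → Incl e W K w (Metric.ball x r) →
      ∀ (A : Mat n) (b : I → ℝ) (s : ℝ), 0 < s → s ≤ s0 → ‖A - A0‖ + 2 * M1 * s ≤ ρ →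
      Exc W w x r A b ≤ s ^ 2 * r ^ 4 →
      ∃ (Ak : ℕ → Mat n) (bk : ℕ → I → ℝ), ∀ k : ℕ, ‖Ak k - A0‖ ≤ ρ ∧
        ‖Ak (k + 1) - Ak k‖ ≤ M1 * s / 2 ^ k ∧
        Exc W w x (τ ^ k * r) (Ak k) (bk k) ≤ (s / 2 ^ k) ^ 2 * (τ ^ k * r) ^ 4 := by
  obtain ⟨τ, s0, M1, hτ, hτ8, hs0, hM1, hst⟩ := step D
  refine ⟨τ, s0, M1, hτ, hτ8, hs0, hM1, ?_⟩
  intro w hw x r hr hI A b s hs hss hρ hE
  have hstep : ∀ (k : ℕ) (p : Mat n × (I → ℝ)),
      (‖p.1 - A‖ ≤ 2 * M1 * s * (1 - 1 / 2 ^ k) ∧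
        Exc W w x (τ ^ k * r) p.1 p.2 ≤ (s / 2 ^ k) ^ 2 * (τ ^ k * r) ^ 4) →
      ∃ p' : Mat n × (I → ℝ), (‖p'.1 - A‖ ≤ 2 * M1 * s * (1 - 1 / 2 ^ (k + 1)) ∧
        Exc W w x (τ ^ (k + 1) * r) p'.1 p'.2 ≤
          (s / 2 ^ (k + 1)) ^ 2 * (τ ^ (k + 1) * r) ^ 4) ∧
        ‖p'.1 - p.1‖ ≤ M1 * s / 2 ^ k := by
    intro k p hp
    obtain ⟨hp1, hp2⟩ := hp
    have h2k : (0 : ℝ) < 2 ^ k := by positivity
    have h2k1 : (1 : ℝ) ≤ 2 ^ k := one_le_pow₀ (by norm_num)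
    have hτk : τ ^ k ≤ 1 := pow_le_one₀ hτ.le (by linarith)
    have hτk0 : 0 < τ ^ k := pow_pos hτ k
    have hMs : 0 < M1 * s := mul_pos hM1 hs
    have hI' : Incl e W K w (Metric.ball x (τ ^ k * r)) := by
      apply ae_restrict_of_ae_restrict_of_subset _ hI
      apply Metric.ball_subset_ball
      calc τ ^ k * r ≤ 1 * r := mul_le_mul_of_nonneg_right hτk hr.le
        _ = r := one_mul r
    have hinv : 0 < 1 / (2 : ℝ) ^ k := by positivity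
    have hA0 : ‖p.1 - A0‖ ≤ ρ := by
      have e : p.1 - A0 = (p.1 - A) + (A - A0) := by abel
      rw [e]
      have h1 := norm_add_le (p.1 - A) (A - A0)
      nlinarith
    have hsk : 0 < s / 2 ^ k := by positivity
    have hsk0 : s / 2 ^ k ≤ s0 := (div_le_self hs.le h2k1).trans hss
    obtain ⟨A', b', hA', hE'⟩ := hst w hw x (τ ^ k * r) (mul_pos hτk0 hr) hI' p.1 hA0 p.2
      (s / 2 ^ k) hsk hsk0 hp2
    refine ⟨(A', b'), ⟨?_, ?_⟩, ?_⟩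
    · have e : A' - A = (A' - p.1) + (p.1 - A) := by abel
      show ‖A' - A‖ ≤ _
      rw [e]
      have h1 := norm_add_le (A' - p.1) (p.1 - A)
      have h2 : M1 * (s / 2 ^ k) + 2 * M1 * s * (1 - 1 / 2 ^ k) =
          2 * M1 * s * (1 - 1 / 2 ^ (k + 1)) := by
        rw [pow_succ]
        field_simp
        ring
      linarith
    · show Exc W w x (τ ^ (k + 1) * r) A' b' ≤ _
      have e1 : τ ^ (k + 1) * r = τ * (τ ^ k * r) := by rw [pow_succ]; ring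
      have e2 : s / 2 ^ (k + 1) = s / 2 ^ k / 2 := by rw [pow_succ]; field_simp
      rw [e1, e2]
      exact hE'
    · show ‖A' - p.1‖ ≤ _
      rw [mul_div_assoc]
      exact hA'
  choose! F hF using hstep
  let f : ℕ → Mat n × (I → ℝ) := fun k => Nat.rec (A, b) (fun k p => F k p) k
  have hf1 : ∀ k, f (k + 1) = F k (f k) := fun k => rfl
  have hf : ∀ k, ‖(f k).1 - A‖ ≤ 2 * M1 * s * (1 - 1 / 2 ^ k) ∧
      Exc W w x (τ ^ k * r) (f k).1 (f k).2 ≤ (s / 2 ^ k) ^ 2 * (τ ^ k * r) ^ 4 := by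
    intro k
    induction k with
    | zero =>
      constructor
      · show ‖A - A‖ ≤ _
        simp
      · show Exc W w x (τ ^ 0 * r) A b ≤ _
        rw [pow_zero, pow_zero, one_mul, div_one]
        exact hE
    | succ k ih =>
      rw [hf1]
      exact (hF k (f k) ih).1
  refine ⟨fun k => (f k).1, fun k => (f k).2, fun k => ⟨?_, ?_, (hf k).2⟩⟩
  · have h1 := (hf k).1
    have e : (f k).1 - A0 = ((f k).1 - A) + (A - A0) := by abel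
    show ‖(f k).1 - A0‖ ≤ ρ
    rw [e]
    have h2 := norm_add_le ((f k).1 - A) (A - A0)
    have h3 : 0 < 1 / (2 : ℝ) ^ k := by positivity
    have h4 : 0 < M1 * s := mul_pos hM1 hs
    nlinarith
  · show ‖(f (k + 1)).1 - (f k).1‖ ≤ _
    rw [hf1]
    exact (hF k (f k) (hf k)).2

end Pool.Agent.SLG
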