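import Pool.Agent.SLG.Defs

/-!
ROW T2 (pointwise bound for a Lipschitz function from its `L²` norm).
Let `z ∈ ball x (R/2)`, `t := |h z| > 0`, `Λ := L + 1`.  Put `r1 := min (t/(2Λ)) (R/2)`.  On
`ball z r1` (contained in `ball x R`) `|h| ≥ t - Λ r1 ≥ t/2`, so
`(t²/4) volume(ball z r1) ≤ ∫_{ball x R} h² ≤ σ² R⁴`, and `volume (ball z r1) = π r1² ≥ 3 r1²`.
If `r1 = t/(2Λ)`: `(3/16) t⁴/Λ² ≤ σ² R⁴`, so `t² ≤ (4/√3) Λ σ R² ≤ 3 Λ σ R²`.
If `r1 = R/2`: `(3/16) t² R² ≤ σ² R⁴`, so `t² ≤ (16/3) σ² R² ≤ 6 σ R²` (as `σ ≤ 1`).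
In both cases `t² ≤ 16 Λ² σ R²`.
-/

namespace Pool.Agent.SLG

open MeasureTheory

theorem t2_vol (z : E2) (r : ℝ) (hr : 0 ≤ r) :
    (volume (Metric.ball z r)).toReal = Real.pi * r ^ 2 := by
  rw [EuclideanSpace.volume_ball_fin_two, ENNReal.toReal_mul, ENNReal.toReal_pow,
    ENNReal.toReal_ofReal hr, ENNReal.toReal_ofReal Real.pi_pos.le, mul_comm]

theorem sup_of_l2 {h : E2 → ℝ} {L : NNReal} (hL : LipschitzWith L h) (x : E2) (R σ : ℝ)
    (hR : 0 < R) (hσ : 0 ≤ σ) (hσ1 : σ ≤ 1)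
    (hint : (∫ z in Metric.ball x R, (h z) ^ 2) ≤ σ ^ 2 * R ^ 4) :
    ∀ z ∈ Metric.ball x (R / 2), (h z) ^ 2 ≤ 16 * ((L : ℝ) + 1) ^ 2 * σ * R ^ 2 := by
  intro z hz
  rcases eq_or_ne (h z) 0 with h0 | h0
  · rw [h0, zero_pow two_ne_zero]
    positivity
  have ht : 0 < |h z| := abs_pos.2 h0
  set t := |h z| with htdef
  set Λ : ℝ := (L : ℝ) + 1 with hΛ
  have hL0 : (0 : ℝ) ≤ L := L.2
  have hΛ1 : 1 ≤ Λ := by linarith
  have hΛ0 : 0 < Λ := by linarith
  have hsq : (h z) ^ 2 = t ^ 2 := (sq_abs _).symm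
  rw [hsq]
  have hcont : Continuous h := hL.continuous
  have hint2 : IntegrableOn (fun y => (h y) ^ 2) (Metric.ball x R) :=
    ((hcont.pow 2).continuousOn.integrableOn_compact
      (isCompact_closedBall x R)).mono_set Metric.ball_subset_closedBall
  have key : ∀ r1 : ℝ, 0 < r1 → r1 ≤ t / (2 * Λ) → r1 ≤ R / 2 →
      t ^ 2 / 4 * r1 ^ 2 ≤ σ ^ 2 * R ^ 4 := by
    intro r1 h1 h2 h3
    have hsub : Metric.ball z r1 ⊆ Metric.ball x R := by
      intro y hy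
      rw [Metric.mem_ball] at hy hz ⊢
      have := dist_triangle y z x
      linarith
    have hlow : ∀ y ∈ Metric.ball z r1, t ^ 2 / 4 ≤ (h y) ^ 2 := by
      intro y hy
      have h4 := hL.dist_le_mul z y
      rw [Real.dist_eq] at h4
      rw [Metric.mem_ball, dist_comm] at hy
      have h5 : |h z| - |h z - h y| ≤ |h y| := by
        have := abs_sub_abs_le_abs_sub (h z) (h y)
        linarith
      have h6 : (L : ℝ) * dist z y ≤ Λ * r1 := by
        have h7 : (L : ℝ) * dist z y ≤ Λ * dist z y :=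
          mul_le_mul_of_nonneg_right (by linarith) dist_nonneg
        have h8 : Λ * dist z y ≤ Λ * r1 := mul_le_mul_of_nonneg_left hy.le hΛ0.le
        linarith
      have h7 : Λ * r1 ≤ t / 2 := by
        rw [le_div_iff₀ (by positivity)] at h2
        linarith
      have h8 : t / 2 ≤ |h y| := by linarith
      have h9 : (t / 2) ^ 2 ≤ |h y| ^ 2 := pow_le_pow_left₀ (by positivity) h8 2
      rw [sq_abs] at h9
      linarith
    have h4 : t ^ 2 / 4 * (volume (Metric.ball z r1)).toReal ≤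
        ∫ y in Metric.ball z r1, (h y) ^ 2 := by
      have h5 : ∫ _y in Metric.ball z r1, t ^ 2 / 4 ≤ ∫ y in Metric.ball z r1, (h y) ^ 2 := by
        refine setIntegral_mono_on ?_ (hint2.mono_set hsub) measurableSet_ball hlow
        exact integrableOn_const measure_ball_lt_top.ne
      rw [setIntegral_const, smul_eq_mul, mul_comm] at h5
      exact h5
    have h5 : ∫ y in Metric.ball z r1, (h y) ^ 2 ≤ ∫ y in Metric.ball x R, (h y) ^ 2 :=
      setIntegral_mono_set hint2 (Filter.Eventually.of_forall fun y => sq_nonneg _)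
        (Filter.Eventually.of_forall hsub)
    rw [t2_vol z r1 h1.le] at h4
    have h6 : t ^ 2 / 4 * r1 ^ 2 ≤ t ^ 2 / 4 * (Real.pi * r1 ^ 2) := by
      refine mul_le_mul_of_nonneg_left ?_ (by positivity)
      have := Real.pi_gt_three
      nlinarith [sq_nonneg r1]
    linarith
  rcases le_total (t / (2 * Λ)) (R / 2) with hcase | hcase
  · have h1 := key (t / (2 * Λ)) (by positivity) le_rfl hcase
    have h2 : (t ^ 2) ^ 2 ≤ (4 * Λ * σ * R ^ 2) ^ 2 := by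
      have h3 : t ^ 2 / 4 * (t / (2 * Λ)) ^ 2 = (t ^ 2) ^ 2 / (16 * Λ ^ 2) := by
        field_simp
        ring
      rw [h3, div_le_iff₀ (by positivity)] at h1
      nlinarith
    have h3 : t ^ 2 ≤ 4 * Λ * σ * R ^ 2 :=
      (sq_le_sq₀ (by positivity) (by positivity)).1 h2
    have h4 : 4 * Λ * σ * R ^ 2 ≤ 16 * Λ ^ 2 * σ * R ^ 2 := by
      have h5 : 4 * Λ ≤ 16 * Λ ^ 2 := by nlinarith
      have h6 : 0 ≤ σ * R ^ 2 := by positivity
      nlinarith
    linarith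
  · have h1 := key (R / 2) (by positivity) hcase le_rfl
    have h2 : t ^ 2 ≤ 16 * σ ^ 2 * R ^ 2 := by
      have h3 : t ^ 2 * R ^ 2 ≤ (16 * σ ^ 2 * R ^ 2) * R ^ 2 := by nlinarith
      exact le_of_mul_le_mul_right h3 (by positivity)
    have h3 : 16 * σ ^ 2 * R ^ 2 ≤ 16 * Λ ^ 2 * σ * R ^ 2 := by
      have h4 : σ ^ 2 ≤ σ := by nlinarith
      have h5 : σ ≤ Λ ^ 2 * σ := by nlinarith [mul_nonneg hσ (by nlinarith : (0:ℝ) ≤ Λ ^ 2 - 1)]
      have h6 : 0 ≤ R ^ 2 := by positivity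
      nlinarith
    linarith

end Pool.Agent.SLG
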