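import Pool.Agent.SLG.T1
import Pool.Agent.SLG.T2

/-!
ROW T3 (uniform first order expansion from small excess).
Let `τ, s0, M1` be as in `iterate`, `s1 := min (min s0 1) (ρ / (2 M1))`.  With
`A = A0`, `s = s1` we get `Ak, bk`.  `Ak` is Cauchy (`‖A_{k+1} - A_k‖ ≤ M1 s1 / 2^k`), limit `Ax`,
`‖Ax - A_k‖ ≤ 2 M1 s1 / 2^k` (`cauchySeq_of_le_geometric_two`-type lemmas).
Fix `i` and put `h_k z := w (e i) z - ∑ j, A_k i j (z_j - x_j) - b_k (e i)`; it is Lipschitz with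
constant at most `L' = L + 2 (‖A0‖ + ρ)`, and by `D.emb`
`∫_{ball x (τ^k r)} h_k² ≤ Exc W w x (τ^k r) A_k b_k ≤ (s1/2^k)² (τ^k r)⁴` (one term of a sum of
squares).  `sup_of_l2` with `σ = s1/2^k ≤ 1`: on `ball x (τ^k r / 2)`,
`|h_k| ≤ 4 (L'+1) sqrt(s1/2^k) τ^k r =: c_k τ^k r` with `c_k → 0` depending only on `k` (and the
data).  Comparing `z` with `x`: `|w (e i) z - w (e i) x - ∑ A_k i j (z_j - x_j)| ≤ 2 c_k τ^k r`.
If `τ^(k+1) r / 2 ≤ ‖z - x‖ < τ^k r / 2` this is at most `(4 c_k / τ) ‖z - x‖`, and replacing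
`A_k` by `Ax` costs at most `2 * (2 M1 s1 / 2^k) ‖z - x‖`.  So the error is at most
`η_k ‖z - x‖` with `η_k := 4 c_k/τ + 4 M1 s1/2^k → 0`, nonincreasing in `k`.
Given `η > 0` let `k0` be such that `η_k ≤ η` for `k ≥ k0` and `δ η := τ^{k0} r / 2`
(for `η ≤ 0` put `δ η := 1`).  `z = x` is trivial; for `0 < ‖z - x‖ < δ η` there is `k ≥ k0` as
above.  `s1` and `δ` do not depend on `w` or `x` (only on the data, `L`, `r`).
-/

namespace Pool.Agent.SLG

open MeasureTheory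

theorem t3_entry {n : ℕ} (A : Mat n) (i : Fin n) (j : Fin 2) : |A i j| ≤ ‖A‖ :=
  (norm_le_pi_norm (A i) j).trans (norm_le_pi_norm A i)

theorem t3_coord (v : E2) (j : Fin 2) : |v j| ≤ ‖v‖ := by
  have h := PiLp.norm_apply_le v j
  rwa [Real.norm_eq_abs] at h

theorem t3_sum {n : ℕ} (A : Mat n) (i : Fin n) (v : E2) :
    |∑ j, A i j * v j| ≤ 2 * ‖A‖ * ‖v‖ := by
  rw [Fin.sum_univ_two]
  have h : ∀ j, |A i j * v j| ≤ ‖A‖ * ‖v‖ := by
    intro j
    rw [abs_mul]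
    exact mul_le_mul (t3_entry A i j) (t3_coord v j) (abs_nonneg _) (norm_nonneg _)
  have h0 := h 0
  have h1 := h 1
  have h2 := abs_add_le (A i 0 * v 0) (A i 1 * v 1)
  linarith

/-- pointwise estimate at one scale -/
theorem t3_scale {n : ℕ} {I : Type} [Fintype I] {e : Fin n → I} {W : Mat n → I → Fin 2 → ℝ}
    (hemb : ∀ X i j, W X (e i) j = X i j) (L : NNReal) (w : I → E2 → ℝ)
    (hw : ∀ i, LipschitzWith L (w i)) (x : E2) (R σ B : ℝ) (hR : 0 < R) (hσ : 0 ≤ σ)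
    (hσ1 : σ ≤ 1) (A : Mat n) (hA : ‖A‖ ≤ B) (b : I → ℝ)
    (hE : Exc W w x R A b ≤ σ ^ 2 * R ^ 4) (z : E2) (hz : ‖z - x‖ < R / 2) (i : Fin n) :
    |w (e i) z - w (e i) x - ∑ j, A i j * (z j - x j)| ≤
      2 * (4 * ((L : ℝ) + 2 * B + 1) * Real.sqrt σ * R) := by
  have hB0 : 0 ≤ B := (norm_nonneg A).trans hA
  have hL0 : (0 : ℝ) ≤ L := L.2
  set h : E2 → ℝ := fun y => w (e i) y - (∑ j, A i j * (y j - x j)) - b (e i) with hh
  have hlip : LipschitzWith (L + 2 * B.toNNReal) h := by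
    refine LipschitzWith.of_dist_le_mul fun y y' => ?_
    rw [Real.dist_eq, dist_eq_norm]
    push_cast
    rw [Real.coe_toNNReal B hB0]
    have h1 := (hw (e i)).dist_le_mul y y'
    rw [Real.dist_eq, dist_eq_norm] at h1
    have h2 := t3_sum A i (y - y')
    have h3 : h y - h y' = (w (e i) y - w (e i) y') - ∑ j, A i j * (y - y') j := by
      rw [hh]
      simp only [Fin.sum_univ_two, PiLp.sub_apply]
      ring
    rw [h3]
    have h4 := abs_sub (w (e i) y - w (e i) y') (∑ j, A i j * (y - y') j)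
    have h5 : 2 * ‖A‖ * ‖y - y'‖ ≤ 2 * B * ‖y - y'‖ :=
      mul_le_mul_of_nonneg_right (by linarith) (norm_nonneg _)
    nlinarith
  have hcont : ∀ q, Continuous (fun z : E2 => (w q z - (∑ j, W A q j * (z j - x j)) - b q) ^ 2) := by
    intro q
    have h1 := (hw q).continuous
    fun_prop
  have hint : ∀ q, IntegrableOn (fun z : E2 => (w q z - (∑ j, W A q j * (z j - x j)) - b q) ^ 2)
      (Metric.ball x R) := fun q =>
    ((hcont q).continuousOn.integrableOn_compact (isCompact_closedBall x R)).mono_set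
      Metric.ball_subset_closedBall
  have hle : (∫ z in Metric.ball x R, (h z) ^ 2) ≤ σ ^ 2 * R ^ 4 := by
    refine le_trans ?_ hE
    unfold Exc
    have h1 : (fun z => (h z) ^ 2) =
        fun z : E2 => (w (e i) z - (∑ j, W A (e i) j * (z j - x j)) - b (e i)) ^ 2 := by
      funext z
      rw [hh]
      simp only [hemb]
    rw [h1]
    refine setIntegral_mono_on (hint (e i)) (integrable_finsetSum _ fun q _ => hint q)
      measurableSet_ball fun z _ => ?_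
    exact Finset.single_le_sum
      (f := fun q => (w q z - (∑ j, W A q j * (z j - x j)) - b q) ^ 2)
      (fun q _ => sq_nonneg _) (Finset.mem_univ (e i))
  have hsup := sup_of_l2 hlip x R σ hR hσ hσ1 hle
  have hbd : ∀ y : E2, ‖y - x‖ < R / 2 → |h y| ≤ 4 * ((L : ℝ) + 2 * B + 1) * Real.sqrt σ * R := by
    intro y hy
    have h1 := hsup y (by rw [Metric.mem_ball, dist_eq_norm]; exact hy)
    push_cast at h1
    rw [Real.coe_toNNReal B hB0] at h1
    have h2 : 16 * ((L : ℝ) + 2 * B + 1) ^ 2 * σ * R ^ 2 =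
        (4 * ((L : ℝ) + 2 * B + 1) * Real.sqrt σ * R) ^ 2 := by
      rw [mul_pow, mul_pow, mul_pow, Real.sq_sqrt hσ]
      ring
    rw [h2] at h1
    exact abs_le_of_sq_le_sq h1 (by positivity)
  have h1 := hbd z hz
  have h2 := hbd x (by rw [sub_self, norm_zero]; positivity)
  have h3 : w (e i) z - w (e i) x - ∑ j, A i j * (z j - x j) = h z - h x := by
    rw [hh]
    simp
    ring
  rw [h3]
  have h4 := abs_sub (h z) (h x)
  linarith

theorem expansion {n : ℕ} {I : Type} [Fintype I] {e : Fin n → I} {W : Mat n → I → Fin 2 → ℝ}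
    {K : Set (Mat n)} {A0 : Mat n} {C : I → I → ℝ} {c ρ : ℝ} (D : UData e W K A0 C c ρ)
    (L : NNReal) :
    ∃ s1 : ℝ, 0 < s1 ∧ ∀ r : ℝ, 0 < r → ∃ δ : ℝ → ℝ, (∀ η, 0 < η → 0 < δ η) ∧
      ∀ w : I → E2 → ℝ, (∀ i, LipschitzWith L (w i)) → ∀ x : E2,
      Incl e W K w (Metric.ball x r) →
      (∃ b : I → ℝ, Exc W w x r A0 b ≤ s1 ^ 2 * r ^ 4) →
      ∃ Ax : Mat n, ∀ η, 0 < η → ∀ z : E2, ‖z - x‖ < δ η → ∀ i,
        |w (e i) z - w (e i) x - ∑ j, Ax i j * (z j - x j)| ≤ η * ‖z - x‖ := by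
  obtain ⟨τ, s0, M1, hτ0, hτ8, hs0, hM1, hit⟩ := iterate D
  have hρ := D.rpos
  set s1 : ℝ := min (min s0 1) (ρ / (2 * M1)) with hs1
  have hs1pos : 0 < s1 := lt_min (lt_min hs0 one_pos) (by positivity)
  have hs1a : s1 ≤ s0 := (min_le_left _ _).trans (min_le_left _ _)
  have hs1b : s1 ≤ 1 := (min_le_left _ _).trans (min_le_right _ _)
  have hs1c : 2 * M1 * s1 ≤ ρ := by
    have h1 : s1 ≤ ρ / (2 * M1) := min_le_right _ _
    rw [le_div_iff₀ (by positivity)] at h1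
    linarith
  refine ⟨s1, hs1pos, fun r hr => ?_⟩
  set B : ℝ := ‖A0‖ + ρ with hB
  have hB0 : 0 ≤ B := by positivity
  set c' : ℝ := 4 * ((L : ℝ) + 2 * B + 1) with hc'
  have hc'0 : 0 ≤ c' := by positivity
  set ηk : ℕ → ℝ := fun k => 4 * (c' * Real.sqrt (s1 / 2 ^ k)) / τ + 4 * M1 * (s1 / 2 ^ k) with hηk
  have hlim0 : Filter.Tendsto (fun k : ℕ => s1 / 2 ^ k) Filter.atTop (nhds 0) := by
    have h1 := tendsto_pow_atTop_nhds_zero_of_lt_one (r := (1 / 2 : ℝ)) (by norm_num)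
      (by norm_num)
    have h2 := h1.const_mul s1
    rw [mul_zero] at h2
    refine h2.congr fun k => ?_
    rw [one_div, inv_pow, div_eq_mul_inv]
  have hlim : Filter.Tendsto ηk Filter.atTop (nhds 0) := by
    have h1 := hlim0.sqrt
    rw [Real.sqrt_zero] at h1
    have h2 := ((h1.const_mul c').const_mul 4).div_const τ
    have h3 := hlim0.const_mul (4 * M1)
    have h4 := h2.add h3
    simp only [mul_zero, zero_div, add_zero] at h4
    exact h4
  have hk0 : ∀ η : ℝ, ∃ k0 : ℕ, 0 < η → ∀ k ≥ k0, ηk k ≤ η := by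
    intro η
    by_cases hη : 0 < η
    · obtain ⟨k0, hk0⟩ := Filter.eventually_atTop.1 (hlim.eventually_le_const hη)
      exact ⟨k0, fun _ k hk => hk0 k hk⟩
    · exact ⟨0, fun h => absurd h hη⟩
  choose k0 hk0 using hk0
  refine ⟨fun η => τ ^ k0 η * r / 2, fun η _ => by positivity, ?_⟩
  intro w hw x hI hE
  obtain ⟨b, hE⟩ := hE
  obtain ⟨Ak, bk, hAk⟩ := hit w (fun i => ⟨L, hw i⟩) x r hr hI A0 b s1 hs1pos hs1a
    (by rw [sub_self, norm_zero, zero_add]; exact hs1c) hE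
  have hdist : ∀ k, dist (Ak k) (Ak (k + 1)) ≤ (2 * M1 * s1) / 2 / 2 ^ k := by
    intro k
    rw [dist_comm, dist_eq_norm]
    have h1 := (hAk k).2.1
    have h2 : (2 * M1 * s1) / 2 / 2 ^ k = M1 * s1 / 2 ^ k := by ring
    rw [h2]
    exact h1
  obtain ⟨Ax, hAx⟩ := cauchySeq_tendsto_of_complete (cauchySeq_of_le_geometric_two hdist)
  have hAx2 : ∀ k, ‖Ak k - Ax‖ ≤ 2 * M1 * s1 / 2 ^ k := by
    intro k
    rw [← dist_eq_norm]
    exact dist_le_of_le_geometric_two_of_tendsto hdist hAx k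
  refine ⟨Ax, fun η hη z hz i => ?_⟩
  by_cases hzx : z = x
  · rw [hzx]
    simp
  have hpos : 0 < ‖z - x‖ := norm_pos_iff.2 (sub_ne_zero.2 hzx)
  have hτ1 : τ < 1 := by linarith
  -- choose the scale
  have hex : ∃ k : ℕ, τ ^ k * r / 2 ≤ ‖z - x‖ := by
    have h1 := (tendsto_pow_atTop_nhds_zero_of_lt_one hτ0.le hτ1).mul_const (r / 2)
    rw [zero_mul] at h1
    obtain ⟨k, hk⟩ := (h1.eventually_le_const hpos).exists
    exact ⟨k, by rw [mul_div_assoc]; exact hk⟩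
  classical
  have hK := Nat.find_spec hex
  have hKmin : ∀ m < Nat.find hex, ‖z - x‖ < τ ^ m * r / 2 := fun m hm =>
    not_le.1 (Nat.find_min hex hm)
  set K' := Nat.find hex with hK'
  have hgt : k0 η < K' := by
    by_contra hle
    rw [not_lt] at hle
    have h1 : τ ^ k0 η ≤ τ ^ K' := pow_le_pow_of_le_one hτ0.le hτ1.le hle
    have h2 : τ ^ k0 η * r / 2 ≤ τ ^ K' * r / 2 := by
      have := mul_le_mul_of_nonneg_right h1 hr.le
      linarith
    have h3 : ‖z - x‖ < τ ^ k0 η * r / 2 := hz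
    linarith
  obtain ⟨k, hk⟩ : ∃ k, K' = k + 1 := ⟨K' - 1, by omega⟩
  have hkk : k0 η ≤ k := by omega
  have hz1 : ‖z - x‖ < τ ^ k * r / 2 := hKmin k (by omega)
  have hz2 : τ ^ (k + 1) * r / 2 ≤ ‖z - x‖ := by
    rw [hk] at hK
    exact hK
  have hRk : 0 < τ ^ k * r := by positivity
  have hσ0 : 0 ≤ s1 / 2 ^ k := by positivity
  have hσ1 : s1 / 2 ^ k ≤ 1 := by
    rw [div_le_one (by positivity)]
    have h1 : (1 : ℝ) ≤ 2 ^ k := one_le_pow₀ (by norm_num)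
    linarith
  have hAkB : ‖Ak k‖ ≤ B := by
    have h1 := (hAk k).1
    have h2 := norm_add_le (Ak k - A0) A0
    rw [sub_add_cancel] at h2
    linarith
  have hsc := t3_scale D.emb L w hw x (τ ^ k * r) (s1 / 2 ^ k) B hRk hσ0 hσ1 (Ak k) hAkB (bk k)
    (hAk k).2.2 z hz1 i
  have hRle : τ ^ k * r ≤ 2 * ‖z - x‖ / τ := by
    rw [le_div_iff₀ hτ0]
    have : τ ^ (k + 1) * r = τ ^ k * r * τ := by ring
    linarith
  have h1 : 2 * (4 * ((L : ℝ) + 2 * B + 1) * Real.sqrt (s1 / 2 ^ k) * (τ ^ k * r)) ≤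
      4 * (c' * Real.sqrt (s1 / 2 ^ k)) / τ * ‖z - x‖ := by
    have h2 : 0 ≤ 2 * (c' * Real.sqrt (s1 / 2 ^ k)) := by positivity
    have h3 := mul_le_mul_of_nonneg_left hRle h2
    have h4 : 2 * (4 * ((L : ℝ) + 2 * B + 1) * Real.sqrt (s1 / 2 ^ k) * (τ ^ k * r)) =
        2 * (c' * Real.sqrt (s1 / 2 ^ k)) * (τ ^ k * r) := by rw [hc']; ring
    have h5 : 2 * (c' * Real.sqrt (s1 / 2 ^ k)) * (2 * ‖z - x‖ / τ) =
        4 * (c' * Real.sqrt (s1 / 2 ^ k)) / τ * ‖z - x‖ := by ring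
    linarith
  have h2 := t3_sum (Ak k - Ax) i (z - x)
  have h3 : 2 * ‖Ak k - Ax‖ * ‖z - x‖ ≤ 4 * M1 * (s1 / 2 ^ k) * ‖z - x‖ := by
    refine mul_le_mul_of_nonneg_right ?_ hpos.le
    have h4 := hAx2 k
    have h5 : 2 * (2 * M1 * s1 / 2 ^ k) = 4 * M1 * (s1 / 2 ^ k) := by ring
    linarith
  have h4 : w (e i) z - w (e i) x - ∑ j, Ax i j * (z j - x j) =
      (w (e i) z - w (e i) x - ∑ j, Ak k i j * (z j - x j)) +
        ∑ j, (Ak k - Ax) i j * (z - x) j := by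
    simp only [Fin.sum_univ_two, PiLp.sub_apply, Pi.sub_apply]
    ring
  rw [h4]
  have h5 := abs_add_le (w (e i) z - w (e i) x - ∑ j, Ak k i j * (z j - x j))
    (∑ j, (Ak k - Ax) i j * (z - x) j)
  have h6 : ηk k * ‖z - x‖ ≤ η * ‖z - x‖ :=
    mul_le_mul_of_nonneg_right (hk0 η hη k hkk) hpos.le
  have h7 : ηk k * ‖z - x‖ = 4 * (c' * Real.sqrt (s1 / 2 ^ k)) / τ * ‖z - x‖ +
      4 * M1 * (s1 / 2 ^ k) * ‖z - x‖ := by
    rw [hηk]
    ring
  linarith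

end Pool.Agent.SLG
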