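import Pool.Agent.SLG.Defs2

/-!
V1: orthonormal pairs and the polar decomposition of an `n × 2` matrix of rank two.
-/

namespace Pool.Agent.SLG

/-- Inner product of columns. -/
def dt {n : ℕ} (a b : Fin n → ℝ) : ℝ := ∑ i, a i * b i

theorem dt_comm {n : ℕ} (a b : Fin n → ℝ) : dt a b = dt b a := by
  unfold dt
  exact Finset.sum_congr rfl fun i _ => mul_comm _ _

theorem dt_comb {n : ℕ} (a b c d : Fin n → ℝ) (p q r s : ℝ) :
    dt (fun i => p * a i + q * b i) (fun i => r * c i + s * d i) =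
      p * r * dt a c + p * s * dt a d + q * r * dt b c + q * s * dt b d := by
  unfold dt
  simp only [Finset.mul_sum, ← Finset.sum_add_distrib]
  exact Finset.sum_congr rfl fun i _ => by ring

theorem dt_self_nonneg {n : ℕ} (a : Fin n → ℝ) : 0 ≤ dt a a :=
  Finset.sum_nonneg fun i _ => mul_self_nonneg (a i)

theorem dt_cs {n : ℕ} (a b : Fin n → ℝ) : dt a b ^ 2 ≤ dt a a * dt b b := by
  have h := Finset.sum_mul_sq_le_sq_mul_sq Finset.univ a b
  have h1 : ∀ c : Fin n → ℝ, dt c c = ∑ i, c i ^ 2 := fun c => by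
    unfold dt
    exact Finset.sum_congr rfl fun i _ => by ring
  rw [h1 a, h1 b]
  exact h

/-- The contraction inequality for two orthonormal pairs. -/
theorem on_contract {n : ℕ} (U1 U2 V1 V2 : Fin n → ℝ) (u11 : dt U1 U1 = 1) (u22 : dt U2 U2 = 1)
    (u12 : dt U1 U2 = 0) (v11 : dt V1 V1 = 1) (v22 : dt V2 V2 = 1) (v12 : dt V1 V2 = 0) :
    (dt U1 V1 - dt U2 V2) ^ 2 + (dt U1 V2 + dt U2 V1) ^ 2 ≤
        (1 - (dt U1 V1 * dt U2 V2 - dt U1 V2 * dt U2 V1)) ^ 2 ∧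
      dt U1 V1 * dt U2 V2 - dt U1 V2 * dt U2 V1 ≤ 1 ∧
      dt U1 V1 ^ 2 + dt U2 V1 ^ 2 ≤ 1 ∧ dt U1 V2 ^ 2 + dt U2 V2 ^ 2 ≤ 1 := by
  set c11 := dt U1 V1
  set c12 := dt U1 V2
  set c21 := dt U2 V1
  set c22 := dt U2 V2
  -- residuals
  set r1 : Fin n → ℝ := fun i => 1 * V1 i + (-1) * (c11 * U1 i + c21 * U2 i)
  set r2 : Fin n → ℝ := fun i => 1 * V2 i + (-1) * (c12 * U1 i + c22 * U2 i)
  have e1 : ∀ (p q : ℝ) (W : Fin n → ℝ), dt (fun i => p * U1 i + q * U2 i) W =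
      p * dt U1 W + q * dt U2 W := by
    intro p q W
    unfold dt
    simp only [Finset.mul_sum, ← Finset.sum_add_distrib]
    exact Finset.sum_congr rfl fun i _ => by ring
  have e2 : ∀ (p q : ℝ) (W : Fin n → ℝ), dt W (fun i => p * U1 i + q * U2 i) =
      p * dt U1 W + q * dt U2 W := by
    intro p q W
    rw [dt_comm, e1]
  have hu21 : dt U2 U1 = 0 := by rw [dt_comm]; exact u12
  have g11 : dt r1 r1 = 1 - c11 ^ 2 - c21 ^ 2 := by
    show dt (fun i => 1 * V1 i + (-1) * (fun i => c11 * U1 i + c21 * U2 i) i)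
      (fun i => 1 * V1 i + (-1) * (fun i => c11 * U1 i + c21 * U2 i) i) = _
    rw [dt_comb, e2, e1, e1, e2, e2, v11, u11, u22, u12, hu21]
    ring
  have g22 : dt r2 r2 = 1 - c12 ^ 2 - c22 ^ 2 := by
    show dt (fun i => 1 * V2 i + (-1) * (fun i => c12 * U1 i + c22 * U2 i) i)
      (fun i => 1 * V2 i + (-1) * (fun i => c12 * U1 i + c22 * U2 i) i) = _
    rw [dt_comb, e2, e1, e1, e2, e2, v22, u11, u22, u12, hu21]
    ring
  have g12 : dt r1 r2 = -(c11 * c12 + c21 * c22) := by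
    show dt (fun i => 1 * V1 i + (-1) * (fun i => c11 * U1 i + c21 * U2 i) i)
      (fun i => 1 * V2 i + (-1) * (fun i => c12 * U1 i + c22 * U2 i) i) = _
    rw [dt_comb, e2, e1, e1, e2, e2, v12, u11, u22, u12, hu21]
    ring
  have h := dt_cs r1 r2
  have h1 := dt_self_nonneg r1
  have h2 := dt_self_nonneg r2
  rw [g12, g11, g22] at h
  rw [g11] at h1
  rw [g22] at h2
  refine ⟨?_, ?_, by linarith, by linarith⟩
  · nlinarith [h]
  · nlinarith [sq_nonneg (c11 - c22), sq_nonneg (c12 + c21)]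

/-- Polar decomposition of a matrix with columns `X1`, `X2`. -/
theorem polar {n : ℕ} (X1 X2 : Fin n → ℝ) (J : ℝ) (hJ : 0 < J)
    (hJ2 : J ^ 2 = dt X1 X1 * dt X2 X2 - dt X1 X2 ^ 2) :
    ∃ (U1 U2 : Fin n → ℝ) (t e1 e2 : ℝ), 0 < t ∧ t ^ 2 - e1 ^ 2 - e2 ^ 2 = J ∧
      dt U1 U1 = 1 ∧ dt U2 U2 = 1 ∧ dt U1 U2 = 0 ∧
      X1 = (fun i => (t + e1) * U1 i + e2 * U2 i) ∧ X2 = (fun i => e2 * U1 i + (t - e1) * U2 i) := by
  have h11 := dt_self_nonneg X1
  have h22 := dt_self_nonneg X2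
  set a := dt X1 X1
  set b := dt X1 X2
  set c := dt X2 X2
  have hac : 0 < a * c := by nlinarith [sq_nonneg b, pow_pos hJ 2]
  have ha : 0 < a := by
    rcases h11.lt_or_eq with h | h
    · exact h
    · rw [← h] at hac
      simp at hac
  have hc : 0 < c := by
    rcases h22.lt_or_eq with h | h
    · exact h
    · rw [← h] at hac
      simp at hac
  have hpos : 0 < (a + c + 2 * J) / 4 := by positivity
  set t := Real.sqrt ((a + c + 2 * J) / 4)
  have ht : 0 < t := Real.sqrt_pos.2 hpos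
  have ht2 : t ^ 2 = (a + c + 2 * J) / 4 := Real.sq_sqrt hpos.le
  set e1 := (a - c) / (4 * t)
  set e2 := b / (2 * t)
  have he1 : 4 * t * e1 = a - c := by
    show 4 * t * ((a - c) / (4 * t)) = _
    field_simp
  have he2 : 2 * t * e2 = b := by
    show 2 * t * (b / (2 * t)) = _
    field_simp
  have hdet : t ^ 2 - e1 ^ 2 - e2 ^ 2 = J := by
    have h4 : 16 * t ^ 2 * (t ^ 2 - e1 ^ 2 - e2 ^ 2) = 16 * t ^ 2 * J := by
      have : 16 * t ^ 2 * (t ^ 2 - e1 ^ 2 - e2 ^ 2) =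
        16 * (t ^ 2) ^ 2 - (4 * t * e1) ^ 2 - 4 * (2 * t * e2) ^ 2 := by ring
      rw [this, he1, he2, ht2]
      nlinarith [hJ2]
    have h5 : 16 * t ^ 2 ≠ 0 := by positivity
    exact mul_left_cancel₀ h5 h4
  have hA : a = (t + e1) ^ 2 + e2 ^ 2 := by
    have : (t + e1) ^ 2 + e2 ^ 2 = 2 * t ^ 2 + 2 * t * e1 - (t ^ 2 - e1 ^ 2 - e2 ^ 2) := by ring
    rw [this, hdet, ht2]
    linarith
  have hC : c = (t - e1) ^ 2 + e2 ^ 2 := by
    have : (t - e1) ^ 2 + e2 ^ 2 = 2 * t ^ 2 - 2 * t * e1 - (t ^ 2 - e1 ^ 2 - e2 ^ 2) := by ring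
    rw [this, hdet, ht2]
    linarith
  have hB : b = 2 * t * e2 := he2.symm
  have hJne : J ≠ 0 := hJ.ne'
  refine ⟨fun i => ((t - e1) / J) * X1 i + (-e2 / J) * X2 i,
    fun i => (-e2 / J) * X1 i + ((t + e1) / J) * X2 i, t, e1, e2, ht, hdet, ?_, ?_, ?_, ?_, ?_⟩
  · rw [dt_comb]
    have hcomm : dt X2 X1 = b := dt_comm _ _
    rw [hcomm]
    show (t - e1) / J * ((t - e1) / J) * a + (t - e1) / J * (-e2 / J) * b +
      -e2 / J * ((t - e1) / J) * b + -e2 / J * (-e2 / J) * c = 1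
    rw [hA, hB, hC]
    field_simp
    rw [← hdet]
    ring
  · rw [dt_comb]
    have hcomm : dt X2 X1 = b := dt_comm _ _
    rw [hcomm]
    show -e2 / J * (-e2 / J) * a + -e2 / J * ((t + e1) / J) * b +
      (t + e1) / J * (-e2 / J) * b + (t + e1) / J * ((t + e1) / J) * c = 1
    rw [hA, hB, hC]
    field_simp
    rw [← hdet]
    ring
  · rw [dt_comb]
    have hcomm : dt X2 X1 = b := dt_comm _ _
    rw [hcomm]
    show (t - e1) / J * (-e2 / J) * a + (t - e1) / J * ((t + e1) / J) * b +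
      -e2 / J * (-e2 / J) * b + -e2 / J * ((t + e1) / J) * c = 0
    rw [hA, hB, hC]
    field_simp
    ring
  · funext i
    field_simp
    rw [← hdet]
    ring
  · funext i
    field_simp
    rw [← hdet]
    ring

end Pool.Agent.SLG
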