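import Pool.Agent.SLG.V1

/-!
V2: the tilt estimates, in polar variables.
-/

namespace Pool.Agent.SLG

theorem v2_cs (a1 a2 b1 b2 a b : ℝ) (ha : 0 ≤ a) (hb : 0 ≤ b) (h1 : a1 ^ 2 + a2 ^ 2 ≤ a ^ 2)
    (h2 : b1 ^ 2 + b2 ^ 2 ≤ b ^ 2) : a1 * b1 + a2 * b2 ≤ a * b := by
  have h3 : (a1 * b1 + a2 * b2) ^ 2 ≤ (a * b) ^ 2 := by
    have : (a1 * b1 + a2 * b2) ^ 2 ≤ (a1 ^ 2 + a2 ^ 2) * (b1 ^ 2 + b2 ^ 2) := by
      nlinarith [sq_nonneg (a1 * b2 - a2 * b1)]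
    calc (a1 * b1 + a2 * b2) ^ 2 ≤ (a1 ^ 2 + a2 ^ 2) * (b1 ^ 2 + b2 ^ 2) := this
      _ ≤ a ^ 2 * b ^ 2 := mul_le_mul h1 h2 (by positivity) (by positivity)
      _ = (a * b) ^ 2 := by ring
  exact (abs_le_of_sq_le_sq' h3 (by positivity)).2

/-- The elementary inequality between singular values. -/
theorem v2_sv (s1 s2 S1 S2 : ℝ) (h1 : 1 ≤ s2) (h2 : s2 ≤ s1) (h3 : s1 ^ 2 ≤ 2) (H1 : 1 ≤ S2)
    (H2 : S2 ≤ S1) (H3 : S1 ^ 2 ≤ 2) :
    (s1 * S1 - s2 * S2) ^ 2 ≤ 3 / 4 * (s1 * s2) * (s2 * S2) := by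
  obtain ⟨r, hr0, hr⟩ : ∃ r : ℝ, 0 < r ∧ r ^ 2 = 2 := ⟨Real.sqrt 2, by positivity, by norm_num⟩
  have hr14 : 1.41 < r := by
    by_contra hc
    push Not at hc
    nlinarith
  have hr15 : r < 1.42 := by
    by_contra hc
    push Not at hc
    nlinarith
  have hs1 : s1 ≤ r := by
    by_contra hc
    push Not at hc
    nlinarith
  have hS1 : S1 ≤ r := by
    by_contra hc
    push Not at hc
    nlinarith
  have h0 : 0 ≤ s1 * S1 - s2 * S2 := by nlinarith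
  have hle : s1 * S1 - s2 * S2 ≤ r * s1 - s2 := by nlinarith
  have hsq : (s1 * S1 - s2 * S2) ^ 2 ≤ (r * s1 - s2) ^ 2 := pow_le_pow_left₀ h0 hle 2
  have hmain : (r * s1 - s2) ^ 2 ≤ 3 / 4 * s1 * s2 ^ 2 := by
    have hL : 3 / 4 * s1 * s2 ^ 2 - (r * s1 - s2) ^ 2 =
        2 * ((s1 - s2) * (r - s1)) +
          (s1 * (3 / 4 * s2 ^ 2 + (2 * r - 2) * s2 - 2 * r) + 2 * r * s2 - s2 ^ 2) := by
      have : (r * s1 - s2) ^ 2 = r ^ 2 * s1 ^ 2 - 2 * r * s1 * s2 + s2 ^ 2 := by ring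
      rw [this, hr]
      ring
    have hm : 3 / 4 * s2 ^ 2 + (2 * r - 2) * s2 - 2 * r ≤ 0 := by nlinarith
    have hA : r * (3 / 4 * s2 ^ 2 + (2 * r - 2) * s2 - 2 * r) ≤
        s1 * (3 / 4 * s2 ^ 2 + (2 * r - 2) * s2 - 2 * r) := by nlinarith
    have hB : r * (3 / 4 * s2 ^ 2 + (2 * r - 2) * s2 - 2 * r) + 2 * r * s2 - s2 ^ 2 =
        (3 / 4 * r - 1) * s2 ^ 2 + 4 * s2 - 4 := by
      have : r * (3 / 4 * s2 ^ 2 + (2 * r - 2) * s2 - 2 * r) =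
        3 / 4 * r * s2 ^ 2 + (2 * r ^ 2 - 2 * r) * s2 - 2 * r ^ 2 := by ring
      rw [this, hr]
      ring
    have hC : 0 ≤ (3 / 4 * r - 1) * s2 ^ 2 := by
      have : 0 ≤ 3 / 4 * r - 1 := by linarith
      positivity
    have hD : 0 ≤ (s1 - s2) * (r - s1) := mul_nonneg (by linarith) (by linarith)
    nlinarith
  calc (s1 * S1 - s2 * S2) ^ 2 ≤ (r * s1 - s2) ^ 2 := hsq
    _ ≤ 3 / 4 * s1 * s2 ^ 2 := hmain
    _ ≤ 3 / 4 * (s1 * s2) * (s2 * S2) := by nlinarith [mul_pos (by linarith : 0 < s1) (by positivity : 0 < s2 ^ 2)]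

/-- The tilt estimates. -/
theorem v2_tilt (T f1 f2 t e1 e2 c11 c12 c21 c22 q p : ℝ) (hq : 0 ≤ q) (hp : 0 ≤ p)
    (hq2 : q ^ 2 = f1 ^ 2 + f2 ^ 2) (hp2 : p ^ 2 = e1 ^ 2 + e2 ^ 2)
    (hT1 : 1 ≤ T - q) (hT2 : (T + q) ^ 2 ≤ 2) (ht1 : 1 ≤ t - p) (ht2 : (t + p) ^ 2 ≤ 2)
    (hc : (c11 - c22) ^ 2 + (c12 + c21) ^ 2 ≤ (1 - (c11 * c22 - c12 * c21)) ^ 2)
    (hdet : c11 * c22 - c12 * c21 ≤ 1) (hc1 : c11 ^ 2 + c21 ^ 2 ≤ 1) (hc2 : c12 ^ 2 + c22 ^ 2 ≤ 1)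
    (ww d2 : ℝ)
    (hww : ww = 2 * ((c11 - c22) * (T * e1 - t * f1) + (c12 + c21) * (T * e2 - t * f2)))
    (hd2 : d2 = 2 * (T ^ 2 + q ^ 2) + 2 * (t ^ 2 + p ^ 2) -
      2 * ((c11 + c22) * (T * t + f1 * e1 + f2 * e2) + (c21 - c12) * (f2 * e1 - f1 * e2) +
        (c11 - c22) * (T * e1 + t * f1) + (c12 + c21) * (T * e2 + t * f2))) :
    0 ≤ ww + 2 * (t ^ 2 - p ^ 2) * (1 - (c11 * c22 - c12 * c21)) ∧
      4 * ww ^ 2 ≤ 3 * (T ^ 2 - q ^ 2) * d2 := by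
  obtain ⟨B, hB0, hB⟩ : ∃ B : ℝ, 0 ≤ B ∧ 4 * B ^ 2 = (c11 - c22) ^ 2 + (c12 + c21) ^ 2 := by
    refine ⟨Real.sqrt ((c11 - c22) ^ 2 + (c12 + c21) ^ 2) / 2, by positivity, ?_⟩
    rw [div_pow, Real.sq_sqrt (by positivity)]
    ring
  have hdB : 2 * B ≤ 1 - (c11 * c22 - c12 * c21) := by
    by_contra hcon
    push Not at hcon
    nlinarith
  have hB1 : B ≤ 1 := by
    have : 4 * B ^ 2 ≤ 4 := by
      nlinarith [sq_nonneg (c11 + c22), sq_nonneg (c21 - c12)]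
    nlinarith
  -- the conformal part
  have hal : (c11 + c22) ^ 2 + (c21 - c12) ^ 2 ≤ (2 * (1 - B)) ^ 2 := by
    nlinarith
  have hTq : 0 ≤ T * t + q * p := by nlinarith
  have hTp : 0 ≤ T * p + t * q := by nlinarith
  have hqp : f1 * e1 + f2 * e2 ≤ q * p := v2_cs f1 f2 e1 e2 q p hq hp hq2.ge hp2.ge
  have hTt : 0 ≤ T * t := by nlinarith
  have h1 : (c11 + c22) * (T * t + f1 * e1 + f2 * e2) + (c21 - c12) * (f2 * e1 - f1 * e2) ≤
      2 * (1 - B) * (T * t + q * p) := by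
    apply v2_cs _ _ _ _ _ _ (by linarith) hTq hal
    have : (T * t + f1 * e1 + f2 * e2) ^ 2 + (f2 * e1 - f1 * e2) ^ 2 =
        (T * t) ^ 2 + 2 * (T * t) * (f1 * e1 + f2 * e2) + (f1 ^ 2 + f2 ^ 2) * (e1 ^ 2 + e2 ^ 2) := by
      ring
    rw [this, ← hq2, ← hp2]
    nlinarith
  have hBB : (c11 - c22) ^ 2 + (c12 + c21) ^ 2 ≤ (2 * B) ^ 2 := by nlinarith
  have h2 : (c11 - c22) * (T * e1 + t * f1) + (c12 + c21) * (T * e2 + t * f2) ≤
      2 * B * (T * p + t * q) := by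
    apply v2_cs _ _ _ _ _ _ (by linarith) hTp hBB
    have : (T * e1 + t * f1) ^ 2 + (T * e2 + t * f2) ^ 2 =
        T ^ 2 * (e1 ^ 2 + e2 ^ 2) + 2 * (T * t) * (f1 * e1 + f2 * e2) +
          t ^ 2 * (f1 ^ 2 + f2 ^ 2) := by ring
    rw [this, ← hq2, ← hp2]
    nlinarith
  have hneg : -(q * p) ≤ f1 * e1 + f2 * e2 := by
    have := v2_cs f1 f2 (-e1) (-e2) q p hq hp hq2.ge (by rw [neg_sq, neg_sq]; exact hp2.ge)
    linarith
  have hkap : (T * e1 - t * f1) ^ 2 + (T * e2 - t * f2) ^ 2 ≤ (T * p + t * q) ^ 2 := by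
    have : (T * e1 - t * f1) ^ 2 + (T * e2 - t * f2) ^ 2 =
        T ^ 2 * (e1 ^ 2 + e2 ^ 2) - 2 * (T * t) * (f1 * e1 + f2 * e2) +
          t ^ 2 * (f1 ^ 2 + f2 ^ 2) := by ring
    rw [this, ← hq2, ← hp2]
    nlinarith
  have h3 : (c11 - c22) * (T * e1 - t * f1) + (c12 + c21) * (T * e2 - t * f2) ≤
      2 * B * (T * p + t * q) := v2_cs (c11 - c22) (c12 + c21) (T * e1 - t * f1)
        (T * e2 - t * f2) (2 * B) (T * p + t * q) (by linarith) hTp hBB hkap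
  have h4 : -(2 * B * (T * p + t * q)) ≤
      (c11 - c22) * (T * e1 - t * f1) + (c12 + c21) * (T * e2 - t * f2) := by
    have := v2_cs (-(c11 - c22)) (-(c12 + c21)) (T * e1 - t * f1) (T * e2 - t * f2) (2 * B)
      (T * p + t * q) (by linarith) hTp (by rw [neg_sq, neg_sq]; exact hBB) hkap
    linarith
  have hd : 4 * B * ((T - q) * (t - p)) ≤ d2 := by
    have hid : 2 * (T ^ 2 + q ^ 2) + 2 * (t ^ 2 + p ^ 2) - 2 * (2 * (1 - B) * (T * t + q * p) +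
        2 * B * (T * p + t * q)) =
        2 * (T - t) ^ 2 + 2 * (q - p) ^ 2 + 4 * B * ((T - q) * (t - p)) := by ring
    have h7 := sq_nonneg (T - t)
    have h8 := sq_nonneg (q - p)
    rw [hd2]
    linarith
  have hsv := v2_sv (T + q) (T - q) (t + p) (t - p) hT1 (by linarith) hT2 ht1 (by linarith) ht2
  have hww2 : ww ^ 2 ≤ 16 * B ^ 2 * (T * p + t * q) ^ 2 := by
    have hu : ww ≤ 4 * B * (T * p + t * q) := by rw [hww]; linarith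
    have hl : -(4 * B * (T * p + t * q)) ≤ ww := by rw [hww]; linarith
    calc ww ^ 2 ≤ (4 * B * (T * p + t * q)) ^ 2 := sq_le_sq' hl hu
      _ = 16 * B ^ 2 * (T * p + t * q) ^ 2 := by ring
  refine ⟨?_, ?_⟩
  · have hl : -(4 * B * (T * p + t * q)) ≤ ww := by rw [hww]; linarith
    have hJ : 1 ≤ (t - p) * (t + p) := one_le_mul_of_one_le_of_one_le ht1 (by linarith)
    have hx : (T + q) * (t + p) ≤ 2 := by
      have h9 := sq_nonneg ((T + q) - (t + p))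
      have h10 : (T + q - (t + p)) ^ 2 = (T + q) ^ 2 + (t + p) ^ 2 - 2 * ((T + q) * (t + p)) := by
        ring
      linarith
    have hy : 1 ≤ (T - q) * (t - p) := one_le_mul_of_one_le_of_one_le hT1 ht1
    have hs : T * p + t * q ≤ 1 / 2 := by
      have h11 : 2 * (T * p + t * q) = (T + q) * (t + p) - (T - q) * (t - p) := by ring
      linarith
    have h12 : 4 * B * (T * p + t * q) ≤ 4 * B * (1 / 2) :=
      mul_le_mul_of_nonneg_left hs (by linarith)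
    have h13 : 2 * (2 * B) ≤ 2 * (1 - (c11 * c22 - c12 * c21)) := by linarith
    have h14 : 2 * (1 - (c11 * c22 - c12 * c21)) * 1 ≤
        2 * (1 - (c11 * c22 - c12 * c21)) * ((t - p) * (t + p)) :=
      mul_le_mul_of_nonneg_left hJ (by linarith)
    have h15 : 2 * (t ^ 2 - p ^ 2) * (1 - (c11 * c22 - c12 * c21)) =
        2 * (1 - (c11 * c22 - c12 * c21)) * ((t - p) * (t + p)) := by ring
    rw [h15]
    linarith
  · have e1' : 4 * (T * p + t * q) ^ 2 = ((T + q) * (t + p) - (T - q) * (t - p)) ^ 2 := by ring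
    have hB2 : B ^ 2 ≤ B := by
      have := mul_le_mul_of_nonneg_left hB1 hB0
      calc B ^ 2 = B * B := by ring
        _ ≤ B := by linarith
    have hBt : B ^ 2 * (T * p + t * q) ^ 2 ≤ B * (T * p + t * q) ^ 2 :=
      mul_le_mul_of_nonneg_right hB2 (sq_nonneg _)
    have hJ0 : 0 ≤ T ^ 2 - q ^ 2 := by
      have : T ^ 2 - q ^ 2 = (T - q) * (T + q) := by ring
      rw [this]
      exact mul_nonneg (by linarith) (by linarith)
    have h5 : 3 * (T ^ 2 - q ^ 2) * (4 * B * ((T - q) * (t - p))) ≤ 3 * (T ^ 2 - q ^ 2) * d2 :=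
      mul_le_mul_of_nonneg_left hd (by linarith)
    have h6 : 16 * B * (4 * (T * p + t * q) ^ 2) ≤
        16 * B * (3 / 4 * ((T + q) * (T - q)) * ((T - q) * (t - p))) := by
      rw [e1']
      exact mul_le_mul_of_nonneg_left hsv (by linarith)
    have h7 : 16 * B * (3 / 4 * ((T + q) * (T - q)) * ((T - q) * (t - p))) =
        3 * (T ^ 2 - q ^ 2) * (4 * B * ((T - q) * (t - p))) := by ring
    have h8 : 4 * ww ^ 2 ≤ 16 * B * (4 * (T * p + t * q) ^ 2) := by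
      calc 4 * ww ^ 2 ≤ 4 * (16 * B ^ 2 * (T * p + t * q) ^ 2) :=
            mul_le_mul_of_nonneg_left hww2 (by norm_num)
        _ = 64 * (B ^ 2 * (T * p + t * q) ^ 2) := by ring
        _ ≤ 64 * (B * (T * p + t * q) ^ 2) := mul_le_mul_of_nonneg_left hBt (by norm_num)
        _ = 16 * B * (4 * (T * p + t * q) ^ 2) := by ring
    linarith

end Pool.Agent.SLG
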