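import Pool.Agent.SLG.V2

/-!
V3: the tilt estimates for two matrices whose singular values lie between `1` and `√2`.
-/

namespace Pool.Agent.SLG

/-- Bounds for the Gram matrix: its eigenvalues lie between `1` and `2`. -/
def GB (a b c : ℝ) : Prop :=
  1 ≤ (a + c) / 2 ∧ (a + c) / 2 ≤ 2 ∧ ((a - c) / 2) ^ 2 + b ^ 2 ≤ ((a + c) / 2 - 1) ^ 2 ∧
    ((a - c) / 2) ^ 2 + b ^ 2 ≤ (2 - (a + c) / 2) ^ 2

/-- Polar data. -/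
theorem v3_polar {n : ℕ} (X1 X2 : Fin n → ℝ) (J : ℝ) (hJ : 0 < J)
    (hJ2 : J ^ 2 = dt X1 X1 * dt X2 X2 - dt X1 X2 ^ 2)
    (hG : GB (dt X1 X1) (dt X1 X2) (dt X2 X2)) :
    ∃ (U1 U2 : Fin n → ℝ) (t e1 e2 p : ℝ), 0 ≤ p ∧ p ^ 2 = e1 ^ 2 + e2 ^ 2 ∧ t ^ 2 - p ^ 2 = J ∧
      1 ≤ t - p ∧ (t + p) ^ 2 ≤ 2 ∧
      dt U1 U1 = 1 ∧ dt U2 U2 = 1 ∧ dt U1 U2 = 0 ∧
      X1 = (fun i => (t + e1) * U1 i + e2 * U2 i) ∧
      X2 = (fun i => e2 * U1 i + (t - e1) * U2 i) ∧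
      dt X1 X1 = (t + e1) ^ 2 + e2 ^ 2 ∧ dt X1 X2 = 2 * t * e2 ∧
      dt X2 X2 = (t - e1) ^ 2 + e2 ^ 2 := by
  obtain ⟨U1, U2, t, e1, e2, ht, hdet, h11, h22, h12, hX1, hX2⟩ := polar X1 X2 J hJ hJ2
  have h21 : dt U2 U1 = 0 := by rw [dt_comm]; exact h12
  have g11 : dt X1 X1 = (t + e1) ^ 2 + e2 ^ 2 := by
    rw [hX1, dt_comb, h11, h12, h21, h22]
    ring
  have g12 : dt X1 X2 = 2 * t * e2 := by
    rw [hX1, hX2, dt_comb, h11, h12, h21, h22]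
    ring
  have g22 : dt X2 X2 = (t - e1) ^ 2 + e2 ^ 2 := by
    rw [hX2, dt_comb, h11, h12, h21, h22]
    ring
  obtain ⟨p, hp0, hp⟩ : ∃ p : ℝ, 0 ≤ p ∧ p ^ 2 = e1 ^ 2 + e2 ^ 2 :=
    ⟨Real.sqrt (e1 ^ 2 + e2 ^ 2), Real.sqrt_nonneg _, Real.sq_sqrt (by positivity)⟩
  rw [g11, g12, g22] at hG
  obtain ⟨k1, k2, k3, k4⟩ := hG
  have hu : ((t + e1) ^ 2 + e2 ^ 2 + ((t - e1) ^ 2 + e2 ^ 2)) / 2 = t ^ 2 + p ^ 2 := by
    rw [hp]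
    ring
  have hs : (((t + e1) ^ 2 + e2 ^ 2 - ((t - e1) ^ 2 + e2 ^ 2)) / 2) ^ 2 + (2 * t * e2) ^ 2 =
      (2 * t * p) ^ 2 := by
    have : (2 * t * p) ^ 2 = 4 * t ^ 2 * p ^ 2 := by ring
    rw [this, hp]
    ring
  rw [hu] at k1 k2 k3 k4
  rw [hs] at k3 k4
  have htp : 0 ≤ 2 * t * p := by positivity
  have m1 : 2 * t * p ≤ t ^ 2 + p ^ 2 - 1 := by
    have := abs_le_of_sq_le_sq' k3 (by linarith)
    exact this.2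
  have m2 : 2 * t * p ≤ 2 - (t ^ 2 + p ^ 2) := by
    have := abs_le_of_sq_le_sq' k4 (by linarith)
    exact this.2
  have hpos : 0 < t - p := by
    have h1 : 0 < t ^ 2 - p ^ 2 := by
      rw [hp]
      linarith
    have h2 : t ^ 2 - p ^ 2 = (t - p) * (t + p) := by ring
    rw [h2] at h1
    exact pos_of_mul_pos_left h1 (by positivity)
  refine ⟨U1, U2, t, e1, e2, p, hp0, hp, by rw [hp]; linarith, ?_, ?_, h11, h22, h12, hX1, hX2,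
    g11, g12, g22⟩
  · have : 1 ^ 2 ≤ (t - p) ^ 2 := by
      have : (t - p) ^ 2 = t ^ 2 + p ^ 2 - 2 * t * p := by ring
      linarith
    exact le_of_sq_le_sq this hpos.le
  · have : (t + p) ^ 2 = t ^ 2 + p ^ 2 + 2 * t * p := by ring
    linarith

/-- The tilt estimates in vector form. -/
theorem v3_tilt {n : ℕ} (A1 A2 X1 X2 : Fin n → ℝ) (J0 J : ℝ) (hJ0 : 0 < J0) (hJ : 0 < J)
    (hJ02 : J0 ^ 2 = dt A1 A1 * dt A2 A2 - dt A1 A2 ^ 2)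
    (hJ2 : J ^ 2 = dt X1 X1 * dt X2 X2 - dt X1 X2 ^ 2)
    (hA : GB (dt A1 A1) (dt A1 A2) (dt A2 A2)) (hX : GB (dt X1 X1) (dt X1 X2) (dt X2 X2))
    (w w' mu d2 : ℝ)
    (hw : w = (dt A2 A2 * dt A1 X1 - dt A1 A2 * dt A2 X1 + dt A1 A1 * dt A2 X2
      - dt A1 A2 * dt A1 X2) / J0)
    (hw' : w' = (dt X2 X2 * dt A1 X1 - dt X1 X2 * dt A1 X2 + dt X1 X1 * dt A2 X2
      - dt X1 X2 * dt A2 X1) / J)
    (hmu : mu = (dt A1 X1 * dt A2 X2 - dt A1 X2 * dt A2 X1) / J0)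
    (hd2 : d2 = dt A1 A1 + dt A2 A2 + dt X1 X1 + dt X2 X2 - 2 * (dt A1 X1 + dt A2 X2)) :
    0 ≤ w - w' + 2 * (J - mu) ∧ 4 * (w - w') ^ 2 ≤ 3 * J0 * d2 ∧ mu ≤ J := by
  obtain ⟨U1, U2, T, f1, f2, q, hq0, hq, hTq, hT1, hT2, u11, u22, u12, rfl, rfl, ga1, ga2, ga3⟩ :=
    v3_polar A1 A2 J0 hJ0 hJ02 hA
  obtain ⟨V1, V2, t, e1, e2, p, hp0, hp, htp, ht1, ht2, v11, v22, v12, rfl, rfl, gx1, gx2, gx3⟩ :=
    v3_polar X1 X2 J hJ hJ2 hX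
  obtain ⟨k1, k2, k3, k4⟩ := on_contract U1 U2 V1 V2 u11 u22 u12 v11 v22 v12
  have b11 := dt_comb U1 U2 V1 V2 (T + f1) f2 (t + e1) e2
  have b12 := dt_comb U1 U2 V1 V2 (T + f1) f2 e2 (t - e1)
  have b21 := dt_comb U1 U2 V1 V2 f2 (T - f1) (t + e1) e2
  have b22 := dt_comb U1 U2 V1 V2 f2 (T - f1) e2 (t - e1)
  rw [ga1, ga2, ga3, b11, b12, b21, b22] at hw
  rw [gx1, gx2, gx3, b11, b12, b21, b22] at hw'
  rw [b11, b12, b21, b22] at hmu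
  rw [ga1, ga3, gx1, gx3, b11, b22] at hd2
  generalize dt U1 V1 = c11 at *
  generalize dt U1 V2 = c12 at *
  generalize dt U2 V1 = c21 at *
  generalize dt U2 V2 = c22 at *
  have hJ0e : J0 = T ^ 2 - f1 ^ 2 - f2 ^ 2 := by rw [← hTq, hq]; ring
  have hJe : J = t ^ 2 - e1 ^ 2 - e2 ^ 2 := by rw [← htp, hp]; ring
  have hw2 : w = (T - f1) * (t + e1) * c11 + (T - f1) * e2 * c12 - f2 * (t + e1) * c21
      - f2 * e2 * c22 - f2 * e2 * c11 - f2 * (t - e1) * c12 + (T + f1) * e2 * c21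
      + (T + f1) * (t - e1) * c22 := by
    rw [hw, div_eq_iff hJ0.ne', hJ0e]
    ring
  have hw2' : w' = (T + f1) * (t - e1) * c11 - (T + f1) * e2 * c12 + f2 * (t - e1) * c21
      - f2 * e2 * c22 - f2 * e2 * c11 + f2 * (t + e1) * c12 - (T - f1) * e2 * c21
      + (T - f1) * (t + e1) * c22 := by
    rw [hw', div_eq_iff hJ.ne', hJe]
    ring
  have hmu2 : mu = J * (c11 * c22 - c12 * c21) := by
    rw [hmu, div_eq_iff hJ0.ne', hJ0e, hJe]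
    ring
  have hkey := v2_tilt T f1 f2 t e1 e2 c11 c12 c21 c22 q p hq0 hp0 hq hp hT1 hT2 ht1 ht2 k1 k2
    k3 k4 (w - w') d2 (by rw [hw2, hw2']; ring) (by rw [hd2, hq, hp]; ring)
  rw [htp, hTq] at hkey
  refine ⟨?_, hkey.2, ?_⟩
  · rw [hmu2]
    have := hkey.1
    linarith
  · rw [hmu2]
    nlinarith

end Pool.Agent.SLG
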