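import Pool.Agent.SLG.V3

/-!
V4: the estimates which use only the Cauchy-Schwarz inequality.
-/

namespace Pool.Agent.SLG

theorem dt_cs2 {n : ℕ} (a1 a2 b1 b2 : Fin n → ℝ) :
    (dt a1 b1 + dt a2 b2) ^ 2 ≤ (dt a1 a1 + dt a2 a2) * (dt b1 b1 + dt b2 b2) := by
  have h := Finset.sum_mul_sq_le_sq_mul_sq (Finset.univ : Finset (Fin n ⊕ Fin n))
    (Sum.elim a1 a2) (Sum.elim b1 b2)
  simp only [Fintype.sum_sum_type, Sum.elim_inl, Sum.elim_inr] at h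
  have h1 : ∀ c : Fin n → ℝ, dt c c = ∑ i, c i ^ 2 := fun c => by
    unfold dt
    exact Finset.sum_congr rfl fun i _ => by ring
  rw [h1 a1, h1 a2, h1 b1, h1 b2]
  exact h

theorem dt_l {n : ℕ} (a b c : Fin n → ℝ) (p q : ℝ) :
    dt (fun i => p * a i + q * b i) c = p * dt a c + q * dt b c := by
  unfold dt
  simp only [Finset.mul_sum, ← Finset.sum_add_distrib]
  exact Finset.sum_congr rfl fun i _ => by ring

theorem dt_r {n : ℕ} (a b c : Fin n → ℝ) (p q : ℝ) :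
    dt c (fun i => p * a i + q * b i) = p * dt c a + q * dt c b := by
  rw [dt_comm, dt_l, dt_comm a, dt_comm b]

/-- The estimate of `w` if `w ≤ 0`. -/
theorem v4_w {n : ℕ} (A1 A2 X1 X2 : Fin n → ℝ) (J0 : ℝ) (hJ0 : 0 < J0)
    (hJ02 : J0 ^ 2 = dt A1 A1 * dt A2 A2 - dt A1 A2 ^ 2)
    (hA : GB (dt A1 A1) (dt A1 A2) (dt A2 A2)) (hX : GB (dt X1 X1) (dt X1 X2) (dt X2 X2))
    (w d2 : ℝ)
    (hw : w = (dt A2 A2 * dt A1 X1 - dt A1 A2 * dt A2 X1 + dt A1 A1 * dt A2 X2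
      - dt A1 A2 * dt A1 X2) / J0)
    (hd2 : d2 = dt A1 A1 + dt A2 A2 + dt X1 X1 + dt X2 X2 - 2 * (dt A1 X1 + dt A2 X2))
    (hw0 : w ≤ 0) : J0 * w ^ 2 ≤ (dt A1 A1 + dt A2 A2) / 2 * d2 := by
  have c21 : dt A2 A1 = dt A1 A2 := dt_comm _ _
  have cx1 : dt X1 A1 = dt A1 X1 := dt_comm _ _
  have cx2 : dt X2 A2 = dt A2 X2 := dt_comm _ _
  -- the matrix N
  set N1 : Fin n → ℝ := fun i => (dt A2 A2 / J0) * A1 i + (-dt A1 A2 / J0) * A2 i with hN1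
  set N2 : Fin n → ℝ := fun i => (-dt A1 A2 / J0) * A1 i + (dt A1 A1 / J0) * A2 i with hN2
  set D1 : Fin n → ℝ := fun i => 1 * X1 i + (-1) * A1 i with hD1
  set D2 : Fin n → ℝ := fun i => 1 * X2 i + (-1) * A2 i with hD2
  have n11 : dt N1 N1 = dt A2 A2 := by
    rw [hN1, dt_comb, c21]
    field_simp
    rw [hJ02]
    ring
  have n22 : dt N2 N2 = dt A1 A1 := by
    rw [hN2, dt_comb, c21]
    field_simp
    rw [hJ02]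
    ring
  have nx : dt N1 X1 + dt N2 X2 = w := by
    rw [hN1, hN2, dt_l, dt_l, hw]
    field_simp
    ring
  have na : dt N1 A1 + dt N2 A2 = 2 * J0 := by
    rw [hN1, hN2, dt_l, dt_l, c21]
    field_simp
    rw [hJ02]
    ring
  have nd : dt N1 D1 + dt N2 D2 = w - 2 * J0 := by
    rw [hD1, hD2, dt_r, dt_r]
    linarith
  have dd : dt D1 D1 + dt D2 D2 = d2 := by
    rw [hD1, hD2, dt_comb, dt_comb, hd2, cx1, cx2]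
    ring
  have h1 := dt_cs2 N1 N2 D1 D2
  have h2 := dt_cs2 N1 N2 X1 X2
  rw [n11, n22, nd, dd] at h1
  rw [n11, n22, nx] at h2
  obtain ⟨a1, a2, -, -⟩ := hA
  obtain ⟨x1, x2, -, -⟩ := hX
  generalize dt A1 A1 = a11 at *
  generalize dt A2 A2 = a22 at *
  generalize dt X1 X1 = x11 at *
  generalize dt X2 X2 = x22 at *
  have h3 : w ^ 2 ≤ 16 := by nlinarith
  have h4 : -4 ≤ w := by nlinarith
  have h5 : J0 * w ^ 2 ≤ J0 * (-4 * w) := by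
    apply mul_le_mul_of_nonneg_left _ hJ0.le
    nlinarith
  have h6 : 2 * (J0 * (-4 * w)) ≤ (w - 2 * J0) ^ 2 := by nlinarith [sq_nonneg (w + 2 * J0)]
  nlinarith

theorem v4_q0r (u0 s1 s2 J0 x1 x2 d2 F E G1 G2 : ℝ) (hJ0 : 0 < J0)
    (hJ02 : J0 ^ 2 = u0 ^ 2 - (s1 ^ 2 + s2 ^ 2)) (h1 : 1 ≤ u0)
    (h3 : s1 ^ 2 + s2 ^ 2 ≤ (u0 - 1) ^ 2) (h4 : s1 ^ 2 + s2 ^ 2 ≤ (2 - u0) ^ 2)
    (h2 : u0 ≤ 2)
    (y1 y2 : ℝ) (hy : y1 ^ 2 + y2 ^ 2 ≤ 1 / 4) (hx1 : x1 = y1 - s1) (hx2 : x2 = y2 - s2)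
    (hd2 : 0 ≤ d2) (hG : G1 ^ 2 + G2 ^ 2 ≤ (d2 / 2) ^ 2) (hF : F ^ 2 + E ^ 2 ≤ 2 * u0 * d2) :
    1 / 2 * J0 ^ 2 * d2 ≤ J0 ^ 2 * d2 + (u0 * (x1 ^ 2 + x2 ^ 2) - u0 * (G1 * x1 + G2 * x2)
      - F * (s1 * x1 + s2 * x2) + E * (s2 * x1 - s1 * x2)) - 1 / 2 * J0 * (x1 ^ 2 + x2 ^ 2) := by
  obtain ⟨x, hx0, hx⟩ : ∃ x : ℝ, 0 ≤ x ∧ x ^ 2 = x1 ^ 2 + x2 ^ 2 :=
    ⟨Real.sqrt (x1 ^ 2 + x2 ^ 2), Real.sqrt_nonneg _, Real.sq_sqrt (by positivity)⟩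
  obtain ⟨σ, hσ0, hσ⟩ : ∃ x : ℝ, 0 ≤ x ∧ x ^ 2 = s1 ^ 2 + s2 ^ 2 :=
    ⟨Real.sqrt (s1 ^ 2 + s2 ^ 2), Real.sqrt_nonneg _, Real.sq_sqrt (by positivity)⟩
  obtain ⟨r, hr0, hr⟩ : ∃ x : ℝ, 0 ≤ x ∧ x ^ 2 = 2 * u0 * d2 :=
    ⟨Real.sqrt (2 * u0 * d2), Real.sqrt_nonneg _, Real.sq_sqrt (by positivity)⟩
  have hσ1 : σ ≤ u0 - 1 := by
    rw [← hσ] at h3
    exact (abs_le_of_sq_le_sq' h3 (by linarith)).2
  have hσ2 : σ ≤ 2 - u0 := by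
    rw [← hσ] at h4
    exact (abs_le_of_sq_le_sq' h4 (by linarith)).2
  have hJu : J0 ≤ u0 := by
    have : J0 ^ 2 ≤ u0 ^ 2 := by
      rw [hJ02]
      have := sq_nonneg s1
      have := sq_nonneg s2
      linarith
    exact (abs_le_of_sq_le_sq' this (by linarith)).2
  -- bound for x
  have hxs : x ≤ 1 / 2 + σ := by
    have hys : y1 * (-s1) + y2 * (-s2) ≤ 1 / 2 * σ :=
      v2_cs y1 y2 (-s1) (-s2) (1 / 2) σ (by norm_num) hσ0 (by linarith) (by rw [hσ]; linarith [neg_sq s1, neg_sq s2])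
    have : x ^ 2 ≤ (1 / 2 + σ) ^ 2 := by
      rw [hx, hx1, hx2]
      have e : (y1 - s1) ^ 2 + (y2 - s2) ^ 2 =
          (y1 ^ 2 + y2 ^ 2) + (s1 ^ 2 + s2 ^ 2) + 2 * (y1 * (-s1) + y2 * (-s2)) := by ring
      rw [e, ← hσ]
      linarith
    exact (abs_le_of_sq_le_sq' this (by linarith)).2
  have t1 : G1 * x1 + G2 * x2 ≤ d2 / 2 * x :=
    v2_cs G1 G2 x1 x2 (d2 / 2) x (by linarith) hx0 hG (by rw [hx])
  have t2 : F * (s1 * x1 + s2 * x2) + (-E) * (s2 * x1 - s1 * x2) ≤ r * (σ * x) := by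
    apply v2_cs F (-E) _ _ r (σ * x) hr0 (by positivity)
    · rw [hr]
      linarith [neg_sq E]
    · have : (σ * x) ^ 2 = (s1 ^ 2 + s2 ^ 2) * (x1 ^ 2 + x2 ^ 2) := by
        rw [mul_pow, hx, hσ]
      rw [this]
      apply le_of_eq
      ring
  have t3 : r * (σ * x) ≤ 1 / 2 * u0 * x ^ 2 + σ ^ 2 * d2 := by
    have hu : 0 < u0 := by linarith
    have h5 : 2 * u0 * (r * (σ * x)) ≤ 2 * u0 * (1 / 2 * u0 * x ^ 2 + σ ^ 2 * d2) := by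
      have h6 := sq_nonneg (u0 * x - r * σ)
      have h7 : (u0 * x - r * σ) ^ 2 = u0 ^ 2 * x ^ 2 - 2 * u0 * (r * (σ * x)) + r ^ 2 * σ ^ 2 := by
        ring
      rw [hr] at h7
      rw [h7] at h6
      linarith
    exact le_of_mul_le_mul_left h5 (by linarith)
  have t4 : d2 / 2 * x ≤ d2 / 2 * (1 / 2 + σ) := mul_le_mul_of_nonneg_left hxs (by linarith)
  have t5 : u0 * (G1 * x1 + G2 * x2) ≤ u0 * (d2 / 2 * (1 / 2 + σ)) :=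
    mul_le_mul_of_nonneg_left (t1.trans t4) (by linarith)
  have t6 : 1 / 2 * J0 * x ^ 2 ≤ 1 / 2 * u0 * x ^ 2 := by
    apply mul_le_mul_of_nonneg_right _ (sq_nonneg x)
    linarith
  have t7 : 0 ≤ u0 ^ 2 - 3 * σ ^ 2 - u0 / 2 - u0 * σ := by nlinarith
  have t8 : 0 ≤ d2 * (1 / 2 * (u0 ^ 2 - 3 * σ ^ 2 - u0 / 2 - u0 * σ)) := by positivity
  have hJ03 : J0 ^ 2 = u0 ^ 2 - σ ^ 2 := by rw [hJ02, hσ]
  rw [← hx]
  have t9 : J0 ^ 2 * d2 = (u0 ^ 2 - σ ^ 2) * d2 := by rw [hJ03]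
  have t10 : 1 / 2 * J0 ^ 2 * d2 = 1 / 2 * ((u0 ^ 2 - σ ^ 2) * d2) := by rw [← t9]; ring
  rw [t10, t9]
  linarith

/-- The quadratic part is at least half the squared distance. -/
theorem v4_q0 {n : ℕ} (A1 A2 X1 X2 : Fin n → ℝ) (J0 : ℝ) (hJ0 : 0 < J0)
    (hJ02 : J0 ^ 2 = dt A1 A1 * dt A2 A2 - dt A1 A2 ^ 2)
    (hA : GB (dt A1 A1) (dt A1 A2) (dt A2 A2)) (hX : GB (dt X1 X1) (dt X1 X2) (dt X2 X2))
    (d2 x1 x2 DS : ℝ)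
    (hd2 : d2 = dt A1 A1 + dt A2 A2 + dt X1 X1 + dt X2 X2 - 2 * (dt A1 X1 + dt A2 X2))
    (hx1 : x1 = (dt X1 X1 - dt X2 X2) / 2 - (dt A1 A1 - dt A2 A2) / 2)
    (hx2 : x2 = dt X1 X2 - dt A1 A2)
    (hDS : DS = (x1 * (dt A2 A2 * dt A1 X1 - dt A1 A2 * dt A2 X1 + dt A1 A2 * dt A1 X2
        - dt A1 A1 * dt A2 X2)
      + x2 * (dt A2 A2 * dt A1 X2 - dt A1 A2 * dt A2 X2 - dt A1 A2 * dt A1 X1
        + dt A1 A1 * dt A2 X1)) / J0 ^ 2) :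
    1 / 2 * d2 ≤ d2 + DS - (x1 ^ 2 + x2 ^ 2) / (2 * J0) := by
  have c21 : dt A2 A1 = dt A1 A2 := dt_comm _ _
  have cx1 : dt X1 A1 = dt A1 X1 := dt_comm _ _
  have cx2 : dt X2 A2 = dt A2 X2 := dt_comm _ _
  have cx3 : dt X1 A2 = dt A2 X1 := dt_comm _ _
  have cx4 : dt X2 A1 = dt A1 X2 := dt_comm _ _
  obtain ⟨D1, hD1⟩ : ∃ D : Fin n → ℝ, D = fun i => 1 * X1 i + (-1) * A1 i := ⟨_, rfl⟩
  obtain ⟨D2, hD2⟩ : ∃ D : Fin n → ℝ, D = fun i => 1 * X2 i + (-1) * A2 i := ⟨_, rfl⟩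
  have g11 : dt D1 D1 = dt X1 X1 - 2 * dt A1 X1 + dt A1 A1 := by
    rw [hD1, dt_comb, cx1]
    ring
  have g22 : dt D2 D2 = dt X2 X2 - 2 * dt A2 X2 + dt A2 A2 := by
    rw [hD2, dt_comb, cx2]
    ring
  have g12 : dt D1 D2 = dt X1 X2 - dt A2 X1 - dt A1 X2 + dt A1 A2 := by
    rw [hD1, hD2, dt_comb, cx3]
    ring
  have hcs := dt_cs D1 D2
  have p1 := dt_self_nonneg D1
  have p2 := dt_self_nonneg D2
  -- the second estimate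
  set F := dt A1 X1 - dt A1 A1 + (dt A2 X2 - dt A2 A2) with hF
  set E := dt A1 X2 - dt A1 A2 - (dt A2 X1 - dt A1 A2) with hE
  have f1 : dt A1 D1 = dt A1 X1 - dt A1 A1 := by rw [hD1, dt_r]; ring
  have f2 : dt A2 D2 = dt A2 X2 - dt A2 A2 := by rw [hD2, dt_r]; ring
  have f3 : dt A1 D2 = dt A1 X2 - dt A1 A2 := by rw [hD2, dt_r]; ring
  have f4 : dt A2 D1 = dt A2 X1 - dt A1 A2 := by rw [hD1, dt_r, c21]; ring
  have hFE : F ^ 2 + E ^ 2 ≤ (dt A1 A1 + dt A2 A2) * d2 := by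
    have h := dt_cs2 A1 A2 (fun i => F * D1 i + E * D2 i) (fun i => F * D2 i + (-E) * D1 i)
    have c12 : dt D2 D1 = dt D1 D2 := dt_comm _ _
    rw [dt_r, dt_r, dt_comb, dt_comb, f1, f2, f3, f4, c12] at h
    have e1 : F * (dt A1 X1 - dt A1 A1) + E * (dt A1 X2 - dt A1 A2) +
        (F * (dt A2 X2 - dt A2 A2) + -E * (dt A2 X1 - dt A1 A2)) = F ^ 2 + E ^ 2 := by
      rw [hF, hE]
      ring
    have e2 : F * F * dt D1 D1 + F * E * dt D1 D2 + E * F * dt D1 D2 + E * E * dt D2 D2 +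
        (F * F * dt D2 D2 + F * -E * dt D1 D2 + -E * F * dt D1 D2 + -E * -E * dt D1 D1) =
        (F ^ 2 + E ^ 2) * (dt D1 D1 + dt D2 D2) := by ring
    rw [e1, e2] at h
    have e3 : dt D1 D1 + dt D2 D2 = d2 := by
      rw [g11, g22, hd2]
      ring
    rw [e3] at h
    by_cases h0 : F ^ 2 + E ^ 2 = 0
    · rw [h0]
      have h1 : 0 ≤ d2 := by rw [← e3]; linarith
      exact mul_nonneg (add_nonneg (dt_self_nonneg _) (dt_self_nonneg _)) h1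
    · have hpos : 0 < F ^ 2 + E ^ 2 := lt_of_le_of_ne (by positivity) (Ne.symm h0)
      have h2 : (F ^ 2 + E ^ 2) * (F ^ 2 + E ^ 2) ≤
          (F ^ 2 + E ^ 2) * ((dt A1 A1 + dt A2 A2) * d2) := by
        calc (F ^ 2 + E ^ 2) * (F ^ 2 + E ^ 2) = (F ^ 2 + E ^ 2) ^ 2 := by ring
          _ ≤ _ := h
          _ = _ := by ring
      exact le_of_mul_le_mul_left h2 hpos
  rw [g11, g22, g12] at hcs
  rw [g11] at p1
  rw [g22] at p2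
  clear f1 f2 f3 f4 g11 g22 g12
  obtain ⟨a1, a2, a3, a4⟩ := hA
  obtain ⟨k1, k2, k3, k4⟩ := hX
  have hkey := v4_q0r ((dt A1 A1 + dt A2 A2) / 2) ((dt A1 A1 - dt A2 A2) / 2) (dt A1 A2) J0 x1 x2
    d2 F E ((dt X1 X1 - 2 * dt A1 X1 + dt A1 A1 - (dt X2 X2 - 2 * dt A2 X2 + dt A2 A2)) / 2)
    (dt X1 X2 - dt A2 X1 - dt A1 X2 + dt A1 A2) hJ0 (by rw [hJ02]; ring) a1 a3 a4 a2
    ((dt X1 X1 - dt X2 X2) / 2) (dt X1 X2) (by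
      by_cases hc : (dt X1 X1 + dt X2 X2) / 2 ≤ 3 / 2
      · have : ((dt X1 X1 + dt X2 X2) / 2 - 1) ^ 2 ≤ 1 / 4 := by nlinarith
        linarith
      · push Not at hc
        have : (2 - (dt X1 X1 + dt X2 X2) / 2) ^ 2 ≤ 1 / 4 := by nlinarith
        linarith) hx1 hx2 (by rw [hd2]; linarith) (by
      rw [hd2]
      nlinarith) (by linarith)
  have hJne : J0 ≠ 0 := hJ0.ne'
  have e4 : J0 ^ 2 * DS = ((dt A1 A1 + dt A2 A2) / 2) * (x1 ^ 2 + x2 ^ 2) -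
      ((dt A1 A1 + dt A2 A2) / 2) * (((dt X1 X1 - 2 * dt A1 X1 + dt A1 A1 -
        (dt X2 X2 - 2 * dt A2 X2 + dt A2 A2)) / 2) * x1 +
        (dt X1 X2 - dt A2 X1 - dt A1 X2 + dt A1 A2) * x2)
      - F * (((dt A1 A1 - dt A2 A2) / 2) * x1 + dt A1 A2 * x2)
      + E * (dt A1 A2 * x1 - ((dt A1 A1 - dt A2 A2) / 2) * x2) := by
    rw [hDS, mul_div_cancel₀ _ (pow_ne_zero 2 hJne), hF, hE, hx1, hx2]
    ring
  rw [← e4] at hkey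
  have e5 : J0 ^ 2 * ((x1 ^ 2 + x2 ^ 2) / (2 * J0)) = 1 / 2 * J0 * (x1 ^ 2 + x2 ^ 2) := by
    field_simp
  have h7 : J0 ^ 2 * (1 / 2 * d2) ≤ J0 ^ 2 * (d2 + DS - (x1 ^ 2 + x2 ^ 2) / (2 * J0)) := by
    have e6 : J0 ^ 2 * (d2 + DS - (x1 ^ 2 + x2 ^ 2) / (2 * J0)) =
      J0 ^ 2 * d2 + J0 ^ 2 * DS - J0 ^ 2 * ((x1 ^ 2 + x2 ^ 2) / (2 * J0)) := by ring
    rw [e6, e5]
    linarith
  exact le_of_mul_le_mul_left h7 (by positivity)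

end Pool.Agent.SLG
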