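import Pool.Agent.SLG.V4

/-!
V5: the estimates at a general scale, and the two-point inequality in scalar form.
-/

namespace Pool.Agent.SLG

/-- Bounds for the Gram matrix: its eigenvalues lie between `k` and `2 k`. -/
def GBk (k a b c : ℝ) : Prop :=
  k ≤ (a + c) / 2 ∧ (a + c) / 2 ≤ 2 * k ∧ ((a - c) / 2) ^ 2 + b ^ 2 ≤ ((a + c) / 2 - k) ^ 2 ∧
    ((a - c) / 2) ^ 2 + b ^ 2 ≤ (2 * k - (a + c) / 2) ^ 2

theorem v5_scale {n : ℕ} (c : ℝ) (a b : Fin n → ℝ) :
    dt (fun i => c * a i) (fun i => c * b i) = c ^ 2 * dt a b := by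
  unfold dt
  rw [Finset.mul_sum]
  exact Finset.sum_congr rfl fun i _ => by ring

theorem v5_gb (k a b c : ℝ) (hk : 0 < k) (h : GBk k a b c) : GB (k⁻¹ * a) (k⁻¹ * b) (k⁻¹ * c) := by
  obtain ⟨h1, h2, h3, h4⟩ := h
  have hk' : 0 < k⁻¹ := inv_pos.2 hk
  have e : k⁻¹ * k = 1 := inv_mul_cancel₀ hk.ne'
  refine ⟨?_, ?_, ?_, ?_⟩
  · have := mul_le_mul_of_nonneg_left h1 hk'.le
    rw [e] at this
    linarith
  · have := mul_le_mul_of_nonneg_left h2 hk'.le
    have e2 : k⁻¹ * (2 * k) = 2 := by rw [mul_left_comm, e]; ring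
    rw [e2] at this
    linarith
  · have := mul_le_mul_of_nonneg_left h3 (sq_nonneg k⁻¹)
    have e3 : (k⁻¹) ^ 2 * ((a + c) / 2 - k) ^ 2 = ((k⁻¹ * a + k⁻¹ * c) / 2 - k⁻¹ * k) ^ 2 := by ring
    rw [e3, e] at this
    have e4 : (k⁻¹) ^ 2 * (((a - c) / 2) ^ 2 + b ^ 2) =
      ((k⁻¹ * a - k⁻¹ * c) / 2) ^ 2 + (k⁻¹ * b) ^ 2 := by ring
    rw [e4] at this
    exact this
  · have := mul_le_mul_of_nonneg_left h4 (sq_nonneg k⁻¹)
    have e3 : (k⁻¹) ^ 2 * (2 * k - (a + c) / 2) ^ 2 =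
      (2 * (k⁻¹ * k) - (k⁻¹ * a + k⁻¹ * c) / 2) ^ 2 := by ring
    rw [e3, e] at this
    have e4 : (k⁻¹) ^ 2 * (((a - c) / 2) ^ 2 + b ^ 2) =
      ((k⁻¹ * a - k⁻¹ * c) / 2) ^ 2 + (k⁻¹ * b) ^ 2 := by ring
    rw [e4] at this
    have e5 : 2 * (1 : ℝ) = 2 := by norm_num
    rw [e5] at this
    exact this

/-- All estimates at scale `k`. -/
theorem v5_facts {n : ℕ} (k : ℝ) (hk : 0 < k) (A1 A2 X1 X2 : Fin n → ℝ) (J0 J : ℝ)
    (hJ0 : 0 < J0) (hJ : 0 < J)
    (hJ02 : J0 ^ 2 = dt A1 A1 * dt A2 A2 - dt A1 A2 ^ 2)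
    (hJ2 : J ^ 2 = dt X1 X1 * dt X2 X2 - dt X1 X2 ^ 2)
    (hA : GBk k (dt A1 A1) (dt A1 A2) (dt A2 A2)) (hX : GBk k (dt X1 X1) (dt X1 X2) (dt X2 X2))
    (w w' mu d2 x1 x2 DS : ℝ)
    (hw : w = (dt A2 A2 * dt A1 X1 - dt A1 A2 * dt A2 X1 + dt A1 A1 * dt A2 X2
      - dt A1 A2 * dt A1 X2) / J0)
    (hw' : w' = (dt X2 X2 * dt A1 X1 - dt X1 X2 * dt A1 X2 + dt X1 X1 * dt A2 X2
      - dt X1 X2 * dt A2 X1) / J)
    (hmu : mu = (dt A1 X1 * dt A2 X2 - dt A1 X2 * dt A2 X1) / J0)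
    (hd2 : d2 = dt A1 A1 + dt A2 A2 + dt X1 X1 + dt X2 X2 - 2 * (dt A1 X1 + dt A2 X2))
    (hx1 : x1 = (dt X1 X1 - dt X2 X2) / 2 - (dt A1 A1 - dt A2 A2) / 2)
    (hx2 : x2 = dt X1 X2 - dt A1 A2)
    (hDS : DS = (x1 * (dt A2 A2 * dt A1 X1 - dt A1 A2 * dt A2 X1 + dt A1 A2 * dt A1 X2
        - dt A1 A1 * dt A2 X2)
      + x2 * (dt A2 A2 * dt A1 X2 - dt A1 A2 * dt A2 X2 - dt A1 A2 * dt A1 X1
        + dt A1 A1 * dt A2 X1)) / J0 ^ 2) :
    0 ≤ w - w' + 2 * (J - mu) ∧ 4 * (w - w') ^ 2 ≤ 3 * J0 * d2 ∧ mu ≤ J ∧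
      (w ≤ 0 → J0 * w ^ 2 ≤ k * ((dt A1 A1 + dt A2 A2) / 2 * d2)) ∧
      1 / 2 * d2 ≤ d2 + DS - (x1 ^ 2 + x2 ^ 2) / (2 * J0) := by
  obtain ⟨c, hc0, hc⟩ : ∃ c : ℝ, 0 < c ∧ c ^ 2 = k⁻¹ := by
    refine ⟨Real.sqrt k⁻¹, Real.sqrt_pos.2 (inv_pos.2 hk), Real.sq_sqrt (inv_pos.2 hk).le⟩
  have hk' : 0 < k⁻¹ := inv_pos.2 hk
  have e : k⁻¹ * k = 1 := inv_mul_cancel₀ hk.ne'
  have hs : ∀ a b : Fin n → ℝ, dt (fun i => c * a i) (fun i => c * b i) = k⁻¹ * dt a b := by
    intro a b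
    rw [v5_scale, hc]
  have hA' : GB (dt (fun i => c * A1 i) (fun i => c * A1 i))
      (dt (fun i => c * A1 i) (fun i => c * A2 i)) (dt (fun i => c * A2 i) (fun i => c * A2 i)) := by
    rw [hs, hs, hs]
    exact v5_gb k _ _ _ hk hA
  have hX' : GB (dt (fun i => c * X1 i) (fun i => c * X1 i))
      (dt (fun i => c * X1 i) (fun i => c * X2 i)) (dt (fun i => c * X2 i) (fun i => c * X2 i)) := by
    rw [hs, hs, hs]
    exact v5_gb k _ _ _ hk hX
  have hj0 : (k⁻¹ * J0) ^ 2 = dt (fun i => c * A1 i) (fun i => c * A1 i) *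
      dt (fun i => c * A2 i) (fun i => c * A2 i) -
      dt (fun i => c * A1 i) (fun i => c * A2 i) ^ 2 := by
    rw [hs, hs, hs, mul_pow, hJ02]
    ring
  have hj : (k⁻¹ * J) ^ 2 = dt (fun i => c * X1 i) (fun i => c * X1 i) *
      dt (fun i => c * X2 i) (fun i => c * X2 i) -
      dt (fun i => c * X1 i) (fun i => c * X2 i) ^ 2 := by
    rw [hs, hs, hs, mul_pow, hJ2]
    ring
  have hw1 : k⁻¹ * w = (dt (fun i => c * A2 i) (fun i => c * A2 i) *
        dt (fun i => c * A1 i) (fun i => c * X1 i) -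
      dt (fun i => c * A1 i) (fun i => c * A2 i) * dt (fun i => c * A2 i) (fun i => c * X1 i) +
      dt (fun i => c * A1 i) (fun i => c * A1 i) * dt (fun i => c * A2 i) (fun i => c * X2 i) -
      dt (fun i => c * A1 i) (fun i => c * A2 i) * dt (fun i => c * A1 i) (fun i => c * X2 i)) /
        (k⁻¹ * J0) := by
    simp only [hs]
    rw [hw]
    field_simp
  have hw1' : k⁻¹ * w' = (dt (fun i => c * X2 i) (fun i => c * X2 i) *
        dt (fun i => c * A1 i) (fun i => c * X1 i) -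
      dt (fun i => c * X1 i) (fun i => c * X2 i) * dt (fun i => c * A1 i) (fun i => c * X2 i) +
      dt (fun i => c * X1 i) (fun i => c * X1 i) * dt (fun i => c * A2 i) (fun i => c * X2 i) -
      dt (fun i => c * X1 i) (fun i => c * X2 i) * dt (fun i => c * A2 i) (fun i => c * X1 i)) /
        (k⁻¹ * J) := by
    simp only [hs]
    rw [hw']
    field_simp
  have hmu1 : k⁻¹ * mu = (dt (fun i => c * A1 i) (fun i => c * X1 i) *
      dt (fun i => c * A2 i) (fun i => c * X2 i) -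
      dt (fun i => c * A1 i) (fun i => c * X2 i) * dt (fun i => c * A2 i) (fun i => c * X1 i)) /
        (k⁻¹ * J0) := by
    simp only [hs]
    rw [hmu]
    field_simp
  have hd1 : k⁻¹ * d2 = dt (fun i => c * A1 i) (fun i => c * A1 i) +
      dt (fun i => c * A2 i) (fun i => c * A2 i) + dt (fun i => c * X1 i) (fun i => c * X1 i) +
      dt (fun i => c * X2 i) (fun i => c * X2 i) -
      2 * (dt (fun i => c * A1 i) (fun i => c * X1 i) +
        dt (fun i => c * A2 i) (fun i => c * X2 i)) := by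
    simp only [hs]
    rw [hd2]
    ring
  have hxx1 : k⁻¹ * x1 = (dt (fun i => c * X1 i) (fun i => c * X1 i) -
      dt (fun i => c * X2 i) (fun i => c * X2 i)) / 2 -
      (dt (fun i => c * A1 i) (fun i => c * A1 i) -
      dt (fun i => c * A2 i) (fun i => c * A2 i)) / 2 := by
    simp only [hs]
    rw [hx1]
    ring
  have hxx2 : k⁻¹ * x2 = dt (fun i => c * X1 i) (fun i => c * X2 i) -
      dt (fun i => c * A1 i) (fun i => c * A2 i) := by
    simp only [hs]
    rw [hx2]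
    ring
  have hDS1 : k⁻¹ * DS = (k⁻¹ * x1 * (dt (fun i => c * A2 i) (fun i => c * A2 i) *
        dt (fun i => c * A1 i) (fun i => c * X1 i) -
        dt (fun i => c * A1 i) (fun i => c * A2 i) * dt (fun i => c * A2 i) (fun i => c * X1 i) +
        dt (fun i => c * A1 i) (fun i => c * A2 i) * dt (fun i => c * A1 i) (fun i => c * X2 i) -
        dt (fun i => c * A1 i) (fun i => c * A1 i) * dt (fun i => c * A2 i) (fun i => c * X2 i)) +
      k⁻¹ * x2 * (dt (fun i => c * A2 i) (fun i => c * A2 i) *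
        dt (fun i => c * A1 i) (fun i => c * X2 i) -
        dt (fun i => c * A1 i) (fun i => c * A2 i) * dt (fun i => c * A2 i) (fun i => c * X2 i) -
        dt (fun i => c * A1 i) (fun i => c * A2 i) * dt (fun i => c * A1 i) (fun i => c * X1 i) +
        dt (fun i => c * A1 i) (fun i => c * A1 i) * dt (fun i => c * A2 i) (fun i => c * X1 i))) /
      (k⁻¹ * J0) ^ 2 := by
    simp only [hs]
    rw [hDS]
    field_simp
  obtain ⟨q1, q2, q3⟩ := v3_tilt (fun i => c * A1 i) (fun i => c * A2 i) (fun i => c * X1 i)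
    (fun i => c * X2 i) (k⁻¹ * J0) (k⁻¹ * J) (by positivity) (by positivity) hj0 hj hA' hX'
    (k⁻¹ * w) (k⁻¹ * w') (k⁻¹ * mu) (k⁻¹ * d2) hw1 hw1' hmu1 hd1
  have q4 := v4_w (fun i => c * A1 i) (fun i => c * A2 i) (fun i => c * X1 i)
    (fun i => c * X2 i) (k⁻¹ * J0) (by positivity) hj0 hA' hX' (k⁻¹ * w) (k⁻¹ * d2) hw1 hd1
  have q5 := v4_q0 (fun i => c * A1 i) (fun i => c * A2 i) (fun i => c * X1 i)
    (fun i => c * X2 i) (k⁻¹ * J0) (by positivity) hj0 hA' hX' (k⁻¹ * d2) (k⁻¹ * x1) (k⁻¹ * x2)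
    (k⁻¹ * DS) hd1 hxx1 hxx2 hDS1
  refine ⟨?_, ?_, ?_, ?_, ?_⟩
  · have : k⁻¹ * 0 ≤ k⁻¹ * (w - w' + 2 * (J - mu)) := by linarith
    exact le_of_mul_le_mul_left this hk'
  · have : (k⁻¹) ^ 2 * (4 * (w - w') ^ 2) ≤ (k⁻¹) ^ 2 * (3 * J0 * d2) := by
      calc (k⁻¹) ^ 2 * (4 * (w - w') ^ 2) = 4 * (k⁻¹ * w - k⁻¹ * w') ^ 2 := by ring
        _ ≤ 3 * (k⁻¹ * J0) * (k⁻¹ * d2) := q2
        _ = _ := by ring
    exact le_of_mul_le_mul_left this (by positivity)
  · exact le_of_mul_le_mul_left q3 hk'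
  · intro hw0
    have h1 := q4 (by
      have := mul_nonneg hk'.le (neg_nonneg.2 hw0)
      linarith)
    rw [hs, hs] at h1
    have : (k⁻¹) ^ 3 * (J0 * w ^ 2) ≤
        (k⁻¹) ^ 3 * (k * ((dt A1 A1 + dt A2 A2) / 2 * d2)) := by
      calc (k⁻¹) ^ 3 * (J0 * w ^ 2) = k⁻¹ * J0 * (k⁻¹ * w) ^ 2 := by ring
        _ ≤ (k⁻¹ * dt A1 A1 + k⁻¹ * dt A2 A2) / 2 * (k⁻¹ * d2) := h1
        _ = (k⁻¹) ^ 2 * 1 * ((dt A1 A1 + dt A2 A2) / 2 * d2) := by ring
        _ = (k⁻¹) ^ 2 * (k⁻¹ * k) * ((dt A1 A1 + dt A2 A2) / 2 * d2) := by rw [e]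
        _ = _ := by ring
    exact le_of_mul_le_mul_left this (by positivity)
  · have e6 : ((k⁻¹ * x1) ^ 2 + (k⁻¹ * x2) ^ 2) / (2 * (k⁻¹ * J0)) =
        k⁻¹ * ((x1 ^ 2 + x2 ^ 2) / (2 * J0)) := by
      field_simp
    rw [e6] at q5
    have : k⁻¹ * (1 / 2 * d2) ≤ k⁻¹ * (d2 + DS - (x1 ^ 2 + x2 ^ 2) / (2 * J0)) := by linarith
    exact le_of_mul_le_mul_left this hk'

/-- The sum of the two bounds. -/
theorem v5_sum (a b y D : ℝ) (hb : 0 ≤ b) (hD : 0 ≤ D) (hy1 : 1 / 2 ≤ y) (hy2 : y ≤ 1)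
    (h1 : a ^ 2 ≤ 3 / 4 * y ^ 2 * D) (h2 : b ^ 2 ≤ (1 - y) ^ 2 * D) (h3 : 0 ≤ a + b) :
    (a + b) ^ 2 ≤ 7 / 8 * D := by
  obtain ⟨s, hs0, hs⟩ : ∃ s : ℝ, 0 ≤ s ∧ s ^ 2 = D :=
    ⟨Real.sqrt D, Real.sqrt_nonneg _, Real.sq_sqrt hD⟩
  rw [← hs] at h1 h2 ⊢
  have ha : a ≤ 87 / 100 * y * s := by
    have : a ^ 2 ≤ (87 / 100 * y * s) ^ 2 := by nlinarith [sq_nonneg (y * s)]
    exact (abs_le_of_sq_le_sq' this (by positivity)).2
  have hb' : b ≤ (1 - y) * s := by
    have : b ^ 2 ≤ ((1 - y) * s) ^ 2 := by rw [mul_pow]; exact h2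
    exact (abs_le_of_sq_le_sq' this (mul_nonneg (by linarith) hs0)).2
  have hab : a + b ≤ 935 / 1000 * s := by nlinarith
  calc (a + b) ^ 2 ≤ (935 / 1000 * s) ^ 2 := pow_le_pow_left₀ h3 hab 2
    _ ≤ 7 / 8 * s ^ 2 := by nlinarith [sq_nonneg s]

/-- The final inequality between real numbers. -/
theorem v5_final (k γ J0 J w w' mu d2 q u0 p0 p h : ℝ) (hk : 0 < k) (hγ : 0 < γ)
    (hJ01 : k ≤ J0) (hJ02 : J0 ≤ 2 * k) (hJ1 : k ≤ J) (hJ2 : J ≤ 2 * k) (hd2 : 0 ≤ d2)
    (hu1 : k * u0 ≤ J0 ^ 2) (hu2 : u0 ≤ 7 / 4 * J0)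
    (f1 : 0 ≤ w - w' + 2 * (J - mu)) (f2 : 4 * (w - w') ^ 2 ≤ 3 * J0 * d2) (f3 : mu ≤ J)
    (f4 : w ≤ 0 → J0 * w ^ 2 ≤ k * (u0 * d2)) (f5 : 1 / 2 * d2 ≤ q)
    (hp0 : 0 ≤ p0) (hp : 0 ≤ p) (hmon : 0 ≤ (p - p0) * (J - J0))
    (hh1 : J0 * (p - p0) ≤ h) (hh2 : h ≤ J * (p - p0)) :
    γ / 16 * d2 ≤ γ * q + p0 * (w - w' + 2 * J - 2 * mu) + (p - p0) * (2 * J - w')
      - h * (2 - w / J0) + h ^ 2 / (2 * γ * J0) := by
  have hJ0 : 0 < J0 := by linarith
  have hJ : 0 < J := by linarith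
  obtain ⟨Z, hZ0, hZ⟩ : ∃ Z : ℝ, 0 ≤ Z ∧ J0 * Z ^ 2 = 7 / 8 * d2 := by
    refine ⟨Real.sqrt (7 / 8 * d2 / J0), Real.sqrt_nonneg _, ?_⟩
    rw [Real.sq_sqrt (by positivity)]
    field_simp
  -- it is enough to bound the linear part
  suffices hlin : -(|h| * Z) ≤ p0 * (w - w' + 2 * J - 2 * mu) + (p - p0) * (2 * J - w')
      - h * (2 - w / J0) by
    have h1 : -(γ * (1 / 2 * (7 / 8 * d2))) ≤ -(|h| * Z) + h ^ 2 / (2 * γ * J0) := by
      rw [← hZ]
      have h2 : 0 ≤ (|h| - γ * J0 * Z) ^ 2 / (2 * γ * J0) := by positivity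
      have h3 : (|h| - γ * J0 * Z) ^ 2 / (2 * γ * J0) =
          h ^ 2 / (2 * γ * J0) - |h| * Z + γ * (1 / 2 * (J0 * Z ^ 2)) := by
        have h4 : h ^ 2 = |h| ^ 2 := (sq_abs h).symm
        rw [h4]
        field_simp
        ring
      rw [h3] at h2
      linarith
    have h5 : γ * (1 / 2 * d2) ≤ γ * q := mul_le_mul_of_nonneg_left f5 hγ.le
    linarith
  have hf1 : 0 ≤ p0 * (w - w' + 2 * J - 2 * mu) := mul_nonneg hp0 (by linarith)
  have hww : (w' - w) ^ 2 ≤ 3 / 4 * J0 * d2 := by nlinarith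
  -- `w' - w ≤ J0 Z`
  have hz1 : w' - w ≤ J0 * Z := by
    have : (w' - w) ^ 2 ≤ (J0 * Z) ^ 2 := by
      have e1 : (J0 * Z) ^ 2 = J0 * (J0 * Z ^ 2) := by ring
      rw [e1, hZ]
      nlinarith [mul_nonneg hJ0.le hd2]
    exact (abs_le_of_sq_le_sq' this (by positivity)).2
  have hwJ : J0 * (w / J0) = w := by field_simp
  rcases le_total J0 J with hle | hle
  · -- case J0 ≤ J
    have ht : 0 ≤ p - p0 ∨ J = J0 := by
      rcases hle.lt_or_eq with hlt | heq
      · left
        by_contra hc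
        push Not at hc
        have : (p - p0) * (J - J0) < 0 := mul_neg_of_neg_of_pos hc (by linarith)
        linarith
      · right
        exact heq.symm
    -- bound at `J`
    have hz2 : w' - J * (w / J0) ≤ J * Z := by
      rcases le_total 0 w with hw | hw
      · have h1 : w ≤ J * (w / J0) := by
          have h2 : 0 ≤ w / J0 := by positivity
          calc w = J0 * (w / J0) := hwJ.symm
            _ ≤ J * (w / J0) := mul_le_mul_of_nonneg_right hle h2
        have h3 : J0 * Z ≤ J * Z := mul_le_mul_of_nonneg_right hle hZ0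
        linarith
      · -- w ≤ 0
        by_contra hcon
        push Not at hcon
        have hy1 : 1 / 2 ≤ J0 / J := by
          rw [div_le_div_iff₀ (by norm_num) hJ]
          linarith
        have hy2 : J0 / J ≤ 1 := (div_le_one hJ).2 hle
        have f4' := f4 hw
        have hb0 : 0 ≤ -w * (J - J0) / J0 :=
          div_nonneg (mul_nonneg (by linarith) (by linarith)) hJ0.le
        have hJZ : 0 ≤ J * Z := by positivity
        have hsum : w' - J * (w / J0) = (w' - w) + (-w * (J - J0) / J0) := by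
          field_simp
          ring
        have key := v5_sum (w' - w) (-w * (J - J0) / J0) (J0 / J) (J ^ 2 * d2 / J0) hb0
          (by positivity) hy1 hy2 ?_ ?_ (by rw [← hsum]; linarith)
        · rw [← hsum] at key
          have h6 : (J * Z) ^ 2 = 7 / 8 * (J ^ 2 * d2 / J0) := by
            have e2 : (J * Z) ^ 2 = J ^ 2 * (J0 * Z ^ 2) / J0 := by
              field_simp
            rw [e2, hZ]
            ring
          rw [← h6] at key
          have := (abs_le_of_sq_le_sq' key hJZ).2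
          linarith
        · have e3 : 3 / 4 * (J0 / J) ^ 2 * (J ^ 2 * d2 / J0) = 3 / 4 * J0 * d2 := by
            field_simp
          rw [e3]
          exact hww
        · have e4 : (1 - J0 / J) ^ 2 * (J ^ 2 * d2 / J0) = (J - J0) ^ 2 * d2 / J0 := by
            field_simp
          have e5 : (-w * (J - J0) / J0) ^ 2 = (J - J0) ^ 2 * (J0 * w ^ 2) / J0 ^ 3 := by
            field_simp
          rw [e4, e5]
          have e6 : (J - J0) ^ 2 * d2 / J0 = (J - J0) ^ 2 * (J0 ^ 2 * d2) / J0 ^ 3 := by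
            field_simp
          rw [e6]
          apply div_le_div_of_nonneg_right _ (by positivity)
          apply mul_le_mul_of_nonneg_left _ (sq_nonneg _)
          have e7 : k * (u0 * d2) = k * u0 * d2 := by ring
          rw [e7] at f4'
          exact f4'.trans (mul_le_mul_of_nonneg_right hu1 hd2)
    rcases ht with ht | ht
    · -- t ≥ 0
      have hh0 : 0 ≤ h := le_trans (mul_nonneg hJ0.le ht) hh1
      rw [abs_of_nonneg hh0]
      -- the linear function of h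
      have m1 : -(J0 * (p - p0) * Z) ≤ (p - p0) * (2 * J - w') - J0 * (p - p0) * (2 - w / J0) := by
        have e8 : (p - p0) * (2 * J - w') - J0 * (p - p0) * (2 - w / J0) =
            (p - p0) * (2 * (J - J0) - (w' - w)) := by
          field_simp
          ring
        rw [e8]
        have : (p - p0) * (-(J0 * Z)) ≤ (p - p0) * (2 * (J - J0) - (w' - w)) :=
          mul_le_mul_of_nonneg_left (by linarith) ht
        linarith
      have m2 : -(J * (p - p0) * Z) ≤ (p - p0) * (2 * J - w') - J * (p - p0) * (2 - w / J0) := by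
        have e9 : (p - p0) * (2 * J - w') - J * (p - p0) * (2 - w / J0) =
            (p - p0) * (-(w' - J * (w / J0))) := by ring
        rw [e9]
        have : (p - p0) * (-(J * Z)) ≤ (p - p0) * (-(w' - J * (w / J0))) :=
          mul_le_mul_of_nonneg_left (by linarith) ht
        linarith
      -- h is between the two
      rcases le_total 0 (Z - (2 - w / J0)) with hs | hs
      · have : J0 * (p - p0) * (Z - (2 - w / J0)) ≤ h * (Z - (2 - w / J0)) :=
          mul_le_mul_of_nonneg_right hh1 hs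
        linarith
      · have : J * (p - p0) * (Z - (2 - w / J0)) ≤ h * (Z - (2 - w / J0)) :=
          mul_le_mul_of_nonpos_right hh2 hs
        linarith
    · -- J = J0
      subst ht
      have hhe : h = J * (p - p0) := le_antisymm hh2 hh1
      rcases le_total 0 (p - p0) with hq | hq
      · rw [hhe, abs_of_nonneg (mul_nonneg hJ.le hq)]
        have : (p - p0) * (-(J * Z)) ≤ (p - p0) * (-(w' - J * (w / J))) :=
          mul_le_mul_of_nonneg_left (by linarith) hq
        linarith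
      · rw [hhe, abs_of_nonpos (mul_nonpos_of_nonneg_of_nonpos hJ.le hq)]
        have h7 : 0 ≤ (-(p - p0)) * (J * Z) := mul_nonneg (by linarith) (by positivity)
        have h8 : p0 * (w - w' + 2 * J - 2 * mu) + (p - p0) * (2 * J - w') -
            J * (p - p0) * (2 - w / J) = p * (w - w' + 2 * J - 2 * mu) +
            (-(p - p0)) * (2 * (J - mu)) := by
          field_simp
          ring
        rw [h8]
        have h9 : 0 ≤ p * (w - w' + 2 * J - 2 * mu) := mul_nonneg hp (by linarith)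
        have h10 : 0 ≤ (-(p - p0)) * (2 * (J - mu)) := mul_nonneg (by linarith) (by linarith)
        linarith
  · -- case J ≤ J0
    have ht : p - p0 ≤ 0 ∨ J = J0 := by
      rcases hle.lt_or_eq with hlt | heq
      · left
        by_contra hc
        push Not at hc
        have : (p - p0) * (J - J0) < 0 := mul_neg_of_pos_of_neg hc (by linarith)
        linarith
      · right
        exact heq
    rcases ht with ht | ht
    · have hh0 : h ≤ 0 := le_trans hh2 (mul_nonpos_of_nonneg_of_nonpos hJ.le ht)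
      rw [abs_of_nonpos hh0]
      -- bound at `J`
      have hz3 : -(J * Z) ≤ 2 * (J - mu) + w * (1 - J / J0) := by
        rcases le_total 0 w with hw | hw
        · have h1 : 0 ≤ w * (1 - J / J0) :=
            mul_nonneg hw (by rw [sub_nonneg]; exact (div_le_one hJ0).2 hle)
          have h2 : 0 ≤ J * Z := by positivity
          linarith
        · have f4' := f4 hw
          have h1 : -(w * (1 - J / J0)) ≤ J * Z := by
            have h2 : (-(w * (1 - J / J0))) ^ 2 ≤ (J * Z) ^ 2 := by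
              have e2 : (J * Z) ^ 2 = J ^ 2 * (J0 * Z ^ 2) / J0 := by
                field_simp
              have e3 : (-(w * (1 - J / J0))) ^ 2 = (J0 - J) ^ 2 * (J0 * w ^ 2) / J0 ^ 3 := by
                field_simp
              rw [e2, hZ, e3]
              have e4 : J ^ 2 * (7 / 8 * d2) / J0 = 7 / 8 * (J ^ 2 * J0 ^ 2) * d2 / J0 ^ 3 := by
                field_simp
              rw [e4]
              apply div_le_div_of_nonneg_right _ (by positivity)
              have f6 : (J0 - J) ^ 2 * k ≤ 1 / 2 * J0 * J ^ 2 := by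
                have g1 : (J0 - J) * k ≤ (J0 - k) * J := by nlinarith
                have g2 : 0 ≤ (J0 - J) * k := mul_nonneg (by linarith) hk.le
                have g3 : ((J0 - J) * k) ^ 2 ≤ ((J0 - k) * J) ^ 2 := pow_le_pow_left₀ g2 g1 2
                have g4 : (J0 - k) ^ 2 ≤ 1 / 2 * J0 * k := by nlinarith
                have g5 : (J0 - k) ^ 2 * J ^ 2 ≤ 1 / 2 * J0 * k * J ^ 2 :=
                  mul_le_mul_of_nonneg_right g4 (sq_nonneg J)
                have g6 : k * ((J0 - J) ^ 2 * k) ≤ k * (1 / 2 * J0 * J ^ 2) := by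
                  calc k * ((J0 - J) ^ 2 * k) = ((J0 - J) * k) ^ 2 := by ring
                    _ ≤ ((J0 - k) * J) ^ 2 := g3
                    _ = (J0 - k) ^ 2 * J ^ 2 := by ring
                    _ ≤ 1 / 2 * J0 * k * J ^ 2 := g5
                    _ = _ := by ring
                exact le_of_mul_le_mul_left g6 hk
              have f7 : (J0 - J) ^ 2 * (J0 * w ^ 2) ≤ (J0 - J) ^ 2 * (k * (u0 * d2)) :=
                mul_le_mul_of_nonneg_left f4' (sq_nonneg _)
              have f8 : (J0 - J) ^ 2 * k * (u0 * d2) ≤ 1 / 2 * J0 * J ^ 2 * (7 / 4 * J0 * d2) := by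
                apply mul_le_mul f6 (mul_le_mul_of_nonneg_right hu2 hd2) _ (by positivity)
                have : 0 ≤ J0 * w ^ 2 := by positivity
                have h9 := this.trans f4'
                exact le_of_mul_le_mul_left (by rw [mul_zero]; exact h9) hk
              linarith
            exact (abs_le_of_sq_le_sq' h2 (by positivity)).2
          linarith
      have m1 : (p - p0) * (2 * J - w') - J0 * (p - p0) * (2 - w / J0) =
          (-(p - p0)) * (2 * (J0 - mu)) - (-(p - p0)) * (w - w' + 2 * J - 2 * mu) := by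
        field_simp
        ring
      have m2 : (p - p0) * (2 * J - w') - J * (p - p0) * (2 - w / J0) =
          (-(p - p0)) * (2 * (J - mu) + w * (1 - J / J0)) -
            (-(p - p0)) * (w - w' + 2 * J - 2 * mu) := by
        field_simp
        ring
      have m3 : (-(p - p0)) * (w - w' + 2 * J - 2 * mu) ≤ p0 * (w - w' + 2 * J - 2 * mu) :=
        mul_le_mul_of_nonneg_right (by linarith) (by linarith)
      have m4 : 0 ≤ (-(p - p0)) * (2 * (J0 - mu)) := mul_nonneg (by linarith) (by linarith)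
      have m5 : (-(p - p0)) * (-(J * Z)) ≤ (-(p - p0)) * (2 * (J - mu) + w * (1 - J / J0)) :=
        mul_le_mul_of_nonneg_left hz3 (by linarith)
      have m6 : 0 ≤ (-(p - p0)) * (J0 * Z) := mul_nonneg (by linarith) (by positivity)
      rcases le_total 0 (-Z - (2 - w / J0)) with hs | hs
      · have : J0 * (p - p0) * (-Z - (2 - w / J0)) ≤ h * (-Z - (2 - w / J0)) :=
          mul_le_mul_of_nonneg_right hh1 hs
        linarith
      · have : J * (p - p0) * (-Z - (2 - w / J0)) ≤ h * (-Z - (2 - w / J0)) :=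
          mul_le_mul_of_nonpos_right hh2 hs
        linarith
    · -- J = J0, as above
      subst ht
      have hhe : h = J * (p - p0) := le_antisymm hh2 hh1
      rcases le_total 0 (p - p0) with hq | hq
      · rw [hhe, abs_of_nonneg (mul_nonneg hJ.le hq)]
        have e8 : (p - p0) * (2 * J - w') - J * (p - p0) * (2 - w / J) =
            (p - p0) * (-(w' - w)) := by
          field_simp
          ring
        have : (p - p0) * (-(J * Z)) ≤ (p - p0) * (-(w' - w)) :=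
          mul_le_mul_of_nonneg_left (by linarith) hq
        linarith
      · rw [hhe, abs_of_nonpos (mul_nonpos_of_nonneg_of_nonpos hJ.le hq)]
        have h7 : 0 ≤ (-(p - p0)) * (J * Z) := mul_nonneg (by linarith) (by positivity)
        have h8 : p0 * (w - w' + 2 * J - 2 * mu) + (p - p0) * (2 * J - w') -
            J * (p - p0) * (2 - w / J) = p * (w - w' + 2 * J - 2 * mu) +
            (-(p - p0)) * (2 * (J - mu)) := by
          field_simp
          ring
        rw [h8]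
        have h9 : 0 ≤ p * (w - w' + 2 * J - 2 * mu) := mul_nonneg hp (by linarith)
        have h10 : 0 ≤ (-(p - p0)) * (2 * (J - mu)) := mul_nonneg (by linarith) (by linarith)
        linarith

end Pool.Agent.SLG
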