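import Pool.Agent.SLG.B4
import Pool.Agent.SLG.V5

/-!
V6: the integrands `γ/2 |X|² + g (J(X))`, `J(X) = √det (Xᵀ X)`: smoothness and derivatives.
-/

namespace Pool.Agent.SLG

/-- The determinant of the Gram matrix `Xᵀ X`. -/
def gram {n : ℕ} (X : Mat n) : ℝ :=
  (∑ i, X i 0 * X i 0) * (∑ i, X i 1 * X i 1) - (∑ i, X i 0 * X i 1) ^ 2

/-- The Jacobian `√det (Xᵀ X)`. -/
noncomputable def jac2 {n : ℕ} (X : Mat n) : ℝ := Real.sqrt (gram X)

/-- The integrand `γ/2 |X|² + g (√det (Xᵀ X))`. -/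
noncomputable def fCod {n : ℕ} (γ : ℝ) (g : ℝ → ℝ) (X : Mat n) : ℝ :=
  γ / 2 * sq X + g (jac2 X)

theorem v6_sq_cd {n : ℕ} : ContDiff ℝ 2 (fun X : Mat n => sq X) := by
  unfold sq
  fun_prop

theorem v6_gram_cd {n : ℕ} : ContDiff ℝ 2 (fun X : Mat n => gram X) := by
  unfold gram
  fun_prop

theorem v6_sqrt_cd (g : ℝ → ℝ) (hg2 : ContDiff ℝ 2 g) (a : ℝ) (ha : 0 < a)
    (hc : ∀ s, s ≤ a → g s = g a) : ContDiff ℝ 2 (fun s => g (Real.sqrt s)) := by
  rw [contDiff_iff_contDiffAt]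
  intro s
  rcases lt_or_ge s (a ^ 2) with h | h
  · have hev : (fun s => g (Real.sqrt s)) =ᶠ[nhds s] fun _ => g a := by
      filter_upwards [isOpen_Iio.mem_nhds (Set.mem_Iio.2 h)] with t ht
      apply hc
      exact ((Real.sqrt_lt' ha).2 ht).le
    exact contDiffAt_const.congr_of_eventuallyEq hev
  · have hs : s ≠ 0 := by
      have : 0 < a ^ 2 := by positivity
      linarith
    exact hg2.contDiffAt.comp s (Real.contDiffAt_sqrt hs)

theorem fCod_contDiff {n : ℕ} (γ : ℝ) (g : ℝ → ℝ) (hg2 : ContDiff ℝ 2 g) (a : ℝ) (ha : 0 < a)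
    (hc : ∀ s, s ≤ a → g s = g a) : ContDiff ℝ 2 (fCod γ g : Mat n → ℝ) := by
  unfold fCod jac2
  exact (contDiff_const.mul v6_sq_cd).add ((v6_sqrt_cd g hg2 a ha hc).comp v6_gram_cd)

theorem v6_entry {n : ℕ} (X : Mat n) (i : Fin n) (j : Fin 2) (s : ℝ) (k : Fin n) (l : Fin 2) :
    (X + s • (Pi.single i (Pi.single j (1 : ℝ)) : Mat n)) k l =
      X k l + (if k = i then (if l = j then s else 0) else 0) := by
  by_cases hk : k = i
  · subst hk
    by_cases hl : l = j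
    · subst hl
      simp
    · simp [hl]
  · simp [hk]

theorem v6_sum {n : ℕ} (p q : Fin n → ℝ) (i : Fin n) (s t : ℝ) :
    ∑ k, (p k + (if k = i then s else 0)) * (q k + (if k = i then t else 0)) =
      (∑ k, p k * q k) + (p i * t + s * q i + s * t) := by
  have h : ∀ k, (p k + (if k = i then s else 0)) * (q k + (if k = i then t else 0)) =
      p k * q k + (if k = i then (p k * t + s * q k + s * t) else 0) := by
    intro k
    split_ifs <;> ring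
  rw [Finset.sum_congr rfl fun k _ => h k, Finset.sum_add_distrib, Finset.sum_ite_eq']
  simp

theorem v6_gram_line0 {n : ℕ} (X : Mat n) (i : Fin n) (s : ℝ) :
    gram (X + s • (Pi.single i (Pi.single 0 (1 : ℝ)) : Mat n)) =
      ((∑ i, X i 0 * X i 0) + (2 * s * X i 0 + s ^ 2)) * (∑ i, X i 1 * X i 1)
        - ((∑ i, X i 0 * X i 1) + s * X i 1) ^ 2 := by
  unfold gram
  simp only [v6_entry]
  have e0 : ((0 : Fin 2) = 0) = True := by simp
  have e1 : ((1 : Fin 2) = 0) = False := by simp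
  simp only [e0, e1, if_true, if_false, ite_self, add_zero]
  have h1 := v6_sum (fun k => X k 0) (fun k => X k 0) i s s
  have h2 := v6_sum (fun k => X k 0) (fun k => X k 1) i s 0
  simp only [ite_self, add_zero, mul_zero, zero_add] at h2
  rw [h1, h2]
  ring

theorem v6_gram_line1 {n : ℕ} (X : Mat n) (i : Fin n) (s : ℝ) :
    gram (X + s • (Pi.single i (Pi.single 1 (1 : ℝ)) : Mat n)) =
      (∑ i, X i 0 * X i 0) * ((∑ i, X i 1 * X i 1) + (2 * s * X i 1 + s ^ 2))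
        - ((∑ i, X i 0 * X i 1) + s * X i 0) ^ 2 := by
  unfold gram
  simp only [v6_entry]
  have e0 : ((0 : Fin 2) = 1) = False := by simp
  have e1 : ((1 : Fin 2) = 1) = True := by simp
  simp only [e0, e1, if_true, if_false, ite_self, add_zero]
  have h1 := v6_sum (fun k => X k 1) (fun k => X k 1) i s s
  have h2 := v6_sum (fun k => X k 0) (fun k => X k 1) i 0 s
  simp only [ite_self, add_zero, zero_mul] at h2
  rw [h1, h2]
  ring

theorem v6_sq_eq {n : ℕ} (X : Mat n) : sq X = (∑ i, X i 0 * X i 0) + (∑ i, X i 1 * X i 1) := by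
  unfold sq
  rw [← Finset.sum_add_distrib]
  refine Finset.sum_congr rfl fun i _ => ?_
  rw [Fin.sum_univ_two]
  ring

theorem v6_sq_line {n : ℕ} (X : Mat n) (i : Fin n) (j : Fin 2) (s : ℝ) :
    sq (X + s • (Pi.single i (Pi.single j (1 : ℝ)) : Mat n)) = sq X + (2 * s * X i j + s ^ 2) := by
  rw [v6_sq_eq, v6_sq_eq]
  simp only [v6_entry]
  rw [v6_sum (fun k => X k 0) (fun k => X k 0) i _ _, v6_sum (fun k => X k 1) (fun k => X k 1) i _ _]
  fin_cases j <;> simp <;> ring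

theorem v6_grd_aux {n : ℕ} (γ : ℝ) (g : ℝ → ℝ) (hg2 : ContDiff ℝ 2 g) (a : ℝ) (ha : 0 < a)
    (hc : ∀ s, s ≤ a → g s = g a) (X : Mat n) (hX : 0 < gram X) (i : Fin n) (j : Fin 2)
    (Q : ℝ → ℝ) (Q' : ℝ) (hQ : ∀ s, gram (X + s • (Pi.single i (Pi.single j (1 : ℝ)) : Mat n)) = Q s)
    (hQ' : HasDerivAt Q Q' 0) :
    Grd (fCod γ g) X i j = γ * X i j + deriv g (jac2 X) * (Q' / (2 * jac2 X)) := by
  have hd : DifferentiableAt ℝ (fCod γ g) X :=
    (fCod_contDiff γ g hg2 a ha hc).differentiable (by norm_num) X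
  unfold Grd
  rw [← hd.lineDeriv_eq_fderiv]
  unfold lineDeriv
  have h1 : (fun t : ℝ => fCod γ g (X + t • (Pi.single i (Pi.single j (1:ℝ)) : Mat n))) =
      fun t => γ / 2 * (sq X + (2 * t * X i j + t ^ 2)) + g (Real.sqrt (Q t)) := by
    funext t
    unfold fCod jac2
    rw [v6_sq_line, hQ]
  rw [h1]
  have hQ0 : Q 0 = gram X := by
    rw [← hQ 0, zero_smul, add_zero]
  have h3 : HasDerivAt (fun t : ℝ => γ / 2 * (sq X + (2 * t * X i j + t ^ 2))) (γ * X i j) 0 := by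
    have e1 : HasDerivAt (fun t : ℝ => 2 * t * X i j) (2 * X i j) 0 := by
      simpa using ((hasDerivAt_id (0:ℝ)).const_mul 2).mul_const (X i j)
    have e2 : HasDerivAt (fun t : ℝ => t ^ 2) 0 0 := by
      simpa using hasDerivAt_pow 2 (0:ℝ)
    have e3 := ((e1.add e2).const_add (sq X)).const_mul (γ / 2)
    exact e3.congr_deriv (by ring)
  have h4 : HasDerivAt (fun t : ℝ => Real.sqrt (Q t)) (Q' / (2 * Real.sqrt (Q 0))) 0 :=
    hQ'.sqrt (by rw [hQ0]; exact hX.ne')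
  have h5 : HasDerivAt g (deriv g (Real.sqrt (Q 0))) (Real.sqrt (Q 0)) :=
    (hg2.differentiable (by norm_num) _).hasDerivAt
  have h6 := h5.comp (0:ℝ) h4
  have h7 := (h3.add h6).deriv
  rw [hQ0] at h7
  exact h7

theorem v6_grd0 {n : ℕ} (γ : ℝ) (g : ℝ → ℝ) (hg2 : ContDiff ℝ 2 g) (a : ℝ) (ha : 0 < a)
    (hc : ∀ s, s ≤ a → g s = g a) (X : Mat n) (hX : 0 < gram X) (i : Fin n) :
    Grd (fCod γ g) X i 0 = γ * X i 0 + deriv g (jac2 X) *
      (((∑ k, X k 1 * X k 1) * X i 0 - (∑ k, X k 0 * X k 1) * X i 1) / jac2 X) := by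
  have hJ : 0 < jac2 X := Real.sqrt_pos.2 hX
  rw [v6_grd_aux γ g hg2 a ha hc X hX i 0 _
    (2 * ((∑ k, X k 1 * X k 1) * X i 0 - (∑ k, X k 0 * X k 1) * X i 1)) (v6_gram_line0 X i) ?_]
  · congr 2
    field_simp
  · have e1 : HasDerivAt (fun t : ℝ => 2 * t * X i 0 + t ^ 2) (2 * X i 0) 0 := by
      have e1 : HasDerivAt (fun t : ℝ => 2 * t * X i 0) (2 * X i 0) 0 := by
        simpa using ((hasDerivAt_id (0:ℝ)).const_mul 2).mul_const (X i 0)
      have e2 : HasDerivAt (fun t : ℝ => t ^ 2) 0 0 := by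
        simpa using hasDerivAt_pow 2 (0:ℝ)
      exact (e1.add e2).congr_deriv (by ring)
    have e2 := (e1.const_add (∑ i, X i 0 * X i 0)).mul_const (∑ i, X i 1 * X i 1)
    have e3 : HasDerivAt (fun t : ℝ => (∑ i, X i 0 * X i 1) + t * X i 1) (X i 1) 0 := by
      simpa using ((hasDerivAt_id (0:ℝ)).mul_const (X i 1)).const_add (∑ i, X i 0 * X i 1)
    have e4 := e2.sub (e3.pow 2)
    exact e4.congr_deriv (by simp; ring)

theorem v6_grd1 {n : ℕ} (γ : ℝ) (g : ℝ → ℝ) (hg2 : ContDiff ℝ 2 g) (a : ℝ) (ha : 0 < a)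
    (hc : ∀ s, s ≤ a → g s = g a) (X : Mat n) (hX : 0 < gram X) (i : Fin n) :
    Grd (fCod γ g) X i 1 = γ * X i 1 + deriv g (jac2 X) *
      (((∑ k, X k 0 * X k 0) * X i 1 - (∑ k, X k 0 * X k 1) * X i 0) / jac2 X) := by
  have hJ : 0 < jac2 X := Real.sqrt_pos.2 hX
  rw [v6_grd_aux γ g hg2 a ha hc X hX i 1 _
    (2 * ((∑ k, X k 0 * X k 0) * X i 1 - (∑ k, X k 0 * X k 1) * X i 0)) (v6_gram_line1 X i) ?_]
  · congr 2
    field_simp
  · have e1 : HasDerivAt (fun t : ℝ => 2 * t * X i 1 + t ^ 2) (2 * X i 1) 0 := by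
      have e1 : HasDerivAt (fun t : ℝ => 2 * t * X i 1) (2 * X i 1) 0 := by
        simpa using ((hasDerivAt_id (0:ℝ)).const_mul 2).mul_const (X i 1)
      have e2 : HasDerivAt (fun t : ℝ => t ^ 2) 0 0 := by
        simpa using hasDerivAt_pow 2 (0:ℝ)
      exact (e1.add e2).congr_deriv (by ring)
    have e2 := (e1.const_add (∑ i, X i 1 * X i 1)).const_mul (∑ i, X i 0 * X i 0)
    have e3 : HasDerivAt (fun t : ℝ => (∑ i, X i 0 * X i 1) + t * X i 0) (X i 0) 0 := by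
      simpa using ((hasDerivAt_id (0:ℝ)).mul_const (X i 0)).const_add (∑ i, X i 0 * X i 1)
    have e4 := e2.sub (e3.pow 2)
    exact e4.congr_deriv (by simp; ring)

/-- Columns. -/
def cl {n : ℕ} (X : Mat n) (j : Fin 2) : Fin n → ℝ := fun i => X i j

theorem v6_jac_sq {n : ℕ} (X : Mat n) (hX : 0 < gram X) : jac2 X ^ 2 = gram X :=
  Real.sq_sqrt hX.le

theorem v6_zsum {n : ℕ} (p q r : Fin n → ℝ) (γ s u v J : ℝ) :
    ∑ i, p i * (γ * q i + s * ((u * q i - v * r i) / J)) =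
      γ * dt p q + s * ((u * dt p q - v * dt p r) / J) := by
  unfold dt
  rw [Finset.mul_sum, Finset.mul_sum, Finset.mul_sum, ← Finset.sum_sub_distrib, Finset.sum_div,
    Finset.mul_sum, ← Finset.sum_add_distrib]
  exact Finset.sum_congr rfl fun i _ => by ring

theorem v6_Z {n : ℕ} (γ : ℝ) (g : ℝ → ℝ) (hg2 : ContDiff ℝ 2 g) (a : ℝ) (ha : 0 < a)
    (hc : ∀ s, s ≤ a → g s = g a) (X : Mat n) (hX : 0 < gram X) :
    Zf (fCod γ g) X 0 0 = γ * ((dt (cl X 0) (cl X 0) - dt (cl X 1) (cl X 1)) / 2)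
        + (jac2 X * deriv g (jac2 X) - g (jac2 X)) ∧
      Zf (fCod γ g) X 0 1 = γ * dt (cl X 0) (cl X 1) ∧
      Zf (fCod γ g) X 1 0 = γ * dt (cl X 0) (cl X 1) ∧
      Zf (fCod γ g) X 1 1 = -(γ * ((dt (cl X 0) (cl X 0) - dt (cl X 1) (cl X 1)) / 2))
        + (jac2 X * deriv g (jac2 X) - g (jac2 X)) := by
  have hJ : 0 < jac2 X := Real.sqrt_pos.2 hX
  have hJ2 := v6_jac_sq X hX
  have hgr : gram X = dt (cl X 0) (cl X 0) * dt (cl X 1) (cl X 1) - dt (cl X 0) (cl X 1) ^ 2 := rfl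
  have hsq : sq X = dt (cl X 0) (cl X 0) + dt (cl X 1) (cl X 1) := v6_sq_eq X
  have c10 : dt (cl X 1) (cl X 0) = dt (cl X 0) (cl X 1) := dt_comm _ _
  have g0 := fun i => v6_grd0 γ g hg2 a ha hc X hX i
  have g1 := fun i => v6_grd1 γ g hg2 a ha hc X hX i
  unfold Zf
  simp only [g0, g1]
  have s00 : ∑ i, X i 0 * (γ * X i 0 + deriv g (jac2 X) *
      (((∑ k, X k 1 * X k 1) * X i 0 - (∑ k, X k 0 * X k 1) * X i 1) / jac2 X)) = _ :=
    v6_zsum (cl X 0) (cl X 0) (cl X 1) γ (deriv g (jac2 X)) _ _ (jac2 X)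
  have s01 : ∑ i, X i 0 * (γ * X i 1 + deriv g (jac2 X) *
      (((∑ k, X k 0 * X k 0) * X i 1 - (∑ k, X k 0 * X k 1) * X i 0) / jac2 X)) = _ :=
    v6_zsum (cl X 0) (cl X 1) (cl X 0) γ (deriv g (jac2 X)) _ _ (jac2 X)
  have s10 : ∑ i, X i 1 * (γ * X i 0 + deriv g (jac2 X) *
      (((∑ k, X k 1 * X k 1) * X i 0 - (∑ k, X k 0 * X k 1) * X i 1) / jac2 X)) = _ :=
    v6_zsum (cl X 1) (cl X 0) (cl X 1) γ (deriv g (jac2 X)) _ _ (jac2 X)
  have s11 : ∑ i, X i 1 * (γ * X i 1 + deriv g (jac2 X) *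
      (((∑ k, X k 0 * X k 0) * X i 1 - (∑ k, X k 0 * X k 1) * X i 0) / jac2 X)) = _ :=
    v6_zsum (cl X 1) (cl X 1) (cl X 0) γ (deriv g (jac2 X)) _ _ (jac2 X)
  rw [s00, s01, s10, s11, c10]
  have hf : fCod γ g X = γ / 2 * sq X + g (jac2 X) := rfl
  have d11 : (∑ k, X k 1 * X k 1) = dt (cl X 1) (cl X 1) := rfl
  have d00 : (∑ k, X k 0 * X k 0) = dt (cl X 0) (cl X 0) := rfl
  have d01 : (∑ k, X k 0 * X k 1) = dt (cl X 0) (cl X 1) := rfl
  rw [hf, hsq, d11, d00, d01]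
  rw [hgr] at hJ2
  generalize dt (cl X 0) (cl X 0) = x11 at *
  generalize dt (cl X 0) (cl X 1) = x12 at *
  generalize dt (cl X 1) (cl X 1) = x22 at *
  have hJne := hJ.ne'
  have k1 : (x22 * x11 - x12 * x12) / jac2 X = jac2 X := by
    rw [div_eq_iff hJne]
    linarith
  have k2 : (x11 * x22 - x12 * x12) / jac2 X = jac2 X := by
    rw [div_eq_iff hJne]
    linarith
  have k3 : (x11 * x12 - x12 * x11) / jac2 X = 0 := by
    rw [mul_comm x11 x12, sub_self, zero_div]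
  have k4 : (x22 * x12 - x12 * x22) / jac2 X = 0 := by
    rw [mul_comm x22 x12, sub_self, zero_div]
  refine ⟨?_, ?_, ?_, ?_⟩
  · simp only [if_true]
    rw [k1]
    ring
  · simp only [zero_ne_one, if_false, sub_zero]
    rw [k3]
    ring
  · simp only [one_ne_zero, if_false, sub_zero]
    rw [k4]
    ring
  · simp only [if_true]
    rw [k2]
    ring

end Pool.Agent.SLG
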