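import Pool.Agent.SLG.V6

/-!
V7: the certificate for the integrands `γ/2 |X|² + g (J(X))`.
-/

namespace Pool.Agent.SLG

/-- Coefficients of the certificate at `A`: `p0 = g'(J(A))`, `J0 = J(A)`, `(a, b; b, c) = Aᵀ A`. -/
noncomputable def v7_C {n : ℕ} (γ p0 J0 a b c : ℝ) (A : Mat n) : Idx n → Idx n → ℝ
  | .inl i, .inl j => (-2 * p0 / J0) * (A i 0 * A j 1)
  | .inl i, .inr (.inl j) => if i = j then 1 else 0
  | .inl i, .inr (.inr k) =>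
      if k = 0 then (c * A i 0 - b * A i 1) / J0 ^ 2 else (a * A i 1 - b * A i 0) / J0 ^ 2
  | .inr (.inl _), _ => 0
  | .inr (.inr _), .inl _ => 0
  | .inr (.inr _), .inr (.inl _) => 0
  | .inr (.inr k), .inr (.inr l) => if k = 0 ∧ l = 1 then 1 / (2 * γ * J0) else 0

theorem v7_sum {n : ℕ} (γ p0 J0 a b c : ℝ) (A X : Mat n) (f : Mat n → ℝ) :
    ∑ p, ∑ q, v7_C γ p0 J0 a b c A p q * minor (Wf f X - Wf f A) p q =
      (-2 * p0 / J0) * ((∑ i, A i 0 * (X i 0 - A i 0)) * (∑ i, A i 1 * (X i 1 - A i 1))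
        - (∑ i, A i 0 * (X i 1 - A i 1)) * (∑ i, A i 1 * (X i 0 - A i 0)))
      + ∑ i, ((X i 0 - A i 0) * (Grd f X i 0 - Grd f A i 0)
        + (X i 1 - A i 1) * (Grd f X i 1 - Grd f A i 1))
      + ∑ i, ((c * A i 0 - b * A i 1) / J0 ^ 2 * ((X i 0 - A i 0) * (Zf f X 0 0 - Zf f A 0 0)
          + (X i 1 - A i 1) * (Zf f X 0 1 - Zf f A 0 1))
        + (a * A i 1 - b * A i 0) / J0 ^ 2 * ((X i 0 - A i 0) * (Zf f X 1 0 - Zf f A 1 0)
          + (X i 1 - A i 1) * (Zf f X 1 1 - Zf f A 1 1)))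
      + 1 / (2 * γ * J0) * ((Zf f X 0 0 - Zf f A 0 0) * (Zf f X 1 1 - Zf f A 1 1)
        - (Zf f X 0 1 - Zf f A 0 1) * (Zf f X 1 0 - Zf f A 1 0)) := by
  have h1 : ∀ i : Fin n, ∑ j : Fin n, v7_C γ p0 J0 a b c A (.inl i) (.inl j) *
      minor (Wf f X - Wf f A) (.inl i) (.inl j) =
      (-2 * p0 / J0) * ((A i 0 * (X i 0 - A i 0)) * (∑ j, A j 1 * (X j 1 - A j 1))
        - (A i 0 * (X i 1 - A i 1)) * (∑ j, A j 1 * (X j 0 - A j 0))) := by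
    intro i
    rw [Finset.mul_sum, Finset.mul_sum, ← Finset.sum_sub_distrib, Finset.mul_sum]
    refine Finset.sum_congr rfl fun j _ => ?_
    simp only [v7_C, minor, Wf, Pi.sub_apply]
    ring
  have h2 : ∀ i : Fin n, ∑ j : Fin n, v7_C γ p0 J0 a b c A (.inl i) (.inr (.inl j)) *
      minor (Wf f X - Wf f A) (.inl i) (.inr (.inl j)) =
      (X i 0 - A i 0) * (Grd f X i 0 - Grd f A i 0)
        + (X i 1 - A i 1) * (Grd f X i 1 - Grd f A i 1) := by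
    intro i
    rw [Finset.sum_eq_single i]
    · simp only [v7_C, minor, Wf, Pi.sub_apply]
      norm_num
      ring
    · intro j _ hj
      simp only [v7_C]
      rw [if_neg (Ne.symm hj), zero_mul]
    · intro h
      exact absurd (Finset.mem_univ i) h
  have h3 : ∀ i : Fin n, ∑ k : Fin 2, v7_C γ p0 J0 a b c A (.inl i) (.inr (.inr k)) *
      minor (Wf f X - Wf f A) (.inl i) (.inr (.inr k)) =
      (c * A i 0 - b * A i 1) / J0 ^ 2 * ((X i 0 - A i 0) * (Zf f X 0 0 - Zf f A 0 0)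
          + (X i 1 - A i 1) * (Zf f X 0 1 - Zf f A 0 1))
        + (a * A i 1 - b * A i 0) / J0 ^ 2 * ((X i 0 - A i 0) * (Zf f X 1 0 - Zf f A 1 0)
          + (X i 1 - A i 1) * (Zf f X 1 1 - Zf f A 1 1)) := by
    intro i
    rw [Fin.sum_univ_two]
    simp only [v7_C, minor, Wf, Pi.sub_apply]
    norm_num
    ring
  have h4 : ∑ k : Fin 2, ∑ l : Fin 2, v7_C γ p0 J0 a b c A (.inr (.inr k)) (.inr (.inr l)) *
      minor (Wf f X - Wf f A) (.inr (.inr k)) (.inr (.inr l)) =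
      1 / (2 * γ * J0) * ((Zf f X 0 0 - Zf f A 0 0) * (Zf f X 1 1 - Zf f A 1 1)
        - (Zf f X 0 1 - Zf f A 0 1) * (Zf f X 1 0 - Zf f A 1 0)) := by
    rw [Fin.sum_univ_two, Fin.sum_univ_two, Fin.sum_univ_two]
    simp only [v7_C, minor, Wf, Pi.sub_apply]
    norm_num
    left
    ring
  have z1 : ∀ (j : Fin n) (q : Idx n), v7_C γ p0 J0 a b c A (.inr (.inl j)) q = 0 :=
    fun j q => rfl
  have z2 : ∀ (k : Fin 2) (q : Fin n), v7_C γ p0 J0 a b c A (.inr (.inr k)) (.inl q) = 0 :=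
    fun k q => rfl
  have z3 : ∀ (k : Fin 2) (q : Fin n), v7_C γ p0 J0 a b c A (.inr (.inr k)) (.inr (.inl q)) = 0 :=
    fun k q => rfl
  simp only [Fintype.sum_sum_type (α₁ := Fin n) (α₂ := Fin n ⊕ Fin 2),
    Fintype.sum_sum_type (α₁ := Fin n) (α₂ := Fin 2), h1, h2, h3, z1, z2, z3, zero_mul,
    Finset.sum_const_zero, add_zero, zero_add, h4, Finset.sum_add_distrib]
  rw [← Finset.mul_sum, Finset.sum_sub_distrib, ← Finset.sum_mul, ← Finset.sum_mul]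
  ring

/-- Sums of products of linear combinations. -/
theorem v7_exp {n : ℕ} (P Q R S T V : Fin n → ℝ) (r s t v : ℝ) :
    ∑ i, (P i - Q i) * (r * R i + s * S i + t * T i + v * V i) =
      r * dt P R + s * dt P S + t * dt P T + v * dt P V
        - (r * dt Q R + s * dt Q S + t * dt Q T + v * dt Q V) := by
  unfold dt
  simp only [Finset.mul_sum, ← Finset.sum_add_distrib, ← Finset.sum_sub_distrib]
  exact Finset.sum_congr rfl fun i _ => by ring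

theorem v7_exp2 {n : ℕ} (P Q R : Fin n → ℝ) :
    ∑ i, P i * (Q i - R i) = dt P Q - dt P R := by
  unfold dt
  rw [← Finset.sum_sub_distrib]
  exact Finset.sum_congr rfl fun i _ => by ring

theorem v7_exp3 {n : ℕ} (P1 P2 Q1 Q2 R1 R2 : Fin n → ℝ) (c b a J z1 z2 z3 z4 : ℝ) :
    ∑ i, ((c * P1 i - b * P2 i) / J * ((Q1 i - R1 i) * z1 + (Q2 i - R2 i) * z2)
        + (a * P2 i - b * P1 i) / J * ((Q1 i - R1 i) * z3 + (Q2 i - R2 i) * z4)) =
      (z1 * (c * (dt P1 Q1 - dt P1 R1) - b * (dt P2 Q1 - dt P2 R1))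
        + z2 * (c * (dt P1 Q2 - dt P1 R2) - b * (dt P2 Q2 - dt P2 R2))
        + z3 * (a * (dt P2 Q1 - dt P2 R1) - b * (dt P1 Q1 - dt P1 R1))
        + z4 * (a * (dt P2 Q2 - dt P2 R2) - b * (dt P1 Q2 - dt P1 R2))) / J := by
  unfold dt
  simp only [← Finset.sum_sub_distrib, Finset.mul_sum, ← Finset.sum_add_distrib, Finset.sum_div]
  exact Finset.sum_congr rfl fun i _ => by ring

/-- The certificate in scalar form. -/
theorem v7_value {n : ℕ} (γ : ℝ) (hγ : 0 < γ) (g : ℝ → ℝ) (hg2 : ContDiff ℝ 2 g) (a : ℝ)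
    (ha : 0 < a) (hc : ∀ s, s ≤ a → g s = g a) (A X : Mat n) (hA : 0 < gram A) (hX : 0 < gram X)
    (w w' mu d2 x1 x2 DS J0 J p0 p h : ℝ) (eJ0 : J0 = jac2 A) (eJ : J = jac2 X)
    (ep0 : p0 = deriv g J0) (ep : p = deriv g J) (eh : h = (J * p - g J) - (J0 * p0 - g J0))
    (hw : w = (dt (cl A 1) (cl A 1) * dt (cl A 0) (cl X 0) - dt (cl A 0) (cl A 1) *
      dt (cl A 1) (cl X 0) + dt (cl A 0) (cl A 0) * dt (cl A 1) (cl X 1)
      - dt (cl A 0) (cl A 1) * dt (cl A 0) (cl X 1)) / J0)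
    (hw' : w' = (dt (cl X 1) (cl X 1) * dt (cl A 0) (cl X 0) - dt (cl X 0) (cl X 1) *
      dt (cl A 0) (cl X 1) + dt (cl X 0) (cl X 0) * dt (cl A 1) (cl X 1)
      - dt (cl X 0) (cl X 1) * dt (cl A 1) (cl X 0)) / J)
    (hmu : mu = (dt (cl A 0) (cl X 0) * dt (cl A 1) (cl X 1) - dt (cl A 0) (cl X 1) *
      dt (cl A 1) (cl X 0)) / J0)
    (hd2 : d2 = dt (cl A 0) (cl A 0) + dt (cl A 1) (cl A 1) + dt (cl X 0) (cl X 0)
      + dt (cl X 1) (cl X 1) - 2 * (dt (cl A 0) (cl X 0) + dt (cl A 1) (cl X 1)))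
    (hx1 : x1 = (dt (cl X 0) (cl X 0) - dt (cl X 1) (cl X 1)) / 2
      - (dt (cl A 0) (cl A 0) - dt (cl A 1) (cl A 1)) / 2)
    (hx2 : x2 = dt (cl X 0) (cl X 1) - dt (cl A 0) (cl A 1))
    (hDS : DS = (x1 * (dt (cl A 1) (cl A 1) * dt (cl A 0) (cl X 0) - dt (cl A 0) (cl A 1) *
        dt (cl A 1) (cl X 0) + dt (cl A 0) (cl A 1) * dt (cl A 0) (cl X 1)
        - dt (cl A 0) (cl A 0) * dt (cl A 1) (cl X 1))
      + x2 * (dt (cl A 1) (cl A 1) * dt (cl A 0) (cl X 1) - dt (cl A 0) (cl A 1) *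
        dt (cl A 1) (cl X 1) - dt (cl A 0) (cl A 1) * dt (cl A 0) (cl X 0)
        + dt (cl A 0) (cl A 0) * dt (cl A 1) (cl X 0))) / J0 ^ 2) :
    ∑ q, ∑ r, v7_C γ p0 J0 (dt (cl A 0) (cl A 0)) (dt (cl A 0) (cl A 1)) (dt (cl A 1) (cl A 1)) A
        q r * minor (Wf (fCod γ g) X - Wf (fCod γ g) A) q r =
      γ * (d2 + DS - (x1 ^ 2 + x2 ^ 2) / (2 * J0)) + p0 * (w - w' + 2 * J - 2 * mu)
        + (p - p0) * (2 * J - w') - h * (2 - w / J0) + h ^ 2 / (2 * γ * J0) := by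
  have hJ0 : 0 < J0 := by rw [eJ0]; exact Real.sqrt_pos.2 hA
  have hJ : 0 < J := by rw [eJ]; exact Real.sqrt_pos.2 hX
  have hJ02 : J0 ^ 2 = dt (cl A 0) (cl A 0) * dt (cl A 1) (cl A 1) - dt (cl A 0) (cl A 1) ^ 2 := by
    rw [eJ0]
    exact v6_jac_sq A hA
  have hJ2 : J ^ 2 = dt (cl X 0) (cl X 0) * dt (cl X 1) (cl X 1) - dt (cl X 0) (cl X 1) ^ 2 := by
    rw [eJ]
    exact v6_jac_sq X hX
  obtain ⟨zx1, zx2, zx3, zx4⟩ := v6_Z γ g hg2 a ha hc X hX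
  obtain ⟨za1, za2, za3, za4⟩ := v6_Z γ g hg2 a ha hc A hA
  have gx0 := fun i => v6_grd0 γ g hg2 a ha hc X hX i
  have gx1 := fun i => v6_grd1 γ g hg2 a ha hc X hX i
  have ga0 := fun i => v6_grd0 γ g hg2 a ha hc A hA i
  have ga1 := fun i => v6_grd1 γ g hg2 a ha hc A hA i
  rw [v7_sum]
  have k1 : (∑ i, A i 0 * (X i 0 - A i 0)) = dt (cl A 0) (cl X 0) - dt (cl A 0) (cl A 0) :=
    v7_exp2 (cl A 0) (cl X 0) (cl A 0)
  have k2 : (∑ i, A i 1 * (X i 1 - A i 1)) = dt (cl A 1) (cl X 1) - dt (cl A 1) (cl A 1) :=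
    v7_exp2 (cl A 1) (cl X 1) (cl A 1)
  have k3 : (∑ i, A i 0 * (X i 1 - A i 1)) = dt (cl A 0) (cl X 1) - dt (cl A 0) (cl A 1) :=
    v7_exp2 (cl A 0) (cl X 1) (cl A 1)
  have k4 : (∑ i, A i 1 * (X i 0 - A i 0)) = dt (cl A 1) (cl X 0) - dt (cl A 1) (cl A 0) :=
    v7_exp2 (cl A 1) (cl X 0) (cl A 0)
  rw [k1, k2, k3, k4]
  have k5 : ∑ i, ((X i 0 - A i 0) * (Grd (fCod γ g) X i 0 - Grd (fCod γ g) A i 0)
        + (X i 1 - A i 1) * (Grd (fCod γ g) X i 1 - Grd (fCod γ g) A i 1)) =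
      (∑ i, (cl X 0 i - cl A 0 i) * ((γ + p * dt (cl X 1) (cl X 1) / J) * cl X 0 i
        + (-(p * dt (cl X 0) (cl X 1) / J)) * cl X 1 i
        + (-(γ + p0 * dt (cl A 1) (cl A 1) / J0)) * cl A 0 i
        + (p0 * dt (cl A 0) (cl A 1) / J0) * cl A 1 i))
      + (∑ i, (cl X 1 i - cl A 1 i) * ((γ + p * dt (cl X 0) (cl X 0) / J) * cl X 1 i
        + (-(p * dt (cl X 0) (cl X 1) / J)) * cl X 0 i
        + (-(γ + p0 * dt (cl A 0) (cl A 0) / J0)) * cl A 1 i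
        + (p0 * dt (cl A 0) (cl A 1) / J0) * cl A 0 i)) := by
    rw [← Finset.sum_add_distrib]
    refine Finset.sum_congr rfl fun i _ => ?_
    rw [gx0, gx1, ga0, ga1, ← eJ, ← eJ0, ← ep, ← ep0]
    show (X i 0 - A i 0) * (γ * X i 0 + p * ((dt (cl X 1) (cl X 1) * X i 0 -
        dt (cl X 0) (cl X 1) * X i 1) / J) - (γ * A i 0 + p0 * ((dt (cl A 1) (cl A 1) * A i 0 -
        dt (cl A 0) (cl A 1) * A i 1) / J0))) +
      (X i 1 - A i 1) * (γ * X i 1 + p * ((dt (cl X 0) (cl X 0) * X i 1 -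
        dt (cl X 0) (cl X 1) * X i 0) / J) - (γ * A i 1 + p0 * ((dt (cl A 0) (cl A 0) * A i 1 -
        dt (cl A 0) (cl A 1) * A i 0) / J0))) = _
    unfold cl
    ring
  rw [k5, v7_exp, v7_exp]
  have k6 := v7_exp3 (cl A 0) (cl A 1) (cl X 0) (cl X 1) (cl A 0) (cl A 1)
    (dt (cl A 1) (cl A 1)) (dt (cl A 0) (cl A 1)) (dt (cl A 0) (cl A 0)) (J0 ^ 2)
    (Zf (fCod γ g) X 0 0 - Zf (fCod γ g) A 0 0) (Zf (fCod γ g) X 0 1 - Zf (fCod γ g) A 0 1)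
    (Zf (fCod γ g) X 1 0 - Zf (fCod γ g) A 1 0) (Zf (fCod γ g) X 1 1 - Zf (fCod γ g) A 1 1)
  have k7 : ∑ i, ((dt (cl A 1) (cl A 1) * A i 0 - dt (cl A 0) (cl A 1) * A i 1) / J0 ^ 2 *
        ((X i 0 - A i 0) * (Zf (fCod γ g) X 0 0 - Zf (fCod γ g) A 0 0)
          + (X i 1 - A i 1) * (Zf (fCod γ g) X 0 1 - Zf (fCod γ g) A 0 1))
      + (dt (cl A 0) (cl A 0) * A i 1 - dt (cl A 0) (cl A 1) * A i 0) / J0 ^ 2 *
        ((X i 0 - A i 0) * (Zf (fCod γ g) X 1 0 - Zf (fCod γ g) A 1 0)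
          + (X i 1 - A i 1) * (Zf (fCod γ g) X 1 1 - Zf (fCod γ g) A 1 1))) = _ := k6
  rw [k7]
  have m1 : Zf (fCod γ g) X 0 0 - Zf (fCod γ g) A 0 0 = γ * x1 + h := by
    rw [zx1, za1, ← eJ, ← eJ0, ← ep, ← ep0, eh, hx1]
    ring
  have m2 : Zf (fCod γ g) X 0 1 - Zf (fCod γ g) A 0 1 = γ * x2 := by
    rw [zx2, za2, hx2]
    ring
  have m3 : Zf (fCod γ g) X 1 0 - Zf (fCod γ g) A 1 0 = γ * x2 := by
    rw [zx3, za3, hx2]
    ring
  have m4 : Zf (fCod γ g) X 1 1 - Zf (fCod γ g) A 1 1 = -(γ * x1) + h := by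
    rw [zx4, za4, ← eJ, ← eJ0, ← ep, ← ep0, eh, hx1]
    ring
  rw [m1, m2, m3, m4]
  have c1 : dt (cl A 1) (cl A 0) = dt (cl A 0) (cl A 1) := dt_comm _ _
  have c2 : dt (cl X 1) (cl X 0) = dt (cl X 0) (cl X 1) := dt_comm _ _
  have c3 : dt (cl X 0) (cl A 0) = dt (cl A 0) (cl X 0) := dt_comm _ _
  have c4 : dt (cl X 0) (cl A 1) = dt (cl A 1) (cl X 0) := dt_comm _ _
  have c5 : dt (cl X 1) (cl A 0) = dt (cl A 0) (cl X 1) := dt_comm _ _
  have c6 : dt (cl X 1) (cl A 1) = dt (cl A 1) (cl X 1) := dt_comm _ _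
  rw [c1, c2, c3, c4, c5, c6]
  clear k1 k2 k3 k4 k5 k6 k7 m1 m2 m3 m4 zx1 zx2 zx3 zx4 za1 za2 za3 za4 gx0 gx1 ga0 ga1
    c1 c2 c3 c4 c5 c6 ep0 ep eJ0 eJ eh
  generalize dt (cl A 0) (cl A 0) = a11 at *
  generalize dt (cl A 0) (cl A 1) = a12 at *
  generalize dt (cl A 1) (cl A 1) = a22 at *
  generalize dt (cl X 0) (cl X 0) = x11 at *
  generalize dt (cl X 0) (cl X 1) = x12 at *
  generalize dt (cl X 1) (cl X 1) = x22 at *
  generalize dt (cl A 0) (cl X 0) = b11 at *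
  generalize dt (cl A 0) (cl X 1) = b12 at *
  generalize dt (cl A 1) (cl X 0) = b21 at *
  generalize dt (cl A 1) (cl X 1) = b22 at *
  have hJne := hJ.ne'
  have hJ0ne := hJ0.ne'
  have hγne := hγ.ne'
  -- products
  have hwJ : w * J0 = a22 * b11 - a12 * b21 + a11 * b22 - a12 * b12 := by
    rw [hw]; field_simp
  have hwJ' : w' * J = x22 * b11 - x12 * b12 + x11 * b22 - x12 * b21 := by
    rw [hw']; field_simp
  have hmuJ : mu * J0 = b11 * b22 - b12 * b21 := by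
    rw [hmu]; field_simp
  -- the part with the minor of D
  have n1 : (b11 - a11) * (b22 - a22) - (b12 - a12) * (b21 - a12) = J0 * (mu - w + J0) := by
    have : J0 * (mu - w + J0) = mu * J0 - w * J0 + J0 ^ 2 := by ring
    rw [this, hwJ, hmuJ, hJ02]
    ring
  have n2 : (-2 * p0 / J0) * ((b11 - a11) * (b22 - a22) - (b12 - a12) * (b21 - a12)) =
      -2 * p0 * (mu - w + J0) := by
    rw [n1]
    field_simp
  rw [n2]
  -- the pairing of D and Y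
  have n3 : (γ + p * x22 / J) * x11 + -(p * x12 / J) * x12 + -(γ + p0 * a22 / J0) * b11 +
        p0 * a12 / J0 * b21 -
      ((γ + p * x22 / J) * b11 + -(p * x12 / J) * b12 + -(γ + p0 * a22 / J0) * a11 +
        p0 * a12 / J0 * a12) +
      ((γ + p * x11 / J) * x22 + -(p * x12 / J) * x12 + -(γ + p0 * a11 / J0) * b22 +
        p0 * a12 / J0 * b12 -
      ((γ + p * x11 / J) * b22 + -(p * x12 / J) * b21 + -(γ + p0 * a11 / J0) * a22 +
        p0 * a12 / J0 * a12)) =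
      γ * d2 + p * (2 * J - w') - p0 * (w - 2 * J0) := by
    have e1 : p * (2 * J - w') = p * ((2 * J ^ 2 - w' * J) / J) := by field_simp
    have e2 : p0 * (w - 2 * J0) = p0 * ((w * J0 - 2 * J0 ^ 2) / J0) := by field_simp
    rw [e1, e2, hwJ, hwJ', hJ2, hJ02, hd2]
    ring
  rw [n3]
  -- the pairing of D and Z
  have n4 : ((γ * x1 + h) * (a22 * (b11 - a11) - a12 * (b21 - a12)) +
        γ * x2 * (a22 * (b12 - a12) - a12 * (b22 - a22)) +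
        γ * x2 * (a11 * (b21 - a12) - a12 * (b11 - a11)) +
        (-(γ * x1) + h) * (a11 * (b22 - a22) - a12 * (b12 - a12))) / J0 ^ 2 =
      γ * DS - h * (2 - w / J0) := by
    have e1 : h * (2 - w / J0) = h * ((2 * J0 ^ 2 - w * J0) / J0 ^ 2) := by field_simp
    rw [e1, hwJ, hDS]
    have e2 : (2 * J0 ^ 2 - (a22 * b11 - a12 * b21 + a11 * b22 - a12 * b12)) =
      (2 * (a11 * a22 - a12 ^ 2) - (a22 * b11 - a12 * b21 + a11 * b22 - a12 * b12)) := by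
      rw [hJ02]
    rw [e2]
    ring
  rw [n4]
  have n5 : 1 / (2 * γ * J0) * ((γ * x1 + h) * (-(γ * x1) + h) - γ * x2 * (γ * x2)) =
      h ^ 2 / (2 * γ * J0) - γ * ((x1 ^ 2 + x2 ^ 2) / (2 * J0)) := by
    field_simp
    ring
  rw [n5]
  ring

end Pool.Agent.SLG
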