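import Pool.Agent.SLG.V7
import Pool.Agent.SLG.H

/-!
V8: the two-point condition and partial regularity for `γ/2 |X|² + g (J(X))` in every codimension.
-/

namespace Pool.Agent.SLG

open MeasureTheory

/-- The `n × 2` matrices `X` with `κ |v|² ≤ |X v|² ≤ m κ |v|²` for all vectors `v = (s, t)`. -/
def KCod {n : ℕ} (κ m : ℝ) : Set (Mat n) :=
  {X | ∀ s t : ℝ, κ * (s ^ 2 + t ^ 2) ≤ ∑ i, (X i 0 * s + X i 1 * t) ^ 2 ∧
    ∑ i, (X i 0 * s + X i 1 * t) ^ 2 ≤ m * κ * (s ^ 2 + t ^ 2)}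

/-- Strict bounds for the Gram matrix. -/
def SGB (k a b c : ℝ) : Prop :=
  k < (a + c) / 2 ∧ (a + c) / 2 < 2 * k ∧ ((a - c) / 2) ^ 2 + b ^ 2 < ((a + c) / 2 - k) ^ 2 ∧
    ((a - c) / 2) ^ 2 + b ^ 2 < (2 * k - (a + c) / 2) ^ 2

theorem v8_quad {n : ℕ} (X : Mat n) (s t : ℝ) : ∑ i, (X i 0 * s + X i 1 * t) ^ 2 =
    dt (cl X 0) (cl X 0) * s ^ 2 + 2 * dt (cl X 0) (cl X 1) * s * t
      + dt (cl X 1) (cl X 1) * t ^ 2 := by
  unfold dt cl
  simp only [Finset.sum_mul, Finset.mul_sum, ← Finset.sum_add_distrib]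
  exact Finset.sum_congr rfl fun i _ => by ring

theorem v8_one {n : ℕ} {κ m : ℝ} (hκ : 0 < κ) {A : Mat n} (hA : A ∈ KCod κ m) : 1 ≤ m := by
  have h := hA 1 0
  have h1 := h.1.trans h.2
  have h2 : κ * (1 ^ 2 + 0 ^ 2) = κ * 1 := by ring
  have h3 : m * κ * (1 ^ 2 + 0 ^ 2) = κ * m := by ring
  rw [h2, h3] at h1
  exact le_of_mul_le_mul_left h1 hκ

theorem v8_sgb {n : ℕ} {κ m : ℝ} (hκ : 0 < κ) (hm : m < 2) {A : Mat n} (hA : A ∈ KCod κ m) :
    SGB (κ * (m + 2) / 4) (dt (cl A 0) (cl A 0)) (dt (cl A 0) (cl A 1))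
      (dt (cl A 1) (cl A 1)) := by
  have hm1 := v8_one hκ hA
  have hq : ∀ s t : ℝ, κ * (s ^ 2 + t ^ 2) ≤ dt (cl A 0) (cl A 0) * s ^ 2 +
      2 * dt (cl A 0) (cl A 1) * s * t + dt (cl A 1) (cl A 1) * t ^ 2 ∧
      dt (cl A 0) (cl A 0) * s ^ 2 +
      2 * dt (cl A 0) (cl A 1) * s * t + dt (cl A 1) (cl A 1) * t ^ 2 ≤
        m * κ * (s ^ 2 + t ^ 2) := by
    intro s t
    have := hA s t
    rw [v8_quad] at this
    exact this
  generalize dt (cl A 0) (cl A 0) = a at *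
  generalize dt (cl A 0) (cl A 1) = b at *
  generalize dt (cl A 1) (cl A 1) = c at *
  have a1 : κ ≤ a := by have := (hq 1 0).1; linarith
  have a2 : a ≤ m * κ := by have := (hq 1 0).2; linarith
  have c1 : κ ≤ c := by have := (hq 0 1).1; linarith
  have c2 : c ≤ m * κ := by have := (hq 0 1).2; linarith
  have d1 : b ^ 2 ≤ (a - κ) * (c - κ) := by
    have h := discrim_le_zero (a := a - κ) (b := 2 * b) (c := c - κ) (fun x => by
      have := (hq x 1).1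
      nlinarith)
    unfold discrim at h
    linarith
  have d2 : b ^ 2 ≤ (m * κ - a) * (m * κ - c) := by
    have h := discrim_le_zero (a := m * κ - a) (b := -(2 * b)) (c := m * κ - c) (fun x => by
      have := (hq x 1).2
      nlinarith)
    unfold discrim at h
    linarith
  have k1 : 0 < κ - κ * (m + 2) / 4 := by nlinarith
  have k2 : 0 < 2 * (κ * (m + 2) / 4) - m * κ := by nlinarith
  set k := κ * (m + 2) / 4
  refine ⟨by linarith, by linarith, ?_, ?_⟩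
  · have e : ((a + c) / 2 - k) ^ 2 - ((a - c) / 2) ^ 2 = (a - k) * (c - k) := by ring
    have e2 : (a - k) * (c - k) = (a - κ) * (c - κ) + (κ - k) * (a - κ) + (κ - k) * (c - κ)
      + (κ - k) ^ 2 := by ring
    have e3 : 0 ≤ (κ - k) * (a - κ) := mul_nonneg k1.le (by linarith)
    have e4 : 0 ≤ (κ - k) * (c - κ) := mul_nonneg k1.le (by linarith)
    have e5 : 0 < (κ - k) ^ 2 := by positivity
    linarith
  · have e : (2 * k - (a + c) / 2) ^ 2 - ((a - c) / 2) ^ 2 = (2 * k - a) * (2 * k - c) := by ring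
    have e2 : (2 * k - a) * (2 * k - c) = (m * κ - a) * (m * κ - c) +
      (2 * k - m * κ) * (m * κ - a) + (2 * k - m * κ) * (m * κ - c)
      + (2 * k - m * κ) ^ 2 := by ring
    have e3 : 0 ≤ (2 * k - m * κ) * (m * κ - a) := mul_nonneg k2.le (by linarith)
    have e4 : 0 ≤ (2 * k - m * κ) * (m * κ - c) := mul_nonneg k2.le (by linarith)
    have e5 : 0 < (2 * k - m * κ) ^ 2 := by positivity
    linarith

theorem v8_open {n : ℕ} (k : ℝ) : IsOpen {X : Mat n | SGB k (dt (cl X 0) (cl X 0))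
    (dt (cl X 0) (cl X 1)) (dt (cl X 1) (cl X 1))} := by
  have h : ∀ i j : Fin 2, Continuous (fun X : Mat n => dt (cl X i) (cl X j)) := by
    intro i j
    unfold dt cl
    fun_prop
  have h00 := h 0 0
  have h01 := h 0 1
  have h11 := h 1 1
  unfold SGB
  refine IsOpen.and ?_ (IsOpen.and ?_ (IsOpen.and ?_ ?_))
  · exact isOpen_lt continuous_const ((h00.add h11).div_const 2)
  · exact isOpen_lt ((h00.add h11).div_const 2) continuous_const
  · exact isOpen_lt ((((h00.sub h11).div_const 2).pow 2).add (h01.pow 2))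
      ((((h00.add h11).div_const 2).sub continuous_const).pow 2)
  · exact isOpen_lt ((((h00.sub h11).div_const 2).pow 2).add (h01.pow 2))
      ((continuous_const.sub ((h00.add h11).div_const 2)).pow 2)

theorem v8_compact {n : ℕ} (κ m : ℝ) : IsCompact (KCod κ m : Set (Mat n)) := by
  apply Metric.isCompact_of_isClosed_isBounded
  · unfold KCod
    simp only [Set.setOf_forall]
    refine isClosed_iInter fun s => isClosed_iInter fun t => ?_
    have hc : Continuous (fun X : Mat n => ∑ i, (X i 0 * s + X i 1 * t) ^ 2) := by fun_prop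
    exact (isClosed_le continuous_const hc).inter (isClosed_le hc continuous_const)
  · rw [isBounded_iff_forall_norm_le]
    refine ⟨Real.sqrt (m * κ), fun X hX => ?_⟩
    rw [pi_norm_le_iff_of_nonneg (Real.sqrt_nonneg _)]
    intro i
    rw [pi_norm_le_iff_of_nonneg (Real.sqrt_nonneg _)]
    intro j
    rw [Real.norm_eq_abs]
    apply Real.abs_le_sqrt
    have hj : j = 0 ∨ j = 1 := by fin_cases j <;> simp
    rcases hj with rfl | rfl
    · have h := (hX 1 0).2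
      have h2 : X i 0 ^ 2 ≤ ∑ i, (X i 0 * 1 + X i 1 * 0) ^ 2 := by
        have := Finset.single_le_sum (f := fun i => (X i 0 * 1 + X i 1 * 0) ^ 2)
          (fun i _ => sq_nonneg _) (Finset.mem_univ i)
        simpa using this
      calc X i 0 ^ 2 ≤ _ := h2
        _ ≤ _ := h
        _ = m * κ := by ring
    · have h := (hX 0 1).2
      have h2 : X i 1 ^ 2 ≤ ∑ i, (X i 0 * 0 + X i 1 * 1) ^ 2 := by
        have := Finset.single_le_sum (f := fun i => (X i 0 * 0 + X i 1 * 1) ^ 2)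
          (fun i _ => sq_nonneg _) (Finset.mem_univ i)
        simpa using this
      calc X i 1 ^ 2 ≤ _ := h2
        _ ≤ _ := h
        _ = m * κ := by ring

/-- Bounds which follow from the bounds on the Gram matrix. -/
theorem v8_bounds (k a b c : ℝ) (hk : 0 < k) (h : SGB k a b c) :
    0 < a * c - b ^ 2 ∧ k ^ 2 ≤ a * c - b ^ 2 ∧ a * c - b ^ 2 ≤ (2 * k) ^ 2 ∧
      k * ((a + c) / 2) ≤ a * c - b ^ 2 ∧ ((a + c) / 2) ^ 2 ≤ 2 * (a * c - b ^ 2) := by
  obtain ⟨h1, h2, h3, h4⟩ := h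
  have e : a * c - b ^ 2 = ((a + c) / 2) ^ 2 - (((a - c) / 2) ^ 2 + b ^ 2) := by ring
  have e1 : 2 * k * ((a + c) / 2) - k ^ 2 ≤ a * c - b ^ 2 := by
    rw [e]
    nlinarith
  have e2 : k * k ≤ k * ((a + c) / 2) := mul_le_mul_of_nonneg_left h1.le hk.le
  have e3 : k ^ 2 ≤ a * c - b ^ 2 := by nlinarith
  have e4 : k * ((a + c) / 2) ≤ a * c - b ^ 2 := by nlinarith
  refine ⟨by nlinarith, e3, ?_, e4, ?_⟩
  · rw [e]
    nlinarith [sq_nonneg ((a - c) / 2), sq_nonneg b]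
  · nlinarith

theorem v8_nonneg {g : ℝ → ℝ} (hg : ConvexOn ℝ Set.univ g) (hg2 : ContDiff ℝ 2 g) (a : ℝ)
    (hc : ∀ s, s ≤ a → g s = g a) (x : ℝ) : 0 ≤ deriv g x := by
  by_contra hcon
  push Not at hcon
  set y := min a (x + (g a - g x + 1) / deriv g x) with hy
  have h1 := b4_tangent hg x y (hg2.differentiable (by norm_num) x)
  have h2 : g y = g a := hc y (min_le_left _ _)
  have h3 : y - x ≤ (g a - g x + 1) / deriv g x := by
    have := min_le_right a (x + (g a - g x + 1) / deriv g x)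
    linarith
  have h4 : deriv g x * ((g a - g x + 1) / deriv g x) ≤ deriv g x * (y - x) :=
    mul_le_mul_of_nonpos_left h3 hcon.le
  rw [mul_div_cancel₀ _ hcon.ne] at h4
  rw [h2] at h1
  linarith

/-- The two-point condition. -/
theorem cod_two {n : ℕ} (γ κ m : ℝ) (hγ : 0 < γ) (hκ : 0 < κ) (hm : m < 2) (g : ℝ → ℝ)
    (hg : ConvexOn ℝ Set.univ g) (hg2 : ContDiff ℝ 2 g) (a : ℝ) (ha : 0 < a)
    (hc : ∀ s, s ≤ a → g s = g a) : TwoPoint (fCod γ g) (KCod κ m : Set (Mat n)) := by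
  intro A hA
  have hm1 := v8_one hκ hA
  have hSA := v8_sgb hκ hm hA
  have hkpos : 0 < κ * (m + 2) / 4 := by positivity
  obtain ⟨r, hr, hball⟩ := Metric.isOpen_iff.1 (v8_open (n := n) (κ * (m + 2) / 4)) A hSA
  refine ⟨v7_C γ (deriv g (jac2 A)) (jac2 A) (dt (cl A 0) (cl A 0)) (dt (cl A 0) (cl A 1))
    (dt (cl A 1) (cl A 1)) A, γ / 16, by positivity, r, hr, fun X hX => ?_⟩
  have hSX : SGB (κ * (m + 2) / 4) (dt (cl X 0) (cl X 0)) (dt (cl X 0) (cl X 1))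
      (dt (cl X 1) (cl X 1)) := by
    rcases hX with hX | hX
    · exact v8_sgb hκ hm hX
    · have : X ∈ Metric.ball A r := by
        rw [Metric.mem_ball, dist_eq_norm]
        exact hX
      exact hball this
  set k := κ * (m + 2) / 4
  have gA : gram A = dt (cl A 0) (cl A 0) * dt (cl A 1) (cl A 1) - dt (cl A 0) (cl A 1) ^ 2 := rfl
  have gX : gram X = dt (cl X 0) (cl X 0) * dt (cl X 1) (cl X 1) - dt (cl X 0) (cl X 1) ^ 2 := rfl
  obtain ⟨bA0, bA1, bA2, bA3, bA4⟩ := v8_bounds k _ _ _ hkpos hSA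
  obtain ⟨bX0, bX1, bX2, -, -⟩ := v8_bounds k _ _ _ hkpos hSX
  rw [← gA] at bA0 bA1 bA2 bA3 bA4
  rw [← gX] at bX0 bX1 bX2
  have hJA : jac2 A ^ 2 = gram A := v6_jac_sq A bA0
  have hJX : jac2 X ^ 2 = gram X := v6_jac_sq X bX0
  have hJA0 : 0 < jac2 A := Real.sqrt_pos.2 bA0
  have hJX0 : 0 < jac2 X := Real.sqrt_pos.2 bX0
  rw [v7_value γ hγ g hg2 a ha hc A X bA0 bX0 _ _ _ _ _ _ _ (jac2 A) (jac2 X) _ (deriv g (jac2 X))
    _ rfl rfl rfl rfl rfl rfl rfl rfl rfl rfl rfl rfl]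
  obtain ⟨f1, f2, f3, f4, f5⟩ := v5_facts k hkpos (cl A 0) (cl A 1) (cl X 0) (cl X 1) (jac2 A)
    (jac2 X) hJA0 hJX0 hJA hJX ⟨hSA.1.le, hSA.2.1.le, hSA.2.2.1.le, hSA.2.2.2.le⟩
    ⟨hSX.1.le, hSX.2.1.le, hSX.2.2.1.le, hSX.2.2.2.le⟩ _ _ _ _ _ _ _ rfl rfl rfl rfl rfl rfl rfl
  have hd2 : sq (X - A) = dt (cl A 0) (cl A 0) + dt (cl A 1) (cl A 1) + dt (cl X 0) (cl X 0)
      + dt (cl X 1) (cl X 1) - 2 * (dt (cl A 0) (cl X 0) + dt (cl A 1) (cl X 1)) := by
    unfold sq dt cl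
    simp only [Fin.sum_univ_two, Pi.sub_apply, Finset.mul_sum, mul_add,
      ← Finset.sum_add_distrib, ← Finset.sum_sub_distrib]
    exact Finset.sum_congr rfl fun i _ => by ring
  have hd0 : 0 ≤ sq (X - A) := by
    unfold sq
    exact Finset.sum_nonneg fun i _ => Finset.sum_nonneg fun j _ => sq_nonneg _
  rw [hd2] at hd0 ⊢
  have t1 := b4_tangent hg (jac2 A) (jac2 X) (hg2.differentiable (by norm_num) _)
  have t2 := b4_tangent hg (jac2 X) (jac2 A) (hg2.differentiable (by norm_num) _)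
  have p1 := v8_nonneg hg hg2 a hc (jac2 A)
  have p2 := v8_nonneg hg hg2 a hc (jac2 X)
  have hu2 : (dt (cl A 0) (cl A 0) + dt (cl A 1) (cl A 1)) / 2 ≤ 7 / 4 * jac2 A := by
    have : ((dt (cl A 0) (cl A 0) + dt (cl A 1) (cl A 1)) / 2) ^ 2 ≤ (7 / 4 * jac2 A) ^ 2 := by
      rw [mul_pow, hJA]
      linarith
    exact (abs_le_of_sq_le_sq' this (by positivity)).2
  exact v5_final k γ (jac2 A) (jac2 X) _ _ _ _ _
    ((dt (cl A 0) (cl A 0) + dt (cl A 1) (cl A 1)) / 2) (deriv g (jac2 A)) (deriv g (jac2 X)) _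
    hkpos hγ
    (by rw [← hJA] at bA1; exact le_of_sq_le_sq bA1 hJA0.le)
    (by rw [← hJA] at bA2; exact le_of_sq_le_sq bA2 (by positivity))
    (by rw [← hJX] at bX1; exact le_of_sq_le_sq bX1 hJX0.le)
    (by rw [← hJX] at bX2; exact le_of_sq_le_sq bX2 (by positivity)) hd0
    (by rw [hJA]; exact bA3) hu2 f1 f2 f3 f4 f5 p1 p2
    (by nlinarith) (by linarith) (by linarith)

/-- Partial regularity. -/
theorem cod_regular {n : ℕ} (γ κ m : ℝ) (hγ : 0 < γ) (hκ : 0 < κ) (hm : m < 2) (g : ℝ → ℝ)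
    (hg : ConvexOn ℝ Set.univ g) (hg2 : ContDiff ℝ 2 g) (a : ℝ) (ha : 0 < a)
    (hc : ∀ s, s ≤ a → g s = g a) :
    ∃ ρ δ : ℝ, 0 < ρ ∧ 0 < δ ∧ ∀ h : Mat n → ℝ, ContDiff ℝ 2 h → SmallC2 ρ δ h →
      ∀ (Ω : Set E2) (u : E2 → Fin n → ℝ) (L : NNReal), IsOpen Ω → LipschitzOnWith L u Ω →
      Stationary (fun X => fCod γ g X + h X) Ω u →
      (∀ᵐ x ∂(volume.restrict Ω), Jac u x ∈ KCod κ m) → PartiallyRegular Ω u :=
  stable_regular (fCod γ g) (fCod_contDiff γ g hg2 a ha hc) (KCod κ m) (v8_compact κ m)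
    (cod_two γ κ m hγ hκ hm g hg hg2 a ha hc)

end Pool.Agent.SLG
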